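import Pool.Agent.Lib.MP_f58a57_nt.LT.Defs

/-!
# Part A, definitions: weighted lengths, `chi`, generating functions
-/

open Complex MvPolynomial Matrix

noncomputable section

namespace Pool.Agent.LT

/-- `ℚ[x_0..x_m]` -/
abbrev PQ (m : ℕ) : Type := MvPolynomial (Fin (m + 1)) ℚ
/-- `ℤ[x_0..x_m]` -/
abbrev PZ (m : ℕ) : Type := MvPolynomial (Fin (m + 1)) ℤ
/-- `ℂ[x_0..x_m]` -/
abbrev PC (m : ℕ) : Type := MvPolynomial (Fin (m + 1)) ℂ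

variable {m : ℕ}

/-- integer polynomials as rational polynomials -/
def zq (f : PZ m) : PQ m := MvPolynomial.map (Int.castRingHom ℚ) f
/-- integer polynomials as complex polynomials -/
def zc (f : PZ m) : PC m := MvPolynomial.map (Int.castRingHom ℂ) f
/-- rational polynomials as complex polynomials -/
def qc (f : PQ m) : PC m := MvPolynomial.map (algebraMap ℚ ℂ) f

/-- `φ : x_0 ↦ x_0, x_i ↦ x_i + θ_i x_0` -/
def phi (θ : Fin m → ℂ) : PC m →ₐ[ℂ] PC m :=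
  MvPolynomial.aeval (Fin.cons (X 0) (fun i : Fin m => X i.succ + C (θ i) * X 0) : Fin (m + 1) → PC m)

/-- the weight of the monomial `d` among the forms of degree `L`: `exp (w (τ L - (L - d_0))⁺)` -/
def wt (w τ : ℝ) (L : ℕ) (d : Fin (m + 1) →₀ ℕ) : ℝ := Real.exp (w * max 0 (τ * L - ((L : ℝ) - (d 0 : ℕ))))

/-- the weighted length of a form of degree `L` -/
def wl (θ : Fin m → ℂ) (w τ : ℝ) (L : ℕ) (f : PC m) : ℝ := ∑ d ∈ (phi θ f).support, ‖(phi θ f).coeff d‖ * wt w τ L d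

/-- the complexified ideal -/
def JC (J : Ideal (PQ m)) : Ideal (PC m) := J.map (MvPolynomial.map (algebraMap ℚ ℂ))

/-- homogeneous ideals -/
def HI (J : Ideal (PQ m)) : Prop := ∀ f ∈ J, ∀ n : ℕ, MvPolynomial.homogeneousComponent n f ∈ J

/-- the forms of degree `L` modulo `J` -/
def qd (J : Ideal (PQ m)) (L : ℕ) : Submodule ℚ (PQ m ⧸ J) :=
  (MvPolynomial.homogeneousSubmodule (Fin (m + 1)) ℚ L).map (Ideal.Quotient.mkₐ ℚ J).toLinearMap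

/-- the Hilbert function -/
def rJ (J : Ideal (PQ m)) (L : ℕ) : ℕ := Module.finrank ℚ (qd J L)

/-- the ideal `J : a` -/
def col (J : Ideal (PQ m)) (a : PQ m) : Ideal (PQ m) := Submodule.comap (LinearMap.mulLeft (PQ m) a) J

/-- integer forms of degree `L` whose classes are a basis of the forms of degree `L` modulo `J` -/
structure IsBas (J : Ideal (PQ m)) (L : ℕ) {r : ℕ} (f : Fin r → PZ m) : Prop where
  hom : ∀ i, (f i).IsHomogeneous L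
  ind : LinearIndependent ℚ (fun i => Ideal.Quotient.mkₐ ℚ J (zq (f i)))
  span : Submodule.span ℚ (Set.range fun i => Ideal.Quotient.mkₐ ℚ J (zq (f i))) = qd J L

/-- `g i` is `f i` modified by a combination of the previous `f j` and an element of the complexified ideal -/
structure IsMod (J : Ideal (PQ m)) (L : ℕ) {r : ℕ} (f : Fin r → PZ m) (g : Fin r → PC m) : Prop where
  hom : ∀ i, (g i).IsHomogeneous L
  mem : ∀ i, g i - zc (f i) ∈ Submodule.span ℂ ((fun j => zc (f j)) '' {j | j < i}) ⊔ (JC J).restrictScalars ℂ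

/-- `x` is an admissible bound for the logarithm of the covolume -/
def Adm (θ : Fin m → ℂ) (w τ : ℝ) (J : Ideal (PQ m)) (L : ℕ) (x : ℝ) : Prop :=
  ∃ (r : ℕ) (f : Fin r → PZ m) (g : Fin r → PC m), IsBas J L f ∧ IsMod J L f g ∧ ∏ i, wl θ w τ L (g i) ≤ Real.exp x

/-- the positive part of the logarithm of the covolume of the lattice of integer forms of degree `L` modulo `J` -/
def chi (θ : Fin m → ℂ) (w τ : ℝ) (J : Ideal (PQ m)) (L : ℕ) : ℝ := sInf {x | 0 ≤ x ∧ Adm θ w τ J L x}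

/-- the generating function of the Hilbert function -/
def PP (J : Ideal (PQ m)) (t : ℝ) : ℝ := ∑' L : ℕ, (rJ J L : ℝ) * t ^ L

/-- the generating function of `chi` -/
def XX (θ : Fin m → ℂ) (w τ : ℝ) (J : Ideal (PQ m)) (t : ℝ) : ℝ := ∑' L : ℕ, chi θ w τ J L * t ^ L

/-- growth of order `e` at `t = 1` -/
def Gr (J : Ideal (PQ m)) (e : ℕ) : Prop := ∃ C : ℝ, ∀ t : ℝ, 0 ≤ t → t < 1 → (1 - t) ^ e * PP J t ≤ C

/-- the slope bound `(S_e)` -/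
def Slope (θ : Fin m → ℂ) (τ kap w0 : ℝ) (e : ℕ) : Prop :=
  ∀ w : ℝ, 0 ≤ w → w ≤ w0 → ∀ J : Ideal (PQ m), HI J → Gr J e → ∀ η : ℝ, 0 < η → ∃ C : ℝ, ∀ t : ℝ, 0 ≤ t → t < 1 →
    XX θ w τ J t ≤ kap * e * PP J t / (1 - t) + η / (1 - t) ^ (e + 1) + C

/-- the conclusion of the matrix lemma (A.4) -/
def MatL (θ : Fin m → ℂ) (τ kap w0 : ℝ) : Prop :=
  ∀ p : Ideal (PQ m), HI p → p.IsPrime → (X 0 : PQ m) ∉ p → ∀ w : ℝ, 0 ≤ w → w ≤ w0 → ∃ w' : ℝ, 0 ≤ w' ∧ w' ≤ w ∧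
    (∃ C1 C2 : ℝ, ∀ t : ℝ, 0 ≤ t → t < 1 → XX θ w τ p t ≤ XX θ w' τ p t + C1 * PP p t + C2) ∧
    ∃ (δ : ℕ) (a : PZ m), 1 ≤ δ ∧ a.IsHomogeneous δ ∧ zq a ∉ p ∧ Real.log (wl θ w' τ δ (zc a)) ≤ kap * δ

/-- the homogeneous ideal of the relations of `(1, θ)` -/
def p0 (θ : Fin m → ℂ) : Ideal (PQ m) :=
  RingHom.ker (MvPolynomial.aeval (Fin.cons Polynomial.X (fun i : Fin m => Polynomial.C (θ i) * Polynomial.X) : Fin (m + 1) → Polynomial ℂ) :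
    PQ m →ₐ[ℚ] Polynomial ℂ)

/-- the homogeneous version of `BadMat` -/
structure HMat {ι κ : Type} [Fintype ι] [Fintype κ] (k : ℕ) (θ : Fin m → ℂ) (ε c0 : ℝ) (T : ℕ)
    (B : Matrix ι κ (PZ m)) : Prop where
  deg : ∀ a b, (B a b).IsHomogeneous T
  len : ∀ a b, len (B a b) ≤ Real.exp ((T : ℝ) ^ (1 + ε))
  cardr : (Fintype.card ι : ℝ) ≤ Real.exp T
  cardc : (Fintype.card κ : ℝ) ≤ Real.exp T
  ub : ∀ j : ℕ, 1 ≤ j → (j : ℝ) ≤ RR k ε T → ∀ (r : Fin j → ι) (c : Fin j → κ), ∃ E : Matrix (Fin j) (Fin j) ℂ,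
    1 ≤ ‖E.det‖ ∧ (∀ i l, ‖E i l‖ ≤ Real.exp ((T : ℝ) ^ (1 + ε))) ∧
      ∀ i l, ‖(((evM (Fin.cons 1 θ : Fin (m + 1) → ℂ) B).submatrix r c) * E) i l‖ ≤ Real.exp (-c0 * ((l : ℕ) + 1 : ℝ) ^ 2 + (T : ℝ) ^ (1 + ε))
  lb : ∀ j : ℕ, 1 ≤ j → (j : ℝ) ≤ RR k ε T → ∃ (U : Matrix (Fin j) ι ℂ) (V : Matrix κ (Fin j) ℂ),
    (∀ i a, ‖U i a‖ ≤ Real.exp ((T : ℝ) ^ ε * ((j : ℝ) ^ 2 + T))) ∧
      (∀ b i, ‖V b i‖ ≤ Real.exp ((T : ℝ) ^ ε * ((j : ℝ) ^ 2 + T))) ∧ U * evM (Fin.cons 1 θ : Fin (m + 1) → ℂ) B * V = 1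

/-- the parameter `τ` -/
def tau (ε T : ℝ) : ℝ := T ^ (-1 - 4 * ε)
/-- the parameter `κ` -/
def kap (ε T : ℝ) : ℝ := T ^ (2 * ε)
/-- the weight used for determinants of size `ρ` -/
def wr (ε T : ℝ) (ρ : ℕ) : ℝ := T ^ (2 * ε) * (((ρ : ℝ) + 1) ^ 2 + T)

end Pool.Agent.LT
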