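import Pool.Agent.Lib.MP_f58a57_nt.LT.A0

/-!
# Part A, rows Aa-Ai: weighted lengths, exact sequences, `chi`, generating functions, the switch
-/

open Complex MvPolynomial Matrix

noncomputable section

namespace Pool.Agent.LT

variable {m c : ℕ}

/-- the length of a complex polynomial -/
def lC {σ : Type} (f : MvPolynomial σ ℂ) : ℝ := ∑ d ∈ f.support, ‖f.coeff d‖

/-! ### row Aa: weighted lengths -/


theorem Aa1_X0 (θ : Fin m → ℂ) : phi θ (X 0) = X 0 := by
  unfold phi
  rw [MvPolynomial.aeval_X, Fin.cons_zero]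

theorem Aa1_Xs (θ : Fin m → ℂ) (i : Fin m) : phi θ (X i.succ) = X i.succ + C (θ i) * X 0 := by
  unfold phi
  rw [MvPolynomial.aeval_X, Fin.cons_succ]

theorem Aa1_C (θ : Fin m → ℂ) (a : ℂ) : phi θ (C a) = C a := by
  unfold phi
  rw [MvPolynomial.aeval_C]
  rfl

theorem phi_neg (θ : Fin m → ℂ) (f : PC m) : phi θ (phi (-θ) f) = f := by
  have h : (phi θ).comp (phi (-θ)) = AlgHom.id ℂ (PC m) := by
    apply MvPolynomial.algHom_ext
    intro i
    rw [AlgHom.comp_apply, AlgHom.id_apply]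
    refine Fin.cases ?_ (fun j => ?_) i
    · rw [Aa1_X0, Aa1_X0]
    · rw [Aa1_Xs, map_add, map_mul, Aa1_Xs, Aa1_C, Aa1_X0, Pi.neg_apply, map_neg]
      ring
  have h2 := DFunLike.congr_fun h f
  rwa [AlgHom.comp_apply, AlgHom.id_apply] at h2

theorem phi_neg' (θ : Fin m → ℂ) (f : PC m) : phi (-θ) (phi θ f) = f := by
  have h := phi_neg (-θ) f
  rwa [neg_neg] at h

theorem phi_hom (θ : Fin m → ℂ) {L : ℕ} {f : PC m} (hf : f.IsHomogeneous L) : (phi θ f).IsHomogeneous L := by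
  have h := hf.aeval (Fin.cons (X 0) (fun i : Fin m => X i.succ + C (θ i) * X 0) : Fin (m + 1) → PC m) (n := 1) (by
    intro i
    refine Fin.cases ?_ (fun j => ?_) i
    · rw [Fin.cons_zero]
      exact isHomogeneous_X _ _
    · rw [Fin.cons_succ]
      exact (isHomogeneous_X _ _).add (isHomogeneous_C_mul_X _ _))
  rw [one_mul] at h
  exact h

theorem Aa1_wl (θ : Fin m → ℂ) (w τ : ℝ) (L : ℕ) (f : PC m) (s : Finset (Fin (m + 1) →₀ ℕ)) (hs : (phi θ f).support ⊆ s) :
    wl θ w τ L f = ∑ d ∈ s, ‖(phi θ f).coeff d‖ * wt w τ L d := by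
  unfold wl
  apply Finset.sum_subset hs
  intro d _ hd
  rw [MvPolynomial.notMem_support_iff] at hd
  rw [hd, norm_zero, zero_mul]

theorem Aa1_wt_pos (w τ : ℝ) (L : ℕ) (d : Fin (m + 1) →₀ ℕ) : 0 < wt w τ L d := Real.exp_pos _

theorem wl_nonneg (θ : Fin m → ℂ) (w τ : ℝ) (L : ℕ) (f : PC m) : 0 ≤ wl θ w τ L f :=
  Finset.sum_nonneg fun d _ => mul_nonneg (norm_nonneg _) (Aa1_wt_pos w τ L d).le

theorem wl_zero (θ : Fin m → ℂ) (w τ : ℝ) (L : ℕ) : wl θ w τ L 0 = 0 := by
  unfold wl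
  rw [map_zero, MvPolynomial.support_zero, Finset.sum_empty]

theorem wl_pos (θ : Fin m → ℂ) (w τ : ℝ) (L : ℕ) {f : PC m} (hf : f ≠ 0) : 0 < wl θ w τ L f := by
  have h1 : phi θ f ≠ 0 := by
    intro h
    apply hf
    rw [← phi_neg' θ f, h, map_zero]
  apply Finset.sum_pos
  · intro d hd
    rw [MvPolynomial.mem_support_iff] at hd
    exact mul_pos (norm_pos_iff.2 hd) (Aa1_wt_pos w τ L d)
  · exact MvPolynomial.support_nonempty.2 h1

theorem wl_add_le (θ : Fin m → ℂ) (w τ : ℝ) (L : ℕ) (f g : PC m) : wl θ w τ L (f + g) ≤ wl θ w τ L f + wl θ w τ L g := by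
  classical
  have h0 : (phi θ (f + g)).support ⊆ (phi θ f).support ∪ (phi θ g).support := by
    rw [map_add]
    exact MvPolynomial.support_add
  rw [Aa1_wl θ w τ L (f + g) _ h0, Aa1_wl θ w τ L f _ Finset.subset_union_left, Aa1_wl θ w τ L g _ Finset.subset_union_right,
    ← Finset.sum_add_distrib]
  refine Finset.sum_le_sum fun d _ => ?_
  rw [← add_mul, map_add, MvPolynomial.coeff_add]
  exact mul_le_mul_of_nonneg_right (norm_add_le _ _) (Aa1_wt_pos w τ L d).le

theorem wl_C_mul (θ : Fin m → ℂ) (w τ : ℝ) (L : ℕ) (c : ℂ) (f : PC m) : wl θ w τ L (C c * f) = ‖c‖ * wl θ w τ L f := by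
  have h1 : phi θ (C c * f) = C c * phi θ f := by
    rw [map_mul, Aa1_C]
  have h0 : (phi θ (C c * f)).support ⊆ (phi θ f).support := by
    intro d hd
    rw [h1, MvPolynomial.mem_support_iff, MvPolynomial.coeff_C_mul] at hd
    rw [MvPolynomial.mem_support_iff]
    exact right_ne_zero_of_mul hd
  rw [Aa1_wl θ w τ L (C c * f) _ h0, Aa1_wl θ w τ L f _ subset_rfl, Finset.mul_sum]
  refine Finset.sum_congr rfl fun d _ => ?_
  rw [h1, MvPolynomial.coeff_C_mul, norm_mul, mul_assoc]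

















/-- generic weighted length -/
def Aa2_W {σ : Type} (W : (σ →₀ ℕ) → ℝ) (f : MvPolynomial σ ℂ) : ℝ := ∑ d ∈ f.support, ‖f.coeff d‖ * W d

theorem Aa2_sup {σ : Type} (W : (σ →₀ ℕ) → ℝ) (f : MvPolynomial σ ℂ) {S : Finset (σ →₀ ℕ)} (hS : f.support ⊆ S) :
    Aa2_W W f = ∑ d ∈ S, ‖f.coeff d‖ * W d := by
  unfold Aa2_W
  apply Finset.sum_subset hS
  intro d _ hd
  rw [MvPolynomial.notMem_support_iff.mp hd, norm_zero, zero_mul]

theorem Aa2_add {σ : Type} {W : (σ →₀ ℕ) → ℝ} (hW : ∀ d, 0 ≤ W d) (f g : MvPolynomial σ ℂ) :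
    Aa2_W W (f + g) ≤ Aa2_W W f + Aa2_W W g := by
  classical
  rw [Aa2_sup W (f + g) (MvPolynomial.support_add (p := f) (q := g)),
    Aa2_sup W f (Finset.subset_union_left (s₂ := g.support)),
    Aa2_sup W g (Finset.subset_union_right (s₁ := f.support)), ← Finset.sum_add_distrib]
  apply Finset.sum_le_sum
  intro d _
  rw [← add_mul, MvPolynomial.coeff_add]
  exact mul_le_mul_of_nonneg_right (norm_add_le _ _) (hW d)

theorem Aa2_zero {σ : Type} (W : (σ →₀ ℕ) → ℝ) : Aa2_W W (0 : MvPolynomial σ ℂ) = 0 := by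
  unfold Aa2_W
  simp

theorem Aa2_sum {σ ι : Type} {W : (σ →₀ ℕ) → ℝ} (hW : ∀ d, 0 ≤ W d) (s : Finset ι) (f : ι → MvPolynomial σ ℂ) :
    Aa2_W W (∑ i ∈ s, f i) ≤ ∑ i ∈ s, Aa2_W W (f i) := by
  classical
  induction s using Finset.induction_on with
  | empty => simp [Aa2_zero]
  | insert a s ha ih =>
    rw [Finset.sum_insert ha, Finset.sum_insert ha]
    exact (Aa2_add hW _ _).trans (add_le_add le_rfl ih)

theorem Aa2_mono {σ : Type} {W : (σ →₀ ℕ) → ℝ} (hW : ∀ d, 0 ≤ W d) (d : σ →₀ ℕ) (c : ℂ) :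
    Aa2_W W (MvPolynomial.monomial d c) ≤ ‖c‖ * W d := by
  classical
  rw [Aa2_sup W _ (MvPolynomial.support_monomial_subset (s := d) (a := c)), Finset.sum_singleton,
    MvPolynomial.coeff_monomial, if_pos rfl]

theorem Aa2_mul {σ : Type} {W W1 W2 : (σ →₀ ℕ) → ℝ} (hW : ∀ d, 0 ≤ W d)
    (h : ∀ d e, W (d + e) ≤ W1 d * W2 e) (f g : MvPolynomial σ ℂ) :
    Aa2_W W (f * g) ≤ Aa2_W W1 f * Aa2_W W2 g := by
  classical
  have e : f * g = ∑ d ∈ f.support, ∑ e ∈ g.support, MvPolynomial.monomial (d + e) (f.coeff d * g.coeff e) := by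
    conv_lhs => rw [← MvPolynomial.support_sum_monomial_coeff f, ← MvPolynomial.support_sum_monomial_coeff g]
    rw [Finset.sum_mul_sum]
    apply Finset.sum_congr rfl
    intro d _
    apply Finset.sum_congr rfl
    intro e _
    rw [MvPolynomial.monomial_mul]
  rw [e]
  refine (Aa2_sum hW _ _).trans ?_
  have e2 : Aa2_W W1 f * Aa2_W W2 g = ∑ d ∈ f.support, ∑ e ∈ g.support,
      (‖f.coeff d‖ * W1 d) * (‖g.coeff e‖ * W2 e) := by
    unfold Aa2_W
    rw [Finset.sum_mul_sum]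
  rw [e2]
  apply Finset.sum_le_sum
  intro d _
  refine (Aa2_sum hW _ _).trans ?_
  apply Finset.sum_le_sum
  intro e _
  refine (Aa2_mono hW _ _).trans ?_
  rw [norm_mul]
  have := h d e
  calc ‖f.coeff d‖ * ‖g.coeff e‖ * W (d + e) ≤ ‖f.coeff d‖ * ‖g.coeff e‖ * (W1 d * W2 e) :=
        mul_le_mul_of_nonneg_left this (by positivity)
    _ = _ := by ring

theorem Aa2_le {σ : Type} {W W1 : (σ →₀ ℕ) → ℝ} (f : MvPolynomial σ ℂ) (h : ∀ d ∈ f.support, W d ≤ W1 d) :
    Aa2_W W f ≤ Aa2_W W1 f := by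
  unfold Aa2_W
  apply Finset.sum_le_sum
  intro d hd
  exact mul_le_mul_of_nonneg_left (h d hd) (norm_nonneg _)

theorem Aa2_lC {σ : Type} (f : MvPolynomial σ ℂ) : lC f = Aa2_W (fun _ => 1) f := by
  unfold Aa2_W lC
  simp

theorem wl_mul_le (θ : Fin m → ℂ) {w : ℝ} (hw : 0 ≤ w) (τ : ℝ) (δ L : ℕ) (a f : PC m) :
    wl θ w τ (δ + L) (a * f) ≤ wl θ w τ δ a * wl θ w τ L f := by
  have := Aa2_mul (W := wt w τ (δ + L) (m := m)) (W1 := wt w τ δ) (W2 := wt w τ L)
    (fun d => (Real.exp_pos _).le) (fun d e => by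
      unfold wt
      rw [← Real.exp_add]
      apply Real.exp_le_exp.mpr
      rw [← mul_add]
      apply mul_le_mul_of_nonneg_left _ hw
      rw [Finsupp.add_apply]
      push_cast
      apply max_le
      · positivity
      · have h1 := le_max_right 0 (τ * (δ : ℝ) - ((δ : ℝ) - (d 0 : ℝ)))
        have h2 := le_max_right 0 (τ * (L : ℝ) - ((L : ℝ) - (e 0 : ℝ)))
        linarith) (phi θ a) (phi θ f)
  rw [← map_mul] at this
  exact this

theorem wl_mono (θ : Fin m → ℂ) {w w' : ℝ} (hw : w ≤ w') (τ : ℝ) (L : ℕ) (f : PC m) : wl θ w τ L f ≤ wl θ w' τ L f := by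
  refine Aa2_le (phi θ f) (fun d _ => ?_)
  unfold wt
  apply Real.exp_le_exp.mpr
  exact mul_le_mul_of_nonneg_right hw (le_max_left _ _)

/-- bound by the ordinary length of `φ f` -/
theorem wl_le_lC (θ : Fin m → ℂ) {w τ : ℝ} (hw : 0 ≤ w) (hτ : 0 ≤ τ) (L : ℕ) {f : PC m} (hf : f.IsHomogeneous L) :
    wl θ w τ L f ≤ Real.exp (w * τ * L) * lC (phi θ f) := by
  have hh := phi_hom θ hf
  have h1 : wl θ w τ L f ≤ Aa2_W (fun _ => Real.exp (w * τ * L)) (phi θ f) := by
    refine Aa2_le (phi θ f) (fun d hd => ?_)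
    unfold wt
    apply Real.exp_le_exp.mpr
    rw [mul_assoc]
    apply mul_le_mul_of_nonneg_left _ hw
    have h2 : d.degree = L := by
      have := hh (MvPolynomial.mem_support_iff.mp hd)
      rwa [Finsupp.degree_eq_weight_one]
    have h3 : d 0 ≤ L := by
      rw [← h2]
      exact Finsupp.le_degree 0 d
    have h4 : ((d 0 : ℕ) : ℝ) ≤ L := by exact_mod_cast h3
    apply max_le
    · positivity
    · linarith
  refine h1.trans (le_of_eq ?_)
  unfold Aa2_W lC
  rw [Finset.mul_sum]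
  apply Finset.sum_congr rfl
  intro d _
  ring

theorem lC_le_wl (θ : Fin m → ℂ) {w : ℝ} (hw : 0 ≤ w) (τ : ℝ) (L : ℕ) (f : PC m) : lC (phi θ f) ≤ wl θ w τ L f := by
  rw [Aa2_lC]
  refine Aa2_le (phi θ f) (fun d _ => ?_)
  unfold wt
  apply Real.one_le_exp
  exact mul_nonneg hw (le_max_left _ _)

theorem lC_mul_le {σ : Type} (f g : MvPolynomial σ ℂ) : lC (f * g) ≤ lC f * lC g := by
  rw [Aa2_lC, Aa2_lC, Aa2_lC]
  exact Aa2_mul (fun _ => zero_le_one) (fun _ _ => by norm_num) f g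

theorem lC_add_le {σ : Type} (f g : MvPolynomial σ ℂ) : lC (f + g) ≤ lC f + lC g := by
  rw [Aa2_lC, Aa2_lC, Aa2_lC]
  exact Aa2_add (fun _ => zero_le_one) f g

theorem Aa2_lC_nonneg {σ : Type} (f : MvPolynomial σ ℂ) : 0 ≤ lC f :=
  Finset.sum_nonneg (fun _ _ => norm_nonneg _)

theorem Aa2_lC_mono {σ : Type} (d : σ →₀ ℕ) (c : ℂ) : lC (MvPolynomial.monomial d c) ≤ ‖c‖ := by
  rw [Aa2_lC]
  have := Aa2_mono (W := fun _ : σ →₀ ℕ => (1 : ℝ)) (fun _ => zero_le_one) d c
  simpa using this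

theorem Aa2_lC_pow {σ : Type} {f : MvPolynomial σ ℂ} {B : ℝ} (hB : lC f ≤ B) (n : ℕ) : lC (f ^ n) ≤ B ^ n := by
  induction n with
  | zero =>
    rw [pow_zero, pow_zero]
    have := Aa2_lC_mono (0 : σ →₀ ℕ) 1
    simpa using this
  | succ n ih =>
    rw [pow_succ, pow_succ]
    exact (lC_mul_le _ _).trans (mul_le_mul ih hB (Aa2_lC_nonneg _)
      (pow_nonneg ((Aa2_lC_nonneg f).trans hB) n))

theorem Aa2_lC_prod {σ ι : Type} (s : Finset ι) (f : ι → MvPolynomial σ ℂ) (e : ι → ℕ) {B : ℝ} (hB0 : 0 ≤ B)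
    (hB : ∀ i ∈ s, lC (f i) ≤ B) : lC (∏ i ∈ s, f i ^ e i) ≤ B ^ (∑ i ∈ s, e i) := by
  classical
  induction s using Finset.induction_on with
  | empty =>
    rw [Finset.prod_empty, Finset.sum_empty, pow_zero]
    have := Aa2_lC_mono (0 : σ →₀ ℕ) 1
    simpa using this
  | insert a s ha ih =>
    rw [Finset.prod_insert ha, Finset.sum_insert ha, pow_add]
    exact (lC_mul_le _ _).trans (mul_le_mul (Aa2_lC_pow (hB a (Finset.mem_insert_self a s)) _)
      (ih (fun i hi => hB i (Finset.mem_insert_of_mem hi))) (Aa2_lC_nonneg _) (pow_nonneg hB0 _))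

theorem lC_phi_le (θ : Fin m → ℂ) {Θ : ℝ} (hΘ : ∀ i, ‖θ i‖ ≤ Θ) (hΘ0 : 0 ≤ Θ) {L : ℕ} {f : PC m} (hf : f.IsHomogeneous L) :
    lC (phi θ f) ≤ (1 + Θ) ^ L * lC f := by
  classical
  have e : phi θ f = ∑ d ∈ f.support, MvPolynomial.monomial 0 (f.coeff d) *
      ∏ i, (Fin.cons (X 0) (fun i : Fin m => X i.succ + C (θ i) * X 0) : Fin (m + 1) → PC m) i ^ d i := by
    unfold phi
    rw [MvPolynomial.aeval_def, MvPolynomial.eval₂_eq']
    rfl
  rw [e, Aa2_lC]
  refine (Aa2_sum (fun _ => zero_le_one) _ _).trans ?_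
  rw [lC, Finset.mul_sum]
  apply Finset.sum_le_sum
  intro d hd
  rw [← Aa2_lC, mul_comm ((1 + Θ) ^ L)]
  refine (lC_mul_le _ _).trans ?_
  apply mul_le_mul (Aa2_lC_mono 0 _) _ (Aa2_lC_nonneg _) (norm_nonneg _)
  have h2 : ∑ i, d i = L := by
    have := hf (MvPolynomial.mem_support_iff.mp hd)
    have h5 : d.degree = L := by rwa [Finsupp.degree_eq_weight_one]
    rw [← h5, Finsupp.degree_eq_sum]
  rw [← h2]
  apply Aa2_lC_prod _ _ _ (by positivity)
  intro i _
  have hX : ∀ j : Fin (m + 1), lC (X j : PC m) ≤ 1 := fun j => by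
    have := Aa2_lC_mono (Finsupp.single j 1) 1
    simpa [X] using this
  refine Fin.cases ?_ (fun j => ?_) i
  · rw [Fin.cons_zero]
    linarith [hX 0]
  · rw [Fin.cons_succ]
    refine (lC_add_le _ _).trans (add_le_add (hX _) ?_)
    refine (lC_mul_le _ _).trans ?_
    have h3 : lC (C (θ j) : PC m) ≤ ‖θ j‖ := Aa2_lC_mono 0 _
    calc lC (C (θ j) : PC m) * lC (X 0 : PC m) ≤ ‖θ j‖ * 1 :=
          mul_le_mul h3 (hX 0) (Aa2_lC_nonneg _) (norm_nonneg _)
      _ ≤ Θ := by rw [mul_one]; exact hΘ j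

theorem lC_zc (f : PZ m) : lC (zc f) = len f := by
  unfold lC len zc
  rw [MvPolynomial.support_map_of_injective f (Int.cast_injective (α := ℂ))]
  apply Finset.sum_congr rfl
  intro d _
  rw [MvPolynomial.coeff_map]
  simp
















/-- the length with weights `exp (-w |β|)` -/
def sl (θ : Fin m → ℂ) (w : ℝ) (L : ℕ) (f : PC m) : ℝ := ∑ d ∈ (phi θ f).support, ‖(phi θ f).coeff d‖ * Real.exp (-(w * ((L : ℝ) - (d 0 : ℕ))))


/-- weighted length with general weights -/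
private def Aa3_N {σ : Type} (W : (σ →₀ ℕ) → ℝ) (p : MvPolynomial σ ℂ) : ℝ := ∑ d ∈ p.support, ‖p.coeff d‖ * W d

private theorem Aa3_N_eq {σ : Type} (W : (σ →₀ ℕ) → ℝ) (p : MvPolynomial σ ℂ) {s : Finset (σ →₀ ℕ)} (hs : p.support ⊆ s) :
    Aa3_N W p = ∑ d ∈ s, ‖p.coeff d‖ * W d := by
  refine Finset.sum_subset hs fun d _ hd => ?_
  rw [MvPolynomial.notMem_support_iff.mp hd, norm_zero, zero_mul]

private theorem Aa3_N_add_le {σ : Type} (W : (σ →₀ ℕ) → ℝ) (hW : ∀ d, 0 ≤ W d) (p q : MvPolynomial σ ℂ) :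
    Aa3_N W (p + q) ≤ Aa3_N W p + Aa3_N W q := by
  classical
  have hs : (p + q).support ⊆ p.support ∪ q.support := MvPolynomial.support_add
  rw [Aa3_N_eq W (p + q) hs, Aa3_N_eq W p (Finset.subset_union_left (s₂ := q.support)),
    Aa3_N_eq W q (Finset.subset_union_right (s₁ := p.support)), ← Finset.sum_add_distrib]
  refine Finset.sum_le_sum fun d _ => ?_
  rw [MvPolynomial.coeff_add, ← add_mul]
  exact mul_le_mul_of_nonneg_right (norm_add_le _ _) (hW d)

private theorem Aa3_N_monomial {σ : Type} (W : (σ →₀ ℕ) → ℝ) (d : σ →₀ ℕ) (a : ℂ) :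
    Aa3_N W (MvPolynomial.monomial d a) = ‖a‖ * W d := by
  classical
  rw [Aa3_N_eq W _ (MvPolynomial.support_monomial_subset (s := d) (a := a)), Finset.sum_singleton, MvPolynomial.coeff_monomial, if_pos rfl]

private theorem Aa3_N_zero {σ : Type} (W : (σ →₀ ℕ) → ℝ) : Aa3_N W (0 : MvPolynomial σ ℂ) = 0 := by
  simp [Aa3_N]

private theorem Aa3_N_mul_le {σ : Type} (W W1 W2 : (σ →₀ ℕ) → ℝ) (hW : ∀ d, 0 ≤ W d) (h : ∀ d e, W (d + e) ≤ W1 d * W2 e)
    (p q : MvPolynomial σ ℂ) : Aa3_N W (p * q) ≤ Aa3_N W1 p * Aa3_N W2 q := by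
  classical
  have h1 : p * q = ∑ a ∈ p.support, ∑ b ∈ q.support, MvPolynomial.monomial (a + b) (p.coeff a * q.coeff b) := by
    rw [MvPolynomial.mul_def]
    rfl
  rw [h1]
  refine (Finset.le_sum_of_subadditive (Aa3_N W) (Aa3_N_zero W).le (Aa3_N_add_le W hW) p.support _).trans ?_
  unfold Aa3_N
  rw [Finset.sum_mul]
  refine Finset.sum_le_sum fun a _ => ?_
  refine (Finset.le_sum_of_subadditive (Aa3_N W) (Aa3_N_zero W).le (Aa3_N_add_le W hW) q.support _).trans ?_
  rw [Finset.mul_sum]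
  refine Finset.sum_le_sum fun b _ => ?_
  rw [Aa3_N_monomial, norm_mul]
  have h2 := h a b
  have h3 : 0 ≤ ‖p.coeff a‖ * ‖q.coeff b‖ := mul_nonneg (norm_nonneg _) (norm_nonneg _)
  calc ‖p.coeff a‖ * ‖q.coeff b‖ * W (a + b) ≤ ‖p.coeff a‖ * ‖q.coeff b‖ * (W1 a * W2 b) := mul_le_mul_of_nonneg_left h2 h3
    _ = ‖p.coeff a‖ * W1 a * (‖q.coeff b‖ * W2 b) := by ring

theorem sl_nonneg (θ : Fin m → ℂ) (w : ℝ) (L : ℕ) (f : PC m) : 0 ≤ sl θ w L f :=
  Finset.sum_nonneg fun _ _ => mul_nonneg (norm_nonneg _) (Real.exp_pos _).le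

theorem sl_add_le (θ : Fin m → ℂ) (w : ℝ) (L : ℕ) (f g : PC m) : sl θ w L (f + g) ≤ sl θ w L f + sl θ w L g := by
  have h := Aa3_N_add_le (fun d : Fin (m + 1) →₀ ℕ => Real.exp (-(w * ((L : ℝ) - (d 0 : ℕ))))) (fun _ => (Real.exp_pos _).le)
    (phi θ f) (phi θ g)
  rw [← map_add] at h
  exact h

theorem sl_C_mul (θ : Fin m → ℂ) (w : ℝ) (L : ℕ) (c : ℂ) (f : PC m) : sl θ w L (C c * f) = ‖c‖ * sl θ w L f := by
  classical
  have h1 : phi θ (C c * f) = C c * phi θ f := by
    rw [map_mul]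
    congr 1
    exact (phi θ).commutes c
  have h2 : (C c * phi θ f).support ⊆ (phi θ f).support := by
    intro d hd
    rw [MvPolynomial.mem_support_iff] at hd ⊢
    intro h0
    apply hd
    rw [MvPolynomial.coeff_C_mul, h0, mul_zero]
  have h3 := Aa3_N_eq (fun d : Fin (m + 1) →₀ ℕ => Real.exp (-(w * ((L : ℝ) - (d 0 : ℕ))))) (C c * phi θ f) h2
  have h4 : sl θ w L (C c * f) = Aa3_N (fun d : Fin (m + 1) →₀ ℕ => Real.exp (-(w * ((L : ℝ) - (d 0 : ℕ))))) (C c * phi θ f) := by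
    rw [← h1]
    rfl
  rw [h4, h3]
  unfold sl
  rw [Finset.mul_sum]
  refine Finset.sum_congr rfl fun d _ => ?_
  rw [MvPolynomial.coeff_C_mul, norm_mul, mul_assoc]

theorem sl_mul_le (θ : Fin m → ℂ) (w : ℝ) (δ L : ℕ) (a f : PC m) : sl θ w (δ + L) (a * f) ≤ sl θ w δ a * sl θ w L f := by
  have h := Aa3_N_mul_le (fun d : Fin (m + 1) →₀ ℕ => Real.exp (-(w * (((δ + L : ℕ) : ℝ) - (d 0 : ℕ)))))
    (fun d : Fin (m + 1) →₀ ℕ => Real.exp (-(w * ((δ : ℝ) - (d 0 : ℕ)))))
    (fun d : Fin (m + 1) →₀ ℕ => Real.exp (-(w * ((L : ℝ) - (d 0 : ℕ))))) (fun _ => (Real.exp_pos _).le)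
    (fun d e => by
      rw [← Real.exp_add]
      apply le_of_eq
      congr 1
      rw [Finsupp.add_apply]
      push_cast
      ring) (phi θ a) (phi θ f)
  rw [← map_mul] at h
  exact h








/-! ### row Ab: exact sequences -/


attribute [local instance] MvPolynomial.gradedAlgebra in
theorem Ab1_comp {δ : ℕ} {a : PQ m} (ha : a.IsHomogeneous δ) (L : ℕ) (f : PQ m) :
    homogeneousComponent (δ + L) (a * f) = a * homogeneousComponent L f := by
  have h := DirectSum.coe_decompose_mul_add_of_left_mem (homogeneousSubmodule (Fin (m + 1)) ℚ)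
    (i := δ) (j := L) (a := a) (b := f) ha
  have e : ∀ (g : PQ m) (n : ℕ), ((DirectSum.decompose (homogeneousSubmodule (Fin (m + 1)) ℚ) g n :
      homogeneousSubmodule (Fin (m + 1)) ℚ n) : PQ m) = homogeneousComponent n g :=
    fun g n => decomposition.decompose'_apply g n
  rwa [e, e] at h

attribute [local instance] MvPolynomial.gradedAlgebra in
theorem Ab1_comp_low {δ : ℕ} {a : PQ m} (ha : a.IsHomogeneous δ) {n : ℕ} (hn : n < δ) (f : PQ m) :
    homogeneousComponent n (a * f) = 0 := by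
  have h := DirectSum.coe_decompose_mul_of_left_mem_of_not_le (homogeneousSubmodule (Fin (m + 1)) ℚ)
    (i := δ) (n := n) (a := a) (b := f) ha (by omega)
  have e : ∀ (g : PQ m) (n : ℕ), ((DirectSum.decompose (homogeneousSubmodule (Fin (m + 1)) ℚ) g n :
      homogeneousSubmodule (Fin (m + 1)) ℚ n) : PQ m) = homogeneousComponent n g :=
    fun g n => decomposition.decompose'_apply g n
  rwa [e] at h

theorem Ab1_mem_sup {J : Ideal (PQ m)} {a f : PQ m} :
    f ∈ J ⊔ Ideal.span {a} ↔ ∃ j ∈ J, ∃ h : PQ m, f = j + a * h := by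
  rw [Submodule.mem_sup]
  constructor
  · rintro ⟨j, hj, y, hy, rfl⟩
    obtain ⟨h, rfl⟩ := Ideal.mem_span_singleton'.mp hy
    exact ⟨j, hj, h, by rw [mul_comm]⟩
  · rintro ⟨j, hj, h, rfl⟩
    exact ⟨j, hj, a * h, Ideal.mem_span_singleton'.mpr ⟨h, mul_comm _ _⟩, rfl⟩

theorem hi_sup {J : Ideal (PQ m)} (hJ : HI J) {δ : ℕ} {a : PQ m} (ha : a.IsHomogeneous δ) : HI (J ⊔ Ideal.span {a}) := by
  intro f hf n
  obtain ⟨j, hj, h, rfl⟩ := Ab1_mem_sup.mp hf
  rw [map_add]
  rcases Nat.lt_or_ge n δ with hn | hn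
  · rw [Ab1_comp_low ha hn, add_zero]
    exact Ideal.mem_sup_left (hJ j hj n)
  · obtain ⟨L, rfl⟩ := Nat.exists_eq_add_of_le hn
    rw [Ab1_comp ha]
    exact Ab1_mem_sup.mpr ⟨_, hJ j hj _, _, rfl⟩

theorem hi_col {J : Ideal (PQ m)} (hJ : HI J) {δ : ℕ} {a : PQ m} (ha : a.IsHomogeneous δ) : HI (col J a) := by
  intro f hf n
  have h1 : a * f ∈ J := hf
  have h2 := hJ _ h1 (δ + n)
  rw [Ab1_comp ha] at h2
  exact h2

theorem Ab1_lin {V V' : Type} [AddCommGroup V] [Module ℚ V] [AddCommGroup V'] [Module ℚ V'] (f : V →ₗ[ℚ] V')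
    (S : Submodule ℚ V) [FiniteDimensional ℚ S] :
    Module.finrank ℚ (S.map f) + Module.finrank ℚ (S ⊓ LinearMap.ker f : Submodule ℚ V) = Module.finrank ℚ S := by
  have h := LinearMap.finrank_range_add_finrank_ker (f.domRestrict S)
  have h1 : LinearMap.range (f.domRestrict S) = S.map f := by
    rw [LinearMap.domRestrict, LinearMap.range_comp, Submodule.range_subtype]
  have h2 : Module.finrank ℚ (LinearMap.ker (f.domRestrict S)) =
      Module.finrank ℚ (S ⊓ LinearMap.ker f : Submodule ℚ V) := by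
    have e : LinearMap.ker (f.domRestrict S) = (LinearMap.ker f).comap S.subtype := rfl
    rw [e, ← Submodule.finrank_map_subtype_eq S ((LinearMap.ker f).comap S.subtype),
      Submodule.map_comap_subtype]
  rw [h1, h2] at h
  exact h

theorem rJ_add {J : Ideal (PQ m)} (hJ : HI J) {δ : ℕ} {a : PQ m} (ha : a.IsHomogeneous δ) (L : ℕ) :
    rJ J (δ + L) = rJ (J ⊔ Ideal.span {a}) (δ + L) + rJ (col J a) L := by
  have hfd : ∀ n, FiniteDimensional ℚ (homogeneousSubmodule (Fin (m + 1)) ℚ n) := fun n =>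
    Module.Finite.iff_fg.mpr (homogeneousSubmodule_fg (Fin (m + 1)) ℚ n)
  have : FiniteDimensional ℚ (qd J (δ + L)) := by
    have := hfd (δ + L)
    unfold qd
    infer_instance
  let ψ : PQ m →ₗ[ℚ] (PQ m ⧸ J) :=
    (Ideal.Quotient.mkₐ ℚ J).toLinearMap.comp (LinearMap.mulLeft ℚ a)
  let T : (PQ m ⧸ J) →ₗ[ℚ] (PQ m ⧸ (J ⊔ Ideal.span {a})) :=
    (Ideal.Quotient.factorₐ ℚ (le_sup_left : J ≤ J ⊔ Ideal.span {a})).toLinearMap
  have hψ : ∀ f, ψ f = Ideal.Quotient.mkₐ ℚ J (a * f) := fun f => rfl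
  have hT : ∀ f, T (Ideal.Quotient.mkₐ ℚ J f) = Ideal.Quotient.mkₐ ℚ (J ⊔ Ideal.span {a}) f :=
    fun f => rfl
  have hmk : ∀ (I : Ideal (PQ m)) (f : PQ m), Ideal.Quotient.mkₐ ℚ I f = 0 ↔ f ∈ I := fun I f =>
    Ideal.Quotient.eq_zero_iff_mem
  -- dimension of `W`
  have hker : LinearMap.ker ψ = LinearMap.ker (Ideal.Quotient.mkₐ ℚ (col J a)).toLinearMap := by
    ext f
    rw [LinearMap.mem_ker, LinearMap.mem_ker, hψ, hmk]
    exact (hmk (col J a) f).symm
  have d1 := Ab1_lin ψ (homogeneousSubmodule (Fin (m + 1)) ℚ L)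
  have d2 := Ab1_lin (Ideal.Quotient.mkₐ ℚ (col J a)).toLinearMap (homogeneousSubmodule (Fin (m + 1)) ℚ L)
  rw [hker] at d1
  have d3 := Ab1_lin T (qd J (δ + L))
  have hmap : (qd J (δ + L)).map T = qd (J ⊔ Ideal.span {a}) (δ + L) := by
    unfold qd
    rw [← Submodule.map_comp]
    rfl
  have hW : qd J (δ + L) ⊓ LinearMap.ker T = (homogeneousSubmodule (Fin (m + 1)) ℚ L).map ψ := by
    ext x
    constructor
    · rintro ⟨⟨g, hg, rfl⟩, h2⟩
      have hg' : g.IsHomogeneous (δ + L) := hg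
      have h3 : g ∈ J ⊔ Ideal.span {a} := (hmk _ g).mp h2
      obtain ⟨j, hj, h, hjh⟩ := Ab1_mem_sup.mp h3
      refine ⟨homogeneousComponent L h, homogeneousComponent_mem L h, ?_⟩
      have h4 : g = homogeneousComponent (δ + L) j + a * homogeneousComponent L h := by
        rw [← Ab1_comp ha, ← map_add, ← hjh]
        exact (homogeneousComponent_of_mem hg').trans (if_pos rfl) |>.symm
      have h5 : Ideal.Quotient.mkₐ ℚ J (homogeneousComponent (δ + L) j) = 0 :=
        (hmk _ _).mpr (hJ j hj _)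
      show ψ (homogeneousComponent L h) = Ideal.Quotient.mkₐ ℚ J g
      rw [hψ]
      conv_rhs => rw [h4]
      rw [map_add, h5, zero_add]
    · rintro ⟨h, hh, rfl⟩
      have hh' : h.IsHomogeneous L := hh
      refine ⟨⟨a * h, ha.mul hh', rfl⟩, ?_⟩
      show T (ψ h) = 0
      rw [hψ, hT, hmk]
      exact Ab1_mem_sup.mpr ⟨0, J.zero_mem, h, (zero_add _).symm⟩
  rw [hmap, hW] at d3
  unfold rJ
  rw [← d3]
  congr 1
  exact Nat.add_right_cancel (d1.trans d2.symm)







theorem Ab2_comp_mul {δ : ℕ} {a : PQ m} (ha : a.IsHomogeneous δ) {L : ℕ} (hL : L < δ) (q : PQ m) :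
    MvPolynomial.homogeneousComponent L (a * q) = 0 := by
  classical
  ext d
  rw [MvPolynomial.coeff_homogeneousComponent, MvPolynomial.coeff_zero]
  split_ifs with hd
  · rw [MvPolynomial.coeff_mul]
    refine Finset.sum_eq_zero (fun x hx => ?_)
    have hx' : x.1 + x.2 = d := Finset.HasAntidiagonal.mem_antidiagonal.1 hx
    have h1 : x.1.degree ≠ δ := by
      intro h2
      have h3 : x.1.degree + x.2.degree = d.degree := by rw [← hx', map_add]
      omega
    rw [ha.coeff_eq_zero h1, zero_mul]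
  · rfl

theorem Ab2_mem {J : Ideal (PQ m)} (hJ : HI J) {δ : ℕ} {a : PQ m} (ha : a.IsHomogeneous δ) {L : ℕ} (hL : L < δ)
    {f : PQ m} (hf : f.IsHomogeneous L) (h : f ∈ J ⊔ Ideal.span {a}) : f ∈ J := by
  obtain ⟨j, hj, b, hb, rfl⟩ := Submodule.mem_sup.1 h
  obtain ⟨q, rfl⟩ := Ideal.mem_span_singleton'.1 hb
  have h1 : MvPolynomial.homogeneousComponent L (j + q * a) = j + q * a := by
    rw [MvPolynomial.homogeneousComponent_of_mem hf, if_pos rfl]
  rw [← h1, map_add, mul_comm q a, Ab2_comp_mul ha hL, add_zero]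
  exact hJ j hj L

theorem rJ_low {J : Ideal (PQ m)} (hJ : HI J) {δ : ℕ} {a : PQ m} (ha : a.IsHomogeneous δ) {L : ℕ} (hL : L < δ) :
    rJ J L = rJ (J ⊔ Ideal.span {a}) L := by
  unfold rJ qd
  rw [← LinearMap.range_domRestrict, ← LinearMap.range_domRestrict]
  have hk : LinearMap.ker ((Ideal.Quotient.mkₐ ℚ J).toLinearMap.domRestrict (MvPolynomial.homogeneousSubmodule (Fin (m + 1)) ℚ L)) =
      LinearMap.ker ((Ideal.Quotient.mkₐ ℚ (J ⊔ Ideal.span {a})).toLinearMap.domRestrict (MvPolynomial.homogeneousSubmodule (Fin (m + 1)) ℚ L)) := by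
    ext ⟨f, hf⟩
    rw [LinearMap.mem_ker, LinearMap.mem_ker]
    have e1 : (Ideal.Quotient.mk J f = 0) ↔ f ∈ J := Ideal.Quotient.eq_zero_iff_mem
    have e2 : (Ideal.Quotient.mk (J ⊔ Ideal.span {a}) f = 0) ↔ f ∈ J ⊔ Ideal.span {a} := Ideal.Quotient.eq_zero_iff_mem
    refine (e1.trans ?_).trans e2.symm
    exact ⟨fun h => Ideal.mem_sup_left h, fun h => Ab2_mem hJ ha hL hf h⟩
  have e := (LinearMap.quotKerEquivRange ((Ideal.Quotient.mkₐ ℚ J).toLinearMap.domRestrict (MvPolynomial.homogeneousSubmodule (Fin (m + 1)) ℚ L))).symm.trans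
    ((Submodule.quotEquivOfEq _ _ hk).trans
      (LinearMap.quotKerEquivRange ((Ideal.Quotient.mkₐ ℚ (J ⊔ Ideal.span {a})).toLinearMap.domRestrict (MvPolynomial.homogeneousSubmodule (Fin (m + 1)) ℚ L))))
  exact e.finrank_eq

/-- a homogeneous ideal is prime if it satisfies the condition for homogeneous elements -/
theorem prime_of_hom {J : Ideal (PQ m)} (hJ : HI J) (h1 : J ≠ ⊤)
    (h : ∀ (δ δ' : ℕ) (a b : PQ m), a.IsHomogeneous δ → b.IsHomogeneous δ' → a * b ∈ J → a ∈ J ∨ b ∈ J) : J.IsPrime := by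
  let _ := MvPolynomial.gradedAlgebra (σ := Fin (m + 1)) (R := ℚ)
  have hI : J.IsHomogeneous (MvPolynomial.homogeneousSubmodule (Fin (m + 1)) ℚ) := by
    intro i r hr
    have := hJ r hr i
    rw [← MvPolynomial.decomposition.decompose'_apply] at this
    exact this
  refine Ideal.IsHomogeneous.isPrime_of_homogeneous_mem_or_mem hI h1 ?_
  rintro x y ⟨i, hx⟩ ⟨j, hy⟩ hxy
  exact h i j x y hx hy hxy




/-! ### row Ac: the inequality (*) for admissible bounds -/


/-- component of a product with a form -/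
private theorem ac1_hc {K : Type} [CommRing K] {σ : Type} {δ : ℕ} (L : ℕ) (b : MvPolynomial σ K) {a : MvPolynomial σ K}
    (ha : a.IsHomogeneous δ) :
    MvPolynomial.homogeneousComponent (δ + L) (a * b) = a * MvPolynomial.homogeneousComponent L b := by
  conv_lhs => rw [← MvPolynomial.sum_homogeneousComponent b, Finset.mul_sum, map_sum]
  have h1 : ∀ i : ℕ, MvPolynomial.homogeneousComponent (δ + L) (a * MvPolynomial.homogeneousComponent i b)
      = if i = L then a * MvPolynomial.homogeneousComponent L b else 0 := by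
    intro i
    rw [MvPolynomial.homogeneousComponent_of_mem (m := δ + L) (n := δ + i) (ha.mul (MvPolynomial.homogeneousComponent_isHomogeneous i b))]
    by_cases hi : i = L
    · subst hi; simp
    · rw [if_neg (by omega), if_neg hi]
  rw [Finset.sum_congr rfl (fun i _ => h1 i), Finset.sum_ite_eq']
  by_cases hL : L ∈ Finset.range (b.totalDegree + 1)
  · rw [if_pos hL]
  · rw [if_neg hL, MvPolynomial.homogeneousComponent_eq_zero _ _ (by simpa [Finset.mem_range, Nat.lt_succ_iff] using hL), mul_zero]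

/-- the complexified ideal is spanned by the complexified elements -/
private theorem ac1_JC (J : Ideal (PQ m)) : (JC J).restrictScalars ℂ = Submodule.span ℂ (qc '' (J : Set (PQ m))) := by
  apply le_antisymm
  · intro x hx
    rw [Submodule.restrictScalars_mem, JC, Ideal.map] at hx
    refine Submodule.span_induction ?_ (Submodule.zero_mem _) (fun _ _ _ _ => Submodule.add_mem _) ?_ hx
    · rintro _ ⟨j, hj, rfl⟩
      exact Submodule.subset_span ⟨j, hj, rfl⟩
    · intro p x _ hx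
      rw [smul_eq_mul]
      induction p using MvPolynomial.induction_on with
      | C c => rw [← MvPolynomial.smul_eq_C_mul]; exact Submodule.smul_mem _ _ hx
      | add p q hp hq => rw [add_mul]; exact Submodule.add_mem _ hp hq
      | mul_X p i hp =>
        rw [mul_comm p, mul_assoc]
        refine Submodule.span_induction (p := fun z _ => X i * z ∈ Submodule.span ℂ (qc '' (J : Set (PQ m)))) ?_ ?_ ?_ ?_ hp
        · rintro _ ⟨j, hj, rfl⟩
          exact Submodule.subset_span ⟨X i * j, J.mul_mem_left _ hj, by simp [qc]⟩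
        · rw [mul_zero]; exact Submodule.zero_mem _
        · intro u v _ _ hu hv
          rw [mul_add]; exact Submodule.add_mem _ hu hv
        · intro t u _ hu
          rw [mul_smul_comm]; exact Submodule.smul_mem _ _ hu
  · rw [Submodule.span_le]
    rintro _ ⟨j, hj, rfl⟩
    exact Ideal.mem_map_of_mem _ hj

/-- the complexified ideal is homogeneous -/
private theorem ac1_JC_hom {J : Ideal (PQ m)} (hJ : HI J) (n : ℕ) {f : PC m} (hf : f ∈ JC J) :
    MvPolynomial.homogeneousComponent n f ∈ JC J := by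
  have h1 : f ∈ (JC J).restrictScalars ℂ := hf
  rw [ac1_JC] at h1
  suffices h : MvPolynomial.homogeneousComponent n f ∈ (JC J).restrictScalars ℂ from h
  rw [ac1_JC]
  refine Submodule.span_induction (p := fun z _ => MvPolynomial.homogeneousComponent n z ∈ Submodule.span ℂ (qc '' (J : Set (PQ m)))) ?_ ?_ ?_ ?_ h1
  · rintro _ ⟨j, hj, rfl⟩
    refine Submodule.subset_span ⟨MvPolynomial.homogeneousComponent n j, hJ j hj n, ?_⟩
    ext d
    simp only [qc, MvPolynomial.coeff_map, MvPolynomial.coeff_homogeneousComponent]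
    split_ifs <;> simp
  · simp
  · intro u v _ _ hu hv
    rw [map_add]; exact Submodule.add_mem _ hu hv
  · intro t u _ hu
    rw [map_smul]; exact Submodule.smul_mem _ _ hu

private theorem ac1_qc_zq (f : PZ m) : qc (zq f) = zc f := by
  rw [qc, zq, zc, MvPolynomial.map_map]
  congr 1

/-- every complex form of degree `L` is a combination of a basis, modulo the complexified ideal -/
private theorem ac1_form {J : Ideal (PQ m)} {L s : ℕ} {h : Fin s → PZ m} (hb : IsBas J L h) {b : PC m} (hh : b.IsHomogeneous L) :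
    b ∈ Submodule.span ℂ (Set.range fun j => zc (h j)) ⊔ (JC J).restrictScalars ℂ := by
  have hq : ∀ p : PQ m, p.IsHomogeneous L → qc p ∈ Submodule.span ℂ (Set.range fun j => zc (h j)) ⊔ (JC J).restrictScalars ℂ := by
    intro p hp
    have h1 : Ideal.Quotient.mkₐ ℚ J p ∈ qd J L := ⟨p, hp, rfl⟩
    rw [← hb.span, Submodule.mem_span_range_iff_exists_fun] at h1
    obtain ⟨c, hc⟩ := h1
    have h2 : Ideal.Quotient.mkₐ ℚ J (p - ∑ i, c i • zq (h i)) = 0 := by
      rw [map_sub, map_sum, ← hc]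
      simp [map_smul]
    rw [Ideal.Quotient.mkₐ_eq_mk, Ideal.Quotient.eq_zero_iff_mem] at h2
    have h3 : qc p = ∑ i, ((c i : ℚ) : ℂ) • zc (h i) + qc (p - ∑ i, c i • zq (h i)) := by
      have h4 : qc (∑ i, c i • zq (h i)) = ∑ i, ((c i : ℚ) : ℂ) • zc (h i) := by
        rw [qc, map_sum]
        refine Finset.sum_congr rfl fun i _ => ?_
        rw [MvPolynomial.smul_eq_C_mul, map_mul, MvPolynomial.map_C, MvPolynomial.smul_eq_C_mul, ← ac1_qc_zq]
        simp [qc]
      rw [← h4]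
      simp [qc]
    rw [h3]
    refine Submodule.add_mem_sup ?_ ?_
    · exact Submodule.sum_mem _ fun i _ => Submodule.smul_mem _ _ (Submodule.subset_span ⟨i, rfl⟩)
    · exact Ideal.mem_map_of_mem _ h2
  rw [← MvPolynomial.support_sum_monomial_coeff b]
  refine Submodule.sum_mem _ fun d hd => ?_
  have h5 : (MvPolynomial.monomial d (b.coeff d) : PC m) = (b.coeff d) • qc (MvPolynomial.monomial d 1) := by
    simp [qc, MvPolynomial.smul_monomial]
  rw [h5]
  refine Submodule.smul_mem _ _ (hq _ ?_)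
  exact MvPolynomial.isHomogeneous_monomial _ (hh.degree_eq_sum_deg_support hd).symm

private theorem ac1_bas {J : Ideal (PQ m)} (hJ : HI J) {δ : ℕ} {a : PZ m} (ha : a.IsHomogeneous δ)
    {L r s : ℕ} {f : Fin r → PZ m} {h : Fin s → PZ m} (hf : IsBas (J ⊔ Ideal.span {zq a}) (δ + L) f)
    (hh : IsBas (col J (zq a)) L h) : IsBas J (δ + L) (Fin.append (fun i => a * h i) f) := by
  have hzq : (zq a).IsHomogeneous δ := ha.map _
  have hom : ∀ i, (Fin.append (fun i => a * h i) f i).IsHomogeneous (δ + L) := by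
    intro i
    refine Fin.addCases (fun i => ?_) (fun i => ?_) i
    · rw [Fin.append_left]; exact ha.mul (hh.hom i)
    · rw [Fin.append_right]; exact hf.hom i
  refine ⟨hom, ?_, ?_⟩
  · rw [Fintype.linearIndependent_iff]
    intro c hc
    have h1 : Ideal.Quotient.mkₐ ℚ J (zq a * ∑ i, c (Fin.castAdd r i) • zq (h i) + ∑ i, c (Fin.natAdd s i) • zq (f i)) = 0 := by
      rw [← hc, Fin.sum_univ_add, map_add, Finset.mul_sum, map_sum, map_sum]
      congr 1
      · refine Finset.sum_congr rfl fun i _ => ?_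
        rw [Fin.append_left, mul_smul_comm, map_smul]
        simp [zq]
      · refine Finset.sum_congr rfl fun i _ => ?_
        rw [Fin.append_right, map_smul]
    rw [Ideal.Quotient.mkₐ_eq_mk, Ideal.Quotient.eq_zero_iff_mem] at h1
    have h2 : ∑ i, c (Fin.natAdd s i) • zq (f i) ∈ J ⊔ Ideal.span {zq a} := by
      have h3 : zq a * ∑ i, c (Fin.castAdd r i) • zq (h i) ∈ J ⊔ Ideal.span {zq a} :=
        Ideal.mul_mem_right _ _ (Ideal.mem_sup_right (Ideal.subset_span rfl))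
      have h4 := Ideal.mem_sup_left (T := Ideal.span {zq a}) h1
      simpa using Ideal.sub_mem _ h4 h3
    have h5 : ∀ i, c (Fin.natAdd s i) = 0 := by
      refine Fintype.linearIndependent_iff.1 hf.ind (fun i => c (Fin.natAdd s i)) ?_
      rw [← Ideal.Quotient.eq_zero_iff_mem, ← Ideal.Quotient.mkₐ_eq_mk ℚ, map_sum] at h2
      rw [← h2]
      exact Finset.sum_congr rfl fun i _ => by rw [map_smul]
    have h6 : ∑ i, c (Fin.castAdd r i) • zq (h i) ∈ col J (zq a) := by
      have h7 : zq a * ∑ i, c (Fin.castAdd r i) • zq (h i) ∈ J := by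
        have h8 : ∑ i, c (Fin.natAdd s i) • zq (f i) = 0 :=
          Finset.sum_eq_zero fun i _ => by rw [h5 i, zero_smul]
        rwa [h8, add_zero] at h1
      exact h7
    have h9 : ∀ i, c (Fin.castAdd r i) = 0 := by
      refine Fintype.linearIndependent_iff.1 hh.ind (fun i => c (Fin.castAdd r i)) ?_
      rw [← Ideal.Quotient.eq_zero_iff_mem, ← Ideal.Quotient.mkₐ_eq_mk ℚ, map_sum] at h6
      rw [← h6]
      exact Finset.sum_congr rfl fun i _ => by rw [map_smul]
    intro i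
    exact Fin.addCases (motive := fun i => c i = 0) h9 h5 i
  · apply le_antisymm
    · rw [Submodule.span_le]
      rintro _ ⟨i, rfl⟩
      exact ⟨zq (Fin.append (fun i => a * h i) f i), (hom i).map _, rfl⟩
    · rintro _ ⟨p, hp, rfl⟩
      have hp' : p.IsHomogeneous (δ + L) := hp
      have h1 : Ideal.Quotient.mkₐ ℚ (J ⊔ Ideal.span {zq a}) p ∈ qd (J ⊔ Ideal.span {zq a}) (δ + L) := ⟨p, hp, rfl⟩
      rw [← hf.span, Submodule.mem_span_range_iff_exists_fun] at h1
      obtain ⟨d, hd⟩ := h1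
      have h2 : p - ∑ i, d i • zq (f i) ∈ J ⊔ Ideal.span {zq a} := by
        rw [← Ideal.Quotient.eq_zero_iff_mem, ← Ideal.Quotient.mkₐ_eq_mk ℚ, map_sub, map_sum, ← hd]
        simp [map_smul]
      obtain ⟨j, hj, z, hz, hjz⟩ := Submodule.mem_sup.1 h2
      obtain ⟨b, rfl⟩ := Ideal.mem_span_singleton'.1 hz
      have h3 : (p - ∑ i, d i • zq (f i)).IsHomogeneous (δ + L) := by
        refine hp'.sub (MvPolynomial.IsHomogeneous.sum _ _ _ fun i _ => ?_)
        rw [MvPolynomial.smul_eq_C_mul]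
        exact MvPolynomial.IsHomogeneous.C_mul ((hf.hom i).map _) _
      have h4 : p - ∑ i, d i • zq (f i) = MvPolynomial.homogeneousComponent (δ + L) j
          + zq a * MvPolynomial.homogeneousComponent L b := by
        rw [← ac1_hc L b hzq, ← map_add, mul_comm (zq a), hjz, MvPolynomial.homogeneousComponent_eq_self h3]
      have h5 : Ideal.Quotient.mkₐ ℚ (col J (zq a)) (MvPolynomial.homogeneousComponent L b) ∈ qd (col J (zq a)) L :=
        ⟨_, MvPolynomial.homogeneousComponent_isHomogeneous L b, rfl⟩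
      rw [← hh.span, Submodule.mem_span_range_iff_exists_fun] at h5
      obtain ⟨e, he⟩ := h5
      have h6 : MvPolynomial.homogeneousComponent L b - ∑ i, e i • zq (h i) ∈ col J (zq a) := by
        rw [← Ideal.Quotient.eq_zero_iff_mem, ← Ideal.Quotient.mkₐ_eq_mk ℚ, map_sub, map_sum, ← he]
        simp [map_smul]
      have h7 : zq a * (MvPolynomial.homogeneousComponent L b - ∑ i, e i • zq (h i)) ∈ J := h6
      have h8 : p - (∑ i, e i • zq (a * h i) + ∑ i, d i • zq (f i)) ∈ J := by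
        have h9 : p - (∑ i, e i • zq (a * h i) + ∑ i, d i • zq (f i)) = MvPolynomial.homogeneousComponent (δ + L) j
            + zq a * (MvPolynomial.homogeneousComponent L b - ∑ i, e i • zq (h i)) := by
          have h10 : ∑ i, e i • zq (a * h i) = zq a * ∑ i, e i • zq (h i) := by
            rw [Finset.mul_sum]
            exact Finset.sum_congr rfl fun i _ => by rw [mul_smul_comm]; simp [zq]
          rw [h10, mul_sub, ← add_sub_assoc, ← h4]; ring
        rw [h9]
        exact J.add_mem (hJ _ hj _) h7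
      have h11 : Ideal.Quotient.mkₐ ℚ J p = ∑ i, e i • Ideal.Quotient.mkₐ ℚ J (zq (a * h i)) + ∑ i, d i • Ideal.Quotient.mkₐ ℚ J (zq (f i)) := by
        rw [← Ideal.Quotient.eq_zero_iff_mem, ← Ideal.Quotient.mkₐ_eq_mk ℚ, map_sub, sub_eq_zero] at h8
        rw [h8, map_add, map_sum, map_sum]
        congr 1
      change Ideal.Quotient.mkₐ ℚ J p ∈ _
      rw [h11]
      refine Submodule.add_mem _ (Submodule.sum_mem _ fun i _ => Submodule.smul_mem _ _ (Submodule.subset_span ⟨Fin.castAdd r i, ?_⟩))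
        (Submodule.sum_mem _ fun i _ => Submodule.smul_mem _ _ (Submodule.subset_span ⟨Fin.natAdd s i, ?_⟩))
      · simp only [Fin.append_left]
      · simp only [Fin.append_right]

private theorem ac1_mod {J : Ideal (PQ m)} (hJ : HI J) {δ : ℕ} {a : PZ m} (ha : a.IsHomogeneous δ)
    {L r s : ℕ} {f : Fin r → PZ m} {h : Fin s → PZ m} {g : Fin r → PC m} {h' : Fin s → PC m}
    (hf : IsBas (J ⊔ Ideal.span {zq a}) (δ + L) f) (hg : IsMod (J ⊔ Ideal.span {zq a}) (δ + L) f g)
    (hh : IsBas (col J (zq a)) L h) (hh' : IsMod (col J (zq a)) L h h') :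
    IsMod J (δ + L) (Fin.append (fun i => a * h i) f) (Fin.append (fun i => zc a * h' i) g) := by
  have hzc : (zc a).IsHomogeneous δ := ha.map _
  have hmulc : ∀ x ∈ JC (col J (zq a)), zc a * x ∈ JC J := by
    intro x hx
    have h1 : x ∈ (JC (col J (zq a))).restrictScalars ℂ := hx
    rw [ac1_JC] at h1
    refine Submodule.span_induction (p := fun z _ => zc a * z ∈ JC J) ?_ ?_ ?_ ?_ h1
    · rintro _ ⟨j, hj, rfl⟩
      have h2 : zq a * j ∈ J := hj
      have h3 : zc a * qc j = qc (zq a * j) := by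
        rw [← ac1_qc_zq]; simp [qc]
      rw [h3]
      exact Ideal.mem_map_of_mem _ h2
    · rw [mul_zero]; exact (JC J).zero_mem
    · intro u v _ _ hu hv
      rw [mul_add]; exact (JC J).add_mem hu hv
    · intro t u _ hu
      rw [mul_smul_comm, MvPolynomial.smul_eq_C_mul]; exact (JC J).mul_mem_left _ hu
  have hza : ∀ i, zc a * zc (h i) = zc (Fin.append (fun i => a * h i) f (Fin.castAdd r i)) := by
    intro i
    rw [Fin.append_left]; simp [zc]
  refine ⟨?_, ?_⟩
  · intro i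
    refine Fin.addCases (fun i => ?_) (fun i => ?_) i
    · rw [Fin.append_left]; exact hzc.mul (hh'.hom i)
    · rw [Fin.append_right]; exact hg.hom i
  · intro i
    refine Fin.addCases (fun i => ?_) (fun i => ?_) i
    · obtain ⟨u, hu, v, hv, huv⟩ := Submodule.mem_sup.1 (hh'.mem i)
      have h1 : Fin.append (fun i => zc a * h' i) g (Fin.castAdd r i) - zc (Fin.append (fun i => a * h i) f (Fin.castAdd r i))
          = zc a * u + zc a * v := by
        rw [← hza, Fin.append_left, ← mul_add, huv]; ring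
      rw [h1]
      refine Submodule.add_mem_sup ?_ (hmulc v hv)
      refine Submodule.span_induction (p := fun z _ => zc a * z ∈ Submodule.span ℂ
        ((fun j => zc (Fin.append (fun i => a * h i) f j)) '' {j | j < Fin.castAdd r i})) ?_ ?_ ?_ ?_ hu
      · rintro _ ⟨j, hj, rfl⟩
        refine Submodule.subset_span ⟨Fin.castAdd r j, ?_, (hza j).symm⟩
        exact (Fin.lt_def.1 hj : (j : ℕ) < (i : ℕ))
      · rw [mul_zero]; exact Submodule.zero_mem _
      · intro u v _ _ hu hv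
        rw [mul_add]; exact Submodule.add_mem _ hu hv
      · intro t u _ hu
        rw [mul_smul_comm]; exact Submodule.smul_mem _ _ hu
    · obtain ⟨u, hu, v, hv, huv⟩ := Submodule.mem_sup.1 (hg.mem i)
      have hu1 : u.IsHomogeneous (δ + L) := by
        have h1 : u ∈ MvPolynomial.homogeneousSubmodule (Fin (m + 1)) ℂ (δ + L) := by
          refine Submodule.span_le.2 ?_ hu
          rintro _ ⟨j, _, rfl⟩
          exact (hf.hom j).map _
        exact h1
      have hv1 : v.IsHomogeneous (δ + L) := by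
        have h1 : v = (g i - zc (f i)) - u := by rw [← huv]; ring
        rw [h1]
        exact ((hg.hom i).sub ((hf.hom i).map _)).sub hu1
      have hv2 : v ∈ JC J ⊔ Ideal.span {zc a} := by
        have h1 : JC (J ⊔ Ideal.span {zq a}) = JC J ⊔ Ideal.span {zc a} := by
          rw [JC, JC, Ideal.map_sup, Ideal.map_span, Set.image_singleton]
          congr 3
          exact ac1_qc_zq a
        rw [← h1]; exact hv
      obtain ⟨j, hj, z, hz, hjz⟩ := Submodule.mem_sup.1 hv2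
      obtain ⟨b, rfl⟩ := Ideal.mem_span_singleton'.1 hz
      have h4 : v = MvPolynomial.homogeneousComponent (δ + L) j + zc a * MvPolynomial.homogeneousComponent L b := by
        rw [← ac1_hc L b hzc, ← map_add, mul_comm (zc a), hjz, MvPolynomial.homogeneousComponent_eq_self hv1]
      obtain ⟨u', hu', v', hv', huv'⟩ := Submodule.mem_sup.1
        (ac1_form hh (MvPolynomial.homogeneousComponent_isHomogeneous L b))
      have h5 : Fin.append (fun i => zc a * h' i) g (Fin.natAdd s i) - zc (Fin.append (fun i => a * h i) f (Fin.natAdd s i))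
          = (u + zc a * u') + (MvPolynomial.homogeneousComponent (δ + L) j + zc a * v') := by
        rw [Fin.append_right, Fin.append_right, ← huv, h4, ← huv']; ring
      rw [h5]
      refine Submodule.add_mem_sup (Submodule.add_mem _ ?_ ?_) ((JC J).add_mem (ac1_JC_hom hJ _ hj) (hmulc v' hv'))
      · refine Submodule.span_mono ?_ hu
        rintro _ ⟨k, hk, rfl⟩
        refine ⟨Fin.natAdd s k, ?_, by simp only [Fin.append_right]⟩
        exact (Fin.natAdd_lt_natAdd_iff _).2 hk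
      · refine Submodule.span_induction (p := fun z _ => zc a * z ∈ Submodule.span ℂ
          ((fun j => zc (Fin.append (fun i => a * h i) f j)) '' {j | j < Fin.natAdd s i})) ?_ ?_ ?_ ?_ hu'
        · rintro _ ⟨k, rfl⟩
          refine Submodule.subset_span ⟨Fin.castAdd r k, ?_, (hza k).symm⟩
          have h6 : (k : ℕ) < s := k.2
          change Fin.castAdd r k < Fin.natAdd s i
          rw [Fin.lt_def]
          simp only [Fin.val_castAdd, Fin.val_natAdd]
          omega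
        · rw [mul_zero]; exact Submodule.zero_mem _
        · intro u v _ _ hu hv
          rw [mul_add]; exact Submodule.add_mem _ hu hv
        · intro t u _ hu
          rw [mul_smul_comm]; exact Submodule.smul_mem _ _ hu

theorem adm_star (θ : Fin m → ℂ) {w : ℝ} (hw : 0 ≤ w) (τ : ℝ) {J : Ideal (PQ m)} (hJ : HI J) {δ : ℕ} {a : PZ m} (ha : a.IsHomogeneous δ)
    (L : ℕ) {x y : ℝ} (h1 : Adm θ w τ (J ⊔ Ideal.span {zq a}) (δ + L) x) (h2 : Adm θ w τ (col J (zq a)) L y) :
    Adm θ w τ J (δ + L) (x + y + rJ (col J (zq a)) L * max 0 (Real.log (wl θ w τ δ (zc a)))) := by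
  obtain ⟨r, f, g, hf, hg, hx⟩ := h1
  obtain ⟨s, h, h', hh, hh', hy⟩ := h2
  refine ⟨s + r, Fin.append (fun i => a * h i) f, Fin.append (fun i => zc a * h' i) g, ac1_bas hJ ha hf hh,
    ac1_mod hJ ha hf hg hh hh', ?_⟩
  have hs : rJ (col J (zq a)) L = s := by
    rw [rJ, ← hh.span, finrank_span_eq_card hh.ind, Fintype.card_fin]
  rw [hs, Fin.prod_univ_add]
  simp only [Fin.append_left, Fin.append_right]
  have hA0 : 0 ≤ wl θ w τ δ (zc a) := wl_nonneg _ _ _ _ _
  have hA : wl θ w τ δ (zc a) ≤ Real.exp (max 0 (Real.log (wl θ w τ δ (zc a)))) := by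
    rcases hA0.eq_or_lt with h0 | h0
    · rw [← h0]; exact (Real.exp_pos _).le
    · calc wl θ w τ δ (zc a) = Real.exp (Real.log (wl θ w τ δ (zc a))) := (Real.exp_log h0).symm
        _ ≤ _ := Real.exp_le_exp.2 (le_max_right _ _)
  have h3 : ∏ i : Fin s, wl θ w τ (δ + L) (zc a * h' i) ≤ Real.exp (s * max 0 (Real.log (wl θ w τ δ (zc a)))) * Real.exp y := by
    calc ∏ i : Fin s, wl θ w τ (δ + L) (zc a * h' i)
        ≤ ∏ i : Fin s, (wl θ w τ δ (zc a) * wl θ w τ L (h' i)) :=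
          Finset.prod_le_prod (fun i _ => wl_nonneg _ _ _ _ _) (fun i _ => wl_mul_le θ hw τ δ L _ _)
      _ = wl θ w τ δ (zc a) ^ s * ∏ i : Fin s, wl θ w τ L (h' i) := by
          rw [Finset.prod_mul_distrib, Finset.prod_const, Finset.card_univ, Fintype.card_fin]
      _ ≤ Real.exp (s * max 0 (Real.log (wl θ w τ δ (zc a)))) * Real.exp y := by
          refine mul_le_mul ?_ hy (Finset.prod_nonneg fun i _ => wl_nonneg _ _ _ _ _) (Real.exp_pos _).le
          rw [Real.exp_nat_mul]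
          exact pow_le_pow_left₀ hA0 hA s
  calc (∏ i : Fin s, wl θ w τ (δ + L) (zc a * h' i)) * ∏ i : Fin r, wl θ w τ (δ + L) (g i)
      ≤ (Real.exp (s * max 0 (Real.log (wl θ w τ δ (zc a)))) * Real.exp y) * Real.exp x :=
        mul_le_mul h3 hx (Finset.prod_nonneg fun i _ => wl_nonneg _ _ _ _ _) (by positivity)
    _ = Real.exp (x + y + s * max 0 (Real.log (wl θ w τ δ (zc a)))) := by
        rw [← Real.exp_add, ← Real.exp_add]; congr 1; ring



/-- the component of a product lies in an ideal containing all the components of one factor -/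
private theorem Ac2_comp_mul {R : Type} [CommRing R] {σ : Type} (I : Ideal (MvPolynomial σ R)) (r x : MvPolynomial σ R)
    (hx : ∀ n : ℕ, homogeneousComponent n x ∈ I) (n : ℕ) : homogeneousComponent n (r * x) ∈ I := by
  classical
  rw [← sum_homogeneousComponent r, ← sum_homogeneousComponent x, Finset.sum_mul_sum, map_sum]
  refine Ideal.sum_mem _ fun j _ => ?_
  rw [map_sum]
  refine Ideal.sum_mem _ fun k _ => ?_
  have h1 : homogeneousComponent j r * homogeneousComponent k x ∈ homogeneousSubmodule σ R (j + k) := by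
    rw [mem_homogeneousSubmodule]
    exact (homogeneousComponent_isHomogeneous j r).mul (homogeneousComponent_isHomogeneous k x)
  rw [homogeneousComponent_of_mem h1]
  split
  · exact Ideal.mul_mem_left _ _ (hx k)
  · exact Ideal.zero_mem _

/-- the component of degree `L < δ` of a multiple of a form of degree `δ` vanishes -/
private theorem Ac2_comp_low {R : Type} [CommRing R] {σ : Type} {δ L : ℕ} (hL : L < δ) {a : MvPolynomial σ R} (ha : a.IsHomogeneous δ)
    (b : MvPolynomial σ R) : homogeneousComponent L (b * a) = 0 := by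
  classical
  rw [← sum_homogeneousComponent b, Finset.sum_mul, map_sum]
  refine Finset.sum_eq_zero fun j _ => ?_
  have h1 : homogeneousComponent j b * a ∈ homogeneousSubmodule σ R (j + δ) := by
    rw [mem_homogeneousSubmodule]
    exact (homogeneousComponent_isHomogeneous j b).mul ha
  rw [homogeneousComponent_of_mem h1, if_neg (by omega)]

/-- forms of degree `L < δ` in `I + (a)` lie in `I` -/
private theorem Ac2_low {R : Type} [CommRing R] {σ : Type} {δ L : ℕ} (hL : L < δ) {a : MvPolynomial σ R} (ha : a.IsHomogeneous δ)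
    {I : Ideal (MvPolynomial σ R)} (hI : ∀ f ∈ I, homogeneousComponent L f ∈ I) {h : MvPolynomial σ R} (hh : h.IsHomogeneous L)
    (hm : h ∈ I ⊔ Ideal.span {a}) : h ∈ I := by
  obtain ⟨y, hy, z, hz, hyz⟩ := Submodule.mem_sup.mp hm
  obtain ⟨b, rfl⟩ := Ideal.mem_span_singleton'.mp hz
  have h1 : homogeneousComponent L h = h := by
    rw [homogeneousComponent_of_mem ((mem_homogeneousSubmodule _ _).mpr hh), if_pos rfl]
  rw [← h1, ← hyz, map_add, Ac2_comp_low hL ha, add_zero]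
  exact hI y hy

/-- the complexified ideal is homogeneous -/
private theorem Ac2_JC_hi {J : Ideal (PQ m)} (hJ : HI J) : ∀ f ∈ JC J, ∀ n : ℕ, homogeneousComponent n f ∈ JC J := by
  classical
  intro f hf
  unfold JC at hf ⊢
  rw [Ideal.map] at hf
  refine Submodule.span_induction (p := fun x _ => ∀ n : ℕ, homogeneousComponent n x ∈
    Ideal.map (MvPolynomial.map (algebraMap ℚ ℂ)) J) ?_ ?_ ?_ ?_ hf
  · rintro x ⟨y, hy, rfl⟩ n
    have h1 : homogeneousComponent n (MvPolynomial.map (algebraMap ℚ ℂ) y) =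
        MvPolynomial.map (algebraMap ℚ ℂ) (homogeneousComponent n y) := by
      ext d
      rw [coeff_homogeneousComponent, coeff_map, coeff_map, coeff_homogeneousComponent]
      split
      · rfl
      · rw [map_zero]
    rw [h1]
    exact Ideal.mem_map_of_mem _ (hJ y hy n)
  · intro n
    rw [map_zero]
    exact Ideal.zero_mem _
  · intro x y _ _ hx hy n
    rw [map_add]
    exact Ideal.add_mem _ (hx n) (hy n)
  · intro r x _ hx n
    rw [smul_eq_mul]
    exact Ac2_comp_mul _ r x hx n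

private theorem Ac2_JC_sup (J : Ideal (PQ m)) (a : PQ m) : JC (J ⊔ Ideal.span {a}) = JC J ⊔ Ideal.span {qc a} := by
  unfold JC
  rw [Ideal.map_sup, Ideal.map_span, Set.image_singleton]
  rfl

private theorem Ac2_map_hom {R S : Type} [CommRing R] [CommRing S] {σ : Type} (φ : R →+* S) {n : ℕ} {f : MvPolynomial σ R}
    (hf : f.IsHomogeneous n) : (MvPolynomial.map φ f).IsHomogeneous n := hf.map φ

theorem adm_low (θ : Fin m → ℂ) (w τ : ℝ) {J : Ideal (PQ m)} (hJ : HI J) {δ : ℕ} {a : PZ m} (ha : a.IsHomogeneous δ)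
    {L : ℕ} (hL : L < δ) {x : ℝ} (h1 : Adm θ w τ (J ⊔ Ideal.span {zq a}) L x) : Adm θ w τ J L x := by
  classical
  obtain ⟨r, f, g, hf, hg, hx⟩ := h1
  have hzq : (zq a).IsHomogeneous δ := Ac2_map_hom _ ha
  have hqc : (qc (zq a)).IsHomogeneous δ := Ac2_map_hom _ hzq
  have hle : J ≤ J ⊔ Ideal.span {zq a} := le_sup_left
  refine ⟨r, f, g, ⟨hf.hom, ?_, ?_⟩, ⟨hg.hom, ?_⟩, hx⟩
  · -- linear independence
    have h2 : (fun i => Ideal.Quotient.mkₐ ℚ (J ⊔ Ideal.span {zq a}) (zq (f i))) =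
        (Ideal.Quotient.factorₐ ℚ hle).toLinearMap ∘ (fun i => Ideal.Quotient.mkₐ ℚ J (zq (f i))) := by
      funext i
      rfl
    have h3 := hf.ind
    rw [h2] at h3
    exact LinearIndependent.of_comp _ h3
  · -- span
    apply le_antisymm
    · rw [Submodule.span_le]
      rintro _ ⟨i, rfl⟩
      exact ⟨zq (f i), (mem_homogeneousSubmodule _ _).mpr (Ac2_map_hom _ (hf.hom i)), rfl⟩
    · rintro _ ⟨h, hh, rfl⟩
      have hh' : h.IsHomogeneous L := (mem_homogeneousSubmodule _ _).mp hh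
      have h4 : Ideal.Quotient.mkₐ ℚ (J ⊔ Ideal.span {zq a}) h ∈ qd (J ⊔ Ideal.span {zq a}) L := ⟨h, hh, rfl⟩
      rw [← hf.span] at h4
      obtain ⟨c, hc⟩ := (Submodule.mem_span_range_iff_exists_fun ℚ).mp h4
      have h5 : h - ∑ i, c i • zq (f i) ∈ J ⊔ Ideal.span {zq a} := by
        rw [← Ideal.Quotient.eq_zero_iff_mem]
        have h6 : Ideal.Quotient.mkₐ ℚ (J ⊔ Ideal.span {zq a}) (h - ∑ i, c i • zq (f i)) = 0 := by
          rw [map_sub, map_sum, ← hc, sub_eq_zero]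
          exact Finset.sum_congr rfl fun i _ => (map_smul _ _ _).symm
        exact h6
      have h7 : (h - ∑ i, c i • zq (f i)).IsHomogeneous L := by
        have h8 : h - ∑ i, c i • zq (f i) ∈ homogeneousSubmodule (Fin (m + 1)) ℚ L := by
          refine Submodule.sub_mem _ hh (Submodule.sum_mem _ fun i _ => Submodule.smul_mem _ _ ?_)
          exact (mem_homogeneousSubmodule _ _).mpr (Ac2_map_hom _ (hf.hom i))
        exact (mem_homogeneousSubmodule _ _).mp h8
      have h9 : h - ∑ i, c i • zq (f i) ∈ J := Ac2_low hL hzq (fun y hy => hJ y hy L) h7 h5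
      have h10 : Ideal.Quotient.mkₐ ℚ J (h - ∑ i, c i • zq (f i)) = 0 := Ideal.Quotient.eq_zero_iff_mem.mpr h9
      rw [map_sub, map_sum, sub_eq_zero] at h10
      show Ideal.Quotient.mkₐ ℚ J h ∈ _
      rw [h10]
      refine Submodule.sum_mem _ fun i _ => ?_
      rw [map_smul]
      exact Submodule.smul_mem _ _ (Submodule.subset_span ⟨i, rfl⟩)
  · -- modification
    intro i
    obtain ⟨s, hs, e, he, hse⟩ := Submodule.mem_sup.mp (hg.mem i)
    have he' : e ∈ JC (J ⊔ Ideal.span {zq a}) := he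
    rw [Ac2_JC_sup] at he'
    have hsh : s ∈ homogeneousSubmodule (Fin (m + 1)) ℂ L := by
      refine (Submodule.span_le.mpr ?_) hs
      rintro _ ⟨j, _, rfl⟩
      exact (mem_homogeneousSubmodule _ _).mpr (Ac2_map_hom _ (hf.hom j))
    have heh : e ∈ homogeneousSubmodule (Fin (m + 1)) ℂ L := by
      have h3 : e = g i - zc (f i) - s := by rw [← hse]; ring
      rw [h3]
      refine Submodule.sub_mem _ (Submodule.sub_mem _ ?_ ?_) hsh
      · exact (mem_homogeneousSubmodule _ _).mpr (hg.hom i)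
      · exact (mem_homogeneousSubmodule _ _).mpr (Ac2_map_hom _ (hf.hom i))
    have h4 : e ∈ JC J := Ac2_low hL hqc (fun y hy => Ac2_JC_hi hJ y hy L) ((mem_homogeneousSubmodule _ _).mp heh) he'
    exact Submodule.mem_sup.mpr ⟨s, hs, e, h4, hse⟩


/-! ### row Ad: monomial bases -/


/-- the exponent with the given last `m` entries and degree `L` -/
def Ad1_ex (m L : ℕ) (e : Fin m → Fin (L + 1)) : Fin (m + 1) →₀ ℕ :=
  Finsupp.equivFunOnFinite.symm (Fin.cons (L - ∑ i, (e i : ℕ)) (fun i => (e i : ℕ)))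

theorem Ad1_exists {m L : ℕ} (d : Fin (m + 1) →₀ ℕ) (hd : d.degree = L) : ∃ e, Ad1_ex m L e = d := by
  have hsum : d 0 + ∑ i : Fin m, d i.succ = L := by
    rw [← hd, Finsupp.degree_eq_sum, Fin.sum_univ_succ]
  have hle : ∀ i : Fin m, d i.succ < L + 1 := by
    intro i
    have h1 : d i.succ ≤ ∑ i : Fin m, d i.succ := Finset.single_le_sum (f := fun i : Fin m => d i.succ)
      (fun _ _ => Nat.zero_le _) (Finset.mem_univ i)
    omega
  refine ⟨fun i => ⟨d i.succ, hle i⟩, ?_⟩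
  ext j
  unfold Ad1_ex
  rw [Finsupp.equivFunOnFinite_symm_apply_apply]
  refine Fin.cases ?_ (fun i => ?_) j
  · rw [Fin.cons_zero]
    simp only
    omega
  · rw [Fin.cons_succ]

theorem Ad1_qd_le (J : Ideal (PQ m)) (L : ℕ) :
    qd J L ≤ Submodule.span ℚ (Set.range fun e : Fin m → Fin (L + 1) =>
      Ideal.Quotient.mkₐ ℚ J (monomial (Ad1_ex m L e) (1 : ℚ))) := by
  intro x hx
  obtain ⟨f, hf, rfl⟩ := hx
  have hf' : f.IsHomogeneous L := hf
  have h1 : (Ideal.Quotient.mkₐ ℚ J).toLinearMap f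
      = ∑ d ∈ f.support, (f.coeff d) • Ideal.Quotient.mkₐ ℚ J (monomial d (1 : ℚ)) := by
    conv_lhs => rw [f.as_sum]
    rw [map_sum]
    refine Finset.sum_congr rfl fun d _ => ?_
    have h2 : (monomial d (f.coeff d) : PQ m) = (f.coeff d) • monomial d (1 : ℚ) := by
      rw [MvPolynomial.smul_monomial, smul_eq_mul, mul_one]
    rw [h2]
    exact map_smul _ _ _
  rw [h1]
  refine Submodule.sum_mem _ fun d hd => Submodule.smul_mem _ _ ?_
  have h3 : d.degree = L := by
    have := hf' (MvPolynomial.mem_support_iff.1 hd)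
    rw [← this, Finsupp.degree_eq_weight_one]
    rfl
  obtain ⟨e, he⟩ := Ad1_exists d h3
  refine Submodule.subset_span ⟨e, ?_⟩
  simp only [he]

theorem rJ_le (J : Ideal (PQ m)) (L : ℕ) : rJ J L ≤ (L + 1) ^ m := by
  unfold rJ
  have : FiniteDimensional ℚ (Submodule.span ℚ (Set.range fun e : Fin m → Fin (L + 1) =>
      Ideal.Quotient.mkₐ ℚ J (monomial (Ad1_ex m L e) (1 : ℚ)))) :=
    FiniteDimensional.span_of_finite ℚ (Set.finite_range _)
  refine (Submodule.finrank_mono (Ad1_qd_le J L)).trans ?_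
  refine (finrank_range_le_card (R := ℚ) (fun e : Fin m → Fin (L + 1) =>
      Ideal.Quotient.mkₐ ℚ J (monomial (Ad1_ex m L e) (1 : ℚ)))).trans (le_of_eq ?_)
  simp

/-- every `J`-basis has `rJ J L` elements -/
theorem IsBas.card {J : Ideal (PQ m)} {L r : ℕ} {f : Fin r → PZ m} (h : IsBas J L f) : r = rJ J L := by
  unfold rJ
  rw [← h.span, finrank_span_eq_card h.ind, Fintype.card_fin]



private theorem Ad2_fin (n L : ℕ) : {d : Fin n →₀ ℕ | d.degree = L}.Finite := by
  refine (Set.finite_Iic (Finsupp.equivFunOnFinite.symm (fun _ : Fin n => L))).subset ?_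
  intro d hd
  rw [Set.mem_Iic]
  intro i
  have h1 : d i ≤ d.degree := Finsupp.le_degree i d
  have h2 : d.degree = L := hd
  simpa [h2] using h1

private theorem Ad2_qd (J : Ideal (PQ m)) (L : ℕ) :
    qd J L = Submodule.span ℚ ((fun d => Ideal.Quotient.mkₐ ℚ J (MvPolynomial.monomial d (1 : ℚ))) '' {d : Fin (m + 1) →₀ ℕ | d.degree = L}) := by
  have h1 : MvPolynomial.homogeneousSubmodule (Fin (m + 1)) ℚ L
      = Submodule.span ℚ ((fun d => MvPolynomial.monomial d (1 : ℚ)) '' {d : Fin (m + 1) →₀ ℕ | d.degree = L}) := by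
    rw [MvPolynomial.homogeneousSubmodule_eq_finsupp_supported, AddMonoidAlgebra.supported_eq_span_single]
    rfl
  unfold qd
  rw [h1, Submodule.map_span, ← Set.image_comp]
  rfl

private theorem Ad2_lC (d : Fin (m + 1) →₀ ℕ) : lC (zc (MvPolynomial.monomial d (1 : ℤ))) = 1 := by
  have h1 : zc (MvPolynomial.monomial d (1 : ℤ)) = MvPolynomial.monomial d (1 : ℂ) := by
    unfold zc
    rw [MvPolynomial.map_monomial]
    simp
  rw [h1]
  unfold lC
  rw [MvPolynomial.support_monomial]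
  simp

theorem adm_mon (θ : Fin m → ℂ) {Θ : ℝ} (hΘ : ∀ i, ‖θ i‖ ≤ Θ) (hΘ0 : 0 ≤ Θ) {w τ : ℝ} (hw : 0 ≤ w) (hτ : 0 ≤ τ) (J : Ideal (PQ m)) (L : ℕ) :
    Adm θ w τ J L (rJ J L * (L * (Real.log (1 + Θ) + w * τ))) := by
  classical
  set F : (Fin (m + 1) →₀ ℕ) → PQ m ⧸ J := fun d => Ideal.Quotient.mkₐ ℚ J (MvPolynomial.monomial d (1 : ℚ)) with hF
  set D : Set (Fin (m + 1) →₀ ℕ) := {d : Fin (m + 1) →₀ ℕ | d.degree = L} with hD
  have hqd : qd J L = Submodule.span ℚ (F '' D) := Ad2_qd J L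
  obtain ⟨b, hbs, hbspan, hbli⟩ := exists_linearIndependent ℚ (F '' D)
  have hbfin : b.Finite := ((Ad2_fin (m + 1) L).image F).subset hbs
  have : Fintype b := hbfin.fintype
  have hr : rJ J L = Fintype.card b := by
    unfold rJ
    rw [hqd, ← hbspan, finrank_span_set_eq_card hbli, Set.toFinset_card]
  set r : ℕ := Fintype.card b with hrd
  let e : Fin r ≃ b := (Fintype.equivFin b).symm
  have hex : ∀ i : Fin r, ∃ d ∈ D, F d = (e i : PQ m ⧸ J) := fun i => hbs (e i).2
  choose d hdD hdF using hex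
  have hzq : ∀ i, zq (MvPolynomial.monomial (d i) (1 : ℤ)) = MvPolynomial.monomial (d i) (1 : ℚ) := by
    intro i
    unfold zq
    rw [MvPolynomial.map_monomial]
    simp
  have hfun : (fun i => Ideal.Quotient.mkₐ ℚ J (zq (MvPolynomial.monomial (d i) (1 : ℤ)))) = fun i => ((e i : b) : PQ m ⧸ J) := by
    funext i
    rw [hzq i]
    exact hdF i
  have hhomZ : ∀ i, (MvPolynomial.monomial (d i) (1 : ℤ) : PZ m).IsHomogeneous L :=
    fun i => MvPolynomial.isHomogeneous_monomial _ (hdD i)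
  have hhomC : ∀ i, (zc (MvPolynomial.monomial (d i) (1 : ℤ))).IsHomogeneous L := by
    intro i
    unfold zc
    exact (hhomZ i).map _
  refine ⟨r, fun i => MvPolynomial.monomial (d i) (1 : ℤ), fun i => zc (MvPolynomial.monomial (d i) (1 : ℤ)), ⟨hhomZ, ?_, ?_⟩, ⟨hhomC, ?_⟩, ?_⟩
  · rw [hfun]
    exact hbli.comp e e.injective
  · rw [hfun, hqd, ← hbspan]
    congr 1
    ext x
    constructor
    · rintro ⟨i, rfl⟩
      exact (e i).2
    · intro hx
      exact ⟨e.symm ⟨x, hx⟩, by simp⟩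
  · intro i
    rw [sub_self]
    exact Submodule.zero_mem _
  · have hone : ∀ i : Fin r, wl θ w τ L (zc (MvPolynomial.monomial (d i) (1 : ℤ))) ≤ Real.exp (L * (Real.log (1 + Θ) + w * τ)) := by
      intro i
      have h1 := wl_le_lC θ hw hτ L (hhomC i)
      have h2 := lC_phi_le θ hΘ hΘ0 (hhomC i)
      rw [Ad2_lC, mul_one] at h2
      have h3 := mul_le_mul_of_nonneg_left h2 (Real.exp_nonneg (w * τ * L))
      refine (h1.trans h3).trans (le_of_eq ?_)
      have hp : (0 : ℝ) < 1 + Θ := by linarith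
      have h4 : (1 + Θ) ^ L = Real.exp (Real.log (1 + Θ) * L) := by
        rw [Real.exp_mul, Real.exp_log hp, Real.rpow_natCast]
      rw [h4, ← Real.exp_add]
      congr 1
      ring
    have hprod : ∏ i : Fin r, wl θ w τ L (zc (MvPolynomial.monomial (d i) (1 : ℤ))) ≤ ∏ _i : Fin r, Real.exp (L * (Real.log (1 + Θ) + w * τ)) :=
      Finset.prod_le_prod (fun i _ => wl_nonneg θ w τ L _) (fun i _ => hone i)
    refine hprod.trans (le_of_eq ?_)
    rw [hr, Finset.prod_const, Finset.card_univ, Fintype.card_fin, ← Real.exp_nat_mul]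




/-! ### row Ae: `x_0 ∈ J` -/


/-- the exponents of degree `L` without `x_0` -/
private def Ae_mons (m L : ℕ) : Set (Fin (m + 1) →₀ ℕ) := {d | d 0 = 0 ∧ d.degree = L}

private theorem Ae_fin (m L : ℕ) : (Ae_mons m L).Finite := by
  classical
  have h : (Ae_mons m L) ⊆ ((Finset.univ.pi fun _ : Fin (m + 1) => Finset.range (L + 1)).image
      (fun f => Finsupp.equivFunOnFinite.symm fun i => f i (Finset.mem_univ i)) : Finset (Fin (m + 1) →₀ ℕ)) := by
    intro d hd
    simp only [Finset.coe_image, Set.mem_image, Finset.mem_coe, Finset.mem_pi, Finset.mem_range]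
    refine ⟨fun i _ => d i, fun i _ => ?_, ?_⟩
    · have h1 : d i ≤ d.degree := Finsupp.le_degree i d
      rw [hd.2] at h1
      exact Nat.lt_succ_of_le h1
    · ext i
      rfl
  exact (Finset.finite_toSet _).subset h

private theorem Ae_span {J : Ideal (PQ m)} (h0 : (X 0 : PQ m) ∈ J) (L : ℕ) :
    Submodule.span ℚ ((fun d => Ideal.Quotient.mkₐ ℚ J (monomial d (1 : ℚ))) '' Ae_mons m L) = qd J L := by
  apply le_antisymm
  · rw [Submodule.span_le]
    rintro _ ⟨d, hd, rfl⟩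
    refine Submodule.mem_map.2 ⟨monomial d 1, ?_, rfl⟩
    rw [mem_homogeneousSubmodule]
    exact isHomogeneous_monomial _ hd.2
  · rintro _ hx
    obtain ⟨f, hf, rfl⟩ := Submodule.mem_map.1 hx
    rw [mem_homogeneousSubmodule] at hf
    rw [f.as_sum, map_sum]
    refine Submodule.sum_mem _ fun d hd => ?_
    have hdL : d.degree = L := by
      have := hf (MvPolynomial.mem_support_iff.1 hd)
      rw [← this, Finsupp.degree_eq_weight_one]
      rfl
    by_cases hd0 : d 0 = 0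
    · have h1 : monomial d (f.coeff d) = (f.coeff d) • (monomial d (1 : ℚ)) := by
        rw [smul_monomial, smul_eq_mul, mul_one]
      rw [h1, map_smul]
      exact Submodule.smul_mem _ _ (Submodule.subset_span ⟨d, ⟨hd0, hdL⟩, rfl⟩)
    · have h2 : monomial d (f.coeff d) ∈ J := by
        have h3 : monomial d (f.coeff d) = monomial (d - Finsupp.single 0 1) (f.coeff d) * X 0 := by
          rw [X, monomial_mul, mul_one]
          congr 1
          rw [tsub_add_cancel_of_le]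
          rw [Finsupp.single_le_iff]
          omega
        rw [h3]
        exact Ideal.mul_mem_left _ _ h0
      have h4 : (Ideal.Quotient.mkₐ ℚ J).toLinearMap (monomial d (f.coeff d)) = 0 := by
        simpa using Ideal.Quotient.eq_zero_iff_mem.2 h2
      rw [h4]
      exact Submodule.zero_mem _

private theorem Ae_phi_sub (θ : Fin m → ℂ) {J : Ideal (PQ m)} (h0 : (X 0 : PQ m) ∈ J) (f : PC m) : phi θ f - f ∈ JC J := by
  have hX : (X 0 : PC m) ∈ JC J := by
    have := Ideal.mem_map_of_mem (MvPolynomial.map (algebraMap ℚ ℂ)) h0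
    rwa [MvPolynomial.map_X] at this
  have h : (Ideal.Quotient.mkₐ ℂ (JC J)).comp (phi θ) = Ideal.Quotient.mkₐ ℂ (JC J) := by
    apply MvPolynomial.algHom_ext
    intro i
    refine Fin.cases ?_ (fun i => ?_) i
    · simp [phi]
    · have : Ideal.Quotient.mk (JC J) (X 0) = 0 := Ideal.Quotient.eq_zero_iff_mem.2 hX
      simp [phi, this]
  have h1 := DFunLike.congr_fun h f
  simp only [AlgHom.comp_apply, Ideal.Quotient.mkₐ_eq_mk] at h1
  exact Ideal.Quotient.eq.1 h1

theorem adm_x0 (θ : Fin m → ℂ) {w τ : ℝ} (hτ : τ ≤ 1) {J : Ideal (PQ m)} (hJ : HI J) (h0 : (X 0 : PQ m) ∈ J) (L : ℕ) :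
    Adm θ w τ J L 0 := by
  classical
  set s : Set (PQ m ⧸ J) := (fun d => Ideal.Quotient.mkₐ ℚ J (monomial d (1 : ℚ))) '' Ae_mons m L with hs
  obtain ⟨b, hbs, hsp, hli⟩ := exists_linearIndependent ℚ s
  have hbf : b.Finite := ((Ae_fin m L).image _).subset hbs
  haveI : Fintype b := hbf.fintype
  have hch : ∀ x : b, ∃ d ∈ Ae_mons m L, Ideal.Quotient.mkₐ ℚ J (monomial d (1 : ℚ)) = x := fun x => hbs x.2
  choose D hD1 hD2 using hch
  set e := (Fintype.equivFin b).symm with he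
  have hzq : ∀ i, zq (monomial (D (e i)) (1 : ℤ)) = monomial (D (e i)) (1 : ℚ) := by
    intro i
    simp [zq]
  have hzc : ∀ i, zc (monomial (D (e i)) (1 : ℤ)) = monomial (D (e i)) (1 : ℂ) := by
    intro i
    simp [zc]
  have hfun : (fun i => Ideal.Quotient.mkₐ ℚ J (zq (monomial (D (e i)) (1 : ℤ)))) = fun i => ((e i : b) : PQ m ⧸ J) := by
    funext i
    rw [hzq, hD2]
  refine ⟨Fintype.card b, fun i => monomial (D (e i)) 1, fun i => phi (-θ) (monomial (D (e i)) 1), ⟨?_, ?_, ?_⟩, ⟨?_, ?_⟩, ?_⟩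
  · intro i
    exact isHomogeneous_monomial _ (hD1 _).2
  · rw [hfun]
    exact hli.comp _ e.injective
  · rw [hfun, ← Ae_span h0 L, ← hs, ← hsp]
    congr 1
    ext x
    constructor
    · rintro ⟨i, rfl⟩
      exact (e i).2
    · intro hx
      exact ⟨e.symm ⟨x, hx⟩, by simp⟩
  · intro i
    exact phi_hom _ (isHomogeneous_monomial _ (hD1 _).2)
  · intro i
    rw [hzc]
    exact Submodule.mem_sup_right (Ae_phi_sub (-θ) h0 _)
  · have h1 : ∀ i, wl θ w τ L (phi (-θ) (monomial (D (e i)) 1)) = 1 := by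
      intro i
      unfold wl
      rw [phi_neg, support_monomial, if_neg one_ne_zero, Finset.sum_singleton, coeff_monomial, if_pos rfl, norm_one, one_mul]
      unfold wt
      rw [(hD1 (e i)).1, max_eq_left, mul_zero, Real.exp_zero]
      have : τ * L ≤ 1 * L := mul_le_mul_of_nonneg_right hτ (Nat.cast_nonneg L)
      simp only [Nat.cast_zero]
      linarith
    rw [Finset.prod_congr rfl fun i _ => h1 i, Finset.prod_const_one, Real.exp_zero]


/-! ### row Af: `chi` -/


private theorem Af_mono {θ : Fin m → ℂ} {w τ : ℝ} {J : Ideal (PQ m)} {L : ℕ} {x y : ℝ} (hxy : x ≤ y)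
    (h : Adm θ w τ J L x) : Adm θ w τ J L y := by
  obtain ⟨r, f, g, h1, h2, h3⟩ := h
  exact ⟨r, f, g, h1, h2, h3.trans (Real.exp_le_exp.2 hxy)⟩

private theorem Af_bdd (θ : Fin m → ℂ) (w τ : ℝ) (J : Ideal (PQ m)) (L : ℕ) :
    BddBelow {x | 0 ≤ x ∧ Adm θ w τ J L x} := ⟨0, fun _ h => h.1⟩

private theorem Af_nn {Θ : ℝ} (hΘ0 : 0 ≤ Θ) {w τ : ℝ} (hw : 0 ≤ w) (hτ : 0 ≤ τ) (r L : ℕ) :
    0 ≤ (r : ℝ) * (L * (Real.log (1 + Θ) + w * τ)) := by
  have h1 : 0 ≤ Real.log (1 + Θ) := Real.log_nonneg (by linarith)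
  positivity

theorem chi_nonneg (θ : Fin m → ℂ) (w τ : ℝ) (J : Ideal (PQ m)) (L : ℕ) : 0 ≤ chi θ w τ J L :=
  Real.sInf_nonneg (fun _ h => h.1)

theorem chi_le (θ : Fin m → ℂ) (w τ : ℝ) (J : Ideal (PQ m)) (L : ℕ) {x : ℝ} (h0 : 0 ≤ x) (h : Adm θ w τ J L x) : chi θ w τ J L ≤ x :=
  csInf_le (Af_bdd θ w τ J L) ⟨h0, h⟩

theorem chi_adm (θ : Fin m → ℂ) {w τ : ℝ} (hw : 0 ≤ w) (hτ : 0 ≤ τ) (J : Ideal (PQ m)) (L : ℕ) {η : ℝ} (h : 0 < η) :
    Adm θ w τ J L (chi θ w τ J L + η) := by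
  have hΘ : ∀ i, ‖θ i‖ ≤ ∑ j, ‖θ j‖ := fun i =>
    Finset.single_le_sum (f := fun j => ‖θ j‖) (fun j _ => norm_nonneg (θ j)) (Finset.mem_univ i)
  have hΘ0 : 0 ≤ ∑ j, ‖θ j‖ := Finset.sum_nonneg (fun j _ => norm_nonneg (θ j))
  have hne : {x | 0 ≤ x ∧ Adm θ w τ J L x}.Nonempty :=
    ⟨_, Af_nn hΘ0 hw hτ (rJ J L) L, adm_mon θ hΘ hΘ0 hw hτ J L⟩
  obtain ⟨x, hx, hlt⟩ := exists_lt_of_csInf_lt hne (lt_add_of_pos_right (chi θ w τ J L) h)
  exact Af_mono hlt.le hx.2

theorem chi_bd (θ : Fin m → ℂ) {Θ : ℝ} (hΘ : ∀ i, ‖θ i‖ ≤ Θ) (hΘ0 : 0 ≤ Θ) {w τ : ℝ} (hw : 0 ≤ w) (hτ : 0 ≤ τ) (J : Ideal (PQ m)) (L : ℕ) :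
    chi θ w τ J L ≤ rJ J L * (L * (Real.log (1 + Θ) + w * τ)) :=
  chi_le θ w τ J L (Af_nn hΘ0 hw hτ (rJ J L) L) (adm_mon θ hΘ hΘ0 hw hτ J L)

theorem chi_star (θ : Fin m → ℂ) {w τ : ℝ} (hw : 0 ≤ w) (hτ : 0 ≤ τ) {J : Ideal (PQ m)} (hJ : HI J) {δ : ℕ} {a : PZ m}
    (ha : a.IsHomogeneous δ) (L : ℕ) :
    chi θ w τ J (δ + L) ≤ chi θ w τ (J ⊔ Ideal.span {zq a}) (δ + L) + chi θ w τ (col J (zq a)) L
      + rJ (col J (zq a)) L * max 0 (Real.log (wl θ w τ δ (zc a))) := by
  refine le_of_forall_pos_le_add (fun η hη => ?_)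
  have h1 := chi_adm θ hw hτ (J ⊔ Ideal.span {zq a}) (δ + L) (half_pos hη)
  have h2 := chi_adm θ hw hτ (col J (zq a)) L (half_pos hη)
  have h3 := adm_star θ hw τ hJ ha L h1 h2
  have n1 := chi_nonneg θ w τ (J ⊔ Ideal.span {zq a}) (δ + L)
  have n2 := chi_nonneg θ w τ (col J (zq a)) L
  have n3 : 0 ≤ (rJ (col J (zq a)) L : ℝ) * max 0 (Real.log (wl θ w τ δ (zc a))) :=
    mul_nonneg (Nat.cast_nonneg _) (le_max_left _ _)
  have h4 := chi_le θ w τ J (δ + L) (by linarith) h3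
  linarith

theorem chi_low (θ : Fin m → ℂ) {w τ : ℝ} (hw : 0 ≤ w) (hτ : 0 ≤ τ) {J : Ideal (PQ m)} (hJ : HI J) {δ : ℕ} {a : PZ m}
    (ha : a.IsHomogeneous δ) {L : ℕ} (hL : L < δ) : chi θ w τ J L ≤ chi θ w τ (J ⊔ Ideal.span {zq a}) L := by
  refine le_of_forall_pos_le_add (fun η hη => ?_)
  have h1 := chi_adm θ hw hτ (J ⊔ Ideal.span {zq a}) L hη
  have n1 := chi_nonneg θ w τ (J ⊔ Ideal.span {zq a}) L
  exact chi_le θ w τ J L (by linarith) (adm_low θ w τ hJ ha hL h1)

theorem chi_x0 (θ : Fin m → ℂ) {w τ : ℝ} (hτ : τ ≤ 1) {J : Ideal (PQ m)} (hJ : HI J) (h0 : (X 0 : PQ m) ∈ J) (L : ℕ) :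
    chi θ w τ J L = 0 :=
  le_antisymm (chi_le θ w τ J L le_rfl (adm_x0 θ hτ hJ h0 L)) (chi_nonneg θ w τ J L)














/-! ### row Ag: generating functions -/


private theorem Ag_base (k : ℕ) {t : ℝ} (h0 : 0 ≤ t) (h1 : t < 1) : Summable fun L : ℕ => ((L : ℝ) + 1) ^ k * t ^ L := by
  have hn : ‖t‖ < 1 := by rwa [Real.norm_of_nonneg h0]
  have h2 := (summable_pow_mul_geometric_of_norm_lt_one k hn).mul_left ((2 : ℝ) ^ k)
  have h3 := summable_geometric_of_lt_one h0 h1
  refine Summable.of_nonneg_of_le (fun L => by positivity) (fun L => ?_) (h2.add h3)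
  have ht : 0 ≤ t ^ L := pow_nonneg h0 L
  rcases Nat.eq_zero_or_pos L with hL | hL
  · subst hL
    have : (0 : ℝ) ≤ 2 ^ k * ((0 : ℕ) : ℝ) ^ k := by positivity
    simp only [pow_zero, mul_one, Nat.cast_zero, zero_add, one_pow] at *
    linarith
  · have h4 : ((L : ℝ) + 1) ^ k ≤ 2 ^ k * (L : ℝ) ^ k := by
      rw [← mul_pow]
      have : (1 : ℝ) ≤ L := by exact_mod_cast hL
      exact pow_le_pow_left₀ (by positivity) (by linarith) k
    have h5 := mul_le_mul_of_nonneg_right h4 ht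
    rw [mul_assoc] at h5
    linarith

theorem pp_summable (J : Ideal (PQ m)) {t : ℝ} (h0 : 0 ≤ t) (h1 : t < 1) : Summable fun L : ℕ => (rJ J L : ℝ) * t ^ L := by
  refine Summable.of_nonneg_of_le (fun L => by positivity) (fun L => ?_) (Ag_base m h0 h1)
  refine mul_le_mul_of_nonneg_right ?_ (pow_nonneg h0 L)
  exact_mod_cast rJ_le J L

theorem xx_summable (θ : Fin m → ℂ) {w τ : ℝ} (hw : 0 ≤ w) (hτ : 0 ≤ τ) (J : Ideal (PQ m)) {t : ℝ} (h0 : 0 ≤ t) (h1 : t < 1) :
    Summable fun L : ℕ => chi θ w τ J L * t ^ L := by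
  have hΘ : ∀ i, ‖θ i‖ ≤ ∑ i, ‖θ i‖ := fun i =>
    Finset.single_le_sum (f := fun i => ‖θ i‖) (fun i _ => norm_nonneg _) (Finset.mem_univ i)
  have hΘ0 : 0 ≤ ∑ i, ‖θ i‖ := Finset.sum_nonneg fun i _ => norm_nonneg _
  set Θ := ∑ i, ‖θ i‖ with hΘd
  set K : ℝ := Real.log (1 + Θ) + w * τ with hK
  have hK0 : 0 ≤ K := add_nonneg (Real.log_nonneg (by linarith)) (mul_nonneg hw hτ)
  refine Summable.of_nonneg_of_le (fun L => mul_nonneg (chi_nonneg θ w τ J L) (pow_nonneg h0 L)) (fun L => ?_)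
    ((Ag_base (m + 1) h0 h1).mul_left K)
  rw [← mul_assoc]
  refine mul_le_mul_of_nonneg_right ?_ (pow_nonneg h0 L)
  refine (chi_bd θ hΘ hΘ0 hw hτ J L).trans ?_
  rw [← hK]
  have h2 : (rJ J L : ℝ) ≤ ((L : ℝ) + 1) ^ m := by exact_mod_cast rJ_le J L
  have h3 : (L : ℝ) * K ≤ ((L : ℝ) + 1) * K := mul_le_mul_of_nonneg_right (by linarith) hK0
  calc (rJ J L : ℝ) * (L * K) ≤ ((L : ℝ) + 1) ^ m * (((L : ℝ) + 1) * K) := mul_le_mul h2 h3 (by positivity) (by positivity)
    _ = K * ((L : ℝ) + 1) ^ (m + 1) := by ring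

theorem pp_nonneg (J : Ideal (PQ m)) {t : ℝ} (h0 : 0 ≤ t) : 0 ≤ PP J t :=
  tsum_nonneg fun L => mul_nonneg (Nat.cast_nonneg _) (pow_nonneg h0 L)

theorem pp_star {J : Ideal (PQ m)} (hJ : HI J) {δ : ℕ} {a : PQ m} (ha : a.IsHomogeneous δ) {t : ℝ} (h0 : 0 ≤ t) (h1 : t < 1) :
    PP J t = PP (J ⊔ Ideal.span {a}) t + t ^ δ * PP (col J a) t := by
  unfold PP
  have s1 := pp_summable J h0 h1
  have s2 := pp_summable (J ⊔ Ideal.span {a}) h0 h1
  have s3 := pp_summable (col J a) h0 h1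
  rw [← s1.sum_add_tsum_nat_add δ, ← s2.sum_add_tsum_nat_add δ, add_assoc]
  congr 1
  · refine Finset.sum_congr rfl fun L hL => ?_
    rw [rJ_low hJ ha (Finset.mem_range.1 hL)]
  · rw [← tsum_mul_left, ← ((summable_nat_add_iff δ).2 s2).tsum_add (s3.mul_left _)]
    refine tsum_congr fun L => ?_
    rw [add_comm L δ, rJ_add hJ ha L]
    push_cast
    rw [pow_add]
    ring

theorem xx_star (θ : Fin m → ℂ) {w τ : ℝ} (hw : 0 ≤ w) (hτ : 0 ≤ τ) {J : Ideal (PQ m)} (hJ : HI J) {δ : ℕ} {a : PZ m}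
    (ha : a.IsHomogeneous δ) {t : ℝ} (h0 : 0 ≤ t) (h1 : t < 1) :
    XX θ w τ J t ≤ XX θ w τ (J ⊔ Ideal.span {zq a}) t + t ^ δ * XX θ w τ (col J (zq a)) t
      + t ^ δ * PP (col J (zq a)) t * max 0 (Real.log (wl θ w τ δ (zc a))) := by
  unfold XX PP
  set lam := max 0 (Real.log (wl θ w τ δ (zc a))) with hlam
  have s1 := xx_summable θ hw hτ J h0 h1
  have s2 := xx_summable θ hw hτ (J ⊔ Ideal.span {zq a}) h0 h1
  have s3 := xx_summable θ hw hτ (col J (zq a)) h0 h1
  have s4 := pp_summable (col J (zq a)) h0 h1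
  rw [← s1.sum_add_tsum_nat_add δ, ← s2.sum_add_tsum_nat_add δ]
  have e1 : t ^ δ * (∑' L : ℕ, chi θ w τ (col J (zq a)) L * t ^ L) = ∑' L : ℕ, t ^ δ * (chi θ w τ (col J (zq a)) L * t ^ L) := tsum_mul_left.symm
  have e2 : t ^ δ * (∑' L : ℕ, (rJ (col J (zq a)) L : ℝ) * t ^ L) * lam = ∑' L : ℕ, t ^ δ * ((rJ (col J (zq a)) L : ℝ) * t ^ L) * lam := by
    rw [tsum_mul_right, tsum_mul_left]
  rw [e1, e2]
  have s2' := (summable_nat_add_iff δ).2 s2
  have s3' := s3.mul_left (t ^ δ)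
  have s4' := (s4.mul_left (t ^ δ)).mul_right lam
  have e3 := s2'.tsum_add s3'
  have e4 := (s2'.add s3').tsum_add s4'
  have h2 : ∑ L ∈ Finset.range δ, chi θ w τ J L * t ^ L ≤ ∑ L ∈ Finset.range δ, chi θ w τ (J ⊔ Ideal.span {zq a}) L * t ^ L :=
    Finset.sum_le_sum fun L hL => mul_le_mul_of_nonneg_right (chi_low θ hw hτ hJ ha (Finset.mem_range.1 hL)) (pow_nonneg h0 L)
  have h3 : ∑' L : ℕ, chi θ w τ J (L + δ) * t ^ (L + δ) ≤ ∑' L : ℕ, (chi θ w τ (J ⊔ Ideal.span {zq a}) (L + δ) * t ^ (L + δ)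
      + t ^ δ * (chi θ w τ (col J (zq a)) L * t ^ L) + t ^ δ * ((rJ (col J (zq a)) L : ℝ) * t ^ L) * lam) := by
    refine Summable.tsum_le_tsum (fun L => ?_) ((summable_nat_add_iff δ).2 s1) ((s2'.add s3').add s4')
    have h4 := mul_le_mul_of_nonneg_right (chi_star θ hw hτ hJ ha L) (pow_nonneg h0 (δ + L))
    rw [add_comm L δ]
    refine h4.trans (le_of_eq ?_)
    rw [← hlam, pow_add]
    ring
  rw [e4, e3] at h3
  linarith










/-! ### row Ah: the switch of the weight -/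


theorem Ah_lC_zero {σ : Type} : lC (0 : MvPolynomial σ ℂ) = 0 := by simp [lC]

theorem Ah_lC_C_mul {σ : Type} (c : ℂ) (f : MvPolynomial σ ℂ) : lC (C c * f) ≤ ‖c‖ * lC f := by
  classical
  unfold lC
  rw [Finset.mul_sum]
  calc ∑ d ∈ (C c * f).support, ‖(C c * f).coeff d‖ ≤ ∑ d ∈ f.support, ‖(C c * f).coeff d‖ := by
        apply Finset.sum_le_sum_of_subset_of_nonneg
        · intro d hd
          rw [MvPolynomial.mem_support_iff] at hd ⊢
          intro h
          apply hd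
          rw [coeff_C_mul, h, mul_zero]
        · intro i _ _
          exact norm_nonneg _
    _ = ∑ d ∈ f.support, ‖c‖ * ‖f.coeff d‖ := by
        refine Finset.sum_congr rfl fun d _ => ?_
        rw [coeff_C_mul, norm_mul]

theorem Ah_lC_neg {σ : Type} (f : MvPolynomial σ ℂ) : lC (-f) = lC f := by
  unfold lC
  rw [MvPolynomial.support_neg]
  refine Finset.sum_congr rfl fun d _ => ?_
  rw [coeff_neg, norm_neg]

theorem Ah_lC_sum {σ ι : Type} (s : Finset ι) (f : ι → MvPolynomial σ ℂ) : lC (∑ i ∈ s, f i) ≤ ∑ i ∈ s, lC (f i) := by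
  classical
  induction s using Finset.induction_on with
  | empty => simp [Ah_lC_zero]
  | insert a s ha ih =>
    rw [Finset.sum_insert ha, Finset.sum_insert ha]
    exact (lC_add_le _ _).trans (by linarith)

theorem Ah_lC_mono {σ : Type} (d : σ →₀ ℕ) : lC (monomial d (1 : ℂ)) ≤ 1 := by
  classical
  unfold lC
  rw [MvPolynomial.support_monomial, if_neg one_ne_zero, Finset.sum_singleton, coeff_monomial, if_pos rfl, norm_one]

/-- the weight of a monomial in the proof -/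
def Ah_M (τ w' : ℝ) (E L : ℕ) (n : ℕ) : ℝ := if τ * L ≤ (L : ℝ) - n then 1 else Real.exp (w' * (τ * L + E - (L - n)))

theorem Ah_mono {τ w' : ℝ} (hτ : τ ≤ 1 / 2) (hw' : 0 ≤ w') (I : Ideal (PC m)) {E : ℕ} {P : PC m} (hP : P ∈ I)
    (hh : P.IsHomogeneous E) (h1 : P.coeff (Finsupp.single 0 E) = 1)
    (hs : ∑ d ∈ P.support.erase (Finsupp.single 0 E), ‖P.coeff d‖ * Real.exp (-(w' * ((E : ℝ) - (d 0 : ℕ)))) ≤ 1)
    {L : ℕ} (hL : 2 * E ≤ L) (n : ℕ) : ∀ d : Fin (m + 1) →₀ ℕ, d 0 = n → d.degree = L →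
    ∃ F : PC m, F.IsHomogeneous L ∧ F - monomial d 1 ∈ I ∧ (∀ e : Fin (m + 1) →₀ ℕ, (L : ℝ) - (e 0 : ℕ) < τ * L → F.coeff e = 0) ∧
      lC F ≤ Ah_M τ w' E L n := by
  classical
  induction n using Nat.strong_induction_on with
  | _ n ih =>
  intro d hdn hd
  by_cases hc : τ * L ≤ (L : ℝ) - n
  · refine ⟨monomial d 1, isHomogeneous_monomial _ hd, by simp, ?_, ?_⟩
    · intro e he
      rw [coeff_monomial, if_neg]
      rintro rfl
      rw [hdn] at he
      linarith
    · rw [Ah_M, if_pos hc]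
      exact Ah_lC_mono d
  · have hc' := not_le.1 hc
    have hEn : E ≤ n := by
      have h2 : (2 : ℝ) * E ≤ L := by exact_mod_cast hL
      have h3 : τ * L ≤ 1 / 2 * L := mul_le_mul_of_nonneg_right hτ (Nat.cast_nonneg _)
      have h4 : (E : ℝ) < n := by linarith
      exact_mod_cast h4.le
    set d' : Fin (m + 1) →₀ ℕ := d - Finsupp.single 0 E with hd'
    have hdd : d' + Finsupp.single 0 E = d := by
      rw [hd']
      apply tsub_add_cancel_of_le
      rw [Finsupp.single_le_iff]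
      omega
    have hd'0 : d' 0 + E = n := by
      rw [← hdn, ← hdd]
      simp
    have hdeg' : d'.degree + E = L := by
      rw [← hd, ← hdd, map_add, Finsupp.degree_single]
    have hγ : ∀ γ ∈ P.support.erase (Finsupp.single 0 E), γ 0 < E ∧ γ.degree = E := by
      intro γ hγ
      rw [Finset.mem_erase, MvPolynomial.mem_support_iff] at hγ
      have hdg : γ.degree = E := by
        have := hh hγ.2
        rw [Finsupp.degree_eq_weight_one]
        exact this
      refine ⟨?_, hdg⟩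
      by_contra hlt
      push Not at hlt
      apply hγ.1
      have hle : Finsupp.single 0 E ≤ γ := by
        rw [Finsupp.single_le_iff]
        exact hlt
      obtain ⟨δ, hδ⟩ := le_iff_exists_add.1 hle
      have h5 : δ.degree = 0 := by
        have := congrArg Finsupp.degree hδ
        rw [map_add, Finsupp.degree_single, hdg] at this
        omega
      have h6 : δ = 0 := by
        rwa [Finsupp.degree_eq_zero_iff] at h5
      rw [hδ, h6, add_zero]
    have hex : ∀ γ, ∃ F : PC m, γ ∈ P.support.erase (Finsupp.single 0 E) →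
        (F.IsHomogeneous L ∧ F - monomial (d' + γ) 1 ∈ I ∧ (∀ e : Fin (m + 1) →₀ ℕ, (L : ℝ) - (e 0 : ℕ) < τ * L → F.coeff e = 0) ∧
      lC F ≤ Ah_M τ w' E L ((d' + γ) 0)) := by
      intro γ
      by_cases h : γ ∈ P.support.erase (Finsupp.single 0 E)
      · obtain ⟨h7, h8⟩ := hγ γ h
        obtain ⟨F, hF⟩ := ih ((d' + γ) 0) (by simp only [Finsupp.add_apply]; omega) (d' + γ) rfl (by rw [map_add]; omega)
        exact ⟨F, fun _ => hF⟩
      · exact ⟨0, fun h' => absurd h' h⟩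
    choose Fγ hFγ using hex
    have hPsum : monomial d' 1 * P = monomial d 1 + ∑ γ ∈ P.support.erase (Finsupp.single 0 E), C (P.coeff γ) * monomial (d' + γ) 1 := by
      have h9 : P = monomial (Finsupp.single 0 E) 1 + ∑ γ ∈ P.support.erase (Finsupp.single 0 E), monomial γ (P.coeff γ) := by
        conv_lhs => rw [P.as_sum]
        rw [← Finset.add_sum_erase P.support _ (a := Finsupp.single 0 E), h1]
        rw [MvPolynomial.mem_support_iff, h1]
        exact one_ne_zero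
      conv_lhs => rw [h9]
      rw [mul_add, monomial_mul, hdd, one_mul, Finset.mul_sum]
      congr 1
      refine Finset.sum_congr rfl fun γ _ => ?_
      rw [monomial_mul, one_mul, C_mul_monomial, mul_one]
    refine ⟨-∑ γ ∈ P.support.erase (Finsupp.single 0 E), C (P.coeff γ) * Fγ γ, ?_, ?_, ?_, ?_⟩
    · apply IsHomogeneous.neg
      apply IsHomogeneous.sum
      intro γ hγ'
      have := (isHomogeneous_C (Fin (m + 1)) (P.coeff γ)).mul (hFγ γ hγ').1
      rwa [zero_add] at this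
    · have h10 : -∑ γ ∈ P.support.erase (Finsupp.single 0 E), C (P.coeff γ) * Fγ γ - monomial d 1
          = -(∑ γ ∈ P.support.erase (Finsupp.single 0 E), C (P.coeff γ) * (Fγ γ - monomial (d' + γ) 1)) - monomial d' 1 * P := by
        rw [hPsum]
        simp only [mul_sub, Finset.sum_sub_distrib]
        ring
      rw [h10]
      apply I.sub_mem
      · apply I.neg_mem
        apply Ideal.sum_mem
        intro γ hγ'
        exact I.mul_mem_left _ (hFγ γ hγ').2.1
      · exact I.mul_mem_left _ hP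
    · intro e he
      rw [coeff_neg, MvPolynomial.coeff_sum, neg_eq_zero]
      apply Finset.sum_eq_zero
      intro γ hγ'
      rw [coeff_C_mul, (hFγ γ hγ').2.2.1 e he, mul_zero]
    · rw [Ah_lC_neg]
      have hMn : Ah_M τ w' E L n = Real.exp (w' * (τ * L + E - (L - n))) := by rw [Ah_M, if_neg hc]
      rw [hMn]
      have hbd : ∀ γ ∈ P.support.erase (Finsupp.single 0 E), Ah_M τ w' E L ((d' + γ) 0) ≤
          Real.exp (w' * (τ * L + E - (L - n))) * Real.exp (-(w' * ((E : ℝ) - (γ 0 : ℕ)))) := by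
        intro γ hγ'
        obtain ⟨h7, h8⟩ := hγ γ hγ'
        have h11 : (((d' + γ) 0 : ℕ) : ℝ) = n - E + (γ 0 : ℕ) := by
          have : (n : ℝ) = (d' 0 : ℕ) + E := by exact_mod_cast hd'0.symm
          rw [this, Finsupp.add_apply]
          push_cast
          ring
        rw [← Real.exp_add]
        unfold Ah_M
        split_ifs with h12
        · apply Real.one_le_exp
          have h13 : 0 ≤ w' * (τ * L - (L - n) + (γ 0 : ℕ)) := by
            apply mul_nonneg hw'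
            have : (0 : ℝ) ≤ (γ 0 : ℕ) := Nat.cast_nonneg _
            linarith
          linarith
        · apply Real.exp_le_exp.2
          rw [h11]
          apply le_of_eq
          ring
      calc lC (∑ γ ∈ P.support.erase (Finsupp.single 0 E), C (P.coeff γ) * Fγ γ)
          ≤ ∑ γ ∈ P.support.erase (Finsupp.single 0 E), lC (C (P.coeff γ) * Fγ γ) := Ah_lC_sum _ _
        _ ≤ ∑ γ ∈ P.support.erase (Finsupp.single 0 E), Real.exp (w' * (τ * L + E - (L - n))) * (‖P.coeff γ‖ * Real.exp (-(w' * ((E : ℝ) - (γ 0 : ℕ))))) := by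
            apply Finset.sum_le_sum
            intro γ hγ'
            calc lC (C (P.coeff γ) * Fγ γ) ≤ ‖P.coeff γ‖ * lC (Fγ γ) := Ah_lC_C_mul _ _
              _ ≤ ‖P.coeff γ‖ * (Real.exp (w' * (τ * L + E - (L - n))) * Real.exp (-(w' * ((E : ℝ) - (γ 0 : ℕ))))) := by
                  apply mul_le_mul_of_nonneg_left _ (norm_nonneg _)
                  exact (hFγ γ hγ').2.2.2.trans (hbd γ hγ')
              _ = _ := by ring
        _ = Real.exp (w' * (τ * L + E - (L - n))) * ∑ γ ∈ P.support.erase (Finsupp.single 0 E), (‖P.coeff γ‖ * Real.exp (-(w' * ((E : ℝ) - (γ 0 : ℕ))))) := by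
            rw [Finset.mul_sum]
        _ ≤ Real.exp (w' * (τ * L + E - (L - n))) * 1 := mul_le_mul_of_nonneg_left hs (Real.exp_pos _).le
        _ = _ := mul_one _

theorem switch (θ : Fin m → ℂ) {τ w w' : ℝ} (hτ0 : 0 ≤ τ) (hτ : τ ≤ 1 / 2) (hw' : 0 ≤ w') (hww : w' ≤ w) (p : Ideal (PQ m)) {E : ℕ} (hE : 1 ≤ E)
    {G : PC m} (hG : G ∈ JC p) (hh : G.IsHomogeneous E) (h1 : (phi θ G).coeff (Finsupp.single 0 E) = 1)
    (hs : ∑ d ∈ (phi θ G).support.erase (Finsupp.single 0 E), ‖(phi θ G).coeff d‖ * Real.exp (-(w' * ((E : ℝ) - (d 0 : ℕ)))) ≤ 1)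
    {L : ℕ} (hL : 2 * E ≤ L) {f : PC m} (hf : f.IsHomogeneous L) :
    ∃ f' : PC m, f'.IsHomogeneous L ∧ f' - f ∈ JC p ∧ wl θ w τ L f' ≤ (1 + Real.exp (w' * E)) * wl θ w' τ L f := by
  classical
  set I : Ideal (PC m) := (JC p).comap (phi (-θ)).toRingHom with hI
  have hPI : phi θ G ∈ I := by
    rw [hI, Ideal.mem_comap]
    change phi (-θ) (phi θ G) ∈ JC p
    rw [phi_neg']
    exact hG
  have hF : (phi θ f).IsHomogeneous L := phi_hom θ hf
  have hex : ∀ d, ∃ F : PC m, d ∈ (phi θ f).support → (F.IsHomogeneous L ∧ F - monomial d 1 ∈ I ∧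
      (∀ e : Fin (m + 1) →₀ ℕ, (L : ℝ) - (e 0 : ℕ) < τ * L → F.coeff e = 0) ∧ lC F ≤ Ah_M τ w' E L (d 0)) := by
    intro d
    by_cases hd : d ∈ (phi θ f).support
    · have hdg : d.degree = L := by
        have := hF (MvPolynomial.mem_support_iff.1 hd)
        rw [Finsupp.degree_eq_weight_one]
        exact this
      obtain ⟨F, hF⟩ := Ah_mono hτ hw' I hPI (phi_hom θ hh) h1 hs hL (d 0) d rfl hdg
      exact ⟨F, fun _ => hF⟩
    · exact ⟨0, fun h => absurd h hd⟩
  choose Fd hFd using hex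
  set F' : PC m := ∑ d ∈ (phi θ f).support, C ((phi θ f).coeff d) * Fd d with hF'
  have hF'hom : F'.IsHomogeneous L := by
    apply IsHomogeneous.sum
    intro d hd
    have := (isHomogeneous_C (Fin (m + 1)) ((phi θ f).coeff d)).mul (hFd d hd).1
    rwa [zero_add] at this
  refine ⟨phi (-θ) F', phi_hom (-θ) hF'hom, ?_, ?_⟩
  · have h2 : F' - phi θ f ∈ I := by
      have h3 : F' - phi θ f = ∑ d ∈ (phi θ f).support, C ((phi θ f).coeff d) * (Fd d - monomial d 1) := by
        simp only [mul_sub, Finset.sum_sub_distrib]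
        rw [← hF']
        congr 1
        conv_lhs => rw [(phi θ f).as_sum]
        refine Finset.sum_congr rfl fun d _ => ?_
        rw [C_mul_monomial, mul_one]
      rw [h3]
      apply Ideal.sum_mem
      intro d hd
      exact I.mul_mem_left _ (hFd d hd).2.1
    rw [hI, Ideal.mem_comap] at h2
    have h4 : phi (-θ) (F' - phi θ f) ∈ JC p := h2
    rwa [map_sub, phi_neg'] at h4
  · have h5 : wl θ w τ L (phi (-θ) F') = lC F' := by
      unfold wl lC
      rw [phi_neg]
      refine Finset.sum_congr rfl fun e he => ?_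
      have h6 : τ * L ≤ (L : ℝ) - (e 0 : ℕ) := by
        by_contra hlt
        rw [MvPolynomial.mem_support_iff] at he
        apply he
        rw [hF', MvPolynomial.coeff_sum]
        apply Finset.sum_eq_zero
        intro d hd
        rw [coeff_C_mul, (hFd d hd).2.2.1 e (not_le.1 hlt), mul_zero]
      rw [wt, max_eq_left (by linarith), mul_zero, Real.exp_zero, mul_one]
    rw [h5]
    calc lC F' ≤ ∑ d ∈ (phi θ f).support, lC (C ((phi θ f).coeff d) * Fd d) := Ah_lC_sum _ _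
      _ ≤ ∑ d ∈ (phi θ f).support, (1 + Real.exp (w' * E)) * (‖(phi θ f).coeff d‖ * wt w' τ L d) := by
          apply Finset.sum_le_sum
          intro d hd
          calc lC (C ((phi θ f).coeff d) * Fd d) ≤ ‖(phi θ f).coeff d‖ * lC (Fd d) := Ah_lC_C_mul _ _
            _ ≤ ‖(phi θ f).coeff d‖ * ((1 + Real.exp (w' * E)) * wt w' τ L d) := by
                apply mul_le_mul_of_nonneg_left _ (norm_nonneg _)
                refine (hFd d hd).2.2.2.trans ?_
                unfold Ah_M wt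
                split_ifs with h7
                · have h8 : (1 : ℝ) ≤ Real.exp (w' * max 0 (τ * L - ((L : ℝ) - (d 0 : ℕ)))) :=
                    Real.one_le_exp (mul_nonneg hw' (le_max_left _ _))
                  nlinarith [Real.exp_pos (w' * E)]
                · have h9 := not_le.1 h7
                  rw [max_eq_right (by linarith)]
                  have h10 : Real.exp (w' * (τ * L + E - (L - (d 0 : ℕ)))) = Real.exp (w' * E) * Real.exp (w' * (τ * L - ((L : ℝ) - (d 0 : ℕ)))) := by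
                    rw [← Real.exp_add]
                    congr 1
                    ring
                  rw [h10]
                  apply mul_le_mul_of_nonneg_right _ (Real.exp_pos _).le
                  linarith
            _ = _ := by ring
      _ = _ := by
          rw [wl, Finset.mul_sum]


/-! ### row Ai: the switch for generating functions -/


theorem Ai_chi (θ : Fin m → ℂ) {τ w w' : ℝ} (hτ0 : 0 ≤ τ) (hτ : τ ≤ 1 / 2) (hw' : 0 ≤ w') (hww : w' ≤ w) (p : Ideal (PQ m)) {E : ℕ} (hE : 1 ≤ E)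
    {G : PC m} (hG : G ∈ JC p) (hh : G.IsHomogeneous E) (h1 : (phi θ G).coeff (Finsupp.single 0 E) = 1)
    (hs : ∑ d ∈ (phi θ G).support.erase (Finsupp.single 0 E), ‖(phi θ G).coeff d‖ * Real.exp (-(w' * ((E : ℝ) - (d 0 : ℕ)))) ≤ 1)
    {L : ℕ} (hL : 2 * E ≤ L) :
    chi θ w τ p L ≤ chi θ w' τ p L + Real.log (1 + Real.exp (w' * E)) * rJ p L := by
  have hc0 : 0 ≤ Real.log (1 + Real.exp (w' * E)) := Real.log_nonneg (by linarith [Real.exp_pos (w' * E)])
  refine le_of_forall_pos_le_add fun η hη => ?_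
  obtain ⟨r, f, g, hb, hm, hp⟩ := chi_adm θ hw' hτ0 p L hη
  have hsw : ∀ i, ∃ f' : PC m, f'.IsHomogeneous L ∧ f' - g i ∈ JC p ∧ wl θ w τ L f' ≤ (1 + Real.exp (w' * E)) * wl θ w' τ L (g i) :=
    fun i => switch θ hτ0 hτ hw' hww p hE hG hh h1 hs hL (hm.hom i)
  choose g' hg1 hg2 hg3 using hsw
  have hadm : Adm θ w τ p L (chi θ w' τ p L + Real.log (1 + Real.exp (w' * E)) * rJ p L + η) := by
    refine ⟨r, f, g', hb, ⟨hg1, ?_⟩, ?_⟩
    · intro i
      have e : g' i - zc (f i) = (g' i - g i) + (g i - zc (f i)) := by ring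
      rw [e]
      refine Submodule.add_mem _ ?_ (hm.mem i)
      exact Submodule.mem_sup_right (by simpa using hg2 i)
    · have h2 : ∏ i, wl θ w τ L (g' i) ≤ ∏ i, ((1 + Real.exp (w' * E)) * wl θ w' τ L (g i)) :=
        Finset.prod_le_prod (fun i _ => wl_nonneg _ _ _ _ _) fun i _ => hg3 i
      rw [Finset.prod_mul_distrib, Finset.prod_const, Finset.card_univ, Fintype.card_fin] at h2
      refine h2.trans ?_
      have h3 : (1 + Real.exp (w' * E)) ^ r = Real.exp (Real.log (1 + Real.exp (w' * E)) * rJ p L) := by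
        rw [← hb.card, mul_comm (Real.log _) (r : ℝ), Real.exp_nat_mul, Real.exp_log (by positivity)]
      have h4 : Real.exp (chi θ w' τ p L + Real.log (1 + Real.exp (w' * E)) * rJ p L + η) =
          Real.exp (Real.log (1 + Real.exp (w' * E)) * rJ p L) * Real.exp (chi θ w' τ p L + η) := by
        rw [← Real.exp_add]; congr 1; ring
      rw [h4, h3]
      exact mul_le_mul_of_nonneg_left hp (Real.exp_pos _).le
  refine chi_le θ w τ p L ?_ hadm
  have := chi_nonneg θ w' τ p L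
  positivity

theorem xx_switch (θ : Fin m → ℂ) {τ w w' : ℝ} (hτ0 : 0 ≤ τ) (hτ : τ ≤ 1 / 2) (hw' : 0 ≤ w') (hww : w' ≤ w) (p : Ideal (PQ m)) {E : ℕ} (hE : 1 ≤ E)
    {G : PC m} (hG : G ∈ JC p) (hh : G.IsHomogeneous E) (h1 : (phi θ G).coeff (Finsupp.single 0 E) = 1)
    (hs : ∑ d ∈ (phi θ G).support.erase (Finsupp.single 0 E), ‖(phi θ G).coeff d‖ * Real.exp (-(w' * ((E : ℝ) - (d 0 : ℕ)))) ≤ 1) :
    ∃ C1 C2 : ℝ, ∀ t : ℝ, 0 ≤ t → t < 1 → XX θ w τ p t ≤ XX θ w' τ p t + C1 * PP p t + C2 := by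
  have hw : 0 ≤ w := hw'.trans hww
  set cc := Real.log (1 + Real.exp (w' * E)) with hcc
  have hc0 : 0 ≤ cc := Real.log_nonneg (by linarith [Real.exp_pos (w' * E)])
  have hfin : Summable (fun L : ℕ => if L < 2 * E then chi θ w τ p L else 0) := by
    refine summable_of_ne_finset_zero (s := Finset.range (2 * E)) ?_
    intro b hb
    rw [Finset.mem_range] at hb
    rw [if_neg hb]
  refine ⟨cc, ∑' L : ℕ, (if L < 2 * E then chi θ w τ p L else 0), fun t h0 ht => ?_⟩
  have s1 := xx_summable θ hw hτ0 p h0 ht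
  have s2 := xx_summable θ hw' hτ0 p h0 ht
  have s3 := (pp_summable p h0 ht).mul_left cc
  have s4 := (s2.add s3).add hfin
  unfold XX PP
  rw [← tsum_mul_left, ← s2.tsum_add s3, ← (s2.add s3).tsum_add hfin]
  refine s1.tsum_le_tsum (fun L => ?_) s4
  have ht1 : t ^ L ≤ 1 := pow_le_one₀ h0 ht.le
  have ht0 : 0 ≤ t ^ L := pow_nonneg h0 L
  have hr0 : (0 : ℝ) ≤ rJ p L := Nat.cast_nonneg _
  have hn1 := chi_nonneg θ w τ p L
  have hn2 := chi_nonneg θ w' τ p L
  by_cases hL : L < 2 * E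
  · rw [if_pos hL]
    have a1 : chi θ w τ p L * t ^ L ≤ chi θ w τ p L := mul_le_of_le_one_right hn1 ht1
    have a2 : 0 ≤ chi θ w' τ p L * t ^ L := by positivity
    have a3 : 0 ≤ cc * ((rJ p L : ℝ) * t ^ L) := by positivity
    linarith
  · rw [if_neg hL]
    have := Ai_chi θ hτ0 hτ hw' hww p hE hG hh h1 hs (not_lt.mp hL)
    have a1 := mul_le_mul_of_nonneg_right this ht0
    rw [← hcc] at a1
    linarith


end Pool.Agent.LT
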