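import Pool.Agent.Lib.MP_f58a57_nt.LT.A1

/-!
# Part A, rows Aj-Am: the slope bound and the matrix lemma
-/

open Complex MvPolynomial Matrix

noncomputable section

namespace Pool.Agent.LT

variable {m c : ℕ}

/-! ### row Aj: the slope bound -/


private theorem Aj1_mono (J : Ideal (PQ m)) {t s : ℝ} (h0 : 0 ≤ t) (hts : t ≤ s) (h1 : s < 1) : PP J t ≤ PP J s := by
  unfold PP
  refine (pp_summable J h0 (lt_of_le_of_lt hts h1)).tsum_le_tsum (fun L => ?_) (pp_summable J (h0.trans hts) h1)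
  exact mul_le_mul_of_nonneg_left (pow_le_pow_left₀ h0 hts L) (Nat.cast_nonneg _)

/-- comparison of growth: `P = O((1-t)^{-e})` implies `C P ≤ η (1-t)^{-(e+1)} + C'` -/
theorem gr_small {J : Ideal (PQ m)} {e : ℕ} (h : Gr J e) (C : ℝ) {η : ℝ} (hη : 0 < η) :
    ∃ C' : ℝ, ∀ t : ℝ, 0 ≤ t → t < 1 → C * PP J t ≤ η / (1 - t) ^ (e + 1) + C' := by
  obtain ⟨C0, hC0⟩ := h
  have hK : 0 ≤ |C| * |C0| := by positivity
  have hd : 0 < η / (|C| * |C0| + 1) := by positivity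
  refine ⟨|C| * |C0| / (η / (|C| * |C0| + 1)) ^ e, fun t h0 h1 => ?_⟩
  have h1t : 0 < 1 - t := by linarith
  have hpe : 0 < (1 - t) ^ e := pow_pos h1t e
  have hP := pp_nonneg J h0
  have hb : PP J t ≤ |C0| / (1 - t) ^ e := by
    rw [le_div_iff₀ hpe]
    have := hC0 t h0 h1
    calc PP J t * (1 - t) ^ e = (1 - t) ^ e * PP J t := by ring
      _ ≤ C0 := this
      _ ≤ |C0| := le_abs_self _
  have hb2 : C * PP J t ≤ |C| * |C0| / (1 - t) ^ e := by
    calc C * PP J t ≤ |C| * PP J t := mul_le_mul_of_nonneg_right (le_abs_self _) hP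
      _ ≤ |C| * (|C0| / (1 - t) ^ e) := mul_le_mul_of_nonneg_left hb (abs_nonneg _)
      _ = |C| * |C0| / (1 - t) ^ e := by ring
  have hp2 : 0 ≤ η / (1 - t) ^ (e + 1) := by positivity
  have hp3 : 0 ≤ |C| * |C0| / (η / (|C| * |C0| + 1)) ^ e := by positivity
  rcases le_or_gt (1 - t) (η / (|C| * |C0| + 1)) with hc | hc
  · have h3 : |C| * |C0| / (1 - t) ^ e ≤ η / (1 - t) ^ (e + 1) := by
      rw [div_le_div_iff₀ hpe (pow_pos h1t _), pow_succ]
      have h4 : |C| * |C0| * (1 - t) ≤ η := by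
        calc |C| * |C0| * (1 - t) ≤ |C| * |C0| * (η / (|C| * |C0| + 1)) := mul_le_mul_of_nonneg_left hc hK
          _ = η * (|C| * |C0| / (|C| * |C0| + 1)) := by ring
          _ ≤ η * 1 := by
              refine mul_le_mul_of_nonneg_left ?_ hη.le
              rw [div_le_one (by positivity)]; linarith
          _ = η := mul_one _
      calc |C| * |C0| * ((1 - t) ^ e * (1 - t)) = (|C| * |C0| * (1 - t)) * (1 - t) ^ e := by ring
        _ ≤ η * (1 - t) ^ e := mul_le_mul_of_nonneg_right h4 hpe.le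
    linarith
  · have h3 : |C| * |C0| / (1 - t) ^ e ≤ |C| * |C0| / (η / (|C| * |C0| + 1)) ^ e := by
      refine div_le_div_of_nonneg_left hK (pow_pos hd e) ?_
      exact pow_le_pow_left₀ hd.le hc.le e
    linarith

theorem gr_sup {J : Ideal (PQ m)} (hJ : HI J) {e : ℕ} (h : Gr J e) {δ : ℕ} {a : PQ m} (ha : a.IsHomogeneous δ) : Gr (J ⊔ Ideal.span {a}) e := by
  obtain ⟨C, hC⟩ := h
  refine ⟨C, fun t h0 h1 => ?_⟩
  have h1t : 0 ≤ 1 - t := by linarith
  have hs := pp_star hJ ha h0 h1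
  have hn := pp_nonneg (col J a) h0
  have h2 : PP (J ⊔ Ideal.span {a}) t ≤ PP J t := by
    have : 0 ≤ t ^ δ * PP (col J a) t := mul_nonneg (pow_nonneg h0 _) hn
    linarith
  exact (mul_le_mul_of_nonneg_left h2 (pow_nonneg h1t e)).trans (hC t h0 h1)

theorem gr_col {J : Ideal (PQ m)} (hJ : HI J) {e : ℕ} (h : Gr J e) {δ : ℕ} {a : PQ m} (ha : a.IsHomogeneous δ) : Gr (col J a) e := by
  obtain ⟨C, hC⟩ := h
  have hC0 : 0 ≤ C := le_trans (mul_nonneg (pow_nonneg (by norm_num) e) (pp_nonneg J (le_refl 0))) (hC 0 (le_refl 0) one_pos)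
  refine ⟨C * 2 ^ δ + PP (col J a) (1 / 2), fun t h0 h1 => ?_⟩
  have h1t : 0 ≤ 1 - t := by linarith
  have hs := pp_star hJ ha h0 h1
  have hn := pp_nonneg (col J a) h0
  have hn2 := pp_nonneg (col J a) (t := 1 / 2) (by norm_num)
  have hp1 : (1 - t) ^ e ≤ 1 := pow_le_one₀ h1t (by linarith)
  rcases le_or_gt t (1 / 2) with ht | ht
  · have h3 := Aj1_mono (col J a) h0 ht (by norm_num)
    have h4 : (1 - t) ^ e * PP (col J a) t ≤ 1 * PP (col J a) t := mul_le_mul_of_nonneg_right hp1 hn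
    have h5 : 0 ≤ C * 2 ^ δ := by positivity
    linarith
  · have h3 : t ^ δ * PP (col J a) t ≤ PP J t := by
      have := pp_nonneg (J ⊔ Ideal.span {a}) h0
      linarith
    have h4 : (1 / 2 : ℝ) ^ δ ≤ t ^ δ := pow_le_pow_left₀ (by norm_num) ht.le δ
    have h5 : (1 / 2 : ℝ) ^ δ * PP (col J a) t ≤ PP J t := (mul_le_mul_of_nonneg_right h4 hn).trans h3
    have h6 : (1 - t) ^ e * ((1 / 2 : ℝ) ^ δ * PP (col J a) t) ≤ C :=
      (mul_le_mul_of_nonneg_left h5 (pow_nonneg h1t e)).trans (hC t h0 h1)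
    have h7 : (1 - t) ^ e * PP (col J a) t = ((1 - t) ^ e * ((1 / 2 : ℝ) ^ δ * PP (col J a) t)) * 2 ^ δ := by
      have : (1 / 2 : ℝ) ^ δ * 2 ^ δ = 1 := by rw [← mul_pow]; norm_num
      calc (1 - t) ^ e * PP (col J a) t = (1 - t) ^ e * PP (col J a) t * ((1 / 2 : ℝ) ^ δ * 2 ^ δ) := by rw [this, mul_one]
        _ = _ := by ring
    rw [h7]
    have h8 : ((1 - t) ^ e * ((1 / 2 : ℝ) ^ δ * PP (col J a) t)) * 2 ^ δ ≤ C * 2 ^ δ :=
      mul_le_mul_of_nonneg_right h6 (by positivity)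
    linarith

private theorem Aj1_col {p : Ideal (PQ m)} (hp : p.IsPrime) {a : PQ m} (hap : a ∉ p) : col p a = p := by
  ext x
  constructor
  · intro hx
    have h1 : a * x ∈ p := hx
    exact (hp.mem_or_mem h1).resolve_left hap
  · intro hx
    show a * x ∈ p
    exact p.mul_mem_left a hx

/-- for a nonzero divisor the order drops -/
theorem gr_drop {p : Ideal (PQ m)} (hJ : HI p) (hp : p.IsPrime) {e : ℕ} (h : Gr p (e + 1)) {δ : ℕ} {a : PQ m} (ha : a.IsHomogeneous δ) (hap : a ∉ p) :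
    Gr (p ⊔ Ideal.span {a}) e ∧ ∀ t : ℝ, 0 ≤ t → t < 1 → PP (p ⊔ Ideal.span {a}) t = (1 - t ^ δ) * PP p t := by
  have key : ∀ t : ℝ, 0 ≤ t → t < 1 → PP (p ⊔ Ideal.span {a}) t = (1 - t ^ δ) * PP p t := by
    intro t h0 h1
    have hs := pp_star hJ ha h0 h1
    rw [Aj1_col hp hap] at hs
    linarith
  refine ⟨?_, key⟩
  obtain ⟨C, hC⟩ := h
  refine ⟨δ * C, fun t h0 h1 => ?_⟩
  have h1t : 0 ≤ 1 - t := by linarith
  have hb : 1 - t ^ δ ≤ δ * (1 - t) := by
    have := one_add_mul_le_pow (a := -(1 - t)) (by linarith) δ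
    have h2 : 1 + -(1 - t) = t := by ring
    rw [h2] at this
    linarith
  rw [key t h0 h1]
  have hP := pp_nonneg p h0
  calc (1 - t) ^ e * ((1 - t ^ δ) * PP p t) ≤ (1 - t) ^ e * ((δ * (1 - t)) * PP p t) :=
        mul_le_mul_of_nonneg_left (mul_le_mul_of_nonneg_right hb hP) (pow_nonneg h1t e)
    _ = δ * ((1 - t) ^ (e + 1) * PP p t) := by rw [pow_succ]; ring
    _ ≤ δ * C := mul_le_mul_of_nonneg_left (hC t h0 h1) (Nat.cast_nonneg _)









theorem Aj2_sum {J : Ideal (PQ m)} {C : ℝ} (hC : ∀ t : ℝ, 0 ≤ t → t < 1 → (1 - t) ^ 0 * PP J t ≤ C)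
    (s : Finset ℕ) : ∑ L ∈ s, (rJ J L : ℝ) ≤ C := by
  have h1 : ∀ t : ℝ, 0 ≤ t → t < 1 → ∑ L ∈ s, (rJ J L : ℝ) * t ^ L ≤ C := by
    intro t h0 h1
    have h2 := hC t h0 h1
    rw [pow_zero, one_mul] at h2
    refine le_trans ?_ h2
    exact (pp_summable J h0 h1).sum_le_tsum s (fun L _ => by positivity)
  have hcont : Filter.Tendsto (fun t : ℝ => ∑ L ∈ s, (rJ J L : ℝ) * t ^ L) (nhdsWithin 1 (Set.Iio 1))
      (nhds (∑ L ∈ s, (rJ J L : ℝ) * (1 : ℝ) ^ L)) := by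
    have h2 : Continuous (fun t : ℝ => ∑ L ∈ s, (rJ J L : ℝ) * t ^ L) := by fun_prop
    exact (h2.tendsto 1).mono_left nhdsWithin_le_nhds
  have h3 : ∑ L ∈ s, (rJ J L : ℝ) * (1 : ℝ) ^ L ≤ C := by
    refine le_of_tendsto hcont ?_
    have h4 : Set.Ioo (0 : ℝ) 1 ∈ nhdsWithin (1 : ℝ) (Set.Iio 1) := Ioo_mem_nhdsLT one_pos
    filter_upwards [h4] with t ht
    exact h1 t ht.1.le ht.2
  simpa using h3

theorem Aj2_fin {J : Ideal (PQ m)} (h : Gr J 0) : ∃ L0 : ℕ, ∀ L : ℕ, L0 ≤ L → rJ J L = 0 := by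
  obtain ⟨C, hC⟩ := h
  have hfin : {L : ℕ | rJ J L ≠ 0}.Finite := by
    by_contra hinf
    obtain ⟨s, hs, hcard⟩ := Set.Infinite.exists_subset_card_eq hinf (⌈C⌉₊ + 1)
    have h1 := Aj2_sum hC s
    have h2 : (s.card : ℝ) ≤ ∑ L ∈ s, (rJ J L : ℝ) := by
      rw [Finset.cast_card]
      refine Finset.sum_le_sum fun L hL => ?_
      have h3 : rJ J L ≠ 0 := hs hL
      exact_mod_cast Nat.one_le_iff_ne_zero.2 h3
    rw [hcard] at h2
    have h4 := Nat.le_ceil C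
    push_cast at h2
    linarith
  obtain ⟨B, hB⟩ := hfin.bddAbove
  refine ⟨B + 1, fun L hL => ?_⟩
  by_contra hne
  have := hB hne
  omega

theorem slope_zero (θ : Fin m → ℂ) {τ kp w0 : ℝ} (hτ0 : 0 ≤ τ) (hk : 0 ≤ kp) : Slope θ τ kp w0 0 := by
  intro w hw hw0 J hJ hG η hη
  obtain ⟨L0, hL0⟩ := Aj2_fin hG
  have hΘ : ∀ i, ‖θ i‖ ≤ ∑ j, ‖θ j‖ := fun i =>
    Finset.single_le_sum (f := fun j => ‖θ j‖) (fun j _ => norm_nonneg _) (Finset.mem_univ i)
  have hΘ0 : (0 : ℝ) ≤ ∑ j, ‖θ j‖ := Finset.sum_nonneg fun j _ => norm_nonneg _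
  have hchi : ∀ L, L0 ≤ L → chi θ w τ J L = 0 := by
    intro L hL
    have h1 := chi_bd θ hΘ hΘ0 hw hτ0 J L
    rw [hL0 L hL] at h1
    have h2 := chi_nonneg θ w τ J L
    simp only [Nat.cast_zero, zero_mul] at h1
    exact le_antisymm h1 h2
  refine ⟨∑ L ∈ Finset.range L0, chi θ w τ J L, fun t h0 h1 => ?_⟩
  have hX : XX θ w τ J t = ∑ L ∈ Finset.range L0, chi θ w τ J L * t ^ L := by
    refine tsum_eq_sum fun L hL => ?_
    rw [Finset.mem_range, not_lt] at hL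
    rw [hchi L hL, zero_mul]
  have hX2 : XX θ w τ J t ≤ ∑ L ∈ Finset.range L0, chi θ w τ J L := by
    rw [hX]
    refine Finset.sum_le_sum fun L _ => ?_
    exact mul_le_of_le_one_right (chi_nonneg θ w τ J L) (pow_le_one₀ h0 h1.le)
  have h3 : 0 ≤ η / (1 - t) ^ (0 + 1) := by
    have : 0 < 1 - t := by linarith
    positivity
  have h4 : kp * ((0 : ℕ) : ℝ) * PP J t / (1 - t) = 0 := by simp
  rw [h4]
  linarith



private theorem Aj3_geom {δ : ℕ} {t : ℝ} (h0 : 0 ≤ t) (h1 : t < 1) : (1 - t) * (δ * t ^ δ) ≤ 1 - t ^ δ := by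
  have h2 : 1 - t ^ δ = (1 - t) * ∑ i ∈ Finset.range δ, t ^ i := by
    have := mul_geom_sum t δ
    linarith [this, show (t - 1) * ∑ i ∈ Finset.range δ, t ^ i = -((1 - t) * ∑ i ∈ Finset.range δ, t ^ i) by ring]
  rw [h2]
  refine mul_le_mul_of_nonneg_left ?_ (by linarith)
  have h3 : ∑ i ∈ Finset.range δ, t ^ δ ≤ ∑ i ∈ Finset.range δ, t ^ i :=
    Finset.sum_le_sum fun i hi => pow_le_pow_of_le_one h0 h1.le (Finset.mem_range.1 hi).le
  simpa using h3

private theorem Aj3_col {p : Ideal (PQ m)} (hpp : p.IsPrime) {a : PQ m} (ha : a ∉ p) : col p a = p := by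
  ext f
  unfold col
  simp only [Submodule.mem_comap, LinearMap.mulLeft_apply]
  constructor
  · intro h
    exact (hpp.mem_or_mem h).resolve_left ha
  · intro h
    exact p.mul_mem_left a h

private theorem Aj3_hom {δ : ℕ} {a : PZ m} (ha : a.IsHomogeneous δ) : (zq a).IsHomogeneous δ := by
  unfold zq
  exact ha.map _

/-- one step of the induction, given the prime case -/
theorem slope_prime (θ : Fin m → ℂ) {τ kp w0 : ℝ} (hτ0 : 0 ≤ τ) (hτ : τ ≤ 1) (hk : 0 ≤ kp) (hM : MatL θ τ kp w0) {e : ℕ} (hS : Slope θ τ kp w0 e)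
    {p : Ideal (PQ m)} (hp : HI p) (hpp : p.IsPrime) (hx : (X 0 : PQ m) ∉ p) (hG : Gr p (e + 1)) {w : ℝ} (hw : 0 ≤ w) (hw0 : w ≤ w0)
    {η : ℝ} (hη : 0 < η) : ∃ C : ℝ, ∀ t : ℝ, 0 ≤ t → t < 1 →
      XX θ w τ p t ≤ kp * (e + 1 : ℕ) * PP p t / (1 - t) + η / (1 - t) ^ (e + 1 + 1) + C := by
  obtain ⟨w', hw'0, hw'w, ⟨C1, C2, hC⟩, δ, a, hδ, ha, hap, hlog⟩ := hM p hp hpp hx w hw hw0
  have ha' := Aj3_hom ha
  obtain ⟨hGa, hPa⟩ := gr_drop hp hpp hG ha' hap
  have hη3 : 0 < η / 3 := by positivity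
  obtain ⟨C, hCs⟩ := hS w' hw'0 (hw'w.trans hw0) (p ⊔ Ideal.span {zq a}) (hi_sup hp ha') hGa (η / 3) hη3
  obtain ⟨C', hC'⟩ := gr_small hG C1 hη3
  refine ⟨C2 + C' + 3 * |C| ^ 2 / (4 * η), fun t h0 h1 => ?_⟩
  have hs : 0 < 1 - t := by linarith
  have hP0 : 0 ≤ PP p t := pp_nonneg p h0
  have hcol := Aj3_col hpp hap
  have hstar := xx_star θ hw'0 hτ0 hp ha h0 h1
  rw [hcol] at hstar
  have htδ : 0 ≤ t ^ δ := pow_nonneg h0 δ
  have hmax : max 0 (Real.log (wl θ w' τ δ (zc a))) ≤ kp * δ := max_le (by positivity) hlog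
  have h2 := hCs t h0 h1
  rw [hPa t h0 h1] at h2
  have h3 : t ^ δ * PP p t * max 0 (Real.log (wl θ w' τ δ (zc a))) ≤ t ^ δ * PP p t * (kp * δ) :=
    mul_le_mul_of_nonneg_left hmax (by positivity)
  have hgeom := Aj3_geom (δ := δ) h0 h1
  have hle : 1 - t ≤ 1 - t ^ δ := by
    have : t ^ δ ≤ t ^ 1 := pow_le_pow_of_le_one h0 h1.le hδ
    rw [pow_one] at this
    linarith
  have hd : 0 < 1 - t ^ δ := lt_of_lt_of_le hs hle
  -- the main inequality
  have h4 : (1 - t ^ δ) * XX θ w' τ p t ≤ (1 - t ^ δ) * (kp * e * PP p t / (1 - t)) + η / 3 / (1 - t) ^ (e + 1) + C + kp * PP p t * (δ * t ^ δ) := by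
    have e1 : kp * (e : ℝ) * ((1 - t ^ δ) * PP p t) / (1 - t) = (1 - t ^ δ) * (kp * e * PP p t / (1 - t)) := by ring
    rw [e1] at h2
    nlinarith [hstar, h2, h3]
  have h5 : XX θ w' τ p t ≤ kp * e * PP p t / (1 - t) + (η / 3 / (1 - t) ^ (e + 1) + |C|) / (1 - t) + kp * PP p t / (1 - t) := by
    refine le_of_mul_le_mul_left ?_ hd
    refine h4.trans ?_
    have a1 : η / 3 / (1 - t) ^ (e + 1) + |C| ≤ (1 - t ^ δ) * ((η / 3 / (1 - t) ^ (e + 1) + |C|) / (1 - t)) := by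
      rw [mul_div_assoc']
      rw [le_div_iff₀ hs]
      have : 0 ≤ η / 3 / (1 - t) ^ (e + 1) + |C| := by positivity
      nlinarith
    have a2 : kp * PP p t * (δ * t ^ δ) ≤ (1 - t ^ δ) * (kp * PP p t / (1 - t)) := by
      rw [mul_div_assoc']
      rw [le_div_iff₀ hs]
      have : 0 ≤ kp * PP p t := by positivity
      nlinarith
    have a3 : C ≤ |C| := le_abs_self C
    have e2 : (1 - t ^ δ) * (kp * ↑e * PP p t / (1 - t) + (η / 3 / (1 - t) ^ (e + 1) + |C|) / (1 - t) + kp * PP p t / (1 - t))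
        = (1 - t ^ δ) * (kp * ↑e * PP p t / (1 - t)) + (1 - t ^ δ) * ((η / 3 / (1 - t) ^ (e + 1) + |C|) / (1 - t)) + (1 - t ^ δ) * (kp * PP p t / (1 - t)) := by
      ring
    rw [e2]
    linarith
  have h6 := hC t h0 h1
  have h7 := hC' t h0 h1
  -- the term |C| / (1 - t)
  have h8 : |C| / (1 - t) ≤ η / 3 / (1 - t) ^ (e + 1 + 1) + 3 * |C| ^ 2 / (4 * η) := by
    set u : ℝ := 1 / (1 - t) with hu
    have hu1 : 1 ≤ u := by
      rw [hu, le_div_iff₀ hs]
      linarith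
    have e3 : |C| / (1 - t) = |C| * u := by rw [hu]; ring
    have e4 : η / 3 / (1 - t) ^ (e + 1 + 1) = η / 3 * u ^ (e + 2) := by rw [hu, div_pow, one_pow]; ring
    rw [e3, e4]
    have h9 : u ^ 2 ≤ u ^ (e + 2) := pow_le_pow_right₀ hu1 (by omega)
    have h10 : |C| * u ≤ η / 3 * u ^ 2 + 3 * |C| ^ 2 / (4 * η) := by
      have e5 : η / 3 * u ^ 2 + 3 * |C| ^ 2 / (4 * η) - |C| * u = (2 * η * u - 3 * |C|) ^ 2 / (12 * η) := by
        field_simp
        ring
      have : 0 ≤ (2 * η * u - 3 * |C|) ^ 2 / (12 * η) := by positivity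
      linarith
    have h11 : η / 3 * u ^ 2 ≤ η / 3 * u ^ (e + 2) := mul_le_mul_of_nonneg_left h9 hη3.le
    linarith
  have e6 : (η / 3 / (1 - t) ^ (e + 1) + |C|) / (1 - t) = η / 3 / (1 - t) ^ (e + 1 + 1) + |C| / (1 - t) := by
    rw [add_div, div_div, ← pow_succ]
  have e7 : kp * ((e + 1 : ℕ) : ℝ) * PP p t / (1 - t) = kp * e * PP p t / (1 - t) + kp * PP p t / (1 - t) := by
    push_cast
    ring
  have e8 : η / (1 - t) ^ (e + 1 + 1) = η / 3 / (1 - t) ^ (e + 1 + 1) + η / 3 / (1 - t) ^ (e + 1 + 1) + η / 3 / (1 - t) ^ (e + 1 + 1) := by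
    ring
  rw [e7, e8]
  rw [e6] at h5
  linarith



/-- a positive integer multiple of a rational form is an integer form -/
theorem Aj4_int {δ : ℕ} {a : PQ m} (ha : a.IsHomogeneous δ) :
    ∃ (n : ℕ) (a' : PZ m), n ≠ 0 ∧ a'.IsHomogeneous δ ∧ zq a' = C (n : ℚ) * a := by
  classical
  set n : ℕ := ∏ d ∈ a.support, (a.coeff d).den with hn
  have hn0 : n ≠ 0 := Finset.prod_ne_zero_iff.2 fun d _ => (a.coeff d).den_ne_zero
  have hint : ∀ d : Fin (m + 1) →₀ ℕ, ∃ z : ℤ, (z : ℚ) = n * a.coeff d := by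
    intro d
    by_cases hd : d ∈ a.support
    · obtain ⟨k, hk⟩ := Finset.dvd_prod_of_mem (fun d => (a.coeff d).den) hd
      refine ⟨k * (a.coeff d).num, ?_⟩
      have h1 : (n : ℚ) = ((a.coeff d).den : ℚ) * k := by
        rw [hn]; exact_mod_cast hk
      have h2 : ((a.coeff d).num : ℚ) = a.coeff d * (a.coeff d).den := (Rat.mul_den_eq_num _).symm
      push_cast
      rw [h2, h1]
      ring
    · refine ⟨0, ?_⟩
      rw [notMem_support_iff.1 hd]; simp
  choose z hz using hint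
  refine ⟨n, ∑ d ∈ a.support, monomial d (z d), hn0, ?_, ?_⟩
  · refine IsHomogeneous.sum _ _ _ fun d hd => ?_
    exact isHomogeneous_monomial _ (by
      by_contra h
      exact (mem_support_iff.1 hd) (ha.coeff_eq_zero h))
  · conv_rhs => rw [a.as_sum, Finset.mul_sum]
    rw [zq, map_sum]
    refine Finset.sum_congr rfl fun d _ => ?_
    rw [map_monomial, C_mul_monomial]
    congr 1
    rw [← hz d]; rfl

theorem slope_succ (θ : Fin m → ℂ) {τ kp w0 : ℝ} (hτ0 : 0 ≤ τ) (hτ : τ ≤ 1) (hk : 0 ≤ kp) (hM : MatL θ τ kp w0) {e : ℕ} (hS : Slope θ τ kp w0 e) :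
    Slope θ τ kp w0 (e + 1) := by
  classical
  intro w hw hw0 J
  induction J using WellFoundedGT.induction with
  | ind J ih =>
  intro hJ hG η hη
  by_cases hx : (X 0 : PQ m) ∈ J
  · refine ⟨0, fun t h0 h1 => ?_⟩
    have h2 : XX θ w τ J t = 0 := by
      rw [XX]
      simp [chi_x0 θ hτ hJ hx]
    have h3 := pp_nonneg J h0
    have h4 : 0 < 1 - t := by linarith
    rw [h2]
    positivity
  by_cases hpp : J.IsPrime
  · exact slope_prime θ hτ0 hτ hk hM hS hJ hpp hx hG hw hw0 hη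
  have h1 : J ≠ ⊤ := by rintro rfl; exact hx trivial
  have h2 : ∃ (δ δ' : ℕ) (a b : PQ m), a.IsHomogeneous δ ∧ b.IsHomogeneous δ' ∧ a * b ∈ J ∧ a ∉ J ∧ b ∉ J := by
    by_contra hcon
    apply hpp
    refine prime_of_hom hJ h1 fun δ δ' a b ha hb hab => ?_
    by_contra h3
    push Not at h3
    exact hcon ⟨δ, δ', a, b, ha, hb, hab, h3.1, h3.2⟩
  obtain ⟨δ, δ', a, b, ha, hb, hab, haJ, hbJ⟩ := h2
  obtain ⟨n, a', hn, ha', hza⟩ := Aj4_int ha
  have hu : ∀ g : PQ m, C (n : ℚ) * g ∈ J → g ∈ J := by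
    intro g hg
    have := J.mul_mem_left (C ((n : ℚ)⁻¹)) hg
    rwa [← mul_assoc, ← C_mul, inv_mul_cancel₀ (by exact_mod_cast hn), C_1, one_mul] at this
  have hzh : (zq a').IsHomogeneous δ := ha'.map _
  have haJ' : zq a' ∉ J := by rw [hza]; exact fun h => haJ (hu a h)
  have hbc : b ∈ col J (zq a') := by
    change zq a' * b ∈ J
    rw [hza, mul_assoc]
    exact J.mul_mem_left _ hab
  have hlt1 : J < J ⊔ Ideal.span {zq a'} := by
    refine lt_of_le_of_ne le_sup_left fun h => haJ' ?_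
    rw [h]
    exact Ideal.mem_sup_right (Ideal.mem_span_singleton_self _)
  have hlt2 : J < col J (zq a') := by
    refine lt_of_le_of_ne (fun g hg => ?_) fun h => hbJ (by rw [h]; exact hbc)
    exact J.mul_mem_left _ hg
  have hη3 : 0 < η / 3 := by positivity
  obtain ⟨C1, hC1⟩ := ih _ hlt1 (hi_sup hJ hzh) (gr_sup hJ hG hzh) (η / 3) hη3
  obtain ⟨C2, hC2⟩ := ih _ hlt2 (hi_col hJ hzh) (gr_col hJ hG hzh) (η / 3) hη3
  obtain ⟨C3, hC3⟩ := gr_small (gr_col hJ hG hzh) (max 0 (Real.log (wl θ w τ δ (zc a')))) hη3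
  refine ⟨C1 + |C2| + C3, fun t h0 h1 => ?_⟩
  have e1 := hC1 t h0 h1
  have e2 := hC2 t h0 h1
  have e3 := hC3 t h0 h1
  have e4 := xx_star θ hw hτ0 hJ ha' h0 h1
  have e5 := pp_star hJ hzh h0 h1
  have h4 : 0 < 1 - t := by linarith
  have htd0 : 0 ≤ t ^ δ := pow_nonneg h0 _
  have htd1 : t ^ δ ≤ 1 := pow_le_one₀ h0 h1.le
  have hP1 := pp_nonneg (J ⊔ Ideal.span {zq a'}) h0
  have hP2 := pp_nonneg (col J (zq a')) h0
  have hM0 : 0 ≤ max 0 (Real.log (wl θ w τ δ (zc a'))) := le_max_left _ _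
  set M := max 0 (Real.log (wl θ w τ δ (zc a')))
  set P1 := PP (J ⊔ Ideal.span {zq a'}) t
  set P2 := PP (col J (zq a')) t
  have f1 : t ^ δ * XX θ w τ (col J (zq a')) t ≤ kp * (e + 1 : ℕ) * (t ^ δ * P2) / (1 - t) + η / 3 / (1 - t) ^ (e + 1 + 1) + |C2| := by
    have g1 : t ^ δ * XX θ w τ (col J (zq a')) t ≤ t ^ δ * (kp * (e + 1 : ℕ) * P2 / (1 - t) + η / 3 / (1 - t) ^ (e + 1 + 1) + C2) :=
      mul_le_mul_of_nonneg_left e2 htd0
    have g2 : 0 ≤ η / 3 / (1 - t) ^ (e + 1 + 1) := by positivity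
    have g3 : t ^ δ * (η / 3 / (1 - t) ^ (e + 1 + 1)) ≤ 1 * (η / 3 / (1 - t) ^ (e + 1 + 1)) := mul_le_mul_of_nonneg_right htd1 g2
    have g4 : t ^ δ * C2 ≤ |C2| := by
      calc t ^ δ * C2 ≤ t ^ δ * |C2| := mul_le_mul_of_nonneg_left (le_abs_self _) htd0
        _ ≤ 1 * |C2| := mul_le_mul_of_nonneg_right htd1 (abs_nonneg _)
        _ = |C2| := one_mul _
    have g5 : kp * (e + 1 : ℕ) * (t ^ δ * P2) / (1 - t) = t ^ δ * (kp * (e + 1 : ℕ) * P2 / (1 - t)) := by ring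
    rw [g5]
    nlinarith
  have f2 : t ^ δ * P2 * M ≤ η / 3 / (1 - t) ^ (e + 1 + 1) + C3 := by
    refine le_trans ?_ e3
    have : t ^ δ * P2 ≤ 1 * P2 := mul_le_mul_of_nonneg_right htd1 hP2
    nlinarith
  have f3 : kp * (e + 1 : ℕ) * PP J t / (1 - t) = kp * (e + 1 : ℕ) * P1 / (1 - t) + kp * (e + 1 : ℕ) * (t ^ δ * P2) / (1 - t) := by
    rw [e5]; ring
  rw [f3]
  have f4 : η / (1 - t) ^ (e + 1 + 1) = η / 3 / (1 - t) ^ (e + 1 + 1) + η / 3 / (1 - t) ^ (e + 1 + 1) + η / 3 / (1 - t) ^ (e + 1 + 1) := by ring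
  rw [f4]
  linarith


theorem slope_all (θ : Fin m → ℂ) {τ kp w0 : ℝ} (hτ0 : 0 ≤ τ) (hτ : τ ≤ 1) (hk : 0 ≤ kp) (hM : MatL θ τ kp w0) (e : ℕ) : Slope θ τ kp w0 e := by
  induction e with
  | zero => exact slope_zero θ hτ0 hk
  | succ e ih => exact slope_succ θ hτ0 hτ hk hM ih

/-! ### rows Ak-Am: the matrix lemma -/


/-- expansion of the determinant of a product along the rows -/
theorem Ak_det_mul {R : Type*} [CommRing R] {j : ℕ} {ι : Type} [Fintype ι] (U : Matrix (Fin j) ι R) (X : Matrix ι (Fin j) R) :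
    (U * X).det = ∑ r : Fin j → ι, (∏ i, U i (r i)) * (X.submatrix r id).det := by
  classical
  have h1 : (U * X : Matrix (Fin j) (Fin j) R) = fun i => ∑ a, U i a • X a := by
    funext i l
    rw [Matrix.mul_apply, Finset.sum_apply]
    rfl
  have h2 : (U * X).det = (Matrix.detRowAlternating (n := Fin j) (R := R)).toMultilinearMap (fun i => ∑ a, U i a • X a) := by
    rw [h1]
    rfl
  rw [h2, MultilinearMap.map_sum]
  refine Finset.sum_congr rfl fun r _ => ?_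
  rw [MultilinearMap.map_smul_univ (Matrix.detRowAlternating (n := Fin j) (R := R)).toMultilinearMap (fun i => U i (r i)) (fun i => X (r i))]
  rfl

theorem Ak_det_mem {R : Type*} [CommRing R] {j : ℕ} {ι κ : Type} [Fintype ι] [Fintype κ] (U : Matrix (Fin j) ι R)
    (B : Matrix ι κ R) (V : Matrix κ (Fin j) R) (I : Ideal R) (h : ∀ (r : Fin j → ι) (s : Fin j → κ), (B.submatrix r s).det ∈ I) :
    (U * B * V).det ∈ I := by
  classical
  rw [Matrix.mul_assoc, Ak_det_mul]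
  apply Ideal.sum_mem
  intro r _
  apply I.mul_mem_left
  have h1 : (B * V).submatrix r id = B.submatrix r id * V := by
    ext i l
    simp [Matrix.mul_apply]
  rw [h1, ← Matrix.det_transpose, Matrix.transpose_mul, Ak_det_mul]
  apply Ideal.sum_mem
  intro s _
  apply I.mul_mem_left
  have h2 : ((B.submatrix r id)ᵀ).submatrix s id = (B.submatrix r s)ᵀ := by
    ext i l
    simp
  rw [h2, Matrix.det_transpose]
  exact h r s

theorem Ak_sl_zero (θ : Fin m → ℂ) (w : ℝ) (L : ℕ) : sl θ w L 0 = 0 := by simp [sl]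

theorem Ak_sl_sum {α : Type} (θ : Fin m → ℂ) (w : ℝ) (L : ℕ) (s : Finset α) (f : α → PC m) :
    sl θ w L (∑ i ∈ s, f i) ≤ ∑ i ∈ s, sl θ w L (f i) := by
  classical
  induction s using Finset.induction_on with
  | empty => simp [Ak_sl_zero]
  | insert a s ha ih =>
    rw [Finset.sum_insert ha, Finset.sum_insert ha]
    exact (sl_add_le _ _ _ _ _).trans (by linarith)

theorem Ak_sl_prod {α : Type} (θ : Fin m → ℂ) (w : ℝ) (T : ℕ) (s : Finset α) (f : α → PC m) :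
    sl θ w (s.card * T) (∏ i ∈ s, f i) ≤ ∏ i ∈ s, sl θ w T (f i) := by
  classical
  induction s using Finset.induction_on with
  | empty =>
    simp only [Finset.prod_empty, Finset.card_empty, zero_mul]
    unfold sl
    rw [map_one]
    have h1 : (1 : PC m) = monomial 0 1 := rfl
    rw [h1, support_monomial, if_neg one_ne_zero, Finset.sum_singleton, coeff_monomial, if_pos rfl]
    simp
  | insert a s ha ih =>
    rw [Finset.prod_insert ha, Finset.prod_insert ha, Finset.card_insert_of_notMem ha]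
    have h1 : (s.card + 1) * T = T + s.card * T := by ring
    rw [h1]
    refine (sl_mul_le _ _ _ _ _ _).trans ?_
    exact mul_le_mul_of_nonneg_left ih (sl_nonneg _ _ _ _)

theorem Ak_lC_zero {σ : Type} : lC (0 : MvPolynomial σ ℂ) = 0 := by simp [lC]

theorem Ak_lC_sum {σ α : Type} (s : Finset α) (f : α → MvPolynomial σ ℂ) : lC (∑ i ∈ s, f i) ≤ ∑ i ∈ s, lC (f i) := by
  classical
  induction s using Finset.induction_on with
  | empty => simp [Ak_lC_zero]
  | insert a s ha ih =>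
    rw [Finset.sum_insert ha, Finset.sum_insert ha]
    exact (lC_add_le _ _).trans (by linarith)

theorem Ak_lC_C {σ : Type} (x : ℂ) : lC (C x : MvPolynomial σ ℂ) ≤ ‖x‖ := by
  classical
  have h : (C x : MvPolynomial σ ℂ) = monomial 0 x := rfl
  unfold lC
  rw [h, support_monomial]
  split_ifs with h0
  · simp
  · rw [Finset.sum_singleton, coeff_monomial, if_pos rfl]

theorem Ak_lC_nonneg {σ : Type} (f : MvPolynomial σ ℂ) : 0 ≤ lC f := Finset.sum_nonneg fun _ _ => norm_nonneg _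

/-- the coefficient of `x_0^T` of a form of degree `T` -/
theorem Ak_coeff_hom {T : ℕ} {h : PC m} (hh : h.IsHomogeneous T) :
    h.coeff (Finsupp.single 0 T) = MvPolynomial.eval (Fin.cons 1 (fun _ => 0) : Fin (m + 1) → ℂ) h := by
  classical
  rw [MvPolynomial.eval_eq']
  by_cases hs : Finsupp.single 0 T ∈ h.support
  · rw [Finset.sum_eq_single_of_mem _ hs]
    · rw [Finset.prod_eq_one, mul_one]
      intro i _
      refine Fin.cases ?_ (fun i => ?_) i
      · simp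
      · simp [Finsupp.single_apply]
    · intro d hd hne
      have hdg : d.degree = T := by
        have := hh (mem_support_iff.1 hd)
        rw [Finsupp.degree_eq_weight_one]
        exact this
      have : ∃ i : Fin m, d i.succ ≠ 0 := by
        by_contra hcon
        push Not at hcon
        apply hne
        have h1 : d = Finsupp.single 0 (d 0) := by
          ext i
          refine Fin.cases ?_ (fun i => ?_) i
          · simp
          · rw [hcon i]; simp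
        rw [h1, Finsupp.degree_single] at hdg
        rw [h1, hdg]
      obtain ⟨i, hi⟩ := this
      rw [Finset.prod_eq_zero (Finset.mem_univ i.succ), mul_zero]
      simp [hi]
  · rw [notMem_support_iff] at hs
    rw [hs]
    symm
    apply Finset.sum_eq_zero
    intro d hd
    have hdg : d.degree = T := by
      have := hh (mem_support_iff.1 hd)
      rw [Finsupp.degree_eq_weight_one]
      exact this
    have : ∃ i : Fin m, d i.succ ≠ 0 := by
      by_contra hcon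
      push Not at hcon
      have h1 : d = Finsupp.single 0 (d 0) := by
        ext i
        refine Fin.cases ?_ (fun i => ?_) i
        · simp
        · rw [hcon i]; simp
      rw [h1, Finsupp.degree_single] at hdg
      rw [mem_support_iff, h1, hdg] at hd
      exact hd hs
    obtain ⟨i, hi⟩ := this
    rw [Finset.prod_eq_zero (Finset.mem_univ i.succ), mul_zero]
    simp [hi]

theorem Ak_coeff_phi (θ : Fin m → ℂ) {T : ℕ} {g : PC m} (hg : g.IsHomogeneous T) :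
    (phi θ g).coeff (Finsupp.single 0 T) = MvPolynomial.eval (Fin.cons 1 θ : Fin (m + 1) → ℂ) g := by
  rw [Ak_coeff_hom (phi_hom θ hg)]
  have h1 : (MvPolynomial.aeval (Fin.cons 1 (fun _ => 0) : Fin (m + 1) → ℂ)).comp (phi θ)
      = MvPolynomial.aeval (Fin.cons 1 θ : Fin (m + 1) → ℂ) := by
    apply MvPolynomial.algHom_ext
    intro i
    unfold phi
    refine Fin.cases ?_ (fun i => ?_) i
    · simp
    · simp
  have h2 := DFunLike.congr_fun h1 g
  rw [AlgHom.comp_apply] at h2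
  rw [← MvPolynomial.coe_aeval_eq_eval, ← MvPolynomial.coe_aeval_eq_eval]
  exact h2

/-- the weighted length of a form in terms of its main coefficient -/
theorem Ak_sl_le (θ : Fin m → ℂ) {w : ℝ} (hw : 0 ≤ w) {T : ℕ} {g : PC m} (hg : g.IsHomogeneous T) :
    sl θ w T g ≤ ‖MvPolynomial.eval (Fin.cons 1 θ : Fin (m + 1) → ℂ) g‖ + Real.exp (-w) * lC (phi θ g) := by
  classical
  rw [← Ak_coeff_phi θ hg]
  have h1 : ∀ d ∈ (phi θ g).support, ‖(phi θ g).coeff d‖ * Real.exp (-(w * ((T : ℝ) - (d 0 : ℕ)))) ≤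
      (if d = Finsupp.single 0 T then ‖(phi θ g).coeff (Finsupp.single 0 T)‖ else 0) + Real.exp (-w) * ‖(phi θ g).coeff d‖ := by
    intro d hd
    have hdg : d.degree = T := by
      have := (phi_hom θ hg) (mem_support_iff.1 hd)
      rw [Finsupp.degree_eq_weight_one]
      exact this
    split_ifs with h
    · subst h
      simp only [Finsupp.single_eq_same, sub_self, mul_zero, neg_zero, Real.exp_zero, mul_one]
      have := mul_nonneg (Real.exp_pos (-w)).le (norm_nonneg ((phi θ g).coeff (Finsupp.single 0 T)))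
      linarith
    · rw [zero_add, mul_comm]
      apply mul_le_mul_of_nonneg_right _ (norm_nonneg _)
      apply Real.exp_le_exp.2
      have h2 : d 0 + 1 ≤ T := by
        by_contra hlt
        apply h
        have h3 : d 0 ≤ d.degree := Finsupp.le_degree 0 d
        have h4 : d 0 = T := by omega
        have hle : Finsupp.single 0 T ≤ d := by
          rw [Finsupp.single_le_iff]
          omega
        obtain ⟨δ, hδ⟩ := le_iff_exists_add.1 hle
        have h5 : δ.degree = 0 := by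
          have := congrArg Finsupp.degree hδ
          rw [map_add, Finsupp.degree_single, hdg] at this
          omega
        have h6 : δ = 0 := by
          rwa [Finsupp.degree_eq_zero_iff] at h5
        rw [hδ, h6, add_zero]
      have h3 : ((d 0 : ℕ) : ℝ) + 1 ≤ T := by exact_mod_cast h2
      nlinarith
  calc sl θ w T g ≤ ∑ d ∈ (phi θ g).support, ((if d = Finsupp.single 0 T then ‖(phi θ g).coeff (Finsupp.single 0 T)‖ else 0) + Real.exp (-w) * ‖(phi θ g).coeff d‖) :=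
        Finset.sum_le_sum h1
    _ ≤ _ := by
        rw [Finset.sum_add_distrib, ← Finset.mul_sum]
        apply add_le_add
        · rw [Finset.sum_ite_eq']
          split_ifs
          · exact le_rfl
          · exact norm_nonneg _
        · exact le_rfl

/-- Leibniz with weights -/
theorem Ak_sl_det (θ : Fin m → ℂ) (w : ℝ) {j T : ℕ} (W : Matrix (Fin j) (Fin j) (PC m)) {η : ℝ} (hη : 0 ≤ η)
    (h : ∀ i l, sl θ w T (W i l) ≤ (if i = l then 1 else 0) + η) : sl θ w (j * T) W.det ≤ (1 + j * η) ^ j := by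
  classical
  rw [Matrix.det_apply']
  calc sl θ w (j * T) (∑ σ : Equiv.Perm (Fin j), ((Equiv.Perm.sign σ : ℤ) : PC m) * ∏ i, W (σ i) i)
      ≤ ∑ σ : Equiv.Perm (Fin j), sl θ w (j * T) (((Equiv.Perm.sign σ : ℤ) : PC m) * ∏ i, W (σ i) i) := Ak_sl_sum _ _ _ _ _
    _ ≤ ∑ σ : Equiv.Perm (Fin j), ∏ i, ((if σ i = i then 1 else 0) + η) := by
        apply Finset.sum_le_sum
        intro σ _
        have h1 : ((Equiv.Perm.sign σ : ℤ) : PC m) = C ((Equiv.Perm.sign σ : ℤ) : ℂ) := by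
          rw [← MvPolynomial.algebraMap_eq]
          simp
        rw [h1, sl_C_mul]
        have h2 : ‖((Equiv.Perm.sign σ : ℤ) : ℂ)‖ = 1 := by
          rcases Int.units_eq_one_or (Equiv.Perm.sign σ) with h | h <;> simp [h]
        rw [h2, one_mul]
        have h3 := Ak_sl_prod θ w T Finset.univ (fun i => W (σ i) i)
        rw [Finset.card_univ, Fintype.card_fin] at h3
        refine h3.trans ?_
        apply Finset.prod_le_prod
        · intro i _
          exact sl_nonneg _ _ _ _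
        · intro i _
          exact h (σ i) i
    _ ≤ ∑ s : Fin j → Fin j, ∏ i, ((if s i = i then 1 else 0) + η) := by
        rw [← Finset.sum_image (s := (Finset.univ : Finset (Equiv.Perm (Fin j)))) (g := fun σ => (σ : Fin j → Fin j))
          (f := fun s : Fin j → Fin j => ∏ i, ((if s i = i then (1 : ℝ) else 0) + η))]
        · apply Finset.sum_le_sum_of_subset_of_nonneg (Finset.subset_univ _)
          intro s _ _
          apply Finset.prod_nonneg
          intro i _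
          split_ifs <;> linarith
        · intro a _ b _ hab
          exact Equiv.coe_fn_injective hab
    _ = ∏ i : Fin j, ∑ k : Fin j, ((if k = i then 1 else 0) + η) := by
        rw [Finset.prod_univ_sum]
        rfl
    _ = (1 + j * η) ^ j := by
        have h4 : ∀ i : Fin j, ∑ k : Fin j, ((if k = i then (1 : ℝ) else 0) + η) = 1 + j * η := by
          intro i
          rw [Finset.sum_add_distrib, Finset.sum_ite_eq', if_pos (Finset.mem_univ _), Finset.sum_const, Finset.card_univ, Fintype.card_fin,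
            nsmul_eq_mul]
        rw [Finset.prod_congr rfl (fun i _ => h4 i), Finset.prod_const, Finset.card_univ, Fintype.card_fin]

theorem Ak_det_hom {j T : ℕ} (W : Matrix (Fin j) (Fin j) (PC m)) (h : ∀ i l, (W i l).IsHomogeneous T) : W.det.IsHomogeneous (j * T) := by
  classical
  rw [Matrix.det_apply']
  apply IsHomogeneous.sum
  intro σ _
  have h1 : ((Equiv.Perm.sign σ : ℤ) : PC m) = C ((Equiv.Perm.sign σ : ℤ) : ℂ) := by
    rw [← MvPolynomial.algebraMap_eq]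
    simp
  rw [h1]
  have h2 : (∏ i, W (σ i) i).IsHomogeneous (∑ i : Fin j, T) := IsHomogeneous.prod _ _ _ fun i _ => h (σ i) i
  rw [Finset.sum_const, Finset.card_univ, Fintype.card_fin, smul_eq_mul] at h2
  have h3 := (isHomogeneous_C (Fin (m + 1)) ((Equiv.Perm.sign σ : ℤ) : ℂ)).mul h2
  rwa [zero_add] at h3

/-- row Ak: the form `G` -/
theorem switchG (m k : ℕ) (θ : Fin m → ℂ) {ε c0 : ℝ} (hε : 0 < ε) (hε1 : ε ≤ 1) (hc : 0 < c0) :
    ∃ T0 : ℕ, ∀ T : ℕ, T0 ≤ T → ∀ (ι κ : Type) [Fintype ι] [Fintype κ] (B : Matrix ι κ (PZ m)), HMat k θ ε c0 T B →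
      ∀ (p : Ideal (PQ m)) (ρ : ℕ), (ρ : ℝ) + 1 ≤ RR k ε T →
        (∀ (r : Fin (ρ + 1) → ι) (c : Fin (ρ + 1) → κ), zq (B.submatrix r c).det ∈ p) →
        ∃ (E : ℕ) (G : PC m), 1 ≤ E ∧ G ∈ JC p ∧ G.IsHomogeneous E ∧ (phi θ G).coeff (Finsupp.single 0 E) = 1 ∧
          ∑ d ∈ (phi θ G).support.erase (Finsupp.single 0 E), ‖(phi θ G).coeff d‖ * Real.exp (-(wr ε T ρ * ((E : ℝ) - (d 0 : ℕ)))) ≤ 1 := by
  classical
  -- the constants
  obtain ⟨Θ, hΘ0, hΘ⟩ : ∃ Θ : ℝ, 0 ≤ Θ ∧ ∀ i, ‖θ i‖ ≤ Θ :=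
    ⟨∑ i, ‖θ i‖, Finset.sum_nonneg fun _ _ => norm_nonneg _, fun i => Finset.single_le_sum (f := fun i => ‖θ i‖) (fun _ _ => norm_nonneg _) (Finset.mem_univ i)⟩
  have hlim : Filter.Tendsto (fun T : ℕ => ((T : ℝ)) ^ ε) Filter.atTop Filter.atTop :=
    (tendsto_rpow_atTop hε).comp tendsto_natCast_atTop_atTop
  obtain ⟨T1, hT1⟩ := Filter.eventually_atTop.1 (hlim.eventually_ge_atTop (7 + Real.log (1 + Θ)))
  refine ⟨max 1 T1, fun T hT ι κ _ _ B hB p ρ hρ hdet => ?_⟩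
  have hT0 : 1 ≤ T := (le_max_left _ _).trans hT
  have hTR : (1 : ℝ) ≤ T := by exact_mod_cast hT0
  have hK : 7 + Real.log (1 + Θ) ≤ (T : ℝ) ^ ε := hT1 T ((le_max_right _ _).trans hT)
  have hj1 : 1 ≤ ρ + 1 := by omega
  obtain ⟨U, V, hU, hV, hUV⟩ := hB.lb (ρ + 1) hj1 (by exact_mod_cast hρ)
  set Uc : Matrix (Fin (ρ + 1)) ι (PC m) := U.map (fun x => (C x : PC m)) with hUc
  set Bc : Matrix ι κ (PC m) := B.map zc with hBc
  set Vc : Matrix κ (Fin (ρ + 1)) (PC m) := V.map (fun x => (C x : PC m)) with hVc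
  set UB : Matrix (Fin (ρ + 1)) κ (PC m) := Uc * Bc with hUB
  set W : Matrix (Fin (ρ + 1)) (Fin (ρ + 1)) (PC m) := UB * Vc with hW
  have hWe : ∀ i l, W i l = ∑ b, (∑ a, C (U i a) * zc (B a b)) * C (V b l) := by
    intro i l
    rw [hW, Matrix.mul_apply]
    refine Finset.sum_congr rfl fun b _ => ?_
    rw [hUB, Matrix.mul_apply]
    rfl
  have hzch : ∀ a b, (zc (B a b)).IsHomogeneous T := fun a b => (hB.deg a b).map _
  have hWh : ∀ i l, (W i l).IsHomogeneous T := by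
    intro i l
    rw [hWe]
    apply IsHomogeneous.sum
    intro b _
    have h1 : (∑ a, C (U i a) * zc (B a b)).IsHomogeneous T := by
      apply IsHomogeneous.sum
      intro a _
      have := (isHomogeneous_C (Fin (m + 1)) (U i a)).mul (hzch a b)
      rwa [zero_add] at this
    have := h1.mul (isHomogeneous_C (Fin (m + 1)) (V b l))
    rwa [add_zero] at this
  have hWev : ∀ i l, MvPolynomial.eval (Fin.cons 1 θ : Fin (m + 1) → ℂ) (W i l) = if i = l then 1 else 0 := by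
    intro i l
    have h1 : W.map (MvPolynomial.eval (Fin.cons 1 θ : Fin (m + 1) → ℂ)) = U * evM (Fin.cons 1 θ : Fin (m + 1) → ℂ) B * V := by
      rw [hW, hUB, Matrix.map_mul, Matrix.map_mul]
      have e1 : Uc.map (MvPolynomial.eval (Fin.cons 1 θ : Fin (m + 1) → ℂ)) = U := by
        ext i a
        simp [hUc]
      have e2 : Bc.map (MvPolynomial.eval (Fin.cons 1 θ : Fin (m + 1) → ℂ)) = evM (Fin.cons 1 θ : Fin (m + 1) → ℂ) B := by
        ext a b
        simp only [hBc, Matrix.map_apply, evM, zc, MvPolynomial.eval_map]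
        rfl
      have e3 : Vc.map (MvPolynomial.eval (Fin.cons 1 θ : Fin (m + 1) → ℂ)) = V := by
        ext b i
        simp [hVc]
      rw [e1, e2, e3]
    have h2 := congrFun (congrFun h1 i) l
    rw [hUV, Matrix.map_apply, Matrix.one_apply] at h2
    exact h2
  have hGh : W.det.IsHomogeneous ((ρ + 1) * T) := Ak_det_hom W hWh
  refine ⟨(ρ + 1) * T, W.det, Nat.mul_pos (by omega) (by omega), ?_, hGh, ?_, ?_⟩
  · rw [hW, hUB]
    apply Ak_det_mem
    intro r s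
    have h1 : (Bc.submatrix r s).det = qc (zq (B.submatrix r s).det) := by
      have h2 : Bc.submatrix r s = (B.submatrix r s).map (MvPolynomial.map (Int.castRingHom ℂ)) := by
        ext i l
        simp [zc, hBc]
      rw [h2]
      have h3 := (MvPolynomial.map (σ := Fin (m + 1)) (Int.castRingHom ℂ)).map_det (B.submatrix r s)
      rw [RingHom.mapMatrix_apply] at h3
      rw [← h3]
      unfold qc zq
      rw [MvPolynomial.map_map]
      congr 1
    rw [h1]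
    exact Ideal.mem_map_of_mem (MvPolynomial.map (algebraMap ℚ ℂ)) (hdet r s)
  · rw [Ak_coeff_phi θ hGh]
    have h1 := (MvPolynomial.eval (Fin.cons 1 θ : Fin (m + 1) → ℂ)).map_det W
    rw [h1, RingHom.mapMatrix_apply]
    have h2 : W.map (MvPolynomial.eval (Fin.cons 1 θ : Fin (m + 1) → ℂ)) = 1 := by
      ext i l
      rw [Matrix.map_apply, hWev, Matrix.one_apply]
    rw [h2, Matrix.det_one]
  · -- the weighted length
    have hwr0 : 0 ≤ wr ε T ρ := by unfold wr; positivity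
    set A : ℝ := (T : ℝ) ^ ε * (((ρ + 1 : ℕ) : ℝ) ^ 2 + T) with hA
    set η : ℝ := Real.exp (-(wr ε T ρ)) * (Real.exp (2 * T + 2 * A + (T : ℝ) ^ (1 + ε)) * (1 + Θ) ^ T) with hη
    have hη0 : 0 ≤ η := by rw [hη]; positivity
    have hlen : ∀ i l, lC (phi θ (W i l)) ≤ Real.exp (2 * T + 2 * A + (T : ℝ) ^ (1 + ε)) * (1 + Θ) ^ T := by
      intro i l
      have h1 : phi θ (W i l) = ∑ b, ∑ a, C (U i a) * phi θ (zc (B a b)) * C (V b l) := by
        rw [hWe, map_sum]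
        refine Finset.sum_congr rfl fun b _ => ?_
        rw [map_mul, map_sum, Finset.sum_mul]
        refine Finset.sum_congr rfl fun a _ => ?_
        rw [map_mul]
        simp [phi, MvPolynomial.aeval_C, MvPolynomial.algebraMap_eq]
      rw [h1]
      have h2 : ∀ (a : ι) (b : κ), lC (C (U i a) * phi θ (zc (B a b)) * C (V b l)) ≤
          Real.exp A * ((1 + Θ) ^ T * Real.exp ((T : ℝ) ^ (1 + ε))) * Real.exp A := by
        intro a b
        refine (lC_mul_le _ _).trans ?_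
        apply mul_le_mul _ ((Ak_lC_C _).trans (hV b l)) (Ak_lC_nonneg _) (by positivity)
        refine (lC_mul_le _ _).trans ?_
        apply mul_le_mul ((Ak_lC_C _).trans (hU i a)) _ (Ak_lC_nonneg _) (Real.exp_pos _).le
        refine (lC_phi_le θ hΘ hΘ0 (hzch a b)).trans ?_
        rw [lC_zc]
        exact mul_le_mul_of_nonneg_left (hB.len a b) (by positivity)
      calc lC (∑ b, ∑ a, C (U i a) * phi θ (zc (B a b)) * C (V b l))
          ≤ ∑ b : κ, ∑ a : ι, Real.exp A * ((1 + Θ) ^ T * Real.exp ((T : ℝ) ^ (1 + ε))) * Real.exp A := by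
            refine (Ak_lC_sum _ _).trans (Finset.sum_le_sum fun b _ => ?_)
            exact (Ak_lC_sum _ _).trans (Finset.sum_le_sum fun a _ => h2 a b)
        _ = (Fintype.card κ : ℝ) * ((Fintype.card ι : ℝ) * (Real.exp A * ((1 + Θ) ^ T * Real.exp ((T : ℝ) ^ (1 + ε))) * Real.exp A)) := by
            simp [Finset.sum_const, nsmul_eq_mul]
        _ ≤ Real.exp T * (Real.exp T * (Real.exp A * ((1 + Θ) ^ T * Real.exp ((T : ℝ) ^ (1 + ε))) * Real.exp A)) := by
            apply mul_le_mul hB.cardc _ (by positivity) (Real.exp_pos _).le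
            exact mul_le_mul_of_nonneg_right hB.cardr (by positivity)
        _ = _ := by
            rw [show 2 * (T : ℝ) + 2 * A + (T : ℝ) ^ (1 + ε) = T + T + A + A + (T : ℝ) ^ (1 + ε) by ring, Real.exp_add, Real.exp_add, Real.exp_add, Real.exp_add]
            ring
    have hsl : ∀ i l, sl θ (wr ε T ρ) T (W i l) ≤ (if i = l then 1 else 0) + η := by
      intro i l
      refine (Ak_sl_le θ hwr0 (hWh i l)).trans ?_
      rw [hWev]
      apply add_le_add
      · split_ifs <;> simp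
      · exact mul_le_mul_of_nonneg_left (hlen i l) (Real.exp_pos _).le
    have hdet2 := Ak_sl_det θ (wr ε T ρ) W hη0 hsl
    -- numerical bound
    have hj2 : (((ρ + 1 : ℕ) : ℝ)) ^ 2 * η ≤ 1 / 2 := by
      set j : ℝ := ((ρ + 1 : ℕ) : ℝ) with hj
      have hjj : wr ε T ρ = (T : ℝ) ^ (2 * ε) * (j ^ 2 + T) := by
        rw [wr, hj]
        push_cast
        ring
      have hT2 : (T : ℝ) ^ (2 * ε) = (T : ℝ) ^ ε * (T : ℝ) ^ ε := by
        rw [← Real.rpow_add (by linarith)]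
        congr 1
        ring
      have hT3 : (T : ℝ) ^ (1 + ε) = T * (T : ℝ) ^ ε := by
        rw [Real.rpow_add (by linarith), Real.rpow_one]
      have hl0 : 0 ≤ Real.log (1 + Θ) := Real.log_nonneg (by linarith)
      have hpow : ((1 : ℝ) + Θ) ^ T = Real.exp (T * Real.log (1 + Θ)) := by
        rw [mul_comm, Real.exp_mul, Real.exp_log (by linarith), Real.rpow_natCast]
      have hx : (1 : ℝ) ≤ (T : ℝ) ^ ε := by linarith
      have hj0 : 0 ≤ j ^ 2 := sq_nonneg _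
      have hkey : -(wr ε T ρ) + (2 * T + 2 * A + (T : ℝ) ^ (1 + ε) + T * Real.log (1 + Θ)) ≤ -(2 * j ^ 2) := by
        rw [hjj, hT2, hT3, hA]
        set x := (T : ℝ) ^ ε with hxdef
        have h1 : (7 + Real.log (1 + Θ)) * (x * (j ^ 2 + T)) ≤ x * (x * (j ^ 2 + T)) :=
          mul_le_mul_of_nonneg_right hK (by positivity)
        have h2 : (j ^ 2 + T) ≤ x * (j ^ 2 + T) := by
          have : 0 ≤ (x - 1) * (j ^ 2 + T) := mul_nonneg (by linarith) (by positivity)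
          linarith
        have h3 : (T : ℝ) * Real.log (1 + Θ) ≤ Real.log (1 + Θ) * (x * (j ^ 2 + T)) := by
          rw [mul_comm]
          apply mul_le_mul_of_nonneg_left _ hl0
          linarith
        have h4 : (T : ℝ) * x ≤ x * (j ^ 2 + T) := by
          have : 0 ≤ x * j ^ 2 := by positivity
          linarith
        have h5 : (2 : ℝ) * T + 2 * j ^ 2 ≤ 2 * (x * (j ^ 2 + T)) := by linarith
        linarith
      have h6 : η ≤ Real.exp (-(2 * j ^ 2)) := by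
        rw [hη, hpow, ← Real.exp_add, ← Real.exp_add]
        exact Real.exp_le_exp.2 hkey
      have h7 : 2 * j ^ 2 ≤ Real.exp (2 * j ^ 2) := by
        have := Real.add_one_le_exp (2 * j ^ 2)
        linarith
      have h8 : 2 * j ^ 2 * Real.exp (-(2 * j ^ 2)) ≤ 1 := by
        calc 2 * j ^ 2 * Real.exp (-(2 * j ^ 2)) ≤ Real.exp (2 * j ^ 2) * Real.exp (-(2 * j ^ 2)) :=
              mul_le_mul_of_nonneg_right h7 (Real.exp_pos _).le
          _ = 1 := by rw [← Real.exp_add]; simp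
      have h9 : j ^ 2 * η ≤ j ^ 2 * Real.exp (-(2 * j ^ 2)) := mul_le_mul_of_nonneg_left h6 hj0
      linarith
    have hpow2 : (1 + ((ρ + 1 : ℕ) : ℝ) * η) ^ (ρ + 1) ≤ 2 := by
      have h1 : 1 + ((ρ + 1 : ℕ) : ℝ) * η ≤ Real.exp (((ρ + 1 : ℕ) : ℝ) * η) := by
        have := Real.add_one_le_exp (((ρ + 1 : ℕ) : ℝ) * η)
        linarith
      have h0 : 0 ≤ ((ρ + 1 : ℕ) : ℝ) * η := by positivity
      calc (1 + ((ρ + 1 : ℕ) : ℝ) * η) ^ (ρ + 1) ≤ (Real.exp (((ρ + 1 : ℕ) : ℝ) * η)) ^ (ρ + 1) :=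
            pow_le_pow_left₀ (by linarith) h1 _
        _ = Real.exp (((ρ + 1 : ℕ) : ℝ) ^ 2 * η) := by
            rw [← Real.exp_nat_mul]
            congr 1
            ring
        _ ≤ Real.exp (1 / 2) := Real.exp_le_exp.2 hj2
        _ ≤ 2 := by
            have h2 : Real.exp (1 / 2) ^ 2 = Real.exp 1 := by
              rw [← Real.exp_nat_mul]
              norm_num
            have h3 : Real.exp 1 < 4 := by
              have := Real.exp_one_lt_d9
              linarith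
            have h4 := Real.exp_pos (1 / 2)
            nlinarith
    have htot : sl θ (wr ε T ρ) ((ρ + 1) * T) W.det ≤ 2 := by
      refine hdet2.trans ?_
      exact hpow2
    have hcoeff : (phi θ W.det).coeff (Finsupp.single 0 ((ρ + 1) * T)) = 1 := by
      rw [Ak_coeff_phi θ hGh]
      have h1 := (MvPolynomial.eval (Fin.cons 1 θ : Fin (m + 1) → ℂ)).map_det W
      rw [h1, RingHom.mapMatrix_apply]
      have h2 : W.map (MvPolynomial.eval (Fin.cons 1 θ : Fin (m + 1) → ℂ)) = 1 := by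
        ext i l
        rw [Matrix.map_apply, hWev, Matrix.one_apply]
      rw [h2, Matrix.det_one]
    have hmem : Finsupp.single 0 ((ρ + 1) * T) ∈ (phi θ W.det).support := by
      rw [mem_support_iff, hcoeff]
      exact one_ne_zero
    have hsplit := Finset.add_sum_erase (phi θ W.det).support (fun d => ‖(phi θ W.det).coeff d‖ * Real.exp (-(wr ε T ρ * ((((ρ + 1) * T : ℕ) : ℝ) - (d 0 : ℕ))))) hmem
    have hfirst : ‖(phi θ W.det).coeff (Finsupp.single 0 ((ρ + 1) * T))‖ * Real.exp (-(wr ε T ρ * ((((ρ + 1) * T : ℕ) : ℝ) - ((Finsupp.single (0 : Fin (m + 1)) ((ρ + 1) * T)) 0 : ℕ)))) = 1 := by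
      rw [hcoeff]
      simp
    have hsl2 : sl θ (wr ε T ρ) ((ρ + 1) * T) W.det = ∑ d ∈ (phi θ W.det).support, ‖(phi θ W.det).coeff d‖ * Real.exp (-(wr ε T ρ * ((((ρ + 1) * T : ℕ) : ℝ) - (d 0 : ℕ)))) := rfl
    rw [hsl2, ← hsplit] at htot
    rw [hfirst] at htot
    linarith



/-- weighted length of a polynomial (after the substitution) -/
private def Al1_W (w τ : ℝ) (N : ℕ) (g : PC m) : ℝ := ∑ d ∈ g.support, ‖g.coeff d‖ * wt w τ N d

private theorem Al1_wt_pos (w τ : ℝ) (N : ℕ) (d : Fin (m + 1) →₀ ℕ) : 0 < wt w τ N d := Real.exp_pos _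

private theorem Al1_W_superset (w τ : ℝ) (N : ℕ) (g : PC m) {S : Finset (Fin (m + 1) →₀ ℕ)} (h : g.support ⊆ S) :
    Al1_W w τ N g = ∑ d ∈ S, ‖g.coeff d‖ * wt w τ N d := by
  unfold Al1_W
  refine Finset.sum_subset h fun d _ hd => ?_
  rw [MvPolynomial.notMem_support_iff.mp hd, norm_zero, zero_mul]

private theorem Al1_W_add (w τ : ℝ) (N : ℕ) (f g : PC m) : Al1_W w τ N (f + g) ≤ Al1_W w τ N f + Al1_W w τ N g := by
  classical
  rw [Al1_W_superset w τ N (f + g) (S := f.support ∪ g.support) MvPolynomial.support_add,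
    Al1_W_superset w τ N f (S := f.support ∪ g.support) Finset.subset_union_left,
    Al1_W_superset w τ N g (S := f.support ∪ g.support) Finset.subset_union_right, ← Finset.sum_add_distrib]
  refine Finset.sum_le_sum fun d _ => ?_
  rw [← add_mul, MvPolynomial.coeff_add]
  exact mul_le_mul_of_nonneg_right (norm_add_le _ _) (Al1_wt_pos w τ N d).le

private theorem Al1_W_zero (w τ : ℝ) (N : ℕ) : Al1_W w τ N (0 : PC m) = 0 := by
  simp [Al1_W]

private theorem Al1_W_sum {ι : Type} (w τ : ℝ) (N : ℕ) (s : Finset ι) (g : ι → PC m) :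
    Al1_W w τ N (∑ i ∈ s, g i) ≤ ∑ i ∈ s, Al1_W w τ N (g i) := by
  classical
  induction s using Finset.induction_on with
  | empty => simp [Al1_W_zero]
  | insert a s ha ih =>
    rw [Finset.sum_insert ha, Finset.sum_insert ha]
    exact (Al1_W_add w τ N _ _).trans (by linarith)

private theorem Al1_W_sign (w τ : ℝ) (N : ℕ) (u : ℤˣ) (g : PC m) : Al1_W w τ N (u • g) = Al1_W w τ N g := by
  rcases Int.units_eq_one_or u with h | h
  · rw [h, one_smul]
  · rw [h]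
    have : ((-1 : ℤˣ) • g : PC m) = -g := by
      rw [Units.smul_def]
      simp
    rw [this]
    unfold Al1_W
    rw [MvPolynomial.support_neg]
    refine Finset.sum_congr rfl fun d _ => ?_
    rw [MvPolynomial.coeff_neg, norm_neg]

private theorem Al1_lC_nonneg (f : PC m) : 0 ≤ lC f := Finset.sum_nonneg fun _ _ => norm_nonneg _

private theorem Al1_lC_one : lC (1 : PC m) ≤ 1 := by
  unfold lC
  have h : (1 : PC m) = monomial 0 1 := rfl
  rw [h]
  refine (Finset.sum_le_sum_of_subset_of_nonneg MvPolynomial.support_monomial_subset fun _ _ _ => norm_nonneg _).trans ?_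
  simp

private theorem Al1_lC_prod (I : Finset (Fin c)) (g : Fin c → PC m) : lC (∏ l ∈ I, g l) ≤ ∏ l ∈ I, lC (g l) := by
  classical
  induction I using Finset.induction_on with
  | empty => simpa using Al1_lC_one
  | insert a s ha ih =>
    rw [Finset.prod_insert ha, Finset.prod_insert ha]
    exact (lC_mul_le _ _).trans (mul_le_mul_of_nonneg_left ih (Al1_lC_nonneg _))

private theorem Al1_P_mul {f g : PC m} {a b a' b' : ℕ} (hf : ∀ d ∈ f.support, d 0 + a ≤ b) (hg : ∀ d ∈ g.support, d 0 + a' ≤ b') :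
    ∀ d ∈ (f * g).support, d 0 + (a + a') ≤ b + b' := by
  classical
  intro d hd
  have h := MvPolynomial.support_mul f g hd
  obtain ⟨x, hx, y, hy, rfl⟩ := Finset.mem_add.mp h
  have h1 := hf x hx
  have h2 := hg y hy
  rw [Finsupp.add_apply]
  omega

private theorem Al1_P_prod (I : Finset (Fin c)) (g : Fin c → PC m) {a b : ℕ} (h : ∀ l, ∀ d ∈ (g l).support, d 0 + a ≤ b) :
    ∀ d ∈ (∏ l ∈ I, g l).support, d 0 + I.card * a ≤ I.card * b := by
  classical
  induction I using Finset.induction_on with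
  | empty =>
    intro d hd
    rw [Finset.prod_empty] at hd
    have h1 : (1 : PC m) = monomial 0 1 := rfl
    rw [h1] at hd
    have h2 := MvPolynomial.support_monomial_subset hd
    rw [Finset.mem_singleton] at h2
    simp [h2]
  | insert x s hx ih =>
    intro d hd
    rw [Finset.prod_insert hx] at hd
    have := Al1_P_mul (h x) ih d hd
    rw [Finset.card_insert_of_notMem hx]
    have e1 : (s.card + 1) * a = a + s.card * a := by ring
    have e2 : (s.card + 1) * b = b + s.card * b := by ring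
    rw [e1, e2]
    exact this

private theorem Al1_W_le_lC {w τ : ℝ} (hw : 0 ≤ w) {N r : ℕ} {g : PC m} (h : ∀ d ∈ g.support, d 0 + r ≤ N) :
    Al1_W w τ N g ≤ Real.exp (w * max 0 (τ * N - r)) * lC g := by
  unfold Al1_W lC
  rw [Finset.mul_sum]
  refine Finset.sum_le_sum fun d hd => ?_
  rw [mul_comm]
  refine mul_le_mul_of_nonneg_right ?_ (norm_nonneg _)
  unfold wt
  refine Real.exp_le_exp.mpr (mul_le_mul_of_nonneg_left (max_le_max le_rfl ?_) hw)
  have h1 : ((d 0 : ℕ) : ℝ) + r ≤ N := by exact_mod_cast h d hd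
  linarith

/-- the part of a form different from the multiple of the power of `x_0` -/
private def Al1_p (T : ℕ) (q : PC m) : PC m := q - C (q.coeff (Finsupp.single 0 T)) * X 0 ^ T

private theorem Al1_CX (b : ℂ) (T : ℕ) : (C b * X 0 ^ T : PC m) = monomial (Finsupp.single 0 T) b := by
  rw [MvPolynomial.C_mul_X_pow_eq_monomial]

private theorem Al1_p_coeff (T : ℕ) (q : PC m) (d : Fin (m + 1) →₀ ℕ) :
    (Al1_p T q).coeff d = if d = Finsupp.single 0 T then 0 else q.coeff d := by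
  classical
  unfold Al1_p
  rw [MvPolynomial.coeff_sub, Al1_CX, MvPolynomial.coeff_monomial]
  split_ifs with h1 h2 h2
  · rw [← h1, sub_self]
  · exact absurd h1.symm h2
  · exact absurd h2.symm h1
  · rw [sub_zero]

private theorem Al1_p_lC (T : ℕ) (q : PC m) : lC (Al1_p T q) ≤ lC q := by
  classical
  unfold lC
  have hsub : (Al1_p T q).support ⊆ q.support := by
    intro d hd
    rw [MvPolynomial.mem_support_iff] at hd ⊢
    rw [Al1_p_coeff] at hd
    split_ifs at hd with h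
    · exact absurd rfl hd
    · exact hd
  refine (Finset.sum_le_sum_of_subset_of_nonneg hsub fun _ _ _ => norm_nonneg _).trans (Finset.sum_le_sum fun d _ => ?_)
  rw [Al1_p_coeff]
  split_ifs
  · rw [norm_zero]; exact norm_nonneg _
  · exact le_rfl

private theorem Al1_p_P {T : ℕ} {q : PC m} (hq : q.IsHomogeneous T) : ∀ d ∈ (Al1_p T q).support, d 0 + 1 ≤ T := by
  classical
  intro d hd
  rw [MvPolynomial.mem_support_iff, Al1_p_coeff] at hd
  split_ifs at hd with h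
  · exact absurd rfl hd
  · have h1 : d.degree = T := by
      by_contra hne
      exact hd (hq.coeff_eq_zero hne)
    have h2 : d 0 ≤ d.degree := Finsupp.le_degree 0 d
    by_contra hcon
    have h3 : d 0 = T := by omega
    apply h
    have h4 : d 0 + ∑ i : Fin m, d i.succ = T := by
      rw [← h1, Finsupp.degree_eq_sum, Fin.sum_univ_succ]
    have h5 : ∀ i : Fin m, d i.succ = 0 := by
      intro i
      have : d i.succ ≤ ∑ i : Fin m, d i.succ :=
        Finset.single_le_sum (f := fun i : Fin m => d i.succ) (fun _ _ => Nat.zero_le _) (Finset.mem_univ i)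
      omega
    ext i
    refine Fin.cases ?_ (fun i => ?_) i
    · simp [h3]
    · rw [h5 i, Finsupp.single_apply, if_neg (Fin.succ_ne_zero i).symm]

private theorem Al1_b_P (T : ℕ) (b : ℂ) : ∀ d ∈ (C b * X 0 ^ T : PC m).support, d 0 + 0 ≤ T := by
  intro d hd
  rw [Al1_CX] at hd
  have h2 := MvPolynomial.support_monomial_subset hd
  rw [Finset.mem_singleton] at h2
  simp [h2]

private theorem Al1_b_lC (T : ℕ) (b : ℂ) : lC (C b * X 0 ^ T : PC m) ≤ ‖b‖ := by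
  unfold lC
  rw [Al1_CX]
  refine (Finset.sum_le_sum_of_subset_of_nonneg MvPolynomial.support_monomial_subset fun _ _ _ => norm_nonneg _).trans ?_
  simp

/-- a product of forms -/
private theorem Al1_prod {w τ : ℝ} (hw : 0 ≤ w) {ρ T : ℕ} (q : Fin ρ → PC m) (hq : ∀ l, (q l).IsHomogeneous T)
    (s : Fin ρ → ℝ) {lam : ℝ} (hb : ∀ l, ‖(q l).coeff (Finsupp.single 0 T)‖ ≤ s l) (hp : ∀ l, lC (q l) ≤ lam) :
    Al1_W w τ (ρ * T) (∏ l, q l) ≤ ∑ I : Finset (Fin ρ), Real.exp (w * max 0 (τ * (ρ * T : ℕ) - I.card)) * lam ^ I.card * ∏ l ∈ Iᶜ, s l := by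
  classical
  have hexp : ∏ l, q l = ∑ I : Finset (Fin ρ), (∏ l ∈ I, Al1_p T (q l)) * ∏ l ∈ Iᶜ, (C ((q l).coeff (Finsupp.single 0 T)) * X 0 ^ T : PC m) := by
    have h1 : ∀ l, q l = Al1_p T (q l) + C ((q l).coeff (Finsupp.single 0 T)) * X 0 ^ T := by
      intro l; unfold Al1_p; ring
    calc ∏ l, q l = ∏ l, (Al1_p T (q l) + C ((q l).coeff (Finsupp.single 0 T)) * X 0 ^ T) :=
          Finset.prod_congr rfl fun l _ => h1 l
      _ = ∑ I ∈ (Finset.univ : Finset (Fin ρ)).powerset, (∏ l ∈ I, Al1_p T (q l)) * ∏ l ∈ Finset.univ \ I, (C ((q l).coeff (Finsupp.single 0 T)) * X 0 ^ T : PC m) :=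
          Finset.prod_add _ _ _
      _ = _ := by rw [Finset.powerset_univ]; rfl
  rw [hexp]
  refine (Al1_W_sum w τ _ _ _).trans (Finset.sum_le_sum fun I _ => ?_)
  have hP : ∀ d ∈ ((∏ l ∈ I, Al1_p T (q l)) * ∏ l ∈ Iᶜ, (C ((q l).coeff (Finsupp.single 0 T)) * X 0 ^ T : PC m)).support,
      d 0 + I.card ≤ ρ * T := by
    intro d hd
    have h1 := Al1_P_mul (Al1_P_prod I (fun l => Al1_p T (q l)) (fun l => Al1_p_P (hq l)))
      (Al1_P_prod Iᶜ (fun l => (C ((q l).coeff (Finsupp.single 0 T)) * X 0 ^ T : PC m)) (fun l => Al1_b_P T _)) d hd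
    have h2 : I.card + Iᶜ.card = ρ := by rw [Finset.card_add_card_compl, Fintype.card_fin]
    have h3 : (I.card + Iᶜ.card) * T = I.card * T + Iᶜ.card * T := by ring
    rw [h2] at h3
    rw [h3]
    simpa using h1
  have hmul : lC ((∏ l ∈ I, Al1_p T (q l)) * ∏ l ∈ Iᶜ, (C ((q l).coeff (Finsupp.single 0 T)) * X 0 ^ T : PC m)) ≤ lam ^ I.card * ∏ l ∈ Iᶜ, s l := by
    refine (lC_mul_le _ _).trans (mul_le_mul ?_ ?_ (Al1_lC_nonneg _) ?_)
    · refine (Al1_lC_prod I _).trans ?_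
      rw [← Finset.prod_const]
      exact Finset.prod_le_prod (fun _ _ => Al1_lC_nonneg _) fun l _ => (Al1_p_lC T (q l)).trans (hp l)
    · refine (Al1_lC_prod Iᶜ _).trans ?_
      exact Finset.prod_le_prod (fun _ _ => Al1_lC_nonneg _) fun l _ => (Al1_b_lC T _).trans (hb l)
    · rcases I.eq_empty_or_nonempty with h | ⟨l, _⟩
      · rw [h]; simp
      · exact pow_nonneg ((Al1_lC_nonneg (q l)).trans (hp l)) _
  calc Al1_W w τ (ρ * T) _ ≤ Real.exp (w * max 0 (τ * (ρ * T : ℕ) - I.card)) * lC _ := Al1_W_le_lC hw hP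
    _ ≤ Real.exp (w * max 0 (τ * (ρ * T : ℕ) - I.card)) * (lam ^ I.card * ∏ l ∈ Iᶜ, s l) :=
        mul_le_mul_of_nonneg_left hmul (Real.exp_pos _).le
    _ = _ := by ring

/-- row Al1: the weighted length of a determinant -/
theorem wl_det (θ : Fin m → ℂ) {w τ : ℝ} (hw : 0 ≤ w) (hτ : 0 ≤ τ) {ρ T : ℕ} (A : Matrix (Fin ρ) (Fin ρ) (PC m)) (hA : ∀ i l, (A i l).IsHomogeneous T)
    (s : Fin ρ → ℝ) {lam : ℝ} (hlam : 1 ≤ lam) (hb : ∀ i l, ‖(phi θ (A i l)).coeff (Finsupp.single 0 T)‖ ≤ s l) (hp : ∀ i l, lC (phi θ (A i l)) ≤ lam) :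
    wl θ w τ (ρ * T) A.det ≤ (ρ.factorial : ℝ) * ∑ I : Finset (Fin ρ), Real.exp (w * max 0 (τ * (ρ * T : ℕ) - I.card)) * lam ^ I.card * ∏ l ∈ Iᶜ, s l := by
  classical
  have h0 : wl θ w τ (ρ * T) A.det = Al1_W w τ (ρ * T) (phi θ A.det) := rfl
  have h1 : phi θ A.det = ∑ σ : Equiv.Perm (Fin ρ), Equiv.Perm.sign σ • ∏ l, phi θ (A (σ l) l) := by
    rw [AlgHom.map_det, Matrix.det_apply]
    rfl
  rw [h0, h1]
  refine (Al1_W_sum w τ _ _ _).trans ?_
  have h2 : ∀ σ ∈ (Finset.univ : Finset (Equiv.Perm (Fin ρ))), Al1_W w τ (ρ * T) (Equiv.Perm.sign σ • ∏ l, phi θ (A (σ l) l)) ≤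
      ∑ I : Finset (Fin ρ), Real.exp (w * max 0 (τ * (ρ * T : ℕ) - I.card)) * lam ^ I.card * ∏ l ∈ Iᶜ, s l := by
    intro σ _
    rw [Al1_W_sign]
    exact Al1_prod hw (fun l => phi θ (A (σ l) l)) (fun l => phi_hom θ (hA _ _)) s (fun l => hb _ _) (fun l => hp _ _)
  refine (Finset.sum_le_sum h2).trans ?_
  rw [Finset.sum_const, Finset.card_univ, Fintype.card_perm, Fintype.card_fin, nsmul_eq_mul]



theorem Al2_sq (S : Finset ℕ) : ((S.card : ℕ) : ℝ) ^ 3 / 3 ≤ ∑ l ∈ S, ((l : ℝ) + 1) ^ 2 := by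
  induction S using Finset.induction_on_max with
  | empty => simp
  | insert a s ha ih =>
    have hna : a ∉ s := fun h => lt_irrefl _ (ha a h)
    rw [Finset.sum_insert hna, Finset.card_insert_of_notMem hna]
    have hc : s.card ≤ a := by
      have : s ⊆ Finset.range a := fun x hx => Finset.mem_range.2 (ha x hx)
      simpa using Finset.card_le_card this
    have hc' : (s.card : ℝ) ≤ a := by exact_mod_cast hc
    have h0 : (0 : ℝ) ≤ s.card := by positivity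
    push_cast
    nlinarith

theorem Al2_sqFin {ρ : ℕ} (S : Finset (Fin ρ)) : ((S.card : ℕ) : ℝ) ^ 3 / 3 ≤ ∑ l ∈ S, (((l : ℕ) : ℝ) + 1) ^ 2 := by
  have h := Al2_sq (S.map Fin.valEmbedding)
  rw [Finset.card_map, Finset.sum_map] at h
  exact h

theorem Al2_evphi (θ : Fin m → ℂ) (f : PC m) :
    MvPolynomial.eval (Fin.cons 1 (fun _ => 0) : Fin (m + 1) → ℂ) (phi θ f) = MvPolynomial.eval (Fin.cons 1 θ : Fin (m + 1) → ℂ) f := by
  induction f using MvPolynomial.induction_on with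
  | C a => simp [phi]
  | add p q hp hq => simp only [map_add, hp, hq]
  | mul_X p i hp =>
    simp only [map_mul, hp]
    congr 1
    refine Fin.cases ?_ (fun j => ?_) i
    · simp [phi]
    · simp [phi]

theorem Al2_coeff {T : ℕ} {g : PC m} (hg : g.IsHomogeneous T) :
    MvPolynomial.eval (Fin.cons 1 (fun _ => 0) : Fin (m + 1) → ℂ) g = g.coeff (Finsupp.single 0 T) := by
  rw [MvPolynomial.eval_eq']
  rw [Finset.sum_eq_single (Finsupp.single 0 T)]
  · have : ∏ i : Fin (m + 1), (Fin.cons 1 (fun _ => 0) : Fin (m + 1) → ℂ) i ^ ((Finsupp.single 0 T : Fin (m + 1) →₀ ℕ) i) = 1 := by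
      rw [Fin.prod_univ_succ]
      simp
    rw [this, mul_one]
  · intro d hd hne
    have hdeg := hg (MvPolynomial.mem_support_iff.1 hd)
    have : ∃ i : Fin m, d i.succ ≠ 0 := by
      by_contra hcon
      push Not at hcon
      apply hne
      ext i
      refine Fin.cases ?_ (fun j => ?_) i
      · have : d.degree = T := by
          rw [← hdeg]
          simp only [Finsupp.weight_apply, Finsupp.sum, Pi.one_apply, smul_eq_mul, mul_one]
          rfl
        rw [Finsupp.degree_eq_sum, Fin.sum_univ_succ] at this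
        simp only [hcon, Finset.sum_const_zero, add_zero] at this
        simp [this]
      · rw [hcon j]
        simp
    obtain ⟨i, hi⟩ := this
    have hz : ∏ i : Fin (m + 1), (Fin.cons 1 (fun _ => 0) : Fin (m + 1) → ℂ) i ^ d i = 0 := by
      apply Finset.prod_eq_zero (Finset.mem_univ i.succ)
      simp [hi]
    rw [hz, mul_zero]
  · intro h
    rw [MvPolynomial.notMem_support_iff.1 h, zero_mul]

theorem Al2_top (θ : Fin m → ℂ) {T : ℕ} {f : PC m} (hf : f.IsHomogeneous T) :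
    (phi θ f).coeff (Finsupp.single 0 T) = MvPolynomial.eval (Fin.cons 1 θ : Fin (m + 1) → ℂ) f := by
  rw [← Al2_coeff (phi_hom θ hf), Al2_evphi]

theorem Al2_zc_eval (x : Fin (m + 1) → ℂ) (f : PZ m) : MvPolynomial.eval x (zc f) = MvPolynomial.aeval x f := by
  unfold zc
  rw [MvPolynomial.eval_map, MvPolynomial.aeval_def]
  rfl

theorem Al2_lC_C (a : ℂ) (f : PC m) : lC (C a * f) ≤ ‖a‖ * lC f := by
  unfold lC
  rw [Finset.mul_sum]
  have hs : (C a * f).support ⊆ f.support := by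
    intro d hd
    rw [MvPolynomial.mem_support_iff] at hd ⊢
    rw [MvPolynomial.coeff_C_mul] at hd
    exact right_ne_zero_of_mul hd
  calc ∑ d ∈ (C a * f).support, ‖(C a * f).coeff d‖ ≤ ∑ d ∈ f.support, ‖(C a * f).coeff d‖ :=
        Finset.sum_le_sum_of_subset_of_nonneg hs (fun _ _ _ => norm_nonneg _)
    _ = ∑ d ∈ f.support, ‖a‖ * ‖f.coeff d‖ := by
        refine Finset.sum_congr rfl (fun d _ => ?_)
        rw [MvPolynomial.coeff_C_mul, norm_mul]

theorem Al2_lC_zero : lC (0 : PC m) = 0 := by simp [lC]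

theorem Al2_lC_sum {ι : Type} (s : Finset ι) (f : ι → PC m) : lC (∑ i ∈ s, f i) ≤ ∑ i ∈ s, lC (f i) := by
  classical
  induction s using Finset.induction_on with
  | empty => simp [Al2_lC_zero]
  | insert a s ha ih =>
    rw [Finset.sum_insert ha, Finset.sum_insert ha]
    exact (lC_add_le _ _).trans (by linarith)

/-- the matrix `zc B` times a complex matrix -/
def Al2_A {ρ : ℕ} (B : Matrix (Fin ρ) (Fin ρ) (PZ m)) (E : Matrix (Fin ρ) (Fin ρ) ℂ) : Matrix (Fin ρ) (Fin ρ) (PC m) :=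
  (B.map zc) * (E.map C)

theorem Al2_A_apply {ρ : ℕ} (B : Matrix (Fin ρ) (Fin ρ) (PZ m)) (E : Matrix (Fin ρ) (Fin ρ) ℂ) (i l : Fin ρ) :
    Al2_A B E i l = ∑ j, C (E j l) * zc (B i j) := by
  simp only [Al2_A, Matrix.mul_apply, Matrix.map_apply]
  exact Finset.sum_congr rfl (fun j _ => mul_comm _ _)

theorem Al2_zc_hom {T : ℕ} {f : PZ m} (hf : f.IsHomogeneous T) : (zc f).IsHomogeneous T := hf.map _

theorem Al2_A_hom {ρ T : ℕ} (B : Matrix (Fin ρ) (Fin ρ) (PZ m)) (hB : ∀ i j, (B i j).IsHomogeneous T) (E : Matrix (Fin ρ) (Fin ρ) ℂ) (i l : Fin ρ) :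
    (Al2_A B E i l).IsHomogeneous T := by
  rw [Al2_A_apply]
  apply MvPolynomial.IsHomogeneous.sum
  intro j _
  have := (MvPolynomial.isHomogeneous_C (Fin (m + 1)) (E j l)).mul (Al2_zc_hom (hB i j))
  simpa using this

theorem Al2_A_det {ρ : ℕ} (B : Matrix (Fin ρ) (Fin ρ) (PZ m)) (E : Matrix (Fin ρ) (Fin ρ) ℂ) :
    (Al2_A B E).det = C E.det * zc B.det := by
  unfold Al2_A
  rw [Matrix.det_mul, mul_comm]
  congr 1
  · have := RingHom.map_det (C : ℂ →+* PC m) E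
    rw [this]; rfl
  · have := RingHom.map_det (MvPolynomial.map (Int.castRingHom ℂ) : PZ m →+* PC m) B
    show _ = (MvPolynomial.map (Int.castRingHom ℂ)) B.det
    rw [this]; rfl

theorem Al2_A_top (θ : Fin m → ℂ) {ρ T : ℕ} (B : Matrix (Fin ρ) (Fin ρ) (PZ m)) (hB : ∀ i j, (B i j).IsHomogeneous T) (E : Matrix (Fin ρ) (Fin ρ) ℂ) (i l : Fin ρ) :
    (phi θ (Al2_A B E i l)).coeff (Finsupp.single 0 T) = (evM (Fin.cons 1 θ : Fin (m + 1) → ℂ) B * E) i l := by
  rw [Al2_top θ (Al2_A_hom B hB E i l), Al2_A_apply, map_sum, Matrix.mul_apply]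
  refine Finset.sum_congr rfl (fun j _ => ?_)
  rw [map_mul, MvPolynomial.eval_C, Al2_zc_eval, mul_comm]
  rfl

theorem Al2_A_len (θ : Fin m → ℂ) {Θ : ℝ} (hΘ : ∀ i, ‖θ i‖ ≤ Θ) (hΘ0 : 0 ≤ Θ) {ρ T : ℕ} (B : Matrix (Fin ρ) (Fin ρ) (PZ m))
    (hB : ∀ i j, (B i j).IsHomogeneous T) (E : Matrix (Fin ρ) (Fin ρ) ℂ) {P : ℝ} (hlen : ∀ i j, len (B i j) ≤ Real.exp P)
    (hE : ∀ i j, ‖E i j‖ ≤ Real.exp P) (i l : Fin ρ) :
    lC (phi θ (Al2_A B E i l)) ≤ ρ * (Real.exp (2 * P) * (1 + Θ) ^ T) := by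
  rw [Al2_A_apply, map_sum]
  refine (Al2_lC_sum _ _).trans ?_
  have : ∀ j ∈ (Finset.univ : Finset (Fin ρ)), lC (phi θ (C (E j l) * zc (B i j))) ≤ Real.exp (2 * P) * (1 + Θ) ^ T := by
    intro j _
    rw [map_mul]
    have h1 : phi θ (C (E j l)) = C (E j l) := by simp [phi]
    rw [h1]
    refine (Al2_lC_C _ _).trans ?_
    have h2 := lC_phi_le θ hΘ hΘ0 (Al2_zc_hom (hB i j))
    rw [lC_zc] at h2
    have h3 : (0 : ℝ) < (1 + Θ) ^ T := by positivity
    have h4 : lC (phi θ (zc (B i j))) ≤ (1 + Θ) ^ T * Real.exp P := h2.trans (mul_le_mul_of_nonneg_left (hlen i j) h3.le)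
    have h5 : 0 ≤ lC (phi θ (zc (B i j))) := by unfold lC; positivity
    calc ‖E j l‖ * lC (phi θ (zc (B i j))) ≤ Real.exp P * ((1 + Θ) ^ T * Real.exp P) :=
          mul_le_mul (hE j l) h4 h5 (Real.exp_pos _).le
      _ = Real.exp (2 * P) * (1 + Θ) ^ T := by
          rw [two_mul, Real.exp_add]; ring
  refine (Finset.sum_le_sum this).trans ?_
  simp

/-- the elementary part: bound of the sum over the subsets -/
theorem Al2_main {ρ T : ℕ} (hρ : 1 ≤ ρ) (hT : 1 ≤ T) {w τ c0 P : ℝ} (hw : 0 ≤ w) (hc0 : 0 < c0) (hP : (T : ℝ) ≤ P)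
    (hτ : τ * T ≤ 1 / 2) (hτ0 : 0 ≤ τ) (hww : w * (τ * T) ≤ c0 / 24 * ρ ^ 2 + T) (hρP : Real.log ρ + Real.log 2 ≤ P) :
    (ρ.factorial : ℝ) * ∑ I : Finset (Fin ρ), Real.exp (w * max 0 (τ * (ρ * T : ℕ) - I.card)) * (Real.exp (3 * P)) ^ I.card *
      ∏ l ∈ Iᶜ, Real.exp (-c0 * ((l : ℕ) + 1 : ℝ) ^ 2 + P) ≤ Real.exp (5 * P * ρ) := by
  have hP0 : (0 : ℝ) ≤ P := le_trans (by positivity) hP
  have hρ0 : (0 : ℝ) < ρ := by exact_mod_cast hρ
  have hT0 : (0 : ℝ) < T := by exact_mod_cast hT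
  have hterm : ∀ I : Finset (Fin ρ), Real.exp (w * max 0 (τ * (ρ * T : ℕ) - I.card)) * (Real.exp (3 * P)) ^ I.card *
      ∏ l ∈ Iᶜ, Real.exp (-c0 * ((l : ℕ) + 1 : ℝ) ^ 2 + P) ≤ Real.exp (4 * P * ρ) := by
    intro I
    rw [← Real.exp_sum, ← Real.exp_nat_mul, ← Real.exp_add, ← Real.exp_add]
    apply Real.exp_le_exp.2
    rw [Finset.sum_add_distrib, ← Finset.mul_sum]
    have hcard : (I.card : ℝ) + (Iᶜ.card : ℝ) = ρ := by
      have := Finset.card_add_card_compl I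
      rw [Fintype.card_fin] at this
      exact_mod_cast this
    have hsq := Al2_sqFin Iᶜ
    rw [Finset.sum_const, nsmul_eq_mul]
    set S := ∑ l ∈ Iᶜ, (((l : ℕ) : ℝ) + 1) ^ 2 with hS
    have hI0 : (0 : ℝ) ≤ I.card := by positivity
    have hIc0 : (0 : ℝ) ≤ Iᶜ.card := by positivity
    have hS0 : 0 ≤ S := by rw [hS]; positivity
    have key : w * max 0 (τ * (ρ * T : ℕ) - I.card) - c0 * S ≤ P * ρ := by
      rcases le_or_gt (τ * (ρ * T : ℕ)) I.card with h | h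
      · rw [max_eq_left (by linarith), mul_zero]
        have : 0 ≤ c0 * S := by positivity
        have : 0 ≤ P * ρ := by positivity
        linarith
      · rw [max_eq_right (by linarith)]
        push_cast at h ⊢
        have h1 : (I.card : ℝ) ≤ ρ / 2 := by
          have : τ * (ρ * T) ≤ ρ * (1 / 2) := by
            calc τ * (ρ * T) = ρ * (τ * T) := by ring
              _ ≤ ρ * (1 / 2) := mul_le_mul_of_nonneg_left hτ hρ0.le
          linarith
        have h2 : (ρ : ℝ) / 2 ≤ Iᶜ.card := by linarith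
        have h3 : ((ρ : ℝ) / 2) ^ 3 ≤ (Iᶜ.card : ℝ) ^ 3 := pow_le_pow_left₀ (by positivity) h2 3
        have h4 : (ρ : ℝ) ^ 3 / 24 ≤ S := by
          have : ((ρ : ℝ) / 2) ^ 3 / 3 = (ρ : ℝ) ^ 3 / 24 := by ring
          linarith
        have h5 : w * (τ * (ρ * T) - I.card) ≤ ρ * (w * (τ * T)) := by
          have : 0 ≤ w * I.card := by positivity
          nlinarith
        have h6 : ρ * (w * (τ * T)) ≤ ρ * (c0 / 24 * ρ ^ 2 + T) := mul_le_mul_of_nonneg_left hww hρ0.le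
        have h7 : ρ * (c0 / 24 * (ρ : ℝ) ^ 2 + T) = c0 * ((ρ : ℝ) ^ 3 / 24) + T * ρ := by ring
        have h8 : c0 * ((ρ : ℝ) ^ 3 / 24) ≤ c0 * S := mul_le_mul_of_nonneg_left h4 hc0.le
        have h9 : (T : ℝ) * ρ ≤ P * ρ := mul_le_mul_of_nonneg_right hP hρ0.le
        linarith
    have h10 : P * (Iᶜ.card : ℝ) ≤ 3 * P * Iᶜ.card := by nlinarith
    have h11 : (I.card : ℝ) * (3 * P) + 3 * P * Iᶜ.card = 3 * P * ρ := by rw [← hcard]; ring
    linarith
  have hsum : ∑ I : Finset (Fin ρ), Real.exp (w * max 0 (τ * (ρ * T : ℕ) - I.card)) * (Real.exp (3 * P)) ^ I.card *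
      ∏ l ∈ Iᶜ, Real.exp (-c0 * ((l : ℕ) + 1 : ℝ) ^ 2 + P) ≤ 2 ^ ρ * Real.exp (4 * P * ρ) := by
    refine (Finset.sum_le_sum (fun I _ => hterm I)).trans ?_
    rw [Finset.sum_const, nsmul_eq_mul]
    simp
  have hfac : (ρ.factorial : ℝ) ≤ (ρ : ℝ) ^ ρ := by exact_mod_cast Nat.factorial_le_pow ρ
  have h2 : (ρ : ℝ) ^ ρ = Real.exp (ρ * Real.log ρ) := by
    rw [Real.exp_nat_mul, Real.exp_log hρ0]
  have h3 : (2 : ℝ) ^ ρ = Real.exp (ρ * Real.log 2) := by
    rw [Real.exp_nat_mul, Real.exp_log (by norm_num)]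
  calc _ ≤ (ρ : ℝ) ^ ρ * (2 ^ ρ * Real.exp (4 * P * ρ)) := by
        refine mul_le_mul hfac hsum ?_ (by positivity)
        positivity
    _ = Real.exp (ρ * Real.log ρ + (ρ * Real.log 2 + 4 * P * ρ)) := by
        rw [h2, h3, Real.exp_add, Real.exp_add]
    _ ≤ Real.exp (5 * P * ρ) := by
        apply Real.exp_le_exp.2
        nlinarith

/-- the conditions on `T` -/
theorem Al2_large (k : ℕ) (Θ : ℝ) {ε c0 : ℝ} (hε : 0 < ε) (hc : 0 < c0) :
    ∃ T0 : ℕ, ∀ T : ℕ, T0 ≤ T → 1 ≤ T ∧ 5 ≤ (T : ℝ) ^ ε ∧ 4 * (T : ℝ) ^ (-2 * ε) ≤ c0 / 24 ∧ (T : ℝ) ^ (-4 * ε) ≤ 1 / 2 ∧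
      (((k : ℝ) + 1) / 2 + 10 * ((k : ℝ) + 2) * ε) * Real.log T + Real.log 2 ≤ (T : ℝ) ^ (1 + ε) ∧
      (((k : ℝ) + 1) / 2 + 10 * ((k : ℝ) + 2) * ε) * Real.log T + T * Real.log (1 + Θ) ≤ (T : ℝ) ^ (1 + ε) := by
  have hcast : Filter.Tendsto (fun n : ℕ => (n : ℝ)) Filter.atTop Filter.atTop := tendsto_natCast_atTop_atTop
  have e1 : ∀ᶠ T : ℝ in Filter.atTop, 5 ≤ T ^ ε := (tendsto_rpow_atTop hε).eventually_ge_atTop 5
  have e2 : ∀ᶠ T : ℝ in Filter.atTop, T ^ (-2 * ε) ≤ c0 / 96 := by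
    have : Filter.Tendsto (fun T : ℝ => T ^ (-(2 * ε))) Filter.atTop (nhds 0) := tendsto_rpow_neg_atTop (by positivity)
    have := this.eventually_le_const (show (0 : ℝ) < c0 / 96 by positivity)
    filter_upwards [this] with T hT
    rwa [show -2 * ε = -(2 * ε) by ring]
  have e3 : ∀ᶠ T : ℝ in Filter.atTop, T ^ (-4 * ε) ≤ 1 / 2 := by
    have : Filter.Tendsto (fun T : ℝ => T ^ (-(4 * ε))) Filter.atTop (nhds 0) := tendsto_rpow_neg_atTop (by positivity)
    have := this.eventually_le_const (show (0 : ℝ) < 1 / 2 by positivity)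
    filter_upwards [this] with T hT
    rwa [show -4 * ε = -(4 * ε) by ring]
  set K := (((k : ℝ) + 1) / 2 + 10 * ((k : ℝ) + 2) * ε) with hK
  have hK0 : 0 ≤ K := by positivity
  -- `K log T + a T + b ≤ T^(1+ε)` eventually
  have e4 : ∀ a : ℝ, 0 ≤ a → ∀ᶠ T : ℝ in Filter.atTop, K * Real.log T + a * T ≤ T ^ (1 + ε) := by
    intro a ha
    have f1 : ∀ᶠ T : ℝ in Filter.atTop, K + a ≤ T ^ ε := (tendsto_rpow_atTop hε).eventually_ge_atTop _
    filter_upwards [f1, Filter.eventually_ge_atTop 1] with T h1 h2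
    have h3 : Real.log T ≤ T := (Real.log_le_sub_one_of_pos (by linarith)).trans (by linarith)
    have h4 : T ^ (1 + ε) = T * T ^ ε := by rw [Real.rpow_add (by linarith), Real.rpow_one]
    rw [h4]
    have h5 : T * (K + a) ≤ T * T ^ ε := mul_le_mul_of_nonneg_left h1 (by linarith)
    nlinarith
  have e5 := e4 (|Real.log (1 + Θ)|) (abs_nonneg _)
  have e6 := e4 1 (by norm_num)
  have hall := hcast.eventually (((((e1.and e2).and e3).and e5).and e6).and (Filter.eventually_ge_atTop 1))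
  obtain ⟨T0, hT0⟩ := Filter.eventually_atTop.1 hall
  refine ⟨T0, fun T hT => ?_⟩
  obtain ⟨⟨⟨⟨⟨h1, h2⟩, h3⟩, h5⟩, h6⟩, h7⟩ := hT0 T hT
  refine ⟨by exact_mod_cast h7, h1, by linarith, h3, ?_, ?_⟩
  · have : Real.log 2 ≤ 1 := by
      have := Real.log_two_lt_d9
      linarith
    linarith
  · have : (T : ℝ) * Real.log (1 + Θ) ≤ |Real.log (1 + Θ)| * T := by
      rw [mul_comm]
      exact mul_le_mul_of_nonneg_right (le_abs_self _) (by linarith)
    linarith

/-- row Al2: the determinants are small -/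
theorem smallD (m k : ℕ) (θ : Fin m → ℂ) {ε c0 : ℝ} (hε : 0 < ε) (hε1 : ε ≤ 1) (hc : 0 < c0) :
    ∃ T0 : ℕ, ∀ T : ℕ, T0 ≤ T → ∀ (ι κ : Type) [Fintype ι] [Fintype κ] (B : Matrix ι κ (PZ m)), HMat k θ ε c0 T B →
      ∀ ρ : ℕ, 1 ≤ ρ → (ρ : ℝ) ≤ RR k ε T → ∀ (r : Fin ρ → ι) (c : Fin ρ → κ), ∀ w' : ℝ, 0 ≤ w' → w' ≤ wr ε T ρ →
        Real.log (wl θ w' (tau ε T) (ρ * T) (zc (B.submatrix r c).det)) ≤ kap ε T * ((ρ * T : ℕ) : ℝ) := by
  classical
  set Θ : ℝ := ∑ i, ‖θ i‖ with hΘdef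
  have hΘ0 : 0 ≤ Θ := by rw [hΘdef]; positivity
  have hΘ : ∀ i, ‖θ i‖ ≤ Θ := fun i => Finset.single_le_sum (f := fun i => ‖θ i‖) (fun _ _ => norm_nonneg _) (Finset.mem_univ i)
  obtain ⟨T0, hT0⟩ := Al2_large k Θ hε hc
  refine ⟨T0, fun T hT ι κ _ _ B hB ρ hρ hρR r c w' hw0 hw' => ?_⟩
  obtain ⟨hT1, h5, h4c, hhalf, hlog2, hlogΘ⟩ := hT0 T hT
  have hTpos : (0 : ℝ) < T := by exact_mod_cast hT1
  have hT1' : (1 : ℝ) ≤ T := by exact_mod_cast hT1
  have hρpos : (0 : ℝ) < ρ := by exact_mod_cast hρ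
  have hρ1 : (1 : ℝ) ≤ ρ := by exact_mod_cast hρ
  set P : ℝ := (T : ℝ) ^ (1 + ε) with hP
  have hPT : (T : ℝ) ≤ P := by
    rw [hP]
    nth_rewrite 1 [← Real.rpow_one (T : ℝ)]
    exact Real.rpow_le_rpow_of_exponent_le hT1' (by linarith)
  have hlogρ : Real.log ρ ≤ (((k : ℝ) + 1) / 2 + 10 * ((k : ℝ) + 2) * ε) * Real.log T := by
    have := Real.log_le_log hρpos hρR
    rw [RR, Real.log_rpow hTpos] at this
    exact this
  obtain ⟨E, hE1, hE2, hE3⟩ := hB.ub ρ hρ hρR r c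
  set A := Al2_A (B.submatrix r c) E with hA
  have hhom : ∀ i j, ((B.submatrix r c) i j).IsHomogeneous T := fun i j => hB.deg _ _
  have hlam : (ρ : ℝ) * (Real.exp (2 * P) * (1 + Θ) ^ T) ≤ Real.exp (3 * P) := by
    have h1 : (ρ : ℝ) = Real.exp (Real.log ρ) := (Real.exp_log hρpos).symm
    have h2 : (1 + Θ) ^ T = Real.exp (T * Real.log (1 + Θ)) := by
      rw [Real.exp_nat_mul, Real.exp_log (by linarith)]
    rw [h2, h1, ← Real.exp_add, ← Real.exp_add]
    apply Real.exp_le_exp.2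
    linarith
  have hbd := wl_det θ hw0 (τ := tau ε T) (by unfold tau; positivity) A (Al2_A_hom _ hhom E)
    (fun l : Fin ρ => Real.exp (-c0 * ((l : ℕ) + 1 : ℝ) ^ 2 + P)) (lam := Real.exp (3 * P))
    (Real.one_le_exp (by linarith)) (fun i l => by
      rw [hA, Al2_A_top θ _ hhom]
      exact hE3 i l) (fun i l => (Al2_A_len θ hΘ hΘ0 _ hhom E (fun i j => hB.len _ _) hE2 i l).trans hlam)
  have hτT : tau ε T * T = (T : ℝ) ^ (-4 * ε) := by
    unfold tau
    have : (T : ℝ) ^ (-1 - 4 * ε) * T = (T : ℝ) ^ (-1 - 4 * ε) * (T : ℝ) ^ (1 : ℝ) := by rw [Real.rpow_one]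
    rw [this, ← Real.rpow_add hTpos]
    congr 1
    ring
  have hmain := Al2_main (ρ := ρ) (T := T) hρ hT1 (w := w') (τ := tau ε T) (c0 := c0) (P := P) hw0 hc hPT (by rw [hτT]; exact hhalf)
    (by unfold tau; positivity) (by
      rw [hτT]
      have h1 : w' * (T : ℝ) ^ (-4 * ε) ≤ wr ε T ρ * (T : ℝ) ^ (-4 * ε) := mul_le_mul_of_nonneg_right hw' (by positivity)
      have h2 : wr ε T ρ * (T : ℝ) ^ (-4 * ε) = (T : ℝ) ^ (-2 * ε) * (((ρ : ℝ) + 1) ^ 2 + T) := by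
        unfold wr
        have : (T : ℝ) ^ (2 * ε) * (T : ℝ) ^ (-4 * ε) = (T : ℝ) ^ (-2 * ε) := by
          rw [← Real.rpow_add hTpos]; congr 1; ring
        rw [← this]; ring
      have h3 : (T : ℝ) ^ (-2 * ε) ≤ 1 := Real.rpow_le_one_of_one_le_of_nonpos hT1' (by linarith)
      have h4 : (0 : ℝ) < (T : ℝ) ^ (-2 * ε) := by positivity
      have h6 : ((ρ : ℝ) + 1) ^ 2 ≤ 4 * ρ ^ 2 := by nlinarith
      have h7 : (T : ℝ) ^ (-2 * ε) * ((ρ : ℝ) + 1) ^ 2 ≤ c0 / 24 * ρ ^ 2 := by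
        calc (T : ℝ) ^ (-2 * ε) * ((ρ : ℝ) + 1) ^ 2 ≤ (T : ℝ) ^ (-2 * ε) * (4 * ρ ^ 2) := mul_le_mul_of_nonneg_left h6 h4.le
          _ = (4 * (T : ℝ) ^ (-2 * ε)) * ρ ^ 2 := by ring
          _ ≤ c0 / 24 * ρ ^ 2 := mul_le_mul_of_nonneg_right h4c (by positivity)
      have h8 : (T : ℝ) ^ (-2 * ε) * T ≤ T := by nlinarith
      calc _ ≤ _ := h1
        _ = _ := h2
        _ = (T : ℝ) ^ (-2 * ε) * ((ρ : ℝ) + 1) ^ 2 + (T : ℝ) ^ (-2 * ε) * T := by ring
        _ ≤ _ := by linarith) (by linarith)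
  have hdet : wl θ w' (tau ε T) (ρ * T) A.det = ‖E.det‖ * wl θ w' (tau ε T) (ρ * T) (zc (B.submatrix r c).det) := by
    rw [hA, Al2_A_det, wl_C_mul]
  have hwl0 := wl_nonneg θ w' (tau ε T) (ρ * T) (zc (B.submatrix r c).det)
  have hfin : wl θ w' (tau ε T) (ρ * T) (zc (B.submatrix r c).det) ≤ Real.exp (5 * P * ρ) := by
    have h1 : wl θ w' (tau ε T) (ρ * T) (zc (B.submatrix r c).det) ≤ ‖E.det‖ * wl θ w' (tau ε T) (ρ * T) (zc (B.submatrix r c).det) := by
      nlinarith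
    exact h1.trans (hdet ▸ (hbd.trans hmain))
  have hkap : 5 * P * ρ ≤ kap ε T * ((ρ * T : ℕ) : ℝ) := by
    unfold kap
    have h1 : (T : ℝ) ^ (2 * ε) * (T : ℝ) = (T : ℝ) ^ ε * P := by
      rw [hP]
      have : (T : ℝ) ^ (2 * ε) * (T : ℝ) = (T : ℝ) ^ (2 * ε) * (T : ℝ) ^ (1 : ℝ) := by rw [Real.rpow_one]
      rw [this, ← Real.rpow_add hTpos, ← Real.rpow_add hTpos]
      congr 1
      ring
    push_cast
    have hPρ : 0 ≤ P * ρ := by positivity
    calc 5 * P * ρ = 5 * (P * ρ) := by ring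
      _ ≤ (T : ℝ) ^ ε * (P * ρ) := mul_le_mul_of_nonneg_right h5 hPρ
      _ = ((T : ℝ) ^ ε * P) * ρ := by ring
      _ = ((T : ℝ) ^ (2 * ε) * T) * ρ := by rw [h1]
      _ = (T : ℝ) ^ (2 * ε) * (ρ * T) := by ring
  rcases eq_or_lt_of_le hwl0 with h0 | h0
  · rw [← h0, Real.log_zero]
    unfold kap
    positivity
  · have := Real.log_le_log h0 hfin
    rw [Real.log_exp] at this
    linarith



theorem Am_det_hom {R : Type} [CommRing R] {σ : Type} {ρ T : ℕ} (A : Matrix (Fin ρ) (Fin ρ) (MvPolynomial σ R))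
    (hA : ∀ i j, (A i j).IsHomogeneous T) : A.det.IsHomogeneous (ρ * T) := by
  rw [Matrix.det_apply]
  apply MvPolynomial.IsHomogeneous.sum
  intro σ' _
  have h1 : (∏ i, A (σ' i) i).IsHomogeneous (ρ * T) := by
    have h2 := MvPolynomial.IsHomogeneous.prod (Finset.univ : Finset (Fin ρ)) (fun i => A (σ' i) i) (fun _ => T)
      (fun i _ => hA (σ' i) i)
    simpa using h2
  rcases Int.units_eq_one_or (Equiv.Perm.sign σ') with h | h
  · rw [h, one_smul]
    exact h1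
  · rw [h, Units.neg_smul, one_smul]
    exact h1.neg

theorem Am_wl_X0 (θ : Fin m → ℂ) {w τ : ℝ} (hτ : 0 ≤ τ) : wl θ w τ 1 (zc (X 0 : PZ m)) = Real.exp (w * τ) := by
  have h1 : phi θ (zc (X 0 : PZ m)) = X 0 := by
    unfold zc phi
    rw [MvPolynomial.map_X, MvPolynomial.aeval_X, Fin.cons_zero]
  unfold wl
  rw [h1, MvPolynomial.support_X, Finset.sum_singleton, MvPolynomial.coeff_X]
  unfold wt
  simp [hτ]

theorem Am_large {ε : ℝ} (hε : 0 < ε) : ∃ T0 : ℕ, ∀ T : ℕ, T0 ≤ T → 2 ≤ T ∧ (2 : ℝ) ≤ (T : ℝ) ^ (4 * ε) := by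
  have h1 : Filter.Tendsto (fun T : ℕ => (T : ℝ) ^ (4 * ε)) Filter.atTop Filter.atTop :=
    (tendsto_rpow_atTop (by positivity)).comp tendsto_natCast_atTop_atTop
  obtain ⟨T0, h⟩ := Filter.eventually_atTop.mp ((h1.eventually_ge_atTop 2).and (Filter.eventually_ge_atTop 2))
  exact ⟨T0, fun T hT => ⟨(h T hT).2, (h T hT).1⟩⟩

theorem Am_tau_half {ε : ℝ} (hε : 0 < ε) {T : ℕ} (hT : 2 ≤ T) : tau ε T ≤ 1 / 2 := by
  have hT' : (2 : ℝ) ≤ T := by exact_mod_cast hT
  unfold tau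
  calc (T : ℝ) ^ (-1 - 4 * ε) ≤ (T : ℝ) ^ (-1 : ℝ) :=
        Real.rpow_le_rpow_of_exponent_le (by linarith) (by linarith)
    _ = (T : ℝ)⁻¹ := Real.rpow_neg_one _
    _ ≤ 2⁻¹ := inv_anti₀ (by norm_num) hT'
    _ = 1 / 2 := by norm_num

theorem Am_rho0 {ε : ℝ} {T : ℕ} (hT : 2 ≤ T) (h4 : (2 : ℝ) ≤ (T : ℝ) ^ (4 * ε)) {w' : ℝ}
    (hw : w' ≤ wr ε T 0) : w' * tau ε T ≤ kap ε T := by
  have hT' : (2 : ℝ) ≤ T := by exact_mod_cast hT
  have hT0 : (0 : ℝ) < T := by linarith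
  have hτ : 0 ≤ tau ε T := by unfold tau; positivity
  calc w' * tau ε T ≤ wr ε T 0 * tau ε T := mul_le_mul_of_nonneg_right hw hτ
    _ = kap ε T * ((1 + T) * (T : ℝ) ^ (-1 - 4 * ε)) := by
        unfold wr tau kap
        push_cast
        ring
    _ ≤ kap ε T * 1 := by
        refine mul_le_mul_of_nonneg_left ?_ (by unfold kap; positivity)
        have e1 : (T : ℝ) ^ (-1 - 4 * ε) = (T : ℝ)⁻¹ * ((T : ℝ) ^ (4 * ε))⁻¹ := by
          rw [sub_eq_add_neg, Real.rpow_add hT0, Real.rpow_neg_one, Real.rpow_neg hT0.le]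
        rw [e1]
        have e2 : ((T : ℝ) ^ (4 * ε))⁻¹ ≤ 2⁻¹ := inv_anti₀ (by norm_num) h4
        have e3 : (1 + (T : ℝ)) * ((T : ℝ)⁻¹) ≤ 2 := by
          rw [add_mul, one_mul, mul_inv_cancel₀ hT0.ne']
          have : (T : ℝ)⁻¹ ≤ 1 := inv_le_one_of_one_le₀ (by linarith)
          linarith
        calc (1 + (T : ℝ)) * ((T : ℝ)⁻¹ * ((T : ℝ) ^ (4 * ε))⁻¹) = ((1 + (T : ℝ)) * (T : ℝ)⁻¹) * ((T : ℝ) ^ (4 * ε))⁻¹ := by ring
          _ ≤ 2 * 2⁻¹ := mul_le_mul e3 e2 (by positivity) (by norm_num)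
          _ = 1 := by norm_num
    _ = kap ε T := mul_one _

/-- row Am: the matrix lemma -/
theorem matL (m k : ℕ) (θ : Fin m → ℂ) {ε c0 : ℝ} (hε : 0 < ε) (hε1 : ε ≤ 1) (hc : 0 < c0) :
    ∃ T0 : ℕ, ∀ T : ℕ, T0 ≤ T → ∀ (ι κ : Type) [Fintype ι] [Fintype κ] (B : Matrix ι κ (PZ m)), HMat k θ ε c0 T B →
      MatL θ (tau ε T) (kap ε T) (RR k ε T ^ 2) := by
  classical
  obtain ⟨T1, h1⟩ := switchG m k θ hε hε1 hc
  obtain ⟨T2, h2⟩ := smallD m k θ hε hε1 hc
  obtain ⟨T3, h3⟩ := Am_large hε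
  refine ⟨max T1 (max T2 T3), ?_⟩
  intro T hT ι κ _ _ B hB
  have hT1 : T1 ≤ T := (le_max_left _ _).trans hT
  have hT2 : T2 ≤ T := ((le_max_left _ _).trans (le_max_right _ _)).trans hT
  have hT3 : T3 ≤ T := ((le_max_right _ _).trans (le_max_right _ _)).trans hT
  obtain ⟨hT4, hT5⟩ := h3 T hT3
  have hTr : (2 : ℝ) ≤ T := by exact_mod_cast hT4
  have hT0 : (0 : ℝ) < T := by linarith
  have hτ0 : 0 ≤ tau ε T := by unfold tau; positivity
  have hτ1 := Am_tau_half hε hT4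
  intro p hp hpp hx w hw hw0
  have hR : 0 ≤ RR k ε T := by unfold RR; positivity
  let P : ℕ → Prop := fun ρ => ∃ (r : Fin ρ → ι) (c : Fin ρ → κ), zq (B.submatrix r c).det ∉ p
  have hP0 : P 0 := by
    refine ⟨Fin.elim0, Fin.elim0, ?_⟩
    rw [Matrix.det_isEmpty]
    unfold zq
    rw [map_one]
    exact fun h => hpp.ne_top ((Ideal.eq_top_iff_one _).mpr h)
  obtain ⟨ρ, hρP, hρR, hρmax⟩ : ∃ ρ : ℕ, P ρ ∧ ρ ≤ ⌊RR k ε T⌋₊ ∧ (ρ < ⌊RR k ε T⌋₊ → ¬ P (ρ + 1)) := by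
    refine ⟨Nat.findGreatest P ⌊RR k ε T⌋₊, ?_, Nat.findGreatest_le _, ?_⟩
    · exact Nat.findGreatest_spec (Nat.zero_le _) hP0
    · intro hlt
      exact Nat.findGreatest_is_greatest (Nat.lt_succ_self _) hlt
  -- the weight
  obtain ⟨w', hw'0, hw'w, hw'r, hsw⟩ : ∃ w' : ℝ, 0 ≤ w' ∧ w' ≤ w ∧ w' ≤ wr ε T ρ ∧
      ∃ C1 C2 : ℝ, ∀ t : ℝ, 0 ≤ t → t < 1 → XX θ w (tau ε T) p t ≤ XX θ w' (tau ε T) p t + C1 * PP p t + C2 := by
    have htriv : w ≤ wr ε T ρ → ∃ w' : ℝ, 0 ≤ w' ∧ w' ≤ w ∧ w' ≤ wr ε T ρ ∧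
      ∃ C1 C2 : ℝ, ∀ t : ℝ, 0 ≤ t → t < 1 → XX θ w (tau ε T) p t ≤ XX θ w' (tau ε T) p t + C1 * PP p t + C2 := by
      intro h
      refine ⟨w, hw, le_rfl, h, 0, 0, fun t _ _ => ?_⟩
      simp
    rcases le_or_gt w (wr ε T ρ) with hle | hlt
    · exact htriv hle
    · rcases lt_or_ge ρ ⌊RR k ε T⌋₊ with hlt' | hge
      · have hnP := hρmax hlt'
        have hρ1 : (ρ : ℝ) + 1 ≤ RR k ε T := by
          have h5 : ((ρ + 1 : ℕ) : ℝ) ≤ RR k ε T := (Nat.le_floor_iff hR).mp hlt'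
          push_cast at h5
          exact h5
        obtain ⟨E, G, hE, hG, hGh, hG1, hGs⟩ := h1 T hT1 ι κ B hB p ρ hρ1 (by
          intro r c
          by_contra hcon
          exact hnP ⟨r, c, hcon⟩)
        have hwr0 : 0 ≤ wr ε T ρ := by unfold wr; positivity
        exact ⟨wr ε T ρ, hwr0, hlt.le, le_rfl, xx_switch θ hτ0 hτ1 hwr0 hlt.le p hE hG hGh hG1 hGs⟩
      · apply htriv
        have h6 : RR k ε T ≤ (ρ : ℝ) + 1 := by
          have h7 : RR k ε T < (⌊RR k ε T⌋₊ : ℝ) + 1 := Nat.lt_floor_add_one _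
          have h8 : ((⌊RR k ε T⌋₊ : ℕ) : ℝ) ≤ (ρ : ℝ) := by exact_mod_cast hge
          linarith
        have h9 : RR k ε T ^ 2 ≤ ((ρ : ℝ) + 1) ^ 2 := pow_le_pow_left₀ hR h6 2
        have h10 : (1 : ℝ) ≤ (T : ℝ) ^ (2 * ε) := Real.one_le_rpow (by linarith) (by positivity)
        unfold wr
        nlinarith [sq_nonneg ((ρ : ℝ) + 1)]
  refine ⟨w', hw'0, hw'w, hsw, ?_⟩
  rcases Nat.eq_zero_or_pos ρ with h0 | hpos
  · subst h0
    refine ⟨1, X 0, le_rfl, MvPolynomial.isHomogeneous_X _ _, ?_, ?_⟩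
    · unfold zq
      rw [MvPolynomial.map_X]
      exact hx
    · rw [Am_wl_X0 θ hτ0, Real.log_exp]
      simpa using Am_rho0 hT4 hT5 hw'r
  · obtain ⟨r, c, hrc⟩ := hρP
    refine ⟨ρ * T, (B.submatrix r c).det, ?_, ?_, hrc, ?_⟩
    · exact Nat.mul_pos hpos (by omega)
    · exact Am_det_hom _ (fun i j => hB.deg _ _)
    · have hρR' : (ρ : ℝ) ≤ RR k ε T := (Nat.le_floor_iff hR).mp hρR
      exact h2 T hT2 ι κ B hB ρ hpos hρR' r c w' hw'0 hw'r


end Pool.Agent.LT
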