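import Pool.Agent.Lib.MP_f58a57_nt.LT.A2

/-!
# Part A, rows An-Au: the lower bound and the end
-/

open Complex MvPolynomial Matrix

noncomputable section

namespace Pool.Agent.LT

variable {m c : ℕ}


/-- the evaluation used in `p0` -/
private def An0_ev (θ : Fin m → ℂ) : PQ m →ₐ[ℚ] Polynomial ℂ :=
  MvPolynomial.aeval (Fin.cons Polynomial.X (fun i : Fin m => Polynomial.C (θ i) * Polynomial.X) :
    Fin (m + 1) → Polynomial ℂ)

private theorem An0_mem (θ : Fin m → ℂ) (f : PQ m) : f ∈ p0 θ ↔ An0_ev θ f = 0 := Iff.rfl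

private theorem An0_cons (θ : Fin m → ℂ) (j : Fin (m + 1)) :
    (Fin.cons Polynomial.X (fun i : Fin m => Polynomial.C (θ i) * Polynomial.X) :
      Fin (m + 1) → Polynomial ℂ) j =
    Polynomial.C ((Fin.cons 1 θ : Fin (m + 1) → ℂ) j) * Polynomial.X := by
  refine Fin.cases ?_ (fun i => ?_) j
  · rw [Fin.cons_zero, Fin.cons_zero, Polynomial.C_1, one_mul]
  · rw [Fin.cons_succ, Fin.cons_succ]

private theorem An0_hom (θ : Fin m → ℂ) {L : ℕ} {f : PQ m} (hf : f.IsHomogeneous L) :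
    An0_ev θ f = Polynomial.C (MvPolynomial.aeval (Fin.cons 1 θ : Fin (m + 1) → ℂ) f) *
      Polynomial.X ^ L := by
  unfold An0_ev
  rw [MvPolynomial.aeval_def, MvPolynomial.aeval_def, MvPolynomial.eval₂_eq',
    MvPolynomial.eval₂_eq', map_sum, Finset.sum_mul]
  refine Finset.sum_congr rfl fun d hd => ?_
  have h1 : (∏ i, (Fin.cons Polynomial.X (fun i : Fin m => Polynomial.C (θ i) * Polynomial.X) :
      Fin (m + 1) → Polynomial ℂ) i ^ d i) =
      Polynomial.C (∏ i, (Fin.cons 1 θ : Fin (m + 1) → ℂ) i ^ d i) * Polynomial.X ^ L := by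
    have h2 : ∀ i, (Fin.cons Polynomial.X (fun i : Fin m => Polynomial.C (θ i) * Polynomial.X) :
      Fin (m + 1) → Polynomial ℂ) i ^ d i =
      Polynomial.C ((Fin.cons 1 θ : Fin (m + 1) → ℂ) i ^ d i) * Polynomial.X ^ d i := by
      intro i
      rw [An0_cons, mul_pow, Polynomial.C_pow]
    rw [Finset.prod_congr rfl fun i _ => h2 i, Finset.prod_mul_distrib, Finset.prod_pow_eq_pow_sum,
      map_prod]
    congr 2
    have h3 : d.degree = L := by
      by_contra hne
      exact (MvPolynomial.mem_support_iff.1 hd) (hf.coeff_eq_zero hne)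
    rw [← h3, Finsupp.degree_eq_sum]
  rw [h1, Polynomial.C_mul, mul_assoc]
  rfl

private theorem An0_coeff (θ : Fin m → ℂ) (f : PQ m) (n : ℕ) :
    (An0_ev θ f).coeff n =
      MvPolynomial.aeval (Fin.cons 1 θ : Fin (m + 1) → ℂ) (homogeneousComponent n f) := by
  conv_lhs => rw [← sum_homogeneousComponent f]
  rw [map_sum, Polynomial.finsetSum_coeff]
  have h1 : ∀ i, (An0_ev θ (homogeneousComponent i f)).coeff n =
      if n = i then MvPolynomial.aeval (Fin.cons 1 θ : Fin (m + 1) → ℂ)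
        (homogeneousComponent i f) else 0 := by
    intro i
    rw [An0_hom θ (homogeneousComponent_isHomogeneous i f), Polynomial.coeff_C_mul_X_pow]
  rw [Finset.sum_congr rfl fun i _ => h1 i, Finset.sum_ite_eq]
  by_cases hn : n ∈ Finset.range (f.totalDegree + 1)
  · rw [if_pos hn]
  · rw [if_neg hn]
    have h2 : homogeneousComponent n f = 0 := by
      apply homogeneousComponent_eq_zero
      rw [Finset.mem_range] at hn
      omega
    rw [h2, map_zero]

/-- `p0` is a homogeneous prime ideal -/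
theorem p0_hi (θ : Fin m → ℂ) : HI (p0 θ) := by
  intro f hf n
  rw [An0_mem] at hf ⊢
  rw [An0_hom θ (homogeneousComponent_isHomogeneous n f), ← An0_coeff, hf, Polynomial.coeff_zero,
    Polynomial.C_0, zero_mul]

theorem p0_prime (θ : Fin m → ℂ) : (p0 θ).IsPrime :=
  RingHom.ker_isPrime (An0_ev θ)

theorem mem_p0 (θ : Fin m → ℂ) {L : ℕ} {f : PQ m} (hf : f.IsHomogeneous L) :
    f ∈ p0 θ ↔ MvPolynomial.aeval (Fin.cons 1 θ : Fin (m + 1) → ℂ) f = 0 := by
  rw [An0_mem, An0_hom θ hf]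
  constructor
  · intro h
    rcases mul_eq_zero.1 h with h1 | h1
    · exact Polynomial.C_eq_zero.1 h1
    · exact absurd h1 (pow_ne_zero _ Polynomial.X_ne_zero)
  · intro h
    rw [h, Polynomial.C_0, zero_mul]







/-- row An: a transcendence basis among the coordinates -/
theorem trbasis (θ : Fin m → ℂ) : ∃ (k : ℕ) (I : Fin k → Fin m), Function.Injective I ∧
    (Algebra.trdeg ℚ (Algebra.adjoin ℚ (Set.range θ)) = k) ∧ AlgebraicIndependent ℚ (fun i => θ (I i)) ∧
    ∀ j, IsAlgebraic (IntermediateField.adjoin ℚ (Set.range fun i => θ (I i))) (θ j) := by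
  classical
  let θ' : Fin m → Algebra.adjoin ℚ (Set.range θ) := fun j => ⟨θ j, Algebra.subset_adjoin ⟨j, rfl⟩⟩
  have htop : Algebra.adjoin ℚ (Set.range θ') = ⊤ := by
    rw [← Algebra.adjoin_adjoin_coe_preimage (R := ℚ) (s := Set.range θ)]
    congr 1
    ext x
    constructor
    · rintro ⟨j, rfl⟩; exact ⟨j, rfl⟩
    · rintro ⟨j, hj⟩; exact ⟨j, Subtype.ext hj⟩
  have halg : Algebra.IsAlgebraic (Algebra.adjoin ℚ (Set.range θ')) (Algebra.adjoin ℚ (Set.range θ)) := by
    refine ⟨fun a => ?_⟩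
    have ha : a ∈ Algebra.adjoin ℚ (Set.range θ') := by rw [htop]; trivial
    exact isAlgebraic_algebraMap (⟨a, ha⟩ : Algebra.adjoin ℚ (Set.range θ'))
  obtain ⟨t, hts, hb⟩ := exists_isTranscendenceBasis_subset (R := ℚ) (Set.range θ')
  have hfin : Finite t := (Set.finite_range θ').subset hts
  have hpre : ∀ x : t, ∃ j, θ' j = (x : Algebra.adjoin ℚ (Set.range θ)) := fun x => hts x.2
  choose pre hpre using hpre
  let e : t ≃ Fin (Nat.card t) := Finite.equivFin t
  have hI : ∀ i, θ' (pre (e.symm i)) = ((e.symm i : t) : Algebra.adjoin ℚ (Set.range θ)) := fun i => hpre _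
  have hb' : IsTranscendenceBasis ℚ (fun i => θ' (pre (e.symm i))) := by
    have h1 : (fun i => θ' (pre (e.symm i))) = (Subtype.val : t → Algebra.adjoin ℚ (Set.range θ)) ∘ e.symm := funext hI
    rw [h1]
    exact (isTranscendenceBasis_equiv e.symm).mpr hb
  refine ⟨Nat.card t, fun i => pre (e.symm i), ?_, ?_, ?_, ?_⟩
  · intro i j hij
    have h1 := hI i
    have h2 := hI j
    have h3 : ((e.symm i : t) : Algebra.adjoin ℚ (Set.range θ)) = (e.symm j : t) := by
      rw [← h1, ← h2]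
      exact congrArg θ' hij
    exact e.symm.injective (Subtype.ext h3)
  · have := hb'.lift_cardinalMk_eq_trdeg
    simpa using this.symm
  · exact hb'.1.map' (f := (Algebra.adjoin ℚ (Set.range θ)).val) Subtype.val_injective
  · intro j
    have h1 : IsAlgebraic (Algebra.adjoin ℚ (Set.range fun i => θ' (pre (e.symm i)))) (θ' j) := hb'.isAlgebraic.isAlgebraic _
    let K := IntermediateField.adjoin ℚ (Set.range fun i => θ (pre (e.symm i)))
    have hle : ∀ x : Algebra.adjoin ℚ (Set.range fun i => θ' (pre (e.symm i))), ((x : Algebra.adjoin ℚ (Set.range θ)) : ℂ) ∈ K := by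
      intro x
      have h2 : Algebra.adjoin ℚ (Set.range fun i => θ' (pre (e.symm i))) ≤ K.toSubalgebra.comap (Algebra.adjoin ℚ (Set.range θ)).val := by
        refine Algebra.adjoin_le ?_
        rintro _ ⟨i, rfl⟩
        exact IntermediateField.subset_adjoin ℚ _ ⟨i, rfl⟩
      exact h2 x.2
    let f : Algebra.adjoin ℚ (Set.range fun i => θ' (pre (e.symm i))) →+* K :=
      { toFun := fun x => ⟨((x : Algebra.adjoin ℚ (Set.range θ)) : ℂ), hle x⟩
        map_one' := rfl
        map_zero' := rfl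
        map_add' := fun _ _ => rfl
        map_mul' := fun _ _ => rfl }
    have hf : Function.Injective f := by
      intro x y hxy
      have := congrArg (Subtype.val) hxy
      exact Subtype.ext (Subtype.ext this)
    exact IsAlgebraic.ringHom_of_comp_eq f ((Algebra.adjoin ℚ (Set.range θ)).val : _ →+* ℂ) h1 hf rfl



/-- elements of the field generated by `x` are quotients of integer polynomials in `x` -/
theorem Ao_frac {k : ℕ} (x : Fin k → ℂ) (y : ℂ) (hy : y ∈ IntermediateField.adjoin ℚ (Set.range x)) :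
    ∃ p q : MvPolynomial (Fin k) ℤ, aeval x q ≠ 0 ∧ aeval x p = aeval x q * y := by
  induction hy using IntermediateField.adjoin_induction with
  | mem y hy =>
    obtain ⟨i, rfl⟩ := hy
    exact ⟨X i, 1, by simp, by simp⟩
  | algebraMap c =>
    refine ⟨C c.num, C (c.den : ℤ), ?_, ?_⟩
    · simp
    · have h : (c.num : ℚ) = c.den * c := by
        rw [mul_comm]; exact (Rat.mul_den_eq_num c).symm
      have h' : ((c.num : ℚ) : ℂ) = ((c.den * c : ℚ) : ℂ) := by rw [← h]
      rw [Rat.cast_mul, Rat.cast_natCast, Rat.cast_intCast] at h'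
      rw [aeval_C, aeval_C]
      simpa using h'
  | add y z _ _ h1 h2 =>
    obtain ⟨p1, q1, a1, b1⟩ := h1
    obtain ⟨p2, q2, a2, b2⟩ := h2
    refine ⟨p1 * q2 + p2 * q1, q1 * q2, ?_, ?_⟩
    · rw [map_mul]; exact mul_ne_zero a1 a2
    · rw [map_add, map_mul, map_mul, map_mul, b1, b2]; ring
  | inv y _ h =>
    obtain ⟨p, q, a, b⟩ := h
    by_cases hy : y = 0
    · exact ⟨0, 1, by simp, by simp [hy]⟩
    · refine ⟨q, p, ?_, ?_⟩
      · rw [b]; exact mul_ne_zero a hy
      · rw [b]; field_simp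
  | mul y z _ _ h1 h2 =>
    obtain ⟨p1, q1, a1, b1⟩ := h1
    obtain ⟨p2, q2, a2, b2⟩ := h2
    refine ⟨p1 * p2, q1 * q2, ?_, ?_⟩
    · rw [map_mul]; exact mul_ne_zero a1 a2
    · rw [map_mul, map_mul, b1, b2]; ring

theorem Ao_den {k : ℕ} (x : Fin k → ℂ) {ι : Type} [Fintype ι] (y : ι → ℂ)
    (hy : ∀ i, y i ∈ IntermediateField.adjoin ℚ (Set.range x)) :
    ∃ (q : MvPolynomial (Fin k) ℤ) (p : ι → MvPolynomial (Fin k) ℤ), aeval x q ≠ 0 ∧ ∀ i, aeval x (p i) = aeval x q * y i := by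
  classical
  choose p q hq h using fun i => Ao_frac x (y i) (hy i)
  refine ⟨∏ i, q i, fun i => p i * ∏ j ∈ Finset.univ.erase i, q j, ?_, ?_⟩
  · rw [map_prod]; exact Finset.prod_ne_zero_iff.mpr fun i _ => hq i
  · intro i
    rw [map_mul, h, ← Finset.mul_prod_erase Finset.univ q (Finset.mem_univ i), map_mul]; ring

/-- the size of an integer polynomial -/
def Ao_sz {k : ℕ} (p : MvPolynomial (Fin k) ℤ) : ℝ := lC (MvPolynomial.map (Int.castRingHom ℂ) p)

theorem Ao_sz_nonneg {k : ℕ} (p : MvPolynomial (Fin k) ℤ) : 0 ≤ Ao_sz p :=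
  Finset.sum_nonneg fun _ _ => norm_nonneg _

theorem Ao_sz_coeff {k : ℕ} (p : MvPolynomial (Fin k) ℤ) (α : Fin k →₀ ℕ) : |((p.coeff α : ℤ) : ℝ)| ≤ Ao_sz p := by
  by_cases h : p.coeff α = 0
  · rw [h]; simpa using Ao_sz_nonneg p
  · have h2 : α ∈ (MvPolynomial.map (Int.castRingHom ℂ) p).support := by
      rw [MvPolynomial.mem_support_iff, MvPolynomial.coeff_map]; simpa using h
    have h3 := Finset.single_le_sum (f := fun d => ‖(MvPolynomial.map (Int.castRingHom ℂ) p).coeff d‖) (fun _ _ => norm_nonneg _) h2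
    have h4 : ‖(MvPolynomial.map (Int.castRingHom ℂ) p).coeff α‖ = |((p.coeff α : ℤ) : ℝ)| := by
      rw [MvPolynomial.coeff_map]; simp
    rw [← h4]; exact h3

theorem Ao_sz_mul {k : ℕ} (p q : MvPolynomial (Fin k) ℤ) : Ao_sz (p * q) ≤ Ao_sz p * Ao_sz q := by
  unfold Ao_sz; rw [map_mul]; exact lC_mul_le _ _

theorem Ao_sz_sum {k : ℕ} {ι : Type} (s : Finset ι) (p : ι → MvPolynomial (Fin k) ℤ) : Ao_sz (∑ i ∈ s, p i) ≤ ∑ i ∈ s, Ao_sz (p i) := by
  classical
  induction s using Finset.induction_on with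
  | empty => simp [Ao_sz, lC]
  | insert i s hi ih =>
    rw [Finset.sum_insert hi, Finset.sum_insert hi]
    refine le_trans ?_ (add_le_add_right ih _)
    unfold Ao_sz; rw [map_add]; exact lC_add_le _ _

theorem Ao_sz_one {k : ℕ} : Ao_sz (1 : MvPolynomial (Fin k) ℤ) ≤ 1 := by
  unfold Ao_sz lC
  rw [map_one, MvPolynomial.support_one]
  simp

theorem Ao_sz_zero {k : ℕ} : Ao_sz (0 : MvPolynomial (Fin k) ℤ) = 0 := by
  simp [Ao_sz, lC]

/-- row Ao: integer functionals -/
theorem intFun (θ : Fin m → ℂ) {k : ℕ} (I : Fin k → Fin m) (hI : AlgebraicIndependent ℚ (fun i => θ (I i)))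
    (ha : ∀ j, IsAlgebraic (IntermediateField.adjoin ℚ (Set.range fun i => θ (I i))) (θ j)) :
    ∃ C : ℝ, 0 < C ∧ ∀ L : ℕ, ∃ (q : ℕ) (a : Fin q → (Fin (m + 1) →₀ ℕ) → ℤ), (q : ℝ) ≤ C * ((L : ℝ) + 1) ^ k ∧
      (∀ i d, |(a i d : ℝ)| ≤ Real.exp (C * (L + 1))) ∧
      ∀ f : PQ m, f.IsHomogeneous L → (f ∈ p0 θ ↔ ∀ i, ∑ d ∈ f.support, (a i d : ℚ) * f.coeff d = 0) := by
  classical
  set x : Fin k → ℂ := fun i => θ (I i) with hx
  set K := IntermediateField.adjoin ℚ (Set.range x) with hK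
  set L1 : IntermediateField K ℂ := IntermediateField.adjoin K (Set.range θ) with hL1
  have : FiniteDimensional K L1 := by
    apply IntermediateField.finiteDimensional_adjoin
    rintro y ⟨j, rfl⟩
    exact (ha j).isIntegral
  obtain ⟨n, b⟩ : ∃ n : ℕ, Nonempty (Module.Basis (Fin n) K L1) := ⟨_, ⟨Module.finBasis K L1⟩⟩
  obtain ⟨b⟩ := b
  have htm : ∀ j, θ j ∈ L1 := fun j => IntermediateField.subset_adjoin K _ ⟨j, rfl⟩
  set t : Fin (m + 1) → L1 := Fin.cons 1 (fun j => ⟨θ j, htm j⟩) with ht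
  have htc : ∀ j, (t j : ℂ) = (Fin.cons 1 θ : Fin (m + 1) → ℂ) j := by
    intro j
    refine Fin.cases ?_ ?_ j
    · simp [ht]
    · intro i; simp [ht]
  set φ := Algebra.leftMulMatrix b with hφ
  have hφi : Function.Injective φ := Algebra.leftMulMatrix_injective b
  -- the matrices of the monomials
  set W : (Fin (m + 1) →₀ ℕ) → Matrix (Fin n) (Fin n) K := fun d => φ (∏ j, t j ^ d j) with hW
  -- common denominator
  obtain ⟨Δ, P, hΔ, hP⟩ := Ao_den x (ι := Fin (m + 1) × Fin n × Fin n) (fun u => ((φ (t u.1) u.2.1 u.2.2 : K) : ℂ))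
    (fun u => (φ (t u.1) u.2.1 u.2.2).2)
  -- bounds
  obtain ⟨δ, hδ⟩ : ∃ δ : ℕ, ∀ u, (P u).totalDegree ≤ δ :=
    ⟨Finset.univ.sup fun u => (P u).totalDegree, fun u => Finset.le_sup (f := fun u => (P u).totalDegree) (Finset.mem_univ u)⟩
  obtain ⟨H, hH⟩ : ∃ H : ℝ, ∀ u, Ao_sz (P u) ≤ H :=
    ⟨∑ u, Ao_sz (P u), fun u => Finset.single_le_sum (f := fun u => Ao_sz (P u)) (fun _ _ => Ao_sz_nonneg _) (Finset.mem_univ u)⟩
  set B : ℝ := max 1 (n * H) with hB
  have hB1 : 1 ≤ B := le_max_left _ _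
  have hBn : n * H ≤ B := le_max_right _ _
  -- the integer matrices
  have key : ∀ L : ℕ, ∀ d : Fin (m + 1) →₀ ℕ, d.degree = L → ∃ N : Fin n → Fin n → MvPolynomial (Fin k) ℤ,
      (∀ r s, aeval x (N r s) = (aeval x Δ) ^ L * ((W d r s : K) : ℂ)) ∧ (∀ r s, (N r s).totalDegree ≤ δ * L) ∧
        ∀ r s, Ao_sz (N r s) ≤ B ^ L := by
    intro L
    induction L with
    | zero =>
      intro d hd
      have hd0 : d = 0 := (Finsupp.degree_eq_zero_iff d).mp hd
      subst hd0
      refine ⟨fun r s => if r = s then 1 else 0, ?_, ?_, ?_⟩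
      · intro r s
        have h1 : W 0 = 1 := by simp [hW]
        rw [h1, Matrix.one_apply]
        beta_reduce
        split_ifs <;> simp
      · intro r s
        beta_reduce
        split_ifs <;> simp
      · intro r s
        beta_reduce
        split_ifs
        · simpa using Ao_sz_one
        · rw [Ao_sz_zero]; simp
    | succ L ih =>
      intro d hd
      obtain ⟨j, hj⟩ : ∃ j, d j ≠ 0 := by
        by_contra hcon
        push Not at hcon
        have : d = 0 := Finsupp.ext hcon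
        rw [this] at hd; simp at hd
      set d' := d - Finsupp.single j 1 with hd'
      have hdd : d = d' + Finsupp.single j 1 := by
        rw [hd', tsub_add_cancel_of_le]
        rw [Finsupp.single_le_iff]; omega
      have hdeg : d'.degree = L := by
        have := congrArg Finsupp.degree hdd
        rw [map_add, Finsupp.degree_single, hd] at this; omega
      obtain ⟨N, h1, h2, h3⟩ := ih d' hdeg
      have hWd : W d = W d' * φ (t j) := by
        rw [hW]; simp only
        rw [← map_mul]; congr 1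
        have : ∀ i, t i ^ d i = t i ^ d' i * t i ^ (Finsupp.single j 1 : Fin (m + 1) →₀ ℕ) i := by
          intro i; rw [← pow_add]; congr 1; rw [hdd]; rfl
        rw [Finset.prod_congr rfl fun i _ => this i, Finset.prod_mul_distrib]; congr 1
        rw [Finset.prod_eq_single j]
        · simp
        · intro i _ hij; rw [Finsupp.single_eq_of_ne hij]; simp
        · simp
      refine ⟨fun r s => ∑ u, N r u * P (j, u, s), ?_, ?_, ?_⟩
      · intro r s
        rw [map_sum, hWd, Matrix.mul_apply]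
        have : ((∑ u, W d' r u * φ (t j) u s : K) : ℂ) = ∑ u, ((W d' r u : K) : ℂ) * ((φ (t j) u s : K) : ℂ) := by
          push_cast; rfl
        rw [this, Finset.mul_sum]
        refine Finset.sum_congr rfl fun u _ => ?_
        rw [map_mul, h1, hP]; ring
      · intro r s
        refine MvPolynomial.totalDegree_finsetSum_le fun u _ => ?_
        refine (MvPolynomial.totalDegree_mul _ _).trans ?_
        have := h2 r u
        have := hδ (j, u, s)
        rw [Nat.mul_succ]; omega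
      · intro r s
        refine (Ao_sz_sum _ _).trans ?_
        have hH0 : 0 ≤ H := (Ao_sz_nonneg _).trans (hH (j, r, s))
        have : ∀ u ∈ (Finset.univ : Finset (Fin n)), Ao_sz (N r u * P (j, u, s)) ≤ B ^ L * H := by
          intro u _
          refine (Ao_sz_mul _ _).trans ?_
          exact mul_le_mul (h3 r u) (hH _) (Ao_sz_nonneg _) (by positivity)
        refine (Finset.sum_le_sum this).trans ?_
        rw [Finset.sum_const, Finset.card_univ, Fintype.card_fin, nsmul_eq_mul, pow_succ]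
        calc (n : ℝ) * (B ^ L * H) = B ^ L * (n * H) := by ring
          _ ≤ B ^ L * B := mul_le_mul_of_nonneg_left hBn (by positivity)
  choose N hN1 hN2 hN3 using key
  set lB := Real.log B with hlB
  have hlB0 : 0 ≤ lB := Real.log_nonneg hB1
  refine ⟨max (lB + 1) ((n : ℝ) * n * (δ + 1) ^ k + 1), by positivity, ?_⟩
  intro L
  let e := Fintype.equivFin (Fin n × Fin n × (Fin k → Fin (δ * L + 1)))
  let al : (Fin k → Fin (δ * L + 1)) → (Fin k →₀ ℕ) := fun α => Finsupp.equivFunOnFinite.symm fun i => (α i : ℕ)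
  refine ⟨Fintype.card (Fin n × Fin n × (Fin k → Fin (δ * L + 1))), fun i d => if h : d.degree = L then
    (N L d h (e.symm i).1 (e.symm i).2.1).coeff (al (e.symm i).2.2) else 0, ?_, ?_, ?_⟩
  · simp only [Fintype.card_prod, Fintype.card_fin, Fintype.card_fun]
    push_cast
    have h1 : ((δ : ℝ) * L + 1) ^ k ≤ ((δ + 1) * (L + 1)) ^ k := by
      apply pow_le_pow_left₀ (by positivity)
      nlinarith [show (0:ℝ) ≤ δ from Nat.cast_nonneg _, show (0:ℝ) ≤ L from Nat.cast_nonneg _]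
    rw [mul_pow] at h1
    calc (n : ℝ) * (n * (δ * L + 1) ^ k) ≤ n * (n * ((δ + 1) ^ k * (L + 1) ^ k)) := by gcongr
      _ = ((n : ℝ) * n * (δ + 1) ^ k) * (L + 1) ^ k := by ring
      _ ≤ _ := by
        gcongr
        exact le_trans (by linarith) (le_max_right _ _)
  · intro i d
    beta_reduce
    split_ifs with h
    · refine (Ao_sz_coeff _ _).trans ((hN3 L d h _ _).trans ?_)
      have hB0 : 0 < B := by linarith
      rw [← Real.exp_log hB0, ← Real.exp_nat_mul]
      apply Real.exp_le_exp.mpr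
      have : (lB : ℝ) ≤ max (lB + 1) ((n : ℝ) * n * (δ + 1) ^ k + 1) := le_trans (by linarith) (le_max_left _ _)
      calc (L : ℝ) * Real.log B ≤ (L + 1) * Real.log B := by
            apply mul_le_mul_of_nonneg_right (by linarith) hlB0
        _ = lB * (L + 1) := by rw [hlB]; ring
        _ ≤ _ := mul_le_mul_of_nonneg_right this (by positivity)
    · simp; positivity
  · intro f hf
    have hdeg : ∀ d ∈ f.support, d.degree = L := by
      intro d hd
      have := hf (MvPolynomial.mem_support_iff.mp hd)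
      rw [Finsupp.degree_eq_weight_one (R := ℕ)]
      exact this
    -- the element of `L1`
    set el : L1 := ∑ d ∈ f.support, ((f.coeff d : ℚ) : K) • ∏ j, t j ^ d j with hel
    have helc : (el : ℂ) = MvPolynomial.aeval (Fin.cons 1 θ : Fin (m + 1) → ℂ) f := by
      rw [MvPolynomial.aeval_def, MvPolynomial.eval₂_eq', hel]
      push_cast
      refine Finset.sum_congr rfl fun d _ => ?_
      rw [Algebra.smul_def]
      push_cast
      congr 1
      refine Finset.prod_congr rfl fun j _ => ?_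
      rw [htc]
    have hφel : ∀ r s, ((φ el r s : K) : ℂ) = ∑ d ∈ f.support, ((f.coeff d : ℚ) : ℂ) * ((W d r s : K) : ℂ) := by
      intro r s
      rw [hel, map_sum, Matrix.sum_apply]
      push_cast
      refine Finset.sum_congr rfl fun d _ => ?_
      rw [map_smul, Matrix.smul_apply]
      simp [hW]
    have hpoly : ∀ r s, (∃ F : MvPolynomial (Fin k) ℚ, F = ∑ d ∈ f.support, if h : d.degree = L then
        C (f.coeff d) * MvPolynomial.map (Int.castRingHom ℚ) (N L d h r s) else 0) := fun r s => ⟨_, rfl⟩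
    choose F hF using hpoly
    have hFe : ∀ r s, aeval x (F r s) = (aeval x Δ) ^ L * ((φ el r s : K) : ℂ) := by
      intro r s
      rw [hF, hφel, map_sum, Finset.mul_sum]
      refine Finset.sum_congr rfl fun d hd => ?_
      rw [dif_pos (hdeg d hd), map_mul, aeval_C]
      have h1 := hN1 L d (hdeg d hd) r s
      have h2 : aeval x (MvPolynomial.map (Int.castRingHom ℚ) (N L d (hdeg d hd) r s)) = aeval x (N L d (hdeg d hd) r s) := by
        rw [MvPolynomial.aeval_def, MvPolynomial.aeval_def, MvPolynomial.eval₂_map]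
        congr 1
      rw [h2, h1]
      simp
      ring
    have hFc : ∀ r s α, (F r s).coeff α = ∑ d ∈ f.support, if h : d.degree = L then
        f.coeff d * (((N L d h r s).coeff α : ℤ) : ℚ) else 0 := by
      intro r s α
      rw [hF, MvPolynomial.coeff_sum]
      refine Finset.sum_congr rfl fun d hd => ?_
      rw [dif_pos (hdeg d hd), dif_pos (hdeg d hd), MvPolynomial.coeff_C_mul, MvPolynomial.coeff_map]
      simp
    rw [mem_p0 θ hf, ← helc]
    have e1 : (el : ℂ) = 0 ↔ ∀ r s, F r s = 0 := by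
      constructor
      · intro h r s
        have h0 : el = 0 := by exact_mod_cast h
        have : aeval x (F r s) = 0 := by rw [hFe, h0]; simp
        exact (injective_iff_map_eq_zero _).mp hI _ this
      · intro h
        have : φ el = 0 := by
          ext r s
          have h1 := hFe r s
          rw [h r s, map_zero] at h1
          have h2 := (mul_eq_zero.mp h1.symm).resolve_left (pow_ne_zero _ hΔ)
          simpa using h2
        have : el = 0 := hφi (by rw [this, map_zero])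
        rw [this]; simp
    rw [e1]
    constructor
    · intro h i
      have h1 := hFc (e.symm i).1 (e.symm i).2.1 (al (e.symm i).2.2)
      rw [h, MvPolynomial.coeff_zero] at h1
      rw [h1]
      refine Finset.sum_congr rfl fun d hd => ?_
      beta_reduce
      rw [dif_pos (hdeg d hd), dif_pos (hdeg d hd)]; ring
    · intro h r s
      ext α
      rw [MvPolynomial.coeff_zero, hFc]
      by_cases hα : ∀ i, α i < δ * L + 1
      · have h1 := h (e (r, s, fun i => ⟨α i, hα i⟩))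
        simp only [Equiv.symm_apply_apply] at h1
        have h2 : al (fun i => ⟨α i, hα i⟩) = α := by ext i; simp [al]
        rw [h2] at h1
        rw [← h1]
        refine Finset.sum_congr rfl fun d hd => ?_
        rw [dif_pos (hdeg d hd), dif_pos (hdeg d hd)]; ring
      · push Not at hα
        obtain ⟨i, hi⟩ := hα
        refine Finset.sum_eq_zero fun d hd => ?_
        rw [dif_pos (hdeg d hd)]
        have : (N L d (hdeg d hd) r s).coeff α = 0 := by
          by_contra hne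
          have h1 := MvPolynomial.le_totalDegree (MvPolynomial.mem_support_iff.mpr hne)
          have h2 := hN2 L d (hdeg d hd) r s
          have h3 : α i ≤ α.degree := Finsupp.le_degree i α
          have h4 : α.sum (fun _ e => e) = α.degree := rfl
          rw [h4] at h1
          omega
        rw [this]; simp



theorem Ap_lift0 {F E B D : Type} [Field F] [Field E] [CommRing B] [CommRing D] [Algebra F E] [Algebra.IsSeparable F E]
    (gF : F →+* B) (f : E →+* D) (π : B →+* D) (hπ : Function.Surjective π) (hk : IsNilpotent (RingHom.ker π))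
    (h : ∀ x, π (gF x) = f (algebraMap F E x)) : ∃ Ψ : E →+* B, (∀ x, π (Ψ x) = f x) ∧ ∀ x, Ψ (algebraMap F E x) = gF x := by
  let : Algebra F B := gF.toAlgebra
  let : Algebra F D := (f.comp (algebraMap F E)).toAlgebra
  have : Algebra.FormallyEtale F E := Algebra.FormallyEtale.of_isSeparable F E
  let f' : E →ₐ[F] D := { f with commutes' := fun r => rfl }
  let π' : B →ₐ[F] D := { π with commutes' := fun r => h r }
  let Ψ : E →ₐ[F] B := Algebra.FormallySmooth.liftOfSurjective f' π' hπ hk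
  refine ⟨Ψ, fun x => ?_, fun x => ?_⟩
  · exact Algebra.FormallySmooth.liftOfSurjective_apply f' π' hπ hk x
  · exact Ψ.commutes x

/-- the truncated polynomial ring -/
abbrev Ap_B (k s : ℕ) : Type := MvPolynomial (Fin k) ℂ ⧸ (idealOfVars (Fin k) ℂ) ^ s

theorem Ap_const {k s : ℕ} (hs : s ≠ 0) : ∀ p ∈ (idealOfVars (Fin k) ℂ) ^ s, (constantCoeff : MvPolynomial (Fin k) ℂ →+* ℂ) p = 0 := by
  intro p hp
  rw [mem_pow_idealOfVars_iff'] at hp
  exact hp 0 (by simp; omega)

/-- the constant term -/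
def Ap_pi {k s : ℕ} (hs : s ≠ 0) : Ap_B k s →+* ℂ := Ideal.Quotient.lift _ constantCoeff (Ap_const hs)

theorem Ap_mem_vars {k : ℕ} (p : MvPolynomial (Fin k) ℂ) (h : constantCoeff p = 0) : p ∈ idealOfVars (Fin k) ℂ := by
  have := (mem_pow_idealOfVars_iff' (σ := Fin k) (R := ℂ) 1 p).2 (by
    intro x hx
    have : x = 0 := by
      have : x.degree = 0 := by omega
      exact (Finsupp.degree_eq_zero_iff x).1 this
    rw [this]; exact h)
  simpa using this

theorem Ap_isUnit {k s : ℕ} (hs : s ≠ 0) (b : Ap_B k s) (hb : Ap_pi hs b ≠ 0) : IsUnit b := by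
  obtain ⟨p, rfl⟩ := Ideal.Quotient.mk_surjective b
  have hp : constantCoeff p ≠ 0 := hb
  rw [Ideal.Quotient.isUnit_mk_pow_iff_isUnit_mk _ hs]
  have : Ideal.Quotient.mk (idealOfVars (Fin k) ℂ) p = Ideal.Quotient.mk (idealOfVars (Fin k) ℂ) (C (constantCoeff p)) := by
    rw [Ideal.Quotient.eq]
    refine Ap_mem_vars _ ?_
    simp
  rw [this]
  refine IsUnit.map _ ?_
  exact (IsUnit.mk0 _ hp).map C

theorem Ap_ker {k s : ℕ} (hs : s ≠ 0) (b : Ap_B k s) (hb : Ap_pi hs b = 0) : b ∈ (idealOfVars (Fin k) ℂ).map (Ideal.Quotient.mk ((idealOfVars (Fin k) ℂ) ^ s)) := by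
  obtain ⟨p, rfl⟩ := Ideal.Quotient.mk_surjective b
  exact Ideal.mem_map_of_mem _ (Ap_mem_vars _ hb)

theorem Ap_nil {k s : ℕ} : ((idealOfVars (Fin k) ℂ).map (Ideal.Quotient.mk ((idealOfVars (Fin k) ℂ) ^ s))) ^ s = ⊥ := by
  rw [← Ideal.map_pow, Ideal.map_quotient_self]

theorem Ap_kernil {k s : ℕ} (hs : s ≠ 0) : IsNilpotent (RingHom.ker (Ap_pi (k := k) hs)) := by
  refine ⟨s, ?_⟩
  refine le_antisymm ?_ bot_le
  change RingHom.ker (Ap_pi hs) ^ s ≤ ⊥
  rw [← Ap_nil (k := k) (s := s)]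
  refine Ideal.pow_right_mono ?_ s
  intro b hb
  exact Ap_ker hs b hb

theorem Ap_surj {k s : ℕ} (hs : s ≠ 0) : Function.Surjective (Ap_pi (k := k) hs) := by
  intro x
  exact ⟨Ideal.Quotient.mk _ (C x), by simp [Ap_pi]⟩

open scoped IntermediateField.algebraAdjoinAdjoin in
/-- the map on the purely transcendental field -/
theorem Ap_gF (θ : Fin m → ℂ) {k : ℕ} (I : Fin k → Fin m) (hI : AlgebraicIndependent ℚ (fun i => θ (I i))) {s : ℕ} (hs : s ≠ 0) :
    ∃ gF : (IntermediateField.adjoin ℚ (Set.range fun i => θ (I i))) →+* Ap_B k s,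
      (∀ x, Ap_pi hs (gF x) = x) ∧ ∀ i, ∀ h, gF ⟨θ (I i), h⟩ = Ideal.Quotient.mk _ (C (θ (I i)) + X i) := by
  let g1 : MvPolynomial (Fin k) ℚ →ₐ[ℚ] Ap_B k s := aeval (fun i => Ideal.Quotient.mk _ (C (θ (I i)) + X i))
  let g0 : Algebra.adjoin ℚ (Set.range fun i => θ (I i)) →+* Ap_B k s := (g1.toRingHom).comp hI.repr.toRingHom
  have hg1 : ∀ p, Ap_pi hs (g1 p) = aeval (fun i => θ (I i)) p := by
    intro p
    have : ((Ap_pi hs).comp g1.toRingHom) = (aeval (fun i => θ (I i)) : MvPolynomial (Fin k) ℚ →ₐ[ℚ] ℂ).toRingHom := by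
      refine MvPolynomial.ringHom_ext (fun r => ?_) (fun i => ?_)
      · simp
      · simp [g1, Ap_pi]
    exact RingHom.congr_fun this p
  have hg0 : ∀ y, Ap_pi hs (g0 y) = (y : ℂ) := by
    intro y
    change Ap_pi hs (g1 (hI.repr y)) = y
    rw [hg1, hI.aeval_repr]
  have hu : ∀ y : nonZeroDivisors (Algebra.adjoin ℚ (Set.range fun i => θ (I i))), IsUnit (g0 y) := by
    intro y
    refine Ap_isUnit hs _ ?_
    rw [hg0]
    have := nonZeroDivisors.coe_ne_zero y
    exact fun h => this (Subtype.ext h)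
  let gF : (IntermediateField.adjoin ℚ (Set.range fun i => θ (I i))) →+* Ap_B k s := IsLocalization.lift (M := nonZeroDivisors (Algebra.adjoin ℚ (Set.range fun i => θ (I i)))) hu
  refine ⟨gF, ?_, ?_⟩
  · intro x
    have : (Ap_pi hs).comp gF = algebraMap (IntermediateField.adjoin ℚ (Set.range fun i => θ (I i))) ℂ := by
      refine IsLocalization.ringHom_ext (nonZeroDivisors (Algebra.adjoin ℚ (Set.range fun i => θ (I i)))) ?_
      ext y
      simp only [RingHom.comp_apply, gF, IsLocalization.lift_eq, hg0]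
      rfl
    exact RingHom.congr_fun this x
  · intro i h
    have h1 : (⟨θ (I i), h⟩ : IntermediateField.adjoin ℚ (Set.range fun i => θ (I i))) =
        algebraMap (Algebra.adjoin ℚ (Set.range fun i => θ (I i))) _ ⟨θ (I i), Algebra.subset_adjoin ⟨i, rfl⟩⟩ := rfl
    rw [h1]
    simp only [gF, IsLocalization.lift_eq]
    change g1 (hI.repr _) = _
    have h2 : hI.repr ⟨θ (I i), Algebra.subset_adjoin ⟨i, rfl⟩⟩ = X i := by
      have hinj := algebraicIndependent_iff_injective_aeval.1 hI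
      apply hinj
      rw [hI.aeval_repr, aeval_X]
    rw [h2]
    simp [g1]

theorem Ap_lift (θ : Fin m → ℂ) {k : ℕ} (I : Fin k → Fin m) (hI : AlgebraicIndependent ℚ (fun i => θ (I i)))
    (ha : ∀ j, IsAlgebraic (IntermediateField.adjoin ℚ (Set.range fun i => θ (I i))) (θ j)) {s : ℕ} (hs : s ≠ 0) :
    ∃ (E : Subfield ℂ) (Ψ : E →+* Ap_B k s) (hE : ∀ j, θ j ∈ E), (∀ x : E, Ap_pi hs (Ψ x) = x) ∧
      ∀ i, Ψ ⟨θ (I i), hE (I i)⟩ = Ideal.Quotient.mk _ (C (θ (I i)) + X i) := by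
  obtain ⟨gF, hg1, hg2⟩ := Ap_gF θ I hI hs
  let F := IntermediateField.adjoin ℚ (Set.range fun i => θ (I i))
  let E := algebraicClosure F ℂ
  have hsep : Algebra.IsSeparable F E := inferInstance
  obtain ⟨Ψ, h1, h2⟩ := Ap_lift0 (F := F) (E := E) gF (algebraMap E ℂ) (Ap_pi hs) (Ap_surj hs) (Ap_kernil hs) (fun x => by rw [hg1]; rfl)
  have hE : ∀ j, θ j ∈ E := fun j => by
    rw [mem_algebraicClosure_iff]; exact ha j
  refine ⟨E.toSubfield, Ψ, hE, fun x => h1 x, fun i => ?_⟩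
  have hF : θ (I i) ∈ F := IntermediateField.subset_adjoin _ _ ⟨i, rfl⟩
  have h3 := h2 ⟨θ (I i), hF⟩
  rw [hg2] at h3
  exact h3

/-- row Ap: jets.  The functionals `lam β` kill `p_0`, see only the coefficients of order `< s` of `φ f`, and are dual to the forms
`x_0^a ∏ (x_{I i} - θ x_0)^{β i}`. -/
theorem jets (θ : Fin m → ℂ) {k : ℕ} (I : Fin k → Fin m) (hI : AlgebraicIndependent ℚ (fun i => θ (I i)))
    (ha : ∀ j, IsAlgebraic (IntermediateField.adjoin ℚ (Set.range fun i => θ (I i))) (θ j)) (s : ℕ) :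
    ∃ lam : (Fin k →₀ ℕ) → PC m →ₗ[ℂ] ℂ,
      (∀ β, β.degree < s → ∀ f ∈ JC (p0 θ), lam β f = 0) ∧
      (∀ β, β.degree < s → ∀ L : ℕ, ∀ f : PC m, f.IsHomogeneous L → (∀ d, (phi θ f).coeff d ≠ 0 → s ≤ L - d 0) → lam β f = 0) ∧
      (∀ β β', β.degree < s → β'.degree < s → ∀ a : ℕ,
        lam β (X 0 ^ a * ∏ i, (X (I i).succ - C (θ (I i)) * X 0) ^ (β' i)) = if β = β' then 1 else 0) := by
  by_cases hs : s = 0
  · subst hs
    exact ⟨fun _ => 0, fun β h => absurd h (by omega), fun β h => absurd h (by omega), fun β _ h => absurd h (by omega)⟩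
  obtain ⟨E, Ψ, hE, h1, h2⟩ := Ap_lift θ I hI ha hs
  let mk : MvPolynomial (Fin k) ℂ →ₐ[ℂ] Ap_B k s := Ideal.Quotient.mkₐ ℂ _
  have hmks : Function.Surjective mk.toLinearMap := Ideal.Quotient.mkₐ_surjective ℂ _
  obtain ⟨σ, hσ⟩ := LinearMap.exists_rightInverse_of_surjective mk.toLinearMap (LinearMap.range_eq_top.2 hmks)
  have hσ' : ∀ b, mk (σ b) = b := fun b => LinearMap.congr_fun hσ b
  have hcoef : ∀ β : Fin k →₀ ℕ, β.degree < s → ∀ p, (σ (mk p)).coeff β = p.coeff β := by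
    intro β hβ p
    have : σ (mk p) - p ∈ (idealOfVars (Fin k) ℂ) ^ s := by
      rw [← Ideal.Quotient.eq]
      exact hσ' (mk p)
    rw [mem_pow_idealOfVars_iff'] at this
    have := this β hβ
    rw [coeff_sub, sub_eq_zero] at this
    exact this
  let u : Fin m → Ap_B k s := fun j => Ψ ⟨θ j, hE j⟩
  let ev : PC m →ₐ[ℂ] Ap_B k s := aeval (Fin.cons 1 u : Fin (m + 1) → Ap_B k s)
  have hev0 : ev (X 0) = 1 := by simp [ev]
  have hevs : ∀ j : Fin m, ev (X j.succ) = u j := fun j => by simp [ev]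
  have huI : ∀ i, u (I i) = mk (C (θ (I i)) + X i) := fun i => h2 i
  refine ⟨fun β => (MvPolynomial.lcoeff ℂ β).comp (σ.comp ev.toLinearMap), ?_, ?_, ?_⟩
  · intro β hβ f hf
    suffices h : ev f = 0 by
      simp [h]
    have hle : JC (p0 θ) ≤ RingHom.ker ev.toRingHom := by
      rw [JC, Ideal.map_le_iff_le_comap]
      intro g hg
      rw [Ideal.mem_comap, RingHom.mem_ker]
      have hg0 : MvPolynomial.aeval (Fin.cons 1 θ : Fin (m + 1) → ℂ) g = 0 := by
        have h3 : (MvPolynomial.aeval (Fin.cons Polynomial.X (fun i : Fin m => Polynomial.C (θ i) * Polynomial.X) : Fin (m + 1) → Polynomial ℂ) :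
          PQ m →ₐ[ℚ] Polynomial ℂ) g = 0 := hg
        have h4 : ((Polynomial.evalRingHom (1 : ℂ)).comp (MvPolynomial.aeval (Fin.cons Polynomial.X (fun i : Fin m => Polynomial.C (θ i) * Polynomial.X) : Fin (m + 1) → Polynomial ℂ) :
          PQ m →ₐ[ℚ] Polynomial ℂ).toRingHom) = (MvPolynomial.aeval (Fin.cons 1 θ : Fin (m + 1) → ℂ) : PQ m →ₐ[ℚ] ℂ).toRingHom := by
          refine MvPolynomial.ringHom_ext (fun r => ?_) (fun i => ?_)
          · simp
          · refine Fin.cases ?_ (fun j => ?_) i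
            · simp
            · simp
        have h5 := RingHom.congr_fun h4 g
        rw [RingHom.comp_apply] at h5
        have h6 : (MvPolynomial.aeval (Fin.cons 1 θ : Fin (m + 1) → ℂ) : PQ m →ₐ[ℚ] ℂ) g = Polynomial.evalRingHom (1 : ℂ) 0 := by
          rw [← h3]; exact h5.symm
        simpa using h6
      let e : PQ m →ₐ[ℚ] E := MvPolynomial.aeval (Fin.cons 1 (fun j => ⟨θ j, hE j⟩) : Fin (m + 1) → E)
      have h7 : (algebraMap E ℂ).comp e.toRingHom = (MvPolynomial.aeval (Fin.cons 1 θ : Fin (m + 1) → ℂ) : PQ m →ₐ[ℚ] ℂ).toRingHom := by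
        refine MvPolynomial.ringHom_ext (fun r => ?_) (fun i => ?_)
        · simp [e]
        · refine Fin.cases ?_ (fun j => ?_) i
          · simp [e]
          · simp [e]; rfl
      have h8 : e g = 0 := by
        have h9 := RingHom.congr_fun h7 g
        have h10 : algebraMap E ℂ (e g) = 0 := by
          rw [← hg0]; exact h9
        exact (map_eq_zero (algebraMap E ℂ)).1 h10
      have h11 : ev.toRingHom.comp (MvPolynomial.map (algebraMap ℚ ℂ)) = Ψ.comp e.toRingHom := by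
        refine MvPolynomial.ringHom_ext (fun r => ?_) (fun i => ?_)
        · have h14 : (algebraMap ℂ (Ap_B k s)).comp (algebraMap ℚ ℂ) = Ψ.comp (algebraMap ℚ E) := Subsingleton.elim _ _
          have h15 := RingHom.congr_fun h14 r
          simp only [RingHom.comp_apply] at h15
          simp only [RingHom.comp_apply, map_C]
          change ev (C (algebraMap ℚ ℂ r)) = Ψ (e (C r))
          rw [← algebraMap_eq, AlgHom.commutes, ← algebraMap_eq, AlgHom.commutes]
          exact h15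
        · refine Fin.cases ?_ (fun j => ?_) i
          · simp [e, ev]
          · simp [e, ev, u]
      have h12 := RingHom.congr_fun h11 g
      have h13 : ev.toRingHom (MvPolynomial.map (algebraMap ℚ ℂ) g) = Ψ (e g) := h12
      rw [h13, h8, map_zero]
    exact hle hf
  · intro β hβ L f hf h
    suffices h : ev f = 0 by
      simp [h]
    have hev : ∀ g : PC m, ev (phi (-θ) g) = aeval (Fin.cons 1 (fun j => u j - algebraMap ℂ _ (θ j)) : Fin (m + 1) → Ap_B k s) g := by
      intro g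
      have : ev.comp (phi (-θ)) = aeval (Fin.cons 1 (fun j => u j - algebraMap ℂ _ (θ j)) : Fin (m + 1) → Ap_B k s) := by
        refine MvPolynomial.algHom_ext (fun i => ?_)
        refine Fin.cases ?_ (fun j => ?_) i
        · simp [phi, ev]
        · simp only [phi, ev, AlgHom.comp_apply, aeval_X, Fin.cons_succ, map_add, map_mul, Fin.cons_zero, Pi.neg_apply, map_neg, algHom_C, mul_one]
          ring
      exact AlgHom.congr_fun this g
    rw [← phi_neg' θ f, hev, aeval_def, eval₂_eq]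
    refine Finset.sum_eq_zero (fun d hd => ?_)
    have hd' : (phi θ f).coeff d ≠ 0 := by simpa using hd
    have h3 := h d hd'
    have h4 : d.degree = L := by
      have := (phi_hom θ hf) hd'
      rw [Finsupp.degree_eq_weight_one]
      exact this
    have h5 : ∏ i ∈ d.support, (Fin.cons 1 (fun j => u j - algebraMap ℂ _ (θ j)) : Fin (m + 1) → Ap_B k s) i ^ d i = 0 := by
      have h6 : ∏ i ∈ d.support, (Fin.cons 1 (fun j => u j - algebraMap ℂ _ (θ j)) : Fin (m + 1) → Ap_B k s) i ^ d i =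
          ∏ j : Fin m, (u j - algebraMap ℂ _ (θ j)) ^ d j.succ := by
        rw [Finset.prod_subset (Finset.subset_univ _)]
        · rw [Fin.prod_univ_succ]; simp
        · intro i _ hi
          simp only [Finsupp.mem_support_iff, not_not] at hi
          rw [hi, pow_zero]
      rw [h6]
      have h7 : ∏ j : Fin m, (u j - algebraMap ℂ _ (θ j)) ^ d j.succ ∈
          ∏ j : Fin m, ((idealOfVars (Fin k) ℂ).map (Ideal.Quotient.mk ((idealOfVars (Fin k) ℂ) ^ s))) ^ (d j.succ) := by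
        refine Ideal.prod_mem_prod (fun j _ => Ideal.pow_mem_pow ?_ _)
        refine Ap_ker hs _ ?_
        rw [map_sub, h1]
        have : Ap_pi hs (algebraMap ℂ (Ap_B k s) (θ j)) = θ j := by
          change Ap_pi hs (Ideal.Quotient.mk _ (C (θ j))) = _
          simp [Ap_pi]
        rw [this]
        simp
      have h8 : s ≤ ∑ j : Fin m, d j.succ := by
        have : d.degree = d 0 + ∑ j : Fin m, d j.succ := by
          rw [Finsupp.degree_eq_sum, Fin.sum_univ_succ]
        omega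
      rw [Finset.prod_pow_eq_pow_sum] at h7
      have h9 := Ideal.pow_le_pow_right h8 h7
      rw [Ap_nil] at h9
      simpa using h9
    rw [h5, mul_zero]
  · intro β β' hβ hβ' a
    have h3 : ev (X 0 ^ a * ∏ i, (X (I i).succ - C (θ (I i)) * X 0) ^ (β' i)) = mk (monomial β' 1) := by
      rw [map_mul, map_pow, hev0, one_pow, one_mul, map_prod]
      rw [show (monomial β' (1 : ℂ)) = ∏ i, (X i : MvPolynomial (Fin k) ℂ) ^ β' i by
        rw [monomial_eq, Finsupp.prod_fintype]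
        · simp
        · intro i; exact pow_zero _]
      rw [map_prod]
      refine Finset.prod_congr rfl (fun i _ => ?_)
      rw [map_pow, map_pow, map_sub, map_mul, hev0, hevs, huI, map_add, mul_one]
      congr 1
      have : ev (C (θ (I i))) = mk (C (θ (I i))) := by
        rw [← algebraMap_eq, AlgHom.commutes, ← algebraMap_eq, AlgHom.commutes]
      rw [this]
      ring
    change (σ (ev _)).coeff β = _
    rw [h3, hcoef β hβ, coeff_monomial]
    simp only [eq_comm]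



/-- the coefficient vector of a functional -/
private def Aq_vec {ι : Type} [Fintype ι] [DecidableEq ι] :
    Module.Dual ℂ (ι → ℂ) →ₗ[ℂ] EuclideanSpace ℂ ι where
  toFun f := WithLp.toLp 2 (fun i => f (Pi.single i 1))
  map_add' _ _ := rfl
  map_smul' _ _ := rfl

private theorem Aq_vec_apply {ι : Type} [Fintype ι] [DecidableEq ι] (f : Module.Dual ℂ (ι → ℂ))
    (i : ι) : (Aq_vec f) i = f (Pi.single i 1) := rfl

/-- the pairing -/
private def Aq_pair {ι : Type} [Fintype ι] (v : EuclideanSpace ℂ ι) (x : ι → ℂ) : ℂ :=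
  ∑ i, v i * x i

private theorem Aq_eval {ι : Type} [Fintype ι] [DecidableEq ι] (f : Module.Dual ℂ (ι → ℂ))
    (x : ι → ℂ) : f x = Aq_pair (Aq_vec f) x := by
  conv_lhs => rw [← Finset.univ_sum_single x, map_sum]
  unfold Aq_pair
  refine Finset.sum_congr rfl fun i _ => ?_
  rw [Aq_vec_apply]
  have h1 : (Pi.single i (x i) : ι → ℂ) = x i • Pi.single i (1 : ℂ) := by
    rw [← Pi.single_smul, smul_eq_mul, mul_one]
  rw [h1, map_smul, smul_eq_mul, mul_comm]

private theorem Aq_inj {ι : Type} [Fintype ι] [DecidableEq ι] :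
    Function.Injective (Aq_vec (ι := ι)) := by
  intro f g h
  refine LinearMap.ext fun x => ?_
  rw [Aq_eval, Aq_eval, h]

private theorem Aq_pair_sum {ι κ : Type} [Fintype ι] [Fintype κ] (c : κ → ℂ)
    (b : κ → EuclideanSpace ℂ ι) (x : ι → ℂ) :
    Aq_pair (∑ l, c l • b l) x = ∑ l, c l * Aq_pair (b l) x := by
  unfold Aq_pair
  simp only [Finset.mul_sum]
  rw [Finset.sum_comm]
  refine Finset.sum_congr rfl fun i _ => ?_
  rw [WithLp.ofLp_sum, Finset.sum_apply, Finset.sum_mul]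
  refine Finset.sum_congr rfl fun l _ => ?_
  rw [WithLp.ofLp_smul, Pi.smul_apply, smul_eq_mul, mul_assoc]

private theorem Aq_norm_le {ι : Type} [Fintype ι] (v : EuclideanSpace ℂ ι) {Q : ℝ} (hQ : 0 ≤ Q)
    (h : ∀ i, ‖v i‖ ≤ Q) : ‖v‖ ≤ Q * Fintype.card ι := by
  rw [EuclideanSpace.norm_eq]
  have h1 : (0 : ℝ) ≤ Q * Fintype.card ι := by positivity
  rw [Real.sqrt_le_left h1]
  have h2 : ∑ i, ‖v i‖ ^ 2 ≤ ∑ _i : ι, Q ^ 2 := by
    refine Finset.sum_le_sum fun i _ => ?_
    exact pow_le_pow_left₀ (norm_nonneg _) (h i) 2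
  refine h2.trans ?_
  rw [Finset.sum_const, Finset.card_univ, nsmul_eq_mul, mul_pow, mul_comm]
  refine mul_le_mul_of_nonneg_left ?_ (by positivity)
  rcases Nat.eq_zero_or_pos (Fintype.card ι) with h0 | h0
  · rw [h0]; norm_num
  · have : (1 : ℝ) ≤ Fintype.card ι := by exact_mod_cast h0
    nlinarith

private theorem Aq_pair_le {ι : Type} [Fintype ι] (v : EuclideanSpace ℂ ι) (hv : ‖v‖ ≤ 1)
    (W : ι → ℝ) (hW : ∀ i, 1 ≤ W i) (x : ι → ℂ) : ‖Aq_pair v x‖ ≤ ∑ i, W i * ‖x i‖ := by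
  unfold Aq_pair
  refine (norm_sum_le _ _).trans (Finset.sum_le_sum fun i _ => ?_)
  rw [norm_mul]
  exact mul_le_mul_of_nonneg_right (((PiLp.norm_apply_le v i).trans hv).trans (hW i))
    (norm_nonneg _)

private theorem Aq_pair_le_low {ι : Type} [Fintype ι] (v : EuclideanSpace ℂ ι) (hv : ‖v‖ ≤ 1)
    (W : ι → ℝ) (hW : ∀ i, 1 ≤ W i) (low : Set ι) {a : ℝ} (hlow : ∀ i ∈ low, Real.exp a ≤ W i)
    (h0 : ∀ i, i ∉ low → v i = 0) (x : ι → ℂ) :
    ‖Aq_pair v x‖ ≤ Real.exp (-a) * ∑ i, W i * ‖x i‖ := by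
  unfold Aq_pair
  rw [Finset.mul_sum]
  refine (norm_sum_le _ _).trans (Finset.sum_le_sum fun i _ => ?_)
  rw [norm_mul, ← mul_assoc]
  refine mul_le_mul_of_nonneg_right ?_ (norm_nonneg _)
  by_cases hi : i ∈ low
  · refine ((PiLp.norm_apply_le v i).trans hv).trans ?_
    rw [Real.exp_neg, inv_mul_eq_div, le_div_iff₀ (Real.exp_pos a), one_mul]
    exact hlow i hi
  · rw [h0 i hi, norm_zero]
    have := hW i
    positivity

private theorem Aq_prod {r n0 : ℕ} (h : n0 ≤ r) (e : ℝ) :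
    ∏ l : Fin r, (if (l : ℕ) < n0 then e else 1) = e ^ n0 := by
  rw [Finset.prod_ite, Finset.prod_const_one, mul_one, Finset.prod_const]
  congr 1
  have h1 : (Finset.univ.filter fun l : Fin r => (l : ℕ) < n0) =
      Finset.univ.map ⟨Fin.castLE h, Fin.castLE_injective h⟩ := by
    ext l
    simp only [Finset.mem_filter, Finset.mem_univ, true_and, Finset.mem_map,
      Function.Embedding.coeFn_mk]
    constructor
    · intro hl
      exact ⟨⟨l, hl⟩, rfl⟩
    · rintro ⟨j, rfl⟩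
      exact j.2
  rw [h1, Finset.card_map, Finset.card_univ, Fintype.card_fin]

private theorem Aq_det {r n0 : ℕ} (h : n0 ≤ r) (N : Matrix (Fin r) (Fin r) ℂ) (w : Fin r → ℝ)
    (e : ℝ) (hN : ∀ l j, ‖N l j‖ ≤ (if (l : ℕ) < n0 then e else 1) * w j) :
    ‖N.det‖ ≤ r.factorial * (e ^ n0 * ∏ j, w j) := by
  rw [Matrix.det_apply]
  refine (norm_sum_le _ _).trans ?_
  have h1 : ∀ σ ∈ (Finset.univ : Finset (Equiv.Perm (Fin r))),
      ‖Equiv.Perm.sign σ • ∏ i, N (σ i) i‖ ≤ e ^ n0 * ∏ j, w j := by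
    intro σ _
    have h2 : ‖Equiv.Perm.sign σ • ∏ i, N (σ i) i‖ = ∏ i, ‖N (σ i) i‖ := by
      rcases Int.units_eq_one_or (Equiv.Perm.sign σ) with h3 | h3
      · rw [h3, one_smul, norm_prod]
      · rw [h3, Units.neg_smul, one_smul, norm_neg, norm_prod]
    rw [h2]
    refine (Finset.prod_le_prod (fun i _ => norm_nonneg _) fun i _ => hN (σ i) i).trans ?_
    rw [Finset.prod_mul_distrib,
      Equiv.prod_comp σ (fun l : Fin r => if (l : ℕ) < n0 then e else 1), Aq_prod h]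
  refine (Finset.sum_le_card_nsmul _ _ _ h1).trans ?_
  rw [Finset.card_univ, Fintype.card_perm, Fintype.card_fin, nsmul_eq_mul]

/-- row Aq: linear algebra.  `W` weights, `low` the coordinates with weight at least `e^a`; `ψ` functionals with coefficients at most `Q`,
a basis of the functionals killing `S`; `lam` independent functionals killing `S` and the coordinates outside `low`. -/
theorem det_bound {ι : Type} [Fintype ι] [DecidableEq ι] (S : Submodule ℂ (ι → ℂ)) (W : ι → ℝ) (hW : ∀ i, 1 ≤ W i) (low : Set ι) {a : ℝ} (ha : 0 ≤ a)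
    (hlow : ∀ i ∈ low, Real.exp a ≤ W i) {r n0 : ℕ} (hr : r = Module.finrank ℂ ((ι → ℂ) ⧸ S)) (ψ : Fin r → ((ι → ℂ) →ₗ[ℂ] ℂ))
    (hψ : ∀ i, ∀ x ∈ S, ψ i x = 0) {Q : ℝ} (hQ : 1 ≤ Q) (hψQ : ∀ i j, ‖ψ i (Pi.single j 1)‖ ≤ Q)
    (lam : Fin n0 → ((ι → ℂ) →ₗ[ℂ] ℂ)) (hlS : ∀ i, ∀ x ∈ S, lam i x = 0) (hlow' : ∀ i, ∀ j, j ∉ low → lam i (Pi.single j 1) = 0)
    (hli : LinearIndependent ℂ lam) (g : Fin r → (ι → ℂ)) :
    ‖(Matrix.of fun i j => ψ i (g j)).det‖ ≤ ((r.factorial : ℝ) ^ 2 * (Q * Fintype.card ι) ^ r) * Real.exp (-(a * n0)) * ∏ j, ∑ i, W i * ‖g j i‖ := by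
  classical
  -- the space of the functionals killing `S`
  let V : Submodule ℂ (EuclideanSpace ℂ ι) := (Submodule.dualAnnihilator S).map Aq_vec
  have hVr : Module.finrank ℂ V = r := by
    have h1 := (Submodule.equivMapOfInjective Aq_vec Aq_inj (Submodule.dualAnnihilator S)).finrank_eq
    have h2 := (Submodule.dualQuotEquivDualAnnihilator S).finrank_eq
    rw [Subspace.dual_finrank_eq] at h2
    exact (h1.symm.trans h2.symm).trans hr.symm
  have hmem : ∀ f : Module.Dual ℂ (ι → ℂ), (∀ x ∈ S, f x = 0) → Aq_vec f ∈ V := by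
    intro f hf
    exact ⟨f, (Submodule.mem_dualAnnihilator f).2 hf, rfl⟩
  -- the subspace of the functionals `lam`
  have hli' : LinearIndependent ℂ (fun i => Aq_vec (lam i)) :=
    hli.map' Aq_vec (LinearMap.ker_eq_bot.2 Aq_inj)
  let U : Submodule ℂ (EuclideanSpace ℂ ι) := Submodule.span ℂ (Set.range fun i => Aq_vec (lam i))
  have hUn : Module.finrank ℂ U = n0 := by
    rw [finrank_span_eq_card hli', Fintype.card_fin]
  have hUV : U ≤ V := by
    refine Submodule.span_le.2 ?_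
    rintro _ ⟨i, rfl⟩
    exact hmem _ (hlS i)
  have hn : n0 ≤ r := by
    rw [← hUn, ← hVr]
    exact Submodule.finrank_mono hUV
  have hUlow : ∀ v ∈ U, ∀ i, i ∉ low → v i = 0 := by
    intro v hv i hi
    induction hv using Submodule.span_induction with
    | mem x hx =>
      obtain ⟨j, rfl⟩ := hx
      exact hlow' j i hi
    | zero => rfl
    | add x y _ _ hx hy =>
      show x i + y i = 0
      rw [hx, hy, add_zero]
    | smul c x _ hx =>
      show c * x i = 0
      rw [hx, mul_zero]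
  let u := (stdOrthonormalBasis ℂ U).reindex (finCongr hUn)
  let v : Fin r → V := fun i => if h : (i : ℕ) < n0 then ⟨u ⟨i, h⟩, hUV (u ⟨i, h⟩).2⟩ else 0
  let s : Set (Fin r) := {i | (i : ℕ) < n0}
  have hvs : Orthonormal ℂ (s.domRestrict v) := by
    have h1 : Orthonormal ℂ (fun i : s => ((s.domRestrict v i : V) : EuclideanSpace ℂ ι)) := by
      have h2 : (fun i : s => ((s.domRestrict v i : V) : EuclideanSpace ℂ ι)) =
          fun i : s => ((u ⟨(i : Fin r), i.2⟩ : U) : EuclideanSpace ℂ ι) := by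
        funext i
        have hi : ((i : Fin r) : ℕ) < n0 := i.2
        show ((v i : V) : EuclideanSpace ℂ ι) = _
        simp only [v]
        rw [dif_pos hi]
      rw [h2]
      have h3 : Orthonormal ℂ (fun i : s => u ⟨(i : Fin r), i.2⟩) := by
        refine u.orthonormal.comp (fun i : s => (⟨(i : Fin r), i.2⟩ : Fin n0)) ?_
        intro i j hij
        have := congrArg Fin.val hij
        exact Subtype.ext (Fin.ext this)
      exact (U.subtypeₗᵢ.orthonormal_comp_iff).2 h3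
    have h4 : Orthonormal ℂ (V.subtypeₗᵢ ∘ s.domRestrict v) := h1
    exact V.subtypeₗᵢ.orthonormal_comp_iff.1 h4
  obtain ⟨b, hb⟩ := hvs.exists_orthonormalBasis_extension_of_card_eq
    (by rw [hVr, Fintype.card_fin])
  -- factorization of the matrix
  let A : Matrix (Fin r) (Fin r) ℂ := Matrix.of fun i l =>
    b.repr ⟨Aq_vec (ψ i), hmem _ (hψ i)⟩ l
  let N : Matrix (Fin r) (Fin r) ℂ := Matrix.of fun l j => Aq_pair (b l : EuclideanSpace ℂ ι) (g j)
  have hfac : (Matrix.of fun i j => ψ i (g j)) = A * N := by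
    ext i j
    rw [Matrix.mul_apply, Matrix.of_apply]
    have h1 := b.sum_repr ⟨Aq_vec (ψ i), hmem _ (hψ i)⟩
    have h2 := congrArg (fun t : V => (t : EuclideanSpace ℂ ι)) h1
    simp only [Submodule.coe_sum, Submodule.coe_smul] at h2
    rw [Aq_eval, ← h2, Aq_pair_sum]
    rfl
  have hb1 : ∀ l, ‖(b l : EuclideanSpace ℂ ι)‖ ≤ 1 := fun l => (b.norm_eq_one l).le
  have hA : ∀ i l, ‖A i l‖ ≤ Q * Fintype.card ι := by
    intro i l
    have h1 : ‖A i l‖ ≤ ‖(⟨Aq_vec (ψ i), hmem _ (hψ i)⟩ : V)‖ := by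
      rw [← b.repr.norm_map]
      exact PiLp.norm_apply_le _ l
    refine h1.trans ?_
    exact Aq_norm_le (Aq_vec (ψ i)) (by linarith) (hψQ i)
  have hdA : ‖A.det‖ ≤ r.factorial * (Q * Fintype.card ι) ^ r := by
    have h1 := Matrix.det_le (A := A) (abv := (NormedField.toAbsoluteValue ℂ)) (x := Q * Fintype.card ι) hA
    rw [Fintype.card_fin, nsmul_eq_mul] at h1
    exact h1
  have hw0 : ∀ j, 0 ≤ ∑ i, W i * ‖g j i‖ := by
    intro j
    refine Finset.sum_nonneg fun i _ => ?_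
    have := hW i
    positivity
  have hdN : ‖N.det‖ ≤ r.factorial * (Real.exp (-a) ^ n0 * ∏ j, ∑ i, W i * ‖g j i‖) := by
    refine Aq_det hn N _ _ ?_
    intro l j
    by_cases hl : (l : ℕ) < n0
    · rw [if_pos hl]
      refine Aq_pair_le_low _ (hb1 l) W hW low hlow ?_ _
      have h2 : (b l : EuclideanSpace ℂ ι) ∈ U := by
        rw [hb l hl]
        simp only [v]
        rw [dif_pos hl]
        exact (u ⟨l, hl⟩).2
      exact hUlow _ h2
    · rw [if_neg hl, one_mul]
      exact Aq_pair_le _ (hb1 l) W hW _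
  rw [hfac, Matrix.det_mul, norm_mul]
  refine (mul_le_mul hdA hdN (norm_nonneg _) (by positivity)).trans ?_
  rw [← Real.exp_nat_mul]
  have h3 : (n0 : ℝ) * -a = -(a * n0) := by ring
  rw [h3]
  apply le_of_eq
  ring



private def Ar1_DL (m L : ℕ) : Finset (Fin (m + 1) →₀ ℕ) := Finset.finsuppAntidiag Finset.univ L

private theorem Ar1_mem {L : ℕ} {d : Fin (m + 1) →₀ ℕ} : d ∈ Ar1_DL m L ↔ d.degree = L := by
  unfold Ar1_DL
  rw [Finset.mem_finsuppAntidiag, Finsupp.degree_eq_sum]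
  exact ⟨fun h => h.1, fun h => ⟨h, Finset.subset_univ _⟩⟩

private def Ar1_Phi {R : Type} [CommRing R] (L : ℕ) (b : (Fin (m + 1) →₀ ℕ) → R) :
    MvPolynomial (Fin (m + 1)) R →ₗ[R] R := ∑ d ∈ Ar1_DL m L, b d • MvPolynomial.lcoeff R d

private theorem Ar1_Phi_apply {R : Type} [CommRing R] (L : ℕ) (b : (Fin (m + 1) →₀ ℕ) → R)
    (f : MvPolynomial (Fin (m + 1)) R) : Ar1_Phi L b f = ∑ d ∈ Ar1_DL m L, b d * f.coeff d := by
  unfold Ar1_Phi
  rw [LinearMap.sum_apply]
  rfl

private theorem Ar1_Phi_hom {R : Type} [CommRing R] (L : ℕ) (b : (Fin (m + 1) →₀ ℕ) → R)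
    {f : MvPolynomial (Fin (m + 1)) R} (hf : f.IsHomogeneous L) :
    Ar1_Phi L b f = ∑ d ∈ f.support, b d * f.coeff d := by
  rw [Ar1_Phi_apply]
  symm
  apply Finset.sum_subset
  · intro d hd
    rw [Ar1_mem]
    by_contra hne
    exact (MvPolynomial.mem_support_iff.1 hd) (hf.coeff_eq_zero hne)
  · intro d _ hd
    rw [MvPolynomial.notMem_support_iff.1 hd, mul_zero]

private theorem Ar1_Phi_comp {R : Type} [CommRing R] (L : ℕ) (b : (Fin (m + 1) →₀ ℕ) → R)
    (f : MvPolynomial (Fin (m + 1)) R) :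
    Ar1_Phi L b (MvPolynomial.homogeneousComponent L f) = Ar1_Phi L b f := by
  rw [Ar1_Phi_apply, Ar1_Phi_apply]
  apply Finset.sum_congr rfl
  intro d hd
  rw [MvPolynomial.coeff_homogeneousComponent, if_pos (Ar1_mem.1 hd)]

/-- choice of coordinates -/
private theorem Ar1_rows {q r : ℕ} (S : Submodule ℚ (Fin q → ℚ)) (hr : Module.finrank ℚ S = r) :
    ∃ e : Fin r → Fin q, ∀ v ∈ S, (∀ i, v (e i) = 0) → v = 0 := by
  subst hr
  obtain ⟨κ, a, ha, hspan, hind⟩ := exists_linearIndependent' ℚ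
    (fun i : Fin q => ((LinearMap.proj i : (Fin q → ℚ) →ₗ[ℚ] ℚ).comp S.subtype : Module.Dual ℚ S))
  have : Finite κ := Finite.of_injective a ha
  have : Fintype κ := Fintype.ofFinite κ
  have hinj : ∀ v ∈ S, (∀ i, v (a i) = 0) → v = 0 := by
    intro v hv h0
    funext i
    have h1 : ((LinearMap.proj i : (Fin q → ℚ) →ₗ[ℚ] ℚ).comp S.subtype : Module.Dual ℚ S) ∈
        Submodule.span ℚ (Set.range ((fun i : Fin q => ((LinearMap.proj i : (Fin q → ℚ) →ₗ[ℚ] ℚ).comp S.subtype :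
          Module.Dual ℚ S)) ∘ a)) := by
      rw [hspan]
      exact Submodule.subset_span ⟨i, rfl⟩
    have h2 : ∀ φ ∈ Submodule.span ℚ (Set.range ((fun i : Fin q => ((LinearMap.proj i : (Fin q → ℚ) →ₗ[ℚ] ℚ).comp
        S.subtype : Module.Dual ℚ S)) ∘ a)), φ ⟨v, hv⟩ = 0 := by
      intro φ hφ
      induction hφ using Submodule.span_induction with
      | mem x hx =>
        obtain ⟨j, rfl⟩ := hx
        exact h0 j
      | zero => rfl
      | add x y _ _ hx hy => rw [LinearMap.add_apply, hx, hy, add_zero]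
      | smul c x _ hx => rw [LinearMap.smul_apply, hx, smul_zero]
    exact h2 _ h1
  have hcard1 : Fintype.card κ ≤ Module.finrank ℚ S := by
    have := hind.fintype_card_le_finrank
    rwa [Subspace.dual_finrank_eq] at this
  have hcard2 : Module.finrank ℚ S ≤ Fintype.card κ := by
    have hl : Function.Injective (((LinearMap.pi fun j : κ => (LinearMap.proj (a j) : (Fin q → ℚ) →ₗ[ℚ] ℚ))).comp
        S.subtype : S →ₗ[ℚ] (κ → ℚ)) := by
      rw [← LinearMap.ker_eq_bot, LinearMap.ker_eq_bot']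
      rintro ⟨v, hv⟩ h
      have h1 : ∀ j, v (a j) = 0 := fun j => congrFun h j
      exact Subtype.ext (hinj v hv h1)
    have := LinearMap.finrank_le_finrank_of_injective hl
    rwa [Module.finrank_fintype_fun_eq_card] at this
  have hcard : Fintype.card κ = Module.finrank ℚ S := le_antisymm hcard1 hcard2
  let ee : Fin (Module.finrank ℚ S) ≃ κ := (Fintype.equivFinOfCardEq hcard).symm
  refine ⟨fun i => a (ee i), fun v hv h => hinj v hv (fun j => ?_)⟩
  have := h (ee.symm j)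
  simpa using this

/-- the functionals vanish on the complexified ideal -/
private theorem Ar1_JC {J : Ideal (PQ m)} (hJ : HI J) (L : ℕ) (a : (Fin (m + 1) →₀ ℕ) → ℤ)
    (h : ∀ g ∈ J, g.IsHomogeneous L → ∑ d ∈ g.support, (a d : ℚ) * g.coeff d = 0) :
    ∀ f ∈ JC J, Ar1_Phi L (fun d => (a d : ℂ)) f = 0 := by
  have h1 : ∀ g ∈ J, Ar1_Phi L (fun d => (a d : ℚ)) g = 0 := by
    intro g hg
    rw [← Ar1_Phi_comp, Ar1_Phi_hom L _ (MvPolynomial.homogeneousComponent_isHomogeneous L g)]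
    exact h _ (hJ g hg L) (MvPolynomial.homogeneousComponent_isHomogeneous L g)
  have h2 : ∀ g ∈ J, Ar1_Phi L (fun d => (a d : ℂ)) (MvPolynomial.map (algebraMap ℚ ℂ) g) = 0 := by
    intro g hg
    have h3 : Ar1_Phi L (fun d => (a d : ℂ)) (MvPolynomial.map (algebraMap ℚ ℂ) g) =
        algebraMap ℚ ℂ (Ar1_Phi L (fun d => (a d : ℚ)) g) := by
      rw [Ar1_Phi_apply, Ar1_Phi_apply, map_sum]
      apply Finset.sum_congr rfl
      intro d _
      rw [MvPolynomial.coeff_map, map_mul]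
      simp
    rw [h3, h1 g hg, map_zero]
  intro f hf
  have key : ∀ f ∈ JC J, ∀ c : PC m, Ar1_Phi L (fun d => (a d : ℂ)) (c * f) = 0 := by
    intro f hf
    unfold JC Ideal.map at hf
    induction hf using Submodule.span_induction with
    | mem x hx =>
      obtain ⟨g, hg, rfl⟩ := hx
      intro c
      induction c using MvPolynomial.induction_on' with
      | monomial u z =>
        have h3 : (MvPolynomial.monomial u z : PC m) * MvPolynomial.map (algebraMap ℚ ℂ) g =
            z • MvPolynomial.map (algebraMap ℚ ℂ) (MvPolynomial.monomial u 1 * g) := by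
          rw [map_mul, MvPolynomial.map_monomial, map_one, ← smul_mul_assoc, MvPolynomial.smul_monomial,
            smul_eq_mul, mul_one]
        have h4 : Ar1_Phi L (fun d => (a d : ℂ)) ((MvPolynomial.monomial u z : PC m) *
            MvPolynomial.map (algebraMap ℚ ℂ) g) = 0 := by
          rw [h3, map_smul, h2 _ (J.mul_mem_left _ hg), smul_zero]
        exact h4
      | add p q hp hq => rw [add_mul, map_add, hp, hq, add_zero]
    | zero => intro c; rw [mul_zero, map_zero]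
    | add x y _ _ hx hy => intro c; rw [mul_add, map_add, hx, hy, add_zero]
    | smul b x _ hx => intro c; rw [smul_eq_mul, ← mul_assoc]; exact hx _
  have := key f hf 1
  rwa [one_mul] at this

/-- row Ar1: a basis of integer functionals (from `intFun`) -/
theorem funBasis (θ : Fin m → ℂ) {k : ℕ} (I : Fin k → Fin m) (hI : AlgebraicIndependent ℚ (fun i => θ (I i)))
    (ha : ∀ j, IsAlgebraic (IntermediateField.adjoin ℚ (Set.range fun i => θ (I i))) (θ j)) :
    ∃ C : ℝ, 0 < C ∧ ∀ L : ℕ, (rJ (p0 θ) L : ℝ) ≤ C * ((L : ℝ) + 1) ^ k ∧ ∃ a : Fin (rJ (p0 θ) L) → (Fin (m + 1) →₀ ℕ) → ℤ,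
      (∀ i d, |(a i d : ℝ)| ≤ Real.exp (C * (L + 1))) ∧
      (∀ f ∈ JC (p0 θ), f.IsHomogeneous L → ∀ i, ∑ d ∈ f.support, (a i d : ℂ) * f.coeff d = 0) ∧
      ∀ f : Fin (rJ (p0 θ) L) → PZ m, IsBas (p0 θ) L f → (Matrix.of fun i j => ∑ d ∈ (f j).support, a i d * (f j).coeff d).det ≠ 0 := by
  obtain ⟨C, hC, hmain⟩ := intFun θ I hI ha
  refine ⟨C, hC, fun L => ?_⟩
  obtain ⟨q, a, hq, hab, hker⟩ := hmain L
  -- the linear maps
  let V : Submodule ℚ (PQ m) := MvPolynomial.homogeneousSubmodule (Fin (m + 1)) ℚ L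
  let π : V →ₗ[ℚ] (PQ m ⧸ p0 θ) := (Ideal.Quotient.mkₐ ℚ (p0 θ)).toLinearMap.comp V.subtype
  let Φ : V →ₗ[ℚ] (Fin q → ℚ) := (LinearMap.pi fun i => Ar1_Phi L (fun d => (a i d : ℚ))).comp V.subtype
  have hΦ : ∀ (f : PQ m) (hf : f.IsHomogeneous L) (i : Fin q), Φ ⟨f, hf⟩ i = ∑ d ∈ f.support, (a i d : ℚ) * f.coeff d := by
    intro f hf i
    exact Ar1_Phi_hom L _ hf
  have hkerΦ : LinearMap.ker Φ = LinearMap.ker π := by
    ext ⟨f, hf⟩
    rw [LinearMap.mem_ker, LinearMap.mem_ker]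
    have h1 : π ⟨f, hf⟩ = 0 ↔ f ∈ p0 θ := Ideal.Quotient.eq_zero_iff_mem
    rw [h1, hker f hf]
    constructor
    · intro h i
      rw [← hΦ f hf i, h]
      rfl
    · intro h
      funext i
      rw [hΦ f hf i]
      exact h i
  have hrange : LinearMap.range π = qd (p0 θ) L := by
    unfold qd
    rw [LinearMap.range_comp, Submodule.range_subtype]
  have hfr : Module.finrank ℚ (LinearMap.range Φ) = rJ (p0 θ) L := by
    unfold rJ
    rw [← hrange]
    have e1 : (V ⧸ LinearMap.ker Φ) ≃ₗ[ℚ] LinearMap.range Φ := Φ.quotKerEquivRange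
    have e2 : (V ⧸ LinearMap.ker π) ≃ₗ[ℚ] LinearMap.range π := π.quotKerEquivRange
    rw [← e1.finrank_eq, ← e2.finrank_eq, hkerΦ]
  obtain ⟨e0, he0⟩ := Ar1_rows (LinearMap.range Φ) hfr
  refine ⟨?_, fun i => a (e0 i), fun i d => hab (e0 i) d, fun f hf hh i => ?_, fun f hf hdet => ?_⟩
  · refine le_trans ?_ hq
    have h1 : Module.finrank ℚ (LinearMap.range Φ) ≤ Module.finrank ℚ (Fin q → ℚ) :=
      Submodule.finrank_le _
    rw [Module.finrank_fin_fun, hfr] at h1
    exact_mod_cast h1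
  · have h1 := Ar1_JC (p0_hi θ) L (a (e0 i)) (fun g hg hgh => ((hker g hgh).1 hg) (e0 i)) f hf
    rw [Ar1_Phi_hom L _ hh] at h1
    exact h1
  · -- the determinant
    have hdet' : ((Matrix.of fun i j => ∑ d ∈ (f j).support, a (e0 i) d * (f j).coeff d).map
        (Int.cast : ℤ → ℚ)).det = 0 := by
      have h1 := (Int.castRingHom ℚ).map_det (Matrix.of fun i j => ∑ d ∈ (f j).support, a (e0 i) d * (f j).coeff d)
      rw [hdet, map_zero] at h1
      exact h1.symm
    obtain ⟨v, hv0, hv⟩ := Matrix.exists_mulVec_eq_zero_iff.2 hdet'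
    -- the corresponding form
    have hzh : ∀ j, (zq (f j)).IsHomogeneous L := fun j => (hf.hom j).map _
    have hent : ∀ i j, (((∑ d ∈ (f j).support, a (e0 i) d * (f j).coeff d : ℤ)) : ℚ) =
        Φ ⟨zq (f j), hzh j⟩ (e0 i) := by
      intro i j
      have h1 : Φ ⟨zq (f j), hzh j⟩ (e0 i) = Ar1_Phi L (fun d => (a (e0 i) d : ℚ)) (zq (f j)) := rfl
      rw [h1, ← Ar1_Phi_hom L (fun d => a (e0 i) d) (hf.hom j), Ar1_Phi_apply, Ar1_Phi_apply]
      push_cast
      apply Finset.sum_congr rfl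
      intro d _
      unfold zq
      rw [MvPolynomial.coeff_map]
      rfl
    have hsum : (∑ j, v j • Φ ⟨zq (f j), hzh j⟩) = 0 := by
      have hmem : (∑ j, v j • Φ ⟨zq (f j), hzh j⟩) ∈ LinearMap.range Φ :=
        Submodule.sum_mem _ (fun j _ => Submodule.smul_mem _ _ ⟨_, rfl⟩)
      refine he0 _ hmem (fun i => ?_)
      have h1 := congrFun hv i
      rw [Matrix.mulVec, dotProduct, Pi.zero_apply] at h1
      rw [Finset.sum_apply, ← h1]
      apply Finset.sum_congr rfl
      intro j _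
      rw [Pi.smul_apply, smul_eq_mul, mul_comm, ← hent i j]
      rfl
    have hker0 : (∑ j, v j • (⟨zq (f j), hzh j⟩ : V)) ∈ LinearMap.ker π := by
      rw [← hkerΦ, LinearMap.mem_ker, map_sum, ← hsum]
      apply Finset.sum_congr rfl
      intro j _
      rw [map_smul]
    rw [LinearMap.mem_ker, map_sum] at hker0
    have hli := Fintype.linearIndependent_iff.1 hf.ind v (by
      rw [← hker0]
      apply Finset.sum_congr rfl
      intro j _
      rw [map_smul]
      rfl)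
    exact hv0 (funext hli)



/-- the exponents of degree `L` -/
private def Ar2_F (m L : ℕ) : Finset (Fin (m + 1) →₀ ℕ) := Finset.finsuppAntidiag Finset.univ L

private lemma Ar2_memF {L : ℕ} {d : Fin (m + 1) →₀ ℕ} : d ∈ Ar2_F m L ↔ d.degree = L := by
  unfold Ar2_F
  rw [Finset.mem_finsuppAntidiag, Finsupp.degree_eq_sum]
  exact ⟨fun h => h.1, fun h => ⟨h, Finset.subset_univ _⟩⟩

private lemma Ar2_cardF (m L : ℕ) : (Ar2_F m L).card ≤ (L + 1) ^ (m + 1) := by
  have h1 : Fintype.card (Fin (m + 1) → Fin (L + 1)) = (L + 1) ^ (m + 1) := by simp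
  rw [← h1, ← Finset.card_univ]
  refine Finset.card_le_card_of_injOn (fun d => fun i => (Fin.ofNat (L + 1) (d i))) (fun _ _ => Finset.mem_univ _) ?_
  intro d hd e he hde
  have hd' := Ar2_memF.mp hd
  have he' := Ar2_memF.mp he
  rw [Finsupp.degree_eq_sum] at hd' he'
  ext i
  have h2 := congrArg Fin.val (congrFun hde i)
  have h3 : d i ≤ L := hd' ▸ Finset.single_le_sum (f := fun i => d i) (fun _ _ => Nat.zero_le _) (Finset.mem_univ i)
  have h4 : e i ≤ L := he' ▸ Finset.single_le_sum (f := fun i => e i) (fun _ _ => Nat.zero_le _) (Finset.mem_univ i)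
  change d i % (L + 1) = e i % (L + 1) at h2
  rw [Nat.mod_eq_of_lt (by omega), Nat.mod_eq_of_lt (by omega)] at h2
  exact h2

/-- vectors as forms -/
private def Ar2_toP (m L : ℕ) : (Ar2_F m L → ℂ) →ₗ[ℂ] PC m :=
  ∑ d : Ar2_F m L, (MvPolynomial.monomial d.1).comp (LinearMap.proj d)

private lemma Ar2_toP_apply (L : ℕ) (v : Ar2_F m L → ℂ) : Ar2_toP m L v = ∑ d : Ar2_F m L, MvPolynomial.monomial d.1 (v d) := by
  unfold Ar2_toP
  rw [LinearMap.sum_apply]
  rfl

private lemma Ar2_coeff_toP (L : ℕ) (v : Ar2_F m L → ℂ) (d : Ar2_F m L) : (Ar2_toP m L v).coeff d.1 = v d := by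
  rw [Ar2_toP_apply, MvPolynomial.coeff_sum, Finset.sum_eq_single d]
  · rw [MvPolynomial.coeff_monomial, if_pos rfl]
  · intro e _ he
    rw [MvPolynomial.coeff_monomial, if_neg]
    intro h
    exact he (Subtype.ext h)
  · intro h
    exact absurd (Finset.mem_univ _) h

private lemma Ar2_hom_toP (L : ℕ) (v : Ar2_F m L → ℂ) : (Ar2_toP m L v).IsHomogeneous L := by
  rw [Ar2_toP_apply]
  refine MvPolynomial.IsHomogeneous.sum _ _ _ fun d _ => ?_
  exact MvPolynomial.isHomogeneous_monomial _ (Ar2_memF.mp d.2)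

private lemma Ar2_toP_eq {L : ℕ} {f : PC m} (hf : f.IsHomogeneous L) : Ar2_toP m L (fun d => f.coeff d.1) = f := by
  ext e
  by_cases he : e ∈ Ar2_F m L
  · exact Ar2_coeff_toP L _ ⟨e, he⟩
  · have h1 : e.degree ≠ L := fun h => he (Ar2_memF.mpr h)
    rw [hf.coeff_eq_zero h1, (Ar2_hom_toP L _).coeff_eq_zero h1]

/-- vectors as forms, through `φ` -/
private def Ar2_Psi (θ : Fin m → ℂ) (L : ℕ) : (Ar2_F m L → ℂ) →ₗ[ℂ] PC m := (phi (-θ)).toLinearMap ∘ₗ Ar2_toP m L

/-- coordinates -/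
private def Ar2_co (θ : Fin m → ℂ) (L : ℕ) : PC m →ₗ[ℂ] (Ar2_F m L → ℂ) :=
  LinearMap.pi fun d => (MvPolynomial.lcoeff ℂ d.1) ∘ₗ (phi θ).toLinearMap

private lemma Ar2_co_apply (θ : Fin m → ℂ) (L : ℕ) (f : PC m) (d : Ar2_F m L) : Ar2_co θ L f d = (phi θ f).coeff d.1 := rfl

private lemma Ar2_Psi_apply (θ : Fin m → ℂ) (L : ℕ) (v : Ar2_F m L → ℂ) : Ar2_Psi θ L v = phi (-θ) (Ar2_toP m L v) := rfl

private lemma Ar2_Psi_hom (θ : Fin m → ℂ) (L : ℕ) (v : Ar2_F m L → ℂ) : (Ar2_Psi θ L v).IsHomogeneous L :=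
  phi_hom (-θ) (Ar2_hom_toP L v)

private lemma Ar2_Psi_co (θ : Fin m → ℂ) {L : ℕ} {f : PC m} (hf : f.IsHomogeneous L) : Ar2_Psi θ L (Ar2_co θ L f) = f := by
  rw [Ar2_Psi_apply]
  have h1 : Ar2_toP m L (Ar2_co θ L f) = phi θ f := Ar2_toP_eq (phi_hom θ hf)
  rw [h1, phi_neg']

private lemma Ar2_phi_Psi (θ : Fin m → ℂ) (L : ℕ) (v : Ar2_F m L → ℂ) : phi θ (Ar2_Psi θ L v) = Ar2_toP m L v := by
  rw [Ar2_Psi_apply]
  exact phi_neg θ _

private lemma Ar2_co_Psi (θ : Fin m → ℂ) (L : ℕ) (v : Ar2_F m L → ℂ) : Ar2_co θ L (Ar2_Psi θ L v) = v := by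
  funext d
  rw [Ar2_co_apply, Ar2_phi_Psi, Ar2_coeff_toP]

/-- the weighted length in coordinates -/
private lemma Ar2_wl (θ : Fin m → ℂ) (w τ : ℝ) {L : ℕ} {f : PC m} (hf : f.IsHomogeneous L) :
    ∑ d : Ar2_F m L, wt w τ L d.1 * ‖Ar2_co θ L f d‖ = wl θ w τ L f := by
  have h1 : ∑ d : Ar2_F m L, wt w τ L d.1 * ‖Ar2_co θ L f d‖ = ∑ d ∈ Ar2_F m L, ‖(phi θ f).coeff d‖ * wt w τ L d := by
    rw [← Finset.sum_coe_sort (Ar2_F m L)]
    exact Finset.sum_congr rfl fun d _ => by rw [Ar2_co_apply, mul_comm]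
  rw [h1]
  unfold wl
  symm
  refine Finset.sum_subset ?_ ?_
  · intro d hd
    rw [Ar2_memF]
    by_contra hne
    exact (MvPolynomial.mem_support_iff.mp hd) ((phi_hom θ hf).coeff_eq_zero hne)
  · intro d _ hd
    rw [MvPolynomial.notMem_support_iff.mp hd, norm_zero, zero_mul]

/-- the functionals -/
private def Ar2_Lam (L : ℕ) (a : (Fin (m + 1) →₀ ℕ) → ℤ) : PC m →ₗ[ℂ] ℂ :=
  ∑ d ∈ Ar2_F m L, (a d : ℂ) • MvPolynomial.lcoeff ℂ d

private lemma Ar2_Lam_apply (L : ℕ) (a : (Fin (m + 1) →₀ ℕ) → ℤ) (f : PC m) :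
    Ar2_Lam L a f = ∑ d ∈ Ar2_F m L, (a d : ℂ) * f.coeff d := by
  unfold Ar2_Lam
  rw [LinearMap.sum_apply]
  rfl

private lemma Ar2_Lam_supp (L : ℕ) (a : (Fin (m + 1) →₀ ℕ) → ℤ) {f : PC m} (hf : f.IsHomogeneous L) :
    Ar2_Lam L a f = ∑ d ∈ f.support, (a d : ℂ) * f.coeff d := by
  rw [Ar2_Lam_apply]
  symm
  refine Finset.sum_subset ?_ ?_
  · intro d hd
    rw [Ar2_memF]
    by_contra hne
    exact (MvPolynomial.mem_support_iff.mp hd) (hf.coeff_eq_zero hne)
  · intro d _ hd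
    rw [MvPolynomial.notMem_support_iff.mp hd, mul_zero]

private lemma Ar2_Lam_zc (L : ℕ) (a : (Fin (m + 1) →₀ ℕ) → ℤ) {f : PZ m} (hf : f.IsHomogeneous L) :
    Ar2_Lam L a (zc f) = ((∑ d ∈ f.support, a d * f.coeff d : ℤ) : ℂ) := by
  rw [Ar2_Lam_apply]
  have h1 : ∑ d ∈ f.support, a d * f.coeff d = ∑ d ∈ Ar2_F m L, a d * f.coeff d := by
    refine Finset.sum_subset ?_ ?_
    · intro d hd
      rw [Ar2_memF]
      by_contra hne
      exact (MvPolynomial.mem_support_iff.mp hd) (hf.coeff_eq_zero hne)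
    · intro d _ hd
      rw [MvPolynomial.notMem_support_iff.mp hd, mul_zero]
  rw [h1, Int.cast_sum]
  refine Finset.sum_congr rfl fun d _ => ?_
  unfold zc
  rw [MvPolynomial.coeff_map, Int.cast_mul]
  rfl

private lemma Ar2_zc_hom {L : ℕ} {f : PZ m} (hf : f.IsHomogeneous L) : (zc f).IsHomogeneous L := hf.map _

private lemma Ar2_zc_qc (f : PZ m) : zc f = qc (zq f) := by
  unfold zc qc zq
  rw [MvPolynomial.map_map]
  congr 1

/-- every form is a combination of the basis and of an element of the ideal -/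
private lemma Ar2_span {J : Ideal (PQ m)} {L r : ℕ} {f : Fin r → PZ m} (hB : IsBas J L f) {h : PC m} (hh : h.IsHomogeneous L) :
    h ∈ Submodule.span ℂ (Set.range fun j => zc (f j)) ⊔ (JC J).restrictScalars ℂ := by
  set T := Submodule.span ℂ (Set.range fun j => zc (f j)) ⊔ (JC J).restrictScalars ℂ with hT
  have hmon : ∀ d : Fin (m + 1) →₀ ℕ, d.degree = L → MvPolynomial.monomial d (1 : ℂ) ∈ T := by
    intro d hd
    have h1 : Ideal.Quotient.mkₐ ℚ J (MvPolynomial.monomial d (1 : ℚ)) ∈ qd J L := by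
      refine Submodule.mem_map.mpr ⟨_, ?_, rfl⟩
      rw [MvPolynomial.mem_homogeneousSubmodule]
      exact MvPolynomial.isHomogeneous_monomial _ hd
    rw [← hB.span, Submodule.mem_span_range_iff_exists_fun] at h1
    obtain ⟨q, hq⟩ := h1
    have h2 : MvPolynomial.monomial d (1 : ℚ) - ∑ i, q i • zq (f i) ∈ J := by
      rw [← Ideal.Quotient.eq_zero_iff_mem, map_sub, sub_eq_zero]
      have h3 : (Ideal.Quotient.mk J) (∑ i, q i • zq (f i)) = ∑ i, q i • Ideal.Quotient.mkₐ ℚ J (zq (f i)) := by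
        rw [map_sum]
        refine Finset.sum_congr rfl fun i _ => ?_
        exact map_smul (Ideal.Quotient.mkₐ ℚ J) (q i) (zq (f i))
      rw [h3, hq]
      rfl
    have h4 : qc (MvPolynomial.monomial d (1 : ℚ) - ∑ i, q i • zq (f i)) ∈ JC J := Ideal.mem_map_of_mem _ h2
    have h5 : MvPolynomial.monomial d (1 : ℂ) = (∑ i, (q i : ℂ) • zc (f i)) + qc (MvPolynomial.monomial d (1 : ℚ) - ∑ i, q i • zq (f i)) := by
      have h6 : qc (MvPolynomial.monomial d (1 : ℚ)) = MvPolynomial.monomial d (1 : ℂ) := by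
        unfold qc
        rw [MvPolynomial.map_monomial, map_one]
      have h7 : qc (∑ i, q i • zq (f i)) = ∑ i, (q i : ℂ) • zc (f i) := by
        have h8 : qc (∑ i, q i • zq (f i)) = ∑ i, qc (q i • zq (f i)) := by
          unfold qc
          rw [map_sum]
        rw [h8]
        refine Finset.sum_congr rfl fun i _ => ?_
        rw [Ar2_zc_qc]
        unfold qc
        rw [MvPolynomial.smul_eq_C_mul, map_mul, MvPolynomial.map_C, MvPolynomial.smul_eq_C_mul]
        rfl
      have h9 : qc (MvPolynomial.monomial d (1 : ℚ) - ∑ i, q i • zq (f i)) =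
          qc (MvPolynomial.monomial d (1 : ℚ)) - qc (∑ i, q i • zq (f i)) := by
        unfold qc
        rw [map_sub]
      rw [h9, h6, h7]
      ring
    rw [h5]
    refine T.add_mem ?_ ?_
    · refine (le_sup_left : Submodule.span ℂ (Set.range fun j => zc (f j)) ≤ T) ?_
      exact Submodule.sum_mem _ fun i _ => Submodule.smul_mem _ _ (Submodule.subset_span ⟨i, rfl⟩)
    · exact (le_sup_right : (JC J).restrictScalars ℂ ≤ T) h4
  rw [h.as_sum]
  refine Submodule.sum_mem _ fun d hd => ?_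
  have hdeg : d.degree = L := by
    by_contra hne
    exact (MvPolynomial.mem_support_iff.mp hd) (hh.coeff_eq_zero hne)
  have h1 : MvPolynomial.monomial d (h.coeff d) = h.coeff d • MvPolynomial.monomial d (1 : ℂ) := by
    rw [MvPolynomial.smul_monomial, smul_eq_mul, mul_one]
  rw [h1]
  exact T.smul_mem _ (hmon d hdeg)

/-- elements of the span of a family indexed by `j' < j` -/
private lemma Ar2_coef {r : ℕ} {V : Type} [AddCommGroup V] [Module ℂ V] (f : Fin r → V) (j : Fin r) {t : V}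
    (ht : t ∈ Submodule.span ℂ (f '' {l | l < j})) : ∃ u : Fin r → ℂ, (∀ l, ¬ l < j → u l = 0) ∧ t = ∑ l, u l • f l := by
  classical
  induction ht using Submodule.span_induction with
  | mem x hx =>
    obtain ⟨l, hl, rfl⟩ := hx
    refine ⟨Pi.single l 1, ?_, ?_⟩
    · intro l' hl'
      rw [Pi.single_apply, if_neg]
      rintro rfl
      exact hl' hl
    · rw [Finset.sum_eq_single l]
      · rw [Pi.single_eq_same, one_smul]
      · intro b _ hb
        rw [Pi.single_eq_of_ne hb, zero_smul]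
      · intro h
        exact absurd (Finset.mem_univ _) h
  | zero => exact ⟨0, fun _ _ => rfl, by simp⟩
  | add x y _ _ hx hy =>
    obtain ⟨u, hu, rfl⟩ := hx
    obtain ⟨v, hv, rfl⟩ := hy
    refine ⟨u + v, fun l hl => ?_, ?_⟩
    · rw [Pi.add_apply, hu l hl, hv l hl, add_zero]
    · rw [← Finset.sum_add_distrib]
      exact Finset.sum_congr rfl fun l _ => by rw [Pi.add_apply, add_smul]
  | smul c x _ hx =>
    obtain ⟨u, hu, rfl⟩ := hx
    refine ⟨c • u, fun l hl => ?_, ?_⟩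
    · rw [Pi.smul_apply, hu l hl, smul_zero]
    · rw [Finset.smul_sum]
      exact Finset.sum_congr rfl fun l _ => by rw [Pi.smul_apply, smul_eq_mul, mul_smul]

/-- the determinant does not change -/
private lemma Ar2_det {J : Ideal (PQ m)} {L r : ℕ} {f : Fin r → PZ m} {g : Fin r → PC m} (hf : ∀ i, (f i).IsHomogeneous L)
    (hM : IsMod J L f g) (Λ : Fin r → PC m →ₗ[ℂ] ℂ) (hΛ : ∀ i, ∀ h ∈ JC J, h.IsHomogeneous L → Λ i h = 0) :
    (Matrix.of fun i j => Λ i (g j)).det = (Matrix.of fun i j => Λ i (zc (f j))).det := by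
  classical
  have h1 : ∀ j, ∃ u : Fin r → ℂ, (∀ l, ¬ l < j → u l = 0) ∧ ∀ i, Λ i (g j) = Λ i (zc (f j)) + ∑ l, u l * Λ i (zc (f l)) := by
    intro j
    obtain ⟨t, ht, h, hh, e⟩ := Submodule.mem_sup.mp (hM.mem j)
    obtain ⟨u, hu, rfl⟩ := Ar2_coef (fun l => zc (f l)) j ht
    refine ⟨u, hu, fun i => ?_⟩
    have hhom : h.IsHomogeneous L := by
      have h2 : h = g j - zc (f j) - ∑ l, u l • zc (f l) := by
        rw [← e]; ring
      rw [h2]
      refine ((hM.hom j).sub (Ar2_zc_hom (hf j))).sub ?_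
      refine MvPolynomial.IsHomogeneous.sum _ _ _ fun l _ => ?_
      rw [MvPolynomial.smul_eq_C_mul]
      have h3 := (MvPolynomial.isHomogeneous_C (Fin (m + 1)) (u l)).mul (Ar2_zc_hom (hf l))
      rwa [zero_add] at h3
    have h4 : g j = zc (f j) + ((∑ l, u l • zc (f l)) + h) := by
      rw [e]; ring
    rw [h4, map_add, map_add, hΛ i h hh hhom, add_zero, map_sum]
    congr 1
    exact Finset.sum_congr rfl fun l _ => by rw [map_smul, smul_eq_mul]
  choose u hu hg using h1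
  have h2 : (Matrix.of fun i j => Λ i (g j)) = (Matrix.of fun i j => Λ i (zc (f j))) * (1 + Matrix.of fun l j => u j l) := by
    ext i j
    rw [Matrix.mul_add, Matrix.mul_one, Matrix.add_apply, Matrix.mul_apply]
    show Λ i (g j) = Λ i (zc (f j)) + ∑ l, Λ i (zc (f l)) * u j l
    rw [hg j i]
    congr 1
    exact Finset.sum_congr rfl fun l _ => mul_comm _ _
  rw [h2, Matrix.det_mul]
  have h3 : (1 + Matrix.of fun l j => u j l : Matrix (Fin r) (Fin r) ℂ).det = 1 := by
    rw [Matrix.det_of_isUpperTriangular]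
    · refine Finset.prod_eq_one fun i _ => ?_
      rw [Matrix.add_apply, Matrix.one_apply_eq, Matrix.of_apply, hu i i (lt_irrefl _), add_zero]
    · intro i j hij
      have hij' : j < i := hij
      rw [Matrix.add_apply, Matrix.one_apply_ne hij'.ne', Matrix.of_apply, hu j i (not_lt.mpr hij'.le), add_zero]
  rw [h3, mul_one]

/-- number of exponents -/
private lemma Ar2_card (k s : ℕ) (hs : 1 ≤ s) : ∃ B : Finset (Fin k →₀ ℕ), (∀ β ∈ B, β.degree < s) ∧ s ^ k ≤ k.factorial * B.card := by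
  classical
  set A : Finset (Fin (k + 1) →₀ ℕ) := Finset.finsuppAntidiag Finset.univ (s - 1) with hA
  have hmem : ∀ β ∈ A, β 0 + (β.tail).degree = s - 1 := by
    intro β hβ
    rw [hA, Finset.mem_finsuppAntidiag] at hβ
    rw [← hβ.1, Fin.sum_univ_succ, Finsupp.degree_eq_sum]
    rfl
  refine ⟨A.image fun β => β.tail, ?_, ?_⟩
  · intro γ hγ
    obtain ⟨β, hβ, rfl⟩ := Finset.mem_image.mp hγ
    have := hmem β hβ
    omega
  · have hinj : Set.InjOn (fun β : Fin (k + 1) →₀ ℕ => β.tail) A := by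
      intro β hβ γ hγ h
      have h1 := hmem β hβ
      have h2 := hmem γ hγ
      have h3 : β.tail = γ.tail := h
      rw [h3] at h1
      have h4 : β 0 = γ 0 := by omega
      rw [← Finsupp.cons_tail β, ← Finsupp.cons_tail γ, h3, h4]
    rw [Finset.card_image_of_injOn hinj, hA, Finset.card_finsuppAntidiag_nat_eq_choose, Finset.card_univ, Fintype.card_fin]
    have h1 : (k + 1 + (s - 1) - 1).choose (s - 1) = (s + k - 1).choose k := by
      have h2 : k + 1 + (s - 1) - 1 = s + k - 1 := by omega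
      rw [h2]
      refine (Nat.choose_symm_of_eq_add ?_)
      omega
    rw [h1, ← Nat.ascFactorial_eq_factorial_mul_choose']
    exact Nat.pow_succ_le_ascFactorial s k

/-- the forms dual to the jets -/
private lemma Ar2_form_hom (θ : Fin m → ℂ) {k : ℕ} (I : Fin k → Fin m) {L : ℕ} (β : Fin k →₀ ℕ) (h : β.degree ≤ L) :
    (X 0 ^ (L - β.degree) * ∏ i, (X (I i).succ - C (θ (I i)) * X 0) ^ (β i) : PC m).IsHomogeneous L := by
  have h1 : ∀ i, (X (I i).succ - C (θ (I i)) * X 0 : PC m).IsHomogeneous 1 := by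
    intro i
    refine (MvPolynomial.isHomogeneous_X _ _).sub ?_
    have := (MvPolynomial.isHomogeneous_C (Fin (m + 1)) (θ (I i))).mul (MvPolynomial.isHomogeneous_X ℂ (0 : Fin (m + 1)))
    rwa [zero_add] at this
  have h2 : (∏ i, (X (I i).succ - C (θ (I i)) * X 0) ^ (β i) : PC m).IsHomogeneous (∑ i, β i) := by
    refine MvPolynomial.IsHomogeneous.prod _ _ _ fun i _ => ?_
    have := (h1 i).pow (β i)
    rwa [one_mul] at this
  have h3 : (X 0 ^ (L - β.degree) : PC m).IsHomogeneous (L - β.degree) := by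
    have := (MvPolynomial.isHomogeneous_X ℂ (0 : Fin (m + 1))).pow (L - β.degree)
    rwa [one_mul] at this
  have h4 := h3.mul h2
  have h5 : L - β.degree + ∑ i, β i = L := by
    rw [← Finsupp.degree_eq_sum]
    omega
  rwa [h5] at h4

private lemma Ar2_lC_monomial (d : Fin (m + 1) →₀ ℕ) : lC (MvPolynomial.monomial d (1 : ℂ)) ≤ 1 := by
  unfold lC
  refine (Finset.sum_le_sum_of_subset_of_nonneg (MvPolynomial.support_monomial_subset) fun _ _ _ => norm_nonneg _).trans ?_
  rw [Finset.sum_singleton, MvPolynomial.coeff_monomial, if_pos rfl, norm_one]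

/-- the values on the unit vectors -/
private lemma Ar2_unit (θ : Fin m → ℂ) {Θ : ℝ} (hΘ : ∀ i, ‖θ i‖ ≤ Θ) (hΘ0 : 0 ≤ Θ) {L : ℕ} (a : (Fin (m + 1) →₀ ℕ) → ℤ) {E : ℝ}
    (hE : ∀ d, |(a d : ℝ)| ≤ E) (hE0 : 0 ≤ E) (j : Ar2_F m L) :
    ‖Ar2_Lam L a (Ar2_Psi θ L (Pi.single j 1))‖ ≤ E * (1 + Θ) ^ L := by
  classical
  have h1 : Ar2_toP m L (Pi.single j 1) = MvPolynomial.monomial j.1 (1 : ℂ) := by
    rw [Ar2_toP_apply, Finset.sum_eq_single j]
    · rw [Pi.single_eq_same]
    · intro b _ hb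
      rw [Pi.single_eq_of_ne hb, map_zero]
    · intro h
      exact absurd (Finset.mem_univ _) h
  have hhom : (MvPolynomial.monomial j.1 (1 : ℂ)).IsHomogeneous L := MvPolynomial.isHomogeneous_monomial _ (Ar2_memF.mp j.2)
  rw [Ar2_Psi_apply, h1, Ar2_Lam_supp L a (phi_hom (-θ) hhom)]
  have h2 : lC (phi (-θ) (MvPolynomial.monomial j.1 (1 : ℂ))) ≤ (1 + Θ) ^ L * 1 := by
    refine (lC_phi_le (-θ) (fun i => ?_) hΘ0 hhom).trans ?_
    · rw [Pi.neg_apply, norm_neg]; exact hΘ i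
    · exact mul_le_mul_of_nonneg_left (Ar2_lC_monomial _) (by positivity)
  refine (norm_sum_le _ _).trans ?_
  calc ∑ d ∈ (phi (-θ) (MvPolynomial.monomial j.1 (1 : ℂ))).support, ‖(a d : ℂ) * (phi (-θ) (MvPolynomial.monomial j.1 (1 : ℂ))).coeff d‖
      ≤ ∑ d ∈ (phi (-θ) (MvPolynomial.monomial j.1 (1 : ℂ))).support, E * ‖(phi (-θ) (MvPolynomial.monomial j.1 (1 : ℂ))).coeff d‖ := by
        refine Finset.sum_le_sum fun d _ => ?_
        rw [norm_mul, Complex.norm_intCast]
        exact mul_le_mul_of_nonneg_right (hE d) (norm_nonneg _)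
    _ = E * lC (phi (-θ) (MvPolynomial.monomial j.1 (1 : ℂ))) := by
        unfold lC
        rw [Finset.mul_sum]
    _ ≤ E * (1 + Θ) ^ L := by
        refine mul_le_mul_of_nonneg_left ?_ hE0
        rwa [mul_one] at h2

/-- the main estimate -/
private lemma Ar2_main (θ : Fin m → ℂ) {k : ℕ} (I : Fin k → Fin m) (hI : AlgebraicIndependent ℚ (fun i => θ (I i)))
    (ha : ∀ j, IsAlgebraic (IntermediateField.adjoin ℚ (Set.range fun i => θ (I i))) (θ j)) {Θ : ℝ} (hΘ : ∀ i, ‖θ i‖ ≤ Θ)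
    (hΘ0 : 0 ≤ Θ) {E : ℝ} (hE0 : 1 ≤ E) {L : ℕ} (a : Fin (rJ (p0 θ) L) → (Fin (m + 1) →₀ ℕ) → ℤ) (haE : ∀ i d, |(a i d : ℝ)| ≤ E)
    (hk : ∀ f ∈ JC (p0 θ), f.IsHomogeneous L → ∀ i, ∑ d ∈ f.support, (a i d : ℂ) * f.coeff d = 0)
    (hdet : ∀ f : Fin (rJ (p0 θ) L) → PZ m, IsBas (p0 θ) L f → (Matrix.of fun i j => ∑ d ∈ (f j).support, a i d * (f j).coeff d).det ≠ 0)
    {w τ : ℝ} (hw : 0 ≤ w) (hτ0 : 0 ≤ τ) (hτ : τ ≤ 1) (f : Fin (rJ (p0 θ) L) → PZ m) (g : Fin (rJ (p0 θ) L) → PC m) (hB : IsBas (p0 θ) L f)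
    (hM : IsMod (p0 θ) L f g) (B : Finset (Fin k →₀ ℕ)) (hBs : ∀ β ∈ B, β.degree < ⌈τ * L / 2⌉₊) :
    1 ≤ (((rJ (p0 θ) L).factorial : ℝ) ^ 2 * ((E * (1 + Θ) ^ L) * (Ar2_F m L).card) ^ (rJ (p0 θ) L)) *
      Real.exp (-(w * τ * L / 2 * B.card)) * ∏ j, wl θ w τ L (g j) := by
  classical
  set s := ⌈τ * L / 2⌉₊ with hs
  have hsL : s ≤ L := by
    rw [hs, Nat.ceil_le]
    have : (0 : ℝ) ≤ L := Nat.cast_nonneg L
    nlinarith
  obtain ⟨lam, hl1, hl2, hl3⟩ := jets θ I hI ha s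
  set S : Submodule ℂ (Ar2_F m L → ℂ) := ((JC (p0 θ)).restrictScalars ℂ).comap (Ar2_Psi θ L) with hS
  have hmemS : ∀ x, x ∈ S ↔ Ar2_Psi θ L x ∈ JC (p0 θ) := fun x => Iff.rfl
  set ψ : Fin (rJ (p0 θ) L) → ((Ar2_F m L → ℂ) →ₗ[ℂ] ℂ) := fun i => Ar2_Lam L (a i) ∘ₗ Ar2_Psi θ L with hψ
  have hψS : ∀ i, ∀ x ∈ S, ψ i x = 0 := by
    intro i x hx
    show Ar2_Lam L (a i) (Ar2_Psi θ L x) = 0
    rw [Ar2_Lam_supp L (a i) (Ar2_Psi_hom θ L x)]
    exact hk _ ((hmemS x).mp hx) (Ar2_Psi_hom θ L x) i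
  have hψco : ∀ i (h : PC m), h.IsHomogeneous L → ψ i (Ar2_co θ L h) = Ar2_Lam L (a i) h := by
    intro i h hh
    show Ar2_Lam L (a i) (Ar2_Psi θ L (Ar2_co θ L h)) = _
    rw [Ar2_Psi_co θ hh]
  -- the determinant of the functionals on the basis
  have hdet1 : (Matrix.of fun i j => Ar2_Lam L (a i) (zc (f j))).det =
      (((Matrix.of fun i j => ∑ d ∈ (f j).support, a i d * (f j).coeff d).det : ℤ) : ℂ) := by
    have h1 : (Matrix.of fun i j => Ar2_Lam L (a i) (zc (f j))) =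
        (Matrix.of fun i j => ∑ d ∈ (f j).support, a i d * (f j).coeff d).map (Int.castRingHom ℂ) := by
      ext i j
      exact Ar2_Lam_zc L (a i) (hB.hom j)
    rw [h1]
    exact (RingHom.map_det (Int.castRingHom ℂ) _).symm
  have hdet2 : 1 ≤ ‖(Matrix.of fun i j => Ar2_Lam L (a i) (zc (f j))).det‖ := by
    rw [hdet1, Complex.norm_intCast]
    have h1 := Int.one_le_abs (hdet f hB)
    exact_mod_cast h1
  have hne : (Matrix.of fun i j => Ar2_Lam L (a i) (zc (f j))).det ≠ 0 := by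
    intro h0
    rw [h0, norm_zero] at hdet2
    exact absurd hdet2 (by norm_num)
  -- the dimension
  have hfin : rJ (p0 θ) L = Module.finrank ℂ ((Ar2_F m L → ℂ) ⧸ S) := by
    have hli : LinearIndependent ℂ fun j => S.mkQ (Ar2_co θ L (zc (f j))) := by
      rw [Fintype.linearIndependent_iff]
      intro c hc
      have h1 : ∑ j, c j • Ar2_co θ L (zc (f j)) ∈ S := by
        rw [← Submodule.Quotient.mk_eq_zero, ← Submodule.mkQ_apply, map_sum, ← hc]
        exact Finset.sum_congr rfl fun j _ => by rw [map_smul]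
      have h2 : (Matrix.of fun i j => Ar2_Lam L (a i) (zc (f j))) *ᵥ c = 0 := by
        funext i
        have h3 := hψS i _ h1
        rw [map_sum] at h3
        rw [Pi.zero_apply, ← h3]
        show ∑ j, Ar2_Lam L (a i) (zc (f j)) * c j = _
        refine Finset.sum_congr rfl fun j _ => ?_
        rw [map_smul, hψco i _ (Ar2_zc_hom (hB.hom j)), smul_eq_mul, mul_comm]
      have h4 := Matrix.eq_zero_of_mulVec_eq_zero hne h2
      exact fun j => congrFun h4 j
    have hsp : ⊤ ≤ Submodule.span ℂ (Set.range fun j => S.mkQ (Ar2_co θ L (zc (f j)))) := by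
      rintro x -
      obtain ⟨v, rfl⟩ := S.mkQ_surjective x
      obtain ⟨t, ht, h, hh, e⟩ := Submodule.mem_sup.mp (Ar2_span hB (Ar2_Psi_hom θ L v))
      rw [Submodule.mem_span_range_iff_exists_fun] at ht
      obtain ⟨u, rfl⟩ := ht
      have hth : (∑ l, u l • zc (f l)).IsHomogeneous L := by
        refine MvPolynomial.IsHomogeneous.sum _ _ _ fun l _ => ?_
        rw [MvPolynomial.smul_eq_C_mul]
        have h3 := (MvPolynomial.isHomogeneous_C (Fin (m + 1)) (u l)).mul (Ar2_zc_hom (hB.hom l))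
        rwa [zero_add] at h3
      have hhom : h.IsHomogeneous L := by
        have h2 : h = Ar2_Psi θ L v - ∑ l, u l • zc (f l) := by rw [← e]; ring
        rw [h2]
        exact (Ar2_Psi_hom θ L v).sub hth
      have h5 : v = (∑ l, u l • Ar2_co θ L (zc (f l))) + Ar2_co θ L h := by
        have h6 := congrArg (Ar2_co θ L) e
        rw [map_add, map_sum, Ar2_co_Psi] at h6
        rw [← h6]
        congr 1
        exact Finset.sum_congr rfl fun l _ => by rw [map_smul]
      have h7 : Ar2_co θ L h ∈ S := by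
        rw [hmemS, Ar2_Psi_co θ hhom]
        exact hh
      have h8 : S.mkQ v = ∑ l, u l • S.mkQ (Ar2_co θ L (zc (f l))) := by
        rw [h5, map_add, map_sum]
        have h9 : S.mkQ (Ar2_co θ L h) = 0 := by
          rw [Submodule.mkQ_apply, Submodule.Quotient.mk_eq_zero]
          exact h7
        rw [h9, add_zero]
        exact Finset.sum_congr rfl fun l _ => by rw [map_smul]
      rw [h8]
      exact Submodule.sum_mem _ fun l _ => Submodule.smul_mem _ _ (Submodule.subset_span ⟨l, rfl⟩)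
    have h1 := Module.finrank_eq_card_basis (Module.Basis.mk hli hsp)
    rw [Fintype.card_fin] at h1
    exact h1.symm
  -- the functionals of the jets
  set e : Fin B.card ≃ B := B.equivFin.symm with he
  set lm : Fin B.card → ((Ar2_F m L → ℂ) →ₗ[ℂ] ℂ) := fun i => lam (e i).1 ∘ₗ Ar2_Psi θ L with hlm
  have hlS : ∀ i, ∀ x ∈ S, lm i x = 0 := by
    intro i x hx
    exact hl1 _ (hBs _ (e i).2) _ ((hmemS x).mp hx)
  set low : Set (Ar2_F m L) := {d | L - d.1 0 < s} with hlow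
  have hlow' : ∀ i, ∀ j, j ∉ low → lm i (Pi.single j 1) = 0 := by
    intro i j hj
    refine hl2 _ (hBs _ (e i).2) L _ (Ar2_Psi_hom θ L _) ?_
    intro d hd
    rw [Ar2_phi_Psi] at hd
    have hjs : s ≤ L - j.1 0 := not_lt.mp hj
    by_cases hdF : d ∈ Ar2_F m L
    · have h1 := Ar2_coeff_toP L (Pi.single j (1 : ℂ)) ⟨d, hdF⟩
      rw [show (⟨d, hdF⟩ : Ar2_F m L).1 = d from rfl] at h1
      rw [h1] at hd
      by_cases hdj : (⟨d, hdF⟩ : Ar2_F m L) = j
      · rw [← hdj] at hjs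
        exact hjs
      · exact absurd (Pi.single_eq_of_ne hdj 1) hd
    · have h1 : d.degree ≠ L := fun h => hdF (Ar2_memF.mpr h)
      exact absurd ((Ar2_hom_toP L _).coeff_eq_zero h1) hd
  have hli : LinearIndependent ℂ lm := by
    rw [Fintype.linearIndependent_iff]
    intro c hc i
    have hdeg : (e i).1.degree < s := hBs _ (e i).2
    set F : PC m := X 0 ^ (L - (e i).1.degree) * ∏ l, (X (I l).succ - C (θ (I l)) * X 0) ^ ((e i).1 l) with hF
    have hFh : F.IsHomogeneous L := Ar2_form_hom θ I (e i).1 (by omega)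
    have h1 := LinearMap.congr_fun hc (Ar2_co θ L F)
    rw [LinearMap.sum_apply, LinearMap.zero_apply, Finset.sum_eq_single i] at h1
    · rw [LinearMap.smul_apply, smul_eq_mul] at h1
      have h2 : lm i (Ar2_co θ L F) = 1 := by
        show lam (e i).1 (Ar2_Psi θ L (Ar2_co θ L F)) = 1
        rw [Ar2_Psi_co θ hFh, hF, hl3 _ _ hdeg hdeg, if_pos rfl]
      rwa [h2, mul_one] at h1
    · intro j _ hj
      have h2 : lm j (Ar2_co θ L F) = 0 := by
        show lam (e j).1 (Ar2_Psi θ L (Ar2_co θ L F)) = 0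
        rw [Ar2_Psi_co θ hFh, hF, hl3 _ _ (hBs _ (e j).2) hdeg, if_neg]
        intro h
        exact hj (e.injective (Subtype.ext h))
      rw [LinearMap.smul_apply, h2, smul_zero]
    · intro h
      exact absurd (Finset.mem_univ _) h
  have hQ1 : (1 : ℝ) ≤ E * (1 + Θ) ^ L := by
    have h1 : (1 : ℝ) ≤ (1 + Θ) ^ L := one_le_pow₀ (by linarith)
    nlinarith
  have key := det_bound S (fun d : Ar2_F m L => wt w τ L d.1) (fun d => by
      show 1 ≤ Real.exp _
      rw [Real.one_le_exp_iff]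
      exact mul_nonneg hw (le_max_left _ _)) low (a := w * τ * L / 2) (by positivity) (by
      intro d hd
      show Real.exp _ ≤ Real.exp _
      rw [Real.exp_le_exp]
      have h1 : (L : ℕ) - d.1 0 < s := hd
      have hd0 : d.1 0 ≤ L := by
        have h2 := Ar2_memF.mp d.2
        rw [Finsupp.degree_eq_sum] at h2
        have h3 := Finset.single_le_sum (f := fun i => d.1 i) (fun _ _ => Nat.zero_le _) (Finset.mem_univ (0 : Fin (m + 1)))
        exact h3.trans h2.le
      have h2 : ((L - d.1 0 : ℕ) : ℝ) < τ * L / 2 := by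
        rw [hs] at h1
        exact Nat.lt_ceil.mp h1
      rw [Nat.cast_sub hd0] at h2
      have h3 : τ * L / 2 ≤ max 0 (τ * L - ((L : ℝ) - (d.1 0 : ℕ))) := by
        refine le_trans ?_ (le_max_right _ _)
        linarith
      calc w * τ * L / 2 = w * (τ * L / 2) := by ring
        _ ≤ _ := mul_le_mul_of_nonneg_left h3 hw) (r := rJ (p0 θ) L) (n0 := B.card) hfin ψ hψS (Q := E * (1 + Θ) ^ L) hQ1
      (fun i j => Ar2_unit θ hΘ hΘ0 (a i) (haE i) (by linarith) j) lm hlS hlow' hli (fun j => Ar2_co θ L (g j))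
  have h1 : (Matrix.of fun i j => ψ i (Ar2_co θ L (g j))).det = (Matrix.of fun i j => Ar2_Lam L (a i) (zc (f j))).det := by
    rw [← Ar2_det hB.hom hM (fun i => Ar2_Lam L (a i)) (fun i h hh hhom => by
      rw [Ar2_Lam_supp L (a i) hhom]
      exact hk h hh hhom i)]
    congr 1
    ext i j
    exact hψco i _ (hM.hom j)
  rw [h1] at key
  refine hdet2.trans (key.trans (le_of_eq ?_))
  rw [Fintype.card_coe]
  congr 1
  exact Finset.prod_congr rfl fun j _ => Ar2_wl θ w τ (hM.hom j)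

/-- row Ar2: the lower bound for admissible numbers, from `funBasis`, `jets`, `det_bound` -/
theorem lowerBd (θ : Fin m → ℂ) {k : ℕ} (I : Fin k → Fin m) (hinj : Function.Injective I) (hI : AlgebraicIndependent ℚ (fun i => θ (I i)))
    (ha : ∀ j, IsAlgebraic (IntermediateField.adjoin ℚ (Set.range fun i => θ (I i))) (θ j)) :
    ∃ C : ℝ, 0 < C ∧ (∀ L : ℕ, (rJ (p0 θ) L : ℝ) ≤ C * ((L : ℝ) + 1) ^ k) ∧
      ∀ (w τ : ℝ), 0 ≤ w → 0 ≤ τ → τ ≤ 1 → ∀ (L : ℕ) (x : ℝ), Adm θ w τ (p0 θ) L x →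
        w * (τ * L / 2) ^ (k + 1) / (k.factorial : ℝ) - C * ((L : ℝ) + 1) ^ (k + 1) ≤ x := by
  classical
  obtain ⟨C1, hC1, H⟩ := funBasis θ I hI ha
  set Θ : ℝ := ∑ i, ‖θ i‖ with hΘdef
  have hΘ0 : 0 ≤ Θ := Finset.sum_nonneg fun _ _ => norm_nonneg _
  have hΘ : ∀ i, ‖θ i‖ ≤ Θ := fun i => Finset.single_le_sum (f := fun i => ‖θ i‖) (fun _ _ => norm_nonneg _) (Finset.mem_univ i)
  set K : ℝ := 3 * C1 + 2 * k + Θ + m + 1 with hK
  have hK0 : 0 ≤ K := by positivity
  refine ⟨C1 * (K + 1), by positivity, ?_, ?_⟩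
  · intro L
    refine (H L).1.trans ?_
    have h1 : (0 : ℝ) ≤ ((L : ℝ) + 1) ^ k := by positivity
    nlinarith [mul_nonneg (mul_nonneg hC1.le hK0) h1]
  · intro w τ hw hτ0 hτ L x hx
    obtain ⟨r', f, g, hB, hM, hprod⟩ := hx
    obtain rfl := hB.card
    obtain ⟨hrL, a, ha1, ha2, ha3⟩ := H L
    have hL0 : (0 : ℝ) ≤ L := Nat.cast_nonneg L
    set P : ℝ := (L : ℝ) + 1 with hP
    have hP1 : 1 ≤ P := by rw [hP]; linarith
    -- the exponents
    obtain ⟨B, hBs, hBc⟩ : ∃ B : Finset (Fin k →₀ ℕ), (∀ β ∈ B, β.degree < ⌈τ * L / 2⌉₊) ∧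
        w * (τ * L / 2) ^ (k + 1) / (k.factorial : ℝ) ≤ w * τ * L / 2 * B.card := by
      have hk0 : (0 : ℝ) < k.factorial := by exact_mod_cast Nat.factorial_pos k
      rcases Nat.eq_zero_or_pos ⌈τ * L / 2⌉₊ with h0 | h0
      · refine ⟨∅, fun β hβ => absurd hβ (Finset.notMem_empty _), ?_⟩
        have h1 : τ * L / 2 ≤ 0 := Nat.ceil_eq_zero.mp h0
        have h2 : τ * L / 2 = 0 := le_antisymm h1 (by positivity)
        rw [h2, Finset.card_empty]
        simp
      · obtain ⟨B, hB1, hB2⟩ := Ar2_card k _ h0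
        refine ⟨B, hB1, ?_⟩
        have h1 : (τ * L / 2) ^ k ≤ (⌈τ * L / 2⌉₊ : ℝ) ^ k := pow_le_pow_left₀ (by positivity) (Nat.le_ceil _) k
        have h2 : ((⌈τ * L / 2⌉₊ : ℝ)) ^ k ≤ k.factorial * B.card := by exact_mod_cast hB2
        rw [div_le_iff₀ hk0, pow_succ]
        have h3 : w * ((τ * L / 2) ^ k * (τ * L / 2)) ≤ w * ((k.factorial * B.card) * (τ * L / 2)) := by
          refine mul_le_mul_of_nonneg_left ?_ hw
          exact mul_le_mul_of_nonneg_right (h1.trans h2) (by positivity)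
        calc w * ((τ * L / 2) ^ k * (τ * L / 2)) ≤ w * ((k.factorial * B.card) * (τ * L / 2)) := h3
          _ = _ := by ring
    have hE1 : 1 ≤ Real.exp (C1 * P) := by
      rw [Real.one_le_exp_iff]; positivity
    have key := Ar2_main θ I hI ha hΘ hΘ0 hE1 a ha1 ha2 ha3 hw hτ0 hτ f g hB hM B hBs
    have hwl0 : 0 ≤ ∏ j, wl θ w τ L (g j) := Finset.prod_nonneg fun j _ => wl_nonneg θ w τ L (g j)
    set r := rJ (p0 θ) L with hr
    have hr0 : (0 : ℝ) ≤ r := Nat.cast_nonneg r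
    -- bounds by exponentials
    have hPexp : P ≤ Real.exp P := by linarith [Real.add_one_le_exp P]
    have b1 : (r : ℝ) ≤ Real.exp ((C1 + k) * P) := by
      calc (r : ℝ) ≤ C1 * P ^ k := hrL
        _ ≤ Real.exp (C1 * P) * Real.exp P ^ k := by
            refine mul_le_mul ?_ (pow_le_pow_left₀ (by positivity) hPexp k) (by positivity) (Real.exp_pos _).le
            have : C1 ≤ C1 * P := by nlinarith
            linarith [Real.add_one_le_exp (C1 * P)]
        _ = Real.exp ((C1 + k) * P) := by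
            rw [← Real.exp_nat_mul, ← Real.exp_add]; congr 1; ring
    have b2 : ((r.factorial : ℕ) : ℝ) ≤ Real.exp ((C1 + k) * P * r) := by
      calc ((r.factorial : ℕ) : ℝ) ≤ (r : ℝ) ^ r := by exact_mod_cast Nat.factorial_le_pow r
        _ ≤ Real.exp ((C1 + k) * P) ^ r := pow_le_pow_left₀ hr0 b1 r
        _ = Real.exp ((C1 + k) * P * r) := by
            rw [← Real.exp_nat_mul]; congr 1; ring
    have b3 : ((Ar2_F m L).card : ℝ) ≤ Real.exp ((m + 1) * P) := by
      calc ((Ar2_F m L).card : ℝ) ≤ P ^ (m + 1) := by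
            rw [hP]; exact_mod_cast Ar2_cardF m L
        _ ≤ Real.exp P ^ (m + 1) := pow_le_pow_left₀ (by positivity) hPexp _
        _ = Real.exp ((m + 1) * P) := by
            rw [← Real.exp_nat_mul]; push_cast; ring_nf
    have b4 : (1 + Θ) ^ L ≤ Real.exp (Θ * P) := by
      calc (1 + Θ) ^ L ≤ Real.exp Θ ^ L := pow_le_pow_left₀ (by positivity) (by linarith [Real.add_one_le_exp Θ]) L
        _ = Real.exp (Θ * L) := by rw [← Real.exp_nat_mul]; congr 1; ring
        _ ≤ Real.exp (Θ * P) := by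
            rw [Real.exp_le_exp, hP]; nlinarith
    have b5 : (Real.exp (C1 * P) * (1 + Θ) ^ L) * (Ar2_F m L).card ≤ Real.exp ((C1 + Θ + (m + 1)) * P) := by
      calc (Real.exp (C1 * P) * (1 + Θ) ^ L) * (Ar2_F m L).card
          ≤ (Real.exp (C1 * P) * Real.exp (Θ * P)) * Real.exp ((m + 1) * P) := by
            refine mul_le_mul (mul_le_mul_of_nonneg_left b4 (Real.exp_pos _).le) b3 (Nat.cast_nonneg _) (by positivity)
        _ = _ := by
            rw [← Real.exp_add, ← Real.exp_add]; congr 1; ring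
    have b6 : (((r.factorial : ℕ) : ℝ) ^ 2 * ((Real.exp (C1 * P) * (1 + Θ) ^ L) * (Ar2_F m L).card) ^ r) ≤ Real.exp (K * P * r) := by
      calc (((r.factorial : ℕ) : ℝ) ^ 2 * ((Real.exp (C1 * P) * (1 + Θ) ^ L) * (Ar2_F m L).card) ^ r)
          ≤ Real.exp ((C1 + k) * P * r) ^ 2 * Real.exp ((C1 + Θ + (m + 1)) * P) ^ r := by
            refine mul_le_mul (pow_le_pow_left₀ (Nat.cast_nonneg _) b2 2) (pow_le_pow_left₀ (by positivity) b5 r) (by positivity) (by positivity)
        _ = Real.exp (K * P * r) := by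
            rw [← Real.exp_nat_mul, ← Real.exp_nat_mul, ← Real.exp_add, hK]; congr 1; push_cast; ring
    have b7 : K * P * r ≤ C1 * K * P ^ (k + 1) := by
      calc K * P * r ≤ K * P * (C1 * P ^ k) := mul_le_mul_of_nonneg_left hrL (by positivity)
        _ = C1 * K * P ^ (k + 1) := by rw [pow_succ]; ring
    have h1 : 1 ≤ Real.exp (C1 * K * P ^ (k + 1)) * Real.exp (-(w * τ * L / 2 * B.card)) * Real.exp x := by
      refine key.trans ?_
      refine mul_le_mul ?_ hprod hwl0 (by positivity)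
      refine mul_le_mul_of_nonneg_right ?_ (Real.exp_pos _).le
      exact b6.trans (Real.exp_le_exp.mpr b7)
    rw [← Real.exp_add, ← Real.exp_add, Real.one_le_exp_iff] at h1
    have h2 : 0 ≤ C1 * P ^ (k + 1) := by positivity
    nlinarith [hBc]



private theorem As1_hs1 (k : ℕ) {t : ℝ} (ht0 : 0 ≤ t) (ht1 : t < 1) :
    HasSum (fun n : ℕ => (((n + k).choose k : ℕ) : ℝ) * t ^ n) (1 / (1 - t) ^ (k + 1)) := by
  have hn : ‖t‖ < 1 := by rw [Real.norm_eq_abs, abs_of_nonneg ht0]; exact ht1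
  exact hasSum_choose_mul_geometric_of_norm_lt_one k hn

private theorem As1_hs2 (k : ℕ) {t : ℝ} (ht0 : 0 ≤ t) (ht1 : t < 1) :
    HasSum (fun n : ℕ => ((n.choose k : ℕ) : ℝ) * t ^ n) (t ^ k / (1 - t) ^ (k + 1)) := by
  have h1 := (As1_hs1 k ht0 ht1).mul_left (t ^ k)
  have h2 : HasSum (fun n : ℕ => (((n + k).choose k : ℕ) : ℝ) * t ^ (n + k)) (t ^ k * (1 / (1 - t) ^ (k + 1))) := by
    refine h1.congr_fun ?_ |> fun h => h
    intro n
    rw [pow_add]
    ring
  have h3 := (hasSum_nat_add_iff (f := fun n : ℕ => ((n.choose k : ℕ) : ℝ) * t ^ n) k).mp h2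
  have h4 : ∑ i ∈ Finset.range k, ((i.choose k : ℕ) : ℝ) * t ^ i = 0 := by
    refine Finset.sum_eq_zero fun i hi => ?_
    rw [Nat.choose_eq_zero_of_lt (Finset.mem_range.mp hi)]
    simp
  rw [h4, add_zero, mul_one_div] at h3
  exact h3

private theorem As1_up (k L : ℕ) : ((L : ℝ) + 1) ^ k ≤ (k.factorial : ℝ) * (((L + k).choose k : ℕ) : ℝ) := by
  have h1 : (L + 1) ^ k ≤ (L + 1).ascFactorial k := Nat.pow_succ_le_ascFactorial _ _
  rw [Nat.ascFactorial_eq_factorial_mul_choose] at h1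
  exact_mod_cast h1

private theorem As1_low (k L : ℕ) : (k.factorial : ℝ) * ((L.choose k : ℕ) : ℝ) ≤ (L : ℝ) ^ k := by
  have h1 : L.descFactorial k ≤ L ^ k := Nat.descFactorial_le_pow _ _
  rw [Nat.descFactorial_eq_factorial_mul_choose] at h1
  exact_mod_cast h1

/-- row As1: real analysis -/
theorem real_asym (k : ℕ) : ∃ C : ℝ, 0 < C ∧ ∀ (a b K C' : ℝ), 0 ≤ a → 0 ≤ b → 0 ≤ K →
    (∀ t : ℝ, 0 ≤ t → t < 1 → ∀ N : ℕ, ∑ L ∈ Finset.range N, (a * (L : ℝ) ^ (k + 1) - b * ((L : ℝ) + 1) ^ (k + 1)) * t ^ L ≤ K / (1 - t) ^ (k + 2) + C') →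
      a ≤ C * (b + K) := by
  refine ⟨1, one_pos, ?_⟩
  intro a b K C' ha hb hK h
  have hF : (1 : ℝ) ≤ ((k + 1).factorial : ℝ) := by exact_mod_cast Nat.one_le_iff_ne_zero.mpr (Nat.factorial_ne_zero _)
  set F : ℝ := ((k + 1).factorial : ℝ) with hFd
  have key : ∀ t ∈ Set.Ico (0 : ℝ) 1, a * F * t ^ (k + 1) - b * F - K - C' * (1 - t) ^ (k + 2) ≤ 0 := by
    intro t ht
    obtain ⟨ht0, ht1⟩ := ht
    have hs1 := (As1_hs2 (k + 1) ht0 ht1).mul_left (a * F)
    have hs2 := (As1_hs1 (k + 1) ht0 ht1).mul_left (b * F)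
    have hs := hs1.sub hs2
    have hlim := hs.tendsto_sum_nat
    have hle : ∀ N : ℕ, ∑ L ∈ Finset.range N, (a * F * (((L.choose (k + 1) : ℕ) : ℝ) * t ^ L) - b * F * ((((L + (k + 1)).choose (k + 1) : ℕ) : ℝ) * t ^ L))
        ≤ K / (1 - t) ^ (k + 2) + C' := by
      intro N
      refine le_trans (Finset.sum_le_sum fun L _ => ?_) (h t ht0 ht1 N)
      have h1 := As1_up (k + 1) L
      have h2 := As1_low (k + 1) L
      have htL : 0 ≤ t ^ L := pow_nonneg ht0 L
      have e1 : a * (F * ((L.choose (k + 1) : ℕ) : ℝ)) ≤ a * (L : ℝ) ^ (k + 1) := mul_le_mul_of_nonneg_left h2 ha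
      have e2 : b * ((L : ℝ) + 1) ^ (k + 1) ≤ b * (F * (((L + (k + 1)).choose (k + 1) : ℕ) : ℝ)) := mul_le_mul_of_nonneg_left h1 hb
      have e3 : (a * (F * ((L.choose (k + 1) : ℕ) : ℝ)) - b * (F * (((L + (k + 1)).choose (k + 1) : ℕ) : ℝ))) * t ^ L
          ≤ (a * (L : ℝ) ^ (k + 1) - b * ((L : ℝ) + 1) ^ (k + 1)) * t ^ L := mul_le_mul_of_nonneg_right (by linarith) htL
      refine le_trans (le_of_eq ?_) e3
      ring
    have hlim2 := le_of_tendsto' hlim hle
    have hpos : 0 < (1 - t) ^ (k + 2) := pow_pos (by linarith) _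
    have h5 := mul_le_mul_of_nonneg_right hlim2 hpos.le
    have h6 : (a * F * (t ^ (k + 1) / (1 - t) ^ (k + 1 + 1)) - b * F * (1 / (1 - t) ^ (k + 1 + 1))) * (1 - t) ^ (k + 2) = a * F * t ^ (k + 1) - b * F := by
      have : (1 - t) ^ (k + 1 + 1) ≠ 0 := hpos.ne'
      field_simp
    have h7 : (K / (1 - t) ^ (k + 2) + C') * (1 - t) ^ (k + 2) = K + C' * (1 - t) ^ (k + 2) := by
      have : (1 - t) ^ (k + 2) ≠ 0 := hpos.ne'
      field_simp
    rw [h6, h7] at h5
    linarith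
  have hcl : IsClosed {t : ℝ | a * F * t ^ (k + 1) - b * F - K - C' * (1 - t) ^ (k + 2) ≤ 0} :=
    isClosed_le (by fun_prop) (by fun_prop)
  have h1 : (1 : ℝ) ∈ closure (Set.Ico (0 : ℝ) 1) := by
    rw [closure_Ico (by norm_num)]
    exact ⟨by norm_num, le_refl _⟩
  have h2 := hcl.closure_subset_iff.mpr key h1
  have h3 : a * F * 1 ^ (k + 1) - b * F - K - C' * (1 - 1) ^ (k + 2) ≤ 0 := h2
  have h4 : (1 - 1 : ℝ) ^ (k + 2) = 0 := by simp
  rw [h4, one_pow] at h3
  have h5 : (a - b) * F ≤ K := by linarith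
  by_cases hab : a ≤ b
  · linarith
  · have : (a - b) * 1 ≤ (a - b) * F := mul_le_mul_of_nonneg_left hF (by linarith)
    linarith

/-- growth of order `k+1` from `r(L) ≤ C (L+1)^k` -/
theorem gr_of_le {J : Ideal (PQ m)} {k : ℕ} {C : ℝ} (h : ∀ L : ℕ, (rJ J L : ℝ) ≤ C * ((L : ℝ) + 1) ^ k) :
    ∀ t : ℝ, 0 ≤ t → t < 1 → (1 - t) ^ (k + 1) * PP J t ≤ C * k.factorial := by
  intro t ht0 ht1
  have hC : 0 ≤ C := by
    have h0 := h 0
    have h1 : (0 : ℝ) ≤ (rJ J 0 : ℝ) := Nat.cast_nonneg _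
    simp at h0
    linarith
  have hs := (As1_hs1 k ht0 ht1).mul_left (C * k.factorial)
  have hle : ∀ L : ℕ, (rJ J L : ℝ) * t ^ L ≤ C * k.factorial * ((((L + k).choose k : ℕ) : ℝ) * t ^ L) := by
    intro L
    have h1 := h L
    have h2 := mul_le_mul_of_nonneg_left (As1_up k L) hC
    have h3 := mul_le_mul_of_nonneg_right (h1.trans h2) (pow_nonneg ht0 L)
    refine h3.trans (le_of_eq ?_)
    ring
  have hsum : Summable fun L : ℕ => (rJ J L : ℝ) * t ^ L :=
    Summable.of_nonneg_of_le (fun L => mul_nonneg (Nat.cast_nonneg _) (pow_nonneg ht0 L)) hle hs.summable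
  have hP : PP J t ≤ C * k.factorial * (1 / (1 - t) ^ (k + 1)) := by
    unfold PP
    rw [← hs.tsum_eq]
    exact hsum.tsum_le_tsum hle hs.summable
  have hpos : 0 < (1 - t) ^ (k + 1) := pow_pos (by linarith) _
  have h5 := mul_le_mul_of_nonneg_left hP hpos.le
  refine h5.trans (le_of_eq ?_)
  have : (1 - t) ^ (k + 1) ≠ 0 := hpos.ne'
  field_simp





/-- row As2: the contradiction -/
theorem asym (θ : Fin m → ℂ) {k : ℕ} (I : Fin k → Fin m) (hinj : Function.Injective I) (hI : AlgebraicIndependent ℚ (fun i => θ (I i)))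
    (ha : ∀ j, IsAlgebraic (IntermediateField.adjoin ℚ (Set.range fun i => θ (I i))) (θ j)) :
    ∃ C : ℝ, 0 < C ∧ ∀ (τ kp w0 : ℝ), 0 ≤ τ → τ ≤ 1 → 0 ≤ kp → 0 ≤ w0 → Slope θ τ kp w0 (k + 1) → w0 * τ ^ (k + 1) ≤ C * (kp + 1) := by
  obtain ⟨C1, hC1, hr, hlow⟩ := lowerBd θ I hinj hI ha
  obtain ⟨C2, hC2, has⟩ := real_asym k
  have hkf : (0 : ℝ) < (k.factorial : ℝ) := by exact_mod_cast Nat.factorial_pos k
  refine ⟨C2 * (C1 + ((k : ℝ) + 1) * C1 * k.factorial + 1) * (2 ^ (k + 1) * k.factorial), by positivity, ?_⟩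
  intro τ kp w0 hτ0 hτ1 hkp hw0 hS
  obtain ⟨C', hC'⟩ := hS w0 hw0 le_rfl (p0 θ) (p0_hi θ) ⟨C1 * k.factorial, gr_of_le hr⟩ 1 one_pos
  -- the lower bound for chi
  have hchi : ∀ L : ℕ, w0 * (τ / 2) ^ (k + 1) / (k.factorial : ℝ) * (L : ℝ) ^ (k + 1) - C1 * ((L : ℝ) + 1) ^ (k + 1) ≤ chi θ w0 τ (p0 θ) L := by
    intro L
    refine le_of_forall_pos_le_add fun η hη => ?_
    have h1 := hlow w0 τ hw0 hτ0 hτ1 L _ (chi_adm θ hw0 hτ0 (p0 θ) L hη)
    have h2 : w0 * (τ / 2) ^ (k + 1) / (k.factorial : ℝ) * (L : ℝ) ^ (k + 1) = w0 * (τ * L / 2) ^ (k + 1) / (k.factorial : ℝ) := by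
      rw [div_mul_eq_mul_div, mul_assoc, ← mul_pow]
      congr 3
      ring
    rw [h2]
    exact h1
  have hmain : w0 * (τ / 2) ^ (k + 1) / (k.factorial : ℝ) ≤ C2 * (C1 + (kp * ((k : ℝ) + 1) * C1 * k.factorial + 1)) := by
    refine has _ C1 _ C' (by positivity) hC1.le (by positivity) ?_
    intro t ht0 ht1 N
    have h1t : (0 : ℝ) < 1 - t := by linarith
    have hsum1 : ∑ L ∈ Finset.range N, (w0 * (τ / 2) ^ (k + 1) / (k.factorial : ℝ) * (L : ℝ) ^ (k + 1) - C1 * ((L : ℝ) + 1) ^ (k + 1)) * t ^ L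
        ≤ ∑ L ∈ Finset.range N, chi θ w0 τ (p0 θ) L * t ^ L :=
      Finset.sum_le_sum fun L _ => mul_le_mul_of_nonneg_right (hchi L) (pow_nonneg ht0 L)
    have hsum2 : ∑ L ∈ Finset.range N, chi θ w0 τ (p0 θ) L * t ^ L ≤ XX θ w0 τ (p0 θ) t :=
      (xx_summable θ hw0 hτ0 (p0 θ) ht0 ht1).sum_le_tsum _ fun L _ => mul_nonneg (chi_nonneg _ _ _ _ _) (pow_nonneg ht0 L)
    have hpp : PP (p0 θ) t ≤ C1 * k.factorial / (1 - t) ^ (k + 1) := by
      rw [le_div_iff₀ (by positivity)]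
      calc PP (p0 θ) t * (1 - t) ^ (k + 1) = (1 - t) ^ (k + 1) * PP (p0 θ) t := by ring
        _ ≤ C1 * k.factorial := gr_of_le hr t ht0 ht1
    have h3 : kp * ((k + 1 : ℕ) : ℝ) * PP (p0 θ) t / (1 - t) ≤ kp * ((k : ℝ) + 1) * C1 * k.factorial / (1 - t) ^ (k + 2) := by
      have e1 : kp * ((k : ℝ) + 1) * C1 * k.factorial / (1 - t) ^ (k + 2) = kp * ((k + 1 : ℕ) : ℝ) * (C1 * k.factorial / (1 - t) ^ (k + 1)) / (1 - t) := by
        push_cast
        field_simp
        ring
      rw [e1]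
      gcongr
    have h4 := hC' t ht0 ht1
    have e2 : (kp * ((k : ℝ) + 1) * C1 * k.factorial + 1) / (1 - t) ^ (k + 2) = kp * ((k : ℝ) + 1) * C1 * k.factorial / (1 - t) ^ (k + 2) + 1 / (1 - t) ^ (k + 1 + 1) := by
      rw [add_div]
    rw [e2]
    linarith
  have h5 : w0 * τ ^ (k + 1) = w0 * (τ / 2) ^ (k + 1) / (k.factorial : ℝ) * (2 ^ (k + 1) * k.factorial) := by
    rw [div_pow]
    field_simp
  rw [h5]
  have h6 : C2 * (C1 + (kp * ((k : ℝ) + 1) * C1 * k.factorial + 1)) ≤ C2 * (C1 + ((k : ℝ) + 1) * C1 * k.factorial + 1) * (kp + 1) := by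
    have h7 : 0 ≤ C2 * (C1 * kp + ((k : ℝ) + 1) * C1 * k.factorial + kp) := by positivity
    nlinarith [h7]
  calc w0 * (τ / 2) ^ (k + 1) / (k.factorial : ℝ) * (2 ^ (k + 1) * k.factorial)
      ≤ C2 * (C1 + (kp * ((k : ℝ) + 1) * C1 * k.factorial + 1)) * (2 ^ (k + 1) * k.factorial) :=
        mul_le_mul_of_nonneg_right hmain (by positivity)
    _ ≤ (C2 * (C1 + ((k : ℝ) + 1) * C1 * k.factorial + 1) * (kp + 1)) * (2 ^ (k + 1) * k.factorial) :=
        mul_le_mul_of_nonneg_right h6 (by positivity)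
    _ = C2 * (C1 + ((k : ℝ) + 1) * C1 * k.factorial + 1) * (2 ^ (k + 1) * k.factorial) * (kp + 1) := by ring



/-- the homogenized exponent -/
def At_e (T : ℕ) (d : Fin m →₀ ℕ) : Fin (m + 1) →₀ ℕ := Finsupp.cons (T - d.degree) d

theorem At_inj (T : ℕ) : Function.Injective (At_e (m := m) T) := by
  intro d d' h
  have := congrArg Finsupp.tail h
  simpa [At_e, Finsupp.tail_cons] using this

theorem At_deg (T : ℕ) {d : Fin m →₀ ℕ} (hd : d.degree ≤ T) : (At_e T d).degree = T := by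
  have h1 : (At_e T d).degree = (T - d.degree) + d.degree := by
    rw [At_e, Finsupp.degree_eq_sum, Finsupp.degree_eq_sum, Fin.sum_univ_succ]
    simp
  rw [h1]; omega

/-- homogenization to degree `T` -/
def At_h (T : ℕ) (f : MvPolynomial (Fin m) ℤ) : PZ m := ∑ d ∈ f.support, monomial (At_e T d) (f.coeff d)

theorem At_coeff (T : ℕ) (f : MvPolynomial (Fin m) ℤ) (d : Fin m →₀ ℕ) : (At_h T f).coeff (At_e T d) = f.coeff d := by
  classical
  rw [At_h, coeff_sum]
  simp only [coeff_monomial]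
  by_cases hd : d ∈ f.support
  · rw [Finset.sum_eq_single d]
    · simp
    · intro b _ hb
      rw [if_neg]
      exact fun h => hb (At_inj T h)
    · exact fun h => absurd hd h
  · rw [notMem_support_iff.1 hd]
    refine Finset.sum_eq_zero fun b hb => ?_
    rw [if_neg]
    intro h
    rw [At_inj T h] at hb
    exact hd hb

theorem At_supp (T : ℕ) (f : MvPolynomial (Fin m) ℤ) : (At_h T f).support = f.support.image (At_e T) := by
  classical
  ext x
  constructor
  · intro hx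
    rw [mem_support_iff, At_h, coeff_sum] at hx
    obtain ⟨d, hd, hne⟩ := Finset.exists_ne_zero_of_sum_ne_zero hx
    rw [coeff_monomial] at hne
    split_ifs at hne with h
    · exact Finset.mem_image.2 ⟨d, hd, h⟩
    · exact absurd rfl hne
  · intro hx
    obtain ⟨d, hd, rfl⟩ := Finset.mem_image.1 hx
    rw [mem_support_iff, At_coeff]
    exact mem_support_iff.1 hd

theorem At_len (T : ℕ) (f : MvPolynomial (Fin m) ℤ) : len (At_h T f) = len f := by
  classical
  rw [len, At_supp, Finset.sum_image fun a _ b _ h => At_inj T h, len]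
  refine Finset.sum_congr rfl fun d _ => ?_
  rw [At_coeff]

theorem At_hom (T : ℕ) {f : MvPolynomial (Fin m) ℤ} (hf : f.totalDegree ≤ T) : (At_h T f).IsHomogeneous T := by
  refine IsHomogeneous.sum _ _ _ fun d hd => isHomogeneous_monomial _ (At_deg T ?_)
  refine le_trans ?_ hf
  have := le_totalDegree hd
  exact this

theorem At_ev (T : ℕ) (θ : Fin m → ℂ) (f : MvPolynomial (Fin m) ℤ) :
    MvPolynomial.aeval (Fin.cons 1 θ : Fin (m + 1) → ℂ) (At_h T f) = MvPolynomial.aeval θ f := by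
  conv_rhs => rw [f.as_sum]
  rw [At_h, map_sum, map_sum]
  refine Finset.sum_congr rfl fun d _ => ?_
  rw [aeval_monomial, aeval_monomial, Finsupp.prod_fintype _ _ (fun _ => pow_zero _), Finsupp.prod_fintype _ _ (fun _ => pow_zero _),
    Fin.prod_univ_succ]
  simp [At_e]

/-- row At: homogenization -/
theorem homog (k : ℕ) (θ : Fin m → ℂ) (ε c0 : ℝ) (T : ℕ) {ι κ : Type} [Fintype ι] [Fintype κ] (B : Matrix ι κ (MvPolynomial (Fin m) ℤ))
    (h : BadMat k θ ε c0 T B) : ∃ B' : Matrix ι κ (PZ m), HMat k θ ε c0 T B' := by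
  have hev : evM (Fin.cons 1 θ : Fin (m + 1) → ℂ) (B.map (At_h T)) = evM θ B := by
    ext a b
    simp only [evM, Matrix.map_apply]
    exact At_ev T θ (B a b)
  refine ⟨B.map (At_h T), ⟨fun a b => At_hom T (h.deg a b), fun a b => ?_, h.cardr, h.cardc, ?_, ?_⟩⟩
  · rw [Matrix.map_apply, At_len]; exact h.len a b
  · rw [hev]; exact h.ub
  · rw [hev]; exact h.lb



theorem Au_RR_mono {k' k : ℕ} (h : k' ≤ k) {ε T : ℝ} (hε : 0 < ε) (hT : 1 ≤ T) : RR k' ε T ≤ RR k ε T := by
  unfold RR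
  apply Real.rpow_le_rpow_of_exponent_le hT
  have : (k' : ℝ) ≤ k := by exact_mod_cast h
  nlinarith

/-- row Au: the criterion -/
theorem thmA : ThmA := by
  intro m k θ htr ε c0 hε hε1 hc
  obtain ⟨k', I, hinj, hk', hI, ha⟩ := trbasis θ
  have hkk : k' ≤ k := by
    rw [hk'] at htr
    exact_mod_cast htr
  obtain ⟨C, hC, hasym⟩ := asym θ I hinj hI ha
  obtain ⟨T1, hT1⟩ := matL m k' θ hε hε1 hc
  have htend : Filter.Tendsto (fun T : ℕ => (T : ℝ) ^ (30 * ε)) Filter.atTop Filter.atTop :=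
    (tendsto_rpow_atTop (by positivity)).comp tendsto_natCast_atTop_atTop
  obtain ⟨T2, hT2⟩ := Filter.eventually_atTop.mp (htend.eventually_gt_atTop (2 * C))
  refine ⟨max (max T1 T2) 1, fun T hT ι κ _ _ B hB => ?_⟩
  have hTa : T1 ≤ T := (le_max_left _ _).trans ((le_max_left _ _).trans hT)
  have hTb : T2 ≤ T := (le_max_right _ _).trans ((le_max_left _ _).trans hT)
  have hTc : 1 ≤ T := (le_max_right _ _).trans hT
  have hT' : (1 : ℝ) ≤ T := by exact_mod_cast hTc
  have hT0 : (0 : ℝ) < T := by linarith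
  obtain ⟨B', hB'⟩ := homog k θ ε c0 T B hB
  have hR := Au_RR_mono hkk hε hT'
  have hmono : HMat k' θ ε c0 T B' :=
    { deg := hB'.deg
      len := hB'.len
      cardr := hB'.cardr
      cardc := hB'.cardc
      ub := fun j h1 h2 => hB'.ub j h1 (h2.trans hR)
      lb := fun j h1 h2 => hB'.lb j h1 (h2.trans hR) }
  have hM := hT1 T hTa ι κ B' hmono
  have hτ0 : 0 ≤ tau ε T := Real.rpow_nonneg hT0.le _
  have hτ1 : tau ε T ≤ 1 := Real.rpow_le_one_of_one_le_of_nonpos hT' (by linarith)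
  have hk0 : 0 ≤ kap ε T := Real.rpow_nonneg hT0.le _
  have hs := slope_all θ hτ0 hτ1 hk0 hM (k' + 1)
  have h := hasym (tau ε T) (kap ε T) (RR k' ε T ^ 2) hτ0 hτ1 hk0 (by positivity) hs
  have e1 : RR k' ε T ^ 2 * tau ε T ^ (k' + 1) =
      (T : ℝ) ^ (20 * ((k' : ℝ) + 2) * ε - 4 * ((k' : ℝ) + 1) * ε) := by
    unfold RR tau
    rw [← Real.rpow_natCast, ← Real.rpow_natCast, ← Real.rpow_mul hT0.le, ← Real.rpow_mul hT0.le,
      ← Real.rpow_add hT0]
    congr 1
    push_cast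
    ring
  rw [e1] at h
  have h2 : (T : ℝ) ^ (30 * ε) * (T : ℝ) ^ (2 * ε) ≤
      (T : ℝ) ^ (20 * ((k' : ℝ) + 2) * ε - 4 * ((k' : ℝ) + 1) * ε) := by
    rw [← Real.rpow_add hT0]
    apply Real.rpow_le_rpow_of_exponent_le hT'
    have : (0 : ℝ) ≤ k' := Nat.cast_nonneg _
    nlinarith [mul_nonneg this hε.le]
  have h3 : kap ε T + 1 ≤ 2 * (T : ℝ) ^ (2 * ε) := by
    unfold kap
    have : 1 ≤ (T : ℝ) ^ (2 * ε) := Real.one_le_rpow hT' (by positivity)
    linarith
  have h4 : 0 < (T : ℝ) ^ (2 * ε) := Real.rpow_pos_of_pos hT0 _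
  have h5 := hT2 T hTb
  have h6 : (T : ℝ) ^ (30 * ε) * (T : ℝ) ^ (2 * ε) ≤ (2 * C) * (T : ℝ) ^ (2 * ε) := by
    calc _ ≤ _ := h2
      _ ≤ C * (kap ε T + 1) := h
      _ ≤ C * (2 * (T : ℝ) ^ (2 * ε)) := mul_le_mul_of_nonneg_left h3 hC.le
      _ = _ := by ring
  have h7 := le_of_mul_le_mul_right h6 h4
  linarith


end Pool.Agent.LT
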