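import Pool.Agent.Lib.MP_f58a57_nt.LT.P0

/-!
# Part B: interpolation on a tower
-/

open Complex MvPolynomial Matrix

noncomputable section

namespace Pool.Agent.LT

variable {m c : ℕ}


theorem NN_nonneg {n : ℕ} (G : (Fin n → ℂ) → ℂ) (z : Fin n → ℂ) : 0 ≤ NN G z :=
  mul_nonneg (norm_nonneg _) (Real.exp_pos _).le

theorem Ba_nsq_add {n : ℕ} (z γ : Fin n → ℂ) : nsq (z + γ) = nsq z + 2 * (herm z γ).re + nsq γ := by
  unfold nsq herm
  rw [Complex.re_sum, Finset.mul_sum, ← Finset.sum_add_distrib, ← Finset.sum_add_distrib]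
  refine Finset.sum_congr rfl fun i _ => ?_
  rw [Pi.add_apply, ← Complex.normSq_eq_norm_sq, ← Complex.normSq_eq_norm_sq, ← Complex.normSq_eq_norm_sq, Complex.normSq_add]
  ring

/-- row Ba: invariance of the norm -/
theorem NN_inv {Γ : AddSubgroup (Vc c)} {G : Vc c → ℂ} (hG : Aut Γ G) {γ : Vc c} (hγ : γ ∈ Γ) (z : Vc c) : NN G (z + γ) = NN G z := by
  obtain ⟨e, he, h⟩ := hG.2 γ hγ
  unfold NN
  rw [h z, norm_mul, norm_mul, he, one_mul, Complex.norm_exp, Ba_nsq_add]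
  have h1 : (2 * (Real.pi : ℂ) * herm z γ + (Real.pi : ℂ) * (nsq γ : ℂ)).re = 2 * Real.pi * (herm z γ).re + Real.pi * nsq γ := by
    simp [Complex.add_re, Complex.mul_re]
  rw [h1, mul_comm (Real.exp _) ‖G z‖, mul_assoc, ← Real.exp_add]
  congr 2
  ring

theorem Aut.smul {Γ : AddSubgroup (Vc c)} {G : Vc c → ℂ} (hG : Aut Γ G) (a : ℂ) : Aut Γ (fun z => a * G z) := by
  refine ⟨hG.1.const_mul a, fun γ hγ => ?_⟩
  obtain ⟨e, he, h⟩ := hG.2 γ hγ
  refine ⟨e, he, fun z => ?_⟩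
  simp only [h z]
  ring

theorem NN_smul {n : ℕ} (G : (Fin n → ℂ) → ℂ) (a : ℂ) (z : Fin n → ℂ) : NN (fun z => a * G z) z = ‖a‖ * NN G z := by
  unfold NN
  rw [norm_mul, mul_assoc]

theorem JJ_smul {n : ℕ} {G : (Fin n → ℂ) → ℂ} {T η : ℝ} (h : JJ G T η) (a : ℂ) : JJ (fun z => a * G z) T (‖a‖ * η) := by
  intro v hv d hd
  have h1 : cf (fun z => a * G z) v d = a * cf G v d := by
    unfold cf
    simp only [mul_assoc]
    rw [intervalIntegral.integral_const_mul]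
    ring
  rw [h1, norm_mul]
  exact mul_le_mul_of_nonneg_left (h v hv d hd) (norm_nonneg a)











/-- the point on the line -/
private def Bb_s (x : ℝ) (σ k : ℝ) (w : ℂ) : ℂ := x + (σ * k : ℝ) * (I * w)

private theorem Bb_s_im (x σ k : ℝ) (w : ℂ) : (Bb_s x σ k w).im = σ * k * w.re := by
  simp [Bb_s]

/-- row Bb: three lines -/
theorem three {G : Vc c → ℂ} (hG : Differentiable ℂ G) {k M0 Mk : ℝ} (hk : 0 < k) (hM0 : 0 < M0) (hMk : 0 < Mk)
    (h0 : ∀ z, (z 0).im = 0 → NN G z ≤ M0) (h1 : ∀ z, |(z 0).im| = k → NN G z ≤ Mk) (hb : ∃ B : ℝ, ∀ z, |(z 0).im| ≤ k → NN G z ≤ B)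
    (z : Vc c) (hz : |(z 0).im| ≤ k) :
    NN G z * Real.exp (2 * Real.pi * (z 0).im ^ 2) ≤ M0 ^ (1 - |(z 0).im| / k) * (Mk * Real.exp (2 * Real.pi * k ^ 2)) ^ (|(z 0).im| / k) := by
  obtain ⟨B, hB⟩ := hb
  -- the sign
  obtain ⟨σ, hσ, hσz⟩ : ∃ σ : ℝ, σ ^ 2 = 1 ∧ (z 0).im = σ * |(z 0).im| := by
    rcases le_total 0 (z 0).im with h | h
    · exact ⟨1, by norm_num, by rw [abs_of_nonneg h, one_mul]⟩
    · exact ⟨-1, by norm_num, by rw [abs_of_nonpos h]; ring⟩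
  have hσabs : |σ| = 1 := by
    have : |σ| ^ 2 = 1 := by rw [sq_abs, hσ]
    nlinarith [abs_nonneg σ]
  set T : ℝ := ∑ i : Fin c, ‖z i.succ‖ ^ 2 with hT
  have hns : ∀ s : ℂ, nsq (Function.update z 0 s) = ‖s‖ ^ 2 + T := by
    intro s
    unfold nsq
    rw [Fin.sum_univ_succ, Function.update_self]
    congr 1
  have hnorm : ∀ s : ℂ, ‖s‖ ^ 2 = s.re ^ 2 + s.im ^ 2 := by
    intro s
    rw [← Complex.normSq_eq_norm_sq, Complex.normSq_apply]
    ring
  set f : ℂ → ℂ := fun w => G (Function.update z 0 (Bb_s (z 0).re σ k w)) *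
    cexp (-(Real.pi * ((Bb_s (z 0).re σ k w) ^ 2 + T))) with hf
  have hfn : ∀ w, ‖f w‖ = NN G (Function.update z 0 (Bb_s (z 0).re σ k w)) *
      Real.exp (2 * Real.pi * (σ * k * w.re) ^ 2) := by
    intro w
    rw [hf]
    simp only
    rw [norm_mul, Complex.norm_exp]
    unfold NN
    rw [hns, hnorm, mul_assoc, ← Real.exp_add, ← Bb_s_im (z 0).re σ k w]
    congr 2
    simp only [Complex.neg_re, Complex.mul_re, Complex.ofReal_re, Complex.ofReal_im, Complex.add_re,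
      pow_two, zero_mul, sub_zero]
    ring
  have him : ∀ w : ℂ, |σ * k * w.re| = k * |w.re| := by
    intro w
    rw [abs_mul, abs_mul, hσabs, one_mul, abs_of_pos hk]
  have hfd : Differentiable ℂ f := by
    have hs : Differentiable ℂ (fun w : ℂ => Bb_s (z 0).re σ k w) := by
      unfold Bb_s
      fun_prop
    have hu : Differentiable ℂ (fun w : ℂ => Function.update z 0 (Bb_s (z 0).re σ k w)) := by
      rw [differentiable_pi]
      intro i
      by_cases hi : i = 0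
      · subst hi
        simpa using hs
      · simp only [Function.update_of_ne hi]
        exact differentiable_const _
    apply Differentiable.mul
    · exact hG.comp hu
    · apply Differentiable.cexp
      apply Differentiable.neg
      apply Differentiable.const_mul
      exact (hs.pow 2).add_const _
  have hzz : Bb_s (z 0).re σ k ((|(z 0).im| / k : ℝ) : ℂ) = z 0 := by
    unfold Bb_s
    apply Complex.ext
    · simp
    · have : σ * k * (|(z 0).im| / k) = (z 0).im := by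
        rw [mul_assoc, mul_div_cancel₀ _ hk.ne', ← hσz]
      simpa using this
  have hw0 : |(z 0).im| / k ≤ 1 := by
    rw [div_le_one hk]
    exact hz
  have hw0' : 0 ≤ |(z 0).im| / k := div_nonneg (abs_nonneg _) hk.le
  have key := Complex.HadamardThreeLines.norm_le_interp_of_mem_verticalClosedStrip₀₁' f
    (z := ((|(z 0).im| / k : ℝ) : ℂ)) (a := M0) (b := Mk * Real.exp (2 * Real.pi * k ^ 2)) ?_ hfd.diffContOnCl ?_ ?_ ?_
  · rw [hfn, hzz, Function.update_eq_self, Complex.ofReal_re] at key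
    rw [mul_assoc σ, mul_div_cancel₀ _ hk.ne', ← hσz] at key
    exact key
  · change ((|(z 0).im| / k : ℝ) : ℂ).re ∈ Set.Icc (0 : ℝ) 1
    rw [Complex.ofReal_re]
    exact ⟨hw0', hw0⟩
  · refine ⟨B * Real.exp (2 * Real.pi * k ^ 2), ?_⟩
    rintro _ ⟨w, hw, rfl⟩
    change w.re ∈ Set.Icc (0 : ℝ) 1 at hw
    change ‖f w‖ ≤ _
    rw [hfn]
    have h2 : |σ * k * w.re| ≤ k := by
      rw [him, abs_of_nonneg hw.1]
      nlinarith [hw.2]
    have h3 : NN G (Function.update z 0 (Bb_s (z 0).re σ k w)) ≤ B := by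
      apply hB
      rw [Function.update_self, Bb_s_im]
      exact h2
    have h4 : (σ * k * w.re) ^ 2 ≤ k ^ 2 := by
      rw [← sq_abs (σ * k * w.re)]
      exact pow_le_pow_left₀ (abs_nonneg _) h2 2
    have h5 : 0 ≤ NN G (Function.update z 0 (Bb_s (z 0).re σ k w)) := NN_nonneg _ _
    apply mul_le_mul h3 _ (Real.exp_pos _).le (h5.trans h3)
    apply Real.exp_le_exp.2
    have := Real.pi_pos
    nlinarith
  · intro w hw
    have hw' : w.re = 0 := hw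
    rw [hfn, hw']
    have : NN G (Function.update z 0 (Bb_s (z 0).re σ k w)) ≤ M0 := by
      apply h0
      rw [Function.update_self, Bb_s_im, hw']
      ring
    simpa using this
  · intro w hw
    have hw' : w.re = 1 := hw
    rw [hfn, hw']
    have h2 : |σ * k * 1| = k := by
      rw [mul_one, abs_mul, hσabs, one_mul, abs_of_pos hk]
    have h3 : (σ * k * 1) ^ 2 = k ^ 2 := by
      rw [← sq_abs, h2]
    rw [h3]
    apply mul_le_mul_of_nonneg_right _ (Real.exp_pos _).le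
    apply h1
    rw [Function.update_self, Bb_s_im, hw']
    exact h2



theorem Bc_growth {G : Vc c → ℂ} (hG : Differentiable ℂ G) {A k M : ℝ} (hA : 0 ≤ A) (hk : 1 ≤ k)
    (hb : ∀ z, |(z 0).im| ≤ k → NN G z ≤ Real.exp (A * (1 + (z 0).im ^ 2))) (h0 : ∀ z, (z 0).im = 0 → NN G z ≤ M) (hM : Real.exp (-k ^ 2) ≤ M)
    (z : Vc c) (hz : |(z 0).im| ≤ k) : NN G z ≤ M * Real.exp ((1 + 2 * A + 2 * Real.pi) * k * |(z 0).im|) := by
  have hk0 : 0 < k := by linarith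
  have hM0 : 0 < M := lt_of_lt_of_le (Real.exp_pos _) hM
  have hpi := Real.pi_pos
  have hsq : ∀ z : Vc c, |(z 0).im| ≤ k → (z 0).im ^ 2 ≤ k ^ 2 := by
    intro z hz
    rw [← sq_abs]
    exact pow_le_pow_left₀ (abs_nonneg _) hz 2
  have hb' : ∀ z : Vc c, |(z 0).im| ≤ k → NN G z ≤ Real.exp (A * (1 + k ^ 2)) := by
    intro z hz
    refine (hb z hz).trans (Real.exp_le_exp.2 ?_)
    exact mul_le_mul_of_nonneg_left (by linarith [hsq z hz]) hA
  have h3 := three hG hk0 hM0 (Real.exp_pos (A * (1 + k ^ 2))) h0 (fun z hz => hb' z hz.le) ⟨_, hb'⟩ z hz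
  set y : ℝ := |(z 0).im| with hy
  have hy0 : 0 ≤ y := abs_nonneg _
  set t : ℝ := y / k with ht
  have ht0 : 0 ≤ t := div_nonneg hy0 hk0.le
  have hN : NN G z ≤ NN G z * Real.exp (2 * Real.pi * (z 0).im ^ 2) := by
    have h1 : 1 ≤ Real.exp (2 * Real.pi * (z 0).im ^ 2) := Real.one_le_exp (by positivity)
    exact le_mul_of_one_le_right (NN_nonneg G z) h1
  refine hN.trans (h3.trans ?_)
  have e1 : M ^ (1 - t) = M * M ^ (-t) := by
    rw [show (1 - t) = 1 + (-t) by ring, Real.rpow_add hM0, Real.rpow_one]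
  have e2 : M ^ (-t) ≤ Real.exp (k ^ 2 * t) := by
    have h5 : M ^ (-t) ≤ (Real.exp (-k ^ 2)) ^ (-t) :=
      Real.rpow_le_rpow_of_nonpos (Real.exp_pos _) hM (by linarith)
    refine h5.trans (le_of_eq ?_)
    rw [← Real.exp_mul]
    congr 1
    ring
  have e3 : (Real.exp (A * (1 + k ^ 2)) * Real.exp (2 * Real.pi * k ^ 2)) ^ t = Real.exp ((A * (1 + k ^ 2) + 2 * Real.pi * k ^ 2) * t) := by
    rw [← Real.exp_add, ← Real.exp_mul]
  rw [e1, e3]
  have e4 : M * M ^ (-t) * Real.exp ((A * (1 + k ^ 2) + 2 * Real.pi * k ^ 2) * t) ≤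
      M * Real.exp (k ^ 2 * t) * Real.exp ((A * (1 + k ^ 2) + 2 * Real.pi * k ^ 2) * t) := by
    exact mul_le_mul_of_nonneg_right (mul_le_mul_of_nonneg_left e2 hM0.le) (Real.exp_pos _).le
  refine e4.trans ?_
  rw [mul_assoc, ← Real.exp_add]
  refine mul_le_mul_of_nonneg_left (Real.exp_le_exp.2 ?_) hM0.le
  have e5 : k * k * t = k * y := by
    rw [ht]
    field_simp
  have e6 : A * (1 + k ^ 2) * t ≤ 2 * A * (k * k * t) := by
    have hkk : 1 ≤ k * k := by nlinarith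
    have : A * (1 + k ^ 2) ≤ 2 * A * (k * k) := by
      have h7 : A * (1 + k ^ 2) ≤ A * (2 * (k * k)) := mul_le_mul_of_nonneg_left (by nlinarith) hA
      linarith
    calc A * (1 + k ^ 2) * t ≤ 2 * A * (k * k) * t := mul_le_mul_of_nonneg_right this ht0
      _ = _ := by ring
  have e7 : (1 + 2 * A + 2 * Real.pi) * k * y = k * k * t + 2 * A * (k * k * t) + 2 * Real.pi * (k * k * t) := by
    rw [e5]
    ring
  rw [e7]
  nlinarith [e6]

/-- row Bc: the final step -/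
theorem final_step {G : Vc c → ℂ} (hG : Differentiable ℂ G) {A k : ℝ} (hA : 0 ≤ A) (hk : 1 ≤ k)
    (hb : ∀ z, |(z 0).im| ≤ k → NN G z ≤ Real.exp (A * (1 + (z 0).im ^ 2))) (h0 : ∀ z, (z 0).im = 0 → NN G z ≤ Real.exp (-k ^ 2))
    (z : Vc c) (hz : |(z 0).im| ≤ k / (2 * (1 + 2 * A + 2 * Real.pi))) : NN G z ≤ Real.exp (-(k ^ 2 / (2 * (1 + 2 * A + 2 * Real.pi)))) := by
  have hpi := Real.pi_pos
  have hk0 : 0 < k := by linarith
  set Q : ℝ := 1 + 2 * A + 2 * Real.pi with hQ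
  have hQ1 : 1 ≤ Q := by rw [hQ]; linarith
  have hQ0 : 0 < Q := by linarith
  have hz' : |(z 0).im| ≤ k := hz.trans (div_le_self hk0.le (by linarith))
  have h1 := Bc_growth hG hA hk hb h0 le_rfl z hz'
  rw [← Real.exp_add] at h1
  refine h1.trans (Real.exp_le_exp.2 ?_)
  rw [← hQ]
  have h2 : Q * k * |(z 0).im| ≤ k ^ 2 / 2 := by
    have h3 : Q * k * |(z 0).im| ≤ Q * k * (k / (2 * Q)) := mul_le_mul_of_nonneg_left hz (by positivity)
    refine h3.trans (le_of_eq ?_)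
    field_simp
  have h4 : k ^ 2 / (2 * Q) ≤ k ^ 2 / 2 := by
    apply div_le_div_of_nonneg_left (by positivity) (by norm_num) (by linarith)
  linarith

/-- growth -/
theorem growth {G : Vc c → ℂ} (hG : Differentiable ℂ G) {A k M : ℝ} (hA : 0 ≤ A) (hk : 1 ≤ k)
    (hb : ∀ z, |(z 0).im| ≤ k → NN G z ≤ Real.exp (A * (1 + (z 0).im ^ 2))) (h0 : ∀ z, (z 0).im = 0 → NN G z ≤ M) (hM : Real.exp (-k ^ 2) ≤ M)
    (z : Vc c) (hz : |(z 0).im| ≤ k) : NN G z ≤ M * Real.exp ((1 + 2 * A + 2 * Real.pi) * k * |(z 0).im|) :=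
  Bc_growth hG hA hk hb h0 hM z hz




/-! ### row Bd: the coefficients in the first variable -/

/-- `r ^ j` times the `j`-th Taylor coefficient in the first variable -/
def Gj (r : ℝ) (G : Vc (c + 1) → ℂ) (j : ℕ) (z : Vc c) : ℂ :=
  (2 * Real.pi)⁻¹ * ∫ t in (0 : ℝ)..(2 * Real.pi), G (Fin.cons (r * cexp (I * t)) z) * cexp (-(I * j * t))


theorem Bd1_add (s : ℂ) (z γ : Vc c) : (Fin.cons s (z + γ) : Vc (c + 1)) = Fin.cons s z + Fin.cons 0 γ := by
  funext i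
  refine Fin.cases ?_ (fun i => ?_) i
  · simp
  · simp

theorem Bd1_herm (s : ℂ) (z γ : Vc c) : herm (Fin.cons s z : Vc (c + 1)) (Fin.cons 0 γ) = herm z γ := by
  unfold herm
  rw [Fin.sum_univ_succ]
  simp

theorem Bd1_nsq (s : ℂ) (z : Vc c) : nsq (Fin.cons s z : Vc (c + 1)) = ‖s‖ ^ 2 + nsq z := by
  unfold nsq
  rw [Fin.sum_univ_succ]
  simp

theorem Gj_aut {Γ : AddSubgroup (Vc (c + 1))} {Γ₁ : AddSubgroup (Vc c)} (h : ∀ γ ∈ Γ₁, (Fin.cons 0 γ : Vc (c + 1)) ∈ Γ) {G : Vc (c + 1) → ℂ}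
    (hG : Aut Γ G) (r : ℝ) (j : ℕ) : Aut Γ₁ (Gj r G j) := by
  obtain ⟨hd, hq⟩ := hG
  refine ⟨?_, fun γ hγ => ?_⟩
  · have h1 : Differentiable ℂ (fun z : Vc c => ∫ t in (0 : ℝ)..(2 * Real.pi),
        (fun (z : Vc c) (t : ℝ) => G (Fin.cons (r * cexp (I * t)) z) * cexp (-(I * j * t))) z t) := by
      apply PI
      · have h2 : Continuous (fun q : Vc c × ℝ => (Fin.cons (r * cexp (I * q.2)) q.1 : Vc (c + 1))) := by
          apply continuous_pi
          intro i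
          refine Fin.cases ?_ (fun i => ?_) i
          · simp only [Fin.cons_zero]
            fun_prop
          · simp only [Fin.cons_succ]
            fun_prop
        have h3 : Continuous (fun q : Vc c × ℝ => G (Fin.cons (r * cexp (I * q.2)) q.1 : Vc (c + 1))) := hd.continuous.comp h2
        have h4 : Continuous (fun q : Vc c × ℝ => cexp (-(I * j * q.2))) := by fun_prop
        exact h3.mul h4
      · intro t
        have h2 : Differentiable ℂ (fun z : Vc c => (Fin.cons (r * cexp (I * t)) z : Vc (c + 1))) := by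
          rw [differentiable_pi]
          intro i
          refine Fin.cases ?_ (fun i => ?_) i
          · simp only [Fin.cons_zero]
            fun_prop
          · simp only [Fin.cons_succ]
            fun_prop
        exact (hd.comp h2).mul_const _
    exact h1.const_mul _
  · obtain ⟨e, he, hez⟩ := hq _ (h γ hγ)
    refine ⟨e, he, fun z => ?_⟩
    unfold Gj
    have h5 : ∀ t : ℝ, G (Fin.cons (r * cexp (I * t)) (z + γ)) * cexp (-(I * j * t)) =
        (e * cexp (2 * Real.pi * herm z γ + Real.pi * nsq γ)) * (G (Fin.cons (r * cexp (I * t)) z) * cexp (-(I * j * t))) := by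
      intro t
      rw [Bd1_add, hez, Bd1_herm, Bd1_nsq]
      simp only [norm_zero, ne_eq, OfNat.ofNat_ne_zero, not_false_eq_true, zero_pow, zero_add]
      ring
    simp only [h5]
    rw [intervalIntegral.integral_const_mul]
    ring

theorem Gj_NN {G : Vc (c + 1) → ℂ} {r E : ℝ} (hr : 0 < r) (h : ∀ z : Vc (c + 1), ‖z 0‖ = r → NN G z ≤ E) (j : ℕ) (z : Vc c) :
    NN (Gj r G j) z ≤ E * Real.exp (Real.pi * r ^ 2) := by
  have hpi := Real.pi_pos
  have hs : ∀ t : ℝ, ‖(r : ℂ) * cexp (I * t)‖ = r := by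
    intro t
    rw [norm_mul, mul_comm I, Complex.norm_exp_ofReal_mul_I, mul_one, Complex.norm_real, Real.norm_of_nonneg hr.le]
  have h1 : ∀ t : ℝ, ‖G (Fin.cons (r * cexp (I * t)) z) * cexp (-(I * j * t))‖ ≤ E * Real.exp (Real.pi * (r ^ 2 + nsq z)) := by
    intro t
    have h2 := h (Fin.cons (r * cexp (I * t)) z) (by rw [Fin.cons_zero]; exact hs t)
    unfold NN at h2
    rw [Bd1_nsq, hs] at h2
    have h3 : ‖cexp (-(I * j * t))‖ = 1 := by
      rw [Complex.norm_exp]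
      simp
    rw [norm_mul, h3, mul_one]
    have h4 : ‖G (Fin.cons (r * cexp (I * t)) z)‖ =
        (‖G (Fin.cons (r * cexp (I * t)) z)‖ * Real.exp (-(Real.pi * (r ^ 2 + nsq z)))) * Real.exp (Real.pi * (r ^ 2 + nsq z)) := by
      rw [mul_assoc, ← Real.exp_add, neg_add_cancel, Real.exp_zero, mul_one]
    rw [h4]
    exact mul_le_mul_of_nonneg_right h2 (Real.exp_pos _).le
  have h5 := intervalIntegral.norm_integral_le_of_norm_le_const (a := (0 : ℝ)) (b := 2 * Real.pi)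
    (f := fun t : ℝ => G (Fin.cons (r * cexp (I * t)) z) * cexp (-(I * j * t))) (C := E * Real.exp (Real.pi * (r ^ 2 + nsq z))) (fun t _ => h1 t)
  rw [sub_zero, abs_of_pos (by positivity : (0 : ℝ) < 2 * Real.pi)] at h5
  unfold NN Gj
  rw [norm_mul]
  have h6 : ‖(((2 * Real.pi)⁻¹ : ℝ) : ℂ)‖ = (2 * Real.pi)⁻¹ := by
    rw [Complex.norm_real, Real.norm_of_nonneg (by positivity)]
  rw [h6]
  have h7 : (2 * Real.pi)⁻¹ * ‖∫ t in (0 : ℝ)..(2 * Real.pi), G (Fin.cons (r * cexp (I * t)) z) * cexp (-(I * j * t))‖ ≤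
      E * Real.exp (Real.pi * (r ^ 2 + nsq z)) := by
    rw [inv_mul_le_iff₀ (by positivity)]
    linarith
  calc (2 * Real.pi)⁻¹ * ‖∫ t in (0 : ℝ)..(2 * Real.pi), G (Fin.cons (r * cexp (I * t)) z) * cexp (-(I * j * t))‖ * Real.exp (-(Real.pi * nsq z))
      ≤ (E * Real.exp (Real.pi * (r ^ 2 + nsq z))) * Real.exp (-(Real.pi * nsq z)) :=
        mul_le_mul_of_nonneg_right h7 (Real.exp_pos _).le
    _ = E * Real.exp (Real.pi * r ^ 2) := by
        rw [mul_assoc, ← Real.exp_add]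
        congr 2
        ring





private theorem Bd2_cf_scale {n : ℕ} {G : (Fin n → ℂ) → ℂ} (hG : Differentiable ℂ G) (a : ℂ) (w : Fin n → ℂ) (e : ℕ) :
    cf G (a • w) e = a ^ e * cf G w e := by
  rw [cf_eq_iter hG, cf_eq_iter hG]
  have h1 : (fun t : ℂ => G (t • (a • w))) = fun t : ℂ => (fun s : ℂ => G (s • w)) (a * t) := by
    funext t
    simp only [smul_smul]
    rw [mul_comm]
  have hd : Differentiable ℂ (fun s : ℂ => G (s • w)) := hG.comp (differentiable_id.smul_const w)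
  rw [h1, iteratedDeriv_comp_const_smul hd.contDiff a]
  simp
  ring

private theorem Bd2_bound {n : ℕ} {G : (Fin n → ℂ) → ℂ} (hG : Differentiable ℂ G) {T η ρ : ℝ} (hρ : 1 ≤ ρ) (h : JJ G T η)
    (w : Fin n → ℂ) (hw : ∀ i, ‖w i‖ ≤ ρ) {e : ℕ} (he : (e : ℝ) < T) : ‖cf G w e‖ ≤ ρ ^ e * η := by
  have hρ0 : (0 : ℝ) < ρ := by linarith
  have hne : (ρ : ℂ) ≠ 0 := by exact_mod_cast hρ0.ne'
  have h1 : w = (ρ : ℂ) • ((ρ : ℂ)⁻¹ • w) := by
    rw [smul_smul, mul_inv_cancel₀ hne, one_smul]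
  rw [h1, Bd2_cf_scale hG, norm_mul, norm_pow, Complex.norm_real, Real.norm_of_nonneg hρ0.le]
  refine mul_le_mul_of_nonneg_left (h _ ?_ e he) (by positivity)
  intro i
  rw [Pi.smul_apply, norm_smul, norm_inv, Complex.norm_real, Real.norm_of_nonneg hρ0.le, inv_mul_le_iff₀ hρ0]
  simpa using hw i

theorem Gj_jet {G : Vc (c + 1) → ℂ} (hG : Differentiable ℂ G) {T η r : ℝ} (hr : 0 < r) (h : JJ G T η) (j : ℕ) {v : Vc c} (hv : ∀ i, ‖v i‖ ≤ 1) {d : ℕ}
    (hd : (d : ℝ) + j < T) : ‖cf (Gj r G j) v d‖ ≤ max 1 r ^ (d + j) * η := by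
  have hGc : Continuous G := hG.continuous
  -- the double integral
  have key : cf (Gj r G j) v d = (2 * Real.pi)⁻¹ * ∫ t in (0 : ℝ)..(2 * Real.pi),
      cexp (-(I * j * t)) * cf G (Fin.cons (r * cexp (I * t)) v : Vc (c + 1)) (d + j) := by
    have e1 : ∀ u : ℝ, (∫ t in (0 : ℝ)..(2 * Real.pi), G (Fin.cons (r * cexp (I * t)) (cexp (I * u) • v)) * cexp (-(I * j * t)))
        = ∫ t in (0 : ℝ)..(2 * Real.pi), G (cexp (I * u) • (Fin.cons (r * cexp (I * t)) v : Vc (c + 1))) * cexp (-(I * j * t)) * cexp (-(I * j * u)) := by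
      intro u
      set f : ℝ → ℂ := fun t => G (Fin.cons (r * cexp (I * t)) (cexp (I * u) • v)) * cexp (-(I * j * t)) with hf
      have hper : Function.Periodic f (2 * Real.pi) := by
        intro t
        simp only [hf]
        have a1 : cexp (I * ((t + 2 * Real.pi : ℝ) : ℂ)) = cexp (I * t) := by
          push_cast
          rw [mul_add, show I * (2 * (Real.pi : ℂ)) = 2 * Real.pi * I by ring]
          exact Complex.exp_periodic _
        have a2 : cexp (-(I * j * ((t + 2 * Real.pi : ℝ) : ℂ))) = cexp (-(I * j * t)) := by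
          push_cast
          rw [show -(I * (j : ℂ) * (t + 2 * Real.pi)) = -(I * j * t) - j * (2 * Real.pi * I) by ring]
          rw [Complex.exp_sub, Complex.exp_nat_mul, Complex.exp_two_pi_mul_I]
          simp
        rw [a1, a2]
      have h2 := hper.intervalIntegral_add_eq 0 u
      simp only [zero_add] at h2
      have h3 : (∫ t in (0 : ℝ)..(2 * Real.pi), f (t + u)) = ∫ t in u..(u + 2 * Real.pi), f t := by
        rw [intervalIntegral.integral_comp_add_right]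
        rw [zero_add, add_comm]
      rw [h2, ← h3]
      refine intervalIntegral.integral_congr ?_
      intro t _
      simp only [hf]
      have a3 : (Fin.cons (r * cexp (I * ((t + u : ℝ) : ℂ))) (cexp (I * u) • v) : Vc (c + 1)) = cexp (I * u) • (Fin.cons (r * cexp (I * t)) v : Vc (c + 1)) := by
        funext i
        refine Fin.cases ?_ (fun i => ?_) i
        · simp only [Fin.cons_zero, Pi.smul_apply, smul_eq_mul]
          push_cast
          rw [mul_add, Complex.exp_add]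
          ring
        · simp
      rw [a3, show cexp (-(I * j * ((t + u : ℝ) : ℂ))) = cexp (-(I * j * t)) * cexp (-(I * j * u)) by
        rw [← Complex.exp_add]; congr 1; push_cast; ring]
      ring
    have e2 : (∫ s in (0 : ℝ)..(2 * Real.pi), Gj r G j (cexp (I * s) • v) * cexp (-(I * d * s)))
        = ∫ s in (0 : ℝ)..(2 * Real.pi), ∫ t in (0 : ℝ)..(2 * Real.pi), ((2 * Real.pi)⁻¹ : ℝ) *
          (G (cexp (I * s) • (Fin.cons (r * cexp (I * t)) v : Vc (c + 1))) * cexp (-(I * j * t)) * cexp (-(I * ((d + j : ℕ) : ℂ) * s))) := by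
      refine intervalIntegral.integral_congr ?_
      intro s _
      simp only [Gj]
      rw [e1 s, ← intervalIntegral.integral_const_mul, ← intervalIntegral.integral_mul_const]
      refine intervalIntegral.integral_congr ?_
      intro t _
      simp only
      rw [show cexp (-(I * ((d + j : ℕ) : ℂ) * s)) = cexp (-(I * j * s)) * cexp (-(I * d * s)) by
        rw [← Complex.exp_add]; congr 1; push_cast; ring]
      push_cast
      ring
    have e3 : (∫ t in (0 : ℝ)..(2 * Real.pi), cexp (-(I * j * t)) * cf G (Fin.cons (r * cexp (I * t)) v : Vc (c + 1)) (d + j))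
        = ∫ t in (0 : ℝ)..(2 * Real.pi), ∫ s in (0 : ℝ)..(2 * Real.pi), ((2 * Real.pi)⁻¹ : ℝ) *
          (G (cexp (I * s) • (Fin.cons (r * cexp (I * t)) v : Vc (c + 1))) * cexp (-(I * j * t)) * cexp (-(I * ((d + j : ℕ) : ℂ) * s))) := by
      refine intervalIntegral.integral_congr ?_
      intro t _
      simp only [cf]
      rw [← intervalIntegral.integral_const_mul, ← intervalIntegral.integral_const_mul]
      refine intervalIntegral.integral_congr ?_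
      intro s _
      simp only
      push_cast
      ring
    have e4 : (∫ s in (0 : ℝ)..(2 * Real.pi), ∫ t in (0 : ℝ)..(2 * Real.pi), ((2 * Real.pi)⁻¹ : ℝ) *
          (G (cexp (I * s) • (Fin.cons (r * cexp (I * t)) v : Vc (c + 1))) * cexp (-(I * j * t)) * cexp (-(I * ((d + j : ℕ) : ℂ) * s))))
        = ∫ t in (0 : ℝ)..(2 * Real.pi), ∫ s in (0 : ℝ)..(2 * Real.pi), ((2 * Real.pi)⁻¹ : ℝ) *
          (G (cexp (I * s) • (Fin.cons (r * cexp (I * t)) v : Vc (c + 1))) * cexp (-(I * j * t)) * cexp (-(I * ((d + j : ℕ) : ℂ) * s))) := by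
      apply MeasureTheory.intervalIntegral_intervalIntegral_swap
      refine MeasureTheory.IntegrableOn.mono_set (t := Set.uIcc 0 (2 * Real.pi) ×ˢ Set.uIcc 0 (2 * Real.pi)) ?_
        (Set.prod_mono Set.uIoc_subset_uIcc Set.uIoc_subset_uIcc)
      refine ContinuousOn.integrableOn_compact (isCompact_uIcc.prod isCompact_uIcc) ?_
      refine Continuous.continuousOn ?_
      have hcons : Continuous fun p : ℝ × ℝ => (Fin.cons (r * cexp (I * p.2)) v : Vc (c + 1)) := by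
        refine continuous_pi fun i => ?_
        refine Fin.cases ?_ (fun i => ?_) i
        · simp only [Fin.cons_zero]
          fun_prop
        · simp only [Fin.cons_succ]
          fun_prop
      have hG2 : Continuous fun p : ℝ × ℝ => G (cexp (I * p.1) • (Fin.cons (r * cexp (I * p.2)) v : Vc (c + 1))) :=
        hGc.comp ((by fun_prop : Continuous fun p : ℝ × ℝ => cexp (I * p.1)).smul hcons)
      unfold Function.uncurry
      have h5 : Continuous fun p : ℝ × ℝ => cexp (-(I * j * p.2)) := by fun_prop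
      have h6 : Continuous fun p : ℝ × ℝ => cexp (-(I * ((d + j : ℕ) : ℂ) * p.1)) := by fun_prop
      exact continuous_const.mul ((hG2.mul h5).mul h6)
    have e0 : cf (Gj r G j) v d = (2 * Real.pi)⁻¹ * ∫ s in (0 : ℝ)..(2 * Real.pi), Gj r G j (cexp (I * s) • v) * cexp (-(I * d * s)) := rfl
    rw [e0, e2, e4, ← e3]
  rw [key, norm_mul]
  have hpi : (0 : ℝ) < 2 * Real.pi := by positivity
  have hη : 0 ≤ η := by
    have h0 := h 0 (by simp) 0 (by
      have : (0 : ℝ) ≤ (d : ℝ) + j := by positivity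
      push_cast
      linarith)
    exact (norm_nonneg _).trans h0
  have hint : ‖∫ t in (0 : ℝ)..(2 * Real.pi), cexp (-(I * j * t)) * cf G (Fin.cons (r * cexp (I * t)) v : Vc (c + 1)) (d + j)‖
      ≤ (max 1 r ^ (d + j) * η) * |2 * Real.pi - 0| := by
    refine intervalIntegral.norm_integral_le_of_norm_le_const ?_
    intro t _
    have h7 : ‖cexp (-(I * j * t))‖ = 1 := by
      rw [show -(I * (j : ℂ) * (t : ℂ)) = ((-(j * t) : ℝ) : ℂ) * I by push_cast; ring]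
      exact Complex.norm_exp_ofReal_mul_I _
    rw [norm_mul, h7, one_mul]
    refine Bd2_bound hG (le_max_left _ _) h _ ?_ (by push_cast; exact hd)
    intro i
    refine Fin.cases ?_ (fun i => ?_) i
    · simp only [Fin.cons_zero]
      rw [norm_mul, Complex.norm_real, Real.norm_of_nonneg hr.le, mul_comm I, Complex.norm_exp_ofReal_mul_I, mul_one]
      exact le_max_right _ _
    · simp only [Fin.cons_succ]
      exact (hv i).trans (le_max_left _ _)
  rw [sub_zero, abs_of_pos hpi] at hint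
  have h8 : ‖(((2 * Real.pi)⁻¹ : ℝ) : ℂ)‖ = (2 * Real.pi)⁻¹ := by
    rw [Complex.norm_real, Real.norm_of_nonneg (by positivity)]
  rw [h8]
  calc (2 * Real.pi)⁻¹ * ‖∫ t in (0 : ℝ)..(2 * Real.pi), cexp (-(I * j * t)) * cf G (Fin.cons (r * cexp (I * t)) v : Vc (c + 1)) (d + j)‖
      ≤ (2 * Real.pi)⁻¹ * ((max 1 r ^ (d + j) * η) * (2 * Real.pi)) := mul_le_mul_of_nonneg_left hint (by positivity)
    _ = max 1 r ^ (d + j) * η := by field_simp


/-! ### row Be, Bf: the cases `c = 0` and `c + 1` of the contradiction.  `G` is normalised: `NN G ≤ 1` on the real hyperplane. -/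


/-- the eventual inequalities -/
theorem Be_ev (ε A g : ℝ) (hε : 0 < ε) : ∃ T0 : ℝ, ∀ T : ℝ, T0 ≤ T →
    8 ≤ T ∧ 8 * |g| ≤ T ^ (ε - ε / 4) ∧ A + Real.pi ≤ T ^ (ε / 4) ∧ Real.log T + 1 ≤ T ^ (3 * ε) / 2 := by
  have h1 : ∀ᶠ T : ℝ in Filter.atTop, 8 ≤ T := Filter.eventually_ge_atTop 8
  have h2 : ∀ᶠ T : ℝ in Filter.atTop, 8 * |g| ≤ T ^ (ε - ε / 4) :=
    (tendsto_rpow_atTop (by linarith)).eventually_ge_atTop _
  have h3 : ∀ᶠ T : ℝ in Filter.atTop, A + Real.pi ≤ T ^ (ε / 4) :=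
    (tendsto_rpow_atTop (by linarith)).eventually_ge_atTop _
  have h4 : ∀ᶠ T : ℝ in Filter.atTop, Real.log T ≤ 1 / 4 * T ^ (3 * ε) := by
    have h := (isLittleO_log_rpow_atTop (show (0 : ℝ) < 3 * ε by linarith)).bound (show (0 : ℝ) < 1 / 4 by norm_num)
    filter_upwards [h, Filter.eventually_ge_atTop (1 : ℝ)] with T hT hT1
    have e1 : ‖Real.log T‖ = Real.log T := by
      rw [Real.norm_eq_abs, abs_of_nonneg (Real.log_nonneg hT1)]
    have e2 : ‖T ^ (3 * ε)‖ = T ^ (3 * ε) := by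
      rw [Real.norm_eq_abs, abs_of_nonneg (Real.rpow_nonneg (by linarith) _)]
    rw [e1, e2] at hT
    exact hT
  have h5 : ∀ᶠ T : ℝ in Filter.atTop, 4 ≤ T ^ (3 * ε) :=
    (tendsto_rpow_atTop (by linarith)).eventually_ge_atTop _
  have h6 := h1.and (h2.and (h3.and (h4.and h5)))
  rw [Filter.eventually_atTop] at h6
  obtain ⟨T0, h⟩ := h6
  refine ⟨T0, fun T hT => ?_⟩
  obtain ⟨a1, a2, a3, a4, a5⟩ := h T hT
  exact ⟨a1, a2, a3, by linarith⟩

/-- the radius -/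
theorem Be_rad {ε T k : ℝ} (hε : 0 < ε) (hε1 : ε ≤ 1 / 20) (hT : 1 ≤ T) (hk1 : T ^ (1 / 2 + ε) ≤ k) (hk2 : k ≤ T ^ (1 - ε)) :
    ∃ r : ℝ, 0 < r ∧ T ^ (ε - ε / 4) ≤ r ∧ r ≤ k ∧ r ≤ T ∧ k * r = T ^ (1 - ε / 4) ∧ r ^ 2 ≤ T ^ (1 - ε / 4) := by
  have hT0 : 0 < T := by linarith
  have hk0 : 0 < k := lt_of_lt_of_le (Real.rpow_pos_of_pos hT0 _) hk1
  have h1 : T ^ (1 - ε / 4) / k ≤ T ^ (1 / 2 - ε - ε / 4) := by
    rw [div_le_iff₀ hk0]
    have e : T ^ (1 - ε / 4) = T ^ (1 / 2 - ε - ε / 4) * T ^ (1 / 2 + ε) := by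
      rw [← Real.rpow_add hT0]
      congr 1
      ring
    rw [e]
    exact mul_le_mul_of_nonneg_left hk1 (Real.rpow_nonneg hT0.le _)
  have h2 : T ^ (ε - ε / 4) ≤ T ^ (1 - ε / 4) / k := by
    rw [le_div_iff₀ hk0]
    have e : T ^ (1 - ε / 4) = T ^ (ε - ε / 4) * T ^ (1 - ε) := by
      rw [← Real.rpow_add hT0]
      congr 1
      ring
    rw [e]
    exact mul_le_mul_of_nonneg_left hk2 (Real.rpow_nonneg hT0.le _)
  have h3 : T ^ (1 / 2 - ε - ε / 4) ≤ T ^ (1 / 2 + ε) := Real.rpow_le_rpow_of_exponent_le hT (by linarith)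
  have h4 : T ^ (1 / 2 - ε - ε / 4) ≤ T := by
    have := Real.rpow_le_rpow_of_exponent_le hT (show 1 / 2 - ε - ε / 4 ≤ 1 by linarith)
    rwa [Real.rpow_one] at this
  have hr0 : 0 < T ^ (1 - ε / 4) / k := div_pos (Real.rpow_pos_of_pos hT0 _) hk0
  refine ⟨T ^ (1 - ε / 4) / k, hr0, h2, h1.trans (h3.trans hk1), h1.trans h4, ?_, ?_⟩
  · field_simp
  · have h5 : (T ^ (1 - ε / 4) / k) ^ 2 ≤ (T ^ (1 / 2 - ε - ε / 4)) ^ 2 := pow_le_pow_left₀ hr0.le h1 2
    have h6 : (T ^ (1 / 2 - ε - ε / 4)) ^ 2 = T ^ (1 - 2 * ε - ε / 2) := by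
      rw [← Real.rpow_natCast, ← Real.rpow_mul hT0.le]
      congr 1
      push_cast
      ring
    rw [h6] at h5
    exact h5.trans (Real.rpow_le_rpow_of_exponent_le hT (by linarith))

/-- the bound for the coefficients -/
theorem Be_eta {ε T k r : ℝ} (hT : 8 ≤ T) (hk1 : T ^ (1 / 2 + ε) ≤ k) (hr : 0 < r) (hrT : r ≤ T)
    (hlog : Real.log T + 1 ≤ T ^ (3 * ε) / 2) {d : ℕ} (hd : (d : ℝ) < T) :
    r ^ d * Real.exp (-(T ^ ε * k ^ 2 / 2)) ≤ Real.exp (-T) := by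
  have hT0 : 0 < T := by linarith
  have h1 : r ^ d ≤ T ^ d := pow_le_pow_left₀ hr.le hrT d
  have h2 : (T ^ d : ℝ) ≤ Real.exp (T * Real.log T) := by
    have e : (T ^ d : ℝ) = Real.exp (d * Real.log T) := by
      rw [mul_comm, Real.exp_mul, Real.exp_log hT0, Real.rpow_natCast]
    rw [e]
    exact Real.exp_le_exp.mpr (mul_le_mul_of_nonneg_right hd.le (Real.log_nonneg (by linarith)))
  have h3 : T ^ (1 + 3 * ε) ≤ T ^ ε * k ^ 2 := by
    have e : T ^ (1 + 3 * ε) = T ^ ε * (T ^ (1 / 2 + ε)) ^ 2 := by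
      rw [← Real.rpow_natCast (T ^ (1 / 2 + ε)), ← Real.rpow_mul hT0.le, ← Real.rpow_add hT0]
      congr 1
      push_cast
      ring
    rw [e]
    exact mul_le_mul_of_nonneg_left (pow_le_pow_left₀ (Real.rpow_nonneg hT0.le _) hk1 2) (Real.rpow_nonneg hT0.le _)
  have h4 : T ^ (1 + 3 * ε) = T * T ^ (3 * ε) := by
    rw [Real.rpow_add hT0, Real.rpow_one]
  have h5 : T * (Real.log T + 1) ≤ T * (T ^ (3 * ε) / 2) := mul_le_mul_of_nonneg_left hlog hT0.le
  calc r ^ d * Real.exp (-(T ^ ε * k ^ 2 / 2)) ≤ Real.exp (T * Real.log T) * Real.exp (-(T ^ ε * k ^ 2 / 2)) :=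
        mul_le_mul_of_nonneg_right (h1.trans h2) (Real.exp_pos _).le
    _ = Real.exp (T * Real.log T + -(T ^ ε * k ^ 2 / 2)) := (Real.exp_add _ _).symm
    _ ≤ Real.exp (-T) := by
        apply Real.exp_le_exp.mpr
        rw [h4] at h3
        nlinarith only [h3, h5]

/-- scaling of the coefficients -/
theorem Be_cf {G : Vc 0 → ℂ} (hG : Differentiable ℂ G) (r : ℝ) (d : ℕ) :
    cf G (fun _ => (r : ℂ)) d = (r : ℂ) ^ d * cf G (fun _ => 1) d := by
  rw [cf_eq_iter hG, cf_eq_iter hG]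
  have e : (fun t : ℂ => G (t • (fun _ => (r : ℂ)) : Vc 0)) = fun t : ℂ => (fun x : ℂ => G (x • (fun _ => (1 : ℂ)) : Vc 0)) ((r : ℂ) * t) := by
    funext t
    show G _ = G _
    congr 1
    funext i
    simp only [Pi.smul_apply, smul_eq_mul]
    ring
  rw [e]
  have hd : ContDiff ℂ d (fun x : ℂ => G (x • (fun _ => (1 : ℂ)) : Vc 0)) := by
    have : Differentiable ℂ (fun x : ℂ => G (x • (fun _ => (1 : ℂ)) : Vc 0)) :=
      hG.comp (differentiable_id.smul_const _)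
    exact this.contDiff
  rw [iteratedDeriv_comp_const_mul hd]
  simp only [mul_zero]
  ring

/-- row Be -/
theorem base_case (Γ : AddSubgroup (Vc 0)) (hΓ : Tow 0 Γ) (ε A : ℝ) (hε : 0 < ε) (hε1 : ε ≤ 1 / 20) (hA : 0 ≤ A) :
    ∃ T0 : ℝ, ∀ T : ℝ, T0 ≤ T → ∀ k : ℝ, T ^ (1 / 2 + ε) ≤ k → k ≤ T ^ (1 - ε) → ∀ G : Vc 0 → ℂ, Aut Γ G →
      (∀ z, |(z 0).im| ≤ k → NN G z ≤ Real.exp (A * k * |(z 0).im|)) → JJ G T (Real.exp (-(T ^ ε * k ^ 2 / 2))) →
        ∀ z, (z 0).im = 0 → NN G z < 1 / 2 := by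
  obtain ⟨g, hg, hg0, hgim⟩ := hΓ
  obtain ⟨T0, hT0⟩ := Be_ev ε A (g 0).re hε
  refine ⟨T0, ?_⟩
  intro T hT k hk1 hk2 G hG hb hJ z hz
  obtain ⟨hT8, hgT, hAT, hlog⟩ := hT0 T hT
  have hTpos : 0 < T := by linarith
  have hkpos : 0 < k := lt_of_lt_of_le (Real.rpow_pos_of_pos hTpos _) hk1
  obtain ⟨r, hr, hr1, hrk, hrT, hkr, hr2⟩ := Be_rad hε hε1 (by linarith) hk1 hk2
  have hgre : (g 0).re ≠ 0 := by
    intro h
    exact hg0 (Complex.ext h hgim)
  -- the shift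
  obtain ⟨n, hn⟩ : ∃ n : ℤ, n = round ((z 0).re / (g 0).re) := ⟨_, rfl⟩
  have hround : |(z 0).re / (g 0).re - n| ≤ 1 / 2 := by
    rw [hn]
    exact abs_sub_round _
  obtain ⟨w, hw⟩ : ∃ w : Vc 0, w = z + (-n) • g := ⟨_, rfl⟩
  have hNw : NN G w = NN G z := by
    rw [hw]
    exact NN_inv hG (AddSubgroup.zsmul_mem _ hg _) z
  have hw0 : w 0 = (((z 0).re - n * (g 0).re : ℝ) : ℂ) := by
    rw [hw]
    simp only [Pi.add_apply, Pi.smul_apply]
    apply Complex.ext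
    · simp [hgim]
      ring
    · simp [hz, hgim]
  have hwabs : ‖w 0‖ ≤ r / 8 := by
    rw [hw0, Complex.norm_real, Real.norm_eq_abs]
    have e : (z 0).re - n * (g 0).re = ((z 0).re / (g 0).re - n) * (g 0).re := by
      field_simp
    rw [e, abs_mul]
    have h1 : |(z 0).re / (g 0).re - n| * |(g 0).re| ≤ 1 / 2 * |(g 0).re| :=
      mul_le_mul_of_nonneg_right hround (abs_nonneg _)
    have h2 : 0 ≤ |(g 0).re| := abs_nonneg _
    have h3 : 8 * |(g 0).re| ≤ r := hgT.trans hr1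
    linarith only [h1, h2, h3]
  -- the function
  obtain ⟨f, hf⟩ : ∃ f : ℂ → ℂ, f = fun s => G (fun _ => s) := ⟨_, rfl⟩
  have hfd : Differentiable ℂ f := by
    rw [hf]
    refine hG.1.comp ?_
    rw [differentiable_pi]
    intro _
    exact differentiable_id
  have hfE : ∀ s : ℂ, ‖s‖ ≤ r → ‖f s‖ ≤ Real.exp T := by
    intro s hs
    have him : |s.im| ≤ r := (Complex.abs_im_le_norm s).trans hs
    have h1 := hb (fun _ => s) (him.trans hrk)
    have hnsq : nsq (fun _ : Fin 1 => s) = ‖s‖ ^ 2 := by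
      simp [nsq]
    have h2 : ‖f s‖ = NN G (fun _ => s) * Real.exp (Real.pi * nsq (fun _ : Fin 1 => s)) := by
      rw [hf, NN, mul_assoc, ← Real.exp_add]
      simp
    rw [h2, hnsq]
    have h3 : NN G (fun _ => s) ≤ Real.exp (A * k * r) := by
      refine h1.trans (Real.exp_le_exp.mpr ?_)
      exact mul_le_mul_of_nonneg_left him (mul_nonneg hA hkpos.le)
    have h4 : Real.pi * ‖s‖ ^ 2 ≤ Real.pi * r ^ 2 :=
      mul_le_mul_of_nonneg_left (pow_le_pow_left₀ (norm_nonneg _) hs 2) Real.pi_pos.le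
    have h5 : A * k * r + Real.pi * r ^ 2 ≤ T := by
      have h6 : A * k * r = A * T ^ (1 - ε / 4) := by
        rw [mul_assoc, hkr]
      have h7 : Real.pi * r ^ 2 ≤ Real.pi * T ^ (1 - ε / 4) := mul_le_mul_of_nonneg_left hr2 Real.pi_pos.le
      have h8 : (A + Real.pi) * T ^ (1 - ε / 4) ≤ T ^ (ε / 4) * T ^ (1 - ε / 4) :=
        mul_le_mul_of_nonneg_right hAT (Real.rpow_nonneg hTpos.le _)
      have h9 : T ^ (ε / 4) * T ^ (1 - ε / 4) = T := by
        rw [← Real.rpow_add hTpos]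
        have : ε / 4 + (1 - ε / 4) = 1 := by ring
        rw [this, Real.rpow_one]
      rw [h6]
      linarith only [h7, h8, h9, mul_add (T ^ (1 - ε / 4)) A Real.pi]
    calc NN G (fun _ => s) * Real.exp (Real.pi * ‖s‖ ^ 2) ≤ Real.exp (A * k * r) * Real.exp (Real.pi * r ^ 2) :=
          mul_le_mul h3 (Real.exp_le_exp.mpr h4) (Real.exp_pos _).le (Real.exp_pos _).le
      _ = Real.exp (A * k * r + Real.pi * r ^ 2) := (Real.exp_add _ _).symm
      _ ≤ Real.exp T := Real.exp_le_exp.mpr h5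
  have hfη : ∀ d < ⌈T⌉₊, ‖(2 * Real.pi)⁻¹ * ∫ t in (0 : ℝ)..(2 * Real.pi), f (r * cexp (I * t)) * cexp (-(I * d * t))‖ ≤ Real.exp (-T) := by
    intro d hd
    have hdT : (d : ℝ) < T := Nat.lt_ceil.mp hd
    have e : (2 * Real.pi)⁻¹ * ∫ t in (0 : ℝ)..(2 * Real.pi), f (r * cexp (I * t)) * cexp (-(I * d * t)) = cf G (fun _ => (r : ℂ)) d := by
      rw [cf, hf]
      congr 1
      apply intervalIntegral.integral_congr
      intro t _
      show G _ * _ = G _ * _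
      congr 2
      funext i
      simp only [Pi.smul_apply, smul_eq_mul]
      ring
    rw [e, Be_cf hG.1, norm_mul, norm_pow, Complex.norm_real, Real.norm_eq_abs, abs_of_pos hr]
    have h1 : ‖cf G (fun _ => 1) d‖ ≤ Real.exp (-(T ^ ε * k ^ 2 / 2)) := hJ (fun _ => 1) (fun _ => by simp) d hdT
    exact (mul_le_mul_of_nonneg_left h1 (pow_nonneg hr.le _)).trans (Be_eta hT8 hk1 hr hrT hlog hdT)
  have hmain := schwarz1 hfd hr (Real.exp_pos T).le (Real.exp_pos (-T)).le ⌈T⌉₊ hfE hfη (w 0) hwabs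
  have hpow : Real.exp T * (1 / 8 : ℝ) ^ ⌈T⌉₊ ≤ Real.exp (-T) := by
    have h1 : (1 / 8 : ℝ) ≤ Real.exp (-2) := by
      rw [Real.exp_neg, one_div]
      apply inv_anti₀ (Real.exp_pos _)
      have h := Real.exp_one_lt_d9
      have h2 : Real.exp 2 = Real.exp 1 * Real.exp 1 := by
        rw [← Real.exp_add]
        norm_num
      rw [h2]
      have h3 := Real.exp_pos 1
      nlinarith only [h, h3]
    have h2 : (1 / 8 : ℝ) ^ ⌈T⌉₊ ≤ Real.exp (-2) ^ ⌈T⌉₊ := pow_le_pow_left₀ (by norm_num) h1 _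
    have h3 : Real.exp (-2) ^ ⌈T⌉₊ = Real.exp (-2 * ⌈T⌉₊) := by
      rw [← Real.exp_nat_mul]
      congr 1
      ring
    have h4 : Real.exp (-2 * ⌈T⌉₊) ≤ Real.exp (-2 * T) := by
      apply Real.exp_le_exp.mpr
      have := Nat.le_ceil T
      linarith only [this]
    calc Real.exp T * (1 / 8 : ℝ) ^ ⌈T⌉₊ ≤ Real.exp T * Real.exp (-2 * T) :=
          mul_le_mul_of_nonneg_left (h2.trans (h3.le.trans h4)) (Real.exp_pos _).le
      _ = Real.exp (-T) := by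
          rw [← Real.exp_add]
          congr 1
          ring
  have hsmall : Real.exp (-T) < 1 / 8 := by
    rw [Real.exp_neg, one_div]
    apply inv_strictAnti₀ (by norm_num)
    have := Real.add_one_le_exp T
    linarith only [this, hT8]
  have hwG : ‖f (w 0)‖ < 1 / 2 := by
    have h1 : 2 * Real.exp T * (1 / 8) ^ ⌈T⌉₊ ≤ 2 * Real.exp (-T) := by
      rw [mul_assoc]
      exact mul_le_mul_of_nonneg_left hpow (by norm_num)
    linarith only [hmain, h1, hsmall]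
  rw [← hNw, NN]
  have hw' : (fun _ => w 0 : Vc 0) = w := by
    funext i
    have : i = 0 := Fin.fin_one_eq_zero i
    rw [this]
  have hfw : f (w 0) = G w := by
    rw [hf]
    show G _ = G _
    rw [hw']
  rw [hfw] at hwG
  have h1 : Real.exp (-(Real.pi * nsq w)) ≤ 1 := by
    rw [Real.exp_le_one_iff]
    have : 0 ≤ nsq w := Finset.sum_nonneg fun i _ => by positivity
    have := mul_nonneg Real.pi_pos.le this
    linarith
  calc ‖G w‖ * Real.exp (-(Real.pi * nsq w)) ≤ ‖G w‖ * 1 := mul_le_mul_of_nonneg_left h1 (norm_nonneg _)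
    _ < 1 / 2 := by rwa [mul_one]



theorem Bf1_nsq {c : ℕ} (s : ℂ) (z : Vc c) : nsq (Fin.cons s z : Vc (c + 1)) = ‖s‖ ^ 2 + nsq z := by
  simp [nsq, Fin.sum_univ_succ]

theorem Bf1_diff {c : ℕ} {G : Vc (c + 1) → ℂ} (hG : Differentiable ℂ G) (z : Vc c) :
    Differentiable ℂ (fun s : ℂ => G (Fin.cons s z)) := by
  refine hG.comp ?_
  rw [differentiable_pi]
  intro i
  refine Fin.cases ?_ (fun j => ?_) i
  · simp only [Fin.cons_zero]
    exact differentiable_id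
  · simp only [Fin.cons_succ]
    exact differentiable_const _

theorem Bf1_an {c : ℕ} {G : Vc (c + 1) → ℂ} (hG : Differentiable ℂ G) {r E η : ℝ} (hr : 0 < r) (hE0 : 0 ≤ E) (hη0 : 0 ≤ η) (n : ℕ) (z : Vc c)
    (hE : ∀ z : Vc (c + 1), ‖z 0‖ ≤ r → NN G z ≤ E) (hη : ∀ d < n, NN (Gj r G d) z ≤ η) (s : ℂ) (hs : ‖s‖ ≤ r / 8) :
    NN G (Fin.cons s z) ≤ 2 * η + 2 * (E * Real.exp (Real.pi * r ^ 2)) * (1 / 8) ^ n := by
  have hpi := Real.pi_pos
  set w : ℝ := Real.exp (-(Real.pi * nsq z)) with hw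
  have hw0 : 0 < w := Real.exp_pos _
  have hf : Differentiable ℂ (fun s : ℂ => (w : ℂ) * G (Fin.cons s z)) := (Bf1_diff hG z).const_mul _
  have hnorm : ∀ s : ℂ, ‖(w : ℂ) * G (Fin.cons s z)‖ = NN G (Fin.cons s z) * Real.exp (Real.pi * ‖s‖ ^ 2) := by
    intro s
    rw [norm_mul, Complex.norm_real, Real.norm_eq_abs, abs_of_pos hw0, NN, Bf1_nsq, hw]
    rw [mul_assoc, ← Real.exp_add, mul_comm]
    congr 2
    ring
  have h1 := schwarz1 hf hr (E := E * Real.exp (Real.pi * r ^ 2)) (η := η) (by positivity) hη0 n ?_ ?_ s hs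
  · refine le_trans ?_ h1
    rw [hnorm]
    have : (1 : ℝ) ≤ Real.exp (Real.pi * ‖s‖ ^ 2) := Real.one_le_exp (by positivity)
    nlinarith [NN_nonneg G (Fin.cons s z)]
  · intro s hs'
    rw [hnorm]
    refine mul_le_mul (hE _ (by simpa using hs')) ?_ (Real.exp_pos _).le hE0
    refine Real.exp_le_exp.2 ?_
    have := norm_nonneg s
    gcongr
  · intro d hd
    refine le_trans (le_of_eq ?_) (hη d hd)
    have : (((2 * Real.pi)⁻¹ : ℝ) : ℂ) * ∫ t in (0 : ℝ)..(2 * Real.pi), (w : ℂ) * G (Fin.cons (r * cexp (I * t)) z) * cexp (-(I * d * t)) =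
        (w : ℂ) * Gj r G d z := by
      rw [Gj]
      simp only [mul_assoc]
      rw [intervalIntegral.integral_const_mul]
      rw [← mul_assoc, ← mul_assoc, mul_comm _ (w : ℂ)]
    rw [this, norm_mul, Complex.norm_real, Real.norm_eq_abs, abs_of_pos hw0, NN, mul_comm]

theorem Bf1_small {T C' E1 ε : ℝ} (hT : 6 ≤ T) (h9 : 2 * C' ≤ T ^ (ε / 4)) (hE1 : E1 ≤ Real.exp (C' * T ^ (1 - ε / 4))) (n : ℕ)
    (hn : T / 2 ≤ n) : 2 * Real.exp (-T) + 2 * E1 * (1 / 8) ^ n < 1 / 2 := by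
  have hT0 : 0 < T := by linarith
  have e1 : C' * T ^ (1 - ε / 4) ≤ T / 2 := by
    have : T ^ (1 - ε / 4) * T ^ (ε / 4) = T := by
      rw [← Real.rpow_add hT0]; simp
    have h0 : 0 < T ^ (1 - ε / 4) := Real.rpow_pos_of_pos hT0 _
    nlinarith
  have e2 : E1 ≤ Real.exp (T / 2) := hE1.trans (Real.exp_le_exp.2 e1)
  have e3 : ((1 : ℝ) / 8) ^ n ≤ Real.exp (-T) := by
    have h8 : (1 : ℝ) / 8 = Real.exp (-Real.log 8) := by
      rw [Real.exp_neg, Real.exp_log (by norm_num)]; norm_num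
    have hl : (2 : ℝ) ≤ Real.log 8 := by
      have : Real.log 8 = 3 * Real.log 2 := by
        rw [show (8 : ℝ) = 2 ^ 3 by norm_num, Real.log_pow]; norm_num
      rw [this]
      have := Real.log_two_gt_d9
      linarith
    rw [h8, ← Real.exp_nat_mul]
    refine Real.exp_le_exp.2 ?_
    have hn0 : (0 : ℝ) ≤ n := Nat.cast_nonneg n
    nlinarith
  have e4 : E1 * (1 / 8) ^ n ≤ Real.exp (-(T / 2)) := by
    calc E1 * (1 / 8) ^ n ≤ Real.exp (T / 2) * Real.exp (-T) := mul_le_mul e2 e3 (by positivity) (Real.exp_pos _).le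
      _ = Real.exp (-(T / 2)) := by rw [← Real.exp_add]; congr 1; ring
  have e5 : Real.exp (-T) ≤ Real.exp (-(T / 2)) := Real.exp_le_exp.2 (by linarith)
  have e6 : Real.exp (-(T / 2)) ≤ Real.exp (-3) := Real.exp_le_exp.2 (by linarith)
  have e7 : Real.exp (-3) < 1 / 8 := by
    have h1 : (8 : ℝ) < Real.exp 3 := by
      have : Real.exp 3 = Real.exp 1 ^ 3 := by rw [← Real.exp_nat_mul]; norm_num
      rw [this]
      have := Real.exp_one_gt_d9
      have h27 : (2 : ℝ) < Real.exp 1 := by linarith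
      nlinarith [mul_pos (sub_pos.2 h27) (sub_pos.2 h27)]
    rw [Real.exp_neg, ← one_div]
    exact one_div_lt_one_div_of_lt (by norm_num) h1
  nlinarith

theorem Bf1_k1 {T k k1 C2 ε : ℝ} (hT : 6 ≤ T) (hε : 0 < ε) (hk : T ^ (1 / 2 + ε) ≤ k)
    (h5 : 4 * C2 ^ 2 ≤ T) (h6 : 4 ≤ T ^ ε) (hk1 : k1 = max (C2 * k / T ^ (1 - ε / 4)) (T ^ (1 / 2 + ε / 8))) :
    (T / 2) ^ (ε / 8) * k1 ^ 2 ≤ T ^ ε * k ^ 2 / 4 := by
  have hT0 : 0 < T := by linarith
  have hT1 : 1 ≤ T := by linarith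
  have e1 : (T / 2) ^ (ε / 8) ≤ T ^ (ε / 8) := Real.rpow_le_rpow (by positivity) (by linarith) (by positivity)
  have hmono : ∀ a b : ℝ, a ≤ b → T ^ a ≤ T ^ b := fun a b h => Real.rpow_le_rpow_of_exponent_le hT1 h
  have hpos : ∀ a : ℝ, 0 < T ^ a := fun a => Real.rpow_pos_of_pos hT0 a
  refine (mul_le_mul_of_nonneg_right e1 (sq_nonneg _)).trans ?_
  rcases le_total (C2 * k / T ^ (1 - ε / 4)) (T ^ (1 / 2 + ε / 8)) with h | h
  · rw [hk1, max_eq_right h]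
    have a1 : T ^ (ε / 8) * (T ^ (1 / 2 + ε / 8)) ^ 2 * 4 ≤ T ^ ε * (T ^ (1 / 2 + ε)) ^ 2 := by
      have b1 : T ^ (ε / 8) * (T ^ (1 / 2 + ε / 8)) ^ 2 = T ^ (1 + 3 * ε / 8) := by
        rw [sq, ← Real.rpow_add hT0, ← Real.rpow_add hT0]; congr 1; ring
      have b2 : T ^ ε * (T ^ (1 / 2 + ε)) ^ 2 = T ^ ε * T ^ (1 + 2 * ε) := by
        rw [sq, ← Real.rpow_add hT0]; congr 2; ring
      rw [b1, b2, mul_comm]
      exact mul_le_mul h6 (hmono _ _ (by linarith)) (hpos _).le (hpos _).le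
    have a2 : (T ^ (1 / 2 + ε)) ^ 2 ≤ k ^ 2 := by
      have := hpos (1 / 2 + ε)
      gcongr
    have := mul_le_mul_of_nonneg_left a2 (hpos ε).le
    linarith
  · rw [hk1, max_eq_left h]
    rw [div_pow, mul_pow]
    have hp := hpos (1 - ε / 4)
    rw [mul_div_assoc', div_le_iff₀ (by positivity)]
    have b1 : T ^ ε * (T ^ (1 - ε / 4)) ^ 2 = T ^ (ε / 8) * T ^ (2 + 3 * ε / 8) := by
      rw [sq, ← Real.rpow_add hT0, ← Real.rpow_add hT0, ← Real.rpow_add hT0]; congr 1; ring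
    have b2 : 4 * C2 ^ 2 ≤ T ^ (2 + 3 * ε / 8) := by
      refine h5.trans ?_
      calc T = T ^ (1 : ℝ) := (Real.rpow_one T).symm
        _ ≤ _ := hmono _ _ (by linarith)
    have b3 : T ^ (ε / 8) * (4 * C2 ^ 2) ≤ T ^ ε * (T ^ (1 - ε / 4)) ^ 2 := by
      rw [b1]
      exact mul_le_mul_of_nonneg_left b2 (hpos _).le
    have b4 := mul_le_mul_of_nonneg_right b3 (sq_nonneg k)
    nlinarith

/-- row Bf1: the function is small on a region `|z_0| ≤ r`, `|Im z_1| ≤ k1` with `r k1 ≥ C0`, `k1 ≥ C0 r` -/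
theorem step_small (c : ℕ) (Γ : AddSubgroup (Vc (c + 1))) (Γ₁ : AddSubgroup (Vc c)) (h1 : ∀ γ ∈ Γ₁, (Fin.cons 0 γ : Vc (c + 1)) ∈ Γ)
    (IH : ∀ ε A : ℝ, 0 < ε → ε ≤ 1 / 20 → 0 ≤ A → ∃ C T0 : ℝ, 1 ≤ C ∧ ∀ T : ℝ, T0 ≤ T → ∀ k : ℝ,
      T ^ (1 / 2 + ε) ≤ k → k ≤ T ^ ((c : ℝ) + 1 - ε) → ∀ G : Vc c → ℂ, Aut Γ₁ G →
        (∀ z, |(z 0).im| ≤ k → NN G z ≤ Real.exp (A * (1 + (z 0).im ^ 2))) → JJ G T (Real.exp (-(T ^ ε * k ^ 2))) →
          ∀ z, |(z 0).im| ≤ k / C → NN G z ≤ Real.exp (-(k ^ 2 / C)))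
    (ε A C0 : ℝ) (hε : 0 < ε) (hε1 : ε ≤ 1 / 20) (hA : 0 ≤ A) (hC0 : 0 < C0) :
    ∃ T0 : ℝ, ∀ T : ℝ, T0 ≤ T → ∀ k : ℝ, T ^ (1 / 2 + ε) ≤ k → k ≤ T ^ ((c : ℝ) + 2 - ε) → ∀ G : Vc (c + 1) → ℂ, Aut Γ G →
      (∀ z, |(z 0).im| ≤ k → NN G z ≤ Real.exp (A * k * |(z 0).im|)) → JJ G T (Real.exp (-(T ^ ε * k ^ 2 / 2))) →
        ∃ r k1 : ℝ, 0 < r ∧ 0 < k1 ∧ C0 ≤ r * k1 ∧ C0 * r ≤ k1 ∧ ∀ z : Vc (c + 1), ‖z 0‖ ≤ r → |(z 1).im| ≤ k1 → NN G z < 1 / 2 := by
  obtain ⟨C3, T1, hC3, hIH⟩ := IH (ε / 8) 0 (by positivity) (by linarith) le_rfl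
  have hC30 : 0 < C3 := by linarith
  set C2 : ℝ := 8 * C3 * C0 with hC2
  have hC20 : 0 < C2 := by positivity
  set C' : ℝ := A + Real.pi with hC'
  have hpi := Real.pi_pos
  have hC'0 : 0 < C' := by linarith
  have ev : ∀ (K a : ℝ), 0 < a → ∀ᶠ T : ℝ in Filter.atTop, K ≤ T ^ a := fun K a ha => (tendsto_rpow_atTop ha).eventually_ge_atTop K
  have evlog : ∀ᶠ T : ℝ in Filter.atTop, Real.log T ≤ 1 / 4 * T ^ (3 * ε) := by
    have h := (isLittleO_log_rpow_atTop (by positivity : 0 < 3 * ε)).bound (by norm_num : (0 : ℝ) < 1 / 4)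
    filter_upwards [h, Filter.eventually_gt_atTop 0] with T hT hT0
    have := le_trans (le_abs_self _) hT
    rwa [Real.norm_eq_abs, abs_of_pos (Real.rpow_pos_of_pos hT0 _)] at this
  obtain ⟨T0, hT0⟩ := Filter.eventually_atTop.1 ((((((((((Filter.eventually_ge_atTop (6 : ℝ)).and (Filter.eventually_ge_atTop (2 * T1))).and
    (ev (C2 * 2 ^ ((c : ℝ) + 1)) (5 * ε / 8) (by positivity))).and (ev 2 (1 / 2 - ε / 4) (by linarith))).and evlog).and
    (Filter.eventually_ge_atTop (4 * C2 ^ 2))).and (ev 4 ε hε)).and (ev (C0 * C3 / 8) ε hε)).and (ev ((C' + 1) * C3) (ε / 4) (by positivity))).and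
    (ev (2 * C') (ε / 4) (by positivity)))
  refine ⟨T0, fun T hT k hk hkk G hG hGb hJ => ?_⟩
  obtain ⟨⟨⟨⟨⟨⟨⟨⟨⟨h6T, hT1⟩, h2⟩, h3⟩, h4⟩, h5⟩, h6⟩, h7⟩, h8⟩, h9⟩ := hT0 T hT
  have hTp : 0 < T := by linarith
  have hT1' : 1 ≤ T := by linarith
  have hmono : ∀ a b : ℝ, a ≤ b → T ^ a ≤ T ^ b := fun a b h => Real.rpow_le_rpow_of_exponent_le hT1' h
  have hpos : ∀ a : ℝ, 0 < T ^ a := fun a => Real.rpow_pos_of_pos hTp a
  have hadd : ∀ a b : ℝ, T ^ a * T ^ b = T ^ (a + b) := fun a b => (Real.rpow_add hTp a b).symm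
  have hk0 : 0 < k := lt_of_lt_of_le (hpos _) hk
  set r : ℝ := T ^ (1 - ε / 4) / k with hr
  have hr0 : 0 < r := div_pos (hpos _) hk0
  have hrk : k * r = T ^ (1 - ε / 4) := by rw [hr]; field_simp
  have hr1 : r ≤ T ^ (1 / 2 - 5 * ε / 4) := by
    rw [hr, div_le_iff₀ hk0]
    calc T ^ (1 - ε / 4) = T ^ (1 / 2 - 5 * ε / 4) * T ^ (1 / 2 + ε) := by rw [hadd]; congr 1; ring
      _ ≤ _ := mul_le_mul_of_nonneg_left hk (hpos _).le
  have hrlek : r ≤ k := hr1.trans ((hmono _ _ (by linarith)).trans hk)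
  have hr2 : r ^ 2 ≤ T ^ (1 - ε / 4) := by
    calc r ^ 2 ≤ (T ^ (1 / 2 - 5 * ε / 4)) ^ 2 := by gcongr
      _ = T ^ (1 - 5 * ε / 2) := by rw [sq, hadd]; congr 1; ring
      _ ≤ _ := hmono _ _ (by linarith)
  set E : ℝ := Real.exp (A * T ^ (1 - ε / 4)) with hE
  have hE0 : 0 < E := Real.exp_pos _
  set E1 : ℝ := E * Real.exp (Real.pi * r ^ 2) with hE1
  have hE10 : 0 < E1 := by positivity
  have hE11 : 1 ≤ E1 := by
    rw [hE1, hE, ← Real.exp_add]
    refine Real.one_le_exp ?_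
    have := (hpos (1 - ε / 4)).le
    positivity
  have hE1' : E1 ≤ Real.exp (C' * T ^ (1 - ε / 4)) := by
    rw [hE1, hE, ← Real.exp_add, hC']
    refine Real.exp_le_exp.2 ?_
    nlinarith
  have hGE : ∀ z : Vc (c + 1), ‖z 0‖ ≤ r → NN G z ≤ E := by
    intro z hz
    have him : |(z 0).im| ≤ r := (Complex.abs_im_le_norm _).trans hz
    refine (hGb z (him.trans hrlek)).trans (Real.exp_le_exp.2 ?_)
    rw [← hrk, ← mul_assoc]
    exact mul_le_mul_of_nonneg_left him (by positivity)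
  set k1 : ℝ := max (C2 * k / T ^ (1 - ε / 4)) (T ^ (1 / 2 + ε / 8)) with hk1
  have hk10 : 0 < k1 := lt_of_lt_of_le (hpos _) (le_max_right _ _)
  have hk1a : C2 ≤ r * k1 := by
    have : C2 * k / T ^ (1 - ε / 4) ≤ k1 := le_max_left _ _
    have h := mul_le_mul_of_nonneg_left this hr0.le
    refine le_trans (le_of_eq ?_) h
    rw [hr]
    have := (hpos (1 - ε / 4)).ne'
    field_simp
  -- the induction hypothesis for the coefficients
  have hlow : (T / 2) ^ (1 / 2 + ε / 8) ≤ k1 :=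
    (Real.rpow_le_rpow (by positivity) (by linarith) (by positivity)).trans (le_max_right _ _)
  have hhalf : ∀ a : ℝ, (T / 2) ^ a = T ^ a / 2 ^ a := fun a => Real.div_rpow hTp.le (by norm_num) a
  have hup : k1 ≤ (T / 2) ^ ((c : ℝ) + 1 - ε / 8) := by
    have hc0 : (0 : ℝ) ≤ c := Nat.cast_nonneg c
    have h22 : (0 : ℝ) < 2 ^ ((c : ℝ) + 1 - ε / 8) := Real.rpow_pos_of_pos (by norm_num) _
    refine max_le ?_ ?_
    · rw [hhalf, le_div_iff₀ h22, div_mul_eq_mul_div, div_le_iff₀ (hpos _), hadd]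
      have e1 : (2 : ℝ) ^ ((c : ℝ) + 1 - ε / 8) ≤ 2 ^ ((c : ℝ) + 1) := Real.rpow_le_rpow_of_exponent_le (by norm_num) (by linarith)
      calc C2 * k * 2 ^ ((c : ℝ) + 1 - ε / 8) ≤ C2 * T ^ ((c : ℝ) + 2 - ε) * 2 ^ ((c : ℝ) + 1) := by gcongr
        _ = C2 * 2 ^ ((c : ℝ) + 1) * T ^ ((c : ℝ) + 2 - ε) := by ring
        _ ≤ T ^ (5 * ε / 8) * T ^ ((c : ℝ) + 2 - ε) := mul_le_mul_of_nonneg_right h2 (hpos _).le
        _ = _ := by rw [hadd]; congr 1; ring
    · have e1 : (T / 2) ^ (1 - ε / 8) ≤ (T / 2) ^ ((c : ℝ) + 1 - ε / 8) := Real.rpow_le_rpow_of_exponent_le (by linarith) (by linarith)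
      refine le_trans ?_ e1
      rw [hhalf, le_div_iff₀ (Real.rpow_pos_of_pos (by norm_num) _)]
      have e2 : (2 : ℝ) ^ (1 - ε / 8) ≤ 2 ^ (1 : ℝ) := Real.rpow_le_rpow_of_exponent_le (by norm_num) (by linarith)
      rw [Real.rpow_one] at e2
      calc T ^ (1 / 2 + ε / 8) * 2 ^ (1 - ε / 8) ≤ T ^ (1 / 2 + ε / 8) * 2 := mul_le_mul_of_nonneg_left e2 (hpos _).le
        _ ≤ T ^ (1 / 2 + ε / 8) * T ^ (1 / 2 - ε / 4) := mul_le_mul_of_nonneg_left h3 (hpos _).le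
        _ = _ := by rw [hadd]; congr 1; ring
  have hjet : ∀ j : ℕ, (j : ℝ) < T / 2 → JJ (Gj r G j) (T / 2) (Real.exp (-(T ^ ε * k ^ 2 / 4))) := by
    intro j hj v hv d hd
    refine (Gj_jet hG.1 hr0 hJ j hv (by linarith)).trans ?_
    have hm : max 1 r ≤ T := by
      refine max_le hT1' (hr1.trans ?_)
      calc T ^ (1 / 2 - 5 * ε / 4) ≤ T ^ (1 : ℝ) := hmono _ _ (by linarith)
        _ = T := Real.rpow_one T
    have h11 : max 1 r ^ (d + j) ≤ Real.exp (T * Real.log T) := by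
      calc max 1 r ^ (d + j) ≤ T ^ (d + j) := pow_le_pow_left₀ (le_trans zero_le_one (le_max_left _ _)) hm _
        _ = Real.exp (((d + j : ℕ) : ℝ) * Real.log T) := by rw [Real.exp_nat_mul, Real.exp_log hTp]
        _ ≤ _ := by
          refine Real.exp_le_exp.2 (mul_le_mul_of_nonneg_right ?_ (Real.log_nonneg hT1'))
          push_cast
          linarith
    refine (mul_le_mul_of_nonneg_right h11 (Real.exp_pos _).le).trans ?_
    rw [← Real.exp_add]
    refine Real.exp_le_exp.2 ?_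
    have h12 : T * Real.log T ≤ T ^ ε * k ^ 2 / 4 := by
      calc T * Real.log T ≤ T * (1 / 4 * T ^ (3 * ε)) := mul_le_mul_of_nonneg_left h4 hTp.le
        _ = T ^ (1 : ℝ) * T ^ (3 * ε) / 4 := by rw [Real.rpow_one]; ring
        _ = T ^ ε * (T ^ (1 / 2 + ε)) ^ 2 / 4 := by
          rw [sq, hadd, hadd, hadd]; congr 2; ring
        _ ≤ _ := by
          have := hpos (1 / 2 + ε)
          have := hpos ε
          gcongr
    linarith
  have hcoef : ∀ j : ℕ, (j : ℝ) < T / 2 → ∀ z : Vc c, |(z 0).im| ≤ k1 / C3 → NN (Gj r G j) z ≤ Real.exp (-T) := by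
    intro j hj z hz
    have hGjE : ∀ z : Vc c, NN (Gj r G j) z ≤ E1 := fun z => Gj_NN hr0 (fun z hz => hGE z hz.le) j z
    have hn : ‖((E1⁻¹ : ℝ) : ℂ)‖ = E1⁻¹ := by rw [Complex.norm_real, Real.norm_eq_abs, abs_of_pos (by positivity)]
    have h := hIH (T / 2) (by linarith) k1 hlow hup (fun z => ((E1⁻¹ : ℝ) : ℂ) * Gj r G j z) ((Gj_aut h1 hG r j).smul _) ?_ ?_ z hz
    · rw [NN_smul, hn] at h
      have h' : NN (Gj r G j) z ≤ E1 * Real.exp (-(k1 ^ 2 / C3)) := by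
        rw [inv_mul_le_iff₀ hE10] at h
        exact h
      refine h'.trans ?_
      refine (mul_le_mul_of_nonneg_right hE1' (Real.exp_pos _).le).trans ?_
      rw [← Real.exp_add]
      refine Real.exp_le_exp.2 ?_
      have e1 : T * ((C' + 1) * C3) ≤ k1 ^ 2 := by
        calc T * ((C' + 1) * C3) ≤ T * T ^ (ε / 4) := mul_le_mul_of_nonneg_left h8 hTp.le
          _ = T ^ (1 : ℝ) * T ^ (ε / 4) := by rw [Real.rpow_one]
          _ = (T ^ (1 / 2 + ε / 8)) ^ 2 := by rw [sq, hadd, hadd]; congr 1; ring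
          _ ≤ _ := by
            have := hpos (1 / 2 + ε / 8)
            have := le_max_right (C2 * k / T ^ (1 - ε / 4)) (T ^ (1 / 2 + ε / 8))
            gcongr
      have e2 : T * (C' + 1) ≤ k1 ^ 2 / C3 := by
        rw [le_div_iff₀ hC30]; linarith
      have e3 : C' * T ^ (1 - ε / 4) ≤ C' * T := by
        refine mul_le_mul_of_nonneg_left ?_ hC'0.le
        calc T ^ (1 - ε / 4) ≤ T ^ (1 : ℝ) := hmono _ _ (by linarith)
          _ = T := Real.rpow_one T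
      linarith
    · intro z _
      rw [NN_smul, hn, zero_mul, Real.exp_zero, inv_mul_le_iff₀ hE10, mul_one]
      exact hGjE z
    · intro v hv d hd
      have := JJ_smul (hjet j hj) ((E1⁻¹ : ℝ) : ℂ) v hv d hd
      refine this.trans ?_
      rw [hn]
      have e1 : E1⁻¹ ≤ 1 := inv_le_one_of_one_le₀ hE11
      refine (mul_le_of_le_one_left (Real.exp_pos _).le e1).trans (Real.exp_le_exp.2 (neg_le_neg ?_))
      exact Bf1_k1 h6T hε hk h5 h6 hk1
  refine ⟨r / 8, k1 / C3, by positivity, by positivity, ?_, ?_, ?_⟩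
  · have : r / 8 * (k1 / C3) = r * k1 / (8 * C3) := by field_simp
    rw [this, le_div_iff₀ (by positivity)]
    linarith
  · rw [le_div_iff₀ hC30]
    have e1 : T ^ (1 / 2 + ε / 8) ≤ k1 := le_max_right _ _
    refine le_trans ?_ e1
    calc C0 * (r / 8) * C3 = C0 * C3 / 8 * r := by ring
      _ ≤ T ^ ε * T ^ (1 / 2 - 5 * ε / 4) := mul_le_mul h7 hr1 hr0.le (hpos _).le
      _ = T ^ (1 / 2 - ε / 4) := by rw [hadd]; congr 1; ring
      _ ≤ _ := hmono _ _ (by linarith)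
  · intro z hz0 hz1
    have hz : z = Fin.cons (z 0) (Fin.tail z) := (Fin.cons_self_tail z).symm
    set n : ℕ := ⌈T / 2⌉₊ with hn
    have hn1 : T / 2 ≤ n := Nat.le_ceil _
    have hn2 : ∀ d < n, (d : ℝ) < T / 2 := fun d hd => Nat.lt_ceil.1 hd
    have h := Bf1_an hG.1 hr0 hE0.le (Real.exp_pos _).le n (Fin.tail z) hGE (η := Real.exp (-T)) (fun d hd => hcoef d (hn2 d hd) _ hz1) (z 0) hz0
    rw [← hz] at h
    exact lt_of_le_of_lt h (Bf1_small h6T h9 hE1' n hn1)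



/-- row Bf2 -/
theorem step_case (c : ℕ) (Γ : AddSubgroup (Vc (c + 1))) (Γ₁ : AddSubgroup (Vc c)) (h1 : ∀ γ ∈ Γ₁, (Fin.cons 0 γ : Vc (c + 1)) ∈ Γ)
    {a b : Vc (c + 1)} (ha : a ∈ Γ) (hb : b ∈ Γ) (hab : COV a b)
    (IH : ∀ ε A : ℝ, 0 < ε → ε ≤ 1 / 20 → 0 ≤ A → ∃ C T0 : ℝ, 1 ≤ C ∧ ∀ T : ℝ, T0 ≤ T → ∀ k : ℝ,
      T ^ (1 / 2 + ε) ≤ k → k ≤ T ^ ((c : ℝ) + 1 - ε) → ∀ G : Vc c → ℂ, Aut Γ₁ G →
        (∀ z, |(z 0).im| ≤ k → NN G z ≤ Real.exp (A * (1 + (z 0).im ^ 2))) → JJ G T (Real.exp (-(T ^ ε * k ^ 2))) →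
          ∀ z, |(z 0).im| ≤ k / C → NN G z ≤ Real.exp (-(k ^ 2 / C)))
    (ε A : ℝ) (hε : 0 < ε) (hε1 : ε ≤ 1 / 20) (hA : 0 ≤ A) :
    ∃ T0 : ℝ, ∀ T : ℝ, T0 ≤ T → ∀ k : ℝ, T ^ (1 / 2 + ε) ≤ k → k ≤ T ^ ((c : ℝ) + 2 - ε) → ∀ G : Vc (c + 1) → ℂ, Aut Γ G →
      (∀ z, |(z 0).im| ≤ k → NN G z ≤ Real.exp (A * k * |(z 0).im|)) → JJ G T (Real.exp (-(T ^ ε * k ^ 2 / 2))) →
        ∀ z, (z 0).im = 0 → NN G z < 1 / 2 := by
  obtain ⟨ha0, hb0, C0, hC0, hcov⟩ := hab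
  obtain ⟨T0, hT0⟩ := step_small c Γ Γ₁ h1 IH ε A C0 hε hε1 hA hC0
  refine ⟨T0, fun T hT k hk1 hk2 G hG hb1 hJ z hz => ?_⟩
  obtain ⟨r, k1, hr, hk1', hrk, hCr, hsmall⟩ := hT0 T hT k hk1 hk2 G hG hb1 hJ
  obtain ⟨m, n, hmn1, hmn2⟩ := hcov r k1 hr hk1' hrk hCr (z 0).re (z 1).im
  have hγ : m • a + n • b ∈ Γ := Γ.add_mem (Γ.zsmul_mem ha m) (Γ.zsmul_mem hb n)
  have hinv := NN_inv hG hγ (z - (m • a + n • b))
  rw [sub_add_cancel] at hinv
  rw [hinv]
  refine hsmall _ ?_ ?_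
  · have him : ((z - (m • a + n • b)) 0).im = 0 := by
      simp [Pi.sub_apply, Pi.add_apply, hz, ha0, hb0]
    have hre : ((z - (m • a + n • b)) 0).re = (z 0).re - (m * (a 0).re + n * (b 0).re) := by
      simp [Pi.sub_apply, Pi.add_apply]
    have h2 : (z - (m • a + n • b)) 0 = ((((z - (m • a + n • b)) 0).re : ℝ) : ℂ) := by
      apply Complex.ext
      · simp only [Complex.ofReal_re]
      · rw [him, Complex.ofReal_im]
    rw [h2, Complex.norm_real, Real.norm_eq_abs, hre]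
    exact hmn1
  · have him : ((z - (m • a + n • b)) 1).im = (z 1).im - (m * (a 1).im + n * (b 1).im) := by
      simp [Pi.sub_apply, Pi.add_apply]
    rw [him]
    exact hmn2



/-- row Bg: from the contradiction to the statement (all `c`) -/
theorem wrap (c : ℕ) (Γ : AddSubgroup (Vc c))
    (H : ∀ ε A : ℝ, 0 < ε → ε ≤ 1 / 20 → 0 ≤ A → ∃ T0 : ℝ, ∀ T : ℝ, T0 ≤ T → ∀ k : ℝ, T ^ (1 / 2 + ε) ≤ k → k ≤ T ^ ((c : ℝ) + 1 - ε) →
      ∀ G : Vc c → ℂ, Aut Γ G → (∀ z, |(z 0).im| ≤ k → NN G z ≤ Real.exp (A * k * |(z 0).im|)) → JJ G T (Real.exp (-(T ^ ε * k ^ 2 / 2))) →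
        ∀ z, (z 0).im = 0 → NN G z < 1 / 2)
    (ε A : ℝ) (hε : 0 < ε) (hε1 : ε ≤ 1 / 20) (hA : 0 ≤ A) : ∃ C T0 : ℝ, 1 ≤ C ∧ ∀ T : ℝ, T0 ≤ T → ∀ k : ℝ,
      T ^ (1 / 2 + ε) ≤ k → k ≤ T ^ ((c : ℝ) + 1 - ε) → ∀ G : Vc c → ℂ, Aut Γ G →
        (∀ z, |(z 0).im| ≤ k → NN G z ≤ Real.exp (A * (1 + (z 0).im ^ 2))) → JJ G T (Real.exp (-(T ^ ε * k ^ 2))) →
          ∀ z, |(z 0).im| ≤ k / C → NN G z ≤ Real.exp (-(k ^ 2 / C)) := by
  have hpi : 0 < Real.pi := Real.pi_pos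
  obtain ⟨T1, hT1⟩ := H ε (1 + 2 * A + 2 * Real.pi) hε hε1 (by positivity)
  refine ⟨2 * (1 + 2 * A + 2 * Real.pi), max (max T1 1) (2 ^ (1 / ε)), by nlinarith, ?_⟩
  intro T hT k hk1 hk2 G hG hb hJ z hz
  have hTT1 : T1 ≤ T := (le_max_left _ _).trans ((le_max_left _ _).trans hT)
  have hT1' : 1 ≤ T := (le_max_right _ _).trans ((le_max_left _ _).trans hT)
  have hT2 : (2 : ℝ) ^ (1 / ε) ≤ T := (le_max_right _ _).trans hT
  have hTε : 2 ≤ T ^ ε := by
    have h1 : ((2 : ℝ) ^ (1 / ε)) ^ ε ≤ T ^ ε := Real.rpow_le_rpow (by positivity) hT2 hε.le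
    rw [← Real.rpow_mul (by norm_num), one_div, inv_mul_cancel₀ hε.ne', Real.rpow_one] at h1
    exact h1
  have hk : 1 ≤ k := (Real.one_le_rpow hT1' (by positivity)).trans hk1
  have hk0 : 0 < k := lt_of_lt_of_le one_pos hk
  by_cases h0 : ∀ z : Vc c, (z 0).im = 0 → NN G z ≤ Real.exp (-k ^ 2)
  · exact final_step hG.1 hA hk hb h0 z hz
  · exfalso
    push Not at h0
    obtain ⟨z1, hz1, hz1'⟩ := h0
    set S : Set ℝ := {x | ∃ z : Vc c, (z 0).im = 0 ∧ x = NN G z} with hS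
    have hSb : BddAbove S := by
      refine ⟨Real.exp (A * (1 + 0 ^ 2)), ?_⟩
      rintro x ⟨y, hy, rfl⟩
      have h2 := hb y (by rw [hy, abs_zero]; exact hk0.le)
      rw [hy] at h2
      exact h2
    have hSn : S.Nonempty := ⟨_, z1, hz1, rfl⟩
    set M : ℝ := sSup S with hMdef
    have hle : ∀ y : Vc c, (y 0).im = 0 → NN G y ≤ M := fun y hy => le_csSup hSb ⟨y, hy, rfl⟩
    have hM1 : Real.exp (-k ^ 2) < M := hz1'.trans_le (hle z1 hz1)
    have hM0 : 0 < M := (Real.exp_pos _).trans hM1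
    have hgr := growth hG.1 hA hk hb hle hM1.le
    have hnorm : ‖((M⁻¹ : ℝ) : ℂ)‖ = M⁻¹ := by
      rw [Complex.norm_real, Real.norm_eq_abs, abs_of_pos (inv_pos.2 hM0)]
    have hNN : ∀ y : Vc c, NN (fun z => ((M⁻¹ : ℝ) : ℂ) * G z) y = M⁻¹ * NN G y := by
      intro y
      rw [NN_smul, hnorm]
    have hkey := hT1 T hTT1 k hk1 hk2 (fun z => ((M⁻¹ : ℝ) : ℂ) * G z) (hG.smul _) ?_ ?_
    · have h3 : M ≤ M / 2 := by
        refine csSup_le hSn ?_
        rintro x ⟨y, hy, rfl⟩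
        have h4 := hkey y hy
        rw [hNN y] at h4
        have h5 : NN G y = M * (M⁻¹ * NN G y) := by
          rw [← mul_assoc, mul_inv_cancel₀ hM0.ne', one_mul]
        rw [h5]
        have h6 := mul_lt_mul_of_pos_left h4 hM0
        linarith
      linarith
    · intro y hy
      rw [hNN y]
      have h4 := hgr y hy
      calc M⁻¹ * NN G y ≤ M⁻¹ * (M * Real.exp ((1 + 2 * A + 2 * Real.pi) * k * |(y 0).im|)) :=
            mul_le_mul_of_nonneg_left h4 (inv_pos.2 hM0).le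
        _ = Real.exp ((1 + 2 * A + 2 * Real.pi) * k * |(y 0).im|) := by
            rw [← mul_assoc, inv_mul_cancel₀ hM0.ne', one_mul]
    · have h4 := JJ_smul hJ ((M⁻¹ : ℝ) : ℂ)
      rw [hnorm] at h4
      intro v hv d hd
      refine (h4 v hv d hd).trans ?_
      have h5 : M⁻¹ ≤ Real.exp (k ^ 2) := by
        have h6 : M⁻¹ ≤ (Real.exp (-k ^ 2))⁻¹ := inv_anti₀ (Real.exp_pos _) hM1.le
        rw [← Real.exp_neg] at h6
        refine h6.trans (le_of_eq ?_)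
        congr 1
        ring
      calc M⁻¹ * Real.exp (-(T ^ ε * k ^ 2)) ≤ Real.exp (k ^ 2) * Real.exp (-(T ^ ε * k ^ 2)) :=
            mul_le_mul_of_nonneg_right h5 (Real.exp_pos _).le
        _ = Real.exp (k ^ 2 + -(T ^ ε * k ^ 2)) := (Real.exp_add _ _).symm
        _ ≤ Real.exp (-(T ^ ε * k ^ 2 / 2)) := by
            apply Real.exp_le_exp.2
            nlinarith [sq_nonneg k]


/-- THEOREM B -/
theorem thmB : ThmB := by
  intro c
  induction c with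
  | zero =>
    intro Γ hΓ
    refine wrap 0 Γ ?_
    intro ε A hε hε1 hA
    obtain ⟨T0, h⟩ := base_case Γ hΓ ε A hε hε1 hA
    refine ⟨T0, fun T hT k h1 h2 => h T hT k h1 ?_⟩
    simpa using h2
  | succ c ih =>
    intro Γ hΓ
    obtain ⟨Γ₁, hΓ₁, h1, a, ha, b, hb, hab⟩ := hΓ
    refine wrap (c + 1) Γ ?_
    intro ε A hε hε1 hA
    obtain ⟨T0, h⟩ := step_case c Γ Γ₁ h1 ha hb hab (ih Γ₁ hΓ₁) ε A hε hε1 hA
    refine ⟨T0, fun T hT k h1 h2 => h T hT k h1 ?_⟩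
    refine h2.trans (le_of_eq ?_)
    congr 1
    push_cast
    ring

end Pool.Agent.LT
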