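import Mathlib
import Pool.Agent.Lib.MP_f58a57_nt.LT.Defs

/-!
# MP_f58a57_nt, large transcendence degree: part D, the interface between algebra (flag lemma) and analysis (towers)
-/

open Complex Matrix

noncomputable section

namespace Pool.Agent.LT

/-- a rational vector as a complex vector -/
def qv {n : ℕ} (q : Fin n → ℚ) : Fin n → ℂ := fun j => (q j : ℂ)

/-- an integral vector as a complex vector -/
def zv {n : ℕ} (q : Fin n → ℤ) : Fin n → ℂ := fun j => (q j : ℂ)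

/-- a real vector as a complex vector -/
def rv {n : ℕ} (b : Fin n → ℝ) : Fin n → ℂ := fun j => (b j : ℂ)

/-- the flag of functionals `x_0, ..., x_c` on `ℂ^N / ker P` (D.3); `Δ` is not a square -/
structure FlagD {c : ℕ} (Δ : ℕ) (P : Matrix (Fin (2 * c + 1)) (Fin (2 * c + 1)) ℂ) (x : Fin (c + 1) → Fin (2 * c + 1) → ℂ) : Prop where
  /-- the functionals cut out the kernel of `P` -/
  ker : ∀ u, P *ᵥ u = 0 ↔ ∀ i, x i ⬝ᵥ u = 0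
  li : LinearIndependent ℂ x
  /-- `x_0` is real on real vectors -/
  real0 : ∀ b : Fin (2 * c + 1) → ℝ, (x 0 ⬝ᵥ rv b).im = 0
  /-- the two lattice vectors of each step -/
  step : ∀ (i : ℕ) (hi : i + 1 < c + 1), ∃ (a b : Fin (2 * c + 1) → ℤ) (q : ℕ), 0 < q ∧
    (∀ l : Fin (c + 1), (l : ℕ) < i → x l ⬝ᵥ zv a = 0 ∧ x l ⬝ᵥ zv b = 0) ∧
    x ⟨i, by omega⟩ ⬝ᵥ zv a = q ∧ x ⟨i, by omega⟩ ⬝ᵥ zv b = q * ((Real.sqrt Δ : ℝ) : ℂ) ∧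
    (x ⟨i + 1, hi⟩ ⬝ᵥ zv b - ((Real.sqrt Δ : ℝ) : ℂ) * (x ⟨i + 1, hi⟩ ⬝ᵥ zv a)).im ≠ 0
  /-- the last step -/
  last : ∃ a : Fin (2 * c + 1) → ℤ, (∀ l : Fin (c + 1), (l : ℕ) < c → x l ⬝ᵥ zv a = 0) ∧
    x (Fin.last c) ⬝ᵥ zv a ≠ 0 ∧ (x (Fin.last c) ⬝ᵥ zv a).im = 0

/-- FLAG LEMMA (D.3), for `P = Z - M`, `M` any rational matrix (so it applies to `M` and `Mᵀ`) -/
def ThmFlag : Prop :=
  ∀ (K : Subfield ℂ), QF K → ∀ (c : ℕ) (z : Fin (2 * c + 1) → ℂ), (∀ j, z j ∈ K) → (∀ j, 0 < (z j).im) → (∀ j, NQ (z j)) →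
    (∀ i j, z i ≠ z j → ¬ GEq (z i) (z j)) → ∀ M : Matrix (Fin (2 * c + 1)) (Fin (2 * c + 1)) ℚ,
      c ≤ Module.finrank ℂ (LinearMap.ker (Matrix.mulVecLin (Matrix.diagonal z - M.map (fun q : ℚ => (q : ℂ))))) →
        ∃ (Δ : ℕ) (x : Fin (c + 1) → Fin (2 * c + 1) → ℂ), ¬ IsSquare Δ ∧
          FlagD Δ (Matrix.diagonal z - M.map (fun q : ℚ => (q : ℂ))) x

end Pool.Agent.LT
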