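import Mathlib
import Pool.Agent.Lib.MP_f58a57_nt.LT.D0

/-!
# MP_f58a57_nt, large transcendence degree: D algebra 1, abstract relation lemmas

`K` is a field of characteristic `0` and `E` a `K`-vector space.
-/

open Module Submodule

noncomputable section

namespace Pool.Agent.LT.DA

section

variable {K : Type*} [Field K] [CharZero K]

/-- `z` satisfies no nontrivial quadratic equation over `ℚ` -/
def nq (z : K) : Prop := ∀ a b c : ℚ, (a : K) * z ^ 2 + b * z + c = 0 → a = 0 ∧ b = 0 ∧ c = 0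

/-- there are no nontrivial bilinear relations between `z` and `w` -/
def rl (z w : K) : Prop := ∀ a b a' b' : ℚ, z * (a + b * w) = a' + b' * w → a = 0 ∧ b = 0

variable {E : Type*} [AddCommGroup E] [Module K E] [Module ℚ E]

/-- the `ℚ`-span of the vectors `v i` and `ζ i • v i` -/
def TT {ι : Type*} (v : ι → E) (ζ : ι → K) : Submodule ℚ E := span ℚ (Set.range v) ⊔ span ℚ (Set.range fun i => ζ i • v i)

variable {ι : Type*} [Fintype ι]

/-- row D1a. Proof: `Submodule.mem_sup`, and `mem_span_range_iff_exists_fun` for both parts; `(p : K) • v = (p : ℚ) • v` (cast smul: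
`Rat.cast_smul_eq_qsmul` or `algebraMap_smul`; `IsScalarTower ℚ K E` is an instance, `IsScalarTower.rat`). -/
theorem mem_TT (v : ι → E) (ζ : ι → K) (x : E) : x ∈ TT v ζ ↔ ∃ p q : ι → ℚ, x = ∑ i, ((p i : K) + (q i : K) * ζ i) • v i := by
  have key : ∀ p q : ι → ℚ, ∑ i, ((p i : K) + (q i : K) * ζ i) • v i = ∑ i, p i • v i + ∑ i, q i • (ζ i • v i) := by
    intro p q
    rw [← Finset.sum_add_distrib]
    apply Finset.sum_congr rfl
    intro i _
    rw [add_smul, mul_smul, Rat.cast_smul_eq_qsmul, Rat.cast_smul_eq_qsmul]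
  unfold TT
  rw [Submodule.mem_sup]
  constructor
  · rintro ⟨y, hy, z, hz, rfl⟩
    rw [Submodule.mem_span_range_iff_exists_fun] at hy hz
    obtain ⟨p, rfl⟩ := hy
    obtain ⟨q, rfl⟩ := hz
    exact ⟨p, q, (key p q).symm⟩
  · rintro ⟨p, q, rfl⟩
    refine ⟨∑ i, p i • v i, ?_, ∑ i, q i • (ζ i • v i), ?_, (key p q).symm⟩
    · rw [Submodule.mem_span_range_iff_exists_fun]
      exact ⟨p, rfl⟩
    · rw [Submodule.mem_span_range_iff_exists_fun]
      exact ⟨q, rfl⟩

/-- row D1a. Proof: the family `Sum.elim v (fun i => ζ i • v i)` is linearly independent over `ℚ`: a relation is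
`∑ (p i + q i ζ i) • v i = 0`, so `p i + q i ζ i = 0` and `p i = q i = 0` by `nq`. Then `finrank_span_eq_card` with
`Set.Sum.elim_range`, `Submodule.span_union`. -/
theorem finrank_TT {v : ι → E} (hv : LinearIndependent K v) {ζ : ι → K} (hζ : ∀ i, nq (ζ i)) : finrank ℚ (TT v ζ) = 2 * Fintype.card ι := by
  have hli : LinearIndependent ℚ (Sum.elim v (fun i => ζ i • v i)) := by
    rw [Fintype.linearIndependent_iff]
    intro g hg
    rw [Fintype.sum_sum_type] at hg
    simp only [Sum.elim_inl, Sum.elim_inr] at hg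
    have h1 : ∑ i, ((g (Sum.inl i) : K) + (g (Sum.inr i) : K) * ζ i) • v i = 0 := by
      rw [← hg, ← Finset.sum_add_distrib]
      apply Finset.sum_congr rfl
      intro i _
      rw [add_smul, mul_smul, Rat.cast_smul_eq_qsmul, Rat.cast_smul_eq_qsmul]
    have h2 := Fintype.linearIndependent_iff.1 hv _ h1
    have h3 : ∀ i, g (Sum.inr i) = 0 ∧ g (Sum.inl i) = 0 := by
      intro i
      have := hζ i 0 (g (Sum.inr i)) (g (Sum.inl i)) (by
        have h4 := h2 i
        rw [Rat.cast_zero, zero_mul, zero_add, add_comm]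
        exact h4)
      exact ⟨this.2.1, this.2.2⟩
    rintro (i | i)
    · exact (h3 i).2
    · exact (h3 i).1
  have hT : TT v ζ = span ℚ (Set.range (Sum.elim v (fun i => ζ i • v i))) := by
    unfold TT
    rw [Set.Sum.elim_range, Submodule.span_union]
  rw [hT, finrank_span_eq_card hli, Fintype.card_sum]
  ring

private theorem D1b_coef {v : ι → E} (hv : LinearIndependent K v) {ζ : ι → K} {z : K} {x : E} (h1 : x ∈ TT v ζ)
    (h2 : z • x ∈ TT v ζ) : ∃ p q p' q' : ι → ℚ, x = ∑ i, ((p i : K) + (q i : K) * ζ i) • v i ∧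
      ∀ i, z * ((p i : K) + (q i : K) * ζ i) = (p' i : K) + (q' i : K) * ζ i := by
  obtain ⟨p, q, hx⟩ := (mem_TT v ζ x).1 h1
  obtain ⟨p', q', hzx⟩ := (mem_TT v ζ _).1 h2
  refine ⟨p, q, p', q', hx, fun i => ?_⟩
  have h3 : ∑ i, (z * ((p i : K) + (q i : K) * ζ i) - ((p' i : K) + (q' i : K) * ζ i)) • v i = 0 := by
    simp only [sub_smul, Finset.sum_sub_distrib]
    rw [← hzx, hx, Finset.smul_sum, sub_eq_zero]
    exact Finset.sum_congr rfl fun i _ => mul_smul _ _ _
  exact sub_eq_zero.1 (Fintype.linearIndependent_iff.1 hv _ h3 i)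

/-- row D1b. Proof: `x = ∑ (p i + q i ζ i) v i`, `z x = ∑ (p' i + q' i ζ i) v i` (mem_TT), so `z (p i + q i ζ i) = p' i + q' i ζ i` for
all `i` by linear independence (`LinearIndependent.eq_of_sum_eq_sum..` or `Fintype.linearIndependent_iff` for the difference), so
`p i = q i = 0` by `rl`. -/
theorem TT_zero {v : ι → E} (hv : LinearIndependent K v) {ζ : ι → K} {z : K} (hz : ∀ i, rl z (ζ i)) {x : E} (h1 : x ∈ TT v ζ)
    (h2 : z • x ∈ TT v ζ) : x = 0 := by
  obtain ⟨p, q, p', q', hx, h3⟩ := D1b_coef hv h1 h2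
  rw [hx]
  refine Finset.sum_eq_zero fun i _ => ?_
  obtain ⟨h4, h5⟩ := hz i _ _ _ _ (h3 i)
  rw [h4, h5]
  simp

/-- row D1b. Proof: as for TT_zero; if `z = ζ i` then `q i ζ i ^ 2 + (p i - q' i) ζ i - p' i = 0` gives `q i = 0` by `nq`. So `x = ∑ p i v i`. -/
theorem TT_span {v : ι → E} (hv : LinearIndependent K v) {ζ : ι → K} {z : K} (hz : ∀ i, z = ζ i ∧ nq z ∨ rl z (ζ i)) {x : E}
    (h1 : x ∈ TT v ζ) (h2 : z • x ∈ TT v ζ) : x ∈ span ℚ (Set.range v) := by
  obtain ⟨p, q, p', q', hx, h3⟩ := D1b_coef hv h1 h2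
  have hq : ∀ i, q i = 0 := by
    intro i
    rcases hz i with ⟨h4, h5⟩ | h4
    · have h6 := h3 i
      rw [← h4] at h6
      refine (h5 (q i) (p i - q' i) (-p' i) ?_).1
      push_cast
      linear_combination h6
    · exact (h4 _ _ _ _ (h3 i)).2
  rw [hx]
  refine sum_mem fun i _ => ?_
  rw [hq i, Rat.cast_zero, zero_mul, add_zero, Rat.cast_smul_eq_qsmul]
  exact smul_mem _ _ (subset_span ⟨i, rfl⟩)

/-- row D1c: from a spanning family one can choose a basis. Proof: `exists_linearIndependent'` (Mathlib, indexed version) and take for `J`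
the range of the injection; or `exists_linearIndepOn_extension` with `Set.univ`. -/
theorem exists_basis_sub {κ : Type*} [Finite κ] (w : κ → E) : ∃ J : Set κ, LinearIndependent K (fun j : J => w j) ∧
    span K (Set.range fun j : J => w j) = span K (Set.range w) := by
  obtain ⟨κ', a, ha, h1, h2⟩ := exists_linearIndependent' K w
  have e : (fun j : Set.range a => w j) ∘ (Equiv.ofInjective a ha) = w ∘ a := by
    funext x
    rfl
  refine ⟨Set.range a, ?_, ?_⟩
  · rw [← linearIndependent_equiv (Equiv.ofInjective a ha), e]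
    exact h2
  · rw [← h1, ← e]
    congr 1
    rw [Set.range_comp, (Equiv.ofInjective a ha).surjective.range_eq, Set.image_univ]

/-- row D1c: LEMMA G0. Proof: `J` from `exists_basis_sub`, `v := fun j : J => w j`: a basis, `Fintype.card J = finrank K E =: e`
(`finrank_eq_card_basis` / `linearIndependent_iff_card_eq_finrank_span`, span = ⊤). `T := TT v (fun j => ζ j) ≤ S := span ℚ (range w)` by `hS`,
`finrank ℚ T = 2 e`. Suppose `finrank ℚ S ≤ 2 e`; then `T = S` (`Submodule.eq_of_le_of_finrank_le`; `S` is finite-dimensional,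
being spanned by a finite set). For every `k` : `w k ∈ T`, `ζ k • w k ∈ T`, so `w k ∈ span ℚ (range v)` by `TT_span` (for `j ∈ J`: if
`ζ k = ζ j` left alternative with `hnq`, else `hrl`). So `S ≤ span ℚ (range v)`, `finrank ℚ S ≤ e` (`finrank_range_le_card`), but
`finrank ℚ S ≥ 2 e > e`. Contradiction. -/
theorem G0 [FiniteDimensional K E] {κ : Type*} [Fintype κ] (w : κ → E) (ζ : κ → K) (hS : ∀ k, ζ k • w k ∈ span ℚ (Set.range w))
    (hspan : span K (Set.range w) = ⊤) (hpos : 0 < finrank K E) (hnq : ∀ k, nq (ζ k)) (hrl : ∀ k l, ζ k = ζ l ∨ rl (ζ k) (ζ l)) :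
    2 * finrank K E + 1 ≤ finrank ℚ (span ℚ (Set.range w)) := by
  classical
  obtain ⟨J, hli, hsp⟩ := exists_basis_sub (K := K) w
  have : Fintype J := Fintype.ofFinite J
  obtain ⟨v, hv⟩ : ∃ v : J → E, v = fun j : J => w j := ⟨_, rfl⟩
  rw [← hv] at hli hsp
  have hcard : finrank K E = Fintype.card J := by
    rw [← finrank_span_eq_card hli, hsp, hspan, finrank_top]
  have hSfd : FiniteDimensional ℚ (span ℚ (Set.range w)) :=
    FiniteDimensional.span_of_finite ℚ (Set.finite_range w)
  have hT : TT v (fun j : J => ζ j) ≤ span ℚ (Set.range w) := by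
    refine sup_le (span_mono ?_) (span_le.mpr ?_)
    · rintro _ ⟨j, rfl⟩
      rw [hv]
      exact ⟨j, rfl⟩
    · rintro _ ⟨j, rfl⟩
      show ζ j • v j ∈ span ℚ (Set.range w)
      rw [hv]
      exact hS j
  have hTd := finrank_TT hli (ζ := fun j : J => ζ j) (fun j => hnq j)
  by_contra hcon
  have hle : finrank ℚ (span ℚ (Set.range w)) ≤ finrank ℚ (TT v (fun j : J => ζ j)) := by
    rw [hTd, ← hcard]
    omega
  have hTS : TT v (fun j : J => ζ j) = span ℚ (Set.range w) := Submodule.eq_of_le_of_finrank_le hT hle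
  have hw : span ℚ (Set.range w) ≤ span ℚ (Set.range v) := by
    refine span_le.mpr ?_
    rintro _ ⟨k, rfl⟩
    refine TT_span hli (ζ := fun j : J => ζ j) (z := ζ k) (fun j => ?_) ?_ ?_
    · rcases hrl k j with h | h
      · exact Or.inl ⟨h, hnq k⟩
      · exact Or.inr h
    · rw [hTS]
      exact subset_span ⟨k, rfl⟩
    · rw [hTS]
      exact hS k
  have hvfd : FiniteDimensional ℚ (span ℚ (Set.range v)) :=
    FiniteDimensional.span_of_finite ℚ (Set.finite_range v)
  have h1 := Submodule.finrank_mono hw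
  have h2 : finrank ℚ (span ℚ (Set.range v)) ≤ Fintype.card J := finrank_range_le_card v
  rw [← hTS, hTd] at h1
  omega

end

theorem li_of_steps {K V : Type*} [Field K] [AddCommGroup V] [Module K V] (x : ℕ → V) (i : ℕ)
    (h : ∀ l < i, x l ∉ span K (Set.range fun m : Fin l => x m)) : LinearIndependent K (fun l : Fin i => x l) := by
  induction i with
  | zero => exact linearIndependent_empty_type
  | succ i ih =>
    rw [linearIndependent_finSucc']
    exact ⟨ih fun l hl => h l (by omega), h i (by omega)⟩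

theorem li_KC (K : Subfield ℂ) {ι : Type*} {n : ℕ} {v : ι → Fin n → K} (h : LinearIndependent K v) :
    LinearIndependent ℂ (fun i j => (v i j : ℂ)) := by
  have i2 : FaithfulSMul K ℂ := inferInstance
  exact (@linearIndependent_algebraMap_comp_iff ι (Fin n) _ K ℂ _ _ _ i2 _ v).mpr h

end Pool.Agent.LT.DA
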