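import Mathlib
import Pool.Agent.Lib.MP_f58a57_nt.LT.D1

/-!
# MP_f58a57_nt, large transcendence degree: D algebra 2, annihilators and LEMMA G*
-/

open Module Submodule

noncomputable section

namespace Pool.Agent.LT.DA

/-- `x · q` for a rational vector `q` -/
def dq {L : Type*} [Field L] [CharZero L] {n : ℕ} (x : Fin n → L) (q : Fin n → ℚ) : L := ∑ j, x j * (q j : L)

/-- the vectors over `L` orthogonal to the rational subspace `Λ` -/
def ann (L : Type*) [Field L] [CharZero L] {n : ℕ} (Λ : Submodule ℚ (Fin n → ℚ)) : Submodule L (Fin n → L) where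
  carrier := {x | ∀ q ∈ Λ, dq x q = 0}
  add_mem' := by
    intro x y hx hy q hq
    have h1 := hx q hq
    have h2 := hy q hq
    simp only [dq, Pi.add_apply, add_mul, Finset.sum_add_distrib] at *
    rw [h1, h2, add_zero]
  zero_mem' := by
    intro q _
    simp [dq]
  smul_mem' := by
    intro a x hx q hq
    have h1 := hx q hq
    simp only [dq, Pi.smul_apply, smul_eq_mul, mul_assoc, ← Finset.mul_sum] at *
    rw [h1, mul_zero]

/-- row D2a. Proof: let `q : Fin λ → Fin n → ℚ` be a basis of `Λ` (`finBasis ℚ Λ`, coerced), `λ = finrank ℚ Λ`. `ann L Λ` is the kernel of the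
map `(Fin n → L) → (Fin λ → L)`, `x ↦ (dq x (q t))_t`, i.e. `mulVecLin A` with `A t j = (q t j : L)`. The rows of `A` are linearly
independent over `L` by `linearIndependent_algebraMap_comp_iff` (Mathlib), so `A.rank = λ` (`LinearIndependent.rank_matrix`), and rank-nullity
(`LinearMap.finrank_range_add_finrank_ker`, `Matrix.rank`). -/
theorem finrank_ann (L : Type*) [Field L] [CharZero L] {n : ℕ} (Λ : Submodule ℚ (Fin n → ℚ)) :
    finrank L (ann L Λ) + finrank ℚ Λ = n := by
  classical
  set r := finrank ℚ Λ with hr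
  let q : Basis (Fin r) ℚ Λ := finBasis ℚ Λ
  let A : Matrix (Fin r) (Fin n) L := fun t j => algebraMap ℚ L ((q t : Fin n → ℚ) j)
  have hli : LinearIndependent ℚ (fun t => (q t : Fin n → ℚ)) := by
    have h := q.linearIndependent.map' Λ.subtype (Submodule.ker_subtype Λ)
    exact h
  have hA : LinearIndependent L A.row := by
    have h := (linearIndependent_algebraMap_comp_iff (S := L) (v := fun t => (q t : Fin n → ℚ))).2 hli
    exact h
  have hrk : A.rank = r := by
    rw [hA.rank_matrix, Fintype.card_fin]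
  have hker : LinearMap.ker A.mulVecLin = ann L Λ := by
    ext x
    rw [LinearMap.mem_ker]
    constructor
    · intro h p hp
      -- write p in the basis
      have hsum : (∑ t, q.repr ⟨p, hp⟩ t • (q t : Fin n → ℚ)) = p := by
        have h1 := congrArg Λ.subtype (q.sum_repr ⟨p, hp⟩)
        rw [map_sum] at h1
        exact h1
      have h2 : ∀ t, ∑ j, x j * (((q t : Fin n → ℚ) j : ℚ) : L) = 0 := by
        intro t
        have h3 := congrFun h t
        rw [Matrix.mulVecLin_apply] at h3
        simp only [Matrix.mulVec, dotProduct, Pi.zero_apply] at h3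
        rw [← h3]
        exact Finset.sum_congr rfl fun j _ => by
          rw [mul_comm]
          rfl
      show dq x p = 0
      rw [← hsum]
      simp only [dq, Finset.sum_apply, Pi.smul_apply, smul_eq_mul, Rat.cast_sum, Rat.cast_mul, Finset.mul_sum]
      rw [Finset.sum_comm]
      refine Finset.sum_eq_zero fun t _ => ?_
      have h4 : ∑ j, x j * ((((q.repr ⟨p, hp⟩) t : ℚ) : L) * (((q t : Fin n → ℚ) j : ℚ) : L)) =
          (((q.repr ⟨p, hp⟩) t : ℚ) : L) * ∑ j, x j * (((q t : Fin n → ℚ) j : ℚ) : L) := by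
        rw [Finset.mul_sum]
        exact Finset.sum_congr rfl fun j _ => by ring
      rw [h4, h2 t, mul_zero]
    · intro h
      funext t
      have h1 := h (q t : Fin n → ℚ) (q t).2
      rw [Matrix.mulVecLin_apply]
      simp only [Matrix.mulVec, dotProduct, Pi.zero_apply]
      rw [← h1]
      exact Finset.sum_congr rfl fun j _ => by
        rw [mul_comm]
        rfl
  have h5 := LinearMap.finrank_range_add_finrank_ker A.mulVecLin
  rw [Module.finrank_fin_fun, hker] at h5
  have h6 : finrank L (LinearMap.range A.mulVecLin) = r := hrk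
  omega

/-- the rational vectors orthogonal to `x 0, ..., x (i-1)` -/
def Lam {L : Type*} [Field L] [CharZero L] {n : ℕ} (x : ℕ → Fin n → L) (i : ℕ) : Submodule ℚ (Fin n → ℚ) where
  carrier := {q | ∀ l < i, dq (x l) q = 0}
  add_mem' := by
    intro p q hp hq l hl
    have h1 := hp l hl
    have h2 := hq l hl
    simp only [dq, Pi.add_apply, Rat.cast_add, mul_add, Finset.sum_add_distrib] at *
    rw [h1, h2, add_zero]
  zero_mem' := by
    intro l _
    simp [dq]
  smul_mem' := by
    intro a q hq l hl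
    have h1 := hq l hl
    simp only [dq, Pi.smul_apply, smul_eq_mul, Rat.cast_mul] at *
    have h2 : ∑ j, x l j * ((a : L) * (q j : L)) = a * ∑ j, x l j * (q j : L) := by
      rw [Finset.mul_sum]
      exact Finset.sum_congr rfl fun j _ => by ring
    rw [h2, h1, mul_zero]

/-- row D2b: LEMMA G*, in the dual form. Proof: `A := ann K Λ`, `a := finrank K (R ⊓ A)`, `r := finrank K R`, `λ := finrank ℚ Λ ≥ 1`,
`E := (Fin n → K) ⧸ (R ⊔ A)`. `finrank K E = n - finrank (R ⊔ A)`, `finrank (R ⊔ A) + a = r + finrank A` (`finrank_sup_add_finrank_inf_eq`),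
`finrank A + λ = n` (finrank_ann), so `finrank K E + r = λ + a`.
Case `finrank K E = 0`: `r = λ + a`, so `λ + 2a + 1 ≤ 2 λ + 2 a = 2 r`.
Case `0 < finrank K E`: apply `G0` to `E`, `w j := mk (Pi.single j 1)`, `ζ`: `hspan`: the `Pi.single j 1` span, `mk` is surjective. `hS`:
`ζ j • w j = ∑ k, (M j k : K) • w k = ∑ k, M j k • w k` in `E` because the difference is `mk` of row `j` of `diagonal ζ - M`, which is in `R`.
So `2 finrank K E + 1 ≤ finrank ℚ S`, `S := span ℚ (range w)`. And `finrank ℚ S ≤ λ`: `S` is the range of `φ : (Fin n → ℚ) →ₗ[ℚ] E`,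
`φ q = ∑ j, q j • w j = mk (fun j => (q j : K))`, whose kernel contains `ann ℚ Λ` (if `q ∈ ann ℚ Λ` then the cast of `q` is in `A`), of
dimension `n - λ` (finrank_ann for `L = ℚ`). So `2 (λ + a - r) + 1 ≤ λ`, i.e. `λ + 2 a + 1 ≤ 2 r`. -/
theorem Gs {K : Type*} [Field K] [CharZero K] {n : ℕ} (ζ : Fin n → K) (M : Matrix (Fin n) (Fin n) ℚ) (hnq : ∀ k, nq (ζ k))
    (hrl : ∀ k l, ζ k = ζ l ∨ rl (ζ k) (ζ l)) (R : Submodule K (Fin n → K))
    (hR : ∀ j, (fun k => (Matrix.diagonal ζ - M.map (fun q : ℚ => (q : K))) j k) ∈ R) (Λ : Submodule ℚ (Fin n → ℚ)) (hΛ : Λ ≠ ⊥) :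
    finrank ℚ Λ + 2 * finrank K (R ⊓ ann K Λ : Submodule K (Fin n → K)) + 1 ≤ 2 * finrank K R := by
  classical
  have hfin1 : finrank K ((Fin n → K) ⧸ (R ⊔ ann K Λ)) + finrank K (R ⊔ ann K Λ : Submodule K (Fin n → K)) = n := by
    have h := Submodule.finrank_quotient_add_finrank (R ⊔ ann K Λ)
    rw [h, Module.finrank_fin_fun]
  have hfin2 := Submodule.finrank_sup_add_finrank_inf_eq R (ann K Λ)
  have hfin3 := finrank_ann K Λ
  have hΛpos : 1 ≤ finrank ℚ Λ := by
    rw [Nat.one_le_iff_ne_zero]
    intro h0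
    exact hΛ (Submodule.finrank_eq_zero.1 h0)
  generalize hWdef : R ⊔ ann K Λ = W at hfin1 hfin2
  rcases Nat.eq_zero_or_pos (finrank K ((Fin n → K) ⧸ W)) with h0 | hpos
  · omega
  · obtain ⟨w, hw⟩ : ∃ w : Fin n → ((Fin n → K) ⧸ W), ∀ j, w j = W.mkQ (Pi.single j 1) := ⟨_, fun j => rfl⟩
    have hmk : ∀ x : Fin n → K, W.mkQ x = ∑ j, x j • w j := by
      intro x
      have h1 : x = ∑ j, x j • (Pi.single j 1 : Fin n → K) := by
        ext i
        simp [Finset.sum_apply, Pi.single_apply]
      conv_lhs => rw [h1]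
      rw [map_sum]
      refine Finset.sum_congr rfl fun j _ => ?_
      rw [map_smul, hw]
    have hS : ∀ k, ζ k • w k ∈ span ℚ (Set.range w) := by
      intro k
      have h1 : W.mkQ (fun l => (Matrix.diagonal ζ - M.map (fun q : ℚ => (q : K))) k l) = 0 := by
        rw [Submodule.mkQ_apply, Submodule.Quotient.mk_eq_zero, ← hWdef]
        exact Submodule.mem_sup_left (hR k)
      rw [hmk] at h1
      have h2 : ∑ l, ((Matrix.diagonal ζ - M.map (fun q : ℚ => (q : K))) k l) • w l
          = ζ k • w k - ∑ l, ((M k l : ℚ) : K) • w l := by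
        simp [Matrix.sub_apply, sub_smul, Finset.sum_sub_distrib, Matrix.diagonal_apply, ite_smul]
      rw [h2, sub_eq_zero] at h1
      rw [h1]
      refine sum_mem fun l _ => ?_
      rw [Rat.cast_smul_eq_qsmul]
      exact smul_mem _ _ (subset_span ⟨l, rfl⟩)
    have hspan : span K (Set.range w) = ⊤ := by
      rw [eq_top_iff]
      rintro x -
      obtain ⟨y, rfl⟩ := W.mkQ_surjective x
      rw [hmk]
      exact sum_mem fun j _ => smul_mem _ _ (subset_span ⟨j, rfl⟩)
    have hG := G0 w ζ hS hspan hpos hnq hrl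
    have hker : ann ℚ Λ ≤ LinearMap.ker (Fintype.linearCombination ℚ w) := by
      intro q hq
      have h1 : Fintype.linearCombination ℚ w q = W.mkQ (fun j => (q j : K)) := by
        rw [hmk, Fintype.linearCombination_apply]
        refine Finset.sum_congr rfl fun j _ => ?_
        rw [Rat.cast_smul_eq_qsmul]
      rw [LinearMap.mem_ker, h1, Submodule.mkQ_apply, Submodule.Quotient.mk_eq_zero, ← hWdef]
      refine Submodule.mem_sup_right ?_
      intro p hp
      have h2 : dq q p = 0 := hq p hp
      have h3 : dq (fun j => (q j : K)) p = ((dq q p : ℚ) : K) := by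
        simp [dq]
      rw [h3, h2, Rat.cast_zero]
    have hrn := (Fintype.linearCombination ℚ w).finrank_range_add_finrank_ker
    rw [Fintype.range_linearCombination, Module.finrank_fin_fun] at hrn
    have hann := finrank_ann ℚ Λ
    have hle := Submodule.finrank_mono hker
    omega

end Pool.Agent.LT.DA
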