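import Mathlib
import Pool.Agent.Lib.MP_f58a57_nt.LT.D2

/-!
# MP_f58a57_nt, large transcendence degree: D algebra 3, the flag lemma
-/

open Module Submodule Complex Matrix

noncomputable section

namespace Pool.Agent.LT.DA

/-- helper of row D3a: the imaginary part as a rational linear map -/
private def D3a_im (K : Subfield ℂ) : K →ₗ[ℚ] ℝ where
  toFun x := (x : ℂ).im
  map_add' x y := by simp
  map_smul' q x := by
    have h : ((q • x : K) : ℂ) = (q : ℂ) * (x : ℂ) := by
      rw [Rat.smul_def]; push_cast; rfl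
    change ((q • x : K) : ℂ).im = q • (x : ℂ).im
    rw [h, Complex.mul_im, Complex.ratCast_im, Complex.ratCast_re, zero_mul, add_zero, Rat.smul_def]

private theorem D3a_im_apply (K : Subfield ℂ) (x : K) : D3a_im K x = (x : ℂ).im := rfl

/-- row D3a: the number `Δ`; the imaginary parts of the elements of `K` form a rational space of dimension `2`. Proof: `Δ` from `hK.rq`;
`√Δ` is irrational (`Nat.Prime.irrational..`/`irrational_sqrt_natCast_iff`). `Im : K →ₗ[ℚ] ℝ`, `F := ker Im`, `W := range Im`. `1` and `√Δ` are in `F` and linearly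
independent over `ℚ`, so `finrank F ≥ 2`. `w ∈ K` not real (`hK.nr`): `F` and `w F` are disjoint (`w f = f'` with `f ≠ 0` would make `w` real) of the
same dimension, so `2 finrank F ≤ 4`. Hence `finrank F = 2 = finrank W` (rank-nullity, `finrank ℚ K = 4`, and `K` is finite-dimensional since `finrank = 4 > 0`) and
`F = span {1, √Δ}` (`eq_of_le_of_finrank_eq`, `mem_span_pair`). -/
theorem qf_real (K : Subfield ℂ) (hK : QF K) : ∃ Δ : ℕ, ¬ IsSquare Δ ∧ ((Real.sqrt Δ : ℝ) : ℂ) ∈ K ∧
    (∀ x : ℂ, x ∈ K → x.im = 0 → ∃ m n : ℚ, x = m + n * ((Real.sqrt Δ : ℝ) : ℂ)) ∧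
    ∃ W : Submodule ℚ ℝ, finrank ℚ W = 2 ∧ FiniteDimensional ℚ W ∧ ∀ x : ℂ, x ∈ K → x.im ∈ W := by
  obtain ⟨Δ, hsq, hmem⟩ := hK.rq
  obtain ⟨w, hwK, hw⟩ := hK.nr
  have h4 := hK.dim
  have : FiniteDimensional ℚ K := Module.finite_of_finrank_pos (by omega)
  set f1 : K := 1 with hf1
  set f2 : K := ⟨((Real.sqrt Δ : ℝ) : ℂ), hmem⟩ with hf2
  have hli : LinearIndependent ℚ ![f1, f2] := by
    rw [LinearIndependent.pair_iff]
    intro s t hst
    have h1 : (s : ℝ) + (t : ℝ) * Real.sqrt Δ = 0 := by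
      have h2 := congrArg (fun x : K => (x : ℂ).re) hst
      simp only [Rat.smul_def, hf1, hf2] at h2
      push_cast at h2
      simpa using h2
    have hirr : Irrational (Real.sqrt Δ) := irrational_sqrt_natCast_iff.mpr hsq
    have ht : t = 0 := by
      by_contra ht
      apply hirr
      refine ⟨-s / t, ?_⟩
      have ht' : (t : ℝ) ≠ 0 := by exact_mod_cast ht
      push_cast
      field_simp
      linarith
    subst ht
    refine ⟨?_, rfl⟩
    simpa using h1
  set F : Submodule ℚ K := LinearMap.ker (D3a_im K) with hF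
  have hf1F : f1 ∈ F := by
    rw [hF, LinearMap.mem_ker, D3a_im_apply]; simp [hf1]
  have hf2F : f2 ∈ F := by
    rw [hF, LinearMap.mem_ker, D3a_im_apply]; simp [hf2]
  set S : Submodule ℚ K := span ℚ (Set.range ![f1, f2]) with hS
  have hSF : S ≤ F := by
    rw [hS, span_le]
    rintro _ ⟨i, rfl⟩
    fin_cases i
    · exact hf1F
    · exact hf2F
  have hSr : finrank ℚ S = 2 := by
    rw [hS, finrank_span_eq_card hli]; rfl
  have hge : 2 ≤ finrank ℚ F := by
    rw [← hSr]; exact Submodule.finrank_mono hSF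
  have hwne : (⟨w, hwK⟩ : K) ≠ 0 := by
    intro h
    apply hw
    have : w = 0 := congrArg Subtype.val h
    simp [this]
  set m : K →ₗ[ℚ] K := LinearMap.mulLeft ℚ (⟨w, hwK⟩ : K) with hm
  have hminj : Function.Injective m := by
    intro a b hab
    simpa [hm, hwne] using hab
  have hmap : finrank ℚ (F.map m) = finrank ℚ F := by
    exact (LinearEquiv.finrank_eq (Submodule.equivMapOfInjective m hminj F)).symm
  have hdis : Disjoint F (F.map m) := by
    rw [Submodule.disjoint_def]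
    rintro x hx ⟨y, hy, rfl⟩
    have hx' : ((m y : K) : ℂ).im = 0 := by
      rw [hF, LinearMap.mem_ker, D3a_im_apply] at hx; exact hx
    have hy' : (y : ℂ).im = 0 := by
      have hy2 : y ∈ LinearMap.ker (D3a_im K) := hy
      rw [LinearMap.mem_ker, D3a_im_apply] at hy2; exact hy2
    have hval : ((m y : K) : ℂ) = w * (y : ℂ) := by
      simp [hm]
    rw [hval, Complex.mul_im, hy'] at hx'
    have hre : (y : ℂ).re = 0 := by
      have : w.im * (y : ℂ).re = 0 := by linarith
      rcases mul_eq_zero.mp this with h | h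
      · exact absurd h hw
      · exact h
    have hy0 : y = 0 := by
      apply Subtype.ext
      apply Complex.ext
      · simpa using hre
      · simpa using hy'
    rw [hy0]; simp
  have hle : finrank ℚ F ≤ 2 := by
    have h := Submodule.finrank_add_finrank_le_of_disjoint hdis
    rw [hmap, h4] at h
    omega
  have hF2 : finrank ℚ F = 2 := le_antisymm hle hge
  have hSeq : S = F := Submodule.eq_of_le_of_finrank_eq hSF (by rw [hSr, hF2])
  refine ⟨Δ, hsq, hmem, ?_, LinearMap.range (D3a_im K), ?_, inferInstance, ?_⟩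
  · intro x hx hxi
    have hxF : (⟨x, hx⟩ : K) ∈ F := by
      rw [hF, LinearMap.mem_ker, D3a_im_apply]; exact hxi
    rw [← hSeq, hS, Matrix.range_cons, Matrix.range_cons, Matrix.range_empty, Set.union_empty, Set.singleton_union,
      Submodule.mem_span_pair] at hxF
    obtain ⟨a, b, hab⟩ := hxF
    refine ⟨a, b, ?_⟩
    have h2 := congrArg (fun x : K => (x : ℂ)) hab
    simp only [Rat.smul_def, hf1, hf2] at h2
    push_cast at h2
    rw [← h2]; ring
  · have h := LinearMap.finrank_range_add_finrank_ker (D3a_im K)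
    rw [h4] at h
    have : finrank ℚ (LinearMap.ker (D3a_im K)) = 2 := hF2
    omega
  · intro x hx
    exact ⟨⟨x, hx⟩, rfl⟩

private theorem D3b_add_left {L : Type*} [Field L] [CharZero L] {n : ℕ} (y y' : Fin n → L)
    (q : Fin n → ℚ) : dq (y + y') q = dq y q + dq y' q := by
  simp only [dq, Pi.add_apply, add_mul, Finset.sum_add_distrib]

private theorem D3b_smul_left {L : Type*} [Field L] [CharZero L] {n : ℕ} (r : ℚ) (y : Fin n → L)
    (q : Fin n → ℚ) : dq (r • y) q = (r : L) * dq y q := by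
  simp only [dq, Pi.smul_apply, Finset.mul_sum]
  refine Finset.sum_congr rfl fun j _ => ?_
  rw [Rat.smul_def, mul_assoc]

private theorem D3b_add_right {L : Type*} [Field L] [CharZero L] {n : ℕ} (y : Fin n → L)
    (q q' : Fin n → ℚ) : dq y (q + q') = dq y q + dq y q' := by
  simp only [dq, Pi.add_apply, Rat.cast_add, mul_add, Finset.sum_add_distrib]

private theorem D3b_smul_right {L : Type*} [Field L] [CharZero L] {n : ℕ} (r : ℚ) (y : Fin n → L)
    (q : Fin n → ℚ) : dq y (r • q) = (r : L) * dq y q := by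
  simp only [dq, Pi.smul_apply, smul_eq_mul, Rat.cast_mul, Finset.mul_sum]
  refine Finset.sum_congr rfl fun j _ => ?_
  ring

/-- row D3b: there is a new functional in `R`, real on `Lam x i`. Proof: let `λ := finrank ℚ (Lam x i)`, `q t` (`t : Fin λ`) a basis of `Lam x i`
(`finBasis`). `Φ : R →ₗ[ℚ] (Fin λ → W)`, `y ↦ (Im (dq y (q t)))_t`. `finrank ℚ R = 4 finrank K R` (`finrank_mul_finrank ℚ K R`), so
`finrank ℚ (ker Φ) ≥ 4 finrank K R - 2 λ ≥ 4 i + 2`. `X := span K (range fun l : Fin i => x l)` has `finrank K X ≤ i`, `finrank ℚ X ≤ 4 i`. So there is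
`y ∈ R` with `Φ y = 0`, `y ∉ X` (otherwise `ker Φ`, mapped to `Fin n → K`, is contained in `X.restrictScalars ℚ`). For `q ∈ Lam x i`, `q = ∑ c t • q t`,
`dq y q = ∑ c t * dq y (q t)` is real. -/
theorem exists_real (K : Subfield ℂ) (h4 : finrank ℚ K = 4) (W : Submodule ℚ ℝ) (hW : finrank ℚ W = 2) (hWf : FiniteDimensional ℚ W)
    (hKW : ∀ x : ℂ, x ∈ K → x.im ∈ W) {n : ℕ} (R : Submodule K (Fin n → K)) (x : ℕ → Fin n → K) (i : ℕ)
    (hdim : 2 * i + finrank ℚ (Lam x i) + 1 ≤ 2 * finrank K R) :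
    ∃ y ∈ R, y ∉ span K (Set.range fun l : Fin i => x l) ∧ ∀ q ∈ Lam x i, ((dq y q : K) : ℂ).im = 0 := by
  classical
  have hKf : FiniteDimensional ℚ K := FiniteDimensional.of_finrank_pos (by omega)
  have hRf : FiniteDimensional ℚ R := Module.Finite.trans K R
  set lam := finrank ℚ (Lam x i) with hlam
  let q : Basis (Fin lam) ℚ (Lam x i) := Module.finBasis ℚ (Lam x i)
  let Φ : R →ₗ[ℚ] (Fin lam → W) :=
    { toFun := fun y t => ⟨((dq (y : Fin n → K) (q t : Fin n → ℚ) : K) : ℂ).im,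
        hKW _ (SetLike.coe_mem _)⟩
      map_add' := by
        intro y y'
        funext t
        apply Subtype.ext
        show ((dq ((y : Fin n → K) + (y' : Fin n → K)) (q t : Fin n → ℚ) : K) : ℂ).im =
          ((dq (y : Fin n → K) (q t : Fin n → ℚ) : K) : ℂ).im +
          ((dq (y' : Fin n → K) (q t : Fin n → ℚ) : K) : ℂ).im
        rw [D3b_add_left]
        simp
      map_smul' := by
        intro r y
        funext t
        apply Subtype.ext
        show ((dq (r • (y : Fin n → K)) (q t : Fin n → ℚ) : K) : ℂ).im =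
          r • ((dq (y : Fin n → K) (q t : Fin n → ℚ) : K) : ℂ).im
        rw [D3b_smul_left, Rat.smul_def]
        have : (((r : K) : K) : ℂ) = ((r : ℝ) : ℂ) := by
          push_cast
          rfl
        rw [Subfield.coe_mul, this, Complex.im_ofReal_mul] }
  have hrn := LinearMap.finrank_range_add_finrank_ker Φ
  have hR4 : 4 * finrank K R = finrank ℚ R := by
    rw [← h4]
    exact Module.finrank_mul_finrank ℚ K R
  have hcod : finrank ℚ (Fin lam → W) = lam * 2 := by
    rw [Module.finrank_pi_fintype, hW]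
    simp
  have hrange : finrank ℚ (LinearMap.range Φ) ≤ lam * 2 := by
    rw [← hcod]
    exact Submodule.finrank_le _
  set X : Submodule K (Fin n → K) := span K (Set.range fun l : Fin i => x l) with hX
  have hXi : finrank K X ≤ i := by
    have := finrank_range_le_card (R := K) (fun l : Fin i => x l)
    rw [Fintype.card_fin] at this
    exact this
  have hX4 : 4 * finrank K X = finrank ℚ X := by
    rw [← h4]
    exact Module.finrank_mul_finrank ℚ K X
  have hXf : FiniteDimensional ℚ X := Module.Finite.trans K X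
  have hex : ∃ y : R, Φ y = 0 ∧ (y : Fin n → K) ∉ X := by
    by_contra hno
    push Not at hno
    let g : LinearMap.ker Φ →ₗ[ℚ] X :=
      { toFun := fun y => ⟨((y : R) : Fin n → K), hno y y.2⟩
        map_add' := by
          intro y y'
          rfl
        map_smul' := by
          intro r y
          rfl }
    have hg : Function.Injective g := by
      intro y y' hyy
      have h1 : (((y : R) : Fin n → K)) = (((y' : R) : Fin n → K)) :=
        congrArg (fun w : X => (w : Fin n → K)) hyy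
      exact Subtype.ext (Subtype.ext h1)
    have := LinearMap.finrank_le_finrank_of_injective hg
    omega
  obtain ⟨y, hy0, hyX⟩ := hex
  refine ⟨y, y.2, hyX, ?_⟩
  let ψ : Lam x i →ₗ[ℚ] ℝ :=
    { toFun := fun p => ((dq (y : Fin n → K) (p : Fin n → ℚ) : K) : ℂ).im
      map_add' := by
        intro p p'
        show ((dq (y : Fin n → K) ((p : Fin n → ℚ) + (p' : Fin n → ℚ)) : K) : ℂ).im = _
        rw [D3b_add_right]
        simp
      map_smul' := by
        intro r p
        show ((dq (y : Fin n → K) (r • (p : Fin n → ℚ)) : K) : ℂ).im =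
          r • ((dq (y : Fin n → K) (p : Fin n → ℚ) : K) : ℂ).im
        rw [D3b_smul_right, Rat.smul_def]
        have : (((r : K) : K) : ℂ) = ((r : ℝ) : ℂ) := by
          push_cast
          rfl
        rw [Subfield.coe_mul, this, Complex.im_ofReal_mul] }
  have hψ : ψ = 0 := by
    refine q.ext fun t => ?_
    have h1 : Φ y t = 0 := by rw [hy0]; rfl
    exact congrArg Subtype.val h1
  intro p hp
  have h2 : ψ ⟨p, hp⟩ = 0 := by rw [hψ]; rfl
  exact h2

/-- the properties of the step `i` of a flag; they depend on `x 0, ..., x i` only -/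
structure StepP (K : Subfield ℂ) (Δ : ℕ) {n : ℕ} (c : ℕ) (R : Submodule K (Fin n → K)) (x : ℕ → Fin n → K) (i : ℕ) : Prop where
  mem : x i ∈ R
  li : x i ∉ span K (Set.range fun l : Fin i => x l)
  dim : finrank ℚ (Lam x i) + 2 * i = 2 * c + 1
  real : ∀ q ∈ Lam x i, ((dq (x i) q : K) : ℂ).im = 0
  two : i < c → ∃ a ∈ Lam x i, ∃ b ∈ Lam x i, ((dq (x i) a : K) : ℂ) = 1 ∧ ((dq (x i) b : K) : ℂ) = ((Real.sqrt Δ : ℝ) : ℂ)
  one : i = c → ∃ a ∈ Lam x i, dq (x i) a ≠ 0

private theorem dq_add' {L : Type*} [Field L] [CharZero L] {n : ℕ} (x : Fin n → L) (p q : Fin n → ℚ) :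
    dq x (p + q) = dq x p + dq x q := by
  simp only [dq, Pi.add_apply, Rat.cast_add, mul_add, Finset.sum_add_distrib]

private theorem dq_smul' {L : Type*} [Field L] [CharZero L] {n : ℕ} (x : Fin n → L) (a : ℚ) (q : Fin n → ℚ) :
    dq x (a • q) = (a : L) * dq x q := by
  simp only [dq, Pi.smul_apply, smul_eq_mul, Rat.cast_mul]
  rw [Finset.mul_sum]
  exact Finset.sum_congr rfl fun j _ => by ring

/-- the functional `q ↦ y · q` -/
private def dqL (K : Subfield ℂ) {n : ℕ} (y : Fin n → K) : (Fin n → ℚ) →ₗ[ℚ] ℂ where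
  toFun q := ((dq y q : K) : ℂ)
  map_add' p q := by rw [dq_add']; push_cast; rfl
  map_smul' a q := by
    rw [dq_smul', RingHom.id_apply, Rat.smul_def]
    push_cast
    rfl

private theorem D3c_card (K : Subfield ℂ) {n : ℕ} (R : Submodule K (Fin n → K)) (x : ℕ → Fin n → K) (i : ℕ)
    (hmem : ∀ l ≤ i, x l ∈ R) (hli : LinearIndependent K (fun l : Fin (i + 1) => x l)) (Λ : Submodule ℚ (Fin n → ℚ))
    (hΛ : ∀ l ≤ i, ∀ q ∈ Λ, dq (x l) q = 0) : i + 1 ≤ finrank K (R ⊓ ann K Λ : Submodule K (Fin n → K)) := by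
  let v : Fin (i + 1) → ↥(R ⊓ ann K Λ : Submodule K (Fin n → K)) := fun l =>
    ⟨x l, ⟨hmem l (Nat.lt_succ_iff.1 l.2), fun q hq => hΛ l (Nat.lt_succ_iff.1 l.2) q hq⟩⟩
  have hv : LinearIndependent K v := LinearIndependent.of_comp (Submodule.subtype _) hli
  have := hv.fintype_card_le_finrank
  simpa using this

private theorem D3c_lam (K : Subfield ℂ) {n : ℕ} (x : ℕ → Fin n → K) (i : ℕ) (q : Fin n → ℚ) :
    q ∈ Lam x (i + 1) ↔ q ∈ Lam x i ∧ dq (x i) q = 0 := by
  constructor
  · intro h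
    exact ⟨fun l hl => h l (by omega), h i (by omega)⟩
  · rintro ⟨h1, h2⟩ l hl
    rcases Nat.lt_succ_iff_lt_or_eq.1 hl with h | rfl
    · exact h1 l h
    · exact h2

/-- row D3c: the dimension of the next `Lam`, and the vectors `a`, `b`. Here `x i` is the new functional. Proof: `F : Submodule ℚ ℂ` := span of `1`, `√Δ`
(or `{x ∈ K, x.im = 0}`), `finrank ≤ 2` (`finrank_span_le_card`). `ψ : Lam x i →ₗ[ℚ] ℂ`, `q ↦ dq (x i) q`, has values in `F` (hreal, hΔ), and its kernel is (isomorphic to)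
`Lam x (i+1)`: `q ∈ Lam x (i+1) ↔ q ∈ Lam x i ∧ dq (x i) q = 0` (`Nat.lt_succ_iff_lt_or_eq`). So `finrank (Lam x (i+1)) + finrank (range ψ) = finrank (Lam x i) = 2 (c-i) + 1`,
`finrank (range ψ) ≤ 2`.
Case `i < c`: `finrank (Lam x (i+1)) ≥ 2(c-i) - 1 ≥ 1`, so `Lam x (i+1) ≠ ⊥`, and `x 0, ..., x i ∈ R ⊓ ann K (Lam x (i+1))` are independent: `finrank K (R ⊓ ann ..) ≥ i+1`
(`LinearIndependent.fintype_card_le_finrank` for the family in the submodule, or `finrank_span_eq_card` + `finrank_mono`). `hGs` gives `finrank (Lam x (i+1)) + 2 (i+1) + 1 ≤ 2 (c+1)`. So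
equality, `finrank (range ψ) = 2`, `range ψ = F` and `1, √Δ ∈ F` are values.
Case `i = c`: `finrank (Lam x c) = 1`; take `a ≠ 0` in it. If all `dq (x c) q = 0` on `Lam x c` then `x 0, ..., x c ∈ R ⊓ ann K (Lam x c)`, so `hGs` gives
`1 + 2 (c+1) + 1 ≤ 2 (c+1)`, false. -/
theorem step_ok (K : Subfield ℂ) {Δ : ℕ} (hΔ : ∀ x : ℂ, x ∈ K → x.im = 0 → ∃ m n : ℚ, x = m + n * ((Real.sqrt Δ : ℝ) : ℂ))
    {n : ℕ} (c : ℕ) (R : Submodule K (Fin n → K)) (hRc : finrank K R = c + 1)
    (hGs : ∀ Λ : Submodule ℚ (Fin n → ℚ), Λ ≠ ⊥ → finrank ℚ Λ + 2 * finrank K (R ⊓ ann K Λ : Submodule K (Fin n → K)) + 1 ≤ 2 * finrank K R)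
    (x : ℕ → Fin n → K) (i : ℕ) (hi : i ≤ c) (hmem : ∀ l ≤ i, x l ∈ R) (hli : LinearIndependent K (fun l : Fin (i + 1) => x l))
    (hdim : finrank ℚ (Lam x i) + 2 * i = 2 * c + 1) (hreal : ∀ q ∈ Lam x i, ((dq (x i) q : K) : ℂ).im = 0) :
    (i < c → finrank ℚ (Lam x (i + 1)) + 2 * (i + 1) = 2 * c + 1) ∧
    (i < c → ∃ a ∈ Lam x i, ∃ b ∈ Lam x i, ((dq (x i) a : K) : ℂ) = 1 ∧ ((dq (x i) b : K) : ℂ) = ((Real.sqrt Δ : ℝ) : ℂ)) ∧
    (i = c → ∃ a ∈ Lam x i, dq (x i) a ≠ 0) := by
  classical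
  set F : Submodule ℚ ℂ := span ℚ ({1, ((Real.sqrt Δ : ℝ) : ℂ)} : Set ℂ) with hF
  have hFf : FiniteDimensional ℚ F := FiniteDimensional.span_of_finite ℚ (Set.toFinite _)
  have hF2 : finrank ℚ F ≤ 2 := by
    have h := finrank_span_finset_le_card (R := ℚ) (M := ℂ) ({1, ((Real.sqrt Δ : ℝ) : ℂ)} : Finset ℂ)
    have h' : ({1, ((Real.sqrt Δ : ℝ) : ℂ)} : Finset ℂ).card ≤ 2 := Finset.card_le_two
    have e : ((({1, ((Real.sqrt Δ : ℝ) : ℂ)} : Finset ℂ)) : Set ℂ) = {1, ((Real.sqrt Δ : ℝ) : ℂ)} := by simp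
    rw [e] at h
    exact h.trans h'
  set ψ := (dqL K (x i)).domRestrict (Lam x i) with hψ
  have hψa : ∀ q : Lam x i, ψ q = ((dq (x i) (q : Fin n → ℚ) : K) : ℂ) := fun q => rfl
  have hrange : LinearMap.range ψ ≤ F := by
    rintro _ ⟨q, rfl⟩
    rw [hψa]
    obtain ⟨m', n', h⟩ := hΔ _ (dq (x i) (q : Fin n → ℚ)).2 (hreal q q.2)
    rw [h, hF, mem_span_pair]
    exact ⟨m', n', by rw [Rat.smul_def, Rat.smul_def, mul_one]⟩
  have hr2 : finrank ℚ (LinearMap.range ψ) ≤ 2 := (finrank_mono hrange).trans hF2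
  have hker : LinearMap.ker ψ = comap (Lam x i).subtype (Lam x (i + 1)) := by
    ext q
    rw [LinearMap.mem_ker, hψa, mem_comap, subtype_apply, D3c_lam]
    constructor
    · intro h
      refine ⟨q.2, ?_⟩
      exact_mod_cast h
    · rintro ⟨-, h⟩
      rw [h]
      rfl
  have hle : Lam x (i + 1) ≤ Lam x i := fun q hq => ((D3c_lam K x i q).1 hq).1
  have hkd : finrank ℚ (LinearMap.ker ψ) = finrank ℚ (Lam x (i + 1)) := by
    rw [hker]
    exact (comapSubtypeEquivOfLe hle).finrank_eq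
  have hrn := LinearMap.finrank_range_add_finrank_ker ψ
  rw [hkd] at hrn
  have key : i < c → finrank ℚ (Lam x (i + 1)) + 2 * (i + 1) = 2 * c + 1 ∧ finrank ℚ (LinearMap.range ψ) = 2 := by
    intro hic
    have h1 : 0 < finrank ℚ (Lam x (i + 1)) := by omega
    have hne : Lam x (i + 1) ≠ ⊥ := by
      intro h
      rw [h, finrank_bot] at h1
      exact lt_irrefl _ h1
    have h2 := hGs _ hne
    have h3 := D3c_card K R x i hmem hli (Lam x (i + 1)) (fun l hl q hq => hq l (by omega))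
    omega
  refine ⟨fun hic => (key hic).1, fun hic => ?_, fun hic => ?_⟩
  · have h1 : LinearMap.range ψ = F := Submodule.eq_of_le_of_finrank_le hrange (by rw [(key hic).2]; exact hF2)
    have h2 : (1 : ℂ) ∈ LinearMap.range ψ := by
      rw [h1]
      exact subset_span (by simp)
    have h3 : ((Real.sqrt Δ : ℝ) : ℂ) ∈ LinearMap.range ψ := by
      rw [h1]
      exact subset_span (by simp)
    obtain ⟨a, ha⟩ := h2
    obtain ⟨b, hb⟩ := h3
    exact ⟨a, a.2, b, b.2, ha, hb⟩
  · subst hic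
    by_contra hcon
    push Not at hcon
    have h1 : 0 < finrank ℚ (Lam x i) := by omega
    have hne : Lam x i ≠ ⊥ := by
      intro h
      rw [h, finrank_bot] at h1
      exact lt_irrefl _ h1
    have h2 := hGs _ hne
    have h3 := D3c_card K R x i hmem hli (Lam x i) (fun l hl q hq => by
      rcases Nat.lt_or_ge l i with h | h
      · exact hq l h
      · have : l = i := le_antisymm hl h
        subst this
        exact hcon q hq)
    omega

theorem Lam_congr {L : Type*} [Field L] [CharZero L] {n : ℕ} {x y : ℕ → Fin n → L} {i : ℕ} (h : ∀ l < i, x l = y l) :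
    Lam x i = Lam y i := by
  ext q
  constructor
  · intro hq l hl
    rw [← h l hl]
    exact hq l hl
  · intro hq l hl
    rw [h l hl]
    exact hq l hl

theorem range_congr {V : Type*} {x y : ℕ → V} {i : ℕ} (h : ∀ l < i, x l = y l) :
    (Set.range fun l : Fin i => x l) = Set.range fun l : Fin i => y l := by
  congr 1
  ext l
  rw [h l l.2]

theorem StepP.congr {K : Subfield ℂ} {Δ : ℕ} {n c : ℕ} {R : Submodule K (Fin n → K)} {x y : ℕ → Fin n → K} {i : ℕ}
    (h : ∀ l ≤ i, x l = y l) (hx : StepP K Δ c R x i) : StepP K Δ c R y i := by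
  have h1 : Lam x i = Lam y i := Lam_congr fun l hl => h l hl.le
  have h2 : x i = y i := h i le_rfl
  refine ⟨?_, ?_, ?_, ?_, ?_, ?_⟩
  · rw [← h2]; exact hx.mem
  · rw [← h2, ← range_congr fun l hl => h l hl.le]; exact hx.li
  · rw [← h1]; exact hx.dim
  · rw [← h1, ← h2]; exact hx.real
  · rw [← h1, ← h2]; exact hx.two
  · rw [← h1, ← h2]; exact hx.one

theorem exists_flag (K : Subfield ℂ) (h4 : finrank ℚ K = 4) (W : Submodule ℚ ℝ) (hW : finrank ℚ W = 2) (hWf : FiniteDimensional ℚ W)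
    (hKW : ∀ x : ℂ, x ∈ K → x.im ∈ W) {Δ : ℕ} (hΔ : ∀ x : ℂ, x ∈ K → x.im = 0 → ∃ m n : ℚ, x = m + n * ((Real.sqrt Δ : ℝ) : ℂ))
    {n : ℕ} (c : ℕ) (hn : n = 2 * c + 1) (R : Submodule K (Fin n → K)) (hRc : finrank K R = c + 1)
    (hGs : ∀ Λ : Submodule ℚ (Fin n → ℚ), Λ ≠ ⊥ → finrank ℚ Λ + 2 * finrank K (R ⊓ ann K Λ : Submodule K (Fin n → K)) + 1 ≤ 2 * finrank K R) :
    ∃ x : ℕ → Fin n → K, ∀ i ≤ c, StepP K Δ c R x i := by
  have key : ∀ i ≤ c + 1, ∃ x : ℕ → Fin n → K, (∀ l < i, StepP K Δ c R x l) ∧ (i ≤ c → finrank ℚ (Lam x i) + 2 * i = 2 * c + 1) := by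
    intro i
    induction i with
    | zero =>
      intro _
      refine ⟨0, fun l hl => absurd hl (by omega), fun _ => ?_⟩
      have h1 : Lam (0 : ℕ → Fin n → K) 0 = ⊤ := by
        rw [eq_top_iff]
        intro q _ l hl
        exact absurd hl (by omega)
      rw [h1, finrank_top, finrank_fin_fun, hn]
    | succ i ih =>
      intro hi
      obtain ⟨x, hx, hdim⟩ := ih (by omega)
      have hic : i ≤ c := by omega
      have hd := hdim hic
      obtain ⟨y, hyR, hyx, hyr⟩ := exists_real K h4 W hW hWf hKW R x i (by rw [hRc]; omega)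
      set x' : ℕ → Fin n → K := Function.update x i y with hx'
      have hlt : ∀ l < i, x l = x' l := fun l hl => by rw [hx', Function.update_of_ne (by omega)]
      have hxi : x' i = y := by rw [hx', Function.update_self]
      have hLam : Lam x i = Lam x' i := Lam_congr hlt
      have hsteps : ∀ l < i, StepP K Δ c R x' l := fun l hl => (hx l hl).congr fun m hm => hlt m (by omega)
      have hli : x' i ∉ span K (Set.range fun l : Fin i => x' l) := by
        rw [hxi, ← range_congr hlt]; exact hyx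
      have hdx : finrank ℚ (Lam x' i) + 2 * i = 2 * c + 1 := by rw [← hLam]; exact hd
      have hre : ∀ q ∈ Lam x' i, ((dq (x' i) q : K) : ℂ).im = 0 := by
        rw [← hLam, hxi]; exact hyr
      have hmem : ∀ l ≤ i, x' l ∈ R := by
        intro l hl
        rcases Nat.lt_or_ge l i with h | h
        · exact (hsteps l h).mem
        · rw [show l = i by omega, hxi]; exact hyR
      have hLI : LinearIndependent K (fun l : Fin (i + 1) => x' l) := by
        apply li_of_steps
        intro l hl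
        rcases Nat.lt_or_ge l i with h | h
        · exact (hsteps l h).li
        · rw [show l = i by omega]; exact hli
      obtain ⟨s1, s2, s3⟩ := step_ok K hΔ c R hRc hGs x' i hic hmem hLI hdx hre
      refine ⟨x', ?_, fun h => s1 (by omega)⟩
      intro l hl
      rcases Nat.lt_or_ge l i with h | h
      · exact hsteps l h
      · have hl' : l = i := by omega
        subst hl'
        exact ⟨hmem l le_rfl, hli, hdx, hre, s2, s3⟩
  obtain ⟨x, hx, _⟩ := key (c + 1) le_rfl
  exact ⟨x, fun i hi => hx i (by omega)⟩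


theorem flag_li (K : Subfield ℂ) {Δ : ℕ} {n : ℕ} (c : ℕ) (R : Submodule K (Fin n → K)) (x : ℕ → Fin n → K)
    (h : ∀ i ≤ c, StepP K Δ c R x i) : LinearIndependent ℂ (fun (i : Fin (c + 1)) (j : Fin n) => (x i j : ℂ)) := by
  have h1 : LinearIndependent K (fun l : Fin (c + 1) => x l) := li_of_steps x (c + 1) fun l hl => (h l (by omega)).li
  exact li_KC K h1

theorem real_ker {n : ℕ} (z : Fin n → ℂ) (him : ∀ j, 0 < (z j).im) (M : Matrix (Fin n) (Fin n) ℚ) (b : Fin n → ℝ)
    (h : (Matrix.diagonal z - M.map (fun q : ℚ => (q : ℂ))) *ᵥ rv b = 0) : b = 0 := by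
  funext j
  have h1 := congrFun h j
  rw [Matrix.sub_mulVec, Pi.sub_apply, Matrix.mulVec_diagonal] at h1
  have h2 := congrArg Complex.im h1
  have h3 : ((M.map (fun q : ℚ => (q : ℂ)) *ᵥ rv b) j).im = 0 := by
    rw [Matrix.mulVec, dotProduct, Complex.im_sum]
    apply Finset.sum_eq_zero
    intro k _
    rw [Matrix.map_apply, rv]
    have : ((M j k : ℚ) : ℂ) * ((b k : ℝ) : ℂ) = (((M j k : ℝ) * b k : ℝ) : ℂ) := by push_cast; rfl
    rw [this, Complex.ofReal_im]
  have h4 : (z j * rv b j).im = (z j).im * b j := by simp [rv]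
  rw [Complex.sub_im, h3, h4, sub_zero, Pi.zero_apply, Complex.zero_im] at h2
  rcases mul_eq_zero.mp h2 with h5 | h5
  · exact absurd h5 (him j).ne'
  · exact h5

/-- the real vectors, as a real linear map -/
def rvL (n : ℕ) : (Fin n → ℝ) →ₗ[ℝ] (Fin n → ℂ) where
  toFun := rv
  map_add' := by intro a b; funext j; simp [rv]
  map_smul' := by intro a b; funext j; simp [rv]

theorem rvL_inj (n : ℕ) : Function.Injective (rvL n) := by
  intro a b h
  funext j
  have := congrFun h j
  exact Complex.ofReal_injective this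

theorem ker_le {n c : ℕ} (hn : n = 2 * c + 1) (z : Fin n → ℂ) (him : ∀ j, 0 < (z j).im) (M : Matrix (Fin n) (Fin n) ℚ) :
    finrank ℂ (LinearMap.ker (Matrix.mulVecLin (Matrix.diagonal z - M.map (fun q : ℚ => (q : ℂ))))) ≤ c := by
  set P := Matrix.diagonal z - M.map (fun q : ℚ => (q : ℂ)) with hP
  set V : Submodule ℂ (Fin n → ℂ) := LinearMap.ker (Matrix.mulVecLin P) with hV
  have h1 : finrank ℝ (V.restrictScalars ℝ) = 2 * finrank ℂ V := finrank_real_of_complex V
  have h2 : finrank ℝ (LinearMap.range (rvL n)) = n := by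
    rw [LinearMap.finrank_range_of_inj (rvL_inj n), finrank_fin_fun]
  have h3 : finrank ℝ (Fin n → ℂ) = 2 * n := by
    rw [finrank_pi_fintype]
    simp [Complex.finrank_real_complex, mul_comm]
  have h4 : V.restrictScalars ℝ ⊓ LinearMap.range (rvL n) = ⊥ := by
    rw [eq_bot_iff]
    rintro u ⟨hu, b, rfl⟩
    have h5 : P *ᵥ rv b = 0 := hu
    have h6 := real_ker z him M b h5
    rw [h6]
    simp
  have h5 := Submodule.finrank_sup_add_finrank_inf_eq (V.restrictScalars ℝ) (LinearMap.range (rvL n))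
  rw [h4, finrank_bot, h1, h2] at h5
  have h6 := Submodule.finrank_le (V.restrictScalars ℝ ⊔ LinearMap.range (rvL n))
  rw [h3] at h6
  omega

private theorem D3g_fin {n : ℕ} (W : Submodule ℂ (Fin n → ℂ)) :
    finrank ℝ (W.restrictScalars ℝ) = 2 * finrank ℂ W := by
  have h := finrank_mul_finrank ℝ ℂ W
  rw [Complex.finrank_real_complex] at h
  exact h.symm

/-- the linear map `rv` -/
private def D3g_rvL (n : ℕ) : (Fin n → ℝ) →ₗ[ℝ] (Fin n → ℂ) where
  toFun := rv
  map_add' := by intro a b; ext j; simp [rv]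
  map_smul' := by intro a b; ext j; simp [rv]

/-- row D3g: the real width: real vectors on which `r` independent functionals vanish. Proof: `W := {u : Fin n → ℂ | ∀ l, y l ⬝ᵥ u = 0}` has
`finrank ℂ W = n - r` (kernel of `mulVecLin (of y)`, rank `r` by `LinearIndependent.rank_matrix`), it contains `ker P` (hP) and the image of `B` under `rv`
(hB), which are disjoint real subspaces (hreal) with real dimensions `≥ 2 c` and `finrank ℝ B` (`rv` injective). So
`finrank ℝ B + 2 c ≤ 2 (n - r) = 4 c + 2 - 2 r`. -/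
theorem real_width {n c : ℕ} (hn : n = 2 * c + 1) (P : Matrix (Fin n) (Fin n) ℂ) (hreal : ∀ b : Fin n → ℝ, P *ᵥ rv b = 0 → b = 0)
    (hker : c ≤ finrank ℂ (LinearMap.ker (Matrix.mulVecLin P))) {r : ℕ} (y : Fin r → Fin n → ℂ) (hy : LinearIndependent ℂ y)
    (hP : ∀ u, P *ᵥ u = 0 → ∀ l, y l ⬝ᵥ u = 0) (B : Submodule ℝ (Fin n → ℝ)) (hB : ∀ b ∈ B, ∀ l, y l ⬝ᵥ rv b = 0) :
    finrank ℝ B + 2 * r ≤ 2 * (c + 1) := by
  classical
  have hrank : (Matrix.of y).rank = r := by
    have h := LinearIndependent.rank_matrix (M := Matrix.of y) hy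
    rw [h, Fintype.card_fin]
  have hrn := (Matrix.of y).mulVecLin.finrank_range_add_finrank_ker
  rw [Module.finrank_fin_fun] at hrn
  have hrn' : r + finrank ℂ (LinearMap.ker (Matrix.of y).mulVecLin) = n := by
    have h3 : finrank ℂ (LinearMap.range (Matrix.of y).mulVecLin) = r := hrank
    rw [h3] at hrn
    exact hrn
  obtain ⟨W, hW⟩ : ∃ W : Submodule ℂ (Fin n → ℂ), W = LinearMap.ker (Matrix.of y).mulVecLin := ⟨_, rfl⟩
  have hmemW : ∀ u, u ∈ W ↔ ∀ l, y l ⬝ᵥ u = 0 := by
    intro u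
    rw [hW, LinearMap.mem_ker, Matrix.mulVecLin_apply]
    constructor
    · intro h l
      exact congrFun h l
    · intro h
      funext l
      exact h l
  obtain ⟨Q, hQ⟩ : ∃ Q : Submodule ℂ (Fin n → ℂ), Q = LinearMap.ker (Matrix.mulVecLin P) := ⟨_, rfl⟩
  rw [← hW] at hrn'
  rw [← hQ] at hker
  have hinj : Function.Injective (D3g_rvL n) := by
    intro a b hab
    ext j
    have := congrFun hab j
    exact Complex.ofReal_injective this
  have hB' : finrank ℝ (B.map (D3g_rvL n)) = finrank ℝ B := 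
    (Submodule.equivMapOfInjective (D3g_rvL n) hinj B).finrank_eq.symm
  have hdis : Disjoint (Q.restrictScalars ℝ) (B.map (D3g_rvL n)) := by
    rw [Submodule.disjoint_def]
    rintro u hu1 hu2
    obtain ⟨b, -, rfl⟩ := hu2
    have h1 : P *ᵥ rv b = 0 := by
      have h2 : D3g_rvL n b ∈ Q := hu1
      rw [hQ, LinearMap.mem_ker, Matrix.mulVecLin_apply] at h2
      exact h2
    rw [hreal b h1, map_zero]
  have hle : Q.restrictScalars ℝ ⊔ B.map (D3g_rvL n) ≤ W.restrictScalars ℝ := by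
    apply sup_le
    · intro u hu
      have h2 : u ∈ Q := hu
      rw [hQ, LinearMap.mem_ker, Matrix.mulVecLin_apply] at h2
      exact (hmemW u).2 (hP u h2)
    · rintro u ⟨b, hb, rfl⟩
      exact (hmemW _).2 (hB b hb)
  have h1 := Submodule.finrank_mono hle
  have h2 := Submodule.finrank_sup_add_finrank_inf_eq (Q.restrictScalars ℝ) (B.map (D3g_rvL n))
  rw [hdis.eq_bot, finrank_bot, add_zero] at h2
  rw [h2, D3g_fin, D3g_fin, hB'] at h1
  omega

private theorem D3h_dq_add {L : Type*} [Field L] [CharZero L] {n : ℕ} (x : Fin n → L) (p q : Fin n → ℚ) :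
    dq x (p + q) = dq x p + dq x q := by
  simp only [dq, Pi.add_apply, Rat.cast_add, mul_add, Finset.sum_add_distrib]

private theorem D3h_dq_smul {L : Type*} [Field L] [CharZero L] {n : ℕ} (x : Fin n → L) (a : ℚ) (q : Fin n → ℚ) :
    dq x (a • q) = (a : L) * dq x q := by
  simp only [dq, Pi.smul_apply, smul_eq_mul, Rat.cast_mul]
  rw [Finset.mul_sum]
  exact Finset.sum_congr rfl fun j _ => by ring

private theorem D3h_dq_rv (K : Subfield ℂ) {n : ℕ} (y : Fin n → K) (q : Fin n → ℚ) :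
    (fun j => (y j : ℂ)) ⬝ᵥ rv (fun j => (q j : ℝ)) = ((dq y q : K) : ℂ) := by
  simp only [dotProduct, rv, dq]
  push_cast
  rfl

/-- the real functional `b ↦ Re (y · b)` -/
private def D3h_re {n : ℕ} (y : Fin n → ℂ) : (Fin n → ℝ) →ₗ[ℝ] ℝ where
  toFun b := (y ⬝ᵥ rv b).re
  map_add' p q := by
    simp only [dotProduct, rv, Pi.add_apply, ofReal_add, mul_add, Finset.sum_add_distrib, add_re]
  map_smul' r q := by
    simp only [dotProduct, rv, Pi.smul_apply, smul_eq_mul, ofReal_mul, RingHom.id_apply, re_sum]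
    rw [Finset.mul_sum]
    refine Finset.sum_congr rfl fun j _ => ?_
    rw [mul_left_comm, re_ofReal_mul]

/-- the real functional `b ↦ Im (y · b)` -/
private def D3h_im {n : ℕ} (y : Fin n → ℂ) : (Fin n → ℝ) →ₗ[ℝ] ℝ where
  toFun b := (y ⬝ᵥ rv b).im
  map_add' p q := by
    simp only [dotProduct, rv, Pi.add_apply, ofReal_add, mul_add, Finset.sum_add_distrib, add_im]
  map_smul' r q := by
    simp only [dotProduct, rv, Pi.smul_apply, smul_eq_mul, ofReal_mul, RingHom.id_apply, im_sum]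
    rw [Finset.mul_sum]
    refine Finset.sum_congr rfl fun j _ => ?_
    rw [mul_left_comm, im_ofReal_mul]

/-- row D3h: the nonvanishing of the determinant in the flag lemma. Proof: let `φ := Im (x_{i+1} · a)` and suppose the claim fails, so
`Im (x_{i+1} · b) = √Δ φ`. Put `f := x_{i+1} - I φ x_i : Fin n → ℂ` and `y := (x_0, ..., x_i, f)`, `r = i+2`: linearly independent (from `flag_li`: restrict to the first
`i+2` vectors; subtracting a multiple of `x_i` from the last one keeps independence). `y` kills `ker P` (hRP, `StepP.mem`). For `γ ∈ Lam x i`: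
`x_i · γ = m + n √Δ` is real (`StepP.real`, hΔ), `γ' := γ - m a - n b ∈ Lam x (i+1)`, so `x_{i+1} · γ'` is real (`StepP.real` for `i+1`), hence
`Im (f · γ) = Im(x_{i+1} · γ) - φ (x_i · γ) = m φ + n √Δ φ - φ (m + n √Δ) = 0`. Let `B0 := span ℝ` of the casts of `Lam x i` in `Fin n → ℝ`:
`finrank ℝ B0 = finrank ℚ (Lam x i) = 2 (c-i) + 1` (a `ℚ`-basis stays independent over `ℝ`: `linearIndependent_algebraMap_comp_iff`). On `B0` : `x_l · b = 0` for `l < i`,
`x_i · b` and `f · b` are real. `B := {b ∈ B0 | x_i · b = 0, f · b = 0}`: two real linear conditions, so `finrank ℝ B ≥ 2 (c-i) - 1`. But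
`real_width` for `B` and `y` gives `finrank ℝ B + 2 (i+2) ≤ 2 (c+1)`, i.e. `finrank ℝ B ≤ 2 (c-i) - 2`. Contradiction. -/
theorem im_ne {n c : ℕ} (hn : n = 2 * c + 1) (P : Matrix (Fin n) (Fin n) ℂ) (hreal : ∀ b : Fin n → ℝ, P *ᵥ rv b = 0 → b = 0)
    (hker : c ≤ finrank ℂ (LinearMap.ker (Matrix.mulVecLin P))) (K : Subfield ℂ) {Δ : ℕ}
    (hΔ : ∀ x : ℂ, x ∈ K → x.im = 0 → ∃ m n : ℚ, x = m + n * ((Real.sqrt Δ : ℝ) : ℂ))
    (R : Submodule K (Fin n → K)) (hRP : ∀ y ∈ R, ∀ u, P *ᵥ u = 0 → (fun j => (y j : ℂ)) ⬝ᵥ u = 0)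
    (x : ℕ → Fin n → K) (h : ∀ i ≤ c, StepP K Δ c R x i) (i : ℕ) (hi : i < c) (a b : Fin n → ℚ) (ha : a ∈ Lam x i) (hb : b ∈ Lam x i)
    (ha1 : ((dq (x i) a : K) : ℂ) = 1) (hb1 : ((dq (x i) b : K) : ℂ) = ((Real.sqrt Δ : ℝ) : ℂ)) :
    (((dq (x (i + 1)) b : K) : ℂ) - ((Real.sqrt Δ : ℝ) : ℂ) * ((dq (x (i + 1)) a : K) : ℂ)).im ≠ 0 := by
  intro hcon
  set φ : ℝ := ((dq (x (i + 1)) a : K) : ℂ).im with hφ
  have hbφ : ((dq (x (i + 1)) b : K) : ℂ).im = Real.sqrt Δ * φ := by
    rw [sub_im, im_ofReal_mul] at hcon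
    linarith
  set X : ℕ → Fin n → ℂ := fun l j => (x l j : ℂ) with hX
  set f : Fin n → ℂ := X (i + 1) - (I * φ) • X i with hf
  -- linear independence
  have hli : LinearIndependent ℂ (fun (l : Fin (c + 1)) => X l) := flag_li K c R x h
  have hli2 : LinearIndependent ℂ (fun l : Fin (i + 1 + 1) => X l) := by
    have := hli.comp (Fin.castLE (by omega : i + 1 + 1 ≤ c + 1)) (Fin.castLE_injective _)
    exact this
  have hsn : (fun l : Fin (i + 1 + 1) => X l) = Fin.snoc (α := fun _ => Fin n → ℂ) (fun l : Fin (i + 1) => X l) (X (i + 1)) := by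
    funext l
    refine Fin.lastCases ?_ (fun l => ?_) l
    · simp
    · simp
  rw [hsn, linearIndependent_finSnoc] at hli2
  obtain ⟨hli3, hnot⟩ := hli2
  set y : Fin (i + 1 + 1) → Fin n → ℂ := Fin.snoc (α := fun _ => Fin n → ℂ) (fun l : Fin (i + 1) => X l) f with hy
  have hyli : LinearIndependent ℂ y := by
    rw [hy, linearIndependent_finSnoc]
    refine ⟨hli3, fun hmem => hnot ?_⟩
    have h1 : X (i + 1) = f + (I * φ) • X i := by rw [hf]; abel
    rw [h1]
    refine Submodule.add_mem _ hmem (Submodule.smul_mem _ _ (subset_span ⟨Fin.last i, ?_⟩))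
    simp
  -- the kernel of P
  have hXP : ∀ l ≤ c, ∀ u, P *ᵥ u = 0 → X l ⬝ᵥ u = 0 := fun l hl u hu => hRP _ (h l hl).mem u hu
  have hfP : ∀ u, P *ᵥ u = 0 → f ⬝ᵥ u = 0 := by
    intro u hu
    rw [hf, sub_dotProduct, smul_dotProduct, hXP _ (by omega) u hu, hXP _ (by omega) u hu]
    simp
  have hyP : ∀ u, P *ᵥ u = 0 → ∀ l, y l ⬝ᵥ u = 0 := by
    intro u hu l
    refine Fin.lastCases ?_ (fun l => ?_) l
    · rw [hy, Fin.snoc_last]
      exact hfP u hu
    · rw [hy, Fin.snoc_castSucc]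
      exact hXP _ (by have := l.2; omega) u hu
  -- values on rational vectors
  have hval : ∀ (l : ℕ) (γ : Fin n → ℚ), X l ⬝ᵥ rv (fun j => (γ j : ℝ)) = ((dq (x l) γ : K) : ℂ) := fun l γ => D3h_dq_rv K (x l) γ
  have h0 : ∀ γ ∈ Lam x i, ∀ l < i, X l ⬝ᵥ rv (fun j => (γ j : ℝ)) = 0 := by
    intro γ hγ l hl
    rw [hval, hγ l hl]
    rfl
  have h1 : ∀ γ ∈ Lam x i, (X i ⬝ᵥ rv (fun j => (γ j : ℝ))).im = 0 := by
    intro γ hγ
    rw [hval]
    exact (h i hi.le).real γ hγ
  have h2 : ∀ γ ∈ Lam x i, (f ⬝ᵥ rv (fun j => (γ j : ℝ))).im = 0 := by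
    intro γ hγ
    obtain ⟨m', n', hmn⟩ := hΔ _ (dq (x i) γ).2 ((h i hi.le).real γ hγ)
    have hγ' : γ - m' • a - n' • b ∈ Lam x (i + 1) := by
      have hm : γ - m' • a - n' • b ∈ Lam x i := Submodule.sub_mem _ (Submodule.sub_mem _ hγ (Submodule.smul_mem _ _ ha)) (Submodule.smul_mem _ _ hb)
      intro l hl
      rcases Nat.lt_succ_iff_lt_or_eq.1 hl with hl | rfl
      · exact hm l hl
      · have e : dq (x l) (γ - m' • a - n' • b) = dq (x l) γ - (m' : K) * dq (x l) a - (n' : K) * dq (x l) b := by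
          have e1 : γ - m' • a - n' • b = γ + (-m') • a + (-n') • b := by
            rw [neg_smul, neg_smul]
            abel
          rw [e1, D3h_dq_add, D3h_dq_add, D3h_dq_smul, D3h_dq_smul]
          push_cast
          ring
        rw [e]
        apply Subtype.ext
        push_cast
        rw [hmn, ha1, hb1]
        ring
    have h3 := (h (i + 1) hi).real _ hγ'
    have e2 : dq (x (i + 1)) (γ - m' • a - n' • b) = dq (x (i + 1)) γ - (m' : K) * dq (x (i + 1)) a - (n' : K) * dq (x (i + 1)) b := by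
      have e1 : γ - m' • a - n' • b = γ + (-m') • a + (-n') • b := by
        rw [neg_smul, neg_smul]
        abel
      rw [e1, D3h_dq_add, D3h_dq_add, D3h_dq_smul, D3h_dq_smul]
      push_cast
      ring
    rw [e2] at h3
    push_cast at h3
    have e3 : ((m' : ℂ) * ((dq (x (i + 1)) a : K) : ℂ)).im = m' * φ := by
      have : (m' : ℂ) = ((m' : ℝ) : ℂ) := by push_cast; rfl
      rw [this, im_ofReal_mul]
    have e4 : ((n' : ℂ) * ((dq (x (i + 1)) b : K) : ℂ)).im = n' * (Real.sqrt Δ * φ) := by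
      have : (n' : ℂ) = ((n' : ℝ) : ℂ) := by push_cast; rfl
      rw [this, im_ofReal_mul, hbφ]
    rw [sub_im, sub_im, e3, e4] at h3
    rw [hf, sub_dotProduct, smul_dotProduct, hval, hval, hmn, sub_im, smul_eq_mul]
    have e5 : (I * (φ : ℂ) * ((m' : ℂ) + (n' : ℂ) * ((Real.sqrt Δ : ℝ) : ℂ))).im = φ * (m' + n' * Real.sqrt Δ) := by
      have : (I * (φ : ℂ) * ((m' : ℂ) + (n' : ℂ) * ((Real.sqrt Δ : ℝ) : ℂ))) = ((φ * (m' + n' * Real.sqrt Δ) : ℝ) : ℂ) * I := by
        push_cast
        ring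
      rw [this, im_ofReal_mul, I_im, mul_one]
    rw [e5]
    linarith
  -- the real span of `Lam x i`
  let q := finBasis ℚ (Lam x i)
  let w : Fin (finrank ℚ (Lam x i)) → Fin n → ℝ := fun t j => ((q t : Fin n → ℚ) j : ℝ)
  have hw : LinearIndependent ℝ w := by
    have h3 : LinearIndependent ℚ (fun t => (q t : Fin n → ℚ)) := by
      have := q.linearIndependent.map' (Submodule.subtype _) (Submodule.ker_subtype _)
      exact this
    exact (linearIndependent_algebraMap_comp_iff (R := ℚ) (S := ℝ)).2 h3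
  set B0 : Submodule ℝ (Fin n → ℝ) := span ℝ (Set.range w) with hB0
  have hB0f : finrank ℝ B0 = finrank ℚ (Lam x i) := by
    rw [hB0, finrank_span_eq_card hw, Fintype.card_fin]
  have hB00 : ∀ β ∈ B0, ∀ l < i, X l ⬝ᵥ rv β = 0 := by
    intro β hβ l hl
    have hr : B0 ≤ LinearMap.ker (D3h_re (X l)) := by
      rw [hB0, span_le]
      rintro _ ⟨t, rfl⟩
      have := h0 (q t) (q t).2 l hl
      exact congrArg Complex.re this
    have hi' : B0 ≤ LinearMap.ker (D3h_im (X l)) := by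
      rw [hB0, span_le]
      rintro _ ⟨t, rfl⟩
      have := h0 (q t) (q t).2 l hl
      exact congrArg Complex.im this
    exact Complex.ext (hr hβ) (hi' hβ)
  have hB01 : ∀ β ∈ B0, (X i ⬝ᵥ rv β).im = 0 := by
    have hi' : B0 ≤ LinearMap.ker (D3h_im (X i)) := by
      rw [hB0, span_le]
      rintro _ ⟨t, rfl⟩
      exact h1 (q t) (q t).2
    exact fun β hβ => hi' hβ
  have hB02 : ∀ β ∈ B0, (f ⬝ᵥ rv β).im = 0 := by
    have hi' : B0 ≤ LinearMap.ker (D3h_im f) := by
      rw [hB0, span_le]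
      rintro _ ⟨t, rfl⟩
      exact h2 (q t) (q t).2
    exact fun β hβ => hi' hβ
  -- two conditions
  set ψ : B0 →ₗ[ℝ] (ℝ × ℝ) := ((D3h_re (X i)).prod (D3h_re f)).domRestrict B0 with hψ
  have hrn := LinearMap.finrank_range_add_finrank_ker ψ
  have hr2 : finrank ℝ (LinearMap.range ψ) ≤ 2 := by
    have := Submodule.finrank_le (LinearMap.range ψ)
    simpa using this
  have hB : finrank ℝ ((LinearMap.ker ψ).map B0.subtype) = finrank ℝ (LinearMap.ker ψ) :=
    finrank_map_subtype_eq _ _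
  have hwid := real_width hn P hreal hker y hyli hyP ((LinearMap.ker ψ).map B0.subtype) (by
    rintro _ ⟨β, hβ, rfl⟩ l
    have hβ' : ψ β = 0 := hβ
    have h3 : (X i ⬝ᵥ rv (β : Fin n → ℝ)).re = 0 := congrArg Prod.fst hβ'
    have h4 : (f ⬝ᵥ rv (β : Fin n → ℝ)).re = 0 := congrArg Prod.snd hβ'
    have h5 : X i ⬝ᵥ rv (β : Fin n → ℝ) = 0 := Complex.ext h3 (hB01 β β.2)
    have h6 : f ⬝ᵥ rv (β : Fin n → ℝ) = 0 := Complex.ext h4 (hB02 β β.2)
    refine Fin.lastCases ?_ (fun l => ?_) l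
    · rw [hy, Fin.snoc_last]
      exact h6
    · rw [hy, Fin.snoc_castSucc]
      rcases Nat.lt_succ_iff_lt_or_eq.1 l.2 with hl | hl
      · exact hB00 β β.2 l hl
      · rw [hl]
        exact h5)
  have hd := (h i hi.le).dim
  rw [hB] at hwid
  omega

theorem finrank_coe (K : Subfield ℂ) {n : ℕ} {ι : Type} [Fintype ι] (v : ι → Fin n → K) :
    finrank K (span K (Set.range v)) = finrank ℂ (span ℂ (Set.range fun i => fun j => (v i j : ℂ))) := by
  classical
  obtain ⟨J, hJ1, hJ2⟩ := exists_basis_sub (K := K) v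
  have hC : LinearIndependent ℂ (fun j : J => fun t => (v j t : ℂ)) := li_KC K hJ1
  have e1 : finrank K (span K (Set.range v)) = Fintype.card J := by
    rw [← hJ2]; exact finrank_span_eq_card hJ1
  have e2 : span ℂ (Set.range fun i => fun j => (v i j : ℂ)) = span ℂ (Set.range fun j : J => fun t => (v j t : ℂ)) := by
    apply le_antisymm
    · rw [span_le]
      rintro _ ⟨i, rfl⟩
      have h1 : v i ∈ span K (Set.range fun j : J => v j) := by
        rw [hJ2]; exact subset_span ⟨i, rfl⟩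
      rw [mem_span_range_iff_exists_fun] at h1
      obtain ⟨a, ha⟩ := h1
      rw [SetLike.mem_coe, mem_span_range_iff_exists_fun]
      refine ⟨fun j => (a j : ℂ), ?_⟩
      funext t
      have h2 := congrArg (fun w => ((w t : K) : ℂ)) ha
      simp only [Finset.sum_apply, Pi.smul_apply, smul_eq_mul] at h2 ⊢
      rw [← h2]
      push_cast
      rfl
    · apply span_mono
      rintro _ ⟨j, rfl⟩
      exact ⟨j, rfl⟩
  rw [e1, e2, finrank_span_eq_card hC]


end Pool.Agent.LT.DA
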