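import Mathlib
import Pool.Agent.Lib.MP_f58a57_nt.LT.D3

/-!
# MP_f58a57_nt, large transcendence degree: D algebra 4, existence of the matrix `M` (D.1)
-/

open Module Submodule Complex Matrix

noncomputable section

namespace Pool.Agent.LT.DA

section

variable {K : Type*} [Field K] [CharZero K]

/-- the vectors `e_0, ..., e_{c-1}, (1, ..., 1)` of `K^c` -/
def w0 (K : Type*) [Field K] (c : ℕ) : Fin (c + 1) → Fin c → K := fun i => if h : (i : ℕ) < c then Pi.single ⟨i, h⟩ 1 else fun _ => 1

private theorem D4a_castSucc (c : ℕ) (i : Fin c) : w0 K c i.castSucc = Pi.single i 1 := by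
  unfold w0
  have h : ((i.castSucc : Fin (c + 1)) : ℕ) < c := by simp
  rw [dif_pos h]
  rfl

private theorem D4a_last (c : ℕ) : w0 K c (Fin.last c) = fun _ => 1 := by
  unfold w0
  rw [dif_neg (by simp)]

private theorem D4a_sum (c : ℕ) (a : Fin (c + 1) → K) (i : Fin c) :
    (∑ l, a l • w0 K c l) i = a i.castSucc + a (Fin.last c) := by
  rw [Fin.sum_univ_castSucc, Pi.add_apply, Finset.sum_apply, Pi.smul_apply, D4a_last, smul_eq_mul, mul_one]
  congr 1
  rw [Finset.sum_eq_single i]
  · rw [Pi.smul_apply, D4a_castSucc, Pi.single_eq_same, smul_eq_mul, mul_one]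
  · intro j _ hj
    rw [Pi.smul_apply, D4a_castSucc, Pi.single_eq_of_ne (Ne.symm hj), smul_zero]
  · intro h
    exact absurd (Finset.mem_univ i) h

private theorem D4a_zero (c : ℕ) (a : Fin (c + 1) → K) (h : ∑ l, a l • w0 K c l = 0) (i0 : Fin (c + 1)) (h0 : a i0 = 0) :
    ∀ l, a l = 0 := by
  have h1 : ∀ i : Fin c, a i.castSucc + a (Fin.last c) = 0 := fun i => by
    rw [← D4a_sum, h]
    rfl
  have h2 : a (Fin.last c) = 0 := by
    revert h0
    refine Fin.lastCases (fun h => h) (fun i h => ?_) i0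
    have := h1 i
    rw [h, zero_add] at this
    exact this
  intro l
  refine Fin.lastCases h2 (fun i => ?_) l
  have := h1 i
  rw [h2, add_zero] at this
  exact this

/-- row D4a: at most `c` of the vectors `w0` are linearly independent. Proof: some index `i0 : Fin (c+1)` is not in `s`. If `i0 = last`: the vectors are distinct unit vectors.
Otherwise look at the coordinate `i0` of a relation `∑ a_l w_l = 0`: only the last vector contributes, so its coefficient is `0`, then all the
others are `0`. (Use `linearIndependent_iff'` or show that `∑_{l} a_l w_l = 0` over all `l : Fin (c+1)` with `a_{i0} = 0` forces `a = 0`.) -/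
theorem w0_li (c : ℕ) (s : Finset (Fin (c + 1))) (hs : s.card ≤ c) : LinearIndependent K (fun i : s => w0 K c i) := by
  classical
  rw [Fintype.linearIndependent_iff]
  intro g hg
  have hex : ∃ i0, i0 ∉ s := by
    by_contra hcon
    push Not at hcon
    have h1 : s = Finset.univ := Finset.eq_univ_iff_forall.2 hcon
    rw [h1, Finset.card_univ, Fintype.card_fin] at hs
    omega
  obtain ⟨i0, hi0⟩ := hex
  have h2 : ∑ l, (if h : l ∈ s then g ⟨l, h⟩ else 0) • w0 K c l = 0 := by
    rw [← hg, ← Finset.sum_subset (Finset.subset_univ s) (fun l _ hl => by rw [dif_neg hl, zero_smul]),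
      ← Finset.sum_coe_sort s]
    refine Finset.sum_congr rfl fun i _ => ?_
    rw [dif_pos i.2]
  have h3 := D4a_zero c (fun l => if h : l ∈ s then g ⟨l, h⟩ else 0) h2 i0 (dif_neg hi0)
  intro i
  have h4 := h3 i
  simp only [i.2, dif_pos] at h4
  exact h4

/-- row D4a -/
theorem w0_span (c : ℕ) : span K (Set.range (w0 K c)) = ⊤ := by
  rw [eq_top_iff, ← (Pi.basisFun K (Fin c)).span_eq]
  apply span_mono
  rintro _ ⟨i, rfl⟩
  refine ⟨i.castSucc, ?_⟩
  rw [D4a_castSucc, Pi.basisFun_apply]

/-- the basis of `S` -/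
private def D4b_b {c : ℕ} (z : Fin (c + 1) → K) : (Fin c ⊕ Fin c) ⊕ Unit → Fin c → K
  | Sum.inl (Sum.inl i) => Pi.single i 1
  | Sum.inl (Sum.inr i) => z i.castSucc • Pi.single i 1
  | Sum.inr _ => fun _ => z (Fin.last c)

private theorem D4b_span {c : ℕ} (z : Fin (c + 1) → K) : span ℚ (Set.range (D4b_b z)) = TT (w0 K c) z := by
  apply le_antisymm
  · rw [span_le]
    rintro _ ⟨x, rfl⟩
    match x with
    | Sum.inl (Sum.inl i) =>
      refine mem_sup_left (subset_span ⟨i.castSucc, ?_⟩)
      exact D4a_castSucc c i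
    | Sum.inl (Sum.inr i) =>
      refine mem_sup_right (subset_span ⟨i.castSucc, ?_⟩)
      change z i.castSucc • w0 K c i.castSucc = z i.castSucc • Pi.single i 1
      rw [D4a_castSucc]
    | Sum.inr _ =>
      refine mem_sup_right (subset_span ⟨Fin.last c, ?_⟩)
      change z (Fin.last c) • w0 K c (Fin.last c) = fun _ => z (Fin.last c)
      rw [D4a_last]
      funext j
      simp
  · refine sup_le (span_le.2 ?_) (span_le.2 ?_)
    · rintro _ ⟨i, rfl⟩
      refine Fin.lastCases ?_ (fun i => ?_) i
      · have h1 : w0 K c (Fin.last c) = ∑ i : Fin c, D4b_b z (Sum.inl (Sum.inl i)) := by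
          rw [D4a_last]
          funext j
          rw [Finset.sum_apply]
          change (1 : K) = ∑ i : Fin c, (Pi.single i 1 : Fin c → K) j
          rw [Finset.sum_eq_single j]
          · rw [Pi.single_eq_same]
          · intro i _ hi
            rw [Pi.single_eq_of_ne (Ne.symm hi)]
          · intro h
            exact absurd (Finset.mem_univ j) h
        rw [h1]
        exact Submodule.sum_mem _ fun i _ => subset_span ⟨_, rfl⟩
      · refine subset_span ⟨Sum.inl (Sum.inl i), ?_⟩
        exact (D4a_castSucc c i).symm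
    · rintro _ ⟨i, rfl⟩
      refine Fin.lastCases ?_ (fun i => ?_) i
      · refine subset_span ⟨Sum.inr (), ?_⟩
        change (fun _ => z (Fin.last c)) = z (Fin.last c) • w0 K c (Fin.last c)
        rw [D4a_last]
        funext j
        simp
      · refine subset_span ⟨Sum.inl (Sum.inr i), ?_⟩
        change z i.castSucc • Pi.single i 1 = z i.castSucc • w0 K c i.castSucc
        rw [D4a_castSucc]

private theorem D4b_li {c : ℕ} (hc : 1 ≤ c) (z : Fin (c + 1) → K) (hnq : ∀ i, nq (z i)) (hrl : ∀ i j, i ≠ j → rl (z i) (z j)) :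
    LinearIndependent ℚ (D4b_b z) := by
  rw [Fintype.linearIndependent_iff]
  intro g hg
  rw [Fintype.sum_sum_type, Fintype.sum_sum_type] at hg
  have h1 : ∀ i : Fin c, (g (Sum.inl (Sum.inl i)) : K) + (g (Sum.inl (Sum.inr i)) : K) * z i.castSucc +
      (g (Sum.inr ()) : K) * z (Fin.last c) = 0 := by
    intro i
    have h2 := congrFun hg i
    rw [Pi.add_apply, Pi.add_apply, Finset.sum_apply, Finset.sum_apply, Finset.sum_apply,
      Finset.sum_eq_single i, Finset.sum_eq_single i] at h2
    · simp only [D4b_b, Pi.smul_apply, Pi.single_eq_same, Finset.univ_unique, Finset.sum_singleton,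
        Pi.zero_apply, smul_eq_mul, mul_one, Rat.smul_def] at h2
      exact h2
    · intro j _ hj
      simp only [D4b_b, Pi.smul_apply, Pi.single_eq_of_ne (Ne.symm hj), smul_zero]
    · intro h
      exact absurd (Finset.mem_univ i) h
    · intro j _ hj
      simp only [D4b_b, Pi.smul_apply, Pi.single_eq_of_ne (Ne.symm hj), smul_zero]
    · intro h
      exact absurd (Finset.mem_univ i) h
  have hs : g (Sum.inr ()) = 0 := by
    have hne : Fin.last c ≠ (⟨0, hc⟩ : Fin c).castSucc := by
      intro h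
      have := congrArg Fin.val h
      simp at this
      omega
    refine (hrl _ _ hne (g (Sum.inr ())) 0 (-(g (Sum.inl (Sum.inl ⟨0, hc⟩)))) (-(g (Sum.inl (Sum.inr ⟨0, hc⟩)))) ?_).1
    have h2 := h1 ⟨0, hc⟩
    push_cast
    linear_combination h2
  have h3 : ∀ i : Fin c, g (Sum.inl (Sum.inr i)) = 0 ∧ g (Sum.inl (Sum.inl i)) = 0 := by
    intro i
    refine (hnq i.castSucc 0 (g (Sum.inl (Sum.inr i))) (g (Sum.inl (Sum.inl i))) ?_).2
    have h2 := h1 i
    rw [hs] at h2
    push_cast at h2 ⊢
    linear_combination h2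
  intro i
  match i with
  | Sum.inl (Sum.inl i) => exact (h3 i).2
  | Sum.inl (Sum.inr i) => exact (h3 i).1
  | Sum.inr _ => exact hs

/-- row D4b: the dimension of `S`. Proof: `S` is the `ℚ`-span of the `2c+1` vectors `e_i`, `z_i e_i` (`i < c`), `z_c (1,..,1)` (since `(1,..,1) = ∑ e_i`), and these are
linearly independent over `ℚ`: if `∑ (p_i + q_i z_i) e_i + s z_c (1,..,1) = 0` then `p_i + q_i z_i + s z_c = 0` for all `i < c`; take `i = 0` (c ≥ 1): `z_c (s + 0 z_0) = - p_0 - q_0 z_0`,
so `s = 0` by `rl (z c) (z 0)`, then `p_i = q_i = 0` by `nq`. -/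
theorem finrank_S {c : ℕ} (hc : 1 ≤ c) (z : Fin (c + 1) → K) (hnq : ∀ i, nq (z i)) (hrl : ∀ i j, i ≠ j → rl (z i) (z j)) :
    finrank ℚ (TT (w0 K c) z) = 2 * c + 1 := by
  rw [← D4b_span, finrank_span_eq_card (D4b_li hc z hnq hrl), Fintype.card_sum, Fintype.card_sum, Fintype.card_fin,
    Fintype.card_unit]
  omega

/-- row D4c: CLAIM A. Proof: `E := (Fin c → K) ⧸ U`, `c' := finrank K E = c - u ≥ 1`, `u = finrank K U`. `w' i := mk (w0 i)` spans `E` (w0_span). `J` from `exists_basis_sub`: `|J| = c'`.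
`S := TT (w0 K c) z`, `S' := S.map mk` (over `ℚ`) `= TT w' z`, `T := TT (w' on J) (z on J) ≤ S'`, `finrank T = 2 c'`. If `S' = T`: for `l ∉ J`, `w' l` and `z l • w' l` are in `T`,
so `w' l = 0` by `TT_zero` (`rl (z l) (z j)`, `l ≠ j`), so `w0 l ∈ U` for all `l ∉ J`; there are `c + 1 - c' = u + 1 ≤ c` such `l`, and the `w0 l` are independent
(w0_li), so `u ≥ u + 1`. Contradiction. So `finrank S' ≥ 2 c' + 1`, and `finrank (S ⊓ U) = finrank S - finrank S' ≤ 2 c + 1 - (2 c' + 1) = 2 u` (rank-nullity for `mk` restricted to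
`S`; its kernel is `S ⊓ U`; finrank_S). -/
theorem claimA {c : ℕ} (hc : 1 ≤ c) (z : Fin (c + 1) → K) (hnq : ∀ i, nq (z i)) (hrl : ∀ i j, i ≠ j → rl (z i) (z j))
    (U : Submodule K (Fin c → K)) (hU : U ≠ ⊤) :
    finrank ℚ (TT (w0 K c) z ⊓ U.restrictScalars ℚ : Submodule ℚ (Fin c → K)) ≤ 2 * finrank K U := by
  classical
  -- the quotient and its dimension
  have hdimE : finrank K ((Fin c → K) ⧸ U) + finrank K U = c := by
    have := Submodule.finrank_quotient_add_finrank U
    rwa [Module.finrank_fin_fun] at this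
  have hUlt : finrank K U < c := by
    have := Submodule.finrank_lt hU
    rwa [Module.finrank_fin_fun] at this
  set w' : Fin (c + 1) → (Fin c → K) ⧸ U := fun i => U.mkQ (w0 K c i) with hw'
  have hspan : span K (Set.range w') = ⊤ := by
    have h1 : Set.range w' = U.mkQ '' (Set.range (w0 K c)) := by
      rw [← Set.range_comp]
      rfl
    rw [h1, Submodule.span_image, w0_span, Submodule.map_top, Submodule.range_mkQ]
  obtain ⟨J, hJ1, hJ2⟩ := exists_basis_sub (K := K) w'
  have hcardJ : Fintype.card J = finrank K ((Fin c → K) ⧸ U) := by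
    have h1 := finrank_span_eq_card hJ1
    rw [hJ2, hspan, finrank_top] at h1
    exact h1.symm
  -- the spaces over `ℚ`
  set f : (Fin c → K) →ₗ[ℚ] ((Fin c → K) ⧸ U) := (U.mkQ).restrictScalars ℚ with hf
  set S : Submodule ℚ (Fin c → K) := TT (w0 K c) z with hS
  have hSfin : FiniteDimensional ℚ S := by
    apply FiniteDimensional.of_finrank_pos
    rw [hS, finrank_S hc z hnq hrl]
    omega
  have hSmap : S.map f = TT w' z := by
    rw [hS]
    unfold TT
    rw [Submodule.map_sup, Submodule.map_span, Submodule.map_span, ← Set.range_comp,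
      ← Set.range_comp]
    rfl
  have hker : LinearMap.ker f = U.restrictScalars ℚ := by
    ext x
    simp [hf]
  have hrn : finrank ℚ (TT w' z) + finrank ℚ (S ⊓ U.restrictScalars ℚ : Submodule ℚ (Fin c → K)) =
      2 * c + 1 := by
    have h1 := LinearMap.finrank_range_add_finrank_ker (f.domRestrict S)
    have h2 : LinearMap.range (f.domRestrict S) = TT w' z := by
      rw [← hSmap, LinearMap.range_domRestrict]
    have h3 : (LinearMap.ker (f.domRestrict S)).map S.subtype = S ⊓ U.restrictScalars ℚ := by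
      rw [← hker, LinearMap.ker_domRestrict, Submodule.map_comap_subtype]
    have h4 := Submodule.finrank_map_subtype_eq S (LinearMap.ker (f.domRestrict S))
    rw [h3] at h4
    rw [h2, ← h4] at h1
    rw [h1, hS, finrank_S hc z hnq hrl]
  -- the subspace `T`
  set v : J → (Fin c → K) ⧸ U := fun j => w' j with hv
  have hTle : TT v (fun j : J => z j) ≤ TT w' z := by
    unfold TT
    refine sup_le_sup (Submodule.span_mono ?_) (Submodule.span_mono ?_)
    · rintro _ ⟨j, rfl⟩
      exact ⟨j, rfl⟩
    · rintro _ ⟨j, rfl⟩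
      exact ⟨j, rfl⟩
  have hTdim : finrank ℚ (TT v (fun j : J => z j)) = 2 * Fintype.card J :=
    finrank_TT hJ1 (fun j => hnq j)
  have hS'fin : FiniteDimensional ℚ (TT w' z) := by
    rw [← hSmap]
    infer_instance
  have hkey : 2 * Fintype.card J + 1 ≤ finrank ℚ (TT w' z) := by
    by_contra hcon
    have hle : finrank ℚ (TT w' z) ≤ finrank ℚ (TT v (fun j : J => z j)) := by
      rw [hTdim]
      omega
    have heq := Submodule.eq_of_le_of_finrank_le hTle hle
    have hzero : ∀ l : Fin (c + 1), l ∉ J → w0 K c l ∈ U := by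
      intro l hl
      have h1 : w' l ∈ TT v (fun j : J => z j) := by
        rw [heq]
        exact Submodule.mem_sup_left (Submodule.subset_span ⟨l, rfl⟩)
      have h2 : z l • w' l ∈ TT v (fun j : J => z j) := by
        rw [heq]
        exact Submodule.mem_sup_right (Submodule.subset_span ⟨l, rfl⟩)
      have h3 := TT_zero hJ1 (z := z l) (ζ := fun j : J => z j) (fun j => hrl l j (by
        rintro rfl
        exact hl j.2)) h1 h2
      rw [hw'] at h3
      simpa using h3
    set s : Finset (Fin (c + 1)) := Finset.univ.filter (fun l => l ∉ J) with hs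
    have hscard : s.card = finrank K U + 1 := by
      have h1 : s.card + (Finset.univ.filter (fun l : Fin (c + 1) => l ∈ J)).card = c + 1 := by
        have := Finset.card_filter_add_card_filter_not (s := (Finset.univ : Finset (Fin (c + 1))))
          (fun l : Fin (c + 1) => l ∈ J)
        rw [Finset.card_univ, Fintype.card_fin] at this
        rw [hs]
        omega
      have h2 : (Finset.univ.filter (fun l : Fin (c + 1) => l ∈ J)).card = Fintype.card J := by
        rw [Fintype.card_subtype]
      omega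
    have hli := w0_li (K := K) c s (by omega)
    have h5 := finrank_span_eq_card hli
    have h6 : span K (Set.range fun i : s => w0 K c i) ≤ U := by
      rw [Submodule.span_le]
      rintro _ ⟨i, rfl⟩
      refine hzero i ?_
      exact (Finset.mem_filter.1 i.2).2
    have h7 := Submodule.finrank_mono h6
    rw [h5, Fintype.card_coe] at h7
    omega
  omega

/-- the vectors `v` with `v, z v ∈ S` -/
def PP {E : Type*} [AddCommGroup E] [Module K E] [Module ℚ E] (S : Submodule ℚ E) (z : K) : Submodule ℚ E :=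
  S ⊓ S.comap (LinearMap.restrictScalars ℚ (LinearMap.lsmul K E z))

/-- row D4d. Proof: `dim_ℚ (Fin c → K) = 4 c`. Let `m := (z • ·) : (Fin c → K) →ₗ[ℚ] (Fin c → K)`, a bijection (`z ≠ 0`). `PP S z = S ⊓ comap m S`,
`finrank (comap m S) = 2 c + 1`, so `finrank (PP S z) ≥ 2 (2c+1) - 4c = 2` (`finrank_sup_add_finrank_inf_eq`). The map `PP S z → S ⧸ H` (or: `PP S z ⊓ comap m H`), `v ↦ z v`,
has one-dimensional target, so `finrank (PP S z ⊓ comap m H) ≥ 1`: take `v ≠ 0` in it; `v ∈ PP S z ≤ H`, `z v ∈ H`. (Dimension count without quotients: `comap m H` has dimension `2c`,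
and `PP S z + comap m H ≤ comap m S` of dimension `2c+1`, so the intersection has dimension `≥ 2 + 2c - (2c+1) = 1`.)
Statement: if `[K : ℚ] = 4`, a `(2c+1)`-dimensional `S ≤ K^c` and a subspace `H ≤ S` of dimension `2c` containing `PP S z` : there is
`v ≠ 0` with `v, z v ∈ H` -/
theorem exists_in_H (h4 : finrank ℚ K = 4) {c : ℕ} (S H : Submodule ℚ (Fin c → K)) (hS : finrank ℚ S = 2 * c + 1)
    (hHS : H ≤ S) (hH : finrank ℚ H = 2 * c) (z : K) (hz : z ≠ 0) (hP : PP S z ≤ H) : ∃ v ≠ 0, v ∈ H ∧ z • v ∈ H := by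
  classical
  have hfK : FiniteDimensional ℚ K := FiniteDimensional.of_finrank_pos (by omega)
  have hfV : FiniteDimensional ℚ (Fin c → K) := inferInstance
  have hV : finrank ℚ (Fin c → K) = 4 * c := by
    rw [Module.finrank_pi_fintype, Finset.sum_const, Finset.card_univ, Fintype.card_fin, h4, smul_eq_mul]
    ring
  generalize hm : (LinearMap.restrictScalars ℚ (LinearMap.lsmul K (Fin c → K) z)) = m
  have hmv : ∀ v, m v = z • v := by
    intro v
    rw [← hm]
    rfl
  have hinj : Function.Injective m := by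
    intro v w hvw
    rw [hmv, hmv] at hvw
    exact smul_right_injective _ hz hvw
  have hcm : ∀ T : Submodule ℚ (Fin c → K), finrank ℚ (T.comap m) = finrank ℚ T := by
    intro T
    have hsurj : Function.Surjective m := LinearMap.surjective_of_injective hinj
    have h1 : (T.comap m).map m = T := Submodule.map_comap_eq_of_surjective hsurj T
    have h2 := LinearMap.finrank_range_of_inj (f := m.domRestrict (T.comap m))
      (by
        intro x y hxy
        exact Subtype.ext (hinj hxy))
    rw [← h2, LinearMap.range_domRestrict, h1]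
  have hA := hcm S
  have hB := hcm H
  have hPdef : PP S z = S ⊓ S.comap m := by
    rw [PP, hm]
  have h1 := Submodule.finrank_sup_add_finrank_inf_eq S (S.comap m)
  have h2 : finrank ℚ (S ⊔ S.comap m : Submodule ℚ (Fin c → K)) ≤ 4 * c := by
    rw [← hV]
    exact Submodule.finrank_le _
  have h3 := Submodule.finrank_sup_add_finrank_inf_eq (PP S z) (H.comap m)
  have h5 : PP S z ⊔ H.comap m ≤ S.comap m := by
    refine sup_le ?_ (Submodule.comap_mono hHS)
    rw [hPdef]
    exact inf_le_right
  have h6 := Submodule.finrank_mono h5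
  rw [← hPdef] at h1
  have h7 : 0 < finrank ℚ (PP S z ⊓ H.comap m : Submodule ℚ (Fin c → K)) := by omega
  have h8 : (PP S z ⊓ H.comap m : Submodule ℚ (Fin c → K)) ≠ ⊥ := by
    intro h0
    rw [h0, finrank_bot] at h7
    exact lt_irrefl _ h7
  obtain ⟨v, hv, hv0⟩ := Submodule.exists_mem_ne_zero_of_ne_bot h8
  refine ⟨v, hv0, hP hv.1, ?_⟩
  have h9 : m v ∈ H := hv.2
  rwa [hmv] at h9

/-- row D4f: a basis adapted to `⨆ PP S (z i) = S`. Proof: `S` is spanned by the set `⋃ i, PP S (z i)` (`Submodule.iSup_eq_span`), so it has a basis contained in this set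
(`exists_linearIndependent`, applied to the set; the chosen subset `b` is linearly independent and spans `S`, hence it has `N` elements: `finrank_span_set_eq_card`,
reindex by `Fin N`). Choose `idx j` with `w j ∈ PP S (z (idx j))`; then `z (idx j) • w j ∈ S = span ℚ (range w)`, so it is `∑ k, M j k • w k`
(`mem_span_range_iff_exists_fun`). -/
theorem exists_adapted {E : Type*} [AddCommGroup E] [Module K E] [Module ℚ E] {m N : ℕ} (S : Submodule ℚ E) (hS : finrank ℚ S = N)
    (hfin : FiniteDimensional ℚ S) (z : Fin m → K) (h : ⨆ i, PP S (z i) = S) :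
    ∃ (idx : Fin N → Fin m) (w : Fin N → E) (M : Matrix (Fin N) (Fin N) ℚ), span ℚ (Set.range w) = S ∧
      ∀ j, z (idx j) • w j = ∑ k, (M j k) • w k := by
  classical
  have hspan : span ℚ (⋃ i, (PP S (z i) : Set E)) = S := by
    rw [← Submodule.iSup_eq_span]
    exact h
  obtain ⟨b, hb1, hb2, hb3⟩ := exists_linearIndependent ℚ (⋃ i, (PP S (z i) : Set E))
  have hbS : span ℚ b = S := hb2.trans hspan
  let B : Basis b ℚ (span ℚ (Set.range ((↑) : b → E))) := Basis.span hb3
  have hfin' : Module.Finite ℚ (span ℚ (Set.range ((↑) : b → E))) := by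
    rw [Subtype.range_coe, hbS]
    exact hfin
  have : Finite b := Module.Finite.finite_basis B
  have := Fintype.ofFinite b
  have hcard : Fintype.card b = N := by
    rw [← hS, ← finrank_eq_card_basis B, Subtype.range_coe, hbS]
  let e : Fin N ≃ b := (Fintype.equivFinOfCardEq hcard).symm
  have hw : ∀ j : Fin N, ∃ i, (e j : E) ∈ PP S (z i) := by
    intro j
    have := hb1 (e j).2
    rwa [Set.mem_iUnion] at this
  choose idx hidx using hw
  have hrange : Set.range (fun j => (e j : E)) = b := by
    ext y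
    constructor
    · rintro ⟨j, rfl⟩
      exact (e j).2
    · intro hy
      exact ⟨e.symm ⟨y, hy⟩, by simp⟩
  have hspanw : span ℚ (Set.range (fun j => (e j : E))) = S := by
    rw [hrange]
    exact hbS
  have hM : ∀ j, ∃ c : Fin N → ℚ, ∑ k, c k • (e k : E) = z (idx j) • (e j : E) := by
    intro j
    have h2 : z (idx j) • (e j : E) ∈ S := (hidx j).2
    rw [← hspanw] at h2
    exact (Submodule.mem_span_range_iff_exists_fun ℚ).1 h2
  choose M hM using hM
  exact ⟨idx, fun j => e j, Matrix.of M, hspanw, fun j => (hM j).symm⟩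

end

theorem D4h_den {ι : Type*} [Fintype ι] (f : ι → ℚ) :
    ∃ (d : ℕ) (g : ι → ℤ), 0 < d ∧ ∀ i, ((g i : ℤ) : ℚ) = d * f i := by
  classical
  refine ⟨∏ i, (f i).den, fun i => (∏ j ∈ Finset.univ.erase i, ((f j).den : ℤ)) * (f i).num, ?_, ?_⟩
  · exact Finset.prod_pos fun i _ => (f i).den_pos
  · intro i
    have h1 : (∏ j, ((f j).den : ℚ)) = (∏ j ∈ Finset.univ.erase i, ((f j).den : ℚ)) * ((f i).den : ℚ) := by
      rw [Finset.prod_erase_mul _ _ (Finset.mem_univ i)]
    have h2 : ((f i).den : ℚ) * f i = (f i).num := Rat.den_mul_eq_num (f i)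
    push_cast
    rw [h1, mul_assoc, h2]

/-- row D4h: the vector `g`. Proof: `A := M - Mᵀ` satisfies `Aᵀ = -A`, so `det A = det Aᵀ = det (-A) = (-1)^n det A = - det A` (n odd) and `det A = 0`; there is `v ≠ 0` over `ℚ` with
`A v = 0` (`Matrix.exists_mulVec_eq_zero_iff`); multiply by a common denominator of the entries (as in exists_d). -/
theorem exists_g {n c : ℕ} (hn : n = 2 * c + 1) (M : Matrix (Fin n) (Fin n) ℚ) :
    ∃ g : Fin n → ℤ, g ≠ 0 ∧ M *ᵥ (fun j => (g j : ℚ)) = Mᵀ *ᵥ (fun j => (g j : ℚ)) := by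
  obtain ⟨v, hv0, hv⟩ : ∃ v : Fin n → ℚ, v ≠ 0 ∧ (M - Mᵀ) *ᵥ v = 0 := by
    rw [Matrix.exists_mulVec_eq_zero_iff]
    have h1 : (M - Mᵀ).det = (-(M - Mᵀ)).det := by
      rw [← Matrix.det_transpose]
      congr 1
      rw [Matrix.transpose_sub, Matrix.transpose_transpose, neg_sub]
    rw [Matrix.det_neg, Fintype.card_fin] at h1
    have h2 : ((-1 : ℚ)) ^ n = -1 := by
      rw [hn, pow_succ, pow_mul]
      norm_num
    rw [h2] at h1
    linarith
  obtain ⟨d, g, hd, hg⟩ := D4h_den v
  have hgv : (fun j => (g j : ℚ)) = (d : ℚ) • v := by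
    funext j
    rw [hg j, Pi.smul_apply, smul_eq_mul]
  have hdq : (d : ℚ) ≠ 0 := by exact_mod_cast hd.ne'
  refine ⟨g, ?_, ?_⟩
  · rintro rfl
    apply hv0
    have h3 : (d : ℚ) • v = 0 := by
      rw [← hgv]
      funext j
      simp
    exact (smul_eq_zero.1 h3).resolve_left hdq
  · rw [hgv, Matrix.mulVec_smul, Matrix.mulVec_smul]
    rw [Matrix.sub_mulVec, sub_eq_zero] at hv
    rw [hv]

/-- row D4h: the common denominator. Proof: `d := ∏ i, ∏ j, (M i j).den`. -/
theorem exists_d {n : ℕ} (M : Matrix (Fin n) (Fin n) ℚ) :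
    ∃ (d : ℕ) (dM : Matrix (Fin n) (Fin n) ℤ), 0 < d ∧ ∀ i j, ((dM i j : ℤ) : ℚ) = d * M i j := by
  obtain ⟨d, g, hd, hg⟩ := D4h_den (fun q : Fin n × Fin n => M q.1 q.2)
  exact ⟨d, Matrix.of fun i j => g (i, j), hd, fun i j => hg (i, j)⟩

/-- row D4i: no relations between inequivalent points. Proof: let `z (a + b w) = a' + b' w`. If `a + b w ≠ 0` then `z = (b' w + a') / (b w + a)`; if `b' a - a' b ≠ 0` this is
`GEq w z`; otherwise the vectors `(b', a')` and `(b, a)` are proportional and `z` is rational, against `NQ z`. So `a + b w = 0`: but then also `a' + b' w = 0`; if `b ≠ 0`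
then `w` is rational: `hw` (NQ w) gives `a = b = 0`. -/
theorem rl_of (K : Subfield ℂ) {z w : K} (hz : NQ (z : ℂ)) (hw : NQ (w : ℂ)) (h : ¬ GEq (w : ℂ) (z : ℂ)) : rl z w := by
  intro a b a' b' h1
  have h2 : (z : ℂ) * ((a : ℂ) + (b : ℂ) * (w : ℂ)) = (a' : ℂ) + (b' : ℂ) * (w : ℂ) := by
    have h2' := congrArg (fun x : K => (x : ℂ)) h1
    push_cast at h2'
    exact h2'
  by_cases h3 : (a : ℂ) + (b : ℂ) * (w : ℂ) = 0
  · have h4 := hw 0 b a (by
      push_cast
      linear_combination h3)
    exact ⟨h4.2.2, h4.2.1⟩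
  · by_cases h4 : b' * a - a' * b = 0
    · have h5 : (b' : ℂ) * a - a' * b = 0 := by exact_mod_cast h4
      have h6 : (a : ℂ) * z - a' = 0 := by
        have h7 : ((a : ℂ) * z - a') * ((a : ℂ) + (b : ℂ) * (w : ℂ)) = 0 := by
          linear_combination (a : ℂ) * h2 + (w : ℂ) * h5
        exact (mul_eq_zero.1 h7).resolve_right h3
      have h8 : (b : ℂ) * z - b' = 0 := by
        have h9 : ((b : ℂ) * z - b') * ((a : ℂ) + (b : ℂ) * (w : ℂ)) = 0 := by
          linear_combination (b : ℂ) * h2 - h5
        exact (mul_eq_zero.1 h9).resolve_right h3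
      have h10 := hz 0 a (-a') (by
        push_cast
        linear_combination h6)
      have h11 := hz 0 b (-b') (by
        push_cast
        linear_combination h8)
      exact ⟨h10.2.1, h11.2.1⟩
    · exfalso
      refine h ⟨b', a', b, a, h4, ?_, ?_⟩
      · intro h5
        exact h3 (by linear_combination h5)
      · have h6 : (b : ℂ) * (w : ℂ) + a ≠ 0 := fun h5 => h3 (by linear_combination h5)
        rw [eq_div_iff h6]
        linear_combination h2

/-- row D4i -/
theorem nq_of (K : Subfield ℂ) {z : K} (hz : NQ (z : ℂ)) : nq z := by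
  intro a b c h
  refine hz a b c ?_
  have h2 := congrArg (fun x : K => (x : ℂ)) h
  push_cast at h2
  exact h2

end Pool.Agent.LT.DA
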