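import Mathlib
import Pool.Agent.Lib.MP_f58a57_nt.LT.D4

/-!
# MP_f58a57_nt, large transcendence degree: D algebra 5, the flag lemma (assembly)
-/

open Module Submodule Complex Matrix

noncomputable section

namespace Pool.Agent.LT.DA

theorem coe_dq (K : Subfield ℂ) {n : ℕ} (x : Fin n → K) (q : Fin n → ℚ) :
    ((dq x q : K) : ℂ) = (fun j => (x j : ℂ)) ⬝ᵥ (fun j => ((q j : ℚ) : ℂ)) := by
  rw [dq, dotProduct]
  push_cast
  rfl

/-- `x · (d q) = d (x · q)` -/
theorem coe_dq_int (K : Subfield ℂ) {n : ℕ} (x : Fin n → K) (q : Fin n → ℚ) {d : ℕ} {g : Fin n → ℤ}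
    (hg : ∀ i, ((g i : ℤ) : ℚ) = d * q i) : (fun j => (x j : ℂ)) ⬝ᵥ zv g = d * ((dq x q : K) : ℂ) := by
  rw [coe_dq, dotProduct, dotProduct, Finset.mul_sum]
  apply Finset.sum_congr rfl
  intro j _
  have h1 : ((g j : ℤ) : ℂ) = (d : ℂ) * ((q j : ℚ) : ℂ) := by
    have := congrArg (fun t : ℚ => (t : ℂ)) (hg j)
    push_cast at this
    exact this
  rw [zv, h1]
  ring

/-- the row space over `K` of the matrix `Z - M` -/
def RK (K : Subfield ℂ) {n : ℕ} (ζ : Fin n → K) (M : Matrix (Fin n) (Fin n) ℚ) : Submodule K (Fin n → K) :=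
  span K (Set.range fun j => fun k => (Matrix.diagonal ζ - M.map (fun q : ℚ => (q : K))) j k)

theorem coe_row (K : Subfield ℂ) {n : ℕ} (ζ : Fin n → K) (M : Matrix (Fin n) (Fin n) ℚ) (j k : Fin n) :
    (((Matrix.diagonal ζ - M.map (fun q : ℚ => (q : K))) j k : K) : ℂ) =
      (Matrix.diagonal (fun j => (ζ j : ℂ)) - M.map (fun q : ℚ => (q : ℂ))) j k := by
  rw [Matrix.sub_apply, Matrix.sub_apply, Matrix.map_apply, Matrix.map_apply, Matrix.diagonal_apply, Matrix.diagonal_apply]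
  split_ifs <;> push_cast <;> rfl

theorem RK_kills (K : Subfield ℂ) {n : ℕ} (ζ : Fin n → K) (M : Matrix (Fin n) (Fin n) ℚ) :
    ∀ y ∈ RK K ζ M, ∀ u, (Matrix.diagonal (fun j => (ζ j : ℂ)) - M.map (fun q : ℚ => (q : ℂ))) *ᵥ u = 0 →
      (fun j => (y j : ℂ)) ⬝ᵥ u = 0 := by
  intro y hy u hu
  induction hy using Submodule.span_induction with
  | mem y hy =>
    obtain ⟨j, rfl⟩ := hy
    have h1 := congrFun hu j
    rw [Matrix.mulVec] at h1
    have h2 : (fun k => (((Matrix.diagonal ζ - M.map (fun q : ℚ => (q : K))) j k : K) : ℂ)) =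
        fun k => (Matrix.diagonal (fun j => (ζ j : ℂ)) - M.map (fun q : ℚ => (q : ℂ))) j k := by
      funext k
      exact coe_row K ζ M j k
    exact (congrArg (fun w => w ⬝ᵥ u) h2).trans h1
  | zero => simp [dotProduct]
  | add a b _ _ ha hb =>
    have : (fun j => (((a + b) j : K) : ℂ)) = (fun j => (a j : ℂ)) + fun j => (b j : ℂ) := by
      funext j; simp
    rw [this, add_dotProduct, ha, hb, add_zero]
  | smul t a _ ha =>
    have : (fun j => (((t • a) j : K) : ℂ)) = (t : ℂ) • fun j => (a j : ℂ) := by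
      funext j; simp
    rw [this, smul_dotProduct, ha, smul_zero]

theorem finrank_RK (K : Subfield ℂ) {n c : ℕ} (hn : n = 2 * c + 1) (ζ : Fin n → K) (M : Matrix (Fin n) (Fin n) ℚ)
    (hker : finrank ℂ (LinearMap.ker (Matrix.mulVecLin (Matrix.diagonal (fun j => (ζ j : ℂ)) - M.map (fun q : ℚ => (q : ℂ))))) = c) :
    finrank K (RK K ζ M) = c + 1 := by
  set P := Matrix.diagonal (fun j => (ζ j : ℂ)) - M.map (fun q : ℚ => (q : ℂ)) with hP
  rw [RK, finrank_coe]
  have h1 : (fun i => fun j => (((Matrix.diagonal ζ - M.map (fun q : ℚ => (q : K))) i j : K) : ℂ)) = P.row := by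
    funext i j
    exact coe_row K ζ M i j
  rw [h1, ← Matrix.rank_eq_finrank_span_row]
  have h2 := LinearMap.finrank_range_add_finrank_ker (Matrix.mulVecLin P)
  rw [hker, finrank_fin_fun] at h2
  have h3 : P.rank = finrank ℂ (LinearMap.range (Matrix.mulVecLin P)) := rfl
  omega

/-- the vectors killed by linearly independent functionals -/
theorem finrank_kill {n r : ℕ} (y : Fin r → Fin n → ℂ) (hy : LinearIndependent ℂ y) :
    finrank ℂ (LinearMap.ker (Matrix.mulVecLin (Matrix.of y))) + r = n := by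
  have h1 := LinearMap.finrank_range_add_finrank_ker (Matrix.mulVecLin (Matrix.of y))
  have h2 : (Matrix.of y).rank = r := by
    have := LinearIndependent.rank_matrix (M := Matrix.of y) hy
    simpa using this
  have h3 : (Matrix.of y).rank = finrank ℂ (LinearMap.range (Matrix.mulVecLin (Matrix.of y))) := rfl
  rw [finrank_fin_fun] at h1
  omega

/-- the flag lemma -/
theorem thmFlag0 : ThmFlag := by
  intro K hK c z hzK him hNQ hG M hrk
  obtain ⟨Δ, hΔ1, hΔ2, hΔ3, W, hW, hWf, hKW⟩ := qf_real K hK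
  set P := Matrix.diagonal z - M.map (fun q : ℚ => (q : ℂ)) with hP
  let ζ : Fin (2 * c + 1) → K := fun j => ⟨z j, hzK j⟩
  have hker : finrank ℂ (LinearMap.ker (Matrix.mulVecLin P)) = c := le_antisymm (ker_le rfl z him M) hrk
  have hRc : finrank K (RK K ζ M) = c + 1 := finrank_RK K rfl ζ M hker
  have hnq : ∀ k, nq (ζ k) := fun k => nq_of K (hNQ k)
  have hrl : ∀ k l, ζ k = ζ l ∨ rl (ζ k) (ζ l) := by
    intro k l
    by_cases h : z l = z k
    · left; exact Subtype.ext h.symm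
    · right; exact rl_of K (hNQ k) (hNQ l) (hG l k h)
  have hGs := Gs ζ M hnq hrl (RK K ζ M) (fun j => subset_span ⟨j, rfl⟩)
  obtain ⟨x, hx⟩ := exists_flag K hK.dim W hW hWf hKW hΔ3 c rfl (RK K ζ M) hRc hGs
  have hreal : ∀ b : Fin (2 * c + 1) → ℝ, P *ᵥ rv b = 0 → b = 0 := real_ker z him M
  have hli := flag_li K c (RK K ζ M) x hx
  have hkill : ∀ y ∈ RK K ζ M, ∀ u, P *ᵥ u = 0 → (fun j => (y j : ℂ)) ⬝ᵥ u = 0 := RK_kills K ζ M
  refine ⟨Δ, fun (i : Fin (c + 1)) (j : Fin (2 * c + 1)) => (x i j : ℂ), hΔ1, ?_, hli, ?_, ?_, ?_⟩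
  · intro u
    constructor
    · intro hu i
      exact hkill (x i) (hx i (by omega)).mem u hu
    · intro hu
      have h1 : LinearMap.ker (Matrix.mulVecLin P) ≤ LinearMap.ker (Matrix.mulVecLin (Matrix.of fun (i : Fin (c + 1)) (j : Fin (2 * c + 1)) => (x i j : ℂ))) := by
        intro v hv
        have hv' : P *ᵥ v = 0 := hv
        rw [LinearMap.mem_ker, Matrix.mulVecLin_apply]
        funext i
        exact hkill (x i) (hx i (by omega)).mem v hv'
      have h2 := finrank_kill _ hli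
      have h3 := Submodule.eq_of_le_of_finrank_le h1 (by rw [hker]; omega)
      have h4 : u ∈ LinearMap.ker (Matrix.mulVecLin (Matrix.of fun (i : Fin (c + 1)) (j : Fin (2 * c + 1)) => (x i j : ℂ))) := by
        rw [LinearMap.mem_ker, Matrix.mulVecLin_apply]
        funext i
        exact hu i
      rw [← h3] at h4
      exact h4
  · intro b
    have h0 : ∀ j, ((x 0 j : K) : ℂ).im = 0 := by
      intro j
      have h1 := (hx 0 (by omega)).real (Pi.single j 1) (by intro l hl; exact absurd hl (by omega))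
      have h2 : dq (x 0) (Pi.single j 1) = x 0 j := by
        rw [dq, Finset.sum_eq_single j]
        · simp
        · intro k _ hk
          simp [Pi.single_eq_of_ne hk]
        · intro h; exact absurd (Finset.mem_univ j) h
      rw [h2] at h1
      exact h1
    rw [dotProduct, Complex.im_sum]
    apply Finset.sum_eq_zero
    intro j _
    simp only [rv, Complex.mul_im, Complex.ofReal_im, mul_zero, Complex.ofReal_re, zero_add]
    rw [show ((x ((0 : Fin (c + 1)) : ℕ) j : K) : ℂ).im = 0 from h0 j, zero_mul]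
  · intro i hi
    have hic : i < c := by omega
    obtain ⟨a, ha, b, hb, ha1, hb1⟩ := (hx i hic.le).two hic
    have him2 := im_ne rfl P hreal hrk K hΔ3 (RK K ζ M) hkill x hx i hic a b ha hb ha1 hb1
    obtain ⟨d, g, hd, hg⟩ := D4h_den (fun t : Fin (2 * c + 1) × Bool => if t.2 then a t.1 else b t.1)
    have hga : ∀ j, (((fun j => g (j, true)) j : ℤ) : ℚ) = d * a j := fun j => by simpa using hg (j, true)
    have hgb : ∀ j, (((fun j => g (j, false)) j : ℤ) : ℚ) = d * b j := fun j => by simpa using hg (j, false)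
    refine ⟨fun j => g (j, true), fun j => g (j, false), d, hd, ?_, ?_, ?_, ?_⟩
    · intro l hl
      have h1 : dq (x l) a = 0 := ha l hl
      have h2 : dq (x l) b = 0 := hb l hl
      constructor
      · rw [coe_dq_int K (x l) a hga, h1]; simp
      · rw [coe_dq_int K (x l) b hgb, h2]; simp
    · show (fun j => (x i j : ℂ)) ⬝ᵥ _ = _
      rw [coe_dq_int K (x i) a hga, ha1, mul_one]
    · show (fun j => (x i j : ℂ)) ⬝ᵥ _ = _
      rw [coe_dq_int K (x i) b hgb, hb1]
    · show ((fun j => (x (i + 1) j : ℂ)) ⬝ᵥ _ - _ * ((fun j => (x (i + 1) j : ℂ)) ⬝ᵥ _)).im ≠ 0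
      rw [coe_dq_int K (x (i + 1)) a hga, coe_dq_int K (x (i + 1)) b hgb]
      have h3 : (d : ℂ) * ((dq (x (i + 1)) b : K) : ℂ) - ((Real.sqrt Δ : ℝ) : ℂ) * (d * ((dq (x (i + 1)) a : K) : ℂ)) =
          ((d : ℝ) : ℂ) * (((dq (x (i + 1)) b : K) : ℂ) - ((Real.sqrt Δ : ℝ) : ℂ) * ((dq (x (i + 1)) a : K) : ℂ)) := by
        push_cast
        ring
      rw [h3, Complex.im_ofReal_mul]
      exact mul_ne_zero (by exact_mod_cast hd.ne') him2
  · obtain ⟨a, ha, ha1⟩ := (hx c le_rfl).one rfl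
    obtain ⟨d, g, hd, hg⟩ := D4h_den a
    refine ⟨g, ?_, ?_, ?_⟩
    · intro l hl
      have h1 : dq (x l) a = 0 := ha l hl
      rw [coe_dq_int K (x l) a hg, h1]
      simp
    · show (fun j => (x ((Fin.last c : Fin (c + 1)) : ℕ) j : ℂ)) ⬝ᵥ _ ≠ 0
      rw [coe_dq_int K (x _) a hg, Fin.val_last]
      refine mul_ne_zero (by exact_mod_cast hd.ne') ?_
      intro h2
      exact ha1 (Subtype.ext h2)
    · show ((fun j => (x ((Fin.last c : Fin (c + 1)) : ℕ) j : ℂ)) ⬝ᵥ _).im = 0
      rw [coe_dq_int K (x _) a hg, Fin.val_last]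
      have h3 := (hx c le_rfl).real a ha
      have h4 : (d : ℂ) * ((dq (x c) a : K) : ℂ) = ((d : ℝ) : ℂ) * ((dq (x c) a : K) : ℂ) := by push_cast; rfl
      rw [h4, Complex.im_ofReal_mul, h3, mul_zero]

end Pool.Agent.LT.DA

/-- the flag lemma -/
theorem Pool.Agent.LT.thmFlag : Pool.Agent.LT.ThmFlag := Pool.Agent.LT.DA.thmFlag0
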