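import Mathlib
import Pool.Agent.Lib.MP_f58a57_nt.LT.D4

/-!
# MP_f58a57_nt, large transcendence degree: D algebra 6, existence of the matrix `M` (assembly)
-/

open Module Submodule Complex Matrix

noncomputable section

namespace Pool.Agent.LT.DA

section

variable {K : Type*} [Field K] [CharZero K]

theorem nq_ne_zero {z : K} (h : nq z) : z ≠ 0 := by
  rintro rfl
  have := (h 0 1 0 (by simp)).2.1
  exact one_ne_zero this

/-- CLAIM B -/
theorem claimB (h4 : finrank ℚ K = 4) {c : ℕ} (hc : 1 ≤ c) (z : Fin (c + 1) → K) (hnq : ∀ i, nq (z i))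
    (hrl : ∀ i j, i ≠ j → rl (z i) (z j)) : ⨆ i, PP (TT (w0 K c) z) (z i) = TT (w0 K c) z := by
  have hfK : FiniteDimensional ℚ K := FiniteDimensional.of_finrank_pos (by omega)
  set S := TT (w0 K c) z with hS
  have hSd : finrank ℚ S = 2 * c + 1 := finrank_S hc z hnq hrl
  set Q := ⨆ i, PP S (z i) with hQ
  have hQS : Q ≤ S := iSup_le fun i => inf_le_left
  by_contra hne
  have hlt : Q < S := lt_of_le_of_ne hQS hne
  -- a hyperplane
  obtain ⟨H, hQH, hHS, hHd⟩ : ∃ H : Submodule ℚ (Fin c → K), Q ≤ H ∧ H ≤ S ∧ finrank ℚ H = 2 * c := by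
    have h1 : Q.comap S.subtype < ⊤ := by
      rw [lt_top_iff_ne_top]
      intro h
      apply hne
      apply le_antisymm hQS
      intro x hx
      have : (⟨x, hx⟩ : S) ∈ Q.comap S.subtype := by rw [h]; exact mem_top
      exact this
    obtain ⟨f, hf0, hf⟩ := Submodule.exists_le_ker_of_lt_top _ h1
    refine ⟨(LinearMap.ker f).map S.subtype, ?_, ?_, ?_⟩
    · intro x hx
      exact ⟨⟨x, hQS hx⟩, hf hx, rfl⟩
    · rintro _ ⟨x, _, rfl⟩
      exact x.2
    · rw [Submodule.finrank_map_subtype_eq]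
      have h2 := LinearMap.finrank_range_add_finrank_ker f
      have h3 : finrank ℚ (LinearMap.range f) = 1 := by
        rw [LinearMap.range_eq_top.mpr (LinearMap.surjective hf0), finrank_top, finrank_self]
      omega
  have hex : ∀ i, ∃ v ≠ 0, v ∈ H ∧ z i • v ∈ H := fun i =>
    exists_in_H h4 S H hSd hHS hHd (z i) (nq_ne_zero (hnq i)) ((le_iSup (fun i => PP S (z i)) i).trans hQH)
  choose v hv0 hvH hzvH using hex
  set U := span K (Set.range v) with hU
  obtain ⟨J, hJ1, hJ2⟩ := exists_basis_sub (K := K) v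
  classical
  have hu : finrank K U = Fintype.card J := by
    rw [hU, ← hJ2]; exact finrank_span_eq_card hJ1
  set T := TT (fun j : J => v j) (fun j : J => z j) with hT
  have hTd : finrank ℚ T = 2 * Fintype.card J := finrank_TT hJ1 fun j => hnq j
  have hTle : T ≤ H ⊓ U.restrictScalars ℚ := by
    rw [hT, TT]
    apply sup_le
    · rw [span_le]
      rintro _ ⟨j, rfl⟩
      exact ⟨hvH j, subset_span ⟨(j : Fin (c + 1)), rfl⟩⟩
    · rw [span_le]
      rintro _ ⟨j, rfl⟩
      exact ⟨hzvH j, U.smul_mem _ (subset_span ⟨(j : Fin (c + 1)), rfl⟩)⟩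
  have hHU : finrank ℚ (H ⊓ U.restrictScalars ℚ : Submodule ℚ (Fin c → K)) ≤ 2 * Fintype.card J := by
    by_contra hgt
    rw [not_le] at hgt
    have hUt : U ≠ ⊤ := by
      intro h
      rw [h, finrank_top, finrank_fin_fun] at hu
      have h5 : finrank ℚ (H ⊓ U.restrictScalars ℚ : Submodule ℚ (Fin c → K)) ≤ finrank ℚ H := Submodule.finrank_mono inf_le_left
      omega
    have h6 := claimA hc z hnq hrl U hUt
    have h7 : finrank ℚ (H ⊓ U.restrictScalars ℚ : Submodule ℚ (Fin c → K)) ≤ finrank ℚ (S ⊓ U.restrictScalars ℚ : Submodule ℚ (Fin c → K)) :=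
      Submodule.finrank_mono (inf_le_inf_right _ hHS)
    rw [← hS] at h6
    omega
  have hTeq : T = H ⊓ U.restrictScalars ℚ := Submodule.eq_of_le_of_finrank_le hTle (by rw [hTd]; exact hHU)
  obtain ⟨l, hl⟩ : ∃ l : Fin (c + 1), l ∉ J := by
    by_contra hall
    push Not at hall
    have h8 : Fintype.card J = c + 1 := by
      have : J = Set.univ := Set.eq_univ_of_forall hall
      subst this
      simp
    have h9 : finrank K U ≤ c := by
      have := Submodule.finrank_le U
      rwa [finrank_fin_fun] at this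
    omega
  apply hv0 l
  apply TT_zero hJ1 (ζ := fun j : J => z j) (z := z l)
  · intro j
    apply hrl
    intro h
    exact hl (h ▸ j.2)
  · rw [← hT, hTeq]
    exact ⟨hvH l, subset_span ⟨l, rfl⟩⟩
  · rw [← hT, hTeq]
    exact ⟨hzvH l, U.smul_mem _ (subset_span ⟨l, rfl⟩)⟩

/-- the matrix `M`, over `K` -/
theorem exists_M (h4 : finrank ℚ K = 4) (c : ℕ) (z : Fin (c + 1) → K) (hnq : ∀ i, nq (z i)) (hrl : ∀ i j, i ≠ j → rl (z i) (z j)) :
    ∃ (idx : Fin (2 * c + 1) → Fin (c + 1)) (M : Matrix (Fin (2 * c + 1)) (Fin (2 * c + 1)) ℚ) (v : Fin c → Fin (2 * c + 1) → K),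
      LinearIndependent K v ∧ ∀ i, (Matrix.diagonal (fun j => z (idx j)) - M.map (fun q : ℚ => (q : K))) *ᵥ v i = 0 := by
  rcases Nat.eq_zero_or_pos c with rfl | hc
  · exact ⟨fun _ => 0, 0, fun i => i.elim0, linearIndependent_empty_type, fun i => i.elim0⟩
  have hfK : FiniteDimensional ℚ K := FiniteDimensional.of_finrank_pos (by omega)
  have hB := claimB h4 hc z hnq hrl
  obtain ⟨idx, w, M, hw, hM⟩ := exists_adapted (TT (w0 K c) z) (finrank_S hc z hnq hrl) inferInstance z hB
  refine ⟨idx, M, fun i j => w j i, ?_, ?_⟩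
  · rw [Fintype.linearIndependent_iff]
    intro a ha i
    have h1 : ∀ j, ∑ i, a i * w j i = 0 := by
      intro j
      have := congrFun ha j
      simpa [Finset.sum_apply] using this
    -- the functional `a` kills everything
    let f : (Fin c → K) →ₗ[K] K := ∑ i, a i • LinearMap.proj i
    have hf : ∀ x, f x = ∑ i, a i * x i := by
      intro x
      simp [f]
    have h2 : span K (Set.range w) = ⊤ := by
      rw [eq_top_iff, ← w0_span c, span_le]
      rintro _ ⟨t, rfl⟩
      have h3 : w0 K c t ∈ span ℚ (Set.range w) := by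
        rw [hw]
        exact le_sup_left (a := span ℚ (Set.range (w0 K c))) (subset_span ⟨t, rfl⟩)
      have h4 : span ℚ (Set.range w) ≤ (span K (Set.range w)).restrictScalars ℚ := by
        rw [span_le]; exact subset_span
      exact h4 h3
    have h5 : f = 0 := by
      apply LinearMap.ext_on_range h2
      intro j
      rw [hf, h1, LinearMap.zero_apply]
    have h6 : f (Pi.single i 1) = 0 := by rw [h5, LinearMap.zero_apply]
    rw [hf, Finset.sum_eq_single i] at h6
    · simpa using h6
    · intro k _ hk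
      simp [Pi.single_eq_of_ne hk]
    · intro h; exact absurd (Finset.mem_univ i) h
  · intro i
    funext j
    rw [Matrix.sub_mulVec, Pi.sub_apply, Matrix.mulVec_diagonal, Pi.zero_apply, sub_eq_zero]
    have h1 := congrFun (hM j) i
    rw [Pi.smul_apply, smul_eq_mul, Finset.sum_apply] at h1
    rw [h1, Matrix.mulVec, dotProduct]
    apply Finset.sum_congr rfl
    intro k _
    rw [Pi.smul_apply, Matrix.map_apply, Algebra.smul_def]
    rfl

end

/-- THEOREM D1 -/
theorem thmD10 : ThmD1 := by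
  intro K hK c z hzK him hNQ hG
  let ζ : Fin (c + 1) → K := fun i => ⟨z i, hzK i⟩
  have hnq : ∀ i, nq (ζ i) := fun i => nq_of K (hNQ i)
  have hrl : ∀ i j, i ≠ j → rl (ζ i) (ζ j) := fun i j hij => rl_of K (hNQ i) (hNQ j) (hG j i hij.symm)
  obtain ⟨idx, M, v, hv, hMv⟩ := exists_M hK.dim c ζ hnq hrl
  obtain ⟨d, dM, hd, hdM⟩ := exists_d M
  obtain ⟨g, hg, hMg⟩ := exists_g (n := 2 * c + 1) (c := c) rfl M
  have hker : c ≤ Module.finrank ℂ (LinearMap.ker (Matrix.mulVecLin (Matrix.diagonal (fun j => z (idx j)) - M.map (fun q : ℚ => (q : ℂ))))) := by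
    set V := LinearMap.ker (Matrix.mulVecLin (Matrix.diagonal (fun j => z (idx j)) - M.map (fun q : ℚ => (q : ℂ)))) with hV
    have h1 : ∀ i, (fun j => ((v i j : K) : ℂ)) ∈ V := by
      intro i
      rw [hV, LinearMap.mem_ker, Matrix.mulVecLin_apply]
      funext j
      have h2 := congrArg (fun t : K => (t : ℂ)) (congrFun (hMv i) j)
      simp only [Matrix.mulVec, dotProduct] at h2 ⊢
      push_cast at h2
      rw [Pi.zero_apply]
      rw [Pi.zero_apply] at h2
      refine Eq.trans ?_ h2
      apply Finset.sum_congr rfl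
      intro k _
      congr 1
      rw [Matrix.sub_apply, Matrix.sub_apply, Matrix.map_apply, Matrix.map_apply, Matrix.diagonal_apply, Matrix.diagonal_apply]
      split_ifs <;> push_cast <;> rfl
    have h3 : LinearIndependent ℂ (fun i : Fin c => (⟨fun j => ((v i j : K) : ℂ), h1 i⟩ : V)) := by
      apply LinearIndependent.of_comp V.subtype
      exact li_KC K hv
    have h4 := h3.fintype_card_le_finrank
    simpa using h4
  exact ⟨⟨fun j => z (idx j), fun j => him _, M, d, hd, dM, hdM, g, hg, hMg, hker⟩, idx, fun j => rfl⟩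

end Pool.Agent.LT.DA

/-- THEOREM D1 -/
theorem Pool.Agent.LT.thmD1 : Pool.Agent.LT.ThmD1 := Pool.Agent.LT.DA.thmD10
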