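import Pool.Agent.Lib.MP_f58a57_nt.LT.Defs
import Pool.Agent.Lib.MP_f58a57_nt.Defs
import Pool.Agent.Lib.MP_f58a57_nt.P.Defs

/-!
# MP_f58a57_nt, large transcendence degree, part E: definitions

The kernel `Ph` built from the odd theta function of the library (base point `1/2`), the variables `Va`, their values `vv`, the derivations
`Du`, `Ds` and the operators `nabU`, `nabS` on integer polynomials.
-/

open Complex MvPolynomial Matrix

noncomputable section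

namespace Pool.Agent.LT

/-- THEOREM E -/
def ThmE : Prop :=
  ∀ (c : ℕ) (D : Dat c), (∀ j, NQ (D.z j)) → (∀ j, deriv MSD.jj (D.z j) ≠ 0) →
    ∃ (Φ : (Fin (2 * c + 1) → ℂ) → (Fin (2 * c + 1) → ℂ) → ℂ) (C C' : (Fin (2 * c + 1) → ℤ) → ℂ), Ker D Φ C C' ∧
      ∃ (m : ℕ) (θ : Fin m → ℂ) (lam : ℂ) (CE : ℝ), lam ≠ 0 ∧
        Algebra.trdeg ℚ (Algebra.adjoin ℚ (Set.range θ)) ≤
          Algebra.trdeg ℚ (IntermediateField.adjoin ℚ
            (⋃ j, {D.z j, MSD.jj (D.z j), deriv MSD.jj (D.z j), deriv (deriv MSD.jj) (D.z j)} : Set ℂ)) ∧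
        ∀ T : ℕ, 2 ≤ T → ∃ P : Matrix (Wd (2 * c + 1) T) (Wd (2 * c + 1) T) (MvPolynomial (Fin m) ℤ),
          (∀ w w', ((P w w').totalDegree : ℝ) ≤ CE * T) ∧ (∀ w w', len (P w w') ≤ Real.exp (CE * T * Real.log T)) ∧
            ∀ w w', aeval θ (P w w') = lam ^ ((w.1 : ℕ) + (w'.1 : ℕ)) * mix Φ w.l w'.l

end Pool.Agent.LT

namespace Pool.Agent.LT.KE

/-! ### The kernel -/

/-- the theta function with base point `1/2`, normalised -/
def th1 (z x : ℂ) : ℂ := MSP.th z (1 / 2 + x) / MSP.th z (1 / 2)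

variable {c : ℕ} (D : Dat c)

/-- the arguments of the theta functions -/
def xa (u s : Fin (2 * c + 1) → ℂ) : Fin (2 * c + 1) → ℂ := D.L *ᵥ s + D.Lt *ᵥ u

/-- the kernel -/
def Ph (u s : Fin (2 * c + 1) → ℂ) : ℂ := ee (u ⬝ᵥ (D.L *ᵥ s)) * ∏ j, th1 (D.z j) (xa D u s j)

/-- the multiplier in `u` -/
def Cu (a : Fin (2 * c + 1) → ℤ) : ℂ :=
  ∏ j, ((-1 : ℂ) ^ ((D.dM *ᵥ a) j) * cexp (-(Real.pi * I * ((D.d : ℂ) * (a j : ℂ)) ^ 2 * D.z j)))

/-- the multiplier in `s` -/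
def Cs (a : Fin (2 * c + 1) → ℤ) : ℂ :=
  ∏ j, ((-1 : ℂ) ^ ((D.dMᵀ *ᵥ a) j) * cexp (-(Real.pi * I * ((D.d : ℂ) * (a j : ℂ)) ^ 2 * D.z j)))

/-! ### Variables and their values -/

/-- the variables -/
inductive Va (N : ℕ) : Type
  | z (j : Fin N)
  | i
  | X (j : Fin N)
  | Y (j : Fin N)
  | g (j : Fin N)
  | k (j : Fin N)
  | p (j : Fin N)
  | U (l : Fin N)
  | S (l : Fin N)
  deriving DecidableEq, Fintype

/-- `ω = √π` -/
def om : ℂ := ((Real.sqrt Real.pi : ℝ) : ℂ)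

/-- the values of the variables at a point -/
def vv {N : ℕ} (z x u s : Fin N → ℂ) : Va N → ℂ
  | .z j => z j
  | .i => I
  | .X j => MSP.wp (z j) (MSP.sE (z j)) (1 / 2 + x j) / om ^ 2
  | .Y j => deriv (MSP.wp (z j) (MSP.sE (z j))) (1 / 2 + x j) / om ^ 3
  | .g j => 2 / 3 * Real.pi ^ 4 * MSD.e4 (z j) / om ^ 4
  | .k j => MSP.sE (z j) / om ^ 2
  | .p j => MSP.ph (z j) (1 / 2 + x j) / om
  | .U l => om * u l
  | .S l => om * s l

/-- the values at `(u, s)` -/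
def ev (u s : Fin (2 * c + 1) → ℂ) : Va (2 * c + 1) → ℂ := vv D.z (xa D u s) u s

/-- the regular points -/
def Reg {N : ℕ} (z x : Fin N → ℂ) : Prop := ∀ j, MSP.th (z j) (1 / 2 + x j) ≠ 0

/-! ### Derivations -/

/-- the derivation with `X' = a Y`, `Y' = a (6 X² - g)`, `ψ' = - a (X + k)`, `U' = b`, `S' = b'` -/
def dV {N : ℕ} (a b b' : Fin N → MvPolynomial (Va N) ℤ) : Derivation ℤ (MvPolynomial (Va N) ℤ) (MvPolynomial (Va N) ℤ) :=
  MvPolynomial.mkDerivation ℤ (fun v => match v with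
    | .z _ => 0
    | .i => 0
    | .X j => a j * MvPolynomial.X (Va.Y j)
    | .Y j => a j * (6 * MvPolynomial.X (Va.X j) ^ 2 - MvPolynomial.X (Va.g j))
    | .g _ => 0
    | .k _ => 0
    | .p j => -(a j * (MvPolynomial.X (Va.X j) + MvPolynomial.X (Va.k j)))
    | .U l => b l
    | .S l => b' l)

/-- the entries of `d Lᵀ` -/
def cLt (j l : Fin (2 * c + 1)) : MvPolynomial (Va (2 * c + 1)) ℤ :=
  (if j = l then MvPolynomial.C (D.d : ℤ) * MvPolynomial.X (Va.z j) else 0) - MvPolynomial.C (D.dM j l)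

/-- the entries of `d L` -/
def cL (j l : Fin (2 * c + 1)) : MvPolynomial (Va (2 * c + 1)) ℤ :=
  (if j = l then MvPolynomial.C (D.d : ℤ) * MvPolynomial.X (Va.z j) else 0) - MvPolynomial.C (D.dM l j)

/-- the basis vector `d e_l` -/
def dl (l l' : Fin (2 * c + 1)) : MvPolynomial (Va (2 * c + 1)) ℤ := if l' = l then MvPolynomial.C (D.d : ℤ) else 0

def Du (l : Fin (2 * c + 1)) : Derivation ℤ (MvPolynomial (Va (2 * c + 1)) ℤ) (MvPolynomial (Va (2 * c + 1)) ℤ) :=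
  dV (fun j => cLt D j l) (dl D l) 0

def Ds (l : Fin (2 * c + 1)) : Derivation ℤ (MvPolynomial (Va (2 * c + 1)) ℤ) (MvPolynomial (Va (2 * c + 1)) ℤ) :=
  dV (fun j => cL D j l) 0 (dl D l)

def AU (l : Fin (2 * c + 1)) : MvPolynomial (Va (2 * c + 1)) ℤ :=
  2 * MvPolynomial.X Va.i * ∑ k, cL D l k * MvPolynomial.X (Va.S k) + ∑ j, cLt D j l * MvPolynomial.X (Va.p j)

def AS (l : Fin (2 * c + 1)) : MvPolynomial (Va (2 * c + 1)) ℤ :=
  2 * MvPolynomial.X Va.i * ∑ k, cLt D l k * MvPolynomial.X (Va.U k) + ∑ j, cL D j l * MvPolynomial.X (Va.p j)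

def nabU (l : Fin (2 * c + 1)) (R : MvPolynomial (Va (2 * c + 1)) ℤ) : MvPolynomial (Va (2 * c + 1)) ℤ := Du D l R + AU D l * R

def nabS (l : Fin (2 * c + 1)) (R : MvPolynomial (Va (2 * c + 1)) ℤ) : MvPolynomial (Va (2 * c + 1)) ℤ := Ds D l R + AS D l * R

/-- the iterated operators -/
def nabW {κ M : Type} (f : κ → M → M) : List κ → M → M
  | [], R => R
  | i :: w, R => f i (nabW f w R)

/-- the polynomials of the entries -/
def PP (w w' : List (Fin (2 * c + 1))) : MvPolynomial (Va (2 * c + 1)) ℤ := nabW (nabU D) w (nabW (nabS D) w' 1)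

end Pool.Agent.LT.KE
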