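import Pool.Agent.Lib.MP_f58a57_nt.LT.E1_Th

/-!
# E3b: the analytic properties of the kernel
-/

open Complex Matrix

noncomputable section

namespace Pool.Agent.LT.KE

variable {c : ℕ} (D : Dat c)

theorem Ph_diff : Differentiable ℂ (fun q : (Fin (2 * c + 1) → ℂ) × (Fin (2 * c + 1) → ℂ) => Ph D q.1 q.2) := by
  have hu : ∀ j, Differentiable ℂ (fun q : (Fin (2 * c + 1) → ℂ) × (Fin (2 * c + 1) → ℂ) => q.1 j) :=
    fun j => by fun_prop
  have hs : ∀ j, Differentiable ℂ (fun q : (Fin (2 * c + 1) → ℂ) × (Fin (2 * c + 1) → ℂ) => q.2 j) :=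
    fun j => by fun_prop
  have hx : ∀ j, Differentiable ℂ (fun q : (Fin (2 * c + 1) → ℂ) × (Fin (2 * c + 1) → ℂ) => xa D q.1 q.2 j) := by
    intro j
    simp only [xa, Pi.add_apply, Matrix.mulVec, dotProduct]
    exact (Differentiable.fun_sum fun k _ => (hs k).const_mul _).add
      (Differentiable.fun_sum fun k _ => (hu k).const_mul _)
  have he : Differentiable ℂ (fun q : (Fin (2 * c + 1) → ℂ) × (Fin (2 * c + 1) → ℂ) => q.1 ⬝ᵥ (D.L *ᵥ q.2)) := by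
    simp only [Matrix.mulVec, dotProduct]
    exact Differentiable.fun_sum fun j _ => (hu j).mul (Differentiable.fun_sum fun k _ => (hs k).const_mul _)
  unfold Ph
  refine Differentiable.mul ?_ ?_
  · unfold ee
    exact (he.const_mul _).cexp
  · have h : ∀ S : Finset (Fin (2 * c + 1)), Differentiable ℂ
        (fun q : (Fin (2 * c + 1) → ℂ) × (Fin (2 * c + 1) → ℂ) => ∏ j ∈ S, th1 (D.z j) (xa D q.1 q.2 j)) := by
      intro S
      induction S using Finset.induction_on with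
      | empty => simp
      | insert a S ha ih =>
        simp only [Finset.prod_insert ha]
        exact ((th1_diff (D.z a) (D.im a)).comp (hx a)).mul ih
    exact h Finset.univ

theorem Ph_one : Ph D 0 0 = 1 := by
  have hx : ∀ j, xa D 0 0 j = 0 := by
    intro j
    simp [xa]
  unfold Ph
  rw [Finset.prod_eq_one (fun j _ => by rw [hx j]; exact th1_zero _ (D.im j))]
  simp [ee]

private lemma E3b_ee (w : ℂ) : ‖ee w‖ ≤ Real.exp (2 * Real.pi * ‖w‖) := by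
  unfold ee
  rw [Complex.norm_exp]
  apply Real.exp_le_exp.mpr
  refine (Complex.re_le_norm _).trans ?_
  rw [norm_mul, norm_mul, norm_mul]
  simp [abs_of_pos Real.pi_pos]

private lemma E3b_le {n : ℕ} (u : Fin n → ℂ) (j : Fin n) : ‖u j‖ ≤ Real.sqrt (nsq u) := by
  apply Real.le_sqrt_of_sq_le
  unfold nsq
  exact Finset.single_le_sum (f := fun j => ‖u j‖ ^ 2) (fun _ _ => by positivity) (Finset.mem_univ j)

/-- PROOF: `‖ee w‖ ≤ exp (2π‖w‖)`; `|u ⬝ᵥ L s| ≤ C (nsq u + nsq s)`; `‖xa j‖² ≤ C (nsq u + nsq s)`; `th1_growth` for every `j` (finite sum of the constants).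
Entrywise: `‖v j‖² ≤ nsq v`, `‖v j‖ ‖w k‖ ≤ nsq v + nsq w`. -/
theorem Ph_grow : ∃ A : ℝ, ∀ u s, ‖Ph D u s‖ ≤ Real.exp (A * (1 + nsq u + nsq s)) := by
  choose C hC0 hC using fun j => th1_growth (D.z j) (D.im j)
  set Λ : ℝ := (∑ j, ∑ k, ‖D.L j k‖) + ∑ j, ∑ k, ‖D.Lt j k‖ with hΛ
  have hΛL : 0 ≤ ∑ j, ∑ k, ‖D.L j k‖ := Finset.sum_nonneg fun _ _ => Finset.sum_nonneg fun _ _ => norm_nonneg _
  have hΛT : 0 ≤ ∑ j, ∑ k, ‖D.Lt j k‖ := Finset.sum_nonneg fun _ _ => Finset.sum_nonneg fun _ _ => norm_nonneg _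
  have hΛ0 : 0 ≤ Λ := add_nonneg hΛL hΛT
  refine ⟨2 * Real.pi * Λ + ∑ j, C j * (1 + Λ ^ 2), fun u s => ?_⟩
  have hnu : 0 ≤ nsq u := Finset.sum_nonneg fun _ _ => by positivity
  have hns : 0 ≤ nsq s := Finset.sum_nonneg fun _ _ => by positivity
  set r : ℝ := Real.sqrt (nsq u + nsq s) with hr
  have hr0 : 0 ≤ r := Real.sqrt_nonneg _
  have hr2 : r ^ 2 = nsq u + nsq s := Real.sq_sqrt (add_nonneg hnu hns)
  have hur : ∀ j, ‖u j‖ ≤ r := fun j => (E3b_le u j).trans (Real.sqrt_le_sqrt (by linarith))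
  have hsr : ∀ j, ‖s j‖ ≤ r := fun j => (E3b_le s j).trans (Real.sqrt_le_sqrt (by linarith))
  have hmul : ∀ (P : Matrix (Fin (2 * c + 1)) (Fin (2 * c + 1)) ℂ) (v : Fin (2 * c + 1) → ℂ), (∀ j, ‖v j‖ ≤ r) →
      ∀ j, ‖(P *ᵥ v) j‖ ≤ (∑ k, ‖P j k‖) * r := by
    intro P v hv j
    rw [Matrix.mulVec, dotProduct, Finset.sum_mul]
    refine (norm_sum_le _ _).trans (Finset.sum_le_sum fun k _ => ?_)
    rw [norm_mul]
    exact mul_le_mul_of_nonneg_left (hv k) (norm_nonneg _)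
  have hsingle : ∀ (P : Matrix (Fin (2 * c + 1)) (Fin (2 * c + 1)) ℂ) (j : Fin (2 * c + 1)),
      ∑ k, ‖P j k‖ ≤ ∑ j, ∑ k, ‖P j k‖ := fun P j =>
    Finset.single_le_sum (f := fun j => ∑ k, ‖P j k‖) (fun _ _ => Finset.sum_nonneg fun _ _ => norm_nonneg _)
      (Finset.mem_univ j)
  have hxa : ∀ j, ‖xa D u s j‖ ^ 2 ≤ Λ ^ 2 * (nsq u + nsq s) := by
    intro j
    have h1 : ‖xa D u s j‖ ≤ Λ * r := by
      unfold xa
      rw [Pi.add_apply]
      refine (norm_add_le _ _).trans ?_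
      have h2 := hmul D.L s hsr j
      have h3 := hmul D.Lt u hur j
      have h4 := mul_le_mul_of_nonneg_right (hsingle D.L j) hr0
      have h5 := mul_le_mul_of_nonneg_right (hsingle D.Lt j) hr0
      rw [hΛ, add_mul]
      linarith
    calc ‖xa D u s j‖ ^ 2 ≤ (Λ * r) ^ 2 := pow_le_pow_left₀ (norm_nonneg _) h1 2
      _ = Λ ^ 2 * (nsq u + nsq s) := by rw [mul_pow, hr2]
  have hdot : ‖u ⬝ᵥ (D.L *ᵥ s)‖ ≤ Λ * (nsq u + nsq s) := by
    rw [dotProduct]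
    refine (norm_sum_le _ _).trans ?_
    calc ∑ j, ‖u j * (D.L *ᵥ s) j‖ ≤ ∑ j, (∑ k, ‖D.L j k‖) * r ^ 2 := by
          refine Finset.sum_le_sum fun j _ => ?_
          rw [norm_mul]
          have h2 := hmul D.L s hsr j
          have h3 := hur j
          calc ‖u j‖ * ‖(D.L *ᵥ s) j‖ ≤ r * ((∑ k, ‖D.L j k‖) * r) :=
                mul_le_mul h3 h2 (norm_nonneg _) hr0
            _ = (∑ k, ‖D.L j k‖) * r ^ 2 := by ring
      _ = (∑ j, ∑ k, ‖D.L j k‖) * r ^ 2 := by rw [← Finset.sum_mul]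
      _ ≤ Λ * r ^ 2 := by
          apply mul_le_mul_of_nonneg_right _ (sq_nonneg r)
          rw [hΛ]; linarith
      _ = Λ * (nsq u + nsq s) := by rw [hr2]
  have hprod : ‖∏ j, th1 (D.z j) (xa D u s j)‖ ≤ Real.exp ((∑ j, C j * (1 + Λ ^ 2)) * (1 + nsq u + nsq s)) := by
    rw [norm_prod, Finset.sum_mul, Real.exp_sum]
    refine Finset.prod_le_prod (fun _ _ => norm_nonneg _) fun j _ => ?_
    refine (hC j _).trans (Real.exp_le_exp.mpr ?_)
    rw [mul_assoc]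
    refine mul_le_mul_of_nonneg_left ?_ (hC0 j)
    have := hxa j
    nlinarith [sq_nonneg Λ]
  unfold Ph
  rw [norm_mul]
  have h1 : ‖ee (u ⬝ᵥ (D.L *ᵥ s))‖ ≤ Real.exp (2 * Real.pi * Λ * (1 + nsq u + nsq s)) := by
    refine (E3b_ee _).trans (Real.exp_le_exp.mpr ?_)
    rw [mul_assoc (2 * Real.pi)]
    refine mul_le_mul_of_nonneg_left (hdot.trans ?_) (by positivity)
    exact mul_le_mul_of_nonneg_left (by linarith) hΛ0
  calc ‖ee (u ⬝ᵥ (D.L *ᵥ s))‖ * ‖∏ j, th1 (D.z j) (xa D u s j)‖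
      ≤ Real.exp (2 * Real.pi * Λ * (1 + nsq u + nsq s)) *
        Real.exp ((∑ j, C j * (1 + Λ ^ 2)) * (1 + nsq u + nsq s)) :=
        mul_le_mul h1 hprod (norm_nonneg _) (Real.exp_pos _).le
    _ = Real.exp ((2 * Real.pi * Λ + ∑ j, C j * (1 + Λ ^ 2)) * (1 + nsq u + nsq s)) := by
        rw [← Real.exp_add, add_mul]

end Pool.Agent.LT.KE
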