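import Pool.Agent.Lib.MP_f58a57_nt.LT.E4b_Rule

/-!
# E5: the mixed derivatives
-/

open Complex Matrix MvPolynomial Filter Topology

noncomputable section

namespace Pool.Agent.LT.KE

theorem pdl_congr_ev {n : ℕ} (w : List (Fin n)) (F G : (Fin n → ℂ) → ℂ) (u : Fin n → ℂ) (h : F =ᶠ[𝓝 u] G) :
    pdl w F =ᶠ[𝓝 u] pdl w G := by
  induction w with
  | nil => exact h
  | cons i w ih =>
    have h1 := ih.eventuallyEq_nhds
    filter_upwards [h1] with x hx
    show fderiv ℂ (pdl w F) x (Pi.single i 1) = fderiv ℂ (pdl w G) x (Pi.single i 1)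
    rw [hx.fderiv_eq]

theorem pdl_congr {n : ℕ} (w : List (Fin n)) (F G : (Fin n → ℂ) → ℂ) (u : Fin n → ℂ) (h : F =ᶠ[𝓝 u] G) : pdl w F u = pdl w G u :=
  (pdl_congr_ev w F G u h).eq_of_nhds

theorem pd_const {n : ℕ} (l : Fin n) (κ : ℂ) (F : (Fin n → ℂ) → ℂ) (u : Fin n → ℂ) (hF : DifferentiableAt ℂ F u) :
    pd l (fun u => κ * F u) u = κ * pd l F u := by
  unfold pd
  rw [fderiv_const_mul hF]
  rfl

variable {c : ℕ} (D : Dat c)

theorem xa_cont_u (s : Fin (2 * c + 1) → ℂ) : Continuous (fun u => xa D u s) := by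
  unfold xa
  fun_prop

theorem reg_open_u (s : Fin (2 * c + 1) → ℂ) : IsOpen {u : Fin (2 * c + 1) → ℂ | Reg D.z (xa D u s)} := by
  have : {u : Fin (2 * c + 1) → ℂ | Reg D.z (xa D u s)} = ⋂ j, {u | MSP.th (D.z j) (1 / 2 + xa D u s j) ≠ 0} := by
    ext u; simp [Reg]
  rw [this]
  refine isOpen_iInter_of_finite fun j => ?_
  refine isOpen_ne_fun ?_ continuous_const
  exact (MSP.th_differentiable _ (D.im j)).continuous.comp (continuous_const.add ((continuous_apply j).comp (xa_cont_u D s)))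

theorem reg_open_s (u : Fin (2 * c + 1) → ℂ) : IsOpen {s : Fin (2 * c + 1) → ℂ | Reg D.z (xa D u s)} := by
  have : {s : Fin (2 * c + 1) → ℂ | Reg D.z (xa D u s)} = ⋂ j, {s | MSP.th (D.z j) (1 / 2 + xa D u s j) ≠ 0} := by
    ext u; simp [Reg]
  rw [this]
  refine isOpen_iInter_of_finite fun j => ?_
  refine isOpen_ne_fun ?_ continuous_const
  have h : Continuous (fun s => xa D u s) := by unfold xa; fun_prop
  exact (MSP.th_differentiable _ (D.im j)).continuous.comp (continuous_const.add ((continuous_apply j).comp h))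

theorem reg_zero : Reg D.z (xa D 0 0) := by
  intro j
  have : (1 : ℂ) / 2 + xa D 0 0 j = 1 / 2 := by simp [xa]
  rw [this]
  exact th_half_ne _ (D.im j)

theorem iter_u (s : Fin (2 * c + 1) → ℂ) (κ : ℂ) (R : MvPolynomial (Va (2 * c + 1)) ℤ) (w : List (Fin (2 * c + 1))) :
    ∀ u, Reg D.z (xa D u s) → pdl w (fun u => κ * (aeval (ev D u s) R * Ph D u s)) u =
      κ * ((om / D.d) ^ w.length * (aeval (ev D u s) (nabW (nabU D) w R) * Ph D u s)) := by
  induction w with
  | nil => intro u _; simp [pdl, nabW]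
  | cons i w ih =>
    intro u hu
    have h1 : pdl w (fun u => κ * (aeval (ev D u s) R * Ph D u s)) =ᶠ[𝓝 u]
        fun u => (κ * (om / D.d) ^ w.length) * (aeval (ev D u s) (nabW (nabU D) w R) * Ph D u s) := by
      filter_upwards [(reg_open_u D s).mem_nhds hu] with x hx
      rw [ih x hx]; ring
    show pd i (pdl w (fun u => κ * (aeval (ev D u s) R * Ph D u s))) u = _
    have h2 : pd i (pdl w (fun u => κ * (aeval (ev D u s) R * Ph D u s))) u =
        pd i (fun u => (κ * (om / D.d) ^ w.length) * (aeval (ev D u s) (nabW (nabU D) w R) * Ph D u s)) u := by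
      unfold pd; rw [h1.fderiv_eq]
    rw [h2, pd_const _ _ _ _ (diffAt_u D u s hu _), rule_u D u s hu]
    simp only [nabW, List.length_cons, pow_succ]
    ring

theorem iter_s (u : Fin (2 * c + 1) → ℂ) (κ : ℂ) (R : MvPolynomial (Va (2 * c + 1)) ℤ) (w : List (Fin (2 * c + 1))) :
    ∀ s, Reg D.z (xa D u s) → pdl w (fun s => κ * (aeval (ev D u s) R * Ph D u s)) s =
      κ * ((om / D.d) ^ w.length * (aeval (ev D u s) (nabW (nabS D) w R) * Ph D u s)) := by
  induction w with
  | nil => intro s _; simp [pdl, nabW]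
  | cons i w ih =>
    intro s hs
    have h1 : pdl w (fun s => κ * (aeval (ev D u s) R * Ph D u s)) =ᶠ[𝓝 s]
        fun s => (κ * (om / D.d) ^ w.length) * (aeval (ev D u s) (nabW (nabS D) w R) * Ph D u s) := by
      filter_upwards [(reg_open_s D u).mem_nhds hs] with x hx
      rw [ih x hx]; ring
    show pd i (pdl w (fun s => κ * (aeval (ev D u s) R * Ph D u s))) s = _
    have h2 : pd i (pdl w (fun s => κ * (aeval (ev D u s) R * Ph D u s))) s =
        pd i (fun s => (κ * (om / D.d) ^ w.length) * (aeval (ev D u s) (nabW (nabS D) w R) * Ph D u s)) s := by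
      unfold pd; rw [h1.fderiv_eq]
    rw [h2, pd_const _ _ _ _ (diffAt_s D u s hs _), rule_s D u s hs]
    simp only [nabW, List.length_cons, pow_succ]
    ring

theorem mix_eq (w w' : List (Fin (2 * c + 1))) :
    mix (Ph D) w w' = (om / D.d) ^ (w.length + w'.length) * aeval (ev D 0 0) (PP D w w') := by
  have h0 := reg_zero D
  have h1 : (fun u => pdl w' (Ph D u) 0) =ᶠ[𝓝 (0 : Fin (2 * c + 1) → ℂ)]
      fun u => (om / D.d) ^ w'.length * (aeval (ev D u 0) (nabW (nabS D) w' 1) * Ph D u 0) := by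
    filter_upwards [(reg_open_u D 0).mem_nhds h0] with u hu
    have h2 := iter_s D u 1 1 w' 0 hu
    simp only [map_one, one_mul] at h2
    exact h2
  unfold mix
  rw [pdl_congr w _ _ 0 h1, iter_u D 0 _ _ w 0 h0, Ph_one, PP, pow_add]
  ring

end Pool.Agent.LT.KE
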