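import Pool.Agent.Lib.MP_f58a57_nt.LT.E0_Defs
import Pool.Agent.Lib.MP_f58a57_nt.P.A1_Len

/-!
# E7: degrees and lengths
-/

open MvPolynomial Matrix

noncomputable section

namespace Pool.Agent.LT.KE

namespace E7_

theorem len_eq {σ : Type} (p : MvPolynomial σ ℤ) : len p = MSP.mlen p := rfl

theorem len_nonneg {σ : Type} (p : MvPolynomial σ ℤ) : 0 ≤ len p := MSP.mlen_nonneg p

theorem len_add {σ : Type} (p q : MvPolynomial σ ℤ) : len (p + q) ≤ len p + len q := MSP.mlen_add p q

theorem len_mul {σ : Type} (p q : MvPolynomial σ ℤ) : len (p * q) ≤ len p * len q := MSP.mlen_mul p q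

theorem len_sum {σ ι : Type} (s : Finset ι) (p : ι → MvPolynomial σ ℤ) : len (∑ i ∈ s, p i) ≤ ∑ i ∈ s, len (p i) :=
  MSP.mlen_sum s p

theorem der_mon {σ : Type} (E : Derivation ℤ (MvPolynomial σ ℤ) (MvPolynomial σ ℤ)) (m : σ →₀ ℕ) (a : ℤ) :
    E (MvPolynomial.monomial m a)
      = a • ∑ v ∈ m.support, (MvPolynomial.monomial (m - Finsupp.single v 1) ((m v : ℕ) : ℤ)) * E (MvPolynomial.X v) := by
  have hE : E = MvPolynomial.mkDerivation ℤ (fun v => E (MvPolynomial.X v)) := by
    refine MvPolynomial.derivation_ext fun i => ?_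
    rw [MvPolynomial.mkDerivation_X]
  conv_lhs => rw [hE]
  rw [MvPolynomial.mkDerivation_monomial, Finsupp.sum]
  rfl

theorem sub_deg {σ : Type} (m : σ →₀ ℕ) (v : σ) (hv : v ∈ m.support) :
    ((m - Finsupp.single v 1).sum fun _ e => e) + 1 = m.sum fun _ e => e := by
  have h1 : Finsupp.single v 1 ≤ m := by
    rw [Finsupp.single_le_iff]
    exact Nat.one_le_iff_ne_zero.mpr (Finsupp.mem_support_iff.mp hv)
  have h2 : m - Finsupp.single v 1 + Finsupp.single v 1 = m := tsub_add_cancel_of_le h1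
  conv_rhs => rw [← h2]
  rw [Finsupp.sum_add_index' (fun _ => rfl) (fun _ _ _ => rfl), Finsupp.sum_single_index rfl]

end E7_

/-- PROOF: `totalDegree` of a derivation: for `R` of total degree `n` a sum of monomials; `D (monomial) = Σ_v (∂_v monomial) * D(X v)` (`mkDerivation_monomial`,
or `MvPolynomial.induction_on'`/`induction_on_monomial`), see `Pool/Agent/Lib/MP_f58a57_nt/K/A2_Bd.lean`, `R/A1_NabBd.lean` for the same proof. -/
theorem der_deg {σ : Type} [Fintype σ] [DecidableEq σ] (E : Derivation ℤ (MvPolynomial σ ℤ) (MvPolynomial σ ℤ)) (e : ℕ)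
    (h : ∀ v, (E (X v)).totalDegree ≤ e + 1) (R : MvPolynomial σ ℤ) : (E R).totalDegree ≤ R.totalDegree + e := by
  have key : ∀ m ∈ R.support, (E (MvPolynomial.monomial m (R.coeff m))).totalDegree ≤ R.totalDegree + e := by
    intro m hm
    rw [E7_.der_mon]
    refine (MvPolynomial.totalDegree_smul_le _ _).trans ?_
    refine MvPolynomial.totalDegree_finsetSum_le fun v hv => ?_
    refine (MvPolynomial.totalDegree_mul _ _).trans ?_
    have h1 := MvPolynomial.totalDegree_monomial_le (R := ℤ) (m - Finsupp.single v 1) ((m v : ℕ) : ℤ)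
    have h1' : (MvPolynomial.monomial (m - Finsupp.single v 1) ((m v : ℕ) : ℤ)).totalDegree ≤ (m - Finsupp.single v 1).sum fun _ e => e := h1
    have h2 := E7_.sub_deg m v hv
    have h3 := MvPolynomial.le_totalDegree hm
    have h4 := h v
    omega
  have e1 : E R = ∑ m ∈ R.support, E (MvPolynomial.monomial m (R.coeff m)) := by
    conv_lhs => rw [R.as_sum]
    rw [map_sum]
  rw [e1]
  exact MvPolynomial.totalDegree_finsetSum_le key

theorem der_len {σ : Type} [Fintype σ] [DecidableEq σ] (E : Derivation ℤ (MvPolynomial σ ℤ) (MvPolynomial σ ℤ)) (B : ℝ)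
    (h : ∀ v, len (E (X v)) ≤ B) (R : MvPolynomial σ ℤ) : len (E R) ≤ B * R.totalDegree * len R := by
  have hB : 0 ≤ B ∨ R.totalDegree = 0 := by
    by_cases hσ : Nonempty σ
    · obtain ⟨v⟩ := hσ
      exact Or.inl ((E7_.len_nonneg _).trans (h v))
    · right
      have : IsEmpty σ := not_nonempty_iff.mp hσ
      rw [MvPolynomial.eq_C_of_isEmpty R, MvPolynomial.totalDegree_C]
  have key : ∀ m ∈ R.support, len (E (MvPolynomial.monomial m (R.coeff m))) ≤ |((R.coeff m : ℤ) : ℝ)| * (B * R.totalDegree) := by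
    intro m hm
    rw [E7_.der_mon, ← MvPolynomial.C_mul']
    refine (E7_.len_mul _ _).trans ?_
    have e2 : len (MvPolynomial.C (R.coeff m) : MvPolynomial σ ℤ) = |((R.coeff m : ℤ) : ℝ)| := MSP.mlen_C _
    rw [e2]
    refine mul_le_mul_of_nonneg_left ?_ (abs_nonneg _)
    refine (E7_.len_sum _ _).trans ?_
    have h5 : ∀ v ∈ m.support, len ((MvPolynomial.monomial (m - Finsupp.single v 1) ((m v : ℕ) : ℤ)) * E (MvPolynomial.X v)) ≤ (m v : ℝ) * B := by
      intro v _
      refine (E7_.len_mul _ _).trans ?_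
      have e3 : len (MvPolynomial.monomial (m - Finsupp.single v 1) ((m v : ℕ) : ℤ) : MvPolynomial σ ℤ) = (m v : ℝ) := by
        have := MSP.mlen_monomial (m - Finsupp.single v 1) ((m v : ℕ) : ℤ)
        rw [E7_.len_eq, this]
        push_cast
        exact abs_of_nonneg (Nat.cast_nonneg _)
      rw [e3]
      exact mul_le_mul_of_nonneg_left (h v) (Nat.cast_nonneg _)
    refine (Finset.sum_le_sum h5).trans ?_
    rw [← Finset.sum_mul, mul_comm B]
    have hd : ∑ v ∈ m.support, m v ≤ R.totalDegree := MvPolynomial.le_totalDegree hm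
    have hd' : (∑ v ∈ m.support, (m v : ℝ)) ≤ (R.totalDegree : ℝ) := by exact_mod_cast hd
    rcases hB with hB | hB
    · exact mul_le_mul_of_nonneg_right hd' hB
    · have h6 : ∑ v ∈ m.support, m v = 0 := by omega
      have h7 : (∑ v ∈ m.support, (m v : ℝ)) = 0 := by exact_mod_cast h6
      rw [h7, hB]
      simp
  have e1 : E R = ∑ m ∈ R.support, E (MvPolynomial.monomial m (R.coeff m)) := by
    conv_lhs => rw [R.as_sum]
    rw [map_sum]
  rw [e1]
  refine (E7_.len_sum _ _).trans ((Finset.sum_le_sum key).trans ?_)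
  rw [← Finset.sum_mul]
  have e4 : len R = ∑ m ∈ R.support, |((R.coeff m : ℤ) : ℝ)| := rfl
  rw [← e4, mul_comm]

/-- PROOF: induction over the word, from `der_deg`, `der_len` (`len_mul`, `len_add` are `MSP.mlen_mul`, `MSP.mlen_add` of P/A1_Len; `len` and `MSP.mlen` have the same body). -/
theorem nabW_bd {σ κ : Type} [Fintype σ] [DecidableEq σ] (E : κ → Derivation ℤ (MvPolynomial σ ℤ) (MvPolynomial σ ℤ))
    (A : κ → MvPolynomial σ ℤ) (e : ℕ) (B : ℝ) (hB : 1 ≤ B) (hE : ∀ i v, (E i (X v)).totalDegree ≤ e + 1) (hA : ∀ i, (A i).totalDegree ≤ e)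
    (hE' : ∀ i v, len (E i (X v)) ≤ B) (hA' : ∀ i, len (A i) ≤ B) (w : List κ) (R : MvPolynomial σ ℤ) (n : ℕ)
    (hR : R.totalDegree ≤ e * n) (hR' : len R ≤ (B * (e * n + 1)) ^ n) :
    (nabW (fun i R => E i R + A i * R) w R).totalDegree ≤ e * (w.length + n) ∧
      len (nabW (fun i R => E i R + A i * R) w R) ≤ (B * (e * (w.length + n : ℕ) + 1)) ^ (w.length + n) := by
  have hB0 : 0 ≤ B := zero_le_one.trans hB
  induction w with
  | nil =>
    simp only [nabW, List.length_nil, Nat.zero_add]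
    exact ⟨hR, hR'⟩
  | cons i w ih =>
    obtain ⟨h1, h2⟩ := ih
    set P := nabW (fun i R => E i R + A i * R) w R with hP
    have hstep : nabW (fun i R => E i R + A i * R) (i :: w) R = E i P + A i * P := rfl
    rw [hstep, List.length_cons]
    set N := w.length + n with hN
    have hN' : w.length + 1 + n = N + 1 := by omega
    rw [hN']
    constructor
    · have h3 := der_deg (E i) e (hE i) P
      have h4 := MvPolynomial.totalDegree_mul (A i) P
      have h5 := hA i
      refine (MvPolynomial.totalDegree_add _ _).trans (max_le ?_ ?_)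
      · rw [Nat.mul_succ]; omega
      · rw [Nat.mul_succ]; omega
    · have h3 := der_len (E i) B (hE' i) P
      have h4 := E7_.len_mul (A i) P
      have h5 := hA' i
      have hP0 := E7_.len_nonneg P
      have h6 : len (A i * P) ≤ B * len P := h4.trans (mul_le_mul_of_nonneg_right h5 hP0)
      have h7 : (P.totalDegree : ℝ) ≤ e * (N : ℕ) := by exact_mod_cast h1
      have h8 : B * P.totalDegree * len P ≤ B * (e * (N : ℕ)) * len P :=
        mul_le_mul_of_nonneg_right (mul_le_mul_of_nonneg_left h7 hB0) hP0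
      have h9 : len (E i P + A i * P) ≤ B * (e * (N : ℕ) + 1) * len P := by
        refine (E7_.len_add _ _).trans ?_
        nlinarith
      have he : (0 : ℝ) ≤ e := Nat.cast_nonneg _
      have hNn : (0 : ℝ) ≤ (N : ℕ) := Nat.cast_nonneg _
      have h10 : 0 ≤ B * (e * (N : ℕ) + 1) := by positivity
      have h11 : B * (e * (N : ℕ) + 1) ≤ B * (e * ((N + 1 : ℕ) : ℝ) + 1) := by
        push_cast
        nlinarith
      calc len (E i P + A i * P) ≤ B * (e * (N : ℕ) + 1) * len P := h9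
        _ ≤ B * (e * (N : ℕ) + 1) * (B * (e * (N : ℕ) + 1)) ^ N := mul_le_mul_of_nonneg_left h2 h10
        _ = (B * (e * (N : ℕ) + 1)) ^ (N + 1) := by rw [pow_succ]; ring
        _ ≤ (B * (e * ((N + 1 : ℕ) : ℝ) + 1)) ^ (N + 1) := pow_le_pow_left₀ h10 h11 _

variable {c : ℕ} (D : Dat c)

namespace E7_

theorem td_ite {σ : Type} (p : Prop) [Decidable p] (f : MvPolynomial σ ℤ) (e : ℕ) (hf : f.totalDegree ≤ e) :
    (if p then f else 0).totalDegree ≤ e := by
  by_cases h : p
  · rw [if_pos h]; exact hf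
  · rw [if_neg h, MvPolynomial.totalDegree_zero]; exact Nat.zero_le _

theorem td_CX {σ : Type} (a : ℤ) (v : σ) : (MvPolynomial.C a * MvPolynomial.X v : MvPolynomial σ ℤ).totalDegree ≤ 1 := by
  refine (MvPolynomial.totalDegree_mul _ _).trans ?_
  rw [MvPolynomial.totalDegree_C, MvPolynomial.totalDegree_X]

theorem td_cLt (j l : Fin (2 * c + 1)) : (cLt D j l).totalDegree ≤ 1 := by
  unfold cLt
  refine (MvPolynomial.totalDegree_sub _ _).trans (max_le ?_ ?_)
  · exact td_ite _ _ _ (td_CX _ _)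
  · rw [MvPolynomial.totalDegree_C]; exact Nat.zero_le _

theorem td_cL (j l : Fin (2 * c + 1)) : (cL D j l).totalDegree ≤ 1 := by
  unfold cL
  refine (MvPolynomial.totalDegree_sub _ _).trans (max_le ?_ ?_)
  · exact td_ite _ _ _ (td_CX _ _)
  · rw [MvPolynomial.totalDegree_C]; exact Nat.zero_le _

theorem td_dl (l l' : Fin (2 * c + 1)) : (dl D l l').totalDegree ≤ 1 := by
  unfold dl
  refine td_ite _ _ _ ?_
  rw [MvPolynomial.totalDegree_C]; exact Nat.zero_le _

theorem td_mul {σ : Type} {p q : MvPolynomial σ ℤ} {a b : ℕ} (hp : p.totalDegree ≤ a) (hq : q.totalDegree ≤ b) :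
    (p * q).totalDegree ≤ a + b := (MvPolynomial.totalDegree_mul _ _).trans (add_le_add hp hq)

theorem td_X {σ : Type} (v : σ) : (MvPolynomial.X v : MvPolynomial σ ℤ).totalDegree ≤ 1 := by
  rw [MvPolynomial.totalDegree_X]

theorem td_num {σ : Type} (a : ℤ) : (MvPolynomial.C a : MvPolynomial σ ℤ).totalDegree ≤ 0 := by
  rw [MvPolynomial.totalDegree_C]

theorem td_dV {N : ℕ} (a b b' : Fin N → MvPolynomial (Va N) ℤ) (ha : ∀ j, (a j).totalDegree ≤ 1) (hb : ∀ j, (b j).totalDegree ≤ 1)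
    (hb' : ∀ j, (b' j).totalDegree ≤ 1) (v : Va N) : (dV a b b' (MvPolynomial.X v)).totalDegree ≤ 3 + 1 := by
  unfold dV
  rw [MvPolynomial.mkDerivation_X]
  cases v with
  | z j => simp
  | i => simp
  | X j =>
    change (a j * MvPolynomial.X (Va.Y j)).totalDegree ≤ _
    exact (td_mul (ha j) (td_X _)).trans (by norm_num)
  | Y j =>
    change (a j * (6 * MvPolynomial.X (Va.X j) ^ 2 - MvPolynomial.X (Va.g j))).totalDegree ≤ _
    refine (td_mul (ha j) (b := 2) ?_).trans (by norm_num)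
    refine (MvPolynomial.totalDegree_sub _ _).trans (max_le ?_ ?_)
    · rw [show (6 : MvPolynomial (Va N) ℤ) = MvPolynomial.C (6 : ℤ) from (map_ofNat _ 6).symm]
      refine (td_mul (td_num 6) (b := 2) ?_).trans (by norm_num)
      refine (MvPolynomial.totalDegree_pow _ _).trans ?_
      rw [MvPolynomial.totalDegree_X]
    · exact (td_X _).trans (by norm_num)
  | g j => simp
  | k j => simp
  | p j =>
    change (-(a j * (MvPolynomial.X (Va.X j) + MvPolynomial.X (Va.k j)))).totalDegree ≤ _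
    rw [MvPolynomial.totalDegree_neg]
    refine (td_mul (ha j) (b := 1) ?_).trans (by norm_num)
    exact (MvPolynomial.totalDegree_add _ _).trans (max_le (td_X _) (td_X _))
  | U l =>
    change (b l).totalDegree ≤ _
    exact (hb l).trans (by norm_num)
  | S l =>
    change (b' l).totalDegree ≤ _
    exact (hb' l).trans (by norm_num)

theorem td_zero {σ : Type} : ((0 : MvPolynomial σ ℤ)).totalDegree ≤ 1 := by
  rw [MvPolynomial.totalDegree_zero]; exact Nat.zero_le _

theorem td_Du (l : Fin (2 * c + 1)) (v : Va (2 * c + 1)) : (Du D l (MvPolynomial.X v)).totalDegree ≤ 3 + 1 :=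
  td_dV _ _ _ (fun j => td_cLt D j l) (fun j => td_dl D l j) (fun _ => td_zero) v

theorem td_Ds (l : Fin (2 * c + 1)) (v : Va (2 * c + 1)) : (Ds D l (MvPolynomial.X v)).totalDegree ≤ 3 + 1 :=
  td_dV _ _ _ (fun j => td_cL D j l) (fun _ => td_zero) (fun j => td_dl D l j) v

theorem td_two_i {N : ℕ} : (2 * MvPolynomial.X Va.i : MvPolynomial (Va N) ℤ).totalDegree ≤ 1 := by
  rw [show (2 : MvPolynomial (Va N) ℤ) = MvPolynomial.C (2 : ℤ) from (map_ofNat _ 2).symm]
  exact td_CX _ _

theorem td_AU (l : Fin (2 * c + 1)) : (AU D l).totalDegree ≤ 3 := by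
  unfold AU
  refine (MvPolynomial.totalDegree_add _ _).trans (max_le ?_ ?_)
  · refine (td_mul td_two_i (b := 2) ?_).trans (by norm_num)
    exact MvPolynomial.totalDegree_finsetSum_le fun k _ => td_mul (td_cL D l k) (td_X _)
  · refine MvPolynomial.totalDegree_finsetSum_le fun k _ => ?_
    exact (td_mul (td_cLt D k l) (td_X _)).trans (by norm_num)

theorem td_AS (l : Fin (2 * c + 1)) : (AS D l).totalDegree ≤ 3 := by
  unfold AS
  refine (MvPolynomial.totalDegree_add _ _).trans (max_le ?_ ?_)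
  · refine (td_mul td_two_i (b := 2) ?_).trans (by norm_num)
    exact MvPolynomial.totalDegree_finsetSum_le fun k _ => td_mul (td_cLt D l k) (td_X _)
  · refine MvPolynomial.totalDegree_finsetSum_le fun k _ => ?_
    exact (td_mul (td_cL D k l) (td_X _)).trans (by norm_num)

theorem exB : ∃ B : ℝ, 1 ≤ B ∧ (∀ l v, len (Du D l (MvPolynomial.X v)) ≤ B) ∧ (∀ l v, len (Ds D l (MvPolynomial.X v)) ≤ B) ∧
    (∀ l, len (AU D l) ≤ B) ∧ (∀ l, len (AS D l) ≤ B) := by
  set s1 : ℝ := ∑ l, ∑ v, len (Du D l (MvPolynomial.X v)) with hs1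
  set s2 : ℝ := ∑ l, ∑ v, len (Ds D l (MvPolynomial.X v)) with hs2
  set s3 : ℝ := ∑ l, len (AU D l) with hs3
  set s4 : ℝ := ∑ l, len (AS D l) with hs4
  have h1 : 0 ≤ s1 := Finset.sum_nonneg fun _ _ => Finset.sum_nonneg fun _ _ => len_nonneg _
  have h2 : 0 ≤ s2 := Finset.sum_nonneg fun _ _ => Finset.sum_nonneg fun _ _ => len_nonneg _
  have h3 : 0 ≤ s3 := Finset.sum_nonneg fun _ _ => len_nonneg _
  have h4 : 0 ≤ s4 := Finset.sum_nonneg fun _ _ => len_nonneg _
  refine ⟨1 + s1 + s2 + s3 + s4, by linarith, ?_, ?_, ?_, ?_⟩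
  · intro l v
    have a1 : len (Du D l (MvPolynomial.X v)) ≤ ∑ v, len (Du D l (MvPolynomial.X v)) :=
      Finset.single_le_sum (f := fun v => len (Du D l (MvPolynomial.X v))) (fun _ _ => len_nonneg _) (Finset.mem_univ v)
    have a2 : ∑ v, len (Du D l (MvPolynomial.X v)) ≤ s1 :=
      Finset.single_le_sum (f := fun l => ∑ v, len (Du D l (MvPolynomial.X v))) (fun _ _ => Finset.sum_nonneg fun _ _ => len_nonneg _) (Finset.mem_univ l)
    linarith
  · intro l v
    have a1 : len (Ds D l (MvPolynomial.X v)) ≤ ∑ v, len (Ds D l (MvPolynomial.X v)) :=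
      Finset.single_le_sum (f := fun v => len (Ds D l (MvPolynomial.X v))) (fun _ _ => len_nonneg _) (Finset.mem_univ v)
    have a2 : ∑ v, len (Ds D l (MvPolynomial.X v)) ≤ s2 :=
      Finset.single_le_sum (f := fun l => ∑ v, len (Ds D l (MvPolynomial.X v))) (fun _ _ => Finset.sum_nonneg fun _ _ => len_nonneg _) (Finset.mem_univ l)
    linarith
  · intro l
    have a1 : len (AU D l) ≤ s3 := Finset.single_le_sum (f := fun l => len (AU D l)) (fun _ _ => len_nonneg _) (Finset.mem_univ l)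
    linarith
  · intro l
    have a1 : len (AS D l) ≤ s4 := Finset.single_le_sum (f := fun l => len (AS D l)) (fun _ _ => len_nonneg _) (Finset.mem_univ l)
    linarith

theorem both : ∃ B : ℝ, 1 ≤ B ∧ ∀ w w' : List (Fin (2 * c + 1)), (PP D w w').totalDegree ≤ 3 * (w.length + w'.length) ∧
    len (PP D w w') ≤ (B * ((3 : ℕ) * (w.length + w'.length : ℕ) + 1)) ^ (w.length + w'.length) := by
  obtain ⟨B, hB, hU, hS, hAU, hAS⟩ := exB D
  refine ⟨B, hB, fun w w' => ?_⟩
  have h0 : (1 : MvPolynomial (Va (2 * c + 1)) ℤ).totalDegree ≤ 3 * 0 := by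
    rw [MvPolynomial.totalDegree_one]
  have h0' : len (1 : MvPolynomial (Va (2 * c + 1)) ℤ) ≤ (B * ((3 : ℕ) * (0 : ℕ) + 1)) ^ 0 := by
    have : len (1 : MvPolynomial (Va (2 * c + 1)) ℤ) = 1 := by
      rw [← MvPolynomial.C_1]
      have h := MSP.mlen_C (σ := Va (2 * c + 1)) 1
      rw [len_eq, h]
      simp
    rw [this, pow_zero]
  have h1 := nabW_bd (Ds D) (AS D) 3 B hB (td_Ds D) (td_AS D) hS hAS w' 1 0 h0 h0'
  rw [add_zero] at h1
  have e1 : nabW (nabS D) w' 1 = nabW (fun i R => Ds D i R + AS D i * R) w' 1 := rfl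
  have h2 := nabW_bd (Du D) (AU D) 3 B hB (td_Du D) (td_AU D) hU hAU w (nabW (fun i R => Ds D i R + AS D i * R) w' 1) w'.length h1.1 h1.2
  exact h2

end E7_

theorem PP_deg (w w' : List (Fin (2 * c + 1))) : (PP D w w').totalDegree ≤ 3 * (w.length + w'.length) := by
  obtain ⟨B, _, h⟩ := E7_.both D
  exact (h w w').1

/-- PROOF: `nabW_bd` twice (`e = 3`), `B :=` 1 + the sum of all the lengths. -/
theorem PP_len : ∃ B : ℝ, 1 ≤ B ∧ ∀ w w' : List (Fin (2 * c + 1)),
    len (PP D w w') ≤ (B * (3 * (w.length + w'.length : ℕ) + 1)) ^ (w.length + w'.length) := by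
  obtain ⟨B, hB, h⟩ := E7_.both D
  refine ⟨B, hB, fun w w' => ?_⟩
  have := (h w w').2
  simpa using this

end Pool.Agent.LT.KE
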