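import Pool.Agent.Lib.MP_f58a57_nt.LT.E4_Vals
import Pool.Agent.Lib.MP_f58a57_nt.P.E2_Alg
import Pool.Agent.Lib.MP_f58a57_nt.G2_Link
import Pool.Agent.Lib.MP_f58a57_nt.N.Link

/-!
# E9: the values at the origin are algebraic over `ℚ(z, j, j', j'')`
-/

open Complex MvPolynomial IntermediateField

noncomputable section

namespace Pool.Agent.LT.KE

open MSD

/-- PROOF: e.g. `Algebra.trdeg_le_of_injective`-type lemmas: with `A :=` the algebraic closure of `F` in `ℂ`, `adjoin ℚ S ≤ A` and `trdeg ℚ A = trdeg ℚ F`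
(`A / F` algebraic). Look at `G4_Trdeg.lean` and the Mathlib files `RingTheory/AlgebraicIndependent/*`. -/
theorem trdeg_le (F : IntermediateField ℚ ℂ) (S : Set ℂ) (h : ∀ x ∈ S, IsAlgebraic F x) :
    Algebra.trdeg ℚ (Algebra.adjoin ℚ S) ≤ Algebra.trdeg ℚ F := by
  have h1 : Algebra.trdeg ℚ F + Algebra.trdeg F (algebraicClosure F ℂ) = Algebra.trdeg ℚ (algebraicClosure F ℂ) :=
    _root_.trdeg_add_eq ℚ F (A := algebraicClosure F ℂ)
  rw [_root_.trdeg_eq_zero (R := F) (A := algebraicClosure F ℂ), add_zero] at h1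
  rw [h1]
  have hsub : Algebra.adjoin ℚ S ≤ ((algebraicClosure F ℂ).toSubalgebra.restrictScalars ℚ) := by
    apply Algebra.adjoin_le
    intro x hx
    exact mem_algebraicClosure_iff.2 (h x hx)
  exact _root_.trdeg_le_of_injective (A' := ((algebraicClosure F ℂ).toSubalgebra.restrictScalars ℚ))
    (Subalgebra.inclusion hsub) (Subalgebra.inclusion_injective hsub)

private theorem E9_root {F : IntermediateField ℚ ℂ} {a b x : ℂ} (ha : a ∈ algebraicClosure F ℂ) (hb : b ∈ algebraicClosure F ℂ)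
    (h : 4 * x ^ 3 - a * x - b = 0) : x ∈ algebraicClosure F ℂ := by
  obtain ⟨a', rfl⟩ : ∃ a' : algebraicClosure F ℂ, (a' : ℂ) = a := ⟨⟨a, ha⟩, rfl⟩
  obtain ⟨b', rfl⟩ : ∃ b' : algebraicClosure F ℂ, (b' : ℂ) = b := ⟨⟨b, hb⟩, rfl⟩
  refine mem_algebraicClosure_iff.2 (MSP.e2_root0 (Polynomial.C 4 * Polynomial.X ^ 3 - Polynomial.C a' * Polynomial.X -
    Polynomial.C b') ?_ x ?_)
  · intro h1
    have h2 := congrArg (fun p => Polynomial.coeff p 3) h1
    simp at h2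
  · simp only [map_sub, map_mul, map_pow, Polynomial.aeval_X, Polynomial.aeval_C]
    exact h

private theorem E9_half (z : ℂ) (hz : 0 < z.im) : MSP.th z (1 / 2) ≠ 0 := by
  have h := MSP.th_real_ne z hz (1 / 2) (fun m hm => by
    have h2 : (1 : ℝ) = 2 * m := by linarith
    have h3 : (1 : ℤ) = 2 * m := by exact_mod_cast h2
    omega)
  simpa using h

private theorem E9_I (F : IntermediateField ℚ ℂ) : I ∈ algebraicClosure F ℂ := by
  refine mem_algebraicClosure_iff.2 ⟨Polynomial.X ^ 2 + 1, ?_, ?_⟩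
  · exact Polynomial.Monic.ne_zero (by monicity!)
  · simp

private theorem E9_forms {F : IntermediateField ℚ ℂ} {z : ℂ} (hz : 0 < z.im) (hj : deriv jj z ≠ 0)
    (h1 : jj z ∈ F) (h2 : deriv jj z ∈ F) (h3 : deriv (deriv jj) z ∈ F) :
    (Real.pi : ℂ) ^ 2 * e4 z ∈ algebraicClosure F ℂ ∧ (Real.pi : ℂ) ^ 3 * e6 z ∈ algebraicClosure F ℂ ∧
      (Real.pi : ℂ) * e2 z ∈ algebraicClosure F ℂ := by
  have hmem : ∀ {x : ℂ}, x ∈ F → x ∈ algebraicClosure F ℂ := fun {x} hx =>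
    mem_algebraicClosure_iff.2 (isAlgebraic_algebraMap (⟨x, hx⟩ : F))
  have hI := E9_I F
  have hnum : ∀ n : ℕ, ((n : ℕ) : ℂ) ∈ algebraicClosure F ℂ := fun n => _root_.natCast_mem _ n
  have n2 : (2 : ℂ) ∈ algebraicClosure F ℂ := by exact_mod_cast hnum 2
  have n3 : (3 : ℂ) ∈ algebraicClosure F ℂ := by exact_mod_cast hnum 3
  have n4 : (4 : ℂ) ∈ algebraicClosure F ℂ := by exact_mod_cast hnum 4
  have n6 : (6 : ℂ) ∈ algebraicClosure F ℂ := by exact_mod_cast hnum 6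
  have n1728 : (1728 : ℂ) ∈ algebraicClosure F ℂ := by exact_mod_cast hnum 1728
  have j0 := hmem h1
  have j1 := hmem h2
  have j2 := hmem h3
  have hom := om_ne
  have hpi : (Real.pi : ℂ) ≠ 0 := by exact_mod_cast Real.pi_ne_zero
  have hΩ : (om⁻¹ : ℂ) ≠ 0 := inv_ne_zero hom
  have e : (Real.pi : ℂ) * (om⁻¹) ^ 2 = 1 := by
    rw [inv_pow, om_sq, mul_inv_cancel₀ hpi]
  have a4 : e4 z / (om⁻¹) ^ 4 = (Real.pi : ℂ) ^ 2 * e4 z := by
    rw [inv_pow, div_inv_eq_mul, show om ^ 4 = (om ^ 2) ^ 2 by ring, om_sq]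
    ring
  have a6 : e6 z / (om⁻¹) ^ 6 = (Real.pi : ℂ) ^ 3 * e6 z := by
    rw [inv_pow, div_inv_eq_mul, show om ^ 6 = (om ^ 2) ^ 3 by ring, om_sq]
    ring
  have a2 : e2 z / (om⁻¹) ^ 2 = (Real.pi : ℂ) * e2 z := by
    rw [inv_pow, div_inv_eq_mul, om_sq]
    ring
  have l4 := link4 z om⁻¹ hz hΩ hj
  have l6 := link6 z om⁻¹ hz hΩ hj
  have l2 := Pool.Agent.MSN.link2' z om⁻¹ hz hΩ hj
  rw [e, a4] at l4
  rw [e, a4, a6] at l6
  rw [e, a2, a4, a6] at l2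
  have b4 : (Real.pi : ℂ) ^ 2 * e4 z ∈ algebraicClosure F ℂ := by
    rw [l4]
    exact div_mem (neg_mem (pow_mem j1 2)) (mul_mem (mul_mem (mul_mem n4 (pow_mem (one_mem _) 2)) j0) (sub_mem j0 n1728))
  have b6 : (Real.pi : ℂ) ^ 3 * e6 z ∈ algebraicClosure F ℂ := by
    rw [l6]
    exact mul_mem b4 (div_mem (neg_mem j1) (mul_mem (mul_mem (mul_mem n2 hI) j0) (one_mem _)))
  refine ⟨b4, b6, ?_⟩
  rw [l2]
  exact mul_mem n6 (add_mem (add_mem (div_mem (div_mem j2 j1) (mul_mem (mul_mem n2 hI) (one_mem _)))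
    (mul_mem (div_mem n2 n3) (div_mem b6 b4))) (div_mem (pow_mem b4 2) (mul_mem n2 b6)))

/-- PROOF. With `Ω² = 1/π` (some `Ω ≠ 0`): `link4`, `link6` (G2_Link), `link2'` (N/Link). `X = wp(1/2)/π` is a root of `4 X³ - (4/3) (π² e4) X - (8/27) (π³ e6)`
(`wp_ode` at `1/2`, `half_values`: `wp' (1/2) = 0`), `Y = p = 0`; `I` is algebraic; `om² = π`; `sE = π²/3 e2`. -/
theorem vals_alg {N : ℕ} (z : Fin N → ℂ) (hz : ∀ j, 0 < (z j).im) (hj : ∀ j, deriv jj (z j) ≠ 0) (F : IntermediateField ℚ ℂ)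
    (h0 : ∀ j, z j ∈ F) (h1 : ∀ j, jj (z j) ∈ F) (h2 : ∀ j, deriv jj (z j) ∈ F) (h3 : ∀ j, deriv (deriv jj) (z j) ∈ F) (v : Va N) :
    IsAlgebraic F (vv z 0 0 0 v) := by
  have hmem : ∀ {x : ℂ}, x ∈ F → x ∈ algebraicClosure F ℂ := fun {x} hx =>
    mem_algebraicClosure_iff.2 (isAlgebraic_algebraMap (⟨x, hx⟩ : F))
  have hnum : ∀ n : ℕ, ((n : ℕ) : ℂ) ∈ algebraicClosure F ℂ := fun n => _root_.natCast_mem _ n
  have n2 : (2 : ℂ) ∈ algebraicClosure F ℂ := by exact_mod_cast hnum 2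
  have n3 : (3 : ℂ) ∈ algebraicClosure F ℂ := by exact_mod_cast hnum 3
  have n4 : (4 : ℂ) ∈ algebraicClosure F ℂ := by exact_mod_cast hnum 4
  have n8 : (8 : ℂ) ∈ algebraicClosure F ℂ := by exact_mod_cast hnum 8
  have n27 : (27 : ℂ) ∈ algebraicClosure F ℂ := by exact_mod_cast hnum 27
  have hpi : (Real.pi : ℂ) ≠ 0 := by exact_mod_cast Real.pi_ne_zero
  rw [← mem_algebraicClosure_iff]
  cases v with
  | z j => exact hmem (h0 j)
  | i => exact E9_I F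
  | X j =>
    obtain ⟨b4, b6, -⟩ := E9_forms (hz j) (hj j) (h1 j) (h2 j) (h3 j)
    have hode := MSP.wp_ode (z j) (hz j) (1 / 2) (E9_half (z j) (hz j))
    rw [(MSP.half_values (z j) (hz j)).1] at hode
    have hv : vv z 0 0 0 (Va.X j) = MSP.wp (z j) (MSP.sE (z j)) (1 / 2) / Real.pi := by
      simp only [vv, Pi.zero_apply, add_zero, om_sq]
    rw [hv]
    refine E9_root (a := 4 / 3 * ((Real.pi : ℂ) ^ 2 * e4 (z j))) (b := 8 / 27 * ((Real.pi : ℂ) ^ 3 * e6 (z j)))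
      (mul_mem (div_mem n4 n3) b4) (mul_mem (div_mem n8 n27) b6) ?_
    field_simp
    linear_combination (-81 : ℂ) * hode
  | Y j =>
    have hv : vv z 0 0 0 (Va.Y j) = 0 := by
      simp only [vv, Pi.zero_apply, add_zero, (MSP.half_values (z j) (hz j)).1, zero_div]
    rw [hv]
    exact zero_mem _
  | g j =>
    obtain ⟨b4, b6, -⟩ := E9_forms (hz j) (hj j) (h1 j) (h2 j) (h3 j)
    have hv : vv z 0 0 0 (Va.g j) = 2 / 3 * ((Real.pi : ℂ) ^ 2 * e4 (z j)) := by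
      simp only [vv]
      rw [show om ^ 4 = (om ^ 2) ^ 2 by ring, om_sq]
      field_simp
    rw [hv]
    exact mul_mem (div_mem n2 n3) b4
  | k j =>
    obtain ⟨-, -, b2⟩ := E9_forms (hz j) (hj j) (h1 j) (h2 j) (h3 j)
    have hv : vv z 0 0 0 (Va.k j) = (Real.pi : ℂ) * e2 (z j) / 3 := by
      simp only [vv, MSP.sE]
      rw [om_sq]
      field_simp
    rw [hv]
    exact div_mem b2 n3
  | p j =>
    have hv : vv z 0 0 0 (Va.p j) = 0 := by
      simp only [vv, Pi.zero_apply, add_zero, (MSP.half_values (z j) (hz j)).2, zero_div]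
    rw [hv]
    exact zero_mem _
  | U l =>
    have hv : vv z 0 0 0 (Va.U l) = 0 := by
      simp only [vv, Pi.zero_apply, mul_zero]
    rw [hv]
    exact zero_mem _
  | S l =>
    have hv : vv z 0 0 0 (Va.S l) = 0 := by
      simp only [vv, Pi.zero_apply, mul_zero]
    rw [hv]
    exact zero_mem _

end Pool.Agent.LT.KE
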