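import Pool.Agent.Lib.MP_f58a57_nt.LT.E3_Alg
import Pool.Agent.Lib.MP_f58a57_nt.LT.E3b_An
import Pool.Agent.Lib.MP_f58a57_nt.LT.E5_Iter
import Pool.Agent.Lib.MP_f58a57_nt.LT.E7_Bd
import Pool.Agent.Lib.MP_f58a57_nt.LT.E9_Alg

/-!
# E10: assembly of Theorem E
-/

open Complex Matrix MvPolynomial

noncomputable section

namespace Pool.Agent.LT.KE

theorem len_rename {σ τ : Type} (f : σ ≃ τ) (p : MvPolynomial σ ℤ) : len (rename f p) = len p := by
  classical
  rw [len, len, support_rename_of_injective f.injective, Finset.sum_image]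
  · refine Finset.sum_congr rfl fun d _ => ?_
    rw [coeff_rename_mapDomain f f.injective]
  · intro a _ b _ hab
    exact Finsupp.mapDomain_injective f.injective hab

/-- the numerical estimate -/
theorem num_bd (B : ℝ) (hB : 1 ≤ B) : ∃ CE : ℝ, 6 ≤ CE ∧ ∀ (T n : ℕ), 2 ≤ T → n ≤ 2 * T →
    (B * (3 * (n : ℕ) + 1)) ^ n ≤ Real.exp (CE * T * Real.log T) := by
  have hl2 : 0 < Real.log 2 := Real.log_pos (by norm_num)
  refine ⟨6 + 2 * ((Real.log B + Real.log 7) / Real.log 2 + 1), ?_, ?_⟩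
  · have h1 : 0 ≤ Real.log B := Real.log_nonneg hB
    have h2 : 0 ≤ Real.log 7 := Real.log_nonneg (by norm_num)
    have h3 : 0 ≤ (Real.log B + Real.log 7) / Real.log 2 := div_nonneg (add_nonneg h1 h2) hl2.le
    linarith
  intro T n hT hn
  have hT' : (2 : ℝ) ≤ T := by exact_mod_cast hT
  have hTp : (0 : ℝ) < T := by linarith
  have hn' : (n : ℝ) ≤ 2 * T := by exact_mod_cast hn
  have hn0 : (0 : ℝ) ≤ n := Nat.cast_nonneg n
  have hlT : Real.log 2 ≤ Real.log T := Real.log_le_log (by norm_num) hT'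
  have hbase : B * (3 * (n : ℝ) + 1) ≤ B * 7 * T := by
    have : 3 * (n : ℝ) + 1 ≤ 7 * T := by linarith
    nlinarith
  have hB0 : 0 < B := by linarith
  have hpos : 0 < B * (3 * (n : ℝ) + 1) := by positivity
  have hlog : Real.log (B * (3 * (n : ℝ) + 1)) ≤ Real.log B + Real.log 7 + Real.log T := by
    refine (Real.log_le_log hpos hbase).trans (le_of_eq ?_)
    rw [Real.log_mul (by positivity) hTp.ne', Real.log_mul hB0.ne' (by norm_num)]
  rw [← Real.rpow_natCast, Real.rpow_def_of_pos hpos]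
  apply Real.exp_le_exp.2
  have h1 : 0 ≤ Real.log B := Real.log_nonneg hB
  have h2 : 0 ≤ Real.log 7 := Real.log_nonneg (by norm_num)
  have h3 : Real.log B + Real.log 7 ≤ (Real.log B + Real.log 7) / Real.log 2 * Real.log T := by
    rw [div_mul_eq_mul_div, le_div_iff₀ hl2]
    exact mul_le_mul_of_nonneg_left hlT (add_nonneg h1 h2)
  have hlT0 : 0 ≤ Real.log T := hl2.le.trans hlT
  set K := (Real.log B + Real.log 7) / Real.log 2 with hK
  have h4 : Real.log (B * (3 * (n : ℝ) + 1)) ≤ (K + 1) * Real.log T := by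
    have : (K + 1) * Real.log T = K * Real.log T + Real.log T := by ring
    rw [this]
    linarith
  have hK0 : 0 ≤ K := div_nonneg (add_nonneg h1 h2) hl2.le
  calc Real.log (B * (3 * (n : ℝ) + 1)) * n ≤ (K + 1) * Real.log T * n := mul_le_mul_of_nonneg_right h4 hn0
    _ ≤ (K + 1) * Real.log T * (2 * T) := mul_le_mul_of_nonneg_left hn' (by positivity)
    _ ≤ (6 + 2 * (K + 1)) * T * Real.log T := by nlinarith [mul_nonneg hTp.le hlT0]

theorem Wd_length {n T : ℕ} (w : Wd n T) : w.l.length = (w.1 : ℕ) := by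
  simp [Wd.l]

variable {c : ℕ} (D : Dat c)

theorem Ph_diff_u (s : Fin (2 * c + 1) → ℂ) : Differentiable ℂ (fun u => Ph D u s) := by
  have h : Differentiable ℂ (fun u : Fin (2 * c + 1) → ℂ => (u, s)) := differentiable_id.prodMk (differentiable_const s)
  intro u
  exact ((Ph_diff D) (u, s)).comp u (h u)

theorem Ph_diff_s (u : Fin (2 * c + 1) → ℂ) : Differentiable ℂ (fun s => Ph D u s) := by
  have h : Differentiable ℂ (fun s : Fin (2 * c + 1) → ℂ => (u, s)) := (differentiable_const u).prodMk differentiable_id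
  intro s
  exact ((Ph_diff D) (u, s)).comp s (h s)

theorem Ph_secu (s : Fin (2 * c + 1) → ℂ) : Sec D.d D.Lt (Cu D) (fun u => Ph D u s) where
  diff := Ph_diff_u D s
  per := fun a u => Ph_lat_u D a u s
  ker := fun k hk u => Ph_ker_u D k hk u s

theorem Ph_secs (u : Fin (2 * c + 1) → ℂ) : Sec D.d D.L (Cs D) (fun s => Ph D u s) where
  diff := Ph_diff_s D u
  per := fun a s => Ph_lat_s D a u s
  ker := fun k hk s => Ph_ker_s D k hk u s

theorem Ph_Ker : Ker D (Ph D) (Cu D) (Cs D) where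
  diff := Ph_diff D
  secu := Ph_secu D
  secs := Ph_secs D
  mulu := mulu_ok D
  muls := muls_ok D
  sh := Ph_sh D
  jump := Ph_jump D
  grow := Ph_grow D
  one := Ph_one D

theorem ev_zero : ev D 0 0 = vv D.z 0 0 0 := by
  rw [ev]
  congr 1
  funext j
  simp [xa]

end Pool.Agent.LT.KE

namespace Pool.Agent.LT

open KE

/-- Theorem E -/
theorem thmE : ThmE := by
  intro c D _ hj
  refine ⟨Ph D, Cu D, Cs D, Ph_Ker D, ?_⟩
  obtain ⟨B, hB, hlen⟩ := PP_len D
  obtain ⟨CE, hCE, hnum⟩ := num_bd B hB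
  set e := Fintype.equivFin (Va (2 * c + 1)) with he
  have hd : (D.d : ℂ) ≠ 0 := by exact_mod_cast D.hd.ne'
  refine ⟨Fintype.card (Va (2 * c + 1)), fun i => ev D 0 0 (e.symm i), D.d / om, CE, div_ne_zero hd om_ne, ?_, ?_⟩
  · refine trdeg_le _ _ ?_
    rintro x ⟨i, rfl⟩
    simp only
    rw [ev_zero]
    refine vals_alg D.z D.im hj _ ?_ ?_ ?_ ?_ _
    · exact fun j => IntermediateField.subset_adjoin ℚ _ (Set.mem_iUnion.2 ⟨j, by simp⟩)
    · exact fun j => IntermediateField.subset_adjoin ℚ _ (Set.mem_iUnion.2 ⟨j, by simp⟩)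
    · exact fun j => IntermediateField.subset_adjoin ℚ _ (Set.mem_iUnion.2 ⟨j, by simp⟩)
    · exact fun j => IntermediateField.subset_adjoin ℚ _ (Set.mem_iUnion.2 ⟨j, by simp⟩)
  intro T hT
  have hT' : (2 : ℝ) ≤ T := by exact_mod_cast hT
  refine ⟨fun w w' => rename e (PP D w.l w'.l), ?_, ?_, ?_⟩
  · intro w w'
    have h1 : (rename e (PP D w.l w'.l)).totalDegree ≤ 3 * (w.l.length + w'.l.length) :=
      (totalDegree_rename_le _ _).trans (PP_deg D _ _)
    rw [Wd_length, Wd_length] at h1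
    have h2 : (w.1 : ℕ) < T := w.1.2
    have h3 : (w'.1 : ℕ) < T := w'.1.2
    have h4 : (rename e (PP D w.l w'.l)).totalDegree ≤ 6 * T := by omega
    have h5 : ((rename e (PP D w.l w'.l)).totalDegree : ℝ) ≤ 6 * T := by exact_mod_cast h4
    refine h5.trans ?_
    nlinarith
  · intro w w'
    rw [len_rename]
    refine (hlen w.l w'.l).trans ?_
    rw [Wd_length, Wd_length]
    have h2 : (w.1 : ℕ) < T := w.1.2
    have h3 : (w'.1 : ℕ) < T := w'.1.2
    exact hnum T _ hT (by omega)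
  · intro w w'
    have h1 : aeval (fun i => ev D 0 0 (e.symm i)) (rename e (PP D w.l w'.l)) = aeval (ev D 0 0) (PP D w.l w'.l) := by
      rw [aeval_rename]
      congr 2
      funext v
      simp
    rw [h1, mix_eq, Wd_length, Wd_length, ← mul_assoc, ← mul_pow]
    have h2 : (D.d : ℂ) / om * (om / D.d) = 1 := by
      field_simp [om_ne]
    rw [h2, one_pow, one_mul]

end Pool.Agent.LT
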