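import Pool.Agent.Lib.MP_f58a57_nt.LT.E0_Defs
import Pool.Agent.Lib.MP_f58a57_nt.P.T3_Zeros
import Pool.Agent.Lib.MP_f58a57_nt.P.T5_Growth

/-!
# E1: the theta function with base point `1/2`
-/

open Complex

noncomputable section

namespace Pool.Agent.LT.KE

/-- PROOF: `MSP.th_real_ne` (file P/T3_Zeros) with `x = 1/2`. -/
theorem th_half_ne (z : ℂ) (hz : 0 < z.im) : MSP.th z (1 / 2) ≠ 0 := by
  have h := MSP.th_real_ne z hz (1 / 2) (by
    intro m hm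
    have h2 : (2 * m : ℤ) = 1 := by
      have : (2 : ℝ) * m = 1 := by rw [← hm]; norm_num
      exact_mod_cast this
    omega)
  have e : (((1 / 2 : ℝ)) : ℂ) = 1 / 2 := by push_cast; ring
  rwa [e] at h

theorem th1_zero (z : ℂ) (hz : 0 < z.im) : th1 z 0 = 1 := by
  unfold th1
  rw [add_zero, div_self (th_half_ne z hz)]

/-- PROOF: `MSP.th_differentiable`. -/
theorem th1_diff (z : ℂ) (hz : 0 < z.im) : Differentiable ℂ (th1 z) := by
  have h := MSP.th_differentiable z hz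
  have h2 : Differentiable ℂ (fun x : ℂ => MSP.th z (1 / 2 + x)) :=
    h.comp ((differentiable_const _).add differentiable_id)
  exact h2.div_const _

/-- PROOF: `MSP.N0_shift` (P/T4_Shift) at `t = 1/2 + x`: `au z m n t = (-1)^(m+n) exp(-πi n² z - 2πi n (1/2 + x))` and
`exp(-πi n) = (-1)^n` (e.g. `Complex.exp_int_mul`, `Complex.exp_pi_mul_I`). -/
theorem th1_shift (z : ℂ) (hz : 0 < z.im) (m n : ℤ) (x : ℂ) :
    th1 z (x + m + n * z) = (-1 : ℂ) ^ m * cexp (-(Real.pi * I * (n : ℂ) ^ 2 * z)) * ee (-(n * x)) * th1 z x := by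
  have h := MSP.N0_shift z hz m n (1 / 2 + x)
  unfold MSP.N0 MSP.au at h
  have e1 : (1 : ℂ) / 2 + (x + m + n * z) = 1 / 2 + x + m + n * z := by ring
  unfold th1
  rw [e1, h]
  have e2 : -(Real.pi * I * (n : ℂ) ^ 2 * z) - 2 * Real.pi * I * n * (1 / 2 + x) =
      -(Real.pi * I * (n : ℂ) ^ 2 * z) + (((-n : ℤ) : ℂ) * (Real.pi * I) + 2 * Real.pi * I * (-(n * x))) := by
    push_cast; ring
  have e3 : cexp (((-n : ℤ) : ℂ) * (Real.pi * I)) = (-1 : ℂ) ^ n := by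
    rw [Complex.exp_int_mul, Complex.exp_pi_mul_I, zpow_neg, ← inv_zpow]
    norm_num
  have e4 : (-1 : ℂ) ^ n * (-1 : ℂ) ^ n = 1 := by
    rw [← mul_zpow]; norm_num
  rw [e2, Complex.exp_add, Complex.exp_add, e3, zpow_add₀ (by norm_num : (-1 : ℂ) ≠ 0)]
  unfold ee
  have e5 : ∀ (a b c e f : ℂ), a * b * (c * (b * e)) * f = (b * b) * (a * c * e * f) := by intros; ring
  rw [mul_div_assoc, e5, e4, one_mul]

/-- PROOF: `MSP.growth` (P/T5_Growth; any `s`, e.g. `0`; `N0 = th`), `|Im (1/2 + x)| ≤ ‖x‖`, and the constant `1/‖th z (1/2)‖` is at most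
`exp C'` for some `C' ≥ 0` (e.g. `Real.add_one_le_exp`). -/
theorem th1_growth (z : ℂ) (hz : 0 < z.im) : ∃ C : ℝ, 0 ≤ C ∧ ∀ x, ‖th1 z x‖ ≤ Real.exp (C * (1 + ‖x‖ ^ 2)) := by
  obtain ⟨C, hC, h⟩ := MSP.growth z 0 hz
  set B : ℝ := 1 / ‖MSP.th z (1 / 2)‖ with hB
  have hB0 : 0 ≤ B := by positivity
  refine ⟨C + B, by positivity, ?_⟩
  intro x
  have h1 := (h (1 / 2 + x)).1
  unfold MSP.N0 at h1
  have him : (1 / 2 + x).im = x.im := by
    have : ((1 : ℂ) / 2).im = 0 := by simp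
    rw [Complex.add_im, this, zero_add]
  rw [him] at h1
  have hx : x.im ^ 2 ≤ ‖x‖ ^ 2 := by
    rw [← sq_abs]
    exact pow_le_pow_left₀ (abs_nonneg _) (Complex.abs_im_le_norm x) 2
  have hBe : B ≤ Real.exp (B * (1 + ‖x‖ ^ 2)) := by
    have h2 := Real.add_one_le_exp (B * (1 + ‖x‖ ^ 2))
    have h3 : B ≤ B * (1 + ‖x‖ ^ 2) := by
      have : 0 ≤ B * ‖x‖ ^ 2 := by positivity
      nlinarith
    linarith
  unfold th1
  rw [norm_div, div_eq_mul_one_div, ← hB, add_mul, Real.exp_add]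
  apply mul_le_mul _ hBe hB0 (Real.exp_nonneg _)
  refine h1.trans (Real.exp_le_exp.mpr ?_)
  apply mul_le_mul_of_nonneg_left _ hC.le
  linarith

end Pool.Agent.LT.KE
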