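import Pool.Agent.Lib.MP_f58a57_nt.LT.E0_Defs

/-!
# E2: linear algebra of `L` and `Lᵀ`
-/

open Complex Matrix

noncomputable section

namespace Pool.Agent.LT.KE

variable {c : ℕ} (D : Dat c)

theorem Lt_transpose : D.Ltᵀ = D.L := by
  unfold Dat.Lt Dat.L
  rw [transpose_sub, diagonal_transpose, transpose_map]

private theorem L_transpose : D.Lᵀ = D.Lt := by
  rw [← Lt_transpose, transpose_transpose]

theorem dot_L (u s : Fin (2 * c + 1) → ℂ) : u ⬝ᵥ (D.L *ᵥ s) = (D.Lt *ᵥ u) ⬝ᵥ s := by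
  rw [dotProduct_mulVec, ← L_transpose, mulVec_transpose]

theorem dot_Lt (u s : Fin (2 * c + 1) → ℂ) : u ⬝ᵥ (D.Lt *ᵥ s) = (D.L *ᵥ u) ⬝ᵥ s := by
  rw [dotProduct_mulVec, ← Lt_transpose, mulVec_transpose]

private theorem Lt_apply (y : Fin (2 * c + 1) → ℂ) (j : Fin (2 * c + 1)) :
    (D.Lt *ᵥ y) j = D.z j * y j - ∑ k, (D.M j k : ℂ) * y k := by
  unfold Dat.Lt
  rw [sub_mulVec, Pi.sub_apply, mulVec_diagonal]
  rfl

private theorem L_apply (y : Fin (2 * c + 1) → ℂ) (j : Fin (2 * c + 1)) :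
    (D.L *ᵥ y) j = D.z j * y j - ∑ k, (D.M k j : ℂ) * y k := by
  unfold Dat.L
  rw [sub_mulVec, Pi.sub_apply, mulVec_diagonal]
  rfl

/-- PROOF: `D.hMg` (over `ℚ`), cast to `ℂ`. -/
theorem L_gc : D.L *ᵥ D.gc = D.v0 := by
  unfold Dat.v0
  funext j
  rw [L_apply, Lt_apply]
  congr 1
  have h := congrFun D.hMg j
  have h1 : ∑ k, D.M j k * (D.g k : ℚ) = ∑ k, D.M k j * (D.g k : ℚ) := h
  have h2 := congrArg (fun q : ℚ => (q : ℂ)) h1
  simp only [Rat.cast_sum, Rat.cast_mul, Rat.cast_intCast] at h2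
  exact h2.symm

private theorem dM_cast (i j : Fin (2 * c + 1)) : ((D.dM i j : ℤ) : ℂ) = (D.d : ℂ) * (D.M i j : ℂ) := by
  have h := congrArg (fun q : ℚ => (q : ℂ)) (D.hdM i j)
  simpa only [Rat.cast_intCast, Rat.cast_mul, Rat.cast_natCast] using h

/-- PROOF: `D.hdM`. -/
theorem Lt_lat (a : Fin (2 * c + 1) → ℤ) (j : Fin (2 * c + 1)) :
    (D.Lt *ᵥ lat D.d a) j = ((D.d * a j : ℤ) : ℂ) * D.z j - (((D.dM *ᵥ a) j : ℤ) : ℂ) := by
  rw [Lt_apply]
  have h1 : (((D.dM *ᵥ a) j : ℤ) : ℂ) = ∑ k, (D.M j k : ℂ) * lat D.d a k := by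
    have h2 : (D.dM *ᵥ a) j = ∑ k, D.dM j k * a k := rfl
    rw [h2, Int.cast_sum]
    refine Finset.sum_congr rfl fun k _ => ?_
    rw [Int.cast_mul, dM_cast]
    unfold lat
    ring
  rw [h1]
  unfold lat
  push_cast
  ring

theorem L_lat (a : Fin (2 * c + 1) → ℤ) (j : Fin (2 * c + 1)) :
    (D.L *ᵥ lat D.d a) j = ((D.d * a j : ℤ) : ℂ) * D.z j - (((D.dMᵀ *ᵥ a) j : ℤ) : ℂ) := by
  rw [L_apply]
  have h1 : (((D.dMᵀ *ᵥ a) j : ℤ) : ℂ) = ∑ k, (D.M k j : ℂ) * lat D.d a k := by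
    have h2 : (D.dMᵀ *ᵥ a) j = ∑ k, D.dM k j * a k := rfl
    rw [h2, Int.cast_sum]
    refine Finset.sum_congr rfl fun k _ => ?_
    rw [Int.cast_mul, dM_cast]
    unfold lat
    ring
  rw [h1]
  unfold lat
  push_cast
  ring

/-- PROOF: `Lt y = L y = 0`. `conj(y)ᵀ Z y = conj(y)ᵀ M y =: t`; conj(t) = `yᵀ M conj(y)` = (as a scalar, transposed) `conj(y)ᵀ Mᵀ y` = `conj(y)ᵀ Z y = t`
(from `L y = 0`). So `t = Σ z_j |y_j|²` is real: `Σ Im(z_j) |y_j|² = 0`, `y = 0`. -/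
theorem ker_zero (y : Fin (2 * c + 1) → ℂ) (h : D.L *ᵥ y = 0) (h' : D.Lt *ᵥ y = 0) : y = 0 := by
  have h1 : ∀ j, D.z j * y j = ∑ k, (D.M j k : ℂ) * y k := by
    intro j
    have h2 := congrFun h' j
    rw [Lt_apply, Pi.zero_apply, sub_eq_zero] at h2
    exact h2
  have h2 : ∀ j, D.z j * y j = ∑ k, (D.M k j : ℂ) * y k := by
    intro j
    have h3 := congrFun h j
    rw [L_apply, Pi.zero_apply, sub_eq_zero] at h3
    exact h3
  -- the number t
  have ht : (starRingEnd ℂ) (∑ j, D.z j * y j * (starRingEnd ℂ) (y j)) = ∑ j, D.z j * y j * (starRingEnd ℂ) (y j) := by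
    have h3 : ∑ j, D.z j * y j * (starRingEnd ℂ) (y j) = ∑ j, ∑ k, (D.M j k : ℂ) * y k * (starRingEnd ℂ) (y j) := by
      refine Finset.sum_congr rfl fun j _ => ?_
      rw [h1 j, Finset.sum_mul]
    have h4 : ∑ j, D.z j * y j * (starRingEnd ℂ) (y j) = ∑ j, ∑ k, (D.M k j : ℂ) * y k * (starRingEnd ℂ) (y j) := by
      refine Finset.sum_congr rfl fun j _ => ?_
      rw [h2 j, Finset.sum_mul]
    rw [h3, map_sum]
    rw [h3] at h4
    rw [h4, Finset.sum_comm]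
    refine Finset.sum_congr rfl fun j _ => ?_
    rw [map_sum]
    refine Finset.sum_congr rfl fun k _ => ?_
    rw [map_mul, map_mul, Complex.conj_conj, map_ratCast]
    ring
  have him : (∑ j, D.z j * y j * (starRingEnd ℂ) (y j)).im = 0 := Complex.conj_eq_iff_im.mp ht
  rw [Complex.im_sum] at him
  have h5 : ∀ j, (D.z j * y j * (starRingEnd ℂ) (y j)).im = (D.z j).im * Complex.normSq (y j) := by
    intro j
    rw [mul_assoc, Complex.mul_conj, Complex.im_mul_ofReal]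
  have h6 : ∀ j ∈ Finset.univ, 0 ≤ (D.z j).im * Complex.normSq (y j) := fun j _ =>
    mul_nonneg (D.im j).le (Complex.normSq_nonneg _)
  rw [Finset.sum_congr rfl fun j _ => h5 j] at him
  have h7 := (Finset.sum_eq_zero_iff_of_nonneg h6).mp him
  funext j
  have h8 := h7 j (Finset.mem_univ j)
  rcases mul_eq_zero.mp h8 with h9 | h9
  · exact absurd h9 (D.im j).ne'
  · exact Complex.normSq_eq_zero.mp h9

/-- PROOF: the range of `(p, p') ↦ L p' + Lt p` is everything: otherwise there is a nonzero `y` with `y ⬝ᵥ (L p' + Lt p) = 0` for all `p, p'`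
(a nonzero functional vanishing on a proper subspace: `Submodule.exists_le_ker_of_lt_top` / dual annihilator), so `Lt y = 0` and `L y = 0` by
`dot_L`, `dot_Lt`; use `ker_zero`. -/
theorem Lsum_surj (w : Fin (2 * c + 1) → ℂ) : ∃ p p' : Fin (2 * c + 1) → ℂ, D.L *ᵥ p' + D.Lt *ᵥ p = w := by
  classical
  by_contra hcon
  push Not at hcon
  let S : Submodule ℂ (Fin (2 * c + 1) → ℂ) :=
    LinearMap.range (Matrix.mulVecLin D.L) ⊔ LinearMap.range (Matrix.mulVecLin D.Lt)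
  have hS : S < ⊤ := by
    rw [lt_top_iff_ne_top]
    intro htop
    have hw : w ∈ S := by rw [htop]; trivial
    obtain ⟨a, ⟨p', rfl⟩, b, ⟨p, rfl⟩, hab⟩ := Submodule.mem_sup.mp hw
    exact hcon p p' hab
  obtain ⟨f, hf0, hfS⟩ := Submodule.exists_le_ker_of_lt_top S hS
  have hf : ∀ v : Fin (2 * c + 1) → ℂ, f v = (fun i => f (Pi.single i 1)) ⬝ᵥ v := by
    intro v
    conv_lhs => rw [pi_eq_sum_univ' v]
    rw [map_sum]
    refine Finset.sum_congr rfl fun i _ => ?_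
    rw [map_smul, smul_eq_mul, mul_comm]
  have hy : (fun i => f (Pi.single i 1)) = (0 : Fin (2 * c + 1) → ℂ) := by
    apply ker_zero D
    · funext j
      have h1 : f (D.Lt *ᵥ (Pi.single j 1)) = 0 :=
        hfS (Submodule.mem_sup_right ⟨Pi.single j 1, rfl⟩)
      rw [hf, dot_Lt, dotProduct_single, mul_one] at h1
      exact h1
    · funext j
      have h1 : f (D.L *ᵥ (Pi.single j 1)) = 0 :=
        hfS (Submodule.mem_sup_left ⟨Pi.single j 1, rfl⟩)
      rw [hf, dot_L, dotProduct_single, mul_one] at h1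
      exact h1
  apply hf0
  refine LinearMap.ext fun v => ?_
  rw [hf, hy, zero_dotProduct, LinearMap.zero_apply]

end Pool.Agent.LT.KE
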