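import Pool.Agent.Lib.MP_f58a57_nt.LT.E1_Th
import Pool.Agent.Lib.MP_f58a57_nt.LT.E2_Lin

/-!
# E3: the algebraic properties of the kernel
-/

open Complex Matrix

noncomputable section

namespace Pool.Agent.LT.KE

theorem ee_add (x y : ℂ) : ee (x + y) = ee x * ee y := by
  rw [ee, ee, ee, ← Complex.exp_add]
  ring_nf

theorem ee_sum {ι : Type} (s : Finset ι) (f : ι → ℂ) : ee (∑ i ∈ s, f i) = ∏ i ∈ s, ee (f i) := by
  rw [ee, Finset.mul_sum, Complex.exp_sum]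
  rfl

private theorem E3_ee_zero : ee 0 = 1 := by
  simp [ee]

private theorem E3_ee_ne (x : ℂ) : ee x ≠ 0 := Complex.exp_ne_zero _

private theorem E3_negone (m : ℤ) : (-1 : ℂ) ^ (-m) = (-1 : ℂ) ^ m := by
  rw [_root_.zpow_neg, ← _root_.inv_zpow, inv_neg_one]

variable {c : ℕ} (D : Dat c)

private theorem E3_prod (a m : Fin (2 * c + 1) → ℤ) (x : Fin (2 * c + 1) → ℂ) :
    ∏ j, th1 (D.z j) (x j + (((D.d * a j : ℤ) : ℂ) * D.z j - ((m j : ℤ) : ℂ))) =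
      (∏ j, ((-1 : ℂ) ^ (m j) * cexp (-(Real.pi * I * ((D.d : ℂ) * (a j : ℂ)) ^ 2 * D.z j)))) *
        ee (-(lat D.d a ⬝ᵥ x)) * ∏ j, th1 (D.z j) (x j) := by
  have h1 : ee (-(lat D.d a ⬝ᵥ x)) = ∏ j, ee (-((D.d : ℂ) * (a j : ℂ) * x j)) := by
    rw [← ee_sum, Finset.sum_neg_distrib]
    rfl
  rw [h1, ← Finset.prod_mul_distrib, ← Finset.prod_mul_distrib]
  apply Finset.prod_congr rfl
  intro j _
  have h2 : x j + (((D.d * a j : ℤ) : ℂ) * D.z j - ((m j : ℤ) : ℂ)) =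
      x j + ((-(m j) : ℤ) : ℂ) + ((D.d * a j : ℤ) : ℂ) * D.z j := by
    push_cast
    ring
  rw [h2, th1_shift (D.z j) (D.im j), E3_negone]
  push_cast
  rfl

private theorem E3_xa_add_u (u v s : Fin (2 * c + 1) → ℂ) (j : Fin (2 * c + 1)) :
    xa D (u + v) s j = xa D u s j + (D.Lt *ᵥ v) j := by
  simp only [xa, Matrix.mulVec_add, Pi.add_apply]
  ring

private theorem E3_xa_add_s (u v s : Fin (2 * c + 1) → ℂ) (j : Fin (2 * c + 1)) :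
    xa D u (s + v) j = xa D u s j + (D.L *ᵥ v) j := by
  simp only [xa, Matrix.mulVec_add, Pi.add_apply]
  ring

/-- PROOF: `Lt_lat` and `th1_shift` with `m = -(dM a)_j`, `n = d a_j` for every factor; the product of the `ee (-(d a_j x_j))` is `ee (-(lat ⬝ᵥ xa))`,
`xa = L s + Lt u`, and `ee ((u + lat) ⬝ᵥ L s) = ee (u ⬝ᵥ L s) ee (lat ⬝ᵥ L s)`. -/
theorem Ph_lat_u (a : Fin (2 * c + 1) → ℤ) (u s : Fin (2 * c + 1) → ℂ) :
    Ph D (u + lat D.d a) s = Cu D a * ee (-(lat D.d a ⬝ᵥ (D.Lt *ᵥ u))) * Ph D u s := by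
  have h1 : ∏ j, th1 (D.z j) (xa D (u + lat D.d a) s j) =
      Cu D a * ee (-(lat D.d a ⬝ᵥ xa D u s)) * ∏ j, th1 (D.z j) (xa D u s j) := by
    unfold Cu
    rw [← E3_prod]
    apply Finset.prod_congr rfl
    intro j _
    rw [E3_xa_add_u, Lt_lat]
  have h2 : ee ((u + lat D.d a) ⬝ᵥ (D.L *ᵥ s)) * ee (-(lat D.d a ⬝ᵥ xa D u s)) =
      ee (-(lat D.d a ⬝ᵥ (D.Lt *ᵥ u))) * ee (u ⬝ᵥ (D.L *ᵥ s)) := by
    rw [← ee_add, ← ee_add]
    congr 1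
    unfold xa
    rw [add_dotProduct, dotProduct_add]
    ring
  unfold Ph
  rw [h1]
  calc ee ((u + lat D.d a) ⬝ᵥ (D.L *ᵥ s)) * (Cu D a * ee (-(lat D.d a ⬝ᵥ xa D u s)) * ∏ j, th1 (D.z j) (xa D u s j))
      = (ee ((u + lat D.d a) ⬝ᵥ (D.L *ᵥ s)) * ee (-(lat D.d a ⬝ᵥ xa D u s))) * Cu D a * ∏ j, th1 (D.z j) (xa D u s j) := by ring
    _ = _ := by rw [h2]; ring

/-- PROOF: same with `L_lat`; `u ⬝ᵥ L (lat) = (Lt u) ⬝ᵥ lat` by `dot_L`. -/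
theorem Ph_lat_s (a : Fin (2 * c + 1) → ℤ) (u s : Fin (2 * c + 1) → ℂ) :
    Ph D u (s + lat D.d a) = Cs D a * ee (-(lat D.d a ⬝ᵥ (D.L *ᵥ s))) * Ph D u s := by
  have h1 : ∏ j, th1 (D.z j) (xa D u (s + lat D.d a) j) =
      Cs D a * ee (-(lat D.d a ⬝ᵥ xa D u s)) * ∏ j, th1 (D.z j) (xa D u s j) := by
    unfold Cs
    rw [← E3_prod]
    apply Finset.prod_congr rfl
    intro j _
    rw [E3_xa_add_s, L_lat]
  have h2 : ee (u ⬝ᵥ (D.L *ᵥ (s + lat D.d a))) * ee (-(lat D.d a ⬝ᵥ xa D u s)) =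
      ee (-(lat D.d a ⬝ᵥ (D.L *ᵥ s))) * ee (u ⬝ᵥ (D.L *ᵥ s)) := by
    rw [← ee_add, ← ee_add]
    congr 1
    unfold xa
    rw [Matrix.mulVec_add, dotProduct_add, dotProduct_add, dot_L D u (lat D.d a),
      dotProduct_comm (lat D.d a) (D.Lt *ᵥ u)]
    ring
  unfold Ph
  rw [h1]
  calc ee (u ⬝ᵥ (D.L *ᵥ (s + lat D.d a))) * (Cs D a * ee (-(lat D.d a ⬝ᵥ xa D u s)) * ∏ j, th1 (D.z j) (xa D u s j))
      = (ee (u ⬝ᵥ (D.L *ᵥ (s + lat D.d a))) * ee (-(lat D.d a ⬝ᵥ xa D u s))) * Cs D a * ∏ j, th1 (D.z j) (xa D u s j) := by ring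
    _ = _ := by rw [h2]; ring

theorem Ph_ker_u (k : Fin (2 * c + 1) → ℂ) (hk : D.Lt *ᵥ k = 0) (u s : Fin (2 * c + 1) → ℂ) : Ph D (u + k) s = Ph D u s := by
  have h1 : ∀ j, xa D (u + k) s j = xa D u s j := by
    intro j
    rw [E3_xa_add_u, hk, Pi.zero_apply, add_zero]
  unfold Ph
  rw [add_dotProduct, dot_L D k s, hk, zero_dotProduct, add_zero]
  simp only [h1]

theorem Ph_ker_s (k : Fin (2 * c + 1) → ℂ) (hk : D.L *ᵥ k = 0) (u s : Fin (2 * c + 1) → ℂ) : Ph D u (s + k) = Ph D u s := by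
  have h1 : ∀ j, xa D u (s + k) j = xa D u s j := by
    intro j
    rw [E3_xa_add_s, hk, Pi.zero_apply, add_zero]
  unfold Ph
  rw [Matrix.mulVec_add, hk, add_zero]
  simp only [h1]

private theorem E3_mul (m a : Fin (2 * c + 1) → ℤ) :
    ‖∏ j, ((-1 : ℂ) ^ (m j) * cexp (-(Real.pi * I * ((D.d : ℂ) * (a j : ℂ)) ^ 2 * D.z j)))‖ =
      Real.exp (Real.pi * ∑ j, (D.z j).im * ((D.d : ℝ) * (a j : ℝ)) ^ 2 + ∑ j, (0 : Fin (2 * c + 1) → ℝ) j * ((D.d : ℝ) * (a j : ℝ))) := by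
  simp only [Pi.zero_apply, zero_mul, Finset.sum_const_zero, add_zero]
  rw [norm_prod, Finset.mul_sum, Real.exp_sum]
  apply Finset.prod_congr rfl
  intro j _
  rw [norm_mul, norm_zpow, norm_neg, norm_one, _root_.one_zpow, one_mul, Complex.norm_exp]
  congr 1
  have h : -(Real.pi * I * ((D.d : ℂ) * (a j : ℂ)) ^ 2 * D.z j) =
      ((-(Real.pi * ((D.d : ℝ) * (a j : ℝ)) ^ 2) : ℝ) : ℂ) * (I * D.z j) := by
    push_cast
    ring
  rw [h, Complex.re_ofReal_mul, Complex.I_mul_re]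
  ring

/-- PROOF: `l = 0`; the norm of every factor: `‖cexp w‖ = exp (re w)`. -/
theorem mulu_ok : MulOK D.d D.z (Cu D) := by
  refine ⟨0, fun a => ?_⟩
  unfold Cu
  exact E3_mul D (D.dM *ᵥ a) a

theorem muls_ok : MulOK D.d D.z (Cs D) := by
  refine ⟨0, fun a => ?_⟩
  unfold Cs
  exact E3_mul D (D.dMᵀ *ᵥ a) a

/-- PROOF: `xa` does not change (`L_gc` and `Lt gc = v0` by definition); expand `(u + x g) ⬝ᵥ L (s - x g)` with `dot_L`. -/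
theorem Ph_sh (x : ℂ) (u s : Fin (2 * c + 1) → ℂ) :
    Ph D (u + x • D.gc) (s - x • D.gc) = ee (x * (D.v0 ⬝ᵥ (s - u)) - x ^ 2 * D.nu) * Ph D u s := by
  have hv0 : D.Lt *ᵥ D.gc = D.v0 := rfl
  have hL : D.L *ᵥ (s - x • D.gc) = D.L *ᵥ s - x • D.v0 := by
    rw [Matrix.mulVec_sub, Matrix.mulVec_smul, L_gc]
  have h1 : xa D (u + x • D.gc) (s - x • D.gc) = xa D u s := by
    unfold xa
    rw [hL, Matrix.mulVec_add, Matrix.mulVec_smul, hv0]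
    funext j
    simp only [Pi.add_apply, Pi.sub_apply]
    ring
  have h2 : (u + x • D.gc) ⬝ᵥ (D.L *ᵥ (s - x • D.gc)) =
      (x * (D.v0 ⬝ᵥ (s - u)) - x ^ 2 * D.nu) + u ⬝ᵥ (D.L *ᵥ s) := by
    have h3 : D.gc ⬝ᵥ (D.L *ᵥ s) = D.v0 ⬝ᵥ s := by
      rw [dot_L, hv0]
    have h4 : u ⬝ᵥ D.v0 = D.v0 ⬝ᵥ u := dotProduct_comm _ _
    have h5 : D.gc ⬝ᵥ D.v0 = D.nu := rfl
    rw [hL, add_dotProduct, dotProduct_sub, dotProduct_sub, smul_dotProduct, smul_dotProduct,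
      dotProduct_smul, dotProduct_smul, h3, h4, h5, dotProduct_sub]
    simp only [smul_eq_mul]
    ring
  unfold Ph
  rw [h1, h2, ee_add]
  ring

/-- PROOF: `j` with `g j ≠ 0` (`D.hg`), `nn := Pi.single j (sign (g j))`, `p, p'` from `Lsum_surj`, `xa` moves by the integers `nn` (`th1_shift` with `n = 0`);
`C5 := ee (p ⬝ᵥ L p') * ∏ j, (-1) ^ nn j`. -/
theorem Ph_jump : ∃ (p p' : Fin (2 * c + 1) → ℂ) (nn : Fin (2 * c + 1) → ℤ) (C5 : ℂ), C5 ≠ 0 ∧ D.L *ᵥ p' + D.Lt *ᵥ p = (fun j => (nn j : ℂ)) ∧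
    1 ≤ ∑ j, D.g j * nn j ∧ ∀ u s, Ph D (u + p) (s + p') = C5 * ee (p ⬝ᵥ (D.L *ᵥ s) + u ⬝ᵥ (D.L *ᵥ p')) * Ph D u s := by
  obtain ⟨j0, hj0⟩ : ∃ j, D.g j ≠ 0 := by
    by_contra h
    push Not at h
    exact D.hg (funext h)
  obtain ⟨p, p', hp⟩ := Lsum_surj D (fun j => ((Pi.single j0 (Int.sign (D.g j0)) : Fin (2 * c + 1) → ℤ) j : ℂ))
  refine ⟨p, p', Pi.single j0 (Int.sign (D.g j0)), ee (p ⬝ᵥ (D.L *ᵥ p')) *
    ∏ j, (-1 : ℂ) ^ ((Pi.single j0 (Int.sign (D.g j0)) : Fin (2 * c + 1) → ℤ) j), ?_, hp, ?_, ?_⟩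
  · apply mul_ne_zero (E3_ee_ne _)
    rw [Finset.prod_ne_zero_iff]
    intro j _
    exact zpow_ne_zero _ (by norm_num)
  · rw [Finset.sum_eq_single j0]
    · rw [Pi.single_eq_same, mul_comm, Int.sign_mul_self_eq_abs]
      exact Int.one_le_abs hj0
    · intro j _ hj
      rw [Pi.single_eq_of_ne hj, mul_zero]
    · intro h
      exact absurd (Finset.mem_univ _) h
  · intro u s
    have h1 : ∀ j, xa D (u + p) (s + p') j = xa D u s j + (((Pi.single j0 (Int.sign (D.g j0)) : Fin (2 * c + 1) → ℤ) j : ℤ) : ℂ) := by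
      intro j
      rw [E3_xa_add_u, E3_xa_add_s, add_assoc]
      congr 1
      have := congrFun hp j
      rw [Pi.add_apply] at this
      exact this
    have h2 : ∏ j, th1 (D.z j) (xa D (u + p) (s + p') j) =
        (∏ j, (-1 : ℂ) ^ ((Pi.single j0 (Int.sign (D.g j0)) : Fin (2 * c + 1) → ℤ) j)) * ∏ j, th1 (D.z j) (xa D u s j) := by
      rw [← Finset.prod_mul_distrib]
      apply Finset.prod_congr rfl
      intro j _
      have h3 := th1_shift (D.z j) (D.im j) ((Pi.single j0 (Int.sign (D.g j0)) : Fin (2 * c + 1) → ℤ) j) 0 (xa D u s j)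
      rw [Int.cast_zero, zero_mul, add_zero, zero_mul, neg_zero, E3_ee_zero, mul_one, zero_pow two_ne_zero,
        mul_zero, zero_mul, neg_zero, Complex.exp_zero, mul_one] at h3
      rw [h1, h3]
    have h4 : (u + p) ⬝ᵥ (D.L *ᵥ (s + p')) =
        p ⬝ᵥ (D.L *ᵥ p') + ((p ⬝ᵥ (D.L *ᵥ s) + u ⬝ᵥ (D.L *ᵥ p')) + u ⬝ᵥ (D.L *ᵥ s)) := by
      rw [Matrix.mulVec_add, add_dotProduct, dotProduct_add, dotProduct_add]
      ring
    unfold Ph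
    rw [h2, h4, ee_add, ee_add (p ⬝ᵥ (D.L *ᵥ s) + u ⬝ᵥ (D.L *ᵥ p'))]
    ring

end Pool.Agent.LT.KE
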