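import Pool.Agent.Lib.MP_f58a57_nt.LT.E0_Defs
import Pool.Agent.Lib.MP_f58a57_nt.P.T8c_ODE

/-!
# E4: derivatives of the values along a line
-/

open Complex Matrix MvPolynomial

noncomputable section

namespace Pool.Agent.LT.KE

theorem om_sq : om ^ 2 = (Real.pi : ℂ) := by
  rw [om, ← Complex.ofReal_pow, Real.sq_sqrt Real.pi_pos.le]

theorem om_ne : om ≠ 0 := by
  rw [om, Ne, Complex.ofReal_eq_zero]
  exact (Real.sqrt_pos.2 Real.pi_pos).ne'

/-- the argument moves with speed `δ j` -/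
theorem E4_arg {N : ℕ} (x δ : Fin N → ℂ) (j : Fin N) :
    HasDerivAt (fun t : ℂ => 1 / 2 + (x + t • δ) j) (δ j) 0 := by
  have h1 : HasDerivAt (fun t : ℂ => t * δ j) (1 * δ j) 0 := (hasDerivAt_id (0 : ℂ)).mul_const (δ j)
  have h2 := (h1.const_add (x j)).const_add (1 / 2 : ℂ)
  rw [one_mul] at h2
  exact h2

theorem E4_arg0 {N : ℕ} (x δ : Fin N → ℂ) (j : Fin N) : 1 / 2 + (x + (0 : ℂ) • δ) j = 1 / 2 + x j := by
  rw [zero_smul, add_zero]

theorem E4_comp {N : ℕ} (x δ : Fin N → ℂ) (j : Fin N) {F : ℂ → ℂ} {F' : ℂ} (h : HasDerivAt F F' (1 / 2 + x j)) :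
    HasDerivAt (fun t : ℂ => F (1 / 2 + (x + t • δ) j)) (F' * δ j) 0 := by
  have h1 : HasDerivAt F F' (1 / 2 + (x + (0 : ℂ) • δ) j) := by
    rw [E4_arg0]
    exact h
  exact HasDerivAt.comp (0 : ℂ) h1 (E4_arg x δ j)

theorem E4_lin {N : ℕ} (u e : Fin N → ℂ) (l : Fin N) : HasDerivAt (fun t : ℂ => om * (u + t • e) l) (om * e l) 0 := by
  have h1 : HasDerivAt (fun t : ℂ => t * e l) (1 * e l) 0 := (hasDerivAt_id (0 : ℂ)).mul_const (e l)
  have h2 := (h1.const_add (u l)).const_mul om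
  rw [one_mul] at h2
  exact h2

/-- PROOF: one variable at a time (`cases v`): `MSP.hasDerivAt_ph`, `MSP.wp_analyticAt` (for `wp`, its `deriv`), `MSP.wp_ode2` (for `deriv wp`), all
composed with `t ↦ 1/2 + (x j + t δ j)` (derivative `δ j`). -/
theorem vals_X {N : ℕ} (z x δ u e s e' : Fin N → ℂ) (hz : ∀ j, 0 < (z j).im) (hr : Reg z x)
    (a b b' : Fin N → MvPolynomial (Va N) ℤ) (κ : ℂ) (ha : ∀ j, om * δ j = κ * aeval (vv z x u s) (a j))
    (hb : ∀ l, om * e l = κ * aeval (vv z x u s) (b l)) (hb' : ∀ l, om * e' l = κ * aeval (vv z x u s) (b' l)) (v : Va N) :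
    HasDerivAt (fun t : ℂ => vv z (x + t • δ) (u + t • e) (s + t • e') v) (κ * aeval (vv z x u s) (dV a b b' (X v))) 0 := by
  have hom := om_ne
  rw [dV, mkDerivation_X]
  cases v with
  | z j =>
    show HasDerivAt (fun _ : ℂ => z j) (κ * aeval (vv z x u s) (0 : MvPolynomial (Va N) ℤ)) 0
    rw [map_zero, mul_zero]
    exact hasDerivAt_const _ _
  | i =>
    show HasDerivAt (fun _ : ℂ => I) (κ * aeval (vv z x u s) (0 : MvPolynomial (Va N) ℤ)) 0
    rw [map_zero, mul_zero]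
    exact hasDerivAt_const _ _
  | X j =>
    have h1 := E4_comp x δ j (MSP.wp_analyticAt (z j) (MSP.sE (z j)) (hz j) (1 / 2 + x j)
      (hr j)).differentiableAt.hasDerivAt
    have h2 := h1.div_const (om ^ 2)
    have e : κ * aeval (vv z x u s) (a j * MvPolynomial.X (Va.Y j)) =
        deriv (MSP.wp (z j) (MSP.sE (z j))) (1 / 2 + x j) * δ j / om ^ 2 := by
      have hY : vv z x u s (Va.Y j) = deriv (MSP.wp (z j) (MSP.sE (z j))) (1 / 2 + x j) / om ^ 3 := rfl
      rw [map_mul, aeval_X, hY, ← mul_assoc, ← ha j]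
      field_simp
    show HasDerivAt (fun t : ℂ => MSP.wp (z j) (MSP.sE (z j)) (1 / 2 + (x + t • δ) j) / om ^ 2)
      (κ * aeval (vv z x u s) (a j * MvPolynomial.X (Va.Y j))) 0
    rw [e]
    exact h2
  | Y j =>
    have h1 := E4_comp x δ j (MSP.wp_ode2 (z j) (hz j) (1 / 2 + x j) (hr j))
    have h2 := h1.div_const (om ^ 3)
    have e : κ * aeval (vv z x u s) (a j * (6 * MvPolynomial.X (Va.X j) ^ 2 - MvPolynomial.X (Va.g j))) =
        (6 * MSP.wp (z j) (MSP.sE (z j)) (1 / 2 + x j) ^ 2 - 2 / 3 * Real.pi ^ 4 * MSD.e4 (z j)) * δ j / om ^ 3 := by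
      have hX : vv z x u s (Va.X j) = MSP.wp (z j) (MSP.sE (z j)) (1 / 2 + x j) / om ^ 2 := rfl
      have hg : vv z x u s (Va.g j) = 2 / 3 * Real.pi ^ 4 * MSD.e4 (z j) / om ^ 4 := rfl
      rw [map_mul, map_sub, map_mul, map_pow, aeval_X, aeval_X, map_ofNat, hX, hg, ← mul_assoc, ← ha j]
      field_simp
    show HasDerivAt (fun t : ℂ => deriv (MSP.wp (z j) (MSP.sE (z j))) (1 / 2 + (x + t • δ) j) / om ^ 3)
      (κ * aeval (vv z x u s) (a j * (6 * MvPolynomial.X (Va.X j) ^ 2 - MvPolynomial.X (Va.g j)))) 0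
    rw [e]
    exact h2
  | g j =>
    show HasDerivAt (fun _ : ℂ => 2 / 3 * Real.pi ^ 4 * MSD.e4 (z j) / om ^ 4)
      (κ * aeval (vv z x u s) (0 : MvPolynomial (Va N) ℤ)) 0
    rw [map_zero, mul_zero]
    exact hasDerivAt_const _ _
  | k j =>
    show HasDerivAt (fun _ : ℂ => MSP.sE (z j) / om ^ 2) (κ * aeval (vv z x u s) (0 : MvPolynomial (Va N) ℤ)) 0
    rw [map_zero, mul_zero]
    exact hasDerivAt_const _ _
  | p j =>
    have h1 := E4_comp x δ j (MSP.hasDerivAt_ph (z j) (MSP.sE (z j)) (hz j) (1 / 2 + x j) (hr j))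
    have h2 := h1.div_const om
    have e : κ * aeval (vv z x u s) (-(a j * (MvPolynomial.X (Va.X j) + MvPolynomial.X (Va.k j)))) =
        -(MSP.wp (z j) (MSP.sE (z j)) (1 / 2 + x j) + MSP.sE (z j)) * δ j / om := by
      have hX : vv z x u s (Va.X j) = MSP.wp (z j) (MSP.sE (z j)) (1 / 2 + x j) / om ^ 2 := rfl
      have hk : vv z x u s (Va.k j) = MSP.sE (z j) / om ^ 2 := rfl
      rw [map_neg, map_mul, map_add, aeval_X, aeval_X, hX, hk, mul_neg, ← mul_assoc, ← ha j]
      field_simp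
    show HasDerivAt (fun t : ℂ => MSP.ph (z j) (1 / 2 + (x + t • δ) j) / om)
      (κ * aeval (vv z x u s) (-(a j * (MvPolynomial.X (Va.X j) + MvPolynomial.X (Va.k j))))) 0
    rw [e]
    exact h2
  | U l =>
    show HasDerivAt (fun t : ℂ => om * (u + t • e) l) (κ * aeval (vv z x u s) (b l)) 0
    rw [← hb l]
    exact E4_lin u e l
  | S l =>
    show HasDerivAt (fun t : ℂ => om * (s + t • e') l) (κ * aeval (vv z x u s) (b' l)) 0
    rw [← hb' l]
    exact E4_lin s e' l

/-- PROOF: `MvPolynomial.induction_on` (C, add, mul_X) and the Leibniz rule, from `vals_X`. -/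
theorem vals_R {N : ℕ} (z x δ u e s e' : Fin N → ℂ) (hz : ∀ j, 0 < (z j).im) (hr : Reg z x)
    (a b b' : Fin N → MvPolynomial (Va N) ℤ) (κ : ℂ) (ha : ∀ j, om * δ j = κ * aeval (vv z x u s) (a j))
    (hb : ∀ l, om * e l = κ * aeval (vv z x u s) (b l)) (hb' : ∀ l, om * e' l = κ * aeval (vv z x u s) (b' l))
    (R : MvPolynomial (Va N) ℤ) :
    HasDerivAt (fun t : ℂ => aeval (vv z (x + t • δ) (u + t • e) (s + t • e')) R) (κ * aeval (vv z x u s) (dV a b b' R)) 0 := by
  induction R using MvPolynomial.induction_on with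
  | C n =>
    have e1 : (fun t : ℂ => aeval (vv z (x + t • δ) (u + t • e) (s + t • e')) (C n : MvPolynomial (Va N) ℤ)) =
        fun _ => algebraMap ℤ ℂ n := by
      funext t
      exact aeval_C _ _
    have e2 : dV a b b' (C n) = 0 := derivation_C _ _
    rw [e1, e2, map_zero, mul_zero]
    exact hasDerivAt_const _ _
  | add p q hp hq =>
    have h := hp.add hq
    have e1 : (fun t : ℂ => aeval (vv z (x + t • δ) (u + t • e) (s + t • e')) (p + q)) =
        (fun t : ℂ => aeval (vv z (x + t • δ) (u + t • e) (s + t • e')) p) +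
        fun t : ℂ => aeval (vv z (x + t • δ) (u + t • e) (s + t • e')) q := by
      funext t
      exact map_add _ _ _
    rw [e1, map_add, map_add, mul_add]
    exact h
  | mul_X p v hp =>
    have hv := vals_X z x δ u e s e' hz hr a b b' κ ha hb hb' v
    have h := hp.mul hv
    have e1 : (fun t : ℂ => aeval (vv z (x + t • δ) (u + t • e) (s + t • e')) (p * MvPolynomial.X v)) =
        (fun t : ℂ => aeval (vv z (x + t • δ) (u + t • e) (s + t • e')) p) *
        fun t : ℂ => vv z (x + t • δ) (u + t • e) (s + t • e') v := by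
      funext t
      show aeval (vv z (x + t • δ) (u + t • e) (s + t • e')) (p * MvPolynomial.X v) =
        aeval (vv z (x + t • δ) (u + t • e) (s + t • e')) p * vv z (x + t • δ) (u + t • e) (s + t • e') v
      rw [map_mul, aeval_X]
    have e2 : κ * aeval (vv z x u s) (dV a b b' (p * MvPolynomial.X v)) =
        κ * aeval (vv z x u s) (dV a b b' p) * vv z (x + (0 : ℂ) • δ) (u + (0 : ℂ) • e) (s + (0 : ℂ) • e') v +
        aeval (vv z (x + (0 : ℂ) • δ) (u + (0 : ℂ) • e) (s + (0 : ℂ) • e')) p *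
          (κ * aeval (vv z x u s) (dV a b b' (MvPolynomial.X v))) := by
      rw [zero_smul, zero_smul, zero_smul, add_zero, add_zero, add_zero, Derivation.leibniz, map_add,
        smul_eq_mul, smul_eq_mul, map_mul, map_mul, aeval_X]
      ring
    rw [e1, e2]
    exact h

/-- PROOF: logarithmic derivative: `HasDerivAt (th1 z) (ph z (1/2 + x) * th1 z x) x` for `th z (1/2 + x) ≠ 0` (`ph = th'/th`), and the product rule
(`HasDerivAt.finset_prod` or induction over the finset). -/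
theorem prod_th1 {N : ℕ} (z x δ : Fin N → ℂ) (hz : ∀ j, 0 < (z j).im) (hr : Reg z x) :
    HasDerivAt (fun t : ℂ => ∏ j, th1 (z j) ((x + t • δ) j)) ((∑ j, δ j * MSP.ph (z j) (1 / 2 + x j)) * ∏ j, th1 (z j) (x j)) 0 := by
  classical
  have hj : ∀ j, HasDerivAt (fun t : ℂ => th1 (z j) ((x + t • δ) j))
      (δ j * MSP.ph (z j) (1 / 2 + x j) * th1 (z j) (x j)) 0 := by
    intro j
    have h1 := E4_comp x δ j (MSP.th_differentiable (z j) (hz j) (1 / 2 + x j)).hasDerivAt
    have h2 := h1.div_const (MSP.th (z j) (1 / 2))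
    have e : δ j * MSP.ph (z j) (1 / 2 + x j) * th1 (z j) (x j) =
        deriv (MSP.th (z j)) (1 / 2 + x j) * δ j / MSP.th (z j) (1 / 2) := by
      have hne := hr j
      have hph : MSP.ph (z j) (1 / 2 + x j) = deriv (MSP.th (z j)) (1 / 2 + x j) / MSP.th (z j) (1 / 2 + x j) := rfl
      have hth : th1 (z j) (x j) = MSP.th (z j) (1 / 2 + x j) / MSP.th (z j) (1 / 2) := rfl
      rw [hph, hth]
      generalize MSP.th (z j) (1 / 2 + x j) = T at hne ⊢
      generalize deriv (MSP.th (z j)) (1 / 2 + x j) = T'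
      field_simp
    rw [e]
    exact h2
  have key : ∀ S : Finset (Fin N), HasDerivAt (fun t : ℂ => ∏ j ∈ S, th1 (z j) ((x + t • δ) j))
      ((∑ j ∈ S, δ j * MSP.ph (z j) (1 / 2 + x j)) * ∏ j ∈ S, th1 (z j) (x j)) 0 := by
    intro S
    induction S using Finset.induction_on with
    | empty =>
      simp only [Finset.prod_empty, Finset.sum_empty, zero_mul]
      exact hasDerivAt_const _ _
    | insert i S hi ih =>
      have h := (hj i).mul ih
      have e1 : (fun t : ℂ => ∏ j ∈ insert i S, th1 (z j) ((x + t • δ) j)) =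
          (fun t : ℂ => th1 (z i) ((x + t • δ) i)) * fun t : ℂ => ∏ j ∈ S, th1 (z j) ((x + t • δ) j) := by
        funext t
        exact Finset.prod_insert hi
      rw [e1, Finset.sum_insert hi, Finset.prod_insert hi]
      have e2 : (δ i * MSP.ph (z i) (1 / 2 + x i) + ∑ j ∈ S, δ j * MSP.ph (z j) (1 / 2 + x j)) *
          (th1 (z i) (x i) * ∏ j ∈ S, th1 (z j) (x j)) =
          δ i * MSP.ph (z i) (1 / 2 + x i) * th1 (z i) (x i) * ∏ j ∈ S, th1 (z j) ((x + (0 : ℂ) • δ) j) +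
          th1 (z i) ((x + (0 : ℂ) • δ) i) *
            ((∑ j ∈ S, δ j * MSP.ph (z j) (1 / 2 + x j)) * ∏ j ∈ S, th1 (z j) (x j)) := by
        rw [zero_smul, add_zero]
        ring
      rw [e2]
      exact h
  exact key Finset.univ

end Pool.Agent.LT.KE
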