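import Pool.Agent.Lib.MP_f58a57_nt.LT.E4_Vals
import Pool.Agent.Lib.MP_f58a57_nt.LT.E2_Lin
import Pool.Agent.Lib.MP_f58a57_nt.LT.E3b_An

/-!
# E4b: the partial derivatives of `R(values) * Ph`
-/

open Complex Matrix MvPolynomial

noncomputable section

namespace Pool.Agent.LT.KE

/-- PROOF: `HasFDerivAt.comp_hasDerivAt` (line `t ↦ u + t • Pi.single l 1`) and uniqueness of derivatives. -/
theorem pd_eq {n : ℕ} (l : Fin n) (F : (Fin n → ℂ) → ℂ) (u : Fin n → ℂ) (v : ℂ) (hF : DifferentiableAt ℂ F u)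
    (h : HasDerivAt (fun t : ℂ => F (u + t • Pi.single l 1)) v 0) : pd l F u = v := by
  have h1 : HasDerivAt (fun t : ℂ => u + t • (Pi.single l 1 : Fin n → ℂ)) (Pi.single l 1) 0 := by
    simpa using ((hasDerivAt_id (0 : ℂ)).smul_const (Pi.single l 1 : Fin n → ℂ)).const_add u
  have h2 : HasFDerivAt F (fderiv ℂ F u) (u + (0 : ℂ) • (Pi.single l 1 : Fin n → ℂ)) := by
    simpa using hF.hasFDerivAt
  exact (h2.comp_hasDerivAt 0 h1).unique h

private theorem e4b_diff {E : Type} [NormedAddCommGroup E] [NormedSpace ℂ E] {N : ℕ} (f : E → Va N → ℂ) (x : E)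
    (h : ∀ v, DifferentiableAt ℂ (fun x => f x v) x) (R : MvPolynomial (Va N) ℤ) :
    DifferentiableAt ℂ (fun x => aeval (f x) R) x := by
  induction R using MvPolynomial.induction_on with
  | C a => simp only [aeval_C]; exact differentiableAt_const _
  | add p q hp hq => simp only [map_add]; exact hp.add hq
  | mul_X p v hp => simp only [map_mul, aeval_X]; exact hp.mul (h v)

private theorem e4b_mv {n : ℕ} (A : Matrix (Fin n) (Fin n) ℂ) (j : Fin n) :
    Differentiable ℂ (fun u : Fin n → ℂ => (A *ᵥ u) j) := by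
  have h1 : (fun u : Fin n → ℂ => (A *ᵥ u) j) = fun u => ∑ k, A j k * u k := rfl
  rw [h1]
  fun_prop

private theorem e4b_vals {E : Type} [NormedAddCommGroup E] [NormedSpace ℂ E] {N : ℕ} (z : Fin N → ℂ) (hz : ∀ j, 0 < (z j).im)
    (X' U' S' : E → Fin N → ℂ) (x : E) (hX : ∀ j, DifferentiableAt ℂ (fun x => X' x j) x)
    (hU : ∀ j, DifferentiableAt ℂ (fun x => U' x j) x) (hS : ∀ j, DifferentiableAt ℂ (fun x => S' x j) x)
    (hr : Reg z (X' x)) (v : Va N) : DifferentiableAt ℂ (fun x => vv z (X' x) (U' x) (S' x) v) x := by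
  cases v with
  | z j => exact differentiableAt_const _
  | i => exact differentiableAt_const _
  | X j =>
    have h1 : DifferentiableAt ℂ (MSP.wp (z j) (MSP.sE (z j))) (1 / 2 + X' x j) :=
      (MSP.wp_analyticAt (z j) (MSP.sE (z j)) (hz j) _ (hr j)).differentiableAt
    have h2 := h1.comp x ((hX j).const_add (1 / 2))
    have h3 := h2.mul_const (om ^ 2)⁻¹
    exact h3
  | Y j =>
    have h1 : DifferentiableAt ℂ (deriv (MSP.wp (z j) (MSP.sE (z j)))) (1 / 2 + X' x j) :=
      (MSP.wp_analyticAt (z j) (MSP.sE (z j)) (hz j) _ (hr j)).deriv.differentiableAt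
    have h2 := h1.comp x ((hX j).const_add (1 / 2))
    have h3 := h2.mul_const (om ^ 3)⁻¹
    exact h3
  | g j => exact differentiableAt_const _
  | k j => exact differentiableAt_const _
  | p j =>
    have h1 : DifferentiableAt ℂ (MSP.ph (z j)) (1 / 2 + X' x j) :=
      (MSP.ph_analyticAt (z j) (hz j) _ (hr j)).differentiableAt
    have h2 := h1.comp x ((hX j).const_add (1 / 2))
    have h3 := h2.mul_const (om)⁻¹
    exact h3
  | U l => exact (hU l).const_mul _
  | S l => exact (hS l).const_mul _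

private theorem e4b_ph {N : ℕ} (z x δ : Fin N → ℂ) (hz : ∀ j, 0 < (z j).im) (hr : Reg z x) (β γ : ℂ) :
    HasDerivAt (fun t : ℂ => ee (β + t * γ) * ∏ j, th1 (z j) ((x + t • δ) j))
      ((2 * Real.pi * I * γ + ∑ j, δ j * MSP.ph (z j) (1 / 2 + x j)) * (ee β * ∏ j, th1 (z j) (x j))) 0 := by
  have h1 : HasDerivAt (fun t : ℂ => ee (β + t * γ)) (ee β * (2 * Real.pi * I * γ)) 0 := by
    have h2 : HasDerivAt (fun t : ℂ => 2 * Real.pi * I * (β + t * γ)) (2 * Real.pi * I * γ) 0 := by
      simpa using (((hasDerivAt_id (0 : ℂ)).mul_const γ).const_add β).const_mul (2 * (Real.pi : ℂ) * I)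
    have h3 := h2.cexp
    simpa [ee] using h3
  have h4 := h1.mul (prod_th1 z x δ hz hr)
  have h5 : (2 * (Real.pi : ℂ) * I * γ + ∑ j, δ j * MSP.ph (z j) (1 / 2 + x j)) * (ee β * ∏ j, th1 (z j) (x j))
      = ee β * (2 * Real.pi * I * γ) * (∏ j, th1 (z j) ((x + (0 : ℂ) • δ) j)) +
        ee (β + 0 * γ) * ((∑ j, δ j * MSP.ph (z j) (1 / 2 + x j)) * ∏ j, th1 (z j) (x j)) := by
    simp only [zero_smul, add_zero, zero_mul]; ring
  rw [h5]
  exact h4

variable {c : ℕ} (D : Dat c)

private theorem e4b_dM (j l : Fin (2 * c + 1)) : ((D.dM j l : ℤ) : ℂ) = D.d * ((D.M j l : ℚ) : ℂ) := by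
  have h := congrArg (fun q : ℚ => (q : ℂ)) (D.hdM j l)
  push_cast at h
  exact h

theorem cLt_val (u s : Fin (2 * c + 1) → ℂ) (j l : Fin (2 * c + 1)) : aeval (ev D u s) (cLt D j l) = D.d * D.Lt j l := by
  rw [cLt, map_sub, Dat.Lt, Matrix.sub_apply, Matrix.map_apply, aeval_C, mul_sub, ← e4b_dM]
  by_cases h : j = l
  · subst h
    simp [ev, vv]
  · simp [h]

theorem cL_val (u s : Fin (2 * c + 1) → ℂ) (j l : Fin (2 * c + 1)) : aeval (ev D u s) (cL D j l) = D.d * D.L j l := by
  rw [cL, map_sub, Dat.L, Matrix.sub_apply, Matrix.map_apply, Matrix.transpose_apply, aeval_C, mul_sub, ← e4b_dM]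
  by_cases h : j = l
  · subst h
    simp [ev, vv]
  · simp [h]

/-- PROOF: `(u, s) ↦ ev` : all values are differentiable in `u` (`s`) near a regular point (`MSP.wp_analyticAt`, `MSP.ph_analyticAt`), `Ph_diff`. -/
theorem diffAt_u (u s : Fin (2 * c + 1) → ℂ) (hr : Reg D.z (xa D u s)) (R : MvPolynomial (Va (2 * c + 1)) ℤ) :
    DifferentiableAt ℂ (fun u => aeval (ev D u s) R * Ph D u s) u := by
  refine (e4b_diff (fun u => ev D u s) u (fun v => ?_) R).mul ?_
  · refine e4b_vals D.z D.im (fun u => xa D u s) (fun u => u) (fun _ => s) u (fun j => ?_) (fun j => ?_)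
      (fun j => differentiableAt_const _) hr v
    · exact ((e4b_mv D.Lt j) u).const_add ((D.L *ᵥ s) j)
    · exact (differentiable_apply j) u
  · have h1 : Differentiable ℂ (fun u : Fin (2 * c + 1) → ℂ => (u, s)) := by fun_prop
    exact ((Ph_diff D).comp h1) u

theorem diffAt_s (u s : Fin (2 * c + 1) → ℂ) (hr : Reg D.z (xa D u s)) (R : MvPolynomial (Va (2 * c + 1)) ℤ) :
    DifferentiableAt ℂ (fun s => aeval (ev D u s) R * Ph D u s) s := by
  refine (e4b_diff (fun s => ev D u s) s (fun v => ?_) R).mul ?_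
  · refine e4b_vals D.z D.im (fun s => xa D u s) (fun _ => u) (fun s => s) s (fun j => ?_) (fun j => differentiableAt_const _)
      (fun j => ?_) hr v
    · exact ((e4b_mv D.L j) s).add_const ((D.Lt *ᵥ u) j)
    · exact (differentiable_apply j) s
  · have h1 : Differentiable ℂ (fun s : Fin (2 * c + 1) → ℂ => (u, s)) := by fun_prop
    exact ((Ph_diff D).comp h1) s

private theorem e4b_d : (D.d : ℂ) ≠ 0 := Nat.cast_ne_zero.2 D.hd.ne'

/-- PROOF: `pd_eq`; `xa D (u + t e_l) s = xa D u s + t • (Lt e_l)`, `(Lt e_l) j = Lt j l`; `vals_R` with `κ = om / d`, `a j = cLt j l`, `b = dl D l`, `b' = 0`, `e' = 0`;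
`Ph D (u + t e_l) s = ee (u ⬝ᵥ L s) * ee (t (L s) l) * ∏ th1`: derivative `(2πi (L s) l + ∑ j, Lt j l * ph j) * Ph = (om/d) * aeval (AU l) * Ph` (`om² = π`). -/
theorem rule_u (u s : Fin (2 * c + 1) → ℂ) (hr : Reg D.z (xa D u s)) (l : Fin (2 * c + 1)) (R : MvPolynomial (Va (2 * c + 1)) ℤ) :
    pd l (fun u => aeval (ev D u s) R * Ph D u s) u = om / D.d * (aeval (ev D u s) (nabU D l R) * Ph D u s) := by
  refine pd_eq l _ u _ (diffAt_u D u s hr R) ?_
  have hx : ∀ t : ℂ, xa D (u + t • Pi.single l 1) s = xa D u s + t • (fun j => D.Lt j l) := by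
    intro t
    rw [xa, xa, Matrix.mulVec_add, Matrix.mulVec_smul, Matrix.mulVec_single_one, ← add_assoc]
    rfl
  have h1 : HasDerivAt (fun t : ℂ => aeval (ev D (u + t • Pi.single l 1) s) R) (om / D.d * aeval (ev D u s) (Du D l R)) 0 := by
    have h2 := vals_R D.z (xa D u s) (fun j => D.Lt j l) u (Pi.single l 1) s 0 D.im hr (fun j => cLt D j l) (dl D l) 0 (om / D.d)
      (fun j => by
        change _ = om / D.d * aeval (ev D u s) (cLt D j l)
        rw [cLt_val, div_mul_eq_mul_div, mul_left_comm, mul_div_assoc, mul_div_cancel₀ _ (e4b_d D)] )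
      (fun l' => by
        rw [dl]
        by_cases h : l' = l
        · subst h
          rw [if_pos rfl, Pi.single_eq_same, aeval_C, div_mul_eq_mul_div]
          simp [mul_div_assoc, div_self (e4b_d D)]
        · rw [if_neg h, Pi.single_eq_of_ne h]; simp)
      (fun l' => by simp) R
    have h3 : (fun t : ℂ => aeval (ev D (u + t • Pi.single l 1) s) R) =
        (fun t : ℂ => aeval (vv D.z (xa D u s + t • (fun j => D.Lt j l)) (u + t • Pi.single l 1) (s + t • 0)) R) := by
      funext t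
      rw [ev, hx, smul_zero, add_zero]
    rw [h3]
    exact h2
  have h4 : HasDerivAt (fun t : ℂ => Ph D (u + t • Pi.single l 1) s) (om / D.d * aeval (ev D u s) (AU D l) * Ph D u s) 0 := by
    have h5 := e4b_ph D.z (xa D u s) (fun j => D.Lt j l) D.im hr (u ⬝ᵥ (D.L *ᵥ s)) ((D.L *ᵥ s) l)
    have h6 : (fun t : ℂ => Ph D (u + t • Pi.single l 1) s) =
        (fun t : ℂ => ee (u ⬝ᵥ (D.L *ᵥ s) + t * (D.L *ᵥ s) l) * ∏ j, th1 (D.z j) ((xa D u s + t • (fun j => D.Lt j l)) j)) := by
      funext t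
      rw [Ph, hx, add_dotProduct, smul_dotProduct, single_one_dotProduct, smul_eq_mul]
    have h7 : om / D.d * aeval (ev D u s) (AU D l) = 2 * Real.pi * I * (D.L *ᵥ s) l + ∑ j, D.Lt j l * MSP.ph (D.z j) (1 / 2 + xa D u s j) := by
      rw [AU, map_add, map_mul, map_mul, map_sum, map_sum]
      simp only [map_mul, cL_val, cLt_val, aeval_X]
      have h8 : ∀ k, ev D u s (Va.S k) = om * s k := fun k => rfl
      have h9 : ∀ k, ev D u s (Va.p k) = MSP.ph (D.z k) (1 / 2 + xa D u s k) / om := fun k => rfl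
      have h10 : ev D u s Va.i = I := rfl
      have h11 : (aeval (ev D u s)) (2 : MvPolynomial (Va (2 * c + 1)) ℤ) = 2 := map_ofNat _ 2
      simp only [h8, h9, h10, h11]
      rw [mul_add]
      congr 1
      · have h12 : (D.L *ᵥ s) l = ∑ k, D.L l k * s k := rfl
        rw [h12, ← om_sq, Finset.mul_sum, Finset.mul_sum, Finset.mul_sum]
        refine Finset.sum_congr rfl fun k _ => ?_
        field_simp [e4b_d D]
      · rw [Finset.mul_sum]
        refine Finset.sum_congr rfl fun k _ => ?_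
        field_simp [e4b_d D, om_ne]
    rw [h6, h7]
    exact h5
  have h13 := h1.mul h4
  have h14 : om / D.d * (aeval (ev D u s) (nabU D l R) * Ph D u s) =
      om / D.d * aeval (ev D u s) (Du D l R) * Ph D (u + (0 : ℂ) • Pi.single l 1) s +
        aeval (ev D (u + (0 : ℂ) • Pi.single l 1) s) R * (om / D.d * aeval (ev D u s) (AU D l) * Ph D u s) := by
    rw [nabU, map_add, map_mul]
    simp only [zero_smul, add_zero]
    ring
  rw [h14]
  exact h13

/-- PROOF: same; `u ⬝ᵥ L (s + t e_l) = u ⬝ᵥ L s + t (Lt u) l` (`dot_L`). -/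
theorem rule_s (u s : Fin (2 * c + 1) → ℂ) (hr : Reg D.z (xa D u s)) (l : Fin (2 * c + 1)) (R : MvPolynomial (Va (2 * c + 1)) ℤ) :
    pd l (fun s => aeval (ev D u s) R * Ph D u s) s = om / D.d * (aeval (ev D u s) (nabS D l R) * Ph D u s) := by
  refine pd_eq l _ s _ (diffAt_s D u s hr R) ?_
  have hx : ∀ t : ℂ, xa D u (s + t • Pi.single l 1) = xa D u s + t • (fun j => D.L j l) := by
    intro t
    rw [xa, xa, Matrix.mulVec_add, Matrix.mulVec_smul, Matrix.mulVec_single_one, add_right_comm]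
    rfl
  have h1 : HasDerivAt (fun t : ℂ => aeval (ev D u (s + t • Pi.single l 1)) R) (om / D.d * aeval (ev D u s) (Ds D l R)) 0 := by
    have h2 := vals_R D.z (xa D u s) (fun j => D.L j l) u 0 s (Pi.single l 1) D.im hr (fun j => cL D j l) 0 (dl D l) (om / D.d)
      (fun j => by
        change _ = om / D.d * aeval (ev D u s) (cL D j l)
        rw [cL_val, div_mul_eq_mul_div, mul_left_comm, mul_div_assoc, mul_div_cancel₀ _ (e4b_d D)] )
      (fun l' => by simp)
      (fun l' => by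
        rw [dl]
        by_cases h : l' = l
        · subst h
          rw [if_pos rfl, Pi.single_eq_same, aeval_C, div_mul_eq_mul_div]
          simp [mul_div_assoc, div_self (e4b_d D)]
        · rw [if_neg h, Pi.single_eq_of_ne h]; simp) R
    have h3 : (fun t : ℂ => aeval (ev D u (s + t • Pi.single l 1)) R) =
        (fun t : ℂ => aeval (vv D.z (xa D u s + t • (fun j => D.L j l)) (u + t • 0) (s + t • Pi.single l 1)) R) := by
      funext t
      rw [ev, hx, smul_zero, add_zero]
    rw [h3]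
    exact h2
  have h4 : HasDerivAt (fun t : ℂ => Ph D u (s + t • Pi.single l 1)) (om / D.d * aeval (ev D u s) (AS D l) * Ph D u s) 0 := by
    have h5 := e4b_ph D.z (xa D u s) (fun j => D.L j l) D.im hr (u ⬝ᵥ (D.L *ᵥ s)) ((D.Lt *ᵥ u) l)
    have h6 : (fun t : ℂ => Ph D u (s + t • Pi.single l 1)) =
        (fun t : ℂ => ee (u ⬝ᵥ (D.L *ᵥ s) + t * (D.Lt *ᵥ u) l) * ∏ j, th1 (D.z j) ((xa D u s + t • (fun j => D.L j l)) j)) := by
      funext t
      rw [Ph, hx, dot_L, dotProduct_add, dotProduct_smul, dotProduct_single_one, smul_eq_mul, ← dot_L]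
    have h7 : om / D.d * aeval (ev D u s) (AS D l) = 2 * Real.pi * I * (D.Lt *ᵥ u) l + ∑ j, D.L j l * MSP.ph (D.z j) (1 / 2 + xa D u s j) := by
      rw [AS, map_add, map_mul, map_mul, map_sum, map_sum]
      simp only [map_mul, cL_val, cLt_val, aeval_X]
      have h8 : ∀ k, ev D u s (Va.U k) = om * u k := fun k => rfl
      have h9 : ∀ k, ev D u s (Va.p k) = MSP.ph (D.z k) (1 / 2 + xa D u s k) / om := fun k => rfl
      have h10 : ev D u s Va.i = I := rfl
      have h11 : (aeval (ev D u s)) (2 : MvPolynomial (Va (2 * c + 1)) ℤ) = 2 := map_ofNat _ 2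
      simp only [h8, h9, h10, h11]
      rw [mul_add]
      congr 1
      · have h12 : (D.Lt *ᵥ u) l = ∑ k, D.Lt l k * u k := rfl
        rw [h12, ← om_sq, Finset.mul_sum, Finset.mul_sum, Finset.mul_sum]
        refine Finset.sum_congr rfl fun k _ => ?_
        field_simp [e4b_d D]
      · rw [Finset.mul_sum]
        refine Finset.sum_congr rfl fun k _ => ?_
        field_simp [e4b_d D, om_ne]
    rw [h6, h7]
    exact h5
  have h13 := h1.mul h4
  have h14 : om / D.d * (aeval (ev D u s) (nabS D l R) * Ph D u s) =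
      om / D.d * aeval (ev D u s) (Ds D l R) * Ph D u (s + (0 : ℂ) • Pi.single l 1) +
        aeval (ev D u (s + (0 : ℂ) • Pi.single l 1)) R * (om / D.d * aeval (ev D u s) (AS D l) * Ph D u s) := by
    rw [nabS, map_add, map_mul]
    simp only [zero_smul, add_zero]
    ring
  rw [h14]
  exact h13

end Pool.Agent.LT.KE
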