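import Mathlib
import Pool.Agent.Lib.MP_f58a57_nt.Defs
import Pool.Agent.Lib.MP_f58a57_nt.LT.E0_Defs

/-!
# MP_f58a57_nt, large transcendence degree: the assembly (E.4)
-/

open Complex MvPolynomial Matrix Filter

noncomputable section

namespace Pool.Agent.LT.ZA

open Pool.Agent.MSD (jj)

/-- the number of words -/
theorem card_Wd (n T : ℕ) : (Fintype.card (Wd n T) : ℝ) ≤ Real.exp (((n : ℝ) + 1) * T) := by
  have h1 : Fintype.card (Wd n T) = ∑ d : Fin T, n ^ (d : ℕ) := by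
    simp [Wd, Fintype.card_sigma]
  rw [h1]
  push_cast
  have h2 : ∀ d : Fin T, (n : ℝ) ^ (d : ℕ) ≤ Real.exp ((n : ℝ) * T) := by
    intro d
    calc (n : ℝ) ^ (d : ℕ) ≤ (Real.exp n) ^ (d : ℕ) := by
          gcongr
          linarith [Real.add_one_le_exp (n : ℝ)]
      _ = Real.exp (d * n) := by rw [← Real.exp_nat_mul]
      _ ≤ Real.exp ((n : ℝ) * T) := by
          apply Real.exp_le_exp.mpr
          have : ((d : ℕ) : ℝ) ≤ T := by exact_mod_cast d.2.le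
          nlinarith [Nat.cast_nonneg (α := ℝ) n]
  calc ∑ d : Fin T, (n : ℝ) ^ (d : ℕ) ≤ ∑ _d : Fin T, Real.exp ((n : ℝ) * T) := Finset.sum_le_sum fun d _ => h2 d
    _ = T * Real.exp ((n : ℝ) * T) := by simp
    _ ≤ Real.exp T * Real.exp ((n : ℝ) * T) := by
        gcongr
        linarith [Real.add_one_le_exp (T : ℝ)]
    _ = Real.exp (((n : ℝ) + 1) * T) := by rw [← Real.exp_add]; ring_nf

theorem ev_log (A : ℝ) {ε : ℝ} (hε : 0 < ε) : ∀ᶠ x : ℝ in atTop, A * Real.log x ≤ x ^ ε := by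
  have h := (isLittleO_log_rpow_atTop hε).const_mul_left A
  filter_upwards [h.bound one_pos, eventually_ge_atTop (1 : ℝ)] with x hx h1
  rw [Real.norm_eq_abs, Real.norm_eq_abs, one_mul, abs_of_nonneg (Real.rpow_nonneg (by linarith) _)] at hx
  exact (le_abs_self _).trans hx

theorem ev_const (A : ℝ) {ε : ℝ} (hε : 0 < ε) : ∀ᶠ x : ℝ in atTop, A ≤ x ^ ε :=
  (tendsto_rpow_atTop hε).eventually_ge_atTop A

/-- all the inequalities needed for large `T` -/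
structure Big (c : ℕ) (ε q A : ℝ) (x : ℝ) : Prop where
  one : 1 ≤ x
  e1 : A * x * Real.log x ≤ (q * x) ^ (1 + ε)
  e2 : A * x ≤ (q * x) ^ (1 + ε)
  e3 : ∀ j : ℝ, 1 ≤ j → j ≤ RR (2 * c) ε (q * x) → Real.log j + A * x + A * x * Real.log x ≤ (q * x) ^ (1 + ε)
  e4 : RR (2 * c) ε (q * x) ≤ x ^ ((c : ℝ) + 1 - 4 * (ε / 12))
  e5 : ∀ j : ℝ, 0 ≤ j → x ^ (6 * (ε / 12)) * (j + x) + A * x ≤ (q * x) ^ ε * (j + q * x)

theorem big (c : ℕ) {ε q A : ℝ} (hε : 0 < ε) (hc : ε * (200 * ((c : ℝ) + 1)) ≤ 1) (hq : 1 ≤ q) (hA : 0 ≤ A) :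
    ∀ᶠ x : ℝ in atTop, Big c ε q A x := by
  have _ := hA
  have hc0 : (0 : ℝ) ≤ c := Nat.cast_nonneg c
  set e : ℝ := ((2 * c : ℕ) + 1 : ℝ) / 2 + 10 * ((2 * c : ℕ) + 2 : ℝ) * ε with he
  have he' : e = (c : ℝ) + 1 / 2 + 20 * ((c : ℝ) + 1) * ε := by rw [he]; push_cast; ring
  have he1 : e ≤ (c : ℝ) + 1 / 2 + 1 / 10 := by rw [he']; nlinarith
  have he0 : 0 ≤ e := by rw [he']; positivity
  have hεs : ε ≤ 1 / 200 := by nlinarith
  have hgap : 0 < ((c : ℝ) + 1 - 4 * (ε / 12)) - e := by linarith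
  filter_upwards [eventually_ge_atTop (1 : ℝ), ev_log (8 * A) hε, ev_log (8 * e) (show (0 : ℝ) < 1 + ε by linarith),
    ev_const (8 * A) hε, ev_const (8 * e * Real.log q) hε, ev_const (q ^ e) hgap, ev_const 2 (show (0 : ℝ) < ε / 2 by linarith)] with
    x h1 hl1 hl2 hc1 hc2 hc3 hc4
  have hx0 : 0 < x := by linarith
  have hqx : x ≤ q * x := by nlinarith
  have hq0 : 0 < q := by linarith
  have hlog : 0 ≤ Real.log x := Real.log_nonneg h1
  have hxe : x ^ (1 + ε) = x * x ^ ε := by rw [Real.rpow_add hx0, Real.rpow_one]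
  have hbig : x ^ (1 + ε) ≤ (q * x) ^ (1 + ε) := Real.rpow_le_rpow hx0.le hqx (by linarith)
  have hxe1 : x ≤ x ^ (1 + ε) := by
    rw [hxe]
    have : 1 ≤ x ^ ε := Real.one_le_rpow h1 hε.le
    nlinarith
  have hA1 : A * x * Real.log x ≤ x ^ (1 + ε) / 8 := by
    rw [hxe]; nlinarith
  have hA2 : A * x ≤ x ^ (1 + ε) / 8 := by
    rw [hxe]; nlinarith
  have hp : 0 < x ^ (1 + ε) := Real.rpow_pos_of_pos hx0 _
  refine ⟨h1, by linarith, by linarith, ?_, ?_, ?_⟩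
  · intro j hj hjR
    have hRR : RR (2 * c) ε (q * x) = (q * x) ^ e := by rw [RR, he]
    rw [hRR] at hjR
    have h3 : Real.log j ≤ e * (Real.log q + Real.log x) := by
      calc Real.log j ≤ Real.log ((q * x) ^ e) := Real.log_le_log (by linarith) hjR
        _ = e * Real.log (q * x) := Real.log_rpow (by positivity) _
        _ = e * (Real.log q + Real.log x) := by rw [Real.log_mul hq0.ne' hx0.ne']
    have h4 : e * Real.log x ≤ x ^ (1 + ε) / 8 := by linarith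
    have h5 : e * Real.log q ≤ x ^ (1 + ε) / 8 := by
      have h6 : x ^ ε ≤ x ^ (1 + ε) := Real.rpow_le_rpow_of_exponent_le h1 (by linarith)
      linarith
    nlinarith
  · have hRR : RR (2 * c) ε (q * x) = (q * x) ^ e := by rw [RR, he]
    rw [hRR, Real.mul_rpow hq0.le hx0.le]
    calc q ^ e * x ^ e ≤ x ^ (((c : ℝ) + 1 - 4 * (ε / 12)) - e) * x ^ e := by gcongr
      _ = x ^ ((c : ℝ) + 1 - 4 * (ε / 12)) := by rw [← Real.rpow_add hx0]; ring_nf
  · intro j hj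
    have h7 : x ^ (6 * (ε / 12)) = x ^ (ε / 2) := by ring_nf
    have h8 : x ^ ε = x ^ (ε / 2) * x ^ (ε / 2) := by rw [← Real.rpow_add hx0]; ring_nf
    have h9 : x ^ ε ≤ (q * x) ^ ε := Real.rpow_le_rpow hx0.le hqx hε.le
    have h10 : 0 < x ^ (ε / 2) := Real.rpow_pos_of_pos hx0 _
    have h11 : x ^ (ε / 2) ≤ x ^ ε / 2 := by rw [h8]; nlinarith
    rw [h7]
    have hp' : 0 < x ^ ε := Real.rpow_pos_of_pos hx0 _
    have hjx : 0 ≤ j + x := by linarith
    have h12 : A * x ≤ x ^ ε / 8 * x := mul_le_mul_of_nonneg_right (by linarith) hx0.le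
    have h13 : x ^ ε / 8 * x ≤ x ^ ε / 8 * (j + x) := mul_le_mul_of_nonneg_left (by linarith) (by linarith)
    have h14 : x ^ (ε / 2) * (j + x) ≤ x ^ ε / 2 * (j + x) := mul_le_mul_of_nonneg_right h11 hjx
    have h15 : 0 ≤ x ^ ε * (j + x) := mul_nonneg hp'.le hjx
    have h16 : x ^ ε * (j + x) ≤ (q * x) ^ ε * (j + q * x) :=
      mul_le_mul h9 (by linarith) hjx (hp'.le.trans h9)
    linarith


/-- the hypotheses of the criterion hold for the matrices of part E -/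
theorem badMat {n : ℕ} (c : ℕ) {Φ : (Fin n → ℂ) → (Fin n → ℂ) → ℂ} {m : ℕ} (θ : Fin m → ℂ) {lam : ℂ} (hlam : lam ≠ 0)
    {ε q A c0 CE C : ℝ} {qn T Tn : ℕ} (hqn : (qn : ℝ) = q) (hTn : Tn = qn * T)
    (hbig : Big c ε q A T) (hn : (n : ℝ) + 1 ≤ q) (hCE : CE ≤ q) (hCEA : CE ≤ A)
    (hA1 : 2 * |Real.log ‖lam‖| ≤ A) (hCA : C ≤ A)
    (P : Matrix (Wd n T) (Wd n T) (MvPolynomial (Fin m) ℤ))
    (hdeg : ∀ w w', ((P w w').totalDegree : ℝ) ≤ CE * T) (hlen : ∀ w w', len (P w w') ≤ Real.exp (CE * T * Real.log T))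
    (hval : ∀ w w', MvPolynomial.aeval θ (P w w') = lam ^ ((w.1 : ℕ) + (w'.1 : ℕ)) * mix Φ w.l w'.l)
    (hU : ∀ j : ℕ, ∀ r s : Fin j → Wd n T, ∃ E : Matrix (Fin j) (Fin j) ℂ,
      1 ≤ ‖E.det‖ ∧ (∀ i l, ‖E i l‖ ≤ 1) ∧ ∀ i l, ‖((BM Φ T).submatrix r s * E) i l‖ ≤ j * Real.exp (-c0 * ((l : ℕ) + 1 : ℝ) ^ 2 + C * T * Real.log T))
    (hL : ∀ j : ℕ, 1 ≤ j → (j : ℝ) ≤ (T : ℝ) ^ ((c : ℝ) + 1 - 4 * (ε / 12)) →
      ∃ (U : Matrix (Fin j) (Wd n T) ℂ) (V : Matrix (Wd n T) (Fin j) ℂ),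
        (∀ i a, ‖U i a‖ ≤ Real.exp ((T : ℝ) ^ (6 * (ε / 12)) * ((j : ℝ) ^ 2 + T))) ∧
          (∀ b i, ‖V b i‖ ≤ Real.exp ((T : ℝ) ^ (6 * (ε / 12)) * ((j : ℝ) ^ 2 + T))) ∧ U * BM Φ T * V = 1) :
    BadMat (2 * c) θ ε c0 Tn P := by
  have hTnr : (Tn : ℝ) = q * T := by rw [hTn]; push_cast; rw [hqn]
  have hT1 : (1 : ℝ) ≤ T := hbig.one
  have hT0 : (0 : ℝ) < T := by linarith
  have hlogT : 0 ≤ Real.log T := Real.log_nonneg hT1
  set a : ℝ := |Real.log ‖lam‖| with ha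
  have ha0 : 0 ≤ a := abs_nonneg _
  have hlp : 0 < ‖lam‖ := norm_pos_iff.mpr hlam
  -- powers of lam
  have hpow : ∀ d : ℕ, d ≤ T → ‖lam‖ ^ d ≤ Real.exp (a * T) := by
    intro d hd
    have h1 : ‖lam‖ ^ d = Real.exp (d * Real.log ‖lam‖) := by
      rw [Real.exp_nat_mul, Real.exp_log hlp]
    rw [h1]
    apply Real.exp_le_exp.mpr
    have h2 : (d : ℝ) ≤ T := by exact_mod_cast hd
    calc (d : ℝ) * Real.log ‖lam‖ ≤ d * a := mul_le_mul_of_nonneg_left (le_abs_self _) (Nat.cast_nonneg _)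
      _ ≤ T * a := mul_le_mul_of_nonneg_right h2 ha0
      _ = a * T := by ring
  have hpow' : ∀ d : ℕ, d ≤ T → (‖lam‖ ^ d)⁻¹ ≤ Real.exp (a * T) := by
    intro d hd
    have h1 : ‖lam‖ ^ d = Real.exp (d * Real.log ‖lam‖) := by
      rw [Real.exp_nat_mul, Real.exp_log hlp]
    rw [h1, ← Real.exp_neg]
    apply Real.exp_le_exp.mpr
    have h2 : (d : ℝ) ≤ T := by exact_mod_cast hd
    calc -((d : ℝ) * Real.log ‖lam‖) = d * (-Real.log ‖lam‖) := by ring
      _ ≤ d * a := mul_le_mul_of_nonneg_left (neg_le_abs _) (Nat.cast_nonneg _)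
      _ ≤ T * a := mul_le_mul_of_nonneg_right h2 ha0
      _ = a * T := by ring
  have hev : ∀ w w', evM θ P w w' = lam ^ (w.1 : ℕ) * BM Φ T w w' * lam ^ (w'.1 : ℕ) := by
    intro w w'
    rw [evM, Matrix.map_apply, hval, BM, pow_add]
    ring
  refine ⟨?_, ?_, ?_, ?_, ?_, ?_⟩
  · intro w w'
    have h1 := hdeg w w'
    have h2 : ((P w w').totalDegree : ℝ) ≤ Tn := by
      rw [hTnr]
      exact h1.trans (mul_le_mul_of_nonneg_right hCE hT0.le)
    exact_mod_cast h2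
  · intro w w'
    refine (hlen w w').trans (Real.exp_le_exp.mpr ?_)
    rw [hTnr]
    refine le_trans ?_ hbig.e1
    apply mul_le_mul_of_nonneg_right _ hlogT
    exact mul_le_mul_of_nonneg_right hCEA hT0.le
  · rw [hTnr]
    exact (card_Wd n T).trans (Real.exp_le_exp.mpr (mul_le_mul_of_nonneg_right hn hT0.le))
  · rw [hTnr]
    exact (card_Wd n T).trans (Real.exp_le_exp.mpr (mul_le_mul_of_nonneg_right hn hT0.le))
  · intro j hj1 hjR r s
    obtain ⟨E, hE1, hE2, hE3⟩ := hU j r s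
    have hj1' : (1 : ℝ) ≤ j := by exact_mod_cast hj1
    rw [hTnr] at hjR ⊢
    set mu : ℂ := ((Real.exp (a * T) : ℝ) : ℂ) with hmu
    have hmun : ‖mu‖ = Real.exp (a * T) := by
      rw [hmu, Complex.norm_real, Real.norm_eq_abs, abs_of_pos (Real.exp_pos _)]
    set Dg : Matrix (Fin j) (Fin j) ℂ := Matrix.diagonal (fun i => mu * (lam ^ ((s i).1 : ℕ))⁻¹) with hDg
    have hsd : ∀ i : Fin j, (((s i).1 : Fin T) : ℕ) ≤ T := fun i => (s i).1.2.le
    have hrd : ∀ i : Fin j, (((r i).1 : Fin T) : ℕ) ≤ T := fun i => (r i).1.2.le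
    have hDn : ∀ i, 1 ≤ ‖mu * (lam ^ ((s i).1 : ℕ))⁻¹‖ := by
      intro i
      rw [norm_mul, norm_inv, norm_pow, hmun, ← div_eq_mul_inv, one_le_div (pow_pos hlp _)]
      exact hpow _ (hsd i)
    have hDn2 : ∀ i, ‖mu * (lam ^ ((s i).1 : ℕ))⁻¹‖ ≤ Real.exp (A * T) := by
      intro i
      rw [norm_mul, norm_inv, norm_pow, hmun]
      calc Real.exp (a * T) * (‖lam‖ ^ ((s i).1 : ℕ))⁻¹ ≤ Real.exp (a * T) * Real.exp (a * T) :=
            mul_le_mul_of_nonneg_left (hpow' _ (hsd i)) (Real.exp_pos _).le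
        _ = Real.exp (2 * a * T) := by rw [← Real.exp_add]; ring_nf
        _ ≤ Real.exp (A * T) := Real.exp_le_exp.mpr (mul_le_mul_of_nonneg_right hA1 hT0.le)
    refine ⟨Dg * E, ?_, ?_, ?_⟩
    · rw [Matrix.det_mul, norm_mul, hDg, Matrix.det_diagonal, norm_prod]
      have h1 : 1 ≤ ∏ i, ‖mu * (lam ^ ((s i).1 : ℕ))⁻¹‖ := by
        have := Finset.prod_le_prod (s := (Finset.univ : Finset (Fin j))) (f := fun _ => (1 : ℝ))
          (g := fun i => ‖mu * (lam ^ ((s i).1 : ℕ))⁻¹‖) (fun i _ => zero_le_one) (fun i _ => hDn i)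
        simpa using this
      nlinarith [norm_nonneg E.det]
    · intro i l
      rw [hDg, Matrix.diagonal_mul, norm_mul]
      calc ‖mu * (lam ^ ((s i).1 : ℕ))⁻¹‖ * ‖E i l‖ ≤ Real.exp (A * T) * 1 :=
            mul_le_mul (hDn2 i) (hE2 i l) (norm_nonneg _) (Real.exp_pos _).le
        _ ≤ Real.exp ((q * T) ^ (1 + ε)) := by
            rw [mul_one]
            exact Real.exp_le_exp.mpr hbig.e2
    · intro i l
      have h1 : (((evM θ P).submatrix r s) * (Dg * E)) i l = mu * lam ^ ((r i).1 : ℕ) * (((BM Φ T).submatrix r s * E) i l) := by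
        rw [Matrix.mul_apply, Matrix.mul_apply, Finset.mul_sum]
        apply Finset.sum_congr rfl
        intro t _
        rw [hDg, Matrix.diagonal_mul, Matrix.submatrix_apply, Matrix.submatrix_apply, hev]
        have : lam ^ ((s t).1 : ℕ) ≠ 0 := pow_ne_zero _ hlam
        field_simp
      rw [h1, norm_mul, norm_mul, norm_pow, hmun]
      have h2 := hE3 i l
      have h3 : Real.exp (a * T) * ‖lam‖ ^ ((r i).1 : ℕ) ≤ Real.exp (A * T) := by
        calc Real.exp (a * T) * ‖lam‖ ^ ((r i).1 : ℕ) ≤ Real.exp (a * T) * Real.exp (a * T) :=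
              mul_le_mul_of_nonneg_left (hpow _ (hrd i)) (Real.exp_pos _).le
          _ = Real.exp (2 * a * T) := by rw [← Real.exp_add]; ring_nf
          _ ≤ Real.exp (A * T) := Real.exp_le_exp.mpr (mul_le_mul_of_nonneg_right hA1 hT0.le)
      have h4 := hbig.e3 j hj1' hjR
      calc Real.exp (a * T) * ‖lam‖ ^ ((r i).1 : ℕ) * ‖((BM Φ T).submatrix r s * E) i l‖
          ≤ Real.exp (A * T) * (j * Real.exp (-c0 * ((l : ℕ) + 1 : ℝ) ^ 2 + C * T * Real.log T)) :=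
            mul_le_mul h3 h2 (norm_nonneg _) (Real.exp_pos _).le
        _ = Real.exp (A * T + Real.log j + (-c0 * ((l : ℕ) + 1 : ℝ) ^ 2 + C * T * Real.log T)) := by
            rw [Real.exp_add (A * T + Real.log j), Real.exp_add (A * T), Real.exp_log (show (0 : ℝ) < j by linarith)]
            ring
        _ ≤ Real.exp (-c0 * ((l : ℕ) + 1 : ℝ) ^ 2 + (q * T) ^ (1 + ε)) := by
            apply Real.exp_le_exp.mpr
            have h5 : C * T * Real.log T ≤ A * T * Real.log T :=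
              mul_le_mul_of_nonneg_right (mul_le_mul_of_nonneg_right hCA hT0.le) hlogT
            linarith
  · intro j hj1 hjR
    rw [hTnr] at hjR ⊢
    obtain ⟨U, V, hU1, hV1, hUV⟩ := hL j hj1 (hjR.trans hbig.e4)
    have h5 := hbig.e5 ((j : ℝ) ^ 2) (by positivity)
    have haA : a * T ≤ A * T := mul_le_mul_of_nonneg_right (by linarith) hT0.le
    refine ⟨U * Matrix.diagonal (fun w : Wd n T => (lam ^ (w.1 : ℕ))⁻¹), Matrix.diagonal (fun w : Wd n T => (lam ^ (w.1 : ℕ))⁻¹) * V, ?_, ?_, ?_⟩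
    · intro i w
      rw [Matrix.mul_diagonal, norm_mul, norm_inv, norm_pow]
      calc ‖U i w‖ * (‖lam‖ ^ (w.1 : ℕ))⁻¹ ≤ Real.exp ((T : ℝ) ^ (6 * (ε / 12)) * ((j : ℝ) ^ 2 + T)) * Real.exp (a * T) :=
            mul_le_mul (hU1 i w) (hpow' _ w.1.2.le) (by positivity) (Real.exp_pos _).le
        _ ≤ _ := by
            rw [← Real.exp_add]
            apply Real.exp_le_exp.mpr
            linarith
    · intro w i
      rw [Matrix.diagonal_mul, norm_mul, norm_inv, norm_pow, mul_comm]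
      calc ‖V w i‖ * (‖lam‖ ^ (w.1 : ℕ))⁻¹ ≤ Real.exp ((T : ℝ) ^ (6 * (ε / 12)) * ((j : ℝ) ^ 2 + T)) * Real.exp (a * T) :=
            mul_le_mul (hV1 w i) (hpow' _ w.1.2.le) (by positivity) (Real.exp_pos _).le
        _ ≤ _ := by
            rw [← Real.exp_add]
            apply Real.exp_le_exp.mpr
            linarith
    · have h6 : Matrix.diagonal (fun w : Wd n T => (lam ^ (w.1 : ℕ))⁻¹) * evM θ P * Matrix.diagonal (fun w : Wd n T => (lam ^ (w.1 : ℕ))⁻¹) = BM Φ T := by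
        ext w w'
        rw [Matrix.mul_diagonal, Matrix.diagonal_mul, hev]
        have h7 : lam ^ (w.1 : ℕ) ≠ 0 := pow_ne_zero _ hlam
        have h8 : lam ^ (w'.1 : ℕ) ≠ 0 := pow_ne_zero _ hlam
        field_simp
      calc U * Matrix.diagonal (fun w : Wd n T => (lam ^ (w.1 : ℕ))⁻¹) * evM θ P * (Matrix.diagonal (fun w : Wd n T => (lam ^ (w.1 : ℕ))⁻¹) * V)
          = U * (Matrix.diagonal (fun w : Wd n T => (lam ^ (w.1 : ℕ))⁻¹) * evM θ P * Matrix.diagonal (fun w : Wd n T => (lam ^ (w.1 : ℕ))⁻¹)) * V := by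
            simp only [Matrix.mul_assoc]
        _ = 1 := by rw [h6, hUV]


/-- the analytic core: parts A, C, E give the lower bound for the transcendence degree of `θ` -/
theorem core (hA : ThmA) {n : ℕ} (c : ℕ) {Φ : (Fin n → ℂ) → (Fin n → ℂ) → ℂ} (hL : LB c Φ) (hU : UB Φ) {m : ℕ} (θ : Fin m → ℂ)
    {lam : ℂ} (hlam : lam ≠ 0) (CE : ℝ)
    (hP : ∀ T : ℕ, 2 ≤ T → ∃ P : Matrix (Wd n T) (Wd n T) (MvPolynomial (Fin m) ℤ),
      (∀ w w', ((P w w').totalDegree : ℝ) ≤ CE * T) ∧ (∀ w w', len (P w w') ≤ Real.exp (CE * T * Real.log T)) ∧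
        ∀ w w', MvPolynomial.aeval θ (P w w') = lam ^ ((w.1 : ℕ) + (w'.1 : ℕ)) * mix Φ w.l w'.l) :
    ((2 * c + 1 : ℕ) : Cardinal) ≤ Algebra.trdeg ℚ (Algebra.adjoin ℚ (Set.range θ)) := by
  by_contra hcon
  have htr : Algebra.trdeg ℚ (Algebra.adjoin ℚ (Set.range θ)) ≤ ((2 * c : ℕ) : Cardinal) := by
    rw [not_le] at hcon
    have h1 : Algebra.trdeg ℚ (Algebra.adjoin ℚ (Set.range θ)) < Order.succ ((2 * c : ℕ) : Cardinal) := by
      refine lt_of_lt_of_le hcon ?_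
      have h3 : Order.succ ((2 * c : ℕ) : Cardinal) = ((2 * c + 1 : ℕ) : Cardinal) := by
        rw [Cardinal.succ_natCast]; norm_cast
      rw [h3]
    exact Order.lt_succ_iff.mp h1
  obtain ⟨c0, C, hc0, hUB⟩ := hU
  have hcpos : (0 : ℝ) < 200 * ((c : ℝ) + 1) := by positivity
  set ε : ℝ := 1 / (200 * ((c : ℝ) + 1)) with hε
  have hε0 : 0 < ε := by rw [hε]; positivity
  have hεc : ε * (200 * ((c : ℝ) + 1)) ≤ 1 := by rw [hε]; field_simp; exact le_refl _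
  have hε1 : ε ≤ 1 / 200 := by
    have h1 : (0 : ℝ) ≤ c := Nat.cast_nonneg c
    nlinarith
  obtain ⟨T0, hT0⟩ := hA m (2 * c) θ (by exact_mod_cast htr) ε c0 hε0 (by linarith) hc0
  obtain ⟨T1, hT1⟩ := hL (ε / 12) (by linarith) (by linarith)
  obtain ⟨qn, hqn⟩ := exists_nat_ge (max ((n : ℝ) + 1) CE)
  have hq1 : (n : ℝ) + 1 ≤ qn := (le_max_left _ _).trans hqn
  have hq2 : CE ≤ qn := (le_max_right _ _).trans hqn
  have hq3 : (1 : ℝ) ≤ qn := by
    have := Nat.cast_nonneg (α := ℝ) n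
    linarith
  set A : ℝ := max (max CE C) (2 * |Real.log ‖lam‖|) with hAd
  have hA0 : 0 ≤ A := le_trans (by positivity) (le_max_right _ _)
  have hev := (big c (q := qn) (A := A) hε0 hεc hq3 hA0)
  obtain ⟨x0, hx0⟩ := Filter.eventually_atTop.mp hev
  obtain ⟨T2, hT2⟩ := exists_nat_ge x0
  set T : ℕ := max (max T0 T1) (max T2 2) with hTd
  have hTT0 : T0 ≤ T := (le_max_left _ _).trans (le_max_left _ _)
  have hTT1 : T1 ≤ T := (le_max_right _ _).trans (le_max_left _ _)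
  have hTT2 : T2 ≤ T := (le_max_left _ _).trans (le_max_right _ _)
  have hT2' : 2 ≤ T := (le_max_right _ _).trans (le_max_right _ _)
  have hbig := hx0 (T : ℝ) (hT2.trans (by exact_mod_cast hTT2))
  obtain ⟨P, hdeg, hlen, hval⟩ := hP T hT2'
  have hqn1 : 1 ≤ qn := by exact_mod_cast hq3
  refine hT0 (qn * T) (hTT0.trans (Nat.le_mul_of_pos_left T (by omega))) (Wd n T) (Wd n T) P ?_
  exact badMat c θ hlam rfl rfl hbig hq1 hq2 ((le_max_left _ _).trans (le_max_left _ _)) (le_max_right _ _)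
    ((le_max_right _ _).trans (le_max_left _ _)) P hdeg hlen hval (fun j r s => hUB T j hT2' r s) (fun j hj1 hj2 => hT1 T hTT1 j hj1 hj2)

/-- THE MAIN THEOREM from the five parts -/
theorem main_of (hA : ThmA) (hC : ThmC) (hD1 : ThmD1) (hD2 : ThmD2) (hE : ThmE) (K : Subfield ℂ) (hK : QF K) (n : ℕ)
    (z : Fin n → ℂ) (hzK : ∀ i, z i ∈ K) (him : ∀ i, 0 < (z i).im) (hNQ : ∀ i, NQ (z i)) (hind : ∀ i j, i ≠ j → ¬ GEq (z i) (z j))
    (hj : ∀ i, deriv jj (z i) ≠ 0) :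
    ((2 * n - 1 : ℕ) : Cardinal) ≤ Algebra.trdeg ℚ (IntermediateField.adjoin ℚ
      (⋃ i, {z i, jj (z i), deriv jj (z i), deriv (deriv jj) (z i)} : Set ℂ)) := by
  rcases n with _ | c
  · simp
  obtain ⟨D, idx, hidx⟩ := hD1 K hK c z hzK him hNQ hind
  have hDK : ∀ j, D.z j ∈ K := fun j => by rw [hidx]; exact hzK _
  have hDN : ∀ j, NQ (D.z j) := fun j => by rw [hidx]; exact hNQ _
  have hDG : ∀ i j, D.z i ≠ D.z j → ¬ GEq (D.z i) (D.z j) := by
    intro i j hij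
    rw [hidx, hidx] at hij ⊢
    exact hind _ _ fun h => hij (by rw [h])
  obtain ⟨Φ, C, C', hker, m, θ, lam, CE, hlam, htr, hP⟩ := hE c D hDN (fun j => by rw [hidx]; exact hj _)
  obtain ⟨hI1, hI2⟩ := hD2 K hK c D hDK hDN hDG
  obtain ⟨hLB, hUB⟩ := hC c D Φ C C' hker
  have h1 := core hA c (hLB (hI1 C hker.mulu) (hI2 C' hker.muls)) hUB θ hlam CE hP
  refine h1.trans (htr.trans ?_)
  have hsub : (⋃ j, {D.z j, jj (D.z j), deriv jj (D.z j), deriv (deriv jj) (D.z j)} : Set ℂ) ⊆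
      ⋃ i, {z i, jj (z i), deriv jj (z i), deriv (deriv jj) (z i)} := by
    apply Set.iUnion_subset
    intro j
    rw [hidx j]
    exact Set.subset_iUnion (fun i => ({z i, jj (z i), deriv jj (z i), deriv (deriv jj) (z i)} : Set ℂ)) (idx j)
  have hle := IntermediateField.adjoin.mono ℚ _ _ hsub
  exact trdeg_le_of_injective (IntermediateField.inclusion hle) (IntermediateField.inclusion_injective hle)

end Pool.Agent.LT.ZA
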